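import Mathlib

/-! Definitions used in the statement for MP_4ba0d5_al: Chevalley bases, the Chevalley group scheme of
an integral representation, vanishing of second continuous cohomology. -/

namespace Ch4

open Module

/-- A Chevalley basis (of type the root system `P` with base `b`) of a Lie algebra `L` over `R`:
a basis `h_i` (`i` simple), `e_α` (`α` a root) with the usual structure constants
`[h_i, h_j] = 0`, `[h_i, e_α] = ⟨α, α_i^∨⟩ e_α`, `[e_α, e_{-α}] = h_α` (the integral combination of
the `h_i` given by the coroot `α^∨`), `[e_α, e_β] = ± (r+1) e_{α+β}` when `α + β` is a root, where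
`r` is the largest integer with `β - r α` a root, and `[e_α, e_β] = 0` if `α + β ≠ 0` is not a
root. -/
structure ChevalleyBasis {ι X Y : Type*} [Finite ι] [AddCommGroup X] [Module ℚ X] [AddCommGroup Y]
    [Module ℚ Y] {P : RootPairing ι ℚ X Y} [P.IsCrystallographic]
    (b : P.Base) (R L : Type*) [CommRing R] [LieRing L] [LieAlgebra R L] where
  basis : Basis (b.support ⊕ ι) R L
  N : ι → ι → ℤ
  abs_N : ∀ α β, P.root α + P.root β ∈ Set.range P.root → |N α β| = P.chainBotCoeff α β + 1
  N_zero : ∀ α β, P.root α + P.root β ∉ Set.range P.root → N α β = 0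
  lie_h_h : ∀ i j, ⁅basis (.inl i), basis (.inl j)⁆ = 0
  lie_h_e : ∀ i α, ⁅basis (.inl i), basis (.inr α)⁆ = (P.pairingIn ℤ α i : R) • basis (.inr α)
  lie_e_neg : ∀ α β (c : b.support → ℤ), P.root β = -P.root α →
    P.coroot α = ∑ i, c i • P.coroot i →
    ⁅basis (.inr α), basis (.inr β)⁆ = ∑ i, (c i : R) • basis (.inl i)
  lie_e_e : ∀ α β γ, P.root γ = P.root α + P.root β →
    ⁅basis (.inr α), basis (.inr β)⁆ = (N α β : R) • basis (.inr γ)
  lie_e_e_zero : ∀ α β, P.root α + P.root β ≠ 0 → P.root α + P.root β ∉ Set.range P.root →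
    ⁅basis (.inr α), basis (.inr β)⁆ = 0

variable {ι X Y : Type*} [AddCommGroup X] [Module ℚ X] [AddCommGroup Y] [Module ℚ Y]
  {P : RootPairing ι ℚ X Y} [P.IsCrystallographic] {b : P.Base}

/-- the root vector `e_α` -/
noncomputable abbrev ChevalleyBasis.e [Finite ι] {R L : Type*} [CommRing R] [LieRing L]
    [LieAlgebra R L] (B : ChevalleyBasis b R L) (α : ι) : L := B.basis (.inr α)

/-- A pair of square matrices. -/
abbrev MatPair (n m R : Type*) := Matrix n n R × Matrix m m R

/-- The value of a polynomial with integral coefficients, in the matrix entries of a pair of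
matrices, at a pair of matrices over `R`. -/
noncomputable def evalPair {n m R : Type*} [CommRing R] (q : MatPair n m R)
    (F : MvPolynomial ((n × n) ⊕ (m × m)) ℤ) : R :=
  MvPolynomial.aeval (Sum.elim (fun ij => q.1 ij.1 ij.2) (fun ij => q.2 ij.1 ij.2)) F

/-- `A` as a matrix over `ℚ` -/
def matQ {n : Type*} (A : Matrix n n ℤ) : Matrix n n ℚ := A.map (Int.castRingHom ℚ)

variable [Fintype ι] [DecidableEq ι] {LZ : Type*} [LieRing LZ] (B : ChevalleyBasis b ℤ LZ)

/-- The matrix of `ad x` with respect to the Chevalley basis. -/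
noncomputable def adMat (x : LZ) : Matrix (b.support ⊕ ι) (b.support ⊕ ι) ℤ :=
  Matrix.of fun k u => B.basis.repr ⁅x, B.basis u⁆ k

variable {n : Type*} [Fintype n] [DecidableEq n] (ρ : LZ →+ Matrix n n ℤ)

/-- The root element `(exp (t ρ(e_α)), exp (t ad e_α))`, `t ∈ ℚ`. -/
noncomputable def rootPair (α : ι) (t : ℚ) : MatPair n (b.support ⊕ ι) ℚ :=
  (IsNilpotent.exp (t • matQ (ρ (B.e α))), IsNilpotent.exp (t • matQ (adMat B (B.e α))))

/-- The Chevalley group over `ℚ` of the representation `ρ ⊕ ad`, generated by the root elements (the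
inverse of the root element with parameter `t` is the one with parameter `-t`). -/
noncomputable def chevQ : Submonoid (MatPair n (b.support ⊕ ι) ℚ) :=
  Submonoid.closure (Set.range fun q : ι × ℚ => rootPair B ρ q.1 q.2)

/-- The `R`-points of the Chevalley group scheme, the schematic closure over `ℤ` of the Chevalley
group over `ℚ`: the pairs of matrices over `R` at which all polynomials with integral coefficients
vanish which vanish on the Chevalley group over `ℚ`. -/
def chevPts (R : Type*) [CommRing R] : Set (MatPair n (b.support ⊕ ι) R) :=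
  {q | ∀ F : MvPolynomial ((n × n) ⊕ ((b.support ⊕ ι) × (b.support ⊕ ι))) ℤ,
    (∀ g ∈ chevQ B ρ, evalPair g F = 0) → evalPair q F = 0}

/-- `ρ` is a representation: `ρ [x, y] = ρ(x) ρ(y) - ρ(y) ρ(x)`. -/
def IsRep (ρ : LZ →+ Matrix n n ℤ) : Prop := ∀ x y, ρ ⁅x, y⁆ = ρ x * ρ y - ρ y * ρ x

/-- `G` is the group of `ℤ_p`-points of the Chevalley group scheme (with the topology of
`GL_n(ℤ_p) × GL_m(ℤ_p)`). -/
def IsChevZp (p : ℕ) [Fact p.Prime] (G : Subgroup ((Matrix n n ℤ_[p])ˣ ×
    (Matrix (b.support ⊕ ι) (b.support ⊕ ι) ℤ_[p])ˣ)) : Prop :=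
  ∀ g, g ∈ G ↔ ((g.1 : Matrix n n ℤ_[p]),
    (g.2 : Matrix (b.support ⊕ ι) (b.support ⊕ ι) ℤ_[p])) ∈ chevPts B ρ ℤ_[p]

open scoped TensorProduct in
/-- The adjoint action on `𝔽_p ⊗ LZ`: the point `(g, a)` acts by the linear map whose matrix with
respect to the Chevalley basis is `a` modulo `p`. -/
noncomputable def adjointAct (p : ℕ) [Fact p.Prime]
    (a : (Matrix (b.support ⊕ ι) (b.support ⊕ ι) ℤ_[p])ˣ) (v : (ZMod p) ⊗[ℤ] LZ) :
    (ZMod p) ⊗[ℤ] LZ :=
  Matrix.toLin (B.basis.baseChange (ZMod p)) (B.basis.baseChange (ZMod p))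
    ((a : Matrix (b.support ⊕ ι) (b.support ⊕ ι) ℤ_[p]).map PadicInt.toZMod) v

/-- `H²(Γ, M) = 0`, where `M` is a discrete module on which the topological group `Γ` acts through
`act`: every continuous (that is, locally constant) 2-cocycle `F : Γ × Γ → M` is the coboundary of a
continuous 1-cochain `c : Γ → M`. -/
def H2Vanishes (Γ M : Type*) [Group Γ] [TopologicalSpace Γ] [AddCommGroup M]
    (act : Γ → M → M) : Prop :=
  ∀ F : Γ × Γ → M, IsLocallyConstant F →
    (∀ g h k, act g (F (h, k)) - F (g * h, k) + F (g, h * k) - F (g, h) = 0) →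
    ∃ c : Γ → M, IsLocallyConstant c ∧ ∀ g h, F (g, h) = act g (c h) - c (g * h) + c g

end Ch4
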