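import Mathlib
import Pool.Agent.Lib.P4ba0d5.Defs

/-! Chevalley bases over a commutative ring, truncated exponentials, root elements. -/

set_option linter.unusedSectionVars false
set_option linter.unusedVariables false

namespace Ch4

open Module

section Exp

/-- `E4 u D = 1 + D + 3u D² + u D³` (with `6 u = 1`: the truncated exponential). -/
def E4 {R L : Type*} [CommRing R] [AddCommGroup L] [Module R L] (u : R) (D : Module.End R L) :
    Module.End R L := 1 + D + (3 * u) • D ^ 2 + u • D ^ 3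

theorem E4_apply {R L : Type*} [CommRing R] [AddCommGroup L] [Module R L] (u : R)
    (D : Module.End R L)
    (x : L) : E4 u D x = x + D x + (3 * u) • D (D x) + u • D (D (D x)) := by
  simp [E4, pow_succ]

/-- `exp D = 1 + D + D²/2 + D³/6`, the exponential of an endomorphism `D` with `D⁴ = 0`
(over a ring in which `2` and `3` are invertible). -/
noncomputable def expNil {R L : Type*} [CommRing R] [AddCommGroup L] [Module R L]
    (D : Module.End R L) : Module.End R L :=
  ∑ k ∈ Finset.range 4, Ring.inverse (k.factorial : R) • D ^ k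

variable {R L : Type*} [CommRing R] [LieRing L] [LieAlgebra R L]

/-- In a ring where `720 = 6!` is a unit, there is `u` with `6 u = 1`, and the exponential is
`1 + D + 3u D² + u D³`. -/
theorem exists_inv6 (R : Type*) [CommRing R] (h : IsUnit (720 : R)) : ∃ u : R, 6 * u = 1 ∧
    ∀ {L : Type*} [AddCommGroup L] [Module R L] (D : Module.End R L), expNil D = E4 u D := by
  have h6 : IsUnit (6 : R) := isUnit_of_dvd_unit ⟨120, by norm_num⟩ h
  have h2 : IsUnit (2 : R) := isUnit_of_dvd_unit ⟨360, by norm_num⟩ h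
  refine ⟨Ring.inverse 6, Ring.mul_inverse_cancel _ h6, ?_⟩
  intro L _ _ D
  have e2 : Ring.inverse (2 : R) = 3 * Ring.inverse 6 := by
    have h1 : (2 : R) * Ring.inverse 2 = 1 := Ring.mul_inverse_cancel _ h2
    have h3 : (6 : R) * Ring.inverse 6 = 1 := Ring.mul_inverse_cancel _ h6
    have : (2 : R) * Ring.inverse 2 = 2 * (3 * Ring.inverse 6) := by
      rw [h1]; linear_combination -h3
    exact h2.mul_left_cancel this
  have f3 : (Nat.factorial 3 : R) = 6 := by norm_num [Nat.factorial]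
  have f2 : (Nat.factorial 2 : R) = 2 := by norm_num [Nat.factorial]
  simp only [expNil, Finset.sum_range_succ, Finset.sum_range_zero, zero_add, f3, f2, e2]
  simp [E4]

theorem expNil_zero {L : Type*} [AddCommGroup L] [Module R L] :
    expNil (0 : Module.End R L) = 1 := by
  simp [expNil, Finset.sum_range_succ]

theorem comm_exp {R S : Type*} [CommRing R] [CommRing S] [Algebra R S] (h : IsUnit (720 : R))
    (u : R) (hu : 6 * u = 1) (a b : S) (ha : a ^ 4 = 0) (hb : b ^ 4 = 0) (hc : (a + b) ^ 4 = 0) :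
    (1 + a + (3 * u) • a ^ 2 + u • a ^ 3) * (1 + b + (3 * u) • b ^ 2 + u • b ^ 3) =
      1 + (a + b) + (3 * u) • (a + b) ^ 2 + u • (a + b) ^ 3 := by
  set v : S := algebraMap R S u with hv
  have hv1 : 6 * v = 1 := by
    rw [hv, ← map_ofNat (algebraMap R S) 6, ← map_mul, hu, map_one]
  have h20 : IsUnit (20 : S) := by
    have : IsUnit (20 : R) := isUnit_of_dvd_unit ⟨36, by norm_num⟩ h
    have := this.map (algebraMap R S)
    rwa [map_ofNat] at this
  have e1 : a ^ 2 * b ^ 3 = 0 := by
    have : (20 : S) * (a ^ 2 * b ^ 3) = 20 * 0 := by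
      linear_combination (6 * b - 4 * a) * hc + (10 * b + 4 * a) * ha - (20 * a + 6 * b) * hb
    exact h20.mul_left_cancel this
  have e2 : a ^ 3 * b ^ 2 = 0 := by
    have : (20 : S) * (a ^ 3 * b ^ 2) = 20 * 0 := by
      linear_combination (6 * a - 4 * b) * hc - (6 * a + 20 * b) * ha + (10 * a + 4 * b) * hb
    exact h20.mul_left_cancel this
  have e3 : a ^ 3 * b ^ 3 = 0 := by linear_combination a * e1
  simp only [Algebra.smul_def, map_mul, map_ofNat, ← hv]
  linear_combination (9 * v ^ 3) * hc - 9 * v ^ 3 * (ha + hb) + 3 * v ^ 2 * (e1 + e2) + v ^ 2 * e3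
    - (a * b + v * (1 + 6 * v) * (a * b ^ 3 + a ^ 3 * b) + 9 * v ^ 2 * a ^ 2 * b ^ 2) * hv1

set_option linter.deprecated false in
theorem E4_mul {R L : Type*} [CommRing R] [AddCommGroup L] [Module R L] (h : IsUnit (720 : R))
    (u : R) (hu : 6 * u = 1) (a b : Module.End R L) (hab : Commute a b) (ha : a ^ 4 = 0)
    (hb : b ^ 4 = 0) (hc : (a + b) ^ 4 = 0) : E4 u a * E4 u b = E4 u (a + b) := by
  have hcomm : ∀ x ∈ ({a, b} : Set (Module.End R L)), ∀ y ∈ ({a, b} : Set (Module.End R L)),
      x * y = y * x := by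
    rintro x (rfl | rfl) y (rfl | rfl)
    · rfl
    · exact hab.eq
    · exact hab.eq.symm
    · rfl
  let _i := Algebra.adjoinCommRingOfComm R hcomm
  let a' : Algebra.adjoin R ({a, b} : Set (Module.End R L)) :=
    ⟨a, Algebra.subset_adjoin (by simp)⟩
  let b' : Algebra.adjoin R ({a, b} : Set (Module.End R L)) :=
    ⟨b, Algebra.subset_adjoin (by simp)⟩
  have key := comm_exp (R := R) (S := Algebra.adjoin R ({a, b} : Set (Module.End R L))) h u hu a' b'
    (Subtype.ext (by simpa using ha)) (Subtype.ext (by simpa using hb))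
    (Subtype.ext (by simpa using hc))
  have := congrArg (Subtype.val) key
  simpa [E4] using this

/-- exponential law for commuting endomorphisms. -/
theorem expNil_mul {R L : Type*} [CommRing R] [AddCommGroup L] [Module R L]
    (h : IsUnit (720 : R)) (A B : Module.End R L) (hAB : Commute A B)
    (hA : A ^ 4 = 0) (hB : B ^ 4 = 0) (hC : (A + B) ^ 4 = 0) :
    expNil A * expNil B = expNil (A + B) := by
  obtain ⟨u, hu, he⟩ := exists_inv6 R h
  rw [he, he, he]
  exact E4_mul h u hu A B hAB hA hB hC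

theorem E4_lie (h : IsUnit (720 : R)) (u : R)
    (hu : 6 * u = 1) (D : Module.End R L) (hD : ∀ x y, D ⁅x, y⁆ = ⁅D x, y⁆ + ⁅x, D y⁆)
    (h4 : D ^ 4 = 0) (x y : L) :
    E4 u D ⁅x, y⁆ = ⁅E4 u D x, E4 u D y⁆ := by
  have hpow : ∀ z, D (D (D (D z))) = 0 := by
    intro z
    have := congrArg (fun f : Module.End R L => f z) h4
    simpa [pow_succ] using this
  have hy1 : ∀ (x y : L), D (D ⁅x, y⁆) = ⁅D (D x), y⁆ + 2 • ⁅D x, D y⁆ + ⁅x, D (D y)⁆ := by
    intro x y; rw [hD, map_add, hD, hD]; abel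
  have hy2 : ∀ (x y : L), D (D (D ⁅x, y⁆)) =
      ⁅D (D (D x)), y⁆ + 3 • ⁅D (D x), D y⁆ + 3 • ⁅D x, D (D y)⁆ + ⁅x, D (D (D y))⁆ := by
    intro x y; rw [hy1]; simp only [map_add, map_nsmul, hD]; abel
  have hy3 : ∀ (x y : L), 4 • ⁅D (D (D x)), D y⁆ + 6 • ⁅D (D x), D (D y)⁆
      + 4 • ⁅D x, D (D (D y))⁆ = 0 := by
    intro x y
    have e := hpow ⁅x, y⁆
    rw [hy2] at e
    simp only [map_add, map_nsmul, hD, hpow, zero_lie, lie_zero, zero_add, add_zero] at e
    rw [← e]; abel
  set x1 := D x with hx1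
  set x2 := D x1 with hx2
  set x3 := D x2 with hx3
  set y1 := D y with hyy1
  set y2 := D y1 with hyy2
  set y3 := D y2 with hyy3
  have hx4 : D x3 = 0 := hpow x
  have hy4 : D y3 = 0 := hpow y
  have e4 : (4 : R) • ⁅x3, y1⁆ + (6 : R) • ⁅x2, y2⁆ + (4 : R) • ⁅x1, y3⁆ = 0 := by
    have := hy3 x y
    simpa only [← Nat.cast_smul_eq_nsmul R, Nat.cast_ofNat] using this
  have e5 : (10 : R) • ⁅x3, y2⁆ + (10 : R) • ⁅x2, y3⁆ = 0 := by
    have := congrArg D e4
    simp only [map_add, map_smul, hD, ← hx2, ← hx3, ← hyy2, ← hyy3, hx4, hy4, zero_lie, lie_zero,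
      map_zero, add_zero, zero_add] at this
    rw [← this]; module
  have e6 : (20 : R) • ⁅x3, y3⁆ = 0 := by
    have := congrArg D e5
    simp only [map_add, map_smul, hD, ← hx3, ← hyy3, hx4, hy4, zero_lie, lie_zero,
      map_zero, add_zero, zero_add] at this
    rw [← this]; module
  have i10 : IsUnit (10 : R) := isUnit_of_dvd_unit ⟨72, by norm_num⟩ h
  have i20 : IsUnit (20 : R) := isUnit_of_dvd_unit ⟨36, by norm_num⟩ h
  have f5 : ⁅x3, y2⁆ + ⁅x2, y3⁆ = 0 := by
    rw [← i10.smul_eq_zero]; rw [smul_add]; exact e5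
  have f6 : ⁅x3, y3⁆ = 0 := i20.smul_eq_zero.mp e6
  rw [E4_apply, E4_apply, E4_apply, hy2, hy1, hD]
  simp only [← hx1, ← hx2, ← hx3, ← hyy1, ← hyy2, ← hyy3]
  simp only [add_lie, lie_add, smul_lie, lie_smul]
  -- degree-4 part
  have g4 : u • ⁅x3, y1⁆ + (3 * u) • (3 * u) • ⁅x2, y2⁆ + u • ⁅x1, y3⁆ = 0 := by
    have c1 : (36 * u ^ 3) = u := by linear_combination u * (6 * u + 1) * hu
    have c2 : (54 * u ^ 3) = 9 * u ^ 2 := by linear_combination 9 * u ^ 2 * hu
    have := congrArg (fun z => (9 * u ^ 3) • z) e4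
    simp only [smul_add, smul_smul, smul_zero] at this
    have d1 : 9 * u ^ 3 * 4 = u := by linear_combination c1
    have d2 : 9 * u ^ 3 * 6 = (3 * u) * (3 * u) := by linear_combination c2
    rw [d1, d2] at this
    rw [smul_smul]; exact this
  have g5 : u • (3 * u) • ⁅x3, y2⁆ + (3 * u) • u • ⁅x2, y3⁆ = 0 := by
    have := congrArg (fun z => (3 * u ^ 2) • z) f5
    simp only [smul_add, smul_zero] at this
    rw [← this]; module
  have c6 : ∀ z : L, z = (6 * u) • z := fun z => by rw [hu, one_smul]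
  have k1 : ⁅x1, y1⁆ = (6 * u) • ⁅x1, y1⁆ := c6 _
  rw [f6]
  linear_combination (norm := module) (-1 : R) • k1 - g4 - g5

/-- The exponential of a nilpotent derivation is a Lie algebra endomorphism. -/
theorem expNil_lie (h : IsUnit (720 : R)) (z : L) (h4 : (LieAlgebra.ad R L z) ^ 4 = 0) (x y : L) :
    expNil (LieAlgebra.ad R L z) ⁅x, y⁆ =
      ⁅expNil (LieAlgebra.ad R L z) x, expNil (LieAlgebra.ad R L z) y⁆ := by
  obtain ⟨u, hu, he⟩ := exists_inv6 R h
  rw [he]
  exact E4_lie h u hu _ (fun x y => by simp [LieAlgebra.ad_apply]) h4 x y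

/-- conjugating root elements by Lie endomorphisms. -/
theorem mul_expNil_ad (g : Module.End R L) (hg : ∀ x y, g ⁅x, y⁆ = ⁅g x, g y⁆) (z : L) :
    g * expNil (LieAlgebra.ad R L z) = expNil (LieAlgebra.ad R L (g z)) * g := by
  have h1 : g * LieAlgebra.ad R L z = LieAlgebra.ad R L (g z) * g := by
    ext x; simp [LieAlgebra.ad_apply, hg]
  have h2 : ∀ k : ℕ, g * (LieAlgebra.ad R L z) ^ k = (LieAlgebra.ad R L (g z)) ^ k * g := by
    intro k
    induction k with
    | zero => simp
    | succ k ih => rw [pow_succ, ← mul_assoc, ih, mul_assoc, h1, ← mul_assoc, ← pow_succ]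
  simp only [expNil, Finset.mul_sum, Finset.sum_mul, mul_smul_comm, smul_mul_assoc, h2]

end Exp

section Chev

variable {ι X Y : Type*} [Finite ι] [AddCommGroup X] [Module ℚ X] [AddCommGroup Y] [Module ℚ Y]
  {P : RootPairing ι ℚ X Y} [P.IsRootSystem] [P.IsCrystallographic] [P.IsReduced]

/-- The index of the root `-α`. -/
abbrev ng (P : RootPairing ι ℚ X Y) (α : ι) : ι := P.reflectionPerm α α

theorem root_ng (P : RootPairing ι ℚ X Y) (α : ι) : P.root (ng P α) = -P.root α := by
  simp [ng, RootPairing.root_reflectionPerm, RootPairing.reflection_apply_self]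

theorem ng_ng (P : RootPairing ι ℚ X Y) (α : ι) : ng P (ng P α) = α := by
  apply P.root.injective
  rw [root_ng, root_ng, neg_neg]

theorem exists_cc (b : P.Base) (α : ι) :
    ∃ c : b.support → ℤ, P.coroot α = ∑ i, c i • P.coroot i := by
  have h := b.coroot_mem_span_int α
  rw [Set.image_eq_range, Submodule.mem_span_range_iff_exists_fun] at h
  obtain ⟨c, hc⟩ := h
  exact ⟨c, by rw [← hc]; rfl⟩

/-- integral coordinates of the coroot `α^∨` -/
noncomputable def cc (b : P.Base) (α : ι) : b.support → ℤ := (exists_cc b α).choose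

theorem cc_spec (b : P.Base) (α : ι) : P.coroot α = ∑ i, cc b α i • P.coroot i :=
  (exists_cc b α).choose_spec

theorem sum_cc_pairing (b : P.Base) (α β : ι) :
    ∑ i, cc b α i * P.pairingIn ℤ β i = P.pairingIn ℤ β α := by
  have h1 : P.toLinearMap (P.root β) (P.coroot α) = (P.pairingIn ℤ β α : ℚ) := by
    rw [P.root_coroot_eq_pairing, ← P.algebraMap_pairingIn ℤ]; simp
  have h2 : P.toLinearMap (P.root β) (∑ i, cc b α i • P.coroot i)
      = ((∑ i, cc b α i * P.pairingIn ℤ β i : ℤ) : ℚ) := by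
    rw [map_sum]
    push_cast
    refine Finset.sum_congr rfl fun i _ => ?_
    rw [map_zsmul, P.root_coroot_eq_pairing, ← P.algebraMap_pairingIn ℤ]
    simp
  rw [← cc_spec, h1] at h2
  exact_mod_cast h2.symm

theorem linIndep_of_ne {α β : ι} (h : α ≠ β) (h' : P.root α ≠ -P.root β) :
    LinearIndependent ℚ ![P.root α, P.root β] :=
  RootPairing.IsReduced.linearIndependent P h h'

theorem root_add_ne_zero {α β : ι} (h' : P.root α ≠ -P.root β) : P.root α + P.root β ≠ 0 := by
  intro h
  exact h' (eq_neg_of_add_eq_zero_left h)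

variable {b : P.Base} {R L : Type*} [CommRing R] [LieRing L] [LieAlgebra R L]

namespace ChevalleyBasis

variable (B : ChevalleyBasis b R L)

/-- the element `h_i`, `i` simple -/
noncomputable abbrev h (i : b.support) : L := B.basis (.inl i)

/-- the element `h_α` -/
noncomputable def hc (α : ι) : L := ∑ i, (cc b α i : R) • B.h i

theorem lie_e_ng (α : ι) : ⁅B.e α, B.e (ng P α)⁆ = B.hc α :=
  B.lie_e_neg α _ (cc b α) (root_ng P α) (cc_spec b α)

/-- `[c·h, e_β] = (Σ c_i ⟨β, α_i^∨⟩) e_β`. -/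
theorem lie_sum_h (c : b.support → R) (β : ι) :
    ⁅∑ i, c i • B.h i, B.e β⁆ = (∑ i, c i * (P.pairingIn ℤ β i : R)) • B.e β := by
  rw [_root_.sum_lie]  
  simp only [smul_lie, B.lie_h_e, smul_smul, Finset.sum_smul]

theorem lie_hc (α β : ι) : ⁅B.hc α, B.e β⁆ = (P.pairingIn ℤ β α : R) • B.e β := by
  rw [hc, lie_sum_h, ← sum_cc_pairing b α β]
  push_cast
  rfl

theorem lie_sum_h_h (c : b.support → R) (j : b.support) :
    ⁅∑ i, c i • B.h i, B.h j⁆ = 0 := by
  rw [_root_.sum_lie]
  exact Finset.sum_eq_zero fun i _ => by rw [smul_lie, B.lie_h_h, smul_zero]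

theorem lie_h_sum (j : b.support) (c : b.support → R) :
    ⁅B.h j, ∑ i, c i • B.h i⁆ = 0 := by
  rw [_root_.lie_sum]
  exact Finset.sum_eq_zero fun i _ => by rw [lie_smul, B.lie_h_h, smul_zero]

theorem lie_e_h (α : ι) (i : b.support) : ⁅B.e α, B.h i⁆ = -((P.pairingIn ℤ α i : R) • B.e α) := by
  rw [← lie_skew, B.lie_h_e]

theorem lie_e_hc (α β : ι) : ⁅B.e β, B.hc α⁆ = -((P.pairingIn ℤ β α : R) • B.e β) := by
  rw [← lie_skew, B.lie_hc]

theorem ad_pow_e {α β : ι} (hli : LinearIndependent ℚ ![P.root α, P.root β]) (k : ℕ) :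
    ((LieAlgebra.ad R L (B.e α)) ^ k) (B.e β) = 0 ∨ ∃ (γ : ι) (c : R),
      P.root γ = P.root β + k • P.root α ∧ ((LieAlgebra.ad R L (B.e α)) ^ k) (B.e β) = c • B.e γ := by
  induction k with
  | zero => exact Or.inr ⟨β, 1, by simp, by simp⟩
  | succ k ih =>
    rcases ih with h0 | ⟨γ, c, hγ, hc⟩
    · left; rw [pow_succ', Module.End.mul_apply, h0, map_zero]
    · rw [pow_succ', Module.End.mul_apply, hc, map_smul, LieAlgebra.ad_apply]
      have hne : P.root α + P.root γ ≠ 0 := by
        rw [hγ]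
        intro h0
        have := (LinearIndependent.pair_iff.mp hli) (1 + k) 1 (by
          rw [← h0]; simp only [← Nat.cast_smul_eq_nsmul ℚ]; module)
        exact one_ne_zero this.2
      by_cases hr : P.root α + P.root γ ∈ Set.range P.root
      · obtain ⟨κ, hκ⟩ := hr
        right
        refine ⟨κ, c * (B.N α γ : R), ?_, ?_⟩
        · rw [hκ, hγ, succ_nsmul]; abel
        · rw [B.lie_e_e α γ κ hκ, smul_smul]
      · left
        rw [B.lie_e_e_zero α γ hne hr, smul_zero]

/-- `ad e_α` is nilpotent of order `4`. -/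
theorem ad_e_pow_four (α : ι) : (LieAlgebra.ad R L (B.e α)) ^ 4 = 0 := by
  have hee : (LieAlgebra.ad R L (B.e α)) (B.e α) = 0 := by rw [LieAlgebra.ad_apply, lie_self]
  apply B.basis.ext
  rintro (i | β)
  · have h1 : (LieAlgebra.ad R L (B.e α)) (B.h i) = -((P.pairingIn ℤ α i : R) • B.e α) := by
      rw [LieAlgebra.ad_apply, B.lie_e_h]
    have h2 : ((LieAlgebra.ad R L (B.e α)) ^ 2) (B.h i) = 0 := by
      rw [pow_two, Module.End.mul_apply, h1, map_neg, map_smul, hee, smul_zero, neg_zero]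
    have : (LieAlgebra.ad R L (B.e α)) ^ 4 =
      (LieAlgebra.ad R L (B.e α)) ^ 2 * (LieAlgebra.ad R L (B.e α)) ^ 2 := by rw [← pow_add]
    rw [this, Module.End.mul_apply, h2, map_zero, LinearMap.zero_apply]
  · by_cases h1 : α = β
    · subst h1
      rw [pow_succ, Module.End.mul_apply]
      rw [show B.basis (.inr α) = B.e α from rfl, hee, map_zero, LinearMap.zero_apply]
    by_cases h2 : P.root α = -P.root β
    · have hβ : β = ng P α := by
        apply P.root.injective
        rw [root_ng, h2, neg_neg]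
      subst hβ
      have e1 : (LieAlgebra.ad R L (B.e α)) (B.e (ng P α)) = B.hc α := by
        rw [LieAlgebra.ad_apply, B.lie_e_ng]
      have e1' : (LieAlgebra.ad R L (B.e α)) (B.hc α) = -((P.pairingIn ℤ α α : R) • B.e α) := by
        rw [LieAlgebra.ad_apply, B.lie_e_hc]
      have e2 : ((LieAlgebra.ad R L (B.e α)) ^ 3) (B.e (ng P α)) = 0 := by
        rw [pow_succ, pow_two, Module.End.mul_apply, Module.End.mul_apply, e1,
          e1', map_neg, map_smul, hee, smul_zero, neg_zero]
      rw [show B.basis (.inr (ng P α)) = B.e (ng P α) from rfl, pow_succ', Module.End.mul_apply,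
        e2, map_zero, LinearMap.zero_apply]
    · have hli := linIndep_of_ne h1 h2
      rcases B.ad_pow_e hli 4 with h0 | ⟨γ, c, hγ, -⟩
      · rw [LinearMap.zero_apply]; exact h0
      · exfalso
        have h3 := (P.root_add_nsmul_mem_range_iff_le_chainTopCoeff hli (n := 4)).mp ⟨γ, hγ⟩
        have h4 := RootPairing.chainBotCoeff_add_chainTopCoeff_le_three (P := P) (i := α) (j := β)
        omega

theorem ad_smul_e_pow_four (α : ι) (t : R) : (LieAlgebra.ad R L (t • B.e α)) ^ 4 = 0 := by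
  rw [map_smul, smul_pow, ad_e_pow_four, smul_zero]

/-- The root element `x_α(t) = exp(t ad e_α)`. -/
noncomputable def x (α : ι) (t : R) : Module.End R L :=
  expNil (LieAlgebra.ad R L (t • B.e α))

theorem x_zero (α : ι) : B.x α 0 = 1 := by simp [x, expNil_zero]

theorem x_add (h7 : IsUnit (720 : R)) (α : ι) (s t : R) : B.x α s * B.x α t = B.x α (s + t) := by
  rw [x, x, x, add_smul, map_add]
  apply expNil_mul h7 _ _ _ (B.ad_smul_e_pow_four α s) (B.ad_smul_e_pow_four α t)
  · rw [← map_add, ← add_smul]; exact B.ad_smul_e_pow_four α _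
  · simp only [map_smul]
    exact ((Commute.refl _).smul_left _).smul_right _

theorem x_mul_neg (h7 : IsUnit (720 : R)) (α : ι) (t : R) : B.x α t * B.x α (-t) = 1 := by
  rw [x_add B h7, add_neg_cancel, x_zero]

theorem x_pow (h7 : IsUnit (720 : R)) (α : ι) (t : R) (n : ℕ) :
    (B.x α t) ^ n = B.x α (n * t) := by
  induction n with
  | zero => simp [x_zero]
  | succ n ih => rw [pow_succ, ih, x_add B h7]; congr 1; push_cast; ring

theorem x_lie (h7 : IsUnit (720 : R)) (α : ι) (t : R) (y z : L) :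
    B.x α t ⁅y, z⁆ = ⁅B.x α t y, B.x α t z⁆ :=
  expNil_lie h7 _ (B.ad_smul_e_pow_four α t) y z

/-- The group (submonoid of `End L`, closed under inverses) generated by the root elements: the
elementary adjoint Chevalley group over `R`. -/
noncomputable def elem : Submonoid (Module.End R L) :=
  Submonoid.closure (Set.range fun q : ι × R => B.x q.1 q.2)

theorem x_mem (α : ι) (t : R) : B.x α t ∈ B.elem :=
  Submonoid.subset_closure ⟨(α, t), rfl⟩

theorem elem_lie (h7 : IsUnit (720 : R)) {g : Module.End R L} (hg : g ∈ B.elem) (y z : L) :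
    g ⁅y, z⁆ = ⁅g y, g z⁆ := by
  induction hg using Submonoid.closure_induction generalizing y z with
  | mem g hg => obtain ⟨⟨α, t⟩, rfl⟩ := hg; exact B.x_lie h7 α t y z
  | one => rfl
  | mul g₁ g₂ _ _ ih₁ ih₂ => simp only [Module.End.mul_apply, ih₁, ih₂]

theorem elem_inv (h7 : IsUnit (720 : R)) {g : Module.End R L} (hg : g ∈ B.elem) :
    ∃ g' ∈ B.elem, g * g' = 1 ∧ g' * g = 1 := by
  induction hg using Submonoid.closure_induction with
  | mem g hg =>
    obtain ⟨⟨α, t⟩, rfl⟩ := hg
    refine ⟨B.x α (-t), B.x_mem _ _, B.x_mul_neg h7 α t, ?_⟩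
    have := B.x_mul_neg h7 α (-t)
    rwa [neg_neg] at this
  | one => exact ⟨1, one_mem _, by simp, by simp⟩
  | mul g₁ g₂ _ _ ih₁ ih₂ =>
    obtain ⟨h₁, hh₁, a₁, b₁⟩ := ih₁
    obtain ⟨h₂, hh₂, a₂, b₂⟩ := ih₂
    refine ⟨h₂ * h₁, mul_mem hh₂ hh₁, ?_, ?_⟩
    · rw [mul_assoc, ← mul_assoc g₂, a₂, one_mul, a₁]
    · rw [mul_assoc, ← mul_assoc h₁, b₁, one_mul, b₂]

/-! ### Weights -/

end ChevalleyBasis

/-- `f` is the restriction to the roots of a linear functional (integral on roots). -/
def IsWt (P : RootPairing ι ℚ X Y) (f : ι → ℤ) : Prop :=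
  ∃ φ : X →ₗ[ℚ] ℚ, ∀ α, φ (P.root α) = f α

theorem IsWt.add {f : ι → ℤ} (hf : IsWt P f) {α β γ : ι} (h : P.root γ = P.root α + P.root β) :
    f γ = f α + f β := by
  obtain ⟨φ, hφ⟩ := hf
  have := congrArg φ h
  rw [map_add, hφ, hφ, hφ] at this
  exact_mod_cast this

theorem IsWt.neg {f : ι → ℤ} (hf : IsWt P f) {α β : ι} (h : P.root β = -P.root α) :
    f β = - f α := by
  obtain ⟨φ, hφ⟩ := hf
  have := congrArg φ h
  rw [map_neg, hφ, hφ] at this
  exact_mod_cast this

/-- The weight of a basis element. -/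
def wt {b : P.Base} (f : ι → ℤ) : b.support ⊕ ι → ℤ := Sum.elim (fun _ => 0) f

@[simp] theorem wt_inl {b : P.Base} (f : ι → ℤ) (i : b.support) :
    wt (b := b) f (.inl i) = 0 := rfl
@[simp] theorem wt_inr {b : P.Base} (f : ι → ℤ) (α : ι) :
    wt (b := b) f (.inr α) = f α := rfl

namespace ChevalleyBasis

variable (B : ChevalleyBasis b R L)

theorem repr_lie_ne {f : ι → ℤ} (hf : IsWt P f) (u v w : b.support ⊕ ι)
    (h : B.basis.repr ⁅B.basis u, B.basis v⁆ w ≠ 0) : wt f w = wt f u + wt f v := by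
  classical
  rcases u with i | α <;> rcases v with j | β
  · rw [B.lie_h_h, map_zero] at h; exact absurd rfl h
  · rw [B.lie_h_e, map_smul, B.basis.repr_self, Finsupp.smul_single, Finsupp.single_apply] at h
    split_ifs at h with h1
    · rw [← h1]; simp
    · exact absurd rfl h
  · rw [show B.basis (.inr α) = B.e α from rfl, show B.basis (.inl j) = B.h j from rfl,
      B.lie_e_h, map_neg, map_smul, B.basis.repr_self, Finsupp.smul_single, Finsupp.neg_apply,
      Finsupp.single_apply] at h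
    split_ifs at h with h1
    · rw [← h1]; simp
    · exact absurd neg_zero h
  · by_cases h2 : P.root α = -P.root β
    · have hβ : β = ng P α := by
        apply P.root.injective
        rw [root_ng, h2, neg_neg]
      subst hβ
      rw [show B.basis (.inr α) = B.e α from rfl,
        show B.basis (.inr (ng P α)) = B.e (ng P α) from rfl, B.lie_e_ng, hc] at h
      rw [wt_inr, wt_inr, hf.neg (root_ng P α), add_neg_cancel]
      rcases w with i | γ
      · rfl
      · exfalso; apply h
        rw [map_sum, Finsupp.finsetSum_apply]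
        refine Finset.sum_eq_zero fun i _ => ?_
        rw [map_smul, B.basis.repr_self, Finsupp.smul_single, Finsupp.single_apply,
          if_neg (by simp)]
    · by_cases hr : P.root α + P.root β ∈ Set.range P.root
      · obtain ⟨κ, hκ⟩ := hr
        rw [B.lie_e_e α β κ hκ, map_smul, B.basis.repr_self, Finsupp.smul_single,
          Finsupp.single_apply] at h
        split_ifs at h with h1
        · rw [← h1, wt_inr, wt_inr, wt_inr, hf.add hκ]
        · exact absurd rfl h
      · rw [B.lie_e_e_zero α β (root_add_ne_zero h2) hr, map_zero] at h; exact absurd rfl h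

/-- the submodule of elements all of whose components have weight `≥ k` -/
noncomputable def Fil (f : ι → ℤ) (k : ℤ) : Submodule R L where
  carrier := {x | ∀ u, wt f u < k → B.basis.repr x u = 0}
  zero_mem' := by intro u _; simp
  add_mem' := by intro x y hx hy u hu; simp [hx u hu, hy u hu]
  smul_mem' := by intro c x hx u hu; simp [hx u hu]

theorem mem_Fil {f : ι → ℤ} {k : ℤ} {x : L} :
    x ∈ B.Fil f k ↔ ∀ u, wt f u < k → B.basis.repr x u = 0 := Iff.rfl

theorem Fil_anti {f : ι → ℤ} {k l : ℤ} (h : k ≤ l) : B.Fil f l ≤ B.Fil f k :=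
  fun x hx u hu => hx u (lt_of_lt_of_le hu h)

theorem basis_mem_Fil (f : ι → ℤ) (u : b.support ⊕ ι) : B.basis u ∈ B.Fil f (wt f u) := by
  classical
  intro v hv
  rw [B.basis.repr_self, Finsupp.single_apply, if_neg]
  rintro rfl; exact lt_irrefl _ hv

theorem lie_mem_Fil {f : ι → ℤ} (hf : IsWt P f) {k l : ℤ} {x y : L} (hx : x ∈ B.Fil f k)
    (hy : y ∈ B.Fil f l) : ⁅x, y⁆ ∈ B.Fil f (k + l) := by
  classical
  have : Fintype ι := Fintype.ofFinite ι
  intro w hw
  have ex := B.basis.sum_repr x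
  have ey := B.basis.sum_repr y
  rw [← ex, ← ey, _root_.sum_lie, map_sum, Finsupp.finsetSum_apply]
  refine Finset.sum_eq_zero fun u _ => ?_
  rw [_root_.lie_sum, map_sum, Finsupp.finsetSum_apply]
  refine Finset.sum_eq_zero fun v _ => ?_
  rw [smul_lie, lie_smul, map_smul, map_smul, Finsupp.smul_apply, Finsupp.smul_apply]
  by_cases h1 : wt f u < k
  · rw [hx u h1, zero_smul]
  by_cases h2 : wt f v < l
  · rw [hy v h2, zero_smul, smul_zero]
  by_cases h3 : B.basis.repr ⁅B.basis u, B.basis v⁆ w = 0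
  · rw [h3, smul_zero, smul_zero]
  · have := B.repr_lie_ne hf u v w h3
    omega

end ChevalleyBasis

end Chev

end Ch4
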