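import Mathlib
import Pool.Agent.Lib.P4ba0d5.Base

/-! Common definitions for the Lie algebra mod `p`: the standing assumption `Good`, the Weyl group
element `nel`, the filtered automorphisms `UF`. -/

set_option linter.unusedSectionVars false
set_option linter.unusedVariables false

namespace Ch4

open Module

variable {ι X Y : Type*} [Finite ι] [AddCommGroup X] [Module ℚ X] [AddCommGroup Y] [Module ℚ Y]
  {P : RootPairing ι ℚ X Y} [P.IsRootSystem] [P.IsCrystallographic] [P.IsReduced]

/-- Standing assumption: `f` is a generic integral weight, positive exactly on the positive roots,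
`D` is a denominator for solving Cartan matrix equations and `p` is large with respect to
everything. -/
structure Good (b : P.Base) (f : ι → ℤ) (D : ℤ) (p : ℕ) : Prop where
  isWt : IsWt P f
  pos : ∀ α, b.IsPos α ↔ 0 < f α
  ne : ∀ α, f α ≠ 0
  inj : Function.Injective f
  add : ∀ α β γ, f α + f β = f γ → P.root α + P.root β = P.root γ
  D_ne : D ≠ 0
  solve : ∀ g : ι → ℤ, IsWt P g →
    ∃ m : b.support → ℤ, ∀ α, ∑ i, m i * P.pairingIn ℤ α i = D * g α
  bound : ∀ α, 1000 * (|f α| + 1) * (|D| + 1) < p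
  bound_ht : ∀ α, 1000 * (|b.height α| + 1) * (|D| + 1) < p
  bound_card : 2 * Nat.card ι + 1000 < p

theorem isWt_height (b : P.Base) : IsWt P b.height := by
  refine ⟨(b.toWeightBasis.constr ℚ (fun _ => (1 : ℚ))), fun α => ?_⟩
  obtain ⟨c, hc1, -, hc⟩ := b.exists_root_eq_sum_int α
  rw [RootPairing.Base.height_eq_sum hc, hc, map_sum]
  push_cast
  refine Finset.sum_congr rfl fun i hi => ?_
  rw [map_zsmul]
  have : (b.toWeightBasis.constr ℚ (fun _ => (1 : ℚ))) (P.root i) = 1 := by
    have := b.toWeightBasis.constr_basis ℚ (fun _ => (1 : ℚ)) ⟨i, hi⟩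
    rwa [RootPairing.Base.toWeightBasis_apply] at this
  rw [this]; simp

variable {b : P.Base} {f : ι → ℤ} {D : ℤ} {p : ℕ} [Fact p.Prime]

theorem Good.lt (hG : Good b f D p) : 1000 < p := by
  have := hG.bound_card
  omega

theorem natCast_ne_zero_of_lt {p : ℕ} [Fact p.Prime] {n : ℕ} (h0 : n ≠ 0) (h : n < p) :
    (n : ZMod p) ≠ 0 := by
  intro h1
  rw [ZMod.natCast_eq_zero_iff] at h1
  exact absurd (Nat.le_of_dvd (Nat.pos_of_ne_zero h0) h1) (by omega)

theorem Good.isUnit720 (hG : Good b f D p) : IsUnit (720 : ZMod p) := by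
  have : ((720 : ℕ) : ZMod p) ≠ 0 := natCast_ne_zero_of_lt (by norm_num) (by have := hG.lt; omega)
  rw [isUnit_iff_ne_zero]
  exact_mod_cast this

theorem intCast_ne_zero_of_lt {p : ℕ} [Fact p.Prime] {n : ℤ} (h0 : n ≠ 0) (h : |n| < p) :
    (n : ZMod p) ≠ 0 := by
  intro h1
  rw [ZMod.intCast_zmod_eq_zero_iff_dvd] at h1
  have h2 := Int.le_of_dvd (abs_pos.mpr h0) ((dvd_abs _ _).mpr h1)
  omega

variable {L : Type*} [LieRing L] [LieAlgebra (ZMod p) L]

namespace ChevalleyBasis

variable (B : ChevalleyBasis b (ZMod p) L)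

/-- `n_α = x_α(1) x_{-α}(-1) x_α(1)` -/
noncomputable def nel (α : ι) : Module.End (ZMod p) L :=
  B.x α 1 * B.x (ng P α) (-1) * B.x α 1

/-- Lie algebra endomorphisms `g` such that `g - 1` raises the `f`-weight by at least `k`. -/
def UF (f : ι → ℤ) (k : ℤ) : Set (Module.End (ZMod p) L) :=
  {g | (∀ x y, g ⁅x, y⁆ = ⁅g x, g y⁆) ∧
    ∀ u, g (B.basis u) - B.basis u ∈ B.Fil f (wt f u + k)}

end ChevalleyBasis

end Ch4
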