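import Mathlib
import Pool.Agent.Lib.P4ba0d5.Base
import Pool.Agent.Lib.P4ba0d5.Good

/-! All derivations of the Chevalley Lie algebra modulo a large prime are inner. -/

set_option linter.unusedSectionVars false
set_option linter.unusedVariables false

namespace Ch4

open Module

section Lie

variable {ι X Y : Type*} [Finite ι] [AddCommGroup X] [Module ℚ X] [AddCommGroup Y] [Module ℚ Y]
  {P : RootPairing ι ℚ X Y} [P.IsRootSystem] [P.IsCrystallographic] [P.IsReduced]
  {b : P.Base} {f : ι → ℤ} {D : ℤ} {p : ℕ} [Fact p.Prime]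

open Classical in
omit [P.IsReduced] in
/-- The coordinate at a simple root is an integral weight. -/
theorem exists_coord (b : P.Base) (j : b.support) : ∃ g : ι → ℤ, IsWt P g ∧
    ∀ j' : b.support, g j' = if j' = j then 1 else 0 := by
  choose c hc1 hc2 hc3 using fun i => b.exists_root_eq_sum_int i
  have hφ : ∀ α, b.toWeightBasis.coord j (P.root α) = (c α j : ℚ) := by
    intro α
    rw [hc3 α, map_sum, Finset.sum_eq_single (j : ι)]
    · rw [map_zsmul]
      have h1 : P.root (j : ι) = b.toWeightBasis j := by simp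
      rw [h1, Basis.coord_apply, Basis.repr_self, Finsupp.single_eq_same]
      simp
    · intro i hi hij
      rw [map_zsmul]
      have h1 : P.root i = b.toWeightBasis ⟨i, hi⟩ := by simp
      rw [h1, Basis.coord_apply, Basis.repr_self, Finsupp.single_apply, if_neg, smul_zero]
      intro h
      exact hij (congrArg Subtype.val h)
    · intro h; exact absurd j.2 h
  refine ⟨fun α => c α j, ⟨b.toWeightBasis.coord j, hφ⟩, fun j' => ?_⟩
  have h1 := hφ j'
  have h2 : P.root (j' : ι) = b.toWeightBasis j' := by simp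
  rw [h2, Basis.coord_apply, Basis.repr_self, Finsupp.single_apply] at h1
  have h3 : ((c (j' : ι) (j : ι) : ℤ) : ℚ) = ((if j' = j then 1 else 0 : ℤ) : ℚ) := by
    rw [← h1]; push_cast; rfl
  exact_mod_cast h3

theorem Good.D_ne_zero (hG : Good b f D p) (α : ι) : (D : ZMod p) ≠ 0 := by
  apply intCast_ne_zero_of_lt hG.D_ne
  have h1 := hG.bound α
  have h2 := abs_nonneg (f α)
  have h3 := abs_nonneg D
  nlinarith

/-- Solving for an integral weight. -/
theorem Good.exists_wt (hG : Good b f D p) {g : ι → ℤ} (hg : IsWt P g) :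
    ∃ c : b.support → ZMod p, ∀ α, ∑ i, c i * (P.pairingIn ℤ α i : ZMod p) = (g α : ZMod p) := by
  obtain ⟨m, hm⟩ := hG.solve g hg
  refine ⟨fun i => (D : ZMod p)⁻¹ * (m i : ZMod p), fun α => ?_⟩
  have h1 := congrArg (Int.cast : ℤ → ZMod p) (hm α)
  push_cast at h1
  have h2 := hG.D_ne_zero α
  calc ∑ i, (D : ZMod p)⁻¹ * (m i : ZMod p) * (P.pairingIn ℤ α i : ZMod p)
      = (D : ZMod p)⁻¹ * ∑ i, (m i : ZMod p) * (P.pairingIn ℤ α i : ZMod p) := by
        rw [Finset.mul_sum]; exact Finset.sum_congr rfl fun i _ => by ring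
    _ = (D : ZMod p)⁻¹ * ((D : ZMod p) * (g α : ZMod p)) := by rw [h1]
    _ = _ := by rw [← mul_assoc, inv_mul_cancel₀ h2, one_mul]

/-- Solving for given values at the simple roots. -/
theorem Good.exists_simple (hG : Good b f D p) (d : b.support → ZMod p) :
    ∃ c : b.support → ZMod p, ∀ j : b.support,
      ∑ i, c i * (P.pairingIn ℤ (j : ι) i : ZMod p) = d j := by
  classical
  choose g hg1 hg2 using fun j : b.support => exists_coord b j
  choose c hc using fun j : b.support => hG.exists_wt (hg1 j)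
  refine ⟨fun i => ∑ j, d j * c j i, fun j' => ?_⟩
  calc ∑ i, (∑ j, d j * c j i) * (P.pairingIn ℤ (j' : ι) i : ZMod p)
      = ∑ j, d j * ∑ i, c j i * (P.pairingIn ℤ (j' : ι) i : ZMod p) := by
        simp only [Finset.sum_mul, Finset.mul_sum]
        rw [Finset.sum_comm]
        exact Finset.sum_congr rfl fun j _ => Finset.sum_congr rfl fun i _ => by ring
    _ = ∑ j, d j * ((if j' = j then 1 else 0 : ℤ) : ZMod p) := by
        refine Finset.sum_congr rfl fun j _ => ?_
        rw [hc, hg2]
    _ = d j' := by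
        rw [Finset.sum_eq_single j']
        · simp
        · intro j _ hj
          rw [if_neg (Ne.symm hj)]; simp
        · intro h; exact absurd (Finset.mem_univ _) h

/-- The toral part is determined by its values at the simple roots. -/
theorem Good.simple_inj (hG : Good b f D p) {c : b.support → ZMod p}
    (hc : ∀ j : b.support, ∑ i, c i * (P.pairingIn ℤ (j : ι) i : ZMod p) = 0) : c = 0 := by
  classical
  let φ : (b.support → ZMod p) →ₗ[ZMod p] (b.support → ZMod p) :=
    { toFun := fun c j => ∑ i, c i * (P.pairingIn ℤ (j : ι) i : ZMod p)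
      map_add' := by
        intro x y; funext j
        simp only [Pi.add_apply, add_mul, Finset.sum_add_distrib]
      map_smul' := by
        intro r x; funext j
        simp only [Pi.smul_apply, smul_eq_mul, RingHom.id_apply, Finset.mul_sum, mul_assoc] }
  have hs : Function.Surjective φ := by
    intro d
    obtain ⟨c, hc⟩ := hG.exists_simple d
    exact ⟨c, funext hc⟩
  have hi : Function.Injective φ := LinearMap.injective_iff_surjective.2 hs
  apply hi
  rw [map_zero]
  exact funext hc

variable {L : Type*} [LieRing L] [LieAlgebra (ZMod p) L]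

namespace ChevalleyBasis

section gen

variable {R L' : Type*} [CommRing R] [LieRing L'] [LieAlgebra R L'] (B : ChevalleyBasis b R L')

/-- Coordinates of the bracket with a toral element. -/
theorem repr_lie_h (c : b.support → R) (x : L') (u : b.support ⊕ ι) :
    B.basis.repr ⁅∑ i, c i • B.h i, x⁆ u =
      (Sum.elim (fun _ => 0) (fun γ => ∑ i, c i * (P.pairingIn ℤ γ i : R)) u) *
        B.basis.repr x u := by
  classical
  have key : (B.basis.coord u) ∘ₗ (LieAlgebra.ad R L' (∑ i, c i • B.h i) : L' →ₗ[R] L') =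
      (Sum.elim (fun _ => 0) (fun γ => ∑ i, c i * (P.pairingIn ℤ γ i : R)) u) •
        B.basis.coord u := by
    apply B.basis.ext
    rintro (j | β)
    · rw [LinearMap.comp_apply, LieAlgebra.ad_apply, LinearMap.smul_apply,
        show B.basis (.inl j) = B.h j from rfl, B.lie_sum_h_h, map_zero, Basis.coord_apply,
        Basis.repr_self, Finsupp.single_apply]
      rcases u with k | γ
      · simp
      · simp
    · rw [LinearMap.comp_apply, LieAlgebra.ad_apply, LinearMap.smul_apply,
        show B.basis (.inr β) = B.e β from rfl, B.lie_sum_h, map_smul, Basis.coord_apply,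
        Basis.repr_self, Finsupp.single_apply]
      rcases u with k | γ
      · simp
      · by_cases h : β = γ
        · subst h; simp
        · simp [h]
  exact LinearMap.congr_fun key x

/-- An element without root components. -/
theorem eq_sum_h {x : L'} (hx : ∀ γ, B.basis.repr x (.inr γ) = 0) :
    x = ∑ i, B.basis.repr x (.inl i) • B.h i := by
  have : Fintype ι := Fintype.ofFinite ι
  conv_lhs => rw [← B.basis.sum_repr x]
  rw [Fintype.sum_sum_type]
  simp only [hx, zero_smul, Finset.sum_const_zero, add_zero]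

end gen

variable (B : ChevalleyBasis b (ZMod p) L)

/-- Different weights stay different modulo `p`. -/
theorem wt_ne (hG : Good b f D p) {u : b.support ⊕ ι} {γ : ι} (hu : u ≠ .inr γ) :
    (wt f u : ZMod p) ≠ (f γ : ZMod p) := by
  intro h
  have h1 : ((wt f u - f γ : ℤ) : ZMod p) = 0 := by push_cast; rw [h, sub_self]
  refine intCast_ne_zero_of_lt (n := wt f u - f γ) ?_ ?_ h1
  · rcases u with i | β
    · rw [wt_inl, zero_sub, neg_ne_zero]; exact hG.ne γ
    · rw [wt_inr, sub_ne_zero]
      intro h2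
      exact hu (by rw [hG.inj h2])
  · have hb : ∀ α, 1000 * (|f α| + 1) < p := by
      intro α
      have h1 := hG.bound α
      have h2 := abs_nonneg (f α)
      have h3 := abs_nonneg D
      nlinarith
    have h3 : |wt (b := b) f u - f γ| ≤ |wt (b := b) f u| + |f γ| := abs_sub _ _
    have h4 := hb γ
    have h6 := abs_nonneg (f γ)
    rcases u with i | β
    · rw [wt_inl, abs_zero] at h3
      rw [wt_inl]
      omega
    · rw [wt_inr] at h3 ⊢
      have h5 := hb β
      have h7 := abs_nonneg (f β)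
      omega

theorem f_ne (hG : Good b f D p) (γ : ι) : (f γ : ZMod p) ≠ 0 := by
  apply intCast_ne_zero_of_lt (hG.ne γ)
  have h1 := hG.bound γ
  have h2 := abs_nonneg (f γ)
  have h3 := abs_nonneg D
  nlinarith

/-- A toral element commuting with all root vectors is zero. -/
theorem toral_eq_zero (hG : Good b f D p) {c : b.support → ZMod p}
    (hc : ∀ γ, ⁅∑ i, c i • B.h i, B.e γ⁆ = 0) : c = 0 := by
  apply hG.simple_inj
  intro j
  have h1 := hc j
  rw [B.lie_sum_h] at h1
  have h2 := congrArg (fun y => B.basis.repr y (.inr (j : ι))) h1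
  simpa using h2

include B in
theorem ad_inj (hG : Good b f D p) (z : L) (hz : ∀ y : L, ⁅z, y⁆ = 0) : z = 0 := by
  obtain ⟨c0, hc0⟩ := hG.exists_wt hG.isWt
  have h1 : ∀ γ, B.basis.repr z (.inr γ) = 0 := by
    intro γ
    have h2 := B.repr_lie_h c0 z (.inr γ)
    rw [← lie_skew, hz, neg_zero, map_zero, Finsupp.coe_zero, Pi.zero_apply, Sum.elim_inr,
      hc0] at h2
    exact (mul_eq_zero.1 h2.symm).resolve_left (f_ne hG γ)
  have h2 := B.eq_sum_h h1
  have h3 : (fun i => B.basis.repr z (.inl i)) = 0 := by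
    apply B.toral_eq_zero hG
    intro γ
    rw [← h2]
    exact hz _
  rw [h2]
  refine Finset.sum_eq_zero fun i _ => ?_
  rw [show B.basis.repr z (.inl i) = 0 from congrFun h3 i, zero_smul]

include B in
theorem der_inner (hG : Good b f D p) (T : Module.End (ZMod p) L)
    (hT : ∀ y z, T ⁅y, z⁆ = ⁅T y, z⁆ + ⁅y, T z⁆) : ∃ z : L, ∀ y, T y = ⁅z, y⁆ := by
  classical
  have _i : Fintype ι := Fintype.ofFinite ι
  obtain ⟨c0, hc0⟩ := hG.exists_wt hG.isWt
  set h0 : L := ∑ i, c0 i • B.h i with hh0
  have hh : ∀ x u, B.basis.repr ⁅h0, x⁆ u = (wt f u : ZMod p) * B.basis.repr x u := by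
    intro x u
    rw [hh0, B.repr_lie_h]
    congr 1
    rcases u with i | γ
    · simp
    · rw [Sum.elim_inr, wt_inr, hc0]
  have hh0e : ∀ γ, ⁅h0, B.e γ⁆ = (f γ : ZMod p) • B.e γ := by
    intro γ
    rw [hh0, B.lie_sum_h, hc0]
  -- Step 1
  let z1 : L := - ∑ γ, (B.basis.repr (T h0) (.inr γ) / (f γ : ZMod p)) • B.e γ
  have hz1 : ⁅z1, h0⁆ = ∑ γ, B.basis.repr (T h0) (.inr γ) • B.e γ := by
    rw [← lie_skew]
    show - ⁅h0, - ∑ γ, (B.basis.repr (T h0) (.inr γ) / (f γ : ZMod p)) • B.e γ⁆ = _
    rw [lie_neg, neg_neg, _root_.lie_sum]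
    refine Finset.sum_congr rfl fun γ _ => ?_
    rw [lie_smul, hh0e, smul_smul, div_mul_cancel₀ _ (f_ne hG γ)]
  let T1 : Module.End (ZMod p) L := T - LieAlgebra.ad (ZMod p) L z1
  have hT1a : ∀ y, T1 y = T y - ⁅z1, y⁆ := fun y => rfl
  have hT1 : ∀ y z, T1 ⁅y, z⁆ = ⁅T1 y, z⁆ + ⁅y, T1 z⁆ := by
    intro y z
    rw [hT1a, hT1a, hT1a, hT, sub_lie, lie_sub, leibniz_lie z1 y z]
    abel
  have hT1h : ∀ γ, B.basis.repr (T1 h0) (.inr γ) = 0 := by
    intro γ
    rw [hT1a, hz1, map_sub, Finsupp.sub_apply,
      map_sum B.basis.repr (fun γ => B.basis.repr (T h0) (.inr γ) • B.e γ),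
      Finsupp.finsetSum_apply, Finset.sum_eq_single γ]
    · rw [map_smul, B.basis.repr_self, Finsupp.smul_apply, Finsupp.single_eq_same, smul_eq_mul,
        mul_one, sub_self]
    · intro β _ hβ
      rw [map_smul, B.basis.repr_self, Finsupp.smul_apply, Finsupp.single_apply, if_neg, smul_zero]
      intro h
      exact hβ (Sum.inr_injective h)
    · intro h; exact absurd (Finset.mem_univ _) h
  set c1 : b.support → ZMod p := fun i => B.basis.repr (T1 h0) (.inl i) with hc1
  have hT1h0 : T1 h0 = ∑ i, c1 i • B.h i := B.eq_sum_h hT1h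
  -- Step 2
  have hTe : ∀ γ, ∃ d : ZMod p, T1 (B.e γ) = d • B.e γ := by
    intro γ
    refine ⟨B.basis.repr (T1 (B.e γ)) (.inr γ), ?_⟩
    have h1 := hT1 h0 (B.e γ)
    rw [hh0e, map_smul, hT1h0, B.lie_sum_h] at h1
    apply B.basis.ext_elem
    intro u
    rw [map_smul, B.basis.repr_self, Finsupp.smul_apply]
    by_cases hu : u = .inr γ
    · subst hu
      rw [Finsupp.single_eq_same, smul_eq_mul, mul_one]
    · rw [Finsupp.single_apply, if_neg (Ne.symm hu), smul_zero]
      have h2 := congrArg (fun y => B.basis.repr y u) h1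
      simp only [map_smul, map_add, Finsupp.smul_apply, Finsupp.add_apply, hh, B.basis.repr_self,
        Finsupp.single_apply, if_neg (Ne.symm hu), smul_eq_mul, mul_zero, zero_add] at h2
      have h3 : ((wt f u : ZMod p) - (f γ : ZMod p)) * B.basis.repr (T1 (B.e γ)) u = 0 := by
        rw [sub_mul, ← h2, sub_self]
      exact (mul_eq_zero.1 h3).resolve_left (sub_ne_zero.2 (wt_ne hG hu))
  choose d hd using hTe
  have hTh : ∀ i, T1 (B.h i) = 0 := by
    intro i
    -- `T1 h0` commutes with everything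
    have h0e : ⁅h0, B.h i⁆ = 0 := by rw [hh0, B.lie_sum_h_h]
    have h1 := hT1 h0 (B.h i)
    rw [h0e, map_zero, hT1h0, B.lie_sum_h_h, zero_add] at h1
    have h2 : ∀ γ, B.basis.repr (T1 (B.h i)) (.inr γ) = 0 := by
      intro γ
      have h3 := congrArg (fun y => B.basis.repr y (.inr γ)) h1
      simp only [map_zero, Finsupp.coe_zero, Pi.zero_apply, hh, wt_inr] at h3
      exact (mul_eq_zero.1 h3.symm).resolve_left (f_ne hG γ)
    have h3 := B.eq_sum_h h2
    have h4 : (fun j => B.basis.repr (T1 (B.h i)) (.inl j)) = 0 := by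
      apply B.toral_eq_zero hG
      intro γ
      rw [← h3]
      have h5 := hT1 (B.h i) (B.e γ)
      rw [B.lie_h_e, map_smul, show B.basis (.inr γ) = B.e γ from rfl, hd, lie_smul,
        B.lie_h_e, smul_comm] at h5
      have h6 := sub_eq_zero.2 h5
      rw [sub_add_eq_sub_sub, sub_right_comm, sub_self, zero_sub, neg_eq_zero] at h6
      exact h6
    rw [h3]
    refine Finset.sum_eq_zero fun j _ => ?_
    rw [show B.basis.repr (T1 (B.h i)) (.inl j) = 0 from congrFun h4 j, zero_smul]
  -- Step 3
  obtain ⟨c2, hc2⟩ := hG.exists_simple (fun j => d j)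
  have hne : ∀ γ, B.e γ ≠ 0 := fun γ => by
    have : Nontrivial (ZMod p) := inferInstance
    exact B.basis.ne_zero _
  have hdneg : ∀ γ, d (ng P γ) = - d γ := by
    intro γ
    have h1 := hT1 (B.e γ) (B.e (ng P γ))
    rw [B.lie_e_ng, hd, hd, smul_lie, lie_smul, B.lie_e_ng, ← add_smul] at h1
    have h2 : T1 (B.hc γ) = 0 := by
      rw [hc, map_sum]
      exact Finset.sum_eq_zero fun i _ => by rw [map_smul, hTh, smul_zero]
    rw [h2] at h1
    have h3 := congrArg (fun y => ⁅y, B.e γ⁆) h1
    simp only [zero_lie, smul_lie, B.lie_hc] at h3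
    rw [P.pairingIn_same, smul_smul] at h3
    have h4 := (smul_eq_zero.1 h3.symm).resolve_right (hne γ)
    have h5 : ((2 : ℤ) : ZMod p) ≠ 0 := intCast_ne_zero_of_lt (by norm_num) (by
      have := hG.lt; norm_num; omega)
    have h6 := (mul_eq_zero.1 h4).resolve_right h5
    exact eq_neg_of_add_eq_zero_right h6
  have hdadd : ∀ α β γ, P.root γ = P.root α + P.root β → d γ = d α + d β := by
    intro α β γ h
    have h1 := hT1 (B.e α) (B.e β)
    rw [B.lie_e_e α β γ h, map_smul, show B.basis (.inr γ) = B.e γ from rfl, hd, hd, hd, smul_lie,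
      lie_smul, B.lie_e_e α β γ h, ← add_smul, smul_smul, smul_smul] at h1
    have h2 := sub_eq_zero.2 h1
    rw [show B.basis (.inr γ) = B.e γ from rfl, ← sub_smul] at h2
    have h3 := (smul_eq_zero.1 h2).resolve_right (hne γ)
    have h4 : (B.N α β : ZMod p) ≠ 0 := by
      have h5 := B.abs_N α β ⟨γ, h⟩
      apply intCast_ne_zero_of_lt
      · intro h6
        rw [h6, abs_zero] at h5
        omega
      · rw [h5]
        have h7 : P.chainBotCoeff α β ≤ 3 := by
          have := RootPairing.chainBotCoeff_add_chainTopCoeff_le_three (P := P) (i := α) (j := β)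
          omega
        have := hG.lt
        omega
    have h5 : (B.N α β : ZMod p) * (d γ - (d α + d β)) = 0 := by rw [← h3]; ring
    exact sub_eq_zero.1 ((mul_eq_zero.1 h5).resolve_left h4)
  -- Step 4
  have hall : ∀ γ, ∑ i, c2 i * (P.pairingIn ℤ γ i : ZMod p) = d γ := by
    have hneg : ∀ γ (i : b.support), P.pairingIn ℤ (ng P γ) i = - P.pairingIn ℤ γ i := by
      intro γ i
      have h1 : P.pairing (ng P γ) i = - P.pairing γ i := by
        rw [← P.root_coroot_eq_pairing, root_ng, map_neg, LinearMap.neg_apply,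
          P.root_coroot_eq_pairing]
      rw [← P.algebraMap_pairingIn ℤ, ← P.algebraMap_pairingIn ℤ] at h1
      simp only [algebraMap_int_eq, Int.coe_castRingHom] at h1
      exact_mod_cast h1
    have hadd : ∀ α β γ (i : b.support), P.root γ = P.root α + P.root β →
        P.pairingIn ℤ γ i = P.pairingIn ℤ α i + P.pairingIn ℤ β i := by
      intro α β γ i h
      have h1 : P.pairing γ i = P.pairing α i + P.pairing β i := by
        rw [← P.root_coroot_eq_pairing, h, map_add, LinearMap.add_apply,
          P.root_coroot_eq_pairing, P.root_coroot_eq_pairing]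
      rw [← P.algebraMap_pairingIn ℤ, ← P.algebraMap_pairingIn ℤ,
        ← P.algebraMap_pairingIn ℤ] at h1
      simp only [algebraMap_int_eq, Int.coe_castRingHom] at h1
      exact_mod_cast h1
    intro γ
    refine b.induction_add γ (p := fun γ => ∑ i, c2 i * (P.pairingIn ℤ γ i : ZMod p) = d γ)
      ?_ ?_ ?_
    · intro α h
      show ∑ i, c2 i * (P.pairingIn ℤ (ng P α) i : ZMod p) = d (ng P α)
      rw [hdneg, ← h, ← Finset.sum_neg_distrib]
      refine Finset.sum_congr rfl fun i _ => ?_
      rw [hneg]; push_cast; ring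
    · intro α hα
      exact hc2 ⟨α, hα⟩
    · intro α β γ hγ h1 h2
      rw [hdadd α β γ hγ, ← h1, ← hc2 ⟨β, h2⟩, ← Finset.sum_add_distrib]
      refine Finset.sum_congr rfl fun i _ => ?_
      rw [hadd α β γ i hγ]; push_cast; ring
  have hT1z : T1 = LieAlgebra.ad (ZMod p) L (∑ i, c2 i • B.h i) := by
    apply B.basis.ext
    rintro (i | γ)
    · rw [show B.basis (.inl i) = B.h i from rfl, hTh, LieAlgebra.ad_apply, B.lie_sum_h_h]
    · rw [show B.basis (.inr γ) = B.e γ from rfl, hd, LieAlgebra.ad_apply, B.lie_sum_h, hall]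
  refine ⟨z1 + ∑ i, c2 i • B.h i, fun y => ?_⟩
  rw [add_lie]
  have h1 : T1 y = ⁅∑ i, c2 i • B.h i, y⁆ := by rw [hT1z]; rfl
  rw [← h1, hT1a]
  abel

end ChevalleyBasis

end Lie

end Ch4
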