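import Mathlib
import Pool.Agent.Lib.P4ba0d5.Base
import Pool.Agent.Lib.P4ba0d5.Good
import Pool.Agent.Lib.P4ba0d5.Der

/-! Reduction modulo `p` and the congruence filtration. -/

set_option linter.unusedSectionVars false
set_option linter.unusedVariables false

namespace Ch4

open Module

section Padic

variable {ι X Y : Type*} [Finite ι] [AddCommGroup X] [Module ℚ X] [AddCommGroup Y] [Module ℚ Y]
  {P : RootPairing ι ℚ X Y} [P.IsRootSystem] [P.IsCrystallographic] [P.IsReduced]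
  {b : P.Base} {f : ι → ℤ} {D : ℤ} {p : ℕ} [Fact p.Prime]
  {L : Type*} [LieRing L] [LieAlgebra ℤ_[p] L]
  {Lp : Type*} [LieRing Lp] [LieAlgebra (ZMod p) Lp]

/-- reduction data: `Lp` is `L` mod `p`, with compatible Chevalley bases. -/
structure RedData (B : ChevalleyBasis b ℤ_[p] L) (Bp : ChevalleyBasis b (ZMod p) Lp)
    (red : L →+ Lp) : Prop where
  smul : ∀ (r : ℤ_[p]) (x : L), red (r • x) = (PadicInt.toZMod r) • red x
  basis : ∀ u, red (B.basis u) = Bp.basis u
  N : B.N = Bp.N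

/-- reduction of an endomorphism -/
noncomputable def redEnd (B : ChevalleyBasis b ℤ_[p] L) (Bp : ChevalleyBasis b (ZMod p) Lp)
    (red : L →+ Lp) (g : Module.End ℤ_[p] L) : Module.End (ZMod p) Lp :=
  Bp.basis.constr (ZMod p) fun u => red (g (B.basis u))

/-- `g ≡ h` modulo `p ^ n` -/
def CongMod (p : ℕ) [Fact p.Prime] {L : Type*} [AddCommGroup L] [Module ℤ_[p] L] (n : ℕ)
    (g h : Module.End ℤ_[p] L) : Prop := ∀ x, ∃ y : L, g x = h x + ((p : ℤ_[p]) ^ n) • y

theorem isUnit_of_toZMod {r : ℤ_[p]} (h : PadicInt.toZMod r ≠ 0) : IsUnit r := by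
  rw [← IsLocalRing.notMem_maximalIdeal, ← PadicInt.ker_toZMod]
  exact h

theorem Good.isUnit720' (hG : Good b f D p) : IsUnit (720 : ℤ_[p]) := by
  apply isUnit_of_toZMod
  rw [map_ofNat]
  exact hG.isUnit720.ne_zero

/-- A congruence, as an equation between endomorphisms. -/
theorem ChevalleyBasis.exists_end (B : ChevalleyBasis b ℤ_[p] L) {n : ℕ}
    {g h : Module.End ℤ_[p] L} (hg : CongMod p n g h) :
    ∃ S : Module.End ℤ_[p] L, g = h + ((p : ℤ_[p]) ^ n) • S := by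
  choose y hy using hg
  refine ⟨B.basis.constr ℤ_[p] (fun u => y (B.basis u)), ?_⟩
  apply B.basis.ext
  intro u
  rw [LinearMap.add_apply, LinearMap.smul_apply, Basis.constr_basis]
  exact hy _

theorem congMod_of {n : ℕ} {g h S : Module.End ℤ_[p] L} (h1 : g = h + ((p : ℤ_[p]) ^ n) • S) :
    CongMod p n g h := fun x => ⟨S x, by rw [h1]; rfl⟩

theorem ppow_ne_zero (p : ℕ) [Fact p.Prime] (n : ℕ) : ((p : ℤ_[p]) ^ n) ≠ 0 := by
  have h1 : (p : ℤ_[p]) ≠ 0 := by
    exact_mod_cast (Fact.out : p.Prime).ne_zero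
  exact pow_ne_zero n h1

/-- `L` is torsion free. -/
theorem ChevalleyBasis.cancel (B : ChevalleyBasis b ℤ_[p] L) {n : ℕ} {x y : L}
    (h : ((p : ℤ_[p]) ^ n) • x = ((p : ℤ_[p]) ^ n) • y) : x = y := by
  apply B.basis.ext_elem
  intro u
  have h1 := congrArg (fun z => B.basis.repr z u) h
  simp only [map_smul, Finsupp.smul_apply, smul_eq_mul] at h1
  exact mul_left_cancel₀ (ppow_ne_zero p n) h1

namespace RedData

variable {B : ChevalleyBasis b ℤ_[p] L} {Bp : ChevalleyBasis b (ZMod p) Lp} {red : L →+ Lp}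
  (hR : RedData B Bp red)

include hR

theorem repr (x : L) (u : b.support ⊕ ι) :
    Bp.basis.repr (red x) u = PadicInt.toZMod (B.basis.repr x u) := by
  classical
  have _i : Fintype ι := Fintype.ofFinite ι
  conv_lhs => rw [← B.basis.sum_repr x]
  rw [map_sum, map_sum, Finsupp.finsetSum_apply, Finset.sum_eq_single u]
  · rw [hR.smul, hR.basis, map_smul, Basis.repr_self, Finsupp.smul_apply,
      Finsupp.single_eq_same, smul_eq_mul, mul_one]
  · intro v _ hv
    rw [hR.smul, hR.basis, map_smul, Basis.repr_self, Finsupp.smul_apply, Finsupp.single_apply,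
      if_neg hv, smul_zero]
  · intro h; exact absurd (Finset.mem_univ _) h

theorem surj : Function.Surjective red := by
  have _i : Fintype ι := Fintype.ofFinite ι
  intro y
  choose r hr using fun u => ZMod.ringHom_surjective (PadicInt.toZMod (p := p)) (Bp.basis.repr y u)
  refine ⟨∑ u, r u • B.basis u, ?_⟩
  rw [map_sum, ← Bp.basis.sum_repr y]
  refine Finset.sum_congr rfl fun u _ => ?_
  rw [hR.smul, hR.basis, hr]

theorem ker (x : L) : red x = 0 ↔ ∃ y : L, x = (p : ℤ_[p]) • y := by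
  have _i : Fintype ι := Fintype.ofFinite ι
  constructor
  · intro h
    have h1 : ∀ u, ∃ r : ℤ_[p], B.basis.repr x u = (p : ℤ_[p]) * r := by
      intro u
      have h2 := hR.repr x u
      rw [h, map_zero, Finsupp.coe_zero, Pi.zero_apply] at h2
      have h3 : B.basis.repr x u ∈ RingHom.ker (PadicInt.toZMod (p := p)) := h2.symm
      rw [PadicInt.ker_toZMod, PadicInt.maximalIdeal_eq_span_p, Ideal.mem_span_singleton] at h3
      exact h3
    choose r hr using h1
    refine ⟨∑ u, r u • B.basis u, ?_⟩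
    rw [Finset.smul_sum]
    conv_lhs => rw [← B.basis.sum_repr x]
    refine Finset.sum_congr rfl fun u _ => ?_
    rw [hr, mul_smul]
  · rintro ⟨y, rfl⟩
    rw [hR.smul, map_natCast, CharP.cast_eq_zero, zero_smul]

theorem lie (x y : L) : red ⁅x, y⁆ = ⁅red x, red y⁆ := by
  classical
  have _i : Fintype ι := Fintype.ofFinite ι
  have hb : ∀ u v, red ⁅B.basis u, B.basis v⁆ = ⁅Bp.basis u, Bp.basis v⁆ := by
    rintro (i | α) (j | β)
    · rw [B.lie_h_h, Bp.lie_h_h, map_zero]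
    · rw [B.lie_h_e, Bp.lie_h_e, hR.smul, hR.basis, map_intCast]
    · rw [show B.basis (.inr α) = B.e α from rfl, show B.basis (.inl j) = B.h j from rfl,
        show Bp.basis (.inr α) = Bp.e α from rfl, show Bp.basis (.inl j) = Bp.h j from rfl,
        B.lie_e_h, Bp.lie_e_h, map_neg, hR.smul, hR.basis, map_intCast]
    · by_cases h1 : P.root α = -P.root β
      · have hβ : β = ng P α := by
          apply P.root.injective
          rw [root_ng, h1, neg_neg]
        subst hβ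
        rw [show B.basis (.inr α) = B.e α from rfl,
          show B.basis (.inr (ng P α)) = B.e (ng P α) from rfl,
          show Bp.basis (.inr α) = Bp.e α from rfl,
          show Bp.basis (.inr (ng P α)) = Bp.e (ng P α) from rfl, B.lie_e_ng, Bp.lie_e_ng,
          ChevalleyBasis.hc, ChevalleyBasis.hc, map_sum]
        refine Finset.sum_congr rfl fun i _ => ?_
        rw [hR.smul, hR.basis, map_intCast]
      · by_cases hr : P.root α + P.root β ∈ Set.range P.root
        · obtain ⟨κ, hκ⟩ := hr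
          rw [B.lie_e_e α β κ hκ, Bp.lie_e_e α β κ hκ, hR.smul, hR.basis, map_intCast, hR.N]
        · rw [B.lie_e_e_zero α β (root_add_ne_zero h1) hr,
            Bp.lie_e_e_zero α β (root_add_ne_zero h1) hr, map_zero]
  rw [← B.basis.sum_repr x, ← B.basis.sum_repr y, _root_.sum_lie, map_sum, map_sum,
    _root_.sum_lie]
  refine Finset.sum_congr rfl fun u _ => ?_
  rw [_root_.lie_sum, map_sum, map_sum, _root_.lie_sum]
  refine Finset.sum_congr rfl fun v _ => ?_
  rw [smul_lie, lie_smul, hR.smul, hR.smul, hR.smul, hR.smul, hb, hR.basis, hR.basis, smul_lie,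
    lie_smul]

theorem redEnd_apply (g : Module.End ℤ_[p] L) (x : L) : redEnd B Bp red g (red x) = red (g x) := by
  have _i : Fintype ι := Fintype.ofFinite ι
  rw [← B.basis.sum_repr x]
  simp only [map_sum, map_smul, hR.smul, hR.basis]
  refine Finset.sum_congr rfl fun u _ => ?_
  rw [redEnd, Basis.constr_basis]

theorem end_ext {g h : Module.End (ZMod p) Lp} (hgh : ∀ x : L, g (red x) = h (red x)) : g = h := by
  apply LinearMap.ext
  intro y
  obtain ⟨x, rfl⟩ := hR.surj y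
  exact hgh x

theorem redEnd_mul (g h : Module.End ℤ_[p] L) :
    redEnd B Bp red (g * h) = redEnd B Bp red g * redEnd B Bp red h := by
  apply hR.end_ext
  intro x
  rw [hR.redEnd_apply, Module.End.mul_apply, Module.End.mul_apply, hR.redEnd_apply,
    hR.redEnd_apply]

theorem redEnd_one : redEnd B Bp red 1 = 1 := by
  apply hR.end_ext
  intro x
  rw [hR.redEnd_apply]
  rfl

theorem redEnd_x (hG : Good b f D p) (α : ι) (t : ℤ_[p]) :
    redEnd B Bp red (B.x α t) = Bp.x α (PadicInt.toZMod t) := by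
  obtain ⟨u, hu, he⟩ := exists_inv6 ℤ_[p] hG.isUnit720'
  obtain ⟨v, hv, he'⟩ := exists_inv6 (ZMod p) hG.isUnit720
  have huv : PadicInt.toZMod u = v := by
    have h1 : (6 : ZMod p) * PadicInt.toZMod u = 1 := by
      have := congrArg (PadicInt.toZMod (p := p)) hu
      rwa [map_mul, map_ofNat, map_one] at this
    calc PadicInt.toZMod u = (6 * v) * PadicInt.toZMod u := by rw [hv, one_mul]
      _ = v * (6 * PadicInt.toZMod u) := by ring
      _ = v := by rw [h1, mul_one]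
  apply hR.end_ext
  intro x
  rw [hR.redEnd_apply, ChevalleyBasis.x, ChevalleyBasis.x, he, he', E4_apply, E4_apply]
  simp only [LieAlgebra.ad_apply, smul_lie, map_add, hR.smul, hR.lie, map_mul, map_ofNat, huv,
    hR.basis]

/-- `redEnd g = redEnd h` iff `g ≡ h` mod `p`. -/
theorem redEnd_eq_iff (g h : Module.End ℤ_[p] L) :
    redEnd B Bp red g = redEnd B Bp red h ↔ CongMod p 1 g h := by
  constructor
  · intro h1 x
    have h2 : red (g x) = red (h x) := by rw [← hR.redEnd_apply, h1, hR.redEnd_apply]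
    have h3 : red (g x - h x) = 0 := by rw [map_sub, h2, sub_self]
    obtain ⟨y, hy⟩ := (hR.ker _).1 h3
    exact ⟨y, by rw [pow_one, ← hy]; abel⟩
  · intro h1
    apply hR.end_ext
    intro x
    rw [hR.redEnd_apply, hR.redEnd_apply]
    obtain ⟨y, hy⟩ := h1 x
    rw [hy, map_add, pow_one, (hR.ker ((p : ℤ_[p]) • y)).2 ⟨y, rfl⟩, add_zero]

/-- The logarithmic derivative at level `n`: for a Lie endomorphism `g ≡ 1 mod p^n` there is a
unique `z ∈ Lp` with `(g x - x)/p^n ≡ [z, x]`. Existence by `der_inner`, uniqueness by `ad_inj`. -/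
theorem exists_delta (hG : Good b f D p) (n : ℕ) (hn : 1 ≤ n) (g : Module.End ℤ_[p] L)
    (hg : ∀ x y, g ⁅x, y⁆ = ⁅g x, g y⁆) (hgn : CongMod p n g 1) :
    ∃! z : Lp, ∀ x y : L, g x = x + ((p : ℤ_[p]) ^ n) • y → red y = ⁅z, red x⁆ := by
  obtain ⟨S, hS⟩ := B.exists_end hgn
  have hgx : ∀ x, g x = x + ((p : ℤ_[p]) ^ n) • S x := fun x => by rw [hS]; rfl
  have hder : ∀ x y, S ⁅x, y⁆ = ⁅S x, y⁆ + ⁅x, S y⁆ + ((p : ℤ_[p]) ^ n) • ⁅S x, S y⁆ := by
    intro x y
    apply B.cancel (n := n)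
    have h1 := hg x y
    rw [hgx, hgx x, hgx y] at h1
    simp only [add_lie, lie_add, smul_lie, lie_smul] at h1
    rw [← sub_eq_zero] at h1 ⊢
    rw [← h1]
    simp only [smul_add]
    abel
  obtain ⟨z, hz⟩ := Bp.der_inner hG (redEnd B Bp red S) (by
    intro y1 y2
    obtain ⟨x1, rfl⟩ := hR.surj y1
    obtain ⟨x2, rfl⟩ := hR.surj y2
    rw [← hR.lie, hR.redEnd_apply, hR.redEnd_apply, hR.redEnd_apply, hder, map_add, map_add,
      hR.lie, hR.lie, hR.smul, map_pow, map_natCast, CharP.cast_eq_zero, zero_pow (by omega),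
      zero_smul, add_zero])
  refine ⟨z, ?_, ?_⟩
  · intro x y hxy
    have h1 : y = S x := by
      apply B.cancel (n := n)
      rw [hgx] at hxy
      exact (add_left_cancel hxy).symm
    rw [h1, ← hR.redEnd_apply, hz]
  · intro w hw
    have h1 : ∀ y : Lp, ⁅w - z, y⁆ = 0 := by
      intro y
      obtain ⟨x, rfl⟩ := hR.surj y
      rw [sub_lie, ← hw x (S x) (hgx x), ← hz, hR.redEnd_apply, sub_self]
    exact sub_eq_zero.1 (Bp.ad_inj hG _ h1)

end RedData

/-- `IsDelta red n g z`: `z` is the level-`n` derivative of `g`. -/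
def IsDelta (red : L →+ Lp) (n : ℕ) (g : Module.End ℤ_[p] L) (z : Lp) : Prop :=
  CongMod p n g 1 ∧ ∀ x y : L, g x = x + ((p : ℤ_[p]) ^ n) • y → red y = ⁅z, red x⁆

namespace RedData

variable {B : ChevalleyBasis b ℤ_[p] L} {Bp : ChevalleyBasis b (ZMod p) Lp} {red : L →+ Lp}
  (hR : RedData B Bp red)

include hR

/-- Reformulation. -/
theorem isDelta_iff {n : ℕ} {g : Module.End ℤ_[p] L} {z : Lp} : IsDelta red n g z ↔
    ∃ S : Module.End ℤ_[p] L, g = 1 + ((p : ℤ_[p]) ^ n) • S ∧ ∀ x, red (S x) = ⁅z, red x⁆ := by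
  constructor
  · rintro ⟨h1, h2⟩
    obtain ⟨S, hS⟩ := B.exists_end h1
    exact ⟨S, hS, fun x => h2 x (S x) (by rw [hS]; rfl)⟩
  · rintro ⟨S, rfl, hS⟩
    refine ⟨congMod_of rfl, fun x y hxy => ?_⟩
    have h1 : y = S x := by
      apply B.cancel (n := n)
      exact (add_left_cancel hxy).symm
    rw [h1, hS]

theorem red_ppow {n : ℕ} (hn : 1 ≤ n) (x : L) : red (((p : ℤ_[p]) ^ n) • x) = 0 := by
  rw [hR.smul, map_pow, map_natCast, CharP.cast_eq_zero, zero_pow (by omega), zero_smul]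

theorem isDelta_mul (hG : Good b f D p) {n : ℕ} (hn : 1 ≤ n) {g h : Module.End ℤ_[p] L}
    {z w : Lp} (hg : IsDelta red n g z) (hh : IsDelta red n h w) :
    IsDelta red n (g * h) (z + w) := by
  rw [hR.isDelta_iff] at hg hh ⊢
  obtain ⟨S, rfl, hS⟩ := hg
  obtain ⟨T, rfl, hT⟩ := hh
  refine ⟨S + T + ((p : ℤ_[p]) ^ n) • (S * T), ?_, fun x => ?_⟩
  · rw [add_mul, one_mul, mul_add, mul_one, smul_mul_assoc, mul_smul_comm]
    simp only [smul_add]
    abel
  · rw [LinearMap.add_apply, LinearMap.add_apply, map_add, map_add, LinearMap.smul_apply,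
      hR.red_ppow hn, add_zero, hS, hT, add_lie]

theorem isDelta_zero_iff (hG : Good b f D p) {n : ℕ} (hn : 1 ≤ n) {g : Module.End ℤ_[p] L}
    {z : Lp} (hg : IsDelta red n g z) : z = 0 ↔ CongMod p (n + 1) g 1 := by
  obtain ⟨S, rfl, hS⟩ := hR.isDelta_iff.1 hg
  constructor
  · rintro rfl x
    have h1 : red (S x) = 0 := by rw [hS, zero_lie]
    obtain ⟨y, hy⟩ := (hR.ker _).1 h1
    refine ⟨y, ?_⟩
    rw [LinearMap.add_apply, LinearMap.smul_apply, hy, smul_smul, pow_succ]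
  · intro h
    apply Bp.ad_inj hG
    intro y
    obtain ⟨x, rfl⟩ := hR.surj y
    obtain ⟨y, hy⟩ := h x
    have h1 : S x = (p : ℤ_[p]) • y := by
      apply B.cancel (n := n)
      rw [smul_smul, ← pow_succ]
      exact add_left_cancel hy
    rw [← hS, h1]
    exact (hR.ker _).2 ⟨y, rfl⟩

theorem isDelta_pow (hG : Good b f D p) {n : ℕ} (hn : 1 ≤ n) {g : Module.End ℤ_[p] L}
    {z : Lp} (hg : IsDelta red n g z) : IsDelta red (n + 1) (g ^ p) z := by
  rw [hR.isDelta_iff] at hg ⊢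
  obtain ⟨S, rfl, hS⟩ := hg
  have key : ∀ (X : Module.End ℤ_[p] L) (m : ℕ), ∃ C : Module.End ℤ_[p] L,
      (1 + X) ^ m = 1 + (m : ℤ_[p]) • X + ((m.choose 2 : ℕ) : ℤ_[p]) • (X * X) +
        (X * X * X) * C := by
    intro X m
    induction m with
    | zero => exact ⟨0, by simp⟩
    | succ m ih =>
      obtain ⟨C, hC⟩ := ih
      refine ⟨((m.choose 2 : ℕ) : ℤ_[p]) • 1 + C * (1 + X), ?_⟩
      rw [pow_succ, hC, Nat.choose_succ_succ' m 1, Nat.choose_one_right]
      push_cast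
      simp only [mul_add, add_mul, mul_one, one_mul, smul_mul_assoc, mul_smul_comm, add_smul,
        one_smul, mul_assoc]
      abel
  obtain ⟨C, hC⟩ := key (((p : ℤ_[p]) ^ n) • S) p
  have hp2 : ∃ c : ℕ, p.choose 2 = p * c := by
    have hlt := hG.lt
    have := (Fact.out : p.Prime).dvd_choose_self (k := 2) (by norm_num) (by omega)
    exact this
  obtain ⟨c, hc⟩ := hp2
  obtain ⟨m, rfl⟩ : ∃ m, n = m + 1 := ⟨n - 1, by omega⟩
  refine ⟨S + (p : ℤ_[p]) • (((c : ℤ_[p]) * (p : ℤ_[p]) ^ m) • (S * S) +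
    ((p : ℤ_[p]) ^ (2 * m)) • (S * S * S * C)), ?_, fun x => ?_⟩
  · rw [hC, hc]
    simp only [smul_mul_assoc, mul_smul_comm, smul_smul, smul_add, Nat.cast_mul]
    rw [add_assoc (1 + _), add_assoc 1]
    congr 1
    have e1 : (p : ℤ_[p]) * (p : ℤ_[p]) ^ (m + 1) = (p : ℤ_[p]) ^ (m + 1 + 1) := by ring
    have e2 : (p : ℤ_[p]) * (c : ℤ_[p]) * ((p : ℤ_[p]) ^ (m + 1) * (p : ℤ_[p]) ^ (m + 1)) =
      (p : ℤ_[p]) ^ (m + 1 + 1) * ((p : ℤ_[p]) * ((c : ℤ_[p]) * (p : ℤ_[p]) ^ m)) := by ring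
    have e3 : (p : ℤ_[p]) ^ (m + 1) * ((p : ℤ_[p]) ^ (m + 1) * (p : ℤ_[p]) ^ (m + 1)) =
      (p : ℤ_[p]) ^ (m + 1 + 1) * ((p : ℤ_[p]) * (p : ℤ_[p]) ^ (2 * m)) := by ring
    rw [e1, e2, e3]
  · rw [LinearMap.add_apply, map_add, hS, LinearMap.smul_apply, (hR.ker _).2 ⟨_, rfl⟩, add_zero]

theorem redEnd_lie {h : Module.End ℤ_[p] L} (hh : ∀ x y, h ⁅x, y⁆ = ⁅h x, h y⁆) (x y : Lp) :
    redEnd B Bp red h ⁅x, y⁆ = ⁅redEnd B Bp red h x, redEnd B Bp red h y⁆ := by
  obtain ⟨x, rfl⟩ := hR.surj x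
  obtain ⟨y, rfl⟩ := hR.surj y
  rw [← hR.lie, hR.redEnd_apply, hR.redEnd_apply, hR.redEnd_apply, hh, hR.lie]

theorem isDelta_conj (hG : Good b f D p) {n : ℕ} (hn : 1 ≤ n) {g h h' : Module.End ℤ_[p] L}
    (hh : ∀ x y, h ⁅x, y⁆ = ⁅h x, h y⁆) (h1 : h * h' = 1) (h2 : h' * h = 1)
    {z : Lp} (hg : IsDelta red n g z) : IsDelta red n (h * g * h') (redEnd B Bp red h z) := by
  rw [hR.isDelta_iff] at hg ⊢
  obtain ⟨S, rfl, hS⟩ := hg
  refine ⟨h * S * h', ?_, fun x => ?_⟩
  · rw [mul_add, mul_one, add_mul, h1, mul_smul_comm, smul_mul_assoc]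
  · rw [Module.End.mul_apply, Module.End.mul_apply, ← hR.redEnd_apply, hS, hR.redEnd_lie hh,
      hR.redEnd_apply, ← Module.End.mul_apply, h1]
    rfl

theorem isDelta_x (hG : Good b f D p) {n : ℕ} (hn : 1 ≤ n) (α : ι) (t : ℤ_[p]) :
    IsDelta red n (B.x α ((p : ℤ_[p]) ^ n * t)) ((PadicInt.toZMod t) • Bp.e α) := by
  rw [hR.isDelta_iff]
  obtain ⟨u, hu, he⟩ := exists_inv6 ℤ_[p] hG.isUnit720'
  refine ⟨t • LieAlgebra.ad ℤ_[p] L (B.e α) + ((p : ℤ_[p]) ^ n) • ((3 * u * t ^ 2) •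
    (LieAlgebra.ad ℤ_[p] L (B.e α)) ^ 2 + ((p : ℤ_[p]) ^ n * (u * t ^ 3)) •
    (LieAlgebra.ad ℤ_[p] L (B.e α)) ^ 3), ?_, fun x => ?_⟩
  · rw [ChevalleyBasis.x, he, E4, map_smul]
    simp only [smul_pow, smul_smul, smul_add]
    rw [add_assoc, add_assoc]
    congr 1
    congr 1
    congr 1
    · congr 1; ring
    · congr 1; ring
  · rw [LinearMap.add_apply, map_add, LinearMap.smul_apply, LinearMap.smul_apply, hR.red_ppow hn,
      add_zero, hR.smul, LieAlgebra.ad_apply, hR.lie, hR.basis, smul_lie]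

theorem congMod_comm {i k : ℕ} (hi : 1 ≤ i) (hk : 1 ≤ k) {g g' h h' : Module.End ℤ_[p] L}
    (h1 : g * g' = 1) (h2 : g' * g = 1) (h3 : h * h' = 1) (h4 : h' * h = 1)
    (hg : CongMod p i g 1) (hh : CongMod p k h 1) :
    CongMod p (i + k) (g * h * g' * h') 1 := by
  obtain ⟨S, hS⟩ := B.exists_end hg
  obtain ⟨T, hT⟩ := B.exists_end hh
  have e1 : g * h = h * g + ((p : ℤ_[p]) ^ (i + k)) • (S * T - T * S) := by
    rw [hS, hT, pow_add]
    generalize (p : ℤ_[p]) ^ i = a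
    generalize (p : ℤ_[p]) ^ k = c
    simp only [mul_add, add_mul, mul_one, one_mul, smul_mul_assoc, mul_smul_comm, smul_smul,
      smul_sub, smul_add, mul_comm c a]
    abel
  refine congMod_of (S := (S * T - T * S) * g' * h') ?_
  rw [e1, add_mul, add_mul, mul_assoc h, h1, mul_one, h3, smul_mul_assoc, smul_mul_assoc]

end RedData

end Padic

end Ch4
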