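import Mathlib
import Pool.Agent.Lib.P4ba0d5.Base
import Pool.Agent.Lib.P4ba0d5.Cong

/-! Base change of a Chevalley basis over the integers. -/

set_option linter.unusedSectionVars false
set_option linter.unusedVariables false

namespace Ch4

open Module

section BC

variable {ι X Y : Type*} [Finite ι] [AddCommGroup X] [Module ℚ X] [AddCommGroup Y] [Module ℚ Y]
  {P : RootPairing ι ℚ X Y} [P.IsRootSystem] [P.IsCrystallographic] [P.IsReduced]
  {b : P.Base} {LZ : Type*} [LieRing LZ]

open scoped TensorProduct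

theorem baseChange_int_smul (R : Type*) [CommRing R] (n : ℤ) (x : LZ) :
    (1 : R) ⊗ₜ[ℤ] (((n : ℤ) : ℤ) • x) = ((n : ℤ) : R) • ((1 : R) ⊗ₜ[ℤ] x) := by
  rw [TensorProduct.tmul_smul, TensorProduct.smul_tmul', TensorProduct.smul_tmul']
  congr 1
  simp

/-- base change -/
noncomputable def ChevalleyBasis.baseChange (B : ChevalleyBasis b ℤ LZ) (R : Type*) [CommRing R] :
    ChevalleyBasis b R (R ⊗[ℤ] LZ) where
  basis := B.basis.baseChange R
  N := B.N
  abs_N := B.abs_N
  N_zero := B.N_zero
  lie_h_h := by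
    intro i j
    rw [Basis.baseChange_apply, Basis.baseChange_apply, LieAlgebra.ExtendScalars.bracket_tmul,
      B.lie_h_h, TensorProduct.tmul_zero]
  lie_h_e := by
    intro i α
    rw [Basis.baseChange_apply, Basis.baseChange_apply, LieAlgebra.ExtendScalars.bracket_tmul,
      B.lie_h_e, mul_one, baseChange_int_smul]
    simp
  lie_e_neg := by
    intro α β c h1 h2
    rw [Basis.baseChange_apply, Basis.baseChange_apply, LieAlgebra.ExtendScalars.bracket_tmul,
      B.lie_e_neg α β c h1 h2, mul_one, TensorProduct.tmul_sum]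
    refine Finset.sum_congr rfl fun i _ => ?_
    rw [baseChange_int_smul, Basis.baseChange_apply]
    simp
  lie_e_e := by
    intro α β γ h
    rw [Basis.baseChange_apply, Basis.baseChange_apply, Basis.baseChange_apply,
      LieAlgebra.ExtendScalars.bracket_tmul, B.lie_e_e α β γ h, mul_one, baseChange_int_smul]
    simp
  lie_e_e_zero := by
    intro α β h1 h2
    rw [Basis.baseChange_apply, Basis.baseChange_apply, LieAlgebra.ExtendScalars.bracket_tmul,
      B.lie_e_e_zero α β h1 h2, TensorProduct.tmul_zero]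

/-- reduction mod `p` -/
noncomputable def redZ (p : ℕ) [Fact p.Prime] (LZ : Type*) [LieRing LZ] :
    (ℤ_[p] ⊗[ℤ] LZ) →+ ((ZMod p) ⊗[ℤ] LZ) :=
  (TensorProduct.map (PadicInt.toZMod (p := p)).toAddMonoidHom.toIntLinearMap
    (LinearMap.id : LZ →ₗ[ℤ] LZ)).toAddMonoidHom

theorem redZ_tmul (p : ℕ) [Fact p.Prime] (r : ℤ_[p]) (x : LZ) :
    redZ p LZ (r ⊗ₜ[ℤ] x) = (PadicInt.toZMod r) ⊗ₜ[ℤ] x := rfl

theorem redData_redZ (B : ChevalleyBasis b ℤ LZ) (p : ℕ) [Fact p.Prime] :
    RedData (B.baseChange ℤ_[p]) (B.baseChange (ZMod p)) (redZ p LZ) where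
  smul := by
    intro r x
    induction x using TensorProduct.induction_on with
    | zero => rw [smul_zero, map_zero, smul_zero]
    | tmul s y =>
      rw [TensorProduct.smul_tmul', redZ_tmul, redZ_tmul, TensorProduct.smul_tmul', smul_eq_mul,
        smul_eq_mul, map_mul]
    | add x y hx hy => rw [smul_add, map_add, map_add, smul_add, hx, hy]
  basis := by
    intro u
    show redZ p LZ (B.basis.baseChange ℤ_[p] u) = B.basis.baseChange (ZMod p) u
    rw [Basis.baseChange_apply, Basis.baseChange_apply, redZ_tmul, map_one]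
  N := rfl

end BC

end Ch4
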