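import Mathlib

/-! The Baer trick: `p`-th powers centralise class-two sections. -/

set_option linter.unusedVariables false

namespace Ch4

namespace BaerAux

variable {G : Type*} [Group G]

/-- The commutator, written out. -/
def cm (a b : G) : G := a * b * a⁻¹ * b⁻¹

lemma cm_inv (a b : G) : (cm a b)⁻¹ = cm b a := by unfold cm; group

lemma mul_eq (a b : G) : a * b = cm a b * (b * a) := by unfold cm; group

/-- All commutators are central and the exponent is `p`. -/
structure Cl2 (G : Type*) [Group G] (p : ℕ) : Prop where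
  cen : ∀ a b c : G, cm a b * c = c * cm a b
  exp : ∀ a : G, a ^ p = 1

variable {p : ℕ}

lemma Cl2.comm (hG : Cl2 G p) (a b c : G) : Commute (cm a b) c := hG.cen a b c

lemma Cl2.mul_left (hG : Cl2 G p) (a b d : G) : cm (a * b) d = cm a d * cm b d := by
  have h1 : cm (a * b) d = a * cm b d * a⁻¹ * cm a d := by unfold cm; group
  rw [h1, ← hG.cen b d a, mul_assoc (cm b d), mul_inv_cancel, mul_one]
  exact hG.cen b d _

lemma Cl2.mul_right (hG : Cl2 G p) (a b d : G) : cm d (a * b) = cm d a * cm d b := by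
  rw [← cm_inv, hG.mul_left, mul_inv_rev, cm_inv, cm_inv]
  exact hG.cen _ _ _

lemma cm_central_left {z : G} (hz : ∀ c, z * c = c * z) (a : G) : cm z a = 1 := by
  unfold cm
  rw [hz a, mul_assoc a, mul_inv_cancel, mul_one, mul_inv_cancel]

lemma cm_central_right {z : G} (hz : ∀ c, z * c = c * z) (a : G) : cm a z = 1 := by
  rw [← cm_inv, cm_central_left hz, inv_one]

lemma Cl2.pow_cen (hG : Cl2 G p) (a b : G) (k : ℕ) (c : G) :
    cm a b ^ k * c = c * cm a b ^ k := (hG.comm a b c).pow_left k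

/-- The abelian group law of Baer. -/
def badd (h : ℕ) (a b : G) : G := a * b * cm b a ^ h

lemma badd_comm (hG : Cl2 G p) {h : ℕ} (hh : 2 * h = p + 1) (a b : G) :
    badd h a b = badd h b a := by
  unfold badd
  have h1 : cm a b = cm a b ^ h * cm a b ^ h := by
    rw [← pow_add, ← two_mul, hh, pow_succ, hG.exp, one_mul]
  rw [← cm_inv a b, mul_eq a b, hG.cen]
  nth_rewrite 1 [h1]
  rw [inv_pow]
  group

lemma badd_assoc (hG : Cl2 G p) (h : ℕ) (a b c : G) :
    badd h (badd h a b) c = badd h a (badd h b c) := by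
  unfold badd
  have e1 : cm c (a * b * cm b a ^ h) = cm c a * cm c b := by
    rw [hG.mul_right, cm_central_right (hG.pow_cen b a h), mul_one, hG.mul_right]
  have e2 : cm (b * c * cm c b ^ h) a = cm b a * cm c a := by
    rw [hG.mul_left, cm_central_left (hG.pow_cen c b h), mul_one, hG.mul_left]
  rw [e1, e2, (hG.comm c a _).mul_pow, (hG.comm b a _).mul_pow]
  have c1 := hG.pow_cen b a h
  have c2 := hG.pow_cen c b h
  have c3 := hG.pow_cen c a h
  calc a * b * cm b a ^ h * c * (cm c a ^ h * cm c b ^ h)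
      = a * b * (cm b a ^ h * c) * (cm c a ^ h * cm c b ^ h) := by group
    _ = a * b * c * cm b a ^ h * (cm c a ^ h * cm c b ^ h) := by rw [c1 c]; group
    _ = a * b * c * (cm b a ^ h * cm c a ^ h * cm c b ^ h) := by group
    _ = a * b * c * (cm c b ^ h * (cm b a ^ h * cm c a ^ h)) := by rw [c2]
    _ = a * (b * c * cm c b ^ h) * (cm b a ^ h * cm c a ^ h) := by group

lemma cm_self (a : G) : cm a a = 1 := by unfold cm; group

lemma cm_one_left (a : G) : cm 1 a = 1 := by unfold cm; group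

lemma cm_one_right (a : G) : cm a 1 = 1 := by unfold cm; group

lemma cm_inv_self (a : G) : cm a a⁻¹ = 1 := by unfold cm; group

/-- Baer's abelian group. -/
@[reducible] def baerGroup (hG : Cl2 G p) {h : ℕ} (hh : 2 * h = p + 1) : AddCommGroup G where
  add := badd h
  zero := 1
  neg a := a⁻¹
  add_assoc := badd_assoc hG h
  zero_add a := by
    show badd h 1 a = a
    unfold badd; rw [cm_one_right, one_pow, one_mul, mul_one]
  add_zero a := by
    show badd h a 1 = a
    unfold badd; rw [cm_one_left, one_pow, mul_one, mul_one]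
  neg_add_cancel a := by
    show badd h a⁻¹ a = 1
    unfold badd; rw [cm_inv_self, one_pow, mul_one, inv_mul_cancel]
  add_comm := badd_comm hG hh
  nsmul := @nsmulRec G ⟨1⟩ ⟨badd h⟩
  zsmul := @zsmulRec G ⟨1⟩ ⟨badd h⟩ ⟨fun a => a⁻¹⟩ (@nsmulRec G ⟨1⟩ ⟨badd h⟩)

/-- The additive endomorphism of Baer's group given by a group endomorphism. -/
def toEnd (hG : Cl2 G p) {h : ℕ} (hh : 2 * h = p + 1) (f : G →* G) :
    letI := baerGroup hG hh
    AddMonoid.End G :=
  letI := baerGroup hG hh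
  { toFun := f
    map_zero' := f.map_one
    map_add' := fun a b => by
      show f (badd h a b) = badd h (f a) (f b)
      unfold badd cm
      simp only [map_mul, map_pow, map_inv] }

lemma nsmul_eq (hG : Cl2 G p) {h : ℕ} (hh : 2 * h = p + 1) (n : ℕ) (a : G) :
    letI := baerGroup hG hh
    n • a = a ^ n := by
  letI := baerGroup hG hh
  induction n with
  | zero => rw [zero_nsmul, pow_zero]; rfl
  | succ n ih =>
    rw [succ_nsmul, ih, pow_succ]
    show badd h (a ^ n) a = a ^ n * a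
    unfold badd
    have : cm a (a ^ n) = 1 := by
      unfold cm
      rw [← pow_succ' a n, pow_succ a n, mul_assoc (a ^ n), mul_inv_cancel, mul_one,
        mul_inv_cancel]
    rw [this, one_pow, mul_one]

/-- Main step, in a group of class two. -/
theorem iterate_eq (hp : p.Prime) (hp2 : p ≠ 2) (hG : Cl2 G p) (f : G →* G) (M : Set G)
    (hM1 : (1 : G) ∈ M) (hMmul : ∀ a ∈ M, ∀ b ∈ M, a * b ∈ M)
    (hMinv : ∀ a ∈ M, a⁻¹ ∈ M) (hMc : ∀ z ∈ M, ∀ c, z * c = c * z)
    (hcl : ∀ a b, cm a b ∈ M) (hMf : ∀ z ∈ M, f z ∈ M) (m n : ℕ) (hmn : m + n ≤ p)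
    (hA : ∀ a, (fun y => f y * y⁻¹)^[m] a ∈ M)
    (hM : ∀ a ∈ M, (fun y => f y * y⁻¹)^[n] a = 1) (a : G) : f^[p] a = a := by
  obtain ⟨h, hh⟩ : ∃ h, 2 * h = p + 1 := by
    obtain ⟨k, hk⟩ := hp.odd_of_ne_two hp2
    exact ⟨k + 1, by omega⟩
  letI := baerGroup hG hh
  let s : AddMonoid.End G := toEnd hG hh f
  have hMpow : ∀ z ∈ M, ∀ k : ℕ, z ^ k ∈ M := by
    intro z hz k
    induction k with
    | zero => rw [pow_zero]; exact hM1
    | succ k ih => rw [pow_succ]; exact hMmul _ ih _ hz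
  let D : G → G := fun y => f y * y⁻¹
  have hN : ∀ y, ∃ z ∈ M, (s - 1) y = D y * z := by
    intro y
    have h1 : (s - 1) y = s y - y := rfl
    rw [h1, sub_eq_add_neg]
    exact ⟨cm y⁻¹ (f y) ^ h, hMpow _ (hcl _ _) _, rfl⟩
  have hNM : ∀ z ∈ M, (s - 1) z = D z := by
    intro z hz
    have h1 : (s - 1) z = s z - z := rfl
    rw [h1, sub_eq_add_neg]
    show f z * z⁻¹ * cm z⁻¹ (f z) ^ h = f z * z⁻¹
    rw [cm_central_left (hMc _ (hMinv z hz)), one_pow, mul_one]
  have hDM : ∀ z ∈ M, D z ∈ M := fun z hz => hMmul _ (hMf z hz) _ (hMinv z hz)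
  have hDmul : ∀ y, ∀ z ∈ M, D (y * z) = D y * D z := by
    intro y z hz
    show f (y * z) * (y * z)⁻¹ = f y * y⁻¹ * (f z * z⁻¹)
    rw [map_mul, mul_inv_rev]
    have := hMc _ (hDM z hz) y⁻¹
    have h2 : D z = f z * z⁻¹ := rfl
    rw [h2] at this
    calc f y * f z * (z⁻¹ * y⁻¹) = f y * (f z * z⁻¹ * y⁻¹) := by group
      _ = f y * (y⁻¹ * (f z * z⁻¹)) := by rw [this]
      _ = _ := by group
  have hit : ∀ k y, ∃ z ∈ M, ((s - 1) ^ k) y = D^[k] y * z := by
    intro k
    induction k with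
    | zero => intro y; exact ⟨1, hM1, (mul_one _).symm⟩
    | succ k ih =>
      intro y
      obtain ⟨z, hz, e⟩ := ih y
      obtain ⟨z', hz', e'⟩ := hN (D^[k] y * z)
      refine ⟨D z * z', hMmul _ (hDM z hz) _ hz', ?_⟩
      rw [pow_succ']
      show (s - 1) (((s - 1) ^ k) y) = _
      rw [e, e', hDmul _ z hz, Function.iterate_succ_apply', mul_assoc]
  have hitM : ∀ k, ∀ z ∈ M, ((s - 1) ^ k) z = D^[k] z ∧ D^[k] z ∈ M := by
    intro k
    induction k with
    | zero => intro z hz; exact ⟨rfl, hz⟩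
    | succ k ih =>
      intro z hz
      obtain ⟨e, hk⟩ := ih z hz
      rw [pow_succ', Function.iterate_succ_apply']
      refine ⟨?_, hDM _ hk⟩
      show (s - 1) (((s - 1) ^ k) z) = _
      rw [e, hNM _ hk]
  have hzero : (s - 1) ^ (m + n) = 0 := by
    ext y
    rw [add_comm, pow_add]
    show ((s - 1) ^ n) (((s - 1) ^ m) y) = 0
    obtain ⟨z, hz, e⟩ := hit m y
    have h1 : ((s - 1) ^ m) y ∈ M := by rw [e]; exact hMmul _ (hA y) _ hz
    rw [(hitM n _ h1).1]
    exact hM _ h1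
  have hp0 : ((p : ℕ) : AddMonoid.End G) = 0 := by
    ext y
    rw [AddMonoid.End.natCast_apply]
    rw [nsmul_eq hG hh, hG.exp]
    rfl
  obtain ⟨r, hr⟩ := (Commute.one_right (s - 1)).exists_add_pow_prime_eq hp
  rw [sub_add_cancel, one_pow, hp0, zero_mul, zero_mul, zero_mul, add_zero] at hr
  have h2 : (s - 1) ^ p = 0 := by
    obtain ⟨t, ht⟩ := Nat.exists_eq_add_of_le hmn
    rw [ht, pow_add, hzero, zero_mul]
  rw [h2, zero_add] at hr
  have h3 : ∀ k, ∀ y, (s ^ k) y = f^[k] y := by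
    intro k
    induction k with
    | zero => intro y; rfl
    | succ k ih =>
      intro y
      rw [pow_succ', Function.iterate_succ_apply']
      show s ((s ^ k) y) = _
      rw [ih]
      rfl
  rw [← h3, hr]
  rfl

end BaerAux

open BaerAux in
theorem pow_centralizes {E : Type*} [Group E] (p : ℕ) [Fact p.Prime] (hp2 : p ≠ 2)
    (A M : Subgroup E) [A.Normal] [M.Normal]
    (hMA : M ≤ A) (hexp : ∀ a ∈ A, a ^ p = 1)
    (hMc : ∀ m ∈ M, ∀ a ∈ A, m * a = a * m)
    (hcl : ∀ a ∈ A, ∀ b ∈ A, a * b * a⁻¹ * b⁻¹ ∈ M)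
    (x : E) (m n : ℕ) (hmn : m + n ≤ p)
    (hA : ∀ a ∈ A, (fun y => x * y * x⁻¹ * y⁻¹)^[m] a ∈ M)
    (hM : ∀ a ∈ M, (fun y => x * y * x⁻¹ * y⁻¹)^[n] a = 1) :
    ∀ a ∈ A, x ^ p * a = a * x ^ p := by
  have hG : Cl2 A p := by
    refine ⟨fun a b c => ?_, fun a => ?_⟩
    · apply Subtype.ext
      exact hMc _ (hcl a a.2 b b.2) c c.2
    · apply Subtype.ext
      exact hexp a a.2
  let f : A →* A := (MulAut.conjNormal x : MulAut A).toMonoidHom
  have hf : ∀ a : A, ((f a : A) : E) = x * a * x⁻¹ := fun a => rfl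
  have hD : ∀ (k : ℕ) (a : A), (((fun y : A => f y * y⁻¹)^[k] a : A) : E) =
      (fun y => x * y * x⁻¹ * y⁻¹)^[k] (a : E) := by
    intro k
    induction k with
    | zero => intro a; rfl
    | succ k ih =>
      intro a
      rw [Function.iterate_succ_apply', Function.iterate_succ_apply', ← ih a]
      rfl
  have key := iterate_eq (Fact.out : p.Prime) hp2 hG f {z : A | (z : E) ∈ M} M.one_mem
    (fun a ha b hb => M.mul_mem ha hb) (fun a ha => M.inv_mem ha)
    (fun z hz c => Subtype.ext (hMc z hz c c.2)) (fun a b => hcl a a.2 b b.2)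
    (fun z hz => (inferInstance : M.Normal).conj_mem z hz x) m n hmn
    (fun a => by
      show (((fun y : A => f y * y⁻¹)^[m] a : A) : E) ∈ M
      rw [hD]; exact hA a a.2)
    (fun a ha => by
      apply Subtype.ext
      rw [hD]; exact hM a ha)
  intro a ha
  have h1 : ∀ (k : ℕ) (b : A), ((f^[k] b : A) : E) = x ^ k * b * (x ^ k)⁻¹ := by
    intro k
    induction k with
    | zero => intro b; simp
    | succ k ih =>
      intro b
      rw [Function.iterate_succ_apply', hf, ih, pow_succ']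
      group
  have h2 := h1 p ⟨a, ha⟩
  rw [key ⟨a, ha⟩] at h2
  simp only at h2
  rw [eq_mul_inv_iff_mul_eq] at h2
  exact h2.symm

end Ch4
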