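import Mathlib

/-! Connectedness of irreducible root systems. -/

set_option linter.unusedVariables false

namespace Ch4

section Root

variable {ι X Y : Type*} [Finite ι] [AddCommGroup X] [Module ℚ X] [AddCommGroup Y] [Module ℚ Y]
  (P : RootPairing ι ℚ X Y) [P.IsRootSystem] [P.IsCrystallographic] [P.IsReduced]

omit [P.IsRootSystem] in
theorem pairingIn_ne_zero_symm {i j : ι} (h : P.pairingIn ℤ j i ≠ 0) : P.pairingIn ℤ i j ≠ 0 := by
  have h1 := P.pairingIn_pairingIn_mem_set_of_isCrystal_of_isRed j i
  intro h2
  rw [h2] at h1
  simp only [Set.mem_insert_iff, Prod.mk.injEq, Set.mem_singleton_iff] at h1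
  omega

/-- Module RootConn (~120 lines), two theorems. First one: `s` is closed under non-orthogonality. -/
theorem eq_univ_of_closed [P.IsIrreducible] (s : Set ι) (hne : s.Nonempty)
    (h : ∀ i ∈ s, ∀ j, P.pairingIn ℤ j i ≠ 0 → j ∈ s) : s = Set.univ := by
  have hz : ∀ j ∉ s, ∀ i ∈ s, P.pairing i j = 0 := by
    intro j hj i hi
    rw [← P.algebraMap_pairingIn ℤ]
    by_contra h1
    refine hj (h i hi j (pairingIn_ne_zero_symm P ?_))
    intro h2
    rw [h2] at h1
    simp at h1
  have htop : Submodule.span ℚ (P.root '' s) = ⊤ := by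
    refine P.span_root_image_eq_top_of_forall_orthogonal s hne fun j hj i hi => ?_
    have hjs : j ∉ s := fun hjs => hj (Submodule.subset_span ⟨j, hjs, rfl⟩)
    rw [P.isOrthogonal_symm, P.isOrthogonal_iff_pairing_eq_zero]
    exact hz j hjs i hi
  by_contra hs
  obtain ⟨j, hj⟩ := (Set.ne_univ_iff_exists_notMem s).1 hs
  have hk : Submodule.span ℚ (P.root '' s) ≤ LinearMap.ker (P.coroot' j) := by
    rw [Submodule.span_le]
    rintro _ ⟨i, hi, rfl⟩
    simpa using hz j hj i hi
  rw [htop] at hk
  have h2 : P.root j ∈ LinearMap.ker (P.coroot' j) := hk trivial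
  simp at h2

/-- By the first one it is enough to show `c α = c β` when `⟨α,β⟩ ≠ 0`, `α ≠ ± β`; replacing `β` by
`-β` (h1 with `α = β`) we may assume the pairings are negative. Equal length: pairings `(-1,-1)`,
`s_β α = α + β = s_α β`. Otherwise let `α` be the short one: `⟨α,β^∨⟩ = -1`, `⟨β,α^∨⟩ = -r`, `r = 2,3`;
then `δ = β + (r-1) α` and `δ + α = s_α β` are roots, `2α + δ`, `α + 2δ` are not, so by `h2`
`c β = c (s_α β) = c δ`; and `δ = ± s_{...}`: use `h2` with the roles of `α` and `δ` exchanged, too:
`c (α + δ) = c α`. -/
theorem const_of_conn [P.IsIrreducible] {V : Type*} (c : ι → V)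
    (h1 : ∀ α β, c (P.reflectionPerm α β) = c β)
    (h2 : ∀ α δ κ, P.root κ = P.root α + P.root δ → 2 • P.root α + P.root δ ∉ Set.range P.root →
      P.root α + 2 • P.root δ ∉ Set.range P.root → c κ = c δ) :
    ∀ α β, c α = c β := by
  -- no root has a pairing of absolute value at least four
  have hno : ∀ α γ, P.pairingIn ℤ γ α < 4 := by
    intro α γ
    have h := P.pairingIn_pairingIn_mem_set_of_isCrystal_of_isRed γ α
    simp only [Set.mem_insert_iff, Prod.mk.injEq, Set.mem_singleton_iff] at h
    omega
  -- the main case
  have hmain : ∀ α β, P.pairingIn ℤ α β = -1 → P.pairingIn ℤ β α < 0 → c α = c β := by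
    intro α β hab hba
    have hset := P.pairingIn_pairingIn_mem_set_of_isCrystal_of_isRed α β
    simp only [Set.mem_insert_iff, Prod.mk.injEq, Set.mem_singleton_iff] at hset
    have hr1 : P.root (P.reflectionPerm β α) = P.root α + P.root β := by
      rw [P.root_reflectionPerm, P.reflection_apply_root, ← P.algebraMap_pairingIn ℤ, hab]
      simp
    have hcases : P.pairingIn ℤ β α = -1 ∨ P.pairingIn ℤ β α = -2 ∨ P.pairingIn ℤ β α = -3 := by
      omega
    have hr2 : P.root (P.reflectionPerm α β) = P.root β - (P.pairingIn ℤ β α : ℚ) • P.root α := by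
      rw [P.root_reflectionPerm, P.reflection_apply_root, ← P.algebraMap_pairingIn ℤ]
      simp
    rcases hcases with h | h | h
    · rw [h] at hr2
      have : P.reflectionPerm β α = P.reflectionPerm α β := by
        apply P.root.injective
        rw [hr1, hr2]
        push_cast
        module
      rw [← h1 β α, this, h1]
    · rw [h] at hr2
      rw [← h1 β α, ← h1 α β]
      symm
      refine h2 α (P.reflectionPerm β α) (P.reflectionPerm α β) ?_ ?_ ?_
      · rw [hr1, hr2]
        push_cast
        module
      · rintro ⟨γ, hγ⟩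
        rw [hr1] at hγ
        have e : P.root γ = (3 : ℤ) • P.root α + (1 : ℤ) • P.root β := by
          rw [hγ]
          module
        have e2 := P.pairingIn_eq_add_of_root_eq_smul_add_smul (S := ℤ) (j := α) e
        rw [P.pairingIn_same, h, smul_eq_mul, smul_eq_mul] at e2
        have := hno α γ
        omega
      · rintro ⟨γ, hγ⟩
        rw [hr1] at hγ
        have e : P.root γ = (3 : ℤ) • P.root α + (2 : ℤ) • P.root β := by
          rw [hγ]
          module
        have e2 := P.pairingIn_eq_add_of_root_eq_smul_add_smul (S := ℤ) (j := β) e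
        rw [P.pairingIn_same, hab, smul_eq_mul, smul_eq_mul] at e2
        have e3 : P.root (P.reflectionPerm β γ) = (3 : ℤ) • P.root α + (1 : ℤ) • P.root β := by
          rw [P.root_reflectionPerm, P.reflection_apply_root, ← P.algebraMap_pairingIn ℤ, e2, e]
          simp only [eq_intCast]
          push_cast
          module
        have e4 := P.pairingIn_eq_add_of_root_eq_smul_add_smul (S := ℤ) (j := α) e3
        rw [P.pairingIn_same, h, smul_eq_mul, smul_eq_mul] at e4
        have := hno α (P.reflectionPerm β γ)
        omega
    · rw [h] at hr2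
      have hr3 : P.root (P.reflectionPerm α (P.reflectionPerm β α)) =
          (2 : ℤ) • P.root α + (1 : ℤ) • P.root β := by
        have e := P.pairingIn_eq_add_of_root_eq_add (S := ℤ) (j := α) hr1
        rw [P.pairingIn_same, h] at e
        rw [P.root_reflectionPerm, P.reflection_apply_root, ← P.algebraMap_pairingIn ℤ, e, hr1]
        simp only [eq_intCast]
        push_cast
        module
      rw [← h1 β α, ← h1 α β, ← h1 α (P.reflectionPerm β α)]
      symm
      refine h2 α (P.reflectionPerm α (P.reflectionPerm β α)) (P.reflectionPerm α β) ?_ ?_ ?_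
      · rw [hr3, hr2]
        push_cast
        module
      · rintro ⟨γ, hγ⟩
        rw [hr3] at hγ
        have e : P.root γ = (4 : ℤ) • P.root α + (1 : ℤ) • P.root β := by
          rw [hγ]
          module
        have e2 := P.pairingIn_eq_add_of_root_eq_smul_add_smul (S := ℤ) (j := α) e
        rw [P.pairingIn_same, h, smul_eq_mul, smul_eq_mul] at e2
        have := hno α γ
        omega
      · rintro ⟨γ, hγ⟩
        rw [hr3] at hγ
        have e : P.root γ = (5 : ℤ) • P.root α + (2 : ℤ) • P.root β := by
          rw [hγ]
          module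
        have e2 := P.pairingIn_eq_add_of_root_eq_smul_add_smul (S := ℤ) (j := α) e
        rw [P.pairingIn_same, h, smul_eq_mul, smul_eq_mul] at e2
        have := hno α γ
        omega
  have hneg : ∀ α β, P.pairingIn ℤ α β < 0 → P.root α ≠ - P.root β → c α = c β := by
    intro α β hab hne
    have hne' : P.root α ≠ P.root β := by
      intro h
      have := P.root.injective h
      subst this
      rw [P.pairingIn_same] at hab
      norm_num at hab
    have hset := P.pairingIn_pairingIn_mem_set_of_isCrystal_of_isRed' α β hne' hne
    simp only [Set.mem_insert_iff, Prod.mk.injEq, Set.mem_singleton_iff] at hset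
    by_cases h : P.pairingIn ℤ α β = -1
    · exact hmain α β h (by omega)
    · exact (hmain β α (by omega) hab).symm
  have hconn : ∀ α β, P.pairingIn ℤ α β ≠ 0 → c α = c β := by
    intro α β hab
    by_cases h3 : P.root α = - P.root β
    · have : α = P.reflectionPerm β β := by
        apply P.root.injective
        rw [P.root_reflectionPerm, P.reflection_apply_self, h3]
      rw [this, h1]
    by_cases h4 : P.root α = P.root β
    · rw [P.root.injective h4]
    rcases lt_or_gt_of_ne hab with h | h
    · exact hneg α β h h3
    · rw [← h1 β β]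
      refine hneg α _ ?_ ?_
      · rw [P.pairingIn_reflectionPerm_self_right]
        omega
      · rw [P.root_reflectionPerm, P.reflection_apply_self, neg_neg]
        exact h4
  intro α β
  have huniv := eq_univ_of_closed P {γ | c γ = c β} ⟨β, rfl⟩ (fun i hi j hj => by
    rw [Set.mem_ofPred_eq] at hi ⊢
    rw [hconn j i hj, hi])
  have : α ∈ {γ | c γ = c β} := by rw [huniv]; trivial
  exact this

end Root

end Ch4
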