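import Mathlib
import Pool.Agent.Lib.P4ba0d5.Base
import Pool.Agent.Lib.P4ba0d5.Good

/-! Weyl elements and the torus in the Chevalley group mod `p` (module Tor of MP_4ba0d5_al). -/

set_option linter.unusedSectionVars false
set_option linter.unusedVariables false

namespace Ch4

open Module

section Lie

variable {ι X Y : Type*} [Finite ι] [AddCommGroup X] [Module ℚ X] [AddCommGroup Y] [Module ℚ Y]
  {P : RootPairing ι ℚ X Y} [P.IsRootSystem] [P.IsCrystallographic] [P.IsReduced]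
  {b : P.Base} {f : ι → ℤ} {D : ℤ} {p : ℕ} [Fact p.Prime]

/-- elements of the Cartan subalgebra with prescribed eigenvalues -/
theorem tor_exists_h (hG : Good b f D p) {g : ι → ℤ} (hg : IsWt P g) :
    ∃ c : b.support → ZMod p, ∀ α, ∑ i, c i * (P.pairingIn ℤ α i : ZMod p) = (g α : ZMod p) := by
  obtain ⟨m, hm⟩ := hG.solve g hg
  refine ⟨fun i => (D : ZMod p)⁻¹ * (m i : ZMod p), fun α => ?_⟩
  have hD : (D : ZMod p) ≠ 0 := by
    refine intCast_ne_zero_of_lt hG.D_ne ?_
    have := hG.bound α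
    have h1 : 0 ≤ |f α| := abs_nonneg _
    have h2 : 0 ≤ |D| := abs_nonneg _
    nlinarith
  have h := congrArg (fun z : ℤ => (z : ZMod p)) (hm α)
  push_cast at h
  calc ∑ i, (D : ZMod p)⁻¹ * (m i : ZMod p) * (P.pairingIn ℤ α i : ZMod p)
      = (D : ZMod p)⁻¹ * ∑ i, (m i : ZMod p) * (P.pairingIn ℤ α i : ZMod p) := by
        rw [Finset.mul_sum]; exact Finset.sum_congr rfl fun i _ => by ring
    _ = (g α : ZMod p) := by
        rw [h, ← mul_assoc, inv_mul_cancel₀ hD, one_mul]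

theorem tor_pairing_refl (α β j : ι) : P.pairingIn ℤ (P.reflectionPerm α β) j =
    P.pairingIn ℤ β j - P.pairingIn ℤ β α * P.pairingIn ℤ α j := by
  have e : P.root (P.reflectionPerm α β) = (1 : ℤ) • P.root β + (-P.pairingIn ℤ β α) • P.root α := by
    rw [P.root_reflectionPerm, P.reflection_apply_root, ← P.algebraMap_pairingIn ℤ]
    simp only [eq_intCast]
    push_cast
    module
  have e2 := P.pairingIn_eq_add_of_root_eq_smul_add_smul (S := ℤ) (j := j) e
  rw [e2]; simp; ring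

theorem tor_pairing_ng (α j : ι) : P.pairingIn ℤ (ng P α) j = - P.pairingIn ℤ α j := by
  rw [ng, tor_pairing_refl, P.pairingIn_same]; ring

theorem tor_isWt_pairing (α : ι) : IsWt P (fun γ => P.pairingIn ℤ γ α) := by
  refine ⟨P.coroot' α, fun γ => ?_⟩
  rw [P.root_coroot'_eq_pairing, ← P.algebraMap_pairingIn ℤ]; simp

variable {L : Type*} [LieRing L] [LieAlgebra (ZMod p) L]

namespace ChevalleyBasis

variable (B : ChevalleyBasis b (ZMod p) L)

theorem tor_x_apply (h7 : IsUnit (720 : ZMod p)) : ∃ u : ZMod p, 6 * u = 1 ∧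
    ∀ α t z, B.x α t z = z + t • ⁅B.e α, z⁆ + (3 * u * t ^ 2) • ⁅B.e α, ⁅B.e α, z⁆⁆ +
      (u * t ^ 3) • ⁅B.e α, ⁅B.e α, ⁅B.e α, z⁆⁆⁆ := by
  obtain ⟨u, hu, he⟩ := exists_inv6 (ZMod p) h7
  refine ⟨u, hu, fun α t z => ?_⟩
  rw [x, he, E4_apply]
  simp only [LieAlgebra.ad_apply, smul_lie, lie_smul, smul_smul]
  congr 2
  · ring_nf
  · ring_nf

theorem tor_e_sum (α : ι) (c : b.support → ZMod p) :
    ⁅B.e α, ∑ i, c i • B.h i⁆ = -((∑ i, c i * (P.pairingIn ℤ α i : ZMod p)) • B.e α) := by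
  rw [← lie_skew, B.lie_sum_h]

theorem tor_e_hc (α : ι) : ⁅B.e α, B.hc α⁆ = -((2 : ZMod p) • B.e α) := by
  rw [B.lie_e_hc, P.pairingIn_same]; norm_num

theorem tor_ng_e (α : ι) : ⁅B.e (ng P α), B.e α⁆ = -B.hc α := by
  rw [← lie_skew, B.lie_e_ng]

theorem tor_ng_hc (α : ι) : ⁅B.e (ng P α), B.hc α⁆ = (2 : ZMod p) • B.e (ng P α) := by
  rw [B.lie_e_hc, tor_pairing_ng, P.pairingIn_same]; push_cast; simp

theorem tor_x_self (h7 : IsUnit (720 : ZMod p)) (α : ι) (t : ZMod p) :
    B.x α t (B.e α) = B.e α := by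
  obtain ⟨u, hu, he⟩ := B.tor_x_apply h7
  rw [he]; simp

theorem tor_x_sum (h7 : IsUnit (720 : ZMod p)) (α : ι) (t : ZMod p) (c : b.support → ZMod p) :
    B.x α t (∑ i, c i • B.h i) = ∑ i, c i • B.h i -
      (t * ∑ i, c i * (P.pairingIn ℤ α i : ZMod p)) • B.e α := by
  obtain ⟨u, hu, he⟩ := B.tor_x_apply h7
  rw [he, tor_e_sum]
  simp only [lie_neg, lie_smul, lie_self, smul_zero, neg_zero, add_zero, lie_zero]
  module

theorem tor_x_hc (h7 : IsUnit (720 : ZMod p)) (α : ι) (t : ZMod p) :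
    B.x α t (B.hc α) = B.hc α - (2 * t) • B.e α := by
  obtain ⟨u, hu, he⟩ := B.tor_x_apply h7
  rw [he, tor_e_hc]
  simp only [lie_neg, lie_smul, lie_self, smul_zero, neg_zero, add_zero, lie_zero]
  module

theorem tor_x_ng (h7 : IsUnit (720 : ZMod p)) (α : ι) (t : ZMod p) :
    B.x α t (B.e (ng P α)) = B.e (ng P α) + t • B.hc α - (t ^ 2) • B.e α := by
  obtain ⟨u, hu, he⟩ := B.tor_x_apply h7
  rw [he, B.lie_e_ng, tor_e_hc]
  simp only [lie_neg, lie_smul, lie_self, smul_zero, neg_zero, add_zero, lie_zero]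
  have : (3 * u * t ^ 2 * 2) = t ^ 2 := by linear_combination t ^ 2 * hu
  rw [smul_neg, smul_smul, this]
  module

theorem tor_xng_sum (h7 : IsUnit (720 : ZMod p)) (α : ι) (t : ZMod p) (c : b.support → ZMod p) :
    B.x (ng P α) t (∑ i, c i • B.h i) = ∑ i, c i • B.h i +
      (t * ∑ i, c i * (P.pairingIn ℤ α i : ZMod p)) • B.e (ng P α) := by
  rw [B.tor_x_sum h7]
  have : ∑ i : b.support, c i * (P.pairingIn ℤ (ng P α) i : ZMod p) =
      -∑ i : b.support, c i * (P.pairingIn ℤ α i : ZMod p) := by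
    rw [← Finset.sum_neg_distrib]
    refine Finset.sum_congr rfl fun i _ => ?_
    rw [tor_pairing_ng]; push_cast; ring
  rw [this]
  module

theorem tor_xng_e (h7 : IsUnit (720 : ZMod p)) (α : ι) (t : ZMod p) :
    B.x (ng P α) t (B.e α) = B.e α - t • B.hc α - (t ^ 2) • B.e (ng P α) := by
  obtain ⟨u, hu, he⟩ := B.tor_x_apply h7
  rw [he, tor_ng_e]
  simp only [lie_neg, tor_ng_hc, lie_smul, lie_self, smul_zero, neg_zero, add_zero, lie_zero]
  have : (3 * u * t ^ 2 * 2) = t ^ 2 := by linear_combination t ^ 2 * hu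
  rw [smul_neg, smul_neg, smul_smul, this]
  module

theorem tor_xng_hc (h7 : IsUnit (720 : ZMod p)) (α : ι) (t : ZMod p) :
    B.x (ng P α) t (B.hc α) = B.hc α + (2 * t) • B.e (ng P α) := by
  obtain ⟨u, hu, he⟩ := B.tor_x_apply h7
  rw [he, tor_ng_hc]
  simp only [lie_neg, lie_smul, lie_self, smul_zero, neg_zero, add_zero, lie_zero]
  module

theorem nel_h (hG : Good b f D p) (α : ι) (c : b.support → ZMod p) :
    B.nel α (∑ i, c i • B.h i) =
      ∑ i, c i • B.h i - (∑ i, c i * (P.pairingIn ℤ α i : ZMod p)) • B.hc α := by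
  have h7 := hG.isUnit720
  rw [nel, Module.End.mul_apply, Module.End.mul_apply, B.tor_x_sum h7, map_sub, map_smul,
    B.tor_xng_sum h7, B.tor_xng_e h7]
  simp only [map_sub, map_add, map_smul, B.tor_x_sum h7, B.tor_x_self h7, B.tor_x_hc h7,
    B.tor_x_ng h7]
  module

theorem nel_e_self (hG : Good b f D p) (α : ι) : B.nel α (B.e α) = - B.e (ng P α) := by
  have h7 := hG.isUnit720
  rw [nel, Module.End.mul_apply, Module.End.mul_apply, B.tor_x_self h7, B.tor_xng_e h7]
  simp only [map_sub, map_add, map_smul, B.tor_x_self h7, B.tor_x_hc h7, B.tor_x_ng h7]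
  module

theorem nel_mem (α : ι) : B.nel α ∈ B.elem :=
  mul_mem (mul_mem (B.x_mem _ _) (B.x_mem _ _)) (B.x_mem _ _)

/-- coordinates of `[h, y]` -/
theorem tor_repr_lie {g : ι → ℤ} {c : b.support → ZMod p}
    (hc : ∀ α, ∑ i, c i * (P.pairingIn ℤ α i : ZMod p) = (g α : ZMod p)) (y : L)
    (u : b.support ⊕ ι) :
    B.basis.repr ⁅∑ i, c i • B.h i, y⁆ u = ((wt g u : ℤ) : ZMod p) * B.basis.repr y u := by
  classical
  have h1 : (B.basis.coord u) ∘ₗ (LieAlgebra.ad (ZMod p) L (∑ i, c i • B.h i)) =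
      ((wt g u : ℤ) : ZMod p) • B.basis.coord u := by
    apply B.basis.ext
    intro v
    rw [LinearMap.comp_apply, LieAlgebra.ad_apply, LinearMap.smul_apply, Basis.coord_apply,
      Basis.coord_apply, smul_eq_mul]
    rcases v with j | β
    · rw [B.lie_sum_h_h, map_zero, Finsupp.zero_apply, B.basis.repr_self, Finsupp.single_apply]
      split_ifs with h
      · rw [← h]; simp
      · simp
    · rw [show B.basis (.inr β) = B.e β from rfl, B.lie_sum_h, hc, map_smul, Finsupp.smul_apply,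
        smul_eq_mul, B.basis.repr_self, Finsupp.single_apply]
      split_ifs with h
      · rw [← h]; simp
      · simp
  exact congrArg (fun φ => φ y) h1

theorem nel_e (hG : Good b f D p) (α β : ι) :
    ∃ c : ZMod p, c ≠ 0 ∧ B.nel α (B.e β) = c • B.e (P.reflectionPerm α β) := by
  classical
  have h7 := hG.isUnit720
  obtain ⟨c, hc⟩ := tor_exists_h hG hG.isWt
  set s := P.reflectionPerm α β with hs
  set y := B.nel α (B.e β) with hy
  set a : ZMod p := ∑ i, c i * (P.pairingIn ℤ α i : ZMod p) with ha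
  -- the element `h''` with `n_α h'' = h`
  have hh : B.nel α (∑ i, c i • B.h i - a • B.hc α) = ∑ i, c i • B.h i := by
    have h2 : B.nel α (B.hc α) = - B.hc α := by
      have h3 : ∑ i : b.support, (cc b α i : ZMod p) * (P.pairingIn ℤ α i : ZMod p) = 2 := by
        have := congrArg (fun z : ℤ => (z : ZMod p)) (sum_cc_pairing b α α)
        push_cast at this
        rw [this, P.pairingIn_same]; norm_num
      calc B.nel α (B.hc α) = B.hc α -
            (∑ i : b.support, (cc b α i : ZMod p) * (P.pairingIn ℤ α i : ZMod p)) • B.hc α :=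
            B.nel_h hG α (fun i => (cc b α i : ZMod p))
        _ = - B.hc α := by rw [h3]; module
    rw [map_sub, map_smul, B.nel_h hG, h2]
    module
  have hlie : ⁅∑ i, c i • B.h i, y⁆ = ((f s : ℤ) : ZMod p) • y := by
    rw [← hh, hy, ← B.elem_lie h7 (B.nel_mem α), sub_lie, smul_lie, B.lie_sum_h, B.lie_hc, hc,
      smul_smul, ← sub_smul, map_smul]
    congr 1
    have h4 : (f s : ZMod p) = ∑ i, c i * (P.pairingIn ℤ s i : ZMod p) := (hc s).symm
    rw [h4, ← hc β, ha, Finset.sum_mul, ← Finset.sum_sub_distrib]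
    refine Finset.sum_congr rfl fun i _ => ?_
    rw [hs, tor_pairing_refl]
    push_cast; ring
  have hcoord : ∀ u, u ≠ Sum.inr s → B.basis.repr y u = 0 := by
    intro u hu
    by_contra h0
    have h1 := B.tor_repr_lie hc y u
    rw [hlie, map_smul, Finsupp.smul_apply, smul_eq_mul] at h1
    have h2 : ((f s : ℤ) : ZMod p) = ((wt f u : ℤ) : ZMod p) := mul_right_cancel₀ h0 h1
    have hb := hG.bound s
    have hD : 0 ≤ |D| := abs_nonneg _
    have hfs : 0 ≤ |f s| := abs_nonneg _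
    have hlt : |f s - wt f u| < p := by
      rcases u with i | γ
      · simp only [wt_inl, sub_zero]; nlinarith
      · simp only [wt_inr]
        have hb' := hG.bound γ
        have hfg : 0 ≤ |f γ| := abs_nonneg _
        have := abs_sub (f s) (f γ)
        nlinarith
    have h3 : f s - wt f u = 0 := by
      by_contra h4
      refine intCast_ne_zero_of_lt h4 hlt ?_
      push_cast
      rw [h2, sub_self]
    rcases u with i | γ
    · simp only [wt_inl, sub_zero] at h3
      exact hG.ne s h3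
    · simp only [wt_inr] at h3
      exact hu (by rw [hG.inj (show f γ = f s by omega)])
  have hyeq : y = B.basis.repr y (Sum.inr s) • B.e s := by
    apply B.basis.ext_elem
    intro u
    rw [map_smul, Finsupp.smul_apply, smul_eq_mul, B.basis.repr_self, Finsupp.single_apply]
    split_ifs with h
    · rw [← h, mul_one]
    · rw [mul_zero]; exact hcoord u (Ne.symm h)
  refine ⟨B.basis.repr y (Sum.inr s), ?_, hyeq⟩
  intro h0
  rw [h0, zero_smul] at hyeq
  obtain ⟨g', -, -, hg'⟩ := B.elem_inv h7 (B.nel_mem α)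
  have h5 : B.e β = g' y := by
    rw [hy, ← Module.End.mul_apply, hg', Module.End.one_apply]
  rw [hyeq, map_zero] at h5
  have : Nontrivial (ZMod p) := inferInstance
  exact B.basis.ne_zero _ h5

/-- the diagonal operator of a weight -/
noncomputable def dg (g : ι → ℤ) (v : (ZMod p)ˣ) : Module.End (ZMod p) L :=
  B.basis.constr (ZMod p) (fun u => ((v ^ (wt g u) : (ZMod p)ˣ) : ZMod p) • B.basis u)

theorem dg_basis (g : ι → ℤ) (v : (ZMod p)ˣ) (u : b.support ⊕ ι) :
    B.dg g v (B.basis u) = ((v ^ (wt g u) : (ZMod p)ˣ) : ZMod p) • B.basis u := by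
  rw [dg, Basis.constr_basis]

theorem dg_h (g : ι → ℤ) (v : (ZMod p)ˣ) (c : b.support → ZMod p) :
    B.dg g v (∑ i, c i • B.h i) = ∑ i, c i • B.h i := by
  rw [map_sum]
  refine Finset.sum_congr rfl fun i _ => ?_
  rw [map_smul, B.dg_basis]; simp

theorem repr_dg (g : ι → ℤ) (v : (ZMod p)ˣ) (x : L) (u : b.support ⊕ ι) :
    B.basis.repr (B.dg g v x) u = ((v ^ (wt g u) : (ZMod p)ˣ) : ZMod p) * B.basis.repr x u := by
  classical
  have h1 : (B.basis.coord u) ∘ₗ (B.dg g v) =
      ((v ^ (wt g u) : (ZMod p)ˣ) : ZMod p) • B.basis.coord u := by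
    apply B.basis.ext
    intro w
    rw [LinearMap.comp_apply, B.dg_basis, map_smul, LinearMap.smul_apply, Basis.coord_apply,
      smul_eq_mul, smul_eq_mul, B.basis.repr_self, Finsupp.single_apply]
    split_ifs with h
    · rw [← h]
    · simp
  exact congrArg (fun φ => φ x) h1

theorem dg_lie {g : ι → ℤ} (hg : IsWt P g) (v : (ZMod p)ˣ) (y z : L) :
    B.dg g v ⁅y, z⁆ = ⁅B.dg g v y, B.dg g v z⁆ := by
  set A : L →ₗ[ZMod p] L →ₗ[ZMod p] L := LinearMap.mk₂ (ZMod p) (fun y z => B.dg g v ⁅y, z⁆)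
    (fun a c z => by rw [add_lie, map_add]) (fun r a z => by rw [smul_lie, map_smul])
    (fun a c z => by rw [lie_add, map_add]) (fun r a z => by rw [lie_smul, map_smul]) with hA
  set A' : L →ₗ[ZMod p] L →ₗ[ZMod p] L := LinearMap.mk₂ (ZMod p)
    (fun y z => ⁅B.dg g v y, B.dg g v z⁆)
    (fun a c z => by rw [map_add, add_lie]) (fun r a z => by rw [map_smul, smul_lie])
    (fun a c z => by rw [map_add, lie_add]) (fun r a z => by rw [map_smul, lie_smul]) with hA'
  have h : A = A' := by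
    refine LinearMap.ext_basis B.basis B.basis fun u w => ?_
    rw [hA, hA', LinearMap.mk₂_apply, LinearMap.mk₂_apply, B.dg_basis, B.dg_basis, smul_lie,
      lie_smul]
    apply B.basis.ext_elem
    intro k
    rw [B.repr_dg, map_smul, map_smul, Finsupp.smul_apply, Finsupp.smul_apply, smul_eq_mul,
      smul_eq_mul, ← mul_assoc]
    by_cases h0 : B.basis.repr ⁅B.basis u, B.basis w⁆ k = 0
    · rw [h0, mul_zero, mul_zero]
    · rw [B.repr_lie_ne hg u w k h0, zpow_add, Units.val_mul]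
  have := congrArg (fun φ => φ y z) h
  simpa [hA, hA'] using this

theorem dg_mul (g g' : ι → ℤ) (v v' : (ZMod p)ˣ) (g'' : ι → ℤ) (v'' : (ZMod p)ˣ)
    (h : ∀ γ, v ^ (g γ) * v' ^ (g' γ) = v'' ^ (g'' γ)) :
    B.dg g v * B.dg g' v' = B.dg g'' v'' := by
  apply B.basis.ext
  intro u
  rw [Module.End.mul_apply, B.dg_basis, map_smul, B.dg_basis, B.dg_basis, smul_smul,
    ← Units.val_mul]
  congr 2
  rcases u with i | γ
  · simp
  · simp only [wt_inr]; rw [← h γ, mul_comm]

theorem dg_eq_one (g : ι → ℤ) (v : (ZMod p)ˣ) (h : ∀ γ, v ^ (g γ) = 1) : B.dg g v = 1 := by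
  apply B.basis.ext
  intro u
  rw [B.dg_basis, Module.End.one_apply]
  rcases u with i | γ
  · simp
  · simp only [wt_inr]; rw [h]; simp

theorem dg_x {g : ι → ℤ} (hg : IsWt P g) (v : (ZMod p)ˣ) (α : ι) (t : ZMod p) :
    B.dg g v * B.x α t = B.x α (t * ((v ^ (g α) : (ZMod p)ˣ) : ZMod p)) * B.dg g v := by
  unfold x
  rw [mul_expNil_ad (B.dg g v) (B.dg_lie hg v), map_smul, B.dg_basis, smul_smul, wt_inr]

theorem dg_pairing_mem (hG : Good b f D p) (α : ι) (v : (ZMod p)ˣ) :
    B.dg (fun γ => P.pairingIn ℤ γ α) v * B.dg (fun γ => P.pairingIn ℤ γ α) v ∈ B.elem := by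
  classical
  have h7 := hG.isUnit720
  set g : ι → ℤ := fun γ => P.pairingIn ℤ γ α with hg
  have hgw : IsWt P g := tor_isWt_pairing α
  have hD' : B.dg g v * B.dg g v⁻¹ = 1 := by
    rw [B.dg_mul g g v v⁻¹ 0 1 fun γ => by simp]
    exact B.dg_eq_one _ _ fun γ => by simp
  have h1 : B.nel α * B.dg g v⁻¹ = B.dg g v * B.nel α := by
    apply B.basis.ext
    rintro (i | γ)
    · have e1 : B.basis (.inl i) = ∑ j, (Pi.single i (1 : ZMod p) : b.support → ZMod p) j •
          B.h j := by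
        rw [Finset.sum_eq_single i]
        · simp
        · intro j _ hj; rw [Pi.single_eq_of_ne hj, zero_smul]
        · intro h; exact absurd (Finset.mem_univ _) h
      rw [Module.End.mul_apply, Module.End.mul_apply, e1, B.dg_h, B.nel_h hG, map_sub, map_smul,
        B.dg_h, hc, B.dg_h]
    · obtain ⟨c, -, hc⟩ := B.nel_e hG α γ
      rw [Module.End.mul_apply, Module.End.mul_apply, B.dg_basis, map_smul,
        show B.basis (.inr γ) = B.e γ from rfl, hc, map_smul, B.dg_basis, smul_smul, smul_smul,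
        wt_inr, wt_inr, mul_comm]
      congr 2
      rw [hg]; dsimp only
      rw [tor_pairing_refl, P.pairingIn_same, inv_zpow', ]
      congr 2
      ring
  have h2 : B.dg g v * B.nel α = (B.x α (1 * ((v ^ (g α) : (ZMod p)ˣ) : ZMod p)) *
      B.x (ng P α) (-1 * ((v ^ (g (ng P α)) : (ZMod p)ˣ) : ZMod p)) *
      B.x α (1 * ((v ^ (g α) : (ZMod p)ˣ) : ZMod p))) * B.dg g v := by
    rw [nel, ← mul_assoc, ← mul_assoc, B.dg_x hgw, mul_assoc _ (B.dg g v), B.dg_x hgw,
      ← mul_assoc, mul_assoc _ (B.dg g v), B.dg_x hgw, ← mul_assoc]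
  set n' := (B.x α (1 * ((v ^ (g α) : (ZMod p)ˣ) : ZMod p)) *
      B.x (ng P α) (-1 * ((v ^ (g (ng P α)) : (ZMod p)ˣ) : ZMod p)) *
      B.x α (1 * ((v ^ (g α) : (ZMod p)ˣ) : ZMod p))) with hn'
  have hn'm : n' ∈ B.elem := mul_mem (mul_mem (B.x_mem _ _) (B.x_mem _ _)) (B.x_mem _ _)
  obtain ⟨m', hm', hm1, -⟩ := B.elem_inv h7 (B.nel_mem α)
  have h3 : n' = B.dg g v * B.dg g v * B.nel α := by
    calc n' = n' * (B.dg g v * B.dg g v⁻¹) := by rw [hD', mul_one]
      _ = (B.dg g v * B.nel α) * B.dg g v⁻¹ := by rw [← mul_assoc, ← h2]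
      _ = B.dg g v * (B.nel α * B.dg g v⁻¹) := by rw [mul_assoc]
      _ = _ := by rw [h1, mul_assoc]
  have h4 : B.dg g v * B.dg g v = n' * m' := by
    rw [h3, mul_assoc _ (B.nel α), hm1, mul_one]
  rw [h4]
  exact mul_mem hn'm hm'

theorem exists_torus (hG : Good b f D p) :
    ∃ t ∈ B.elem, ∃ l : (ZMod p)ˣ, t ^ (p - 1) = 1 ∧
      (∀ k : ℤ, k ≠ 0 → (∃ α, |k| ≤ 100 * (|f α| + 1)) → l ^ k ≠ 1) ∧
      ∀ u, t (B.basis u) = ((l ^ (wt f u) : (ZMod p)ˣ) : ZMod p) • B.basis u := by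
  classical
  have hp : p.Prime := Fact.out
  obtain ⟨v, hv⟩ := IsCyclic.exists_generator (α := (ZMod p)ˣ)
  have hord : orderOf v = p - 1 := by
    rw [orderOf_eq_card_of_forall_mem_zpowers hv, Nat.card_eq_fintype_card, ZMod.card_units]
  obtain ⟨m, hm⟩ := hG.solve f hG.isWt
  have hmem : ∀ S : Finset b.support, B.dg (fun γ => ∑ i ∈ S, 2 * (m i * P.pairingIn ℤ γ i)) v ∈
      B.elem := by
    intro S
    induction S using Finset.induction_on with
    | empty =>
      rw [B.dg_eq_one _ _ fun γ => by simp]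
      exact one_mem _
    | insert i S hi ih =>
      have h1 := B.dg_pairing_mem hG (i : ι) (v ^ (m i))
      have h2 := mul_mem h1 ih
      rw [B.dg_mul _ _ _ _ (fun γ => 2 * (m i * P.pairingIn ℤ γ i)) v fun γ => by
          rw [← zpow_mul, ← zpow_add]; congr 1; ring,
        B.dg_mul _ _ _ _ (fun γ => ∑ i ∈ insert i S, 2 * (m i * P.pairingIn ℤ γ i)) v fun γ => by
          rw [← zpow_add, Finset.sum_insert hi]] at h2
      exact h2
  have hsum : (fun γ => ∑ i ∈ Finset.univ, 2 * (m i * P.pairingIn ℤ γ (i : ι))) =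
      fun γ => 2 * D * f γ := by
    funext γ
    rw [← Finset.mul_sum, hm γ]; ring
  have hmem' := hmem Finset.univ
  rw [hsum] at hmem'
  have hbas : ∀ u, B.dg (fun γ => 2 * D * f γ) v (B.basis u) =
      (((v ^ (2 * D)) ^ (wt f u) : (ZMod p)ˣ) : ZMod p) • B.basis u := by
    intro u
    rw [B.dg_basis, ← zpow_mul]
    congr 3
    rcases u with i | γ
    · simp
    · simp
  refine ⟨_, hmem', v ^ (2 * D), ?_, ?_, hbas⟩
  · have hpow : ∀ n : ℕ, ∀ u, ((B.dg (fun γ => 2 * D * f γ) v) ^ n) (B.basis u) =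
        ((((v ^ (2 * D)) ^ (wt f u)) ^ n : (ZMod p)ˣ) : ZMod p) • B.basis u := by
      intro n u
      induction n with
      | zero => simp
      | succ n ih =>
        rw [pow_succ, Module.End.mul_apply, hbas, map_smul, ih, smul_smul, ← Units.val_mul,
          pow_succ _ n, mul_comm]
    apply B.basis.ext
    intro u
    rw [hpow, ZMod.units_pow_card_sub_one_eq_one]
    simp
  · rintro k hk ⟨α, hα⟩ h1
    rw [← zpow_mul, ← orderOf_dvd_iff_zpow_eq_one, hord] at h1
    have hne : 2 * D * k ≠ 0 := mul_ne_zero (mul_ne_zero two_ne_zero hG.D_ne) hk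
    have h2 := Int.le_of_dvd (abs_pos.mpr hne) ((dvd_abs _ _).mpr h1)
    rw [abs_mul, abs_mul, abs_two] at h2
    have hb := hG.bound α
    have hD : 0 ≤ |D| := abs_nonneg _
    have hf : 0 ≤ |f α| := abs_nonneg _
    have hp1 : ((p - 1 : ℕ) : ℤ) = p - 1 := by
      rw [Nat.cast_sub hp.one_le]; simp
    rw [hp1] at h2
    have h3 : 2 * |D| * |k| ≤ 2 * |D| * (100 * (|f α| + 1)) := by
      exact mul_le_mul_of_nonneg_left hα (by positivity)
    nlinarith

end ChevalleyBasis

end Lie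

end Ch4
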