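import Mathlib
import Pool.Agent.Lib.P4ba0d5.Base
import Pool.Agent.Lib.P4ba0d5.Good
import Pool.Agent.Lib.P4ba0d5.RootConn
import Pool.Agent.Lib.P4ba0d5.Tor

/-! Irreducibility of the adjoint module of a Chevalley Lie algebra mod `p`
(module Irr of MP_4ba0d5_al). -/

set_option linter.unusedSectionVars false
set_option linter.unusedVariables false

namespace Ch4

open Module

section Lie

variable {ι X Y : Type*} [Finite ι] [AddCommGroup X] [Module ℚ X] [AddCommGroup Y] [Module ℚ Y]
  {P : RootPairing ι ℚ X Y} [P.IsRootSystem] [P.IsCrystallographic] [P.IsReduced]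
  {b : P.Base} {f : ι → ℤ} {D : ℤ} {p : ℕ} [Fact p.Prime]

open Classical in
/-- the coefficient of a root at a simple root is a weight -/
theorem irr_exists_coef (b : P.Base) (j : b.support) : ∃ g : ι → ℤ, IsWt P g ∧
    ∀ k : b.support, g k = if k = j then 1 else 0 := by
  have hcoord : ∀ α, ∃ n : ℤ, b.toWeightBasis.coord j (P.root α) = n := by
    intro α
    obtain ⟨c, hc1, -, hc⟩ := b.exists_root_eq_sum_int α
    refine ⟨c j, ?_⟩
    rw [hc, map_sum]
    have h1 : ∀ i ∈ b.support, b.toWeightBasis.coord j (c i • P.root i) =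
        if i = (j : ι) then (c i : ℚ) else 0 := by
      intro i hi
      have h2 : P.root i = b.toWeightBasis ⟨i, hi⟩ := by
        rw [RootPairing.Base.toWeightBasis_apply]
      rw [map_zsmul, h2, Basis.coord_apply, Basis.repr_self, Finsupp.single_apply]
      by_cases h : i = (j : ι)
      · rw [if_pos (Subtype.ext h), if_pos h]; simp
      · rw [if_neg (fun h' => h (congrArg Subtype.val h')), if_neg h]; simp
    rw [Finset.sum_congr rfl h1, Finset.sum_ite_eq' b.support (j : ι), if_pos j.2]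
  choose g hg using hcoord
  refine ⟨g, ⟨b.toWeightBasis.coord j, hg⟩, fun k => ?_⟩
  have h := hg (k : ι)
  have h2 : P.root (k : ι) = b.toWeightBasis k := by
    rw [RootPairing.Base.toWeightBasis_apply]
  rw [h2, Basis.coord_apply, Basis.repr_self, Finsupp.single_apply] at h
  split_ifs at h ⊢ with h3
  · exact_mod_cast h.symm
  · exact_mod_cast h.symm

/-- the Cartan matrix is invertible mod `p` -/
theorem irr_cartan_inj (hG : Good b f D p) (c : b.support → ZMod p)
    (h : ∀ α, ∑ i, c i * (P.pairingIn ℤ α i : ZMod p) = 0) : c = 0 := by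
  classical
  have hex : ∀ j : b.support, ∃ m : b.support → ZMod p, ∀ k : b.support,
      ∑ i, m i * (P.pairingIn ℤ (k : ι) i : ZMod p) = if k = j then 1 else 0 := by
    intro j
    obtain ⟨g, hg, hg1⟩ := irr_exists_coef b j
    obtain ⟨m, hm⟩ := tor_exists_h hG hg
    refine ⟨m, fun k => ?_⟩
    rw [hm, hg1]
    by_cases h : k = j
    · rw [if_pos h, if_pos h]; simp
    · rw [if_neg h, if_neg h]; simp
  choose m hm using hex
  let A : Matrix b.support b.support (ZMod p) := fun i k => (P.pairingIn ℤ (k : ι) i : ZMod p)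
  let M : Matrix b.support b.support (ZMod p) := fun j i => m j i
  have hMA : M * A = 1 := by
    ext j k
    rw [Matrix.mul_apply, Matrix.one_apply]
    rw [hm j k]
    by_cases h1 : j = k
    · rw [if_pos h1, if_pos h1.symm]
    · rw [if_neg h1, if_neg (Ne.symm h1)]
  have hAM : A * M = 1 := mul_eq_one_comm.1 hMA
  have h1 : Matrix.vecMul c A = 0 := by
    ext k
    exact h k
  calc c = Matrix.vecMul c (A * M) := by rw [hAM, Matrix.vecMul_one]
    _ = 0 := by rw [← Matrix.vecMul_vecMul, h1, Matrix.zero_vecMul]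

variable {L : Type*} [LieRing L] [LieAlgebra (ZMod p) L]

namespace ChevalleyBasis

variable (B : ChevalleyBasis b (ZMod p) L)

theorem irr_h_eq (i : b.support) : ⁅B.e i, B.e (ng P i)⁆ = B.h i := by
  classical
  have h := B.lie_e_neg (i : ι) (ng P i) (Pi.single i 1) (root_ng P i) (by
    rw [Finset.sum_eq_single i]
    · simp
    · intro j _ hj; rw [Pi.single_eq_of_ne hj, zero_smul]
    · intro h; exact absurd (Finset.mem_univ _) h)
  rw [show B.e (i : ι) = B.basis (.inr (i : ι)) from rfl, h, Finset.sum_eq_single i]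
  · simp
  · intro j _ hj; rw [Pi.single_eq_of_ne hj]; simp
  · intro h; exact absurd (Finset.mem_univ _) h

theorem irred [P.IsIrreducible] (hG : Good b f D p) (V : Submodule (ZMod p) L)
    (hV : ∀ α t, ∀ v ∈ V, B.x α t v ∈ V) : V = ⊥ ∨ V = ⊤ := by
  classical
  have : Fintype ι := Fintype.ofFinite ι
  have h7 := hG.isUnit720
  by_cases hbot : V = ⊥
  · exact Or.inl hbot
  right
  -- stability under `ad e_α`
  have hE : ∀ α, ∀ v ∈ V, ⁅B.e α, v⁆ ∈ V := by
    intro α v hv
    obtain ⟨u, hu, he⟩ := B.tor_x_apply h7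
    have h1 := hV α 1 v hv
    have h2 := hV α (-1) v hv
    have h3 := hV α 2 v hv
    rw [he] at h1 h2 h3
    set a1 := ⁅B.e α, v⁆ with ha1
    set a2 := ⁅B.e α, a1⁆ with ha2
    set a3 := ⁅B.e α, a2⁆ with ha3
    have m2 : a2 ∈ V := by
      have h := V.sub_mem (V.add_mem h1 h2) (V.smul_mem 2 hv)
      have e : v + (1 : ZMod p) • a1 + (3 * u * 1 ^ 2) • a2 + (u * 1 ^ 3) • a3 +
          (v + (-1 : ZMod p) • a1 + (3 * u * (-1) ^ 2) • a2 + (u * (-1) ^ 3) • a3) -
          (2 : ZMod p) • v = (6 * u) • a2 := by module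
      rw [e, hu, one_smul] at h
      exact h
    have m3 : a3 ∈ V := by
      have h := V.sub_mem (V.sub_mem (V.sub_mem h3 hv) (V.smul_mem (12 * u) m2))
        (V.sub_mem h1 h2)
      have e : v + (2 : ZMod p) • a1 + (3 * u * 2 ^ 2) • a2 + (u * 2 ^ 3) • a3 - v -
          (12 * u) • a2 - (v + (1 : ZMod p) • a1 + (3 * u * 1 ^ 2) • a2 + (u * 1 ^ 3) • a3 -
          (v + (-1 : ZMod p) • a1 + (3 * u * (-1) ^ 2) • a2 + (u * (-1) ^ 3) • a3)) =
          (6 * u) • a3 := by module
      rw [e, hu, one_smul] at h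
      exact h
    have h := V.smul_mem (3 * u) (V.sub_mem (V.sub_mem h1 h2) (V.smul_mem (2 * u) m3))
    have e : (3 * u) • (v + (1 : ZMod p) • a1 + (3 * u * 1 ^ 2) • a2 + (u * 1 ^ 3) • a3 -
          (v + (-1 : ZMod p) • a1 + (3 * u * (-1) ^ 2) • a2 + (u * (-1) ^ 3) • a3) -
          (2 * u) • a3) = (6 * u) • a1 := by module
    rw [e, hu, one_smul] at h
    exact h
  have hadE : ∀ α, ∀ v ∈ V, ⁅v, B.e α⁆ ∈ V := by
    intro α v hv
    rw [← lie_skew]
    exact V.neg_mem (hE α v hv)
  -- stability under `ad` of the Cartan subalgebra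
  have hH : ∀ (c : b.support → ZMod p), ∀ v ∈ V, ⁅∑ i, c i • B.h i, v⁆ ∈ V := by
    intro c v hv
    rw [_root_.sum_lie]
    refine V.sum_mem fun i _ => ?_
    rw [smul_lie, ← B.irr_h_eq i, lie_lie]
    exact V.smul_mem _ (V.sub_mem (hE _ _ (hE _ _ hv)) (hE _ _ (hE _ _ hv)))
  -- eigenvalues
  obtain ⟨c, hc⟩ := tor_exists_h hG hG.isWt
  have hfne : ∀ γ, (f γ : ZMod p) ≠ 0 := by
    intro γ
    refine intCast_ne_zero_of_lt (hG.ne γ) ?_
    have h1 := hG.bound γ
    have h2 : 0 ≤ |D| := abs_nonneg _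
    have h3 : 0 ≤ |f γ| := abs_nonneg _
    nlinarith
  have hfinj : ∀ γ δ, γ ≠ δ → (f γ : ZMod p) ≠ (f δ : ZMod p) := by
    intro γ δ hne h
    have h1 := hG.bound γ
    have h1' := hG.bound δ
    have h2 : 0 ≤ |D| := abs_nonneg _
    have h3 : 0 ≤ |f γ| := abs_nonneg _
    have h3' : 0 ≤ |f δ| := abs_nonneg _
    have h4 := abs_sub (f γ) (f δ)
    have h5 : f γ - f δ ≠ 0 := fun h => hne (hG.inj (by omega))
    refine intCast_ne_zero_of_lt h5 (by nlinarith) ?_
    push_cast
    rw [h, sub_self]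
  -- projection to a root space
  have hproj : ∀ γ, ∀ v ∈ V, B.basis.repr v (.inr γ) ≠ 0 → B.e γ ∈ V := by
    intro γ v hv hne
    -- apply `∏_{δ ≠ γ} (T - f δ) T`
    have hprod : ∀ S : Finset ι, ∃ w ∈ V, ∀ u, B.basis.repr w u =
        (((wt f u : ℤ) : ZMod p) * ∏ δ ∈ S, (((wt f u : ℤ) : ZMod p) - (f δ : ZMod p))) *
          B.basis.repr v u := by
      intro S
      induction S using Finset.induction_on with
      | empty =>
        refine ⟨_, hH c v hv, fun u => ?_⟩
        rw [B.tor_repr_lie hc]; simp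
      | insert δ S hδ ih =>
        obtain ⟨w, hw, hw1⟩ := ih
        refine ⟨_, V.sub_mem (hH c w hw) (V.smul_mem (f δ : ZMod p) hw), fun u => ?_⟩
        rw [map_sub, Finsupp.sub_apply, B.tor_repr_lie hc, map_smul, Finsupp.smul_apply,
          smul_eq_mul, hw1, Finset.prod_insert hδ]
        ring
    obtain ⟨w, hw, hw1⟩ := hprod (Finset.univ.erase γ)
    set k : ZMod p := ((f γ : ZMod p) * ∏ δ ∈ Finset.univ.erase γ, ((f γ : ZMod p) -
      (f δ : ZMod p))) * B.basis.repr v (.inr γ) with hk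
    have hk0 : k ≠ 0 := by
      rw [hk]
      refine mul_ne_zero (mul_ne_zero (hfne γ) (Finset.prod_ne_zero_iff.2 fun δ hδ => ?_)) hne
      exact sub_ne_zero.2 (hfinj _ _ (Ne.symm (Finset.ne_of_mem_erase hδ)))
    have hwe : w = k • B.e γ := by
      apply B.basis.ext_elem
      intro u
      rw [hw1, map_smul, Finsupp.smul_apply, smul_eq_mul, B.basis.repr_self, Finsupp.single_apply]
      split_ifs with h
      · rw [← h, wt_inr, mul_one, hk]
      · rw [mul_zero]
        rcases u with i | δ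
        · simp
        · have hne' : δ ≠ γ := fun h' => h (by rw [h'])
          rw [wt_inr, Finset.prod_eq_zero (Finset.mem_erase.2 ⟨hne', Finset.mem_univ δ⟩)
            (sub_self _), mul_zero, zero_mul]
    have : B.e γ = k⁻¹ • w := by rw [hwe, smul_smul, inv_mul_cancel₀ hk0, one_smul]
    rw [this]
    exact V.smul_mem _ hw
  -- some root vector lies in `V`
  obtain ⟨v, hv, hv0⟩ := (Submodule.ne_bot_iff V).1 hbot
  have hex : ∃ γ, B.e γ ∈ V := by
    by_cases h : ∃ γ, B.basis.repr v (.inr γ) ≠ 0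
    · obtain ⟨γ, hγ⟩ := h
      exact ⟨γ, hproj γ v hv hγ⟩
    · push Not at h
      set a : b.support → ZMod p := fun i => B.basis.repr v (.inl i) with ha
      have hva : v = ∑ i, a i • B.h i := by
        have := B.basis.sum_repr v
        rw [Fintype.sum_sum_type] at this
        rw [← this]
        simp only [h, zero_smul, Finset.sum_const_zero, add_zero]
        rfl
      have hane : a ≠ 0 := by
        intro h0
        apply hv0
        rw [hva, h0]; simp
      have : ∃ γ, ∑ i, a i * (P.pairingIn ℤ γ i : ZMod p) ≠ 0 := by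
        by_contra hcon
        push Not at hcon
        exact hane (irr_cartan_inj hG a hcon)
      obtain ⟨γ, hγ⟩ := this
      refine ⟨γ, ?_⟩
      have h1 := hadE γ v hv
      rw [hva, B.lie_sum_h] at h1
      have h2 := V.smul_mem (∑ i, a i * (P.pairingIn ℤ γ i : ZMod p))⁻¹ h1
      rwa [smul_smul, inv_mul_cancel₀ hγ, one_smul] at h2
  -- all root vectors lie in `V`
  have huniv := eq_univ_of_closed P {γ | B.e γ ∈ V} hex (fun γ hγ β hβ => by
    have hγ' : B.e γ ∈ V := hγ
    have h1 : B.hc γ ∈ V := by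
      rw [← B.lie_e_ng]
      exact hadE _ _ hγ'
    have h2 := hadE β _ h1
    rw [B.lie_hc] at h2
    have h3 : (P.pairingIn ℤ β γ : ZMod p) ≠ 0 := by
      refine intCast_ne_zero_of_lt hβ ?_
      have h4 := P.pairingIn_pairingIn_mem_set_of_isCrystal_of_isRed β γ
      simp only [Set.mem_insert_iff, Prod.mk.injEq, Set.mem_singleton_iff] at h4
      have h5 := hG.lt
      have h6 : |P.pairingIn ℤ β γ| ≤ 4 := by rw [abs_le]; omega
      omega
    have h4 := V.smul_mem (P.pairingIn ℤ β γ : ZMod p)⁻¹ h2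
    rwa [smul_smul, inv_mul_cancel₀ h3, one_smul] at h4)
  have hall : ∀ γ, B.e γ ∈ V := by
    intro γ
    have : γ ∈ {γ | B.e γ ∈ V} := by rw [huniv]; trivial
    exact this
  rw [eq_top_iff, ← B.basis.span_eq, Submodule.span_le]
  rintro _ ⟨u, rfl⟩
  rcases u with i | γ
  · change B.h i ∈ V
    rw [← B.irr_h_eq i]
    exact hE _ _ (hall _)
  · exact hall γ

end ChevalleyBasis

end Lie

end Ch4
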