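import Mathlib

/-! The highest weight argument (pure linear algebra). -/

set_option linter.unusedSectionVars false
set_option linter.unusedVariables false

namespace Ch4

open Module

namespace HWaux

section Trick

variable {K : Type*} [Field K] {V : Type*} [AddCommGroup V] [Module K V]

/-- If `∏ (H - i) v = 0` (distinct `i`) and `(H - c)^3 v = 0` then `H v = c v`. -/
theorem eig_of_prod (p : ℕ) [Fact p.Prime] {V : Type*} [AddCommGroup V] [Module (ZMod p) V]
    (H : Module.End (ZMod p) V) (v : V) (c : ZMod p) (k : ℕ) (hk : k < p)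
    (h1 : (Polynomial.aeval H (∏ i ∈ Finset.range k, (Polynomial.X - Polynomial.C (i : ZMod p)))) v = 0)
    (h2 : (Polynomial.aeval H ((Polynomial.X - Polynomial.C c) ^ 3)) v = 0) :
    H v = c • v := by
  classical
  set Q : Polynomial (ZMod p) :=
    ∏ i ∈ (Finset.range k).filter (fun i : ℕ => (i : ZMod p) ≠ c),
      (Polynomial.X - Polynomial.C (i : ZMod p)) with hQ
  have hcop : IsCoprime Q ((Polynomial.X - Polynomial.C c) ^ 2) := by
    apply IsCoprime.pow_right
    rw [hQ]
    apply IsCoprime.prod_left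
    intro i hi
    rw [Finset.mem_filter] at hi
    apply Polynomial.isCoprime_X_sub_C_of_isUnit_sub
    exact (sub_ne_zero.2 hi.2).isUnit
  have hdvd : (∏ i ∈ Finset.range k, (Polynomial.X - Polynomial.C (i : ZMod p))) ∣
      Q * (Polynomial.X - Polynomial.C c) := by
    rw [← Finset.prod_filter_mul_prod_filter_not (Finset.range k) (fun i : ℕ => (i : ZMod p) ≠ c)]
    apply mul_dvd_mul (dvd_refl _)
    have hcard : ((Finset.range k).filter (fun i : ℕ => ¬ (i : ZMod p) ≠ c)).card ≤ 1 := by
      rw [Finset.card_le_one]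
      intro a ha b hb
      rw [Finset.mem_filter, Finset.mem_range, not_not] at ha hb
      have : (a : ZMod p) = b := ha.2.trans hb.2.symm
      rw [ZMod.natCast_eq_natCast_iff'] at this
      rwa [Nat.mod_eq_of_lt (by omega), Nat.mod_eq_of_lt (by omega)] at this
    rcases Finset.card_le_one_iff_subset_singleton.1 hcard with ⟨x, hx⟩
    rcases Finset.subset_singleton_iff.1 hx with h | h
    · rw [h]; simp
    · rw [h, Finset.prod_singleton]
      have hx' : x ∈ (Finset.range k).filter (fun i : ℕ => ¬ (i : ZMod p) ≠ c) := by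
        rw [h]; exact Finset.mem_singleton_self x
      rw [Finset.mem_filter, not_not] at hx'
      rw [hx'.2]
  obtain ⟨a, b, hab⟩ := hcop
  obtain ⟨R, hR⟩ := hdvd
  have h3 : (Polynomial.aeval H (Q * (Polynomial.X - Polynomial.C c))) v = 0 := by
    rw [hR, mul_comm, map_mul, Module.End.mul_apply, h1, map_zero]
  have h4 : (Polynomial.aeval H (Polynomial.X - Polynomial.C c)) v = 0 := by
    have e : (Polynomial.X - Polynomial.C c) =
        a * (Q * (Polynomial.X - Polynomial.C c)) + b * (Polynomial.X - Polynomial.C c) ^ 3 := by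
      calc (Polynomial.X - Polynomial.C c) = 1 * (Polynomial.X - Polynomial.C c) := (one_mul _).symm
        _ = (a * Q + b * (Polynomial.X - Polynomial.C c) ^ 2) * (Polynomial.X - Polynomial.C c) := by
          rw [hab]
        _ = _ := by ring
    rw [e, map_add, map_mul (Polynomial.aeval H) a, map_mul (Polynomial.aeval H) b,
      LinearMap.add_apply, Module.End.mul_apply, Module.End.mul_apply, h3, h2, map_zero,
      map_zero, add_zero]
  rw [map_sub, Polynomial.aeval_X, Polynomial.aeval_C, LinearMap.sub_apply, sub_eq_zero] at h4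
  rw [h4, Module.algebraMap_end_apply]

/-- The primitive vector trick. -/
theorem prim (p : ℕ) [Fact p.Prime] {V : Type*} [AddCommGroup V] [Module (ZMod p) V]
    (X Y H : Module.End (ZMod p) V) (hXY : X * Y - Y * X = H)
    (hHX : H * X - X * H = (2 : ZMod p) • X) (hHY : H * Y - Y * H = -((2 : ZMod p) • Y))
    (v : V) (hXv : X v = 0) (k : ℕ) (hk : k < p) (hYv : (Y ^ k) v = 0) (c : ZMod p)
    (hc : ((H - algebraMap (ZMod p) (Module.End (ZMod p) V) c) ^ 3) v = 0) : H v = c • v := by
  -- `X Y^{n+1} = Y^{n+1} X + (n+1) Y^n (H - n)`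
  have hHYn : ∀ n : ℕ, H * Y ^ n = Y ^ n * H - ((2 * n : ℕ) : ZMod p) • Y ^ n := by
    intro n
    induction n with
    | zero => simp
    | succ n ih =>
      have : H * Y = Y * H - (2 : ZMod p) • Y := by
        rw [sub_eq_iff_eq_add] at hHY; rw [hHY]; abel
      calc H * Y ^ (n + 1) = (H * Y ^ n) * Y := by rw [pow_succ, mul_assoc]
        _ = (Y ^ n * H - ((2 * n : ℕ) : ZMod p) • Y ^ n) * Y := by rw [ih]
        _ = Y ^ n * (H * Y) - ((2 * n : ℕ) : ZMod p) • Y ^ (n + 1) := by
          rw [sub_mul, mul_assoc, smul_mul_assoc, pow_succ]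
        _ = Y ^ (n + 1) * H - ((2 * (n + 1) : ℕ) : ZMod p) • Y ^ (n + 1) := by
          rw [this, mul_sub, ← mul_assoc, ← pow_succ, mul_smul_comm, ← pow_succ, sub_sub, ← add_smul]
          congr 2
          push_cast; ring
  have hXYn : ∀ n : ℕ, X * Y ^ (n + 1) =
      Y ^ (n + 1) * X + ((n + 1 : ℕ) : ZMod p) • (Y ^ n * (H - algebraMap (ZMod p) _ (n : ZMod p))) := by
    intro n
    induction n with
    | zero =>
      have : X * Y = Y * X + H := by rw [← hXY]; abel
      simp [this]
    | succ n ih =>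
      have hXY' : X * Y = Y * X + H := by rw [← hXY]; abel
      calc X * Y ^ (n + 1 + 1) = X * Y ^ (n + 1) * Y := by rw [pow_succ _ (n + 1), mul_assoc]
        _ = (Y ^ (n + 1) * X + ((n + 1 : ℕ) : ZMod p) •
            (Y ^ n * (H - algebraMap (ZMod p) _ (n : ZMod p)))) * Y := by rw [ih]
        _ = Y ^ (n + 1) * (X * Y) + ((n + 1 : ℕ) : ZMod p) • (Y ^ n * (H * Y) -
              (n : ZMod p) • (Y ^ (n + 1))) := by
            rw [add_mul, mul_assoc, smul_mul_assoc, mul_assoc, sub_mul, mul_sub]
            congr 3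
            rw [← Algebra.smul_def, mul_smul_comm, ← pow_succ]
        _ = Y ^ (n + 1 + 1) * X + ((n + 1 + 1 : ℕ) : ZMod p) • (Y ^ (n + 1) *
              (H - algebraMap (ZMod p) _ ((n + 1 : ℕ) : ZMod p))) := by
            have hHY' : H * Y = Y * H - (2 : ZMod p) • Y := by
              rw [sub_eq_iff_eq_add] at hHY; rw [hHY]; abel
            rw [hXY', hHY', mul_add, ← mul_assoc, ← pow_succ, mul_sub, ← mul_assoc, ← pow_succ,
              mul_smul_comm, ← pow_succ, mul_sub (Y ^ (n + 1)), Algebra.algebraMap_eq_smul_one,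
              mul_smul_comm, mul_one]
            simp only [smul_sub, smul_smul]
            rw [add_assoc]
            congr 1
            have e1 : ((n + 1 + 1 : ℕ) : ZMod p) • (Y ^ (n + 1) * H) =
                Y ^ (n + 1) * H + ((n + 1 : ℕ) : ZMod p) • (Y ^ (n + 1) * H) := by
              rw [Nat.cast_succ, add_smul, one_smul, add_comm]
            rw [e1, add_sub_assoc]
            rw [sub_sub, ← add_smul]
            congr 3
            push_cast
            ring
  have key : ∀ n : ℕ, ∀ u : V, X u = 0 → (X ^ n) ((Y ^ n) u) = (n.factorial : ZMod p) •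
      (Polynomial.aeval H (∏ i ∈ Finset.range n, (Polynomial.X - Polynomial.C (i : ZMod p)))) u := by
    intro n
    induction n with
    | zero => intro u hu; simp
    | succ n ih =>
      intro u hu
      have hu' : X ((H - algebraMap (ZMod p) _ (n : ZMod p)) u) = 0 := by
        have : X * H = H * X - (2 : ZMod p) • X := by rw [← hHX]; abel
        have h2 : X (H u) = 0 := by
          have := congrArg (fun T : Module.End (ZMod p) V => T u) this
          simpa [hu] using this
        rw [LinearMap.sub_apply, map_sub, h2, Module.algebraMap_end_apply, map_smul, hu, smul_zero,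
          sub_zero]
      rw [pow_succ, Module.End.mul_apply]
      have h1 : X ((Y ^ (n + 1)) u) = ((n + 1 : ℕ) : ZMod p) •
          (Y ^ n) ((H - algebraMap (ZMod p) _ (n : ZMod p)) u) := by
        have := congrArg (fun T : Module.End (ZMod p) V => T u) (hXYn n)
        simp only [Module.End.mul_apply, LinearMap.add_apply, LinearMap.smul_apply, hu, map_zero,
          zero_add] at this
        exact this
      rw [h1, map_smul, ih _ hu', Finset.prod_range_succ, map_mul, Module.End.mul_apply, smul_smul,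
        Nat.factorial_succ, Nat.cast_mul]
      congr 2
      simp
  have h0 := key k v hXv
  rw [hYv, map_zero] at h0
  have hfac : (k.factorial : ZMod p) ≠ 0 := by
    rw [Ne, ZMod.natCast_eq_zero_iff, (Fact.out : p.Prime).dvd_factorial]
    omega
  have h1 := (smul_eq_zero.1 h0.symm).resolve_left hfac
  refine eig_of_prod p H v c k hk h1 ?_
  rw [map_pow, map_sub, Polynomial.aeval_X, Polynomial.aeval_C]
  exact hc

end Trick

/-- `ad T = (S ↦ T S - S T)`. -/
def adE {K W : Type*} [Field K] [AddCommGroup W] [Module K W] (T : Module.End K W) :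
    Module.End K (Module.End K W) :=
  LinearMap.mulLeft K T - LinearMap.mulRight K T

theorem adE_apply {K W : Type*} [Field K] [AddCommGroup W] [Module K W] (T S : Module.End K W) :
    adE T S = T * S - S * T := rfl

theorem adE_mul_sub {K W : Type*} [Field K] [AddCommGroup W] [Module K W]
    (S T : Module.End K W) : adE S * adE T - adE T * adE S = adE (S * T - T * S) := by
  apply LinearMap.ext
  intro U
  simp only [LinearMap.sub_apply, Module.End.mul_apply, adE_apply]
  noncomm_ring

theorem adE_smul {K W : Type*} [Field K] [AddCommGroup W] [Module K W]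
    (a : K) (T : Module.End K W) : adE (a • T) = a • adE T := by
  apply LinearMap.ext
  intro U
  simp only [LinearMap.smul_apply, adE_apply, smul_mul_assoc, mul_smul_comm, smul_sub]

theorem adE_neg {K W : Type*} [Field K] [AddCommGroup W] [Module K W]
    (T : Module.End K W) : adE (-T) = - adE T := by
  apply LinearMap.ext
  intro U
  simp only [LinearMap.neg_apply, adE_apply, neg_mul, mul_neg]
  abel

theorem sub_pow_zero {R : Type*} [Ring R] {a b : R} (h : Commute a b) {n k : ℕ} (hn : Even n)
    (ha : a ^ n = 0) (hb : b ^ n = 0) (hk : n + n ≤ k + 1) : (a - b) ^ k = 0 := by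
  have hb' : (-b) ^ n = 0 := by rw [hn.neg_pow, hb]
  have := (h.neg_right).add_pow_eq_zero_of_add_le_succ_of_pow_eq_zero ha hb' hk
  rwa [← sub_eq_add_neg] at this

theorem adE_pow {K W : Type*} [Field K] [AddCommGroup W] [Module K W]
    (T : Module.End K W) (hT : T ^ 8 = 0) : (adE T) ^ 15 = 0 := by
  have hL : (LinearMap.mulLeft K T) ^ 8 = 0 := by
    rw [LinearMap.pow_mulLeft, hT, LinearMap.mulLeft_zero_eq_zero]
  have hR : (LinearMap.mulRight K T) ^ 8 = 0 := by
    rw [LinearMap.pow_mulRight, hT, LinearMap.mulRight_zero_eq_zero]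
  exact sub_pow_zero (R := Module.End K (Module.End K W))
    (LinearMap.commute_mulLeft_right T T) (n := 8) (k := 15) (by decide) hL hR (by norm_num)

/-- `(H - c)^2 v = 0` if `C v = c v`, `C` commutes with `H`, `(H - C)^2 = 0`. -/
theorem sq_v0 {K W : Type*} [Field K] [AddCommGroup W] [Module K W]
    (H C : Module.End K W) (hcm : C * H = H * C) (hη : (H - C) ^ 2 = 0) (v : W) (c : K)
    (hv : C v = c • v) : ((H - algebraMap K (Module.End K W) c) ^ 2) v = 0 := by
  have hCH : C (H v) = c • H v := by
    have := congrArg (fun T : Module.End K W => T v) hcm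
    simp only [Module.End.mul_apply, hv, map_smul] at this
    exact this
  have h0 : ((H - C) ^ 2) v = 0 := by rw [hη]; rfl
  rw [pow_two, Module.End.mul_apply, LinearMap.sub_apply, LinearMap.sub_apply] at h0 ⊢
  rw [map_sub, map_sub, hCH, hv, map_smul, map_smul, hv] at h0
  rw [Module.algebraMap_end_apply, Module.algebraMap_end_apply, map_sub, map_smul, smul_sub]
  exact h0

theorem cube_ad {K W : Type*} [Field K] [AddCommGroup W] [Module K W]
    (H C : Module.End K W) (hcm : C * H = H * C) (hη : (H - C) ^ 2 = 0) (S : Module.End K W) (a : K)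
    (hS : C * S - S * C = a • S) :
    ((adE H - algebraMap K (Module.End K (Module.End K W)) a) ^ 3) S = 0 := by
  set η := H - C with hηdef
  have hCη : C * η = η * C := by rw [hηdef, mul_sub, sub_mul, hcm]
  set A := adE C - algebraMap K (Module.End K (Module.End K W)) a with hA
  have e : adE H - algebraMap K (Module.End K (Module.End K W)) a = A + adE η := by
    apply LinearMap.ext
    intro U
    simp only [hA, LinearMap.sub_apply, LinearMap.add_apply, adE_apply, hηdef]
    noncomm_ring
  have hAS : A S = 0 := by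
    rw [hA, LinearMap.sub_apply, adE_apply, hS, Module.algebraMap_end_apply, sub_self]
  have hcom : Commute A (adE η) := by
    rw [hA]
    apply Commute.sub_left
    · rw [commute_iff_eq]
      have := adE_mul_sub C η
      rw [hCη, sub_self] at this
      rw [← sub_eq_zero, this]
      apply LinearMap.ext
      intro U
      simp [adE_apply]
    · exact Algebra.commutes a (adE η)
  have h3 : (adE η) ^ 3 = 0 := by
    have hL : (LinearMap.mulLeft K η) ^ 2 = 0 := by
      rw [LinearMap.pow_mulLeft, hη, LinearMap.mulLeft_zero_eq_zero]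
    have hR : (LinearMap.mulRight K η) ^ 2 = 0 := by
      rw [LinearMap.pow_mulRight, hη, LinearMap.mulRight_zero_eq_zero]
    exact sub_pow_zero (R := Module.End K (Module.End K W))
      (LinearMap.commute_mulLeft_right η η) (n := 2) (k := 3) (by decide) hL hR (by norm_num)
  rw [e]
  have hBA : ∀ T : Module.End K W, A ((adE η) T) = (adE η) (A T) := by
    intro T
    have := congrArg (fun Z : Module.End K (Module.End K W) => Z T) hcom.eq
    simpa only [Module.End.mul_apply] using this
  have h1 : (A + adE η) S = adE η S := by rw [LinearMap.add_apply, hAS, zero_add]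
  have h2 : (A + adE η) (adE η S) = adE η (adE η S) := by
    rw [LinearMap.add_apply, hBA, hAS, map_zero, zero_add]
  have h2' : (A + adE η) (adE η (adE η S)) = adE η (adE η (adE η S)) := by
    rw [LinearMap.add_apply, hBA, hBA, hAS, map_zero, map_zero, zero_add]
  have h4 : ((A + adE η) ^ 3) S = ((adE η) ^ 3) S := by
    simp only [pow_succ, pow_zero, one_mul, Module.End.mul_apply, h1, h2, h2']
  rw [h4, h3]
  rfl

end HWaux

open HWaux in
theorem hw (p : ℕ) [Fact p.Prime] (hp : 100 < p) {W : Type*} [AddCommGroup W]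
    [Module (ZMod p) W] {I : Type*} [Finite I] (m : ℤ) (m0 : ℤ) (hm0 : |m0| ≤ m)
    (τ : Module.End (ZMod p) W) (l : (ZMod p)ˣ)
    (hl : ∀ k : ℤ, k ≠ 0 → |k| ≤ 8 * m → l ^ k ≠ 1)
    (F : I → ℤ) (hF : ∀ i, 0 < F i ∧ F i ≤ m)
    (hzero : ∀ k : ℤ, |k| ≤ 3 * m → (k < -m ∨ m0 < k) →
      ∀ w, τ w = ((l ^ k : (ZMod p)ˣ) : ZMod p) • w → w = 0)
    (Xp Xm C : I → Module.End (ZMod p) W)
    (hXp : ∀ i, τ * Xp i = ((l ^ (F i) : (ZMod p)ˣ) : ZMod p) • (Xp i * τ))
    (hXm : ∀ i, τ * Xm i = ((l ^ (-F i) : (ZMod p)ˣ) : ZMod p) • (Xm i * τ))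
    (hXp8 : ∀ i, (Xp i) ^ 8 = 0) (hXm8 : ∀ i, (Xm i) ^ 8 = 0)
    (hcomm : ∀ i j, i ≠ j → Xp i * Xm j = Xm j * Xp i)
    (hrelX : ∀ i, (Xp i * Xm i - Xm i * Xp i) * Xp i - Xp i * (Xp i * Xm i - Xm i * Xp i)
      = (2 : ZMod p) • Xp i)
    (hrelY : ∀ i, (Xp i * Xm i - Xm i * Xp i) * Xm i - Xm i * (Xp i * Xm i - Xm i * Xp i)
      = -((2 : ZMod p) • Xm i))
    (A : I → I → ZMod p) (hC : ∀ i j, C i * Xm j - Xm j * C i = -(A i j • Xm j))
    (hC2 : ∀ i, C i * (Xp i * Xm i - Xm i * Xp i) = (Xp i * Xm i - Xm i * Xp i) * C i)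
    (hη : ∀ i, (Xp i * Xm i - Xm i * Xp i - C i) ^ 2 = 0)
    (v0 : W) (hv0 : τ v0 = ((l ^ m0 : (ZMod p)ˣ) : ZMod p) • v0) (c : I → ZMod p)
    (hCv0 : ∀ i, C i v0 = c i • v0) :
    ∃ V : Submodule (ZMod p) W, v0 ∈ V ∧ (∀ i, ∀ v ∈ V, Xp i v ∈ V ∧ Xm i v ∈ V) ∧
      ∀ w ∈ V, τ w = ((l ^ m0 : (ZMod p)ˣ) : ZMod p) • w → w ∈ Submodule.span (ZMod p) {v0} := by
  classical
  set H : I → Module.End (ZMod p) W := fun i => Xp i * Xm i - Xm i * Xp i with hH
  have hHi : ∀ i, Xp i * Xm i - Xm i * Xp i = H i := fun i => rfl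
  simp only [hHi] at hrelX hrelY hC2 hη
  have hm : 0 ≤ m := (abs_nonneg _).trans hm0
  obtain ⟨hm0a, hm0b⟩ := abs_le.1 hm0
  -- `Xp i v0 = 0`
  have hXv0 : ∀ i, Xp i v0 = 0 := by
    intro i
    obtain ⟨hFi, hFi'⟩ := hF i
    apply hzero (m0 + F i) (abs_le.2 ⟨by linarith, by linarith⟩) (Or.inr (by linarith))
    have := congrArg (fun T : Module.End (ZMod p) W => T v0) (hXp i)
    simp only [Module.End.mul_apply, LinearMap.smul_apply, hv0, map_smul, smul_smul] at this
    rw [this, ← Units.val_mul, ← zpow_add, add_comm]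
  -- `H i v0 = c i v0`
  have hHv0 : ∀ i, H i v0 = c i • v0 := by
    intro i
    refine prim p (Xp i) (Xm i) (H i) rfl (hrelX i) (hrelY i) v0 (hXv0 i) 8 (by omega) ?_ (c i) ?_
    · rw [hXm8 i]; rfl
    · have := sq_v0 (H i) (C i) (hC2 i) (hη i) v0 (c i) (hCv0 i)
      rw [pow_succ', Module.End.mul_apply, this, map_zero]
  -- `[H i, Xm j]`
  have hHX : ∀ i j, ∃ a : ZMod p, H i * Xm j = Xm j * H i + a • Xm j := by
    intro i j
    by_cases hij : i = j
    · subst hij
      refine ⟨-2, ?_⟩
      have := hrelY i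
      rw [sub_eq_iff_eq_add] at this
      rw [this, neg_smul, add_comm]
    · refine ⟨-A i j, ?_⟩
      have h1 : adE (H i) (Xm j) = (-A i j) • Xm j := by
        refine prim p (adE (Xp i)) (adE (Xm i)) (adE (H i)) (adE_mul_sub _ _) ?_ ?_ (Xm j) ?_ 15
          (by omega) ?_ (-A i j) ?_
        · rw [adE_mul_sub, hrelX i, adE_smul]
        · rw [adE_mul_sub, hrelY i, adE_neg, adE_smul]
        · rw [adE_apply, hcomm i j hij, sub_self]
        · rw [adE_pow _ (hXm8 i)]; rfl
        · apply cube_ad (H i) (C i) (hC2 i) (hη i)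
          rw [hC i j, neg_smul]
      rw [adE_apply, sub_eq_iff_eq_add] at h1
      rw [h1, add_comm]
  -- monomials
  set mon : List I → W := fun L => L.foldr (fun i w => Xm i w) v0 with hmon
  have mon_nil : mon [] = v0 := rfl
  have mon_cons : ∀ i L, mon (i :: L) = Xm i (mon L) := fun i L => rfl
  have hHmon : ∀ i L, ∃ a : ZMod p, H i (mon L) = a • mon L := by
    intro i L
    induction L with
    | nil => exact ⟨c i, hHv0 i⟩
    | cons j L ih =>
      obtain ⟨a, ha⟩ := ih
      obtain ⟨b, hb⟩ := hHX i j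
      refine ⟨a + b, ?_⟩
      have := congrArg (fun T : Module.End (ZMod p) W => T (mon L)) hb
      simp only [Module.End.mul_apply, LinearMap.add_apply, LinearMap.smul_apply, ha,
        map_smul] at this
      rw [mon_cons, this, add_smul]
  set V : Submodule (ZMod p) W := Submodule.span (ZMod p) (Set.range mon) with hV
  have hmonV : ∀ L, mon L ∈ V := fun L => Submodule.subset_span ⟨L, rfl⟩
  have hXmV : ∀ i, ∀ v ∈ V, Xm i v ∈ V := by
    intro i v hv
    induction hv using Submodule.span_induction with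
    | mem x hx => obtain ⟨L, rfl⟩ := hx; rw [← mon_cons]; exact hmonV _
    | zero => rw [map_zero]; exact V.zero_mem
    | add x y _ _ hx hy => rw [map_add]; exact V.add_mem hx hy
    | smul a x _ hx => rw [map_smul]; exact V.smul_mem a hx
  have hXpmon : ∀ i L, Xp i (mon L) ∈ V := by
    intro i L
    induction L with
    | nil => rw [mon_nil, hXv0 i]; exact V.zero_mem
    | cons j L ih =>
      have key : Xp i (mon (j :: L)) = Xm j (Xp i (mon L)) + (if i = j then H i (mon L) else 0) := by
        by_cases hij : i = j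
        · subst hij
          have := congrArg (fun T : Module.End (ZMod p) W => T (mon L)) (hHi i)
          simp only [Module.End.mul_apply, LinearMap.sub_apply] at this
          rw [if_pos rfl, ← this, mon_cons]; abel
        · have := congrArg (fun T : Module.End (ZMod p) W => T (mon L)) (hcomm i j hij)
          simp only [Module.End.mul_apply] at this
          rw [if_neg hij, add_zero, mon_cons, this]
      rw [key]
      apply V.add_mem (hXmV j _ ih)
      split_ifs
      · obtain ⟨a, ha⟩ := hHmon i L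
        rw [ha]; exact V.smul_mem a (hmonV L)
      · exact V.zero_mem
  have hXpV : ∀ i, ∀ v ∈ V, Xp i v ∈ V := by
    intro i v hv
    induction hv using Submodule.span_induction with
    | mem x hx => obtain ⟨L, rfl⟩ := hx; exact hXpmon i L
    | zero => rw [map_zero]; exact V.zero_mem
    | add x y _ _ hx hy => rw [map_add]; exact V.add_mem hx hy
    | smul a x _ hx => rw [map_smul]; exact V.smul_mem a hx
  -- weights of the monomials
  have hwt : ∀ L, mon L = 0 ∨ ∃ k : ℤ, -m ≤ k ∧ k ≤ m0 ∧ (L ≠ [] → k < m0) ∧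
      τ (mon L) = ((l ^ k : (ZMod p)ˣ) : ZMod p) • mon L := by
    intro L
    induction L with
    | nil => exact Or.inr ⟨m0, hm0a, le_refl _, fun h => absurd rfl h, hv0⟩
    | cons j L ih =>
      rcases ih with h0 | ⟨k, hk1, hk2, -, hk3⟩
      · left; rw [mon_cons, h0, map_zero]
      · obtain ⟨hFj, hFj'⟩ := hF j
        have hτ : τ (mon (j :: L)) = ((l ^ (k - F j) : (ZMod p)ˣ) : ZMod p) • mon (j :: L) := by
          have := congrArg (fun T : Module.End (ZMod p) W => T (mon L)) (hXm j)
          simp only [Module.End.mul_apply, LinearMap.smul_apply, hk3, map_smul, smul_smul] at this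
          rw [mon_cons, this, ← Units.val_mul, ← zpow_add]
          congr 3
          ring_nf
        by_cases hlow : k - F j < -m
        · left
          exact hzero (k - F j) (abs_le.2 ⟨by linarith, by linarith⟩) (Or.inl hlow) _ hτ
        · right
          exact ⟨k - F j, not_lt.1 hlow, by linarith, fun _ => by linarith, hτ⟩
  -- independence
  set μ₀ : ZMod p := ((l ^ m0 : (ZMod p)ˣ) : ZMod p) with hμ₀
  set N : Submodule (ZMod p) W := ⨆ (μ : ZMod p) (_ : μ ≠ μ₀), τ.eigenspace μ with hN
  have hdis : Disjoint (τ.eigenspace μ₀) N := Module.End.eigenspaces_iSupIndep τ μ₀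
  have hmonN : ∀ L, L ≠ [] → mon L ∈ N := by
    intro L hL
    rcases hwt L with h0 | ⟨k, hk1, -, hk2, hk3⟩
    · rw [h0]; exact N.zero_mem
    · have hk2 := hk2 hL
      have hne : ((l ^ k : (ZMod p)ˣ) : ZMod p) ≠ μ₀ := by
        intro h
        rw [hμ₀, Units.val_inj] at h
        apply hl (k - m0) (by omega) (abs_le.2 ⟨by linarith, by linarith⟩)
        rw [zpow_sub, h, mul_inv_cancel]
      have : mon L ∈ τ.eigenspace ((l ^ k : (ZMod p)ˣ) : ZMod p) :=
        Module.End.mem_eigenspace_iff.2 hk3
      exact (le_iSup₂_of_le (f := fun (μ : ZMod p) (_ : μ ≠ μ₀) => τ.eigenspace μ) _ hne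
        (le_refl _)) this
  refine ⟨V, hmonV [], fun i v hv => ⟨hXpV i v hv, hXmV i v hv⟩, ?_⟩
  intro w hw hτw
  have hVle : V ≤ Submodule.span (ZMod p) {v0} ⊔ N := by
    rw [hV, Submodule.span_le]
    rintro x ⟨L, rfl⟩
    by_cases hL : L = []
    · subst hL
      exact Submodule.mem_sup_left (Submodule.mem_span_singleton_self v0)
    · exact Submodule.mem_sup_right (hmonN L hL)
  obtain ⟨y, hy, z, hz, hyz⟩ := Submodule.mem_sup.1 (hVle hw)
  obtain ⟨a, rfl⟩ := Submodule.mem_span_singleton.1 hy
  have hzE : z ∈ τ.eigenspace μ₀ := by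
    rw [Module.End.mem_eigenspace_iff]
    have e : z = w - a • v0 := by rw [← hyz]; abel
    rw [e, map_sub, map_smul, hτw, hv0, smul_sub, smul_comm a]
  have hz0 : z = 0 := by
    have := hdis.le_bot (Submodule.mem_inf.2 ⟨hzE, hz⟩)
    simpa using this
  rw [← hyz, hz0, add_zero]
  exact hy

end Ch4
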