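import Mathlib

/-! Module LogExp of MP_4ba0d5_al: truncated exponential and logarithm in `ZMod p`-algebras. -/

set_option linter.unusedVariables false

namespace Ch4

/-- truncated exponential -/
noncomputable def opExp (p : ℕ) [Fact p.Prime] (d : ℕ) {A : Type*} [Ring A] [Algebra (ZMod p) A]
    (x : A) : A := ∑ k ∈ Finset.range d, ((k.factorial : ZMod p)⁻¹) • x ^ k

/-- truncated logarithm -/
noncomputable def opLog (p : ℕ) [Fact p.Prime] (d : ℕ) {A : Type*} [Ring A] [Algebra (ZMod p) A]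
    (g : A) : A := ∑ k ∈ Finset.range d, ((-1) ^ (k + 1) * (k : ZMod p)⁻¹) • (g - 1) ^ k

namespace LogExp

open Polynomial

variable (p : ℕ) [Fact p.Prime]

theorem natCast_ne_zero {k : ℕ} (h0 : 0 < k) (hk : k < p) : (k : ZMod p) ≠ 0 := by
  intro h
  rw [ZMod.natCast_eq_zero_iff] at h
  exact absurd (Nat.le_of_dvd h0 h) (by omega)

/-- the truncated exponential polynomial -/
noncomputable def pE (d : ℕ) : (ZMod p)[X] :=
  ∑ k ∈ Finset.range d, C ((k.factorial : ZMod p)⁻¹) * X ^ k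

/-- the truncated logarithm polynomial, `log (1 + X)` -/
noncomputable def pL (d : ℕ) : (ZMod p)[X] :=
  ∑ k ∈ Finset.range d, C ((-1) ^ (k + 1) * (k : ZMod p)⁻¹) * X ^ k

theorem aeval_pE {A : Type*} [Ring A] [Algebra (ZMod p) A] (d : ℕ) (x : A) :
    aeval x (pE p d) = opExp p d x := by
  simp [pE, opExp, Algebra.smul_def]

theorem aeval_pL {A : Type*} [Ring A] [Algebra (ZMod p) A] (d : ℕ) (g : A) :
    aeval (g - 1) (pL p d) = opLog p d g := by
  simp [pL, opLog, Algebra.smul_def]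

theorem ode {d : ℕ} (hd : d ≤ p) {u a b : (ZMod p)[X]} (hu : u.coeff 0 = 0)
    (ha : a.coeff 0 ≠ 0) (h : X ^ (d - 1) ∣ a * derivative u - b * u) : X ^ d ∣ u := by
  have key : ∀ m ≤ d, X ^ m ∣ u := by
    intro m
    induction m with
    | zero => intro _; simp
    | succ m ih =>
      intro hm
      rcases Nat.eq_zero_or_pos m with h0 | h0
      · subst h0
        rw [zero_add, pow_one]
        exact X_dvd_iff.2 hu
      obtain ⟨v, hv⟩ := ih (by omega)
      have h1 : a * derivative u - b * u =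
          X ^ (m - 1) * ((m : (ZMod p)[X]) * a * v + X * (a * derivative v - b * v)) := by
        obtain ⟨k, rfl⟩ : ∃ k, m = k + 1 := ⟨m - 1, by omega⟩
        rw [hv, derivative_mul, derivative_X_pow]
        simp only [Nat.add_sub_cancel, map_natCast]
        ring
      have h2 : X ^ m ∣ a * derivative u - b * u :=
        (pow_dvd_pow X (by omega : m ≤ d - 1)).trans h
      rw [h1] at h2
      have h3 : (X : (ZMod p)[X]) ^ m = X ^ (m - 1) * X := by
        rw [← pow_succ]; congr 1; omega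
      rw [h3] at h2
      have h4 := (mul_dvd_mul_iff_left (pow_ne_zero (m - 1) X_ne_zero)).1 h2
      have h5 : X ∣ (m : (ZMod p)[X]) * a * v :=
        (dvd_add_left (dvd_mul_right X _)).1 h4
      rw [X_dvd_iff, mul_coeff_zero, mul_coeff_zero] at h5
      have h6 : ((m : (ZMod p)[X])).coeff 0 ≠ 0 := by
        rw [← C_eq_natCast, coeff_C_zero]
        exact natCast_ne_zero p h0 (by omega)
      have h7 : v.coeff 0 = 0 := by
        rcases mul_eq_zero.1 h5 with h | h
        · rcases mul_eq_zero.1 h with h | h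
          · exact absurd h h6
          · exact absurd h ha
        · exact h
      obtain ⟨w, hw⟩ := X_dvd_iff.2 h7
      exact ⟨w, by rw [hv, hw, pow_succ]; ring⟩
  exact key d le_rfl

theorem X_dvd_pL (d : ℕ) : X ∣ pL p d := by
  refine Finset.dvd_sum fun k _ => ?_
  rcases Nat.eq_zero_or_pos k with h | h
  · subst h; simp
  · exact Dvd.dvd.mul_left (dvd_pow_self X (by omega)) _

theorem pE_succ (d : ℕ) : pE p (d + 1) = pE p d + C ((d.factorial : ZMod p)⁻¹) * X ^ d :=
  Finset.sum_range_succ _ _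

theorem pL_succ (d : ℕ) :
    pL p (d + 1) = pL p d + C ((-1) ^ (d + 1) * (d : ZMod p)⁻¹) * X ^ d :=
  Finset.sum_range_succ _ _

theorem X_dvd_pE_sub_one {d : ℕ} (hd : 0 < d) : X ∣ pE p d - 1 := by
  obtain ⟨e, rfl⟩ : ∃ e, d = e + 1 := ⟨d - 1, by omega⟩
  induction e with
  | zero => simp [pE]
  | succ e ih =>
    rw [pE_succ, add_sub_right_comm]
    exact dvd_add (ih (by omega)) (Dvd.dvd.mul_left (dvd_pow_self X (by omega)) _)

theorem coeff_pE {d : ℕ} (hd : 0 < d) : (pE p d).coeff 0 = 1 := by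
  have h := X_dvd_iff.1 (X_dvd_pE_sub_one p hd)
  rw [coeff_sub, coeff_one_zero, sub_eq_zero] at h
  exact h

theorem derivative_pE {e : ℕ} (he : e < p) : derivative (pE p (e + 1)) = pE p e := by
  induction e with
  | zero => simp [pE]
  | succ e ih =>
    rw [pE_succ, derivative_add, ih (by omega), pE_succ, derivative_C_mul, derivative_X_pow]
    congr 1
    rw [Nat.add_sub_cancel, map_natCast, ← mul_assoc, ← C_eq_natCast, ← C_mul]
    congr 2
    rw [Nat.factorial_succ]
    have h1 := natCast_ne_zero p (Nat.succ_pos e) he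
    push_cast
    push_cast at h1
    field_simp

theorem derivative_pL {e : ℕ} (he : e < p) :
    (1 + X) * derivative (pL p (e + 1)) = 1 - (-X) ^ e := by
  induction e with
  | zero => simp [pL]
  | succ e ih =>
    rw [pL_succ, derivative_add, mul_add, ih (by omega), derivative_C_mul, derivative_X_pow]
    have h1 := natCast_ne_zero p (Nat.succ_pos e) he
    have h2 : C ((-1) ^ (e + 1 + 1) * ((e + 1 : ℕ) : ZMod p)⁻¹) *
        (C ((e + 1 : ℕ) : ZMod p) * X ^ (e + 1 - 1)) = (-1) ^ e * X ^ e := by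
      rw [Nat.add_sub_cancel, ← mul_assoc, ← C_mul, mul_assoc, inv_mul_cancel₀ h1, mul_one,
        pow_succ, pow_succ]
      simp
    rw [h2]
    rw [neg_pow (X : (ZMod p)[X]) e, neg_pow (X : (ZMod p)[X]) (e + 1),
      pow_succ (X : (ZMod p)[X]) e, pow_succ (-1 : (ZMod p)[X]) e]
    ring

theorem comp_EL {d : ℕ} (hd0 : 0 < d) (hd : d ≤ p) :
    X ^ d ∣ (pE p d).comp (pL p d) - (1 + X) := by
  obtain ⟨e, rfl⟩ : ∃ e, d = e + 1 := ⟨d - 1, by omega⟩
  obtain ⟨w, hw⟩ := X_dvd_pL p (e + 1)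
  refine ode p hd (a := 1 + X) (b := 1) ?_ (by simp) ?_
  · have h1 : X ∣ (pE p (e + 1)).comp (pL p (e + 1)) - 1 := by
      obtain ⟨v, hv⟩ := X_dvd_pE_sub_one p hd0
      have : (pE p (e + 1)).comp (pL p (e + 1)) - 1 = (pE p (e + 1) - 1).comp (pL p (e + 1)) := by
        simp
      rw [this, hv, mul_comp, X_comp, hw]
      exact ⟨w * v.comp (X * w), by ring⟩
    have h2 := X_dvd_iff.1 h1
    rw [coeff_sub, coeff_one_zero] at h2
    rw [coeff_sub, coeff_add, coeff_one_zero, coeff_X_zero, add_zero, h2]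
  · rw [Nat.add_sub_cancel]
    have h1 : derivative ((pE p (e + 1)).comp (pL p (e + 1)) - (1 + X)) =
        derivative (pL p (e + 1)) * (pE p e).comp (pL p (e + 1)) - 1 := by
      rw [derivative_sub, derivative_comp, derivative_pE p (by omega)]
      simp
    have h2 : (pE p e).comp (pL p (e + 1)) = (pE p (e + 1)).comp (pL p (e + 1)) -
        C ((e.factorial : ZMod p)⁻¹) * (pL p (e + 1)) ^ e := by
      rw [pE_succ]; simp
    have h3 := derivative_pL p (e := e) (by omega)
    refine ⟨-(-1) ^ e * (pE p e).comp (pL p (e + 1)) - C ((e.factorial : ZMod p)⁻¹) * w ^ e, ?_⟩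
    rw [h1]
    have h4 : (1 + X) * (derivative (pL p (e + 1)) * (pE p e).comp (pL p (e + 1)) - 1) -
        1 * ((pE p (e + 1)).comp (pL p (e + 1)) - (1 + X)) =
        ((1 + X) * derivative (pL p (e + 1))) * (pE p e).comp (pL p (e + 1)) -
          (pE p (e + 1)).comp (pL p (e + 1)) := by ring
    rw [h4, h3]
    have h5 : (pL p (e + 1)) ^ e = X ^ e * w ^ e := by rw [hw, mul_pow]
    have h6 : (pE p (e + 1)).comp (pL p (e + 1)) = (pE p e).comp (pL p (e + 1)) +
        C ((e.factorial : ZMod p)⁻¹) * (X ^ e * w ^ e) := by rw [h2, h5]; ring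
    rw [h6, neg_pow]
    ring

theorem comp_LE {d : ℕ} (hd0 : 0 < d) (hd : d ≤ p) :
    X ^ d ∣ (pL p d).comp (pE p d - 1) - X := by
  obtain ⟨e, rfl⟩ : ∃ e, d = e + 1 := ⟨d - 1, by omega⟩
  obtain ⟨w, hw⟩ := X_dvd_pE_sub_one p hd0
  refine ode p hd (a := pE p (e + 1)) (b := 0) ?_ (by rw [coeff_pE p hd0]; exact one_ne_zero) ?_
  · have h1 : X ∣ (pL p (e + 1)).comp (pE p (e + 1) - 1) := by
      obtain ⟨v, hv⟩ := X_dvd_pL p (e + 1)
      rw [hv, mul_comp, X_comp, hw]
      exact ⟨w * v.comp (X * w), by ring⟩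
    rw [coeff_sub, X_dvd_iff.1 h1, coeff_X_zero, sub_zero]
  · rw [Nat.add_sub_cancel]
    have h1 : derivative ((pL p (e + 1)).comp (pE p (e + 1) - 1) - X) =
        pE p e * (derivative (pL p (e + 1))).comp (pE p (e + 1) - 1) - 1 := by
      rw [derivative_sub, derivative_comp, derivative_sub, derivative_pE p (by omega)]
      simp
    have h3 : pE p (e + 1) * (derivative (pL p (e + 1))).comp (pE p (e + 1) - 1) =
        1 - (-(pE p (e + 1) - 1)) ^ e := by
      have := congrArg (fun q => q.comp (pE p (e + 1) - 1)) (derivative_pL p (e := e) (by omega))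
      simp only [mul_comp, add_comp, one_comp, X_comp, sub_comp, pow_comp, neg_comp,
        add_sub_cancel] at this
      exact this
    refine ⟨-(-1) ^ e * w ^ e * pE p e - C ((e.factorial : ZMod p)⁻¹), ?_⟩
    rw [h1]
    have h4 : pE p (e + 1) * (pE p e * (derivative (pL p (e + 1))).comp (pE p (e + 1) - 1) - 1) -
        0 * ((pL p (e + 1)).comp (pE p (e + 1) - 1) - X) =
        pE p e * (pE p (e + 1) * (derivative (pL p (e + 1))).comp (pE p (e + 1) - 1)) -
          pE p (e + 1) := by ring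
    rw [h4, h3, hw, neg_pow, mul_pow, pE_succ]
    ring

theorem comp_nE {d : ℕ} (hd0 : 0 < d) (hd : d ≤ p) (n : ℕ) :
    X ^ d ∣ (pE p d).comp ((n : (ZMod p)[X]) * X) - pE p d ^ n := by
  obtain ⟨e, rfl⟩ : ∃ e, d = e + 1 := ⟨d - 1, by omega⟩
  obtain ⟨w, hw⟩ := X_dvd_pE_sub_one p hd0
  refine ode p hd (a := 1) (b := (n : (ZMod p)[X])) ?_ (by simp) ?_
  · have h1 : X ∣ (pE p (e + 1)).comp ((n : (ZMod p)[X]) * X) - 1 := by
      have : (pE p (e + 1)).comp ((n : (ZMod p)[X]) * X) - 1 =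
          (pE p (e + 1) - 1).comp ((n : (ZMod p)[X]) * X) := by simp
      rw [this, hw, mul_comp, X_comp]
      exact ⟨n * w.comp ((n : (ZMod p)[X]) * X), by ring⟩
    have h2 : X ∣ pE p (e + 1) ^ n - 1 :=
      (X_dvd_pE_sub_one p hd0).trans (sub_one_dvd_pow_sub_one _ n)
    have h3 := X_dvd_iff.1 (dvd_sub h1 h2)
    rw [← h3]; congr 1; ring
  · rw [Nat.add_sub_cancel]
    have h1 : derivative ((pE p (e + 1)).comp ((n : (ZMod p)[X]) * X)) =
        n * (pE p e).comp ((n : (ZMod p)[X]) * X) := by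
      rw [derivative_comp, derivative_pE p (by omega)]
      simp
    have h2 : derivative (pE p (e + 1) ^ n) = n * pE p (e + 1) ^ (n - 1) * pE p e := by
      rw [derivative_pow, derivative_pE p (by omega)]
      simp
    rw [derivative_sub, h1, h2]
    have h5 : (pE p (e + 1)).comp ((n : (ZMod p)[X]) * X) =
        (pE p e).comp ((n : (ZMod p)[X]) * X) +
          C ((e.factorial : ZMod p)⁻¹) * ((n : (ZMod p)[X]) * X) ^ e := by
      rw [pE_succ]; simp
    rcases Nat.eq_zero_or_pos n with hn | hn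
    · subst hn; simp
    refine ⟨-(n : (ZMod p)[X]) * C ((e.factorial : ZMod p)⁻¹) * (n : (ZMod p)[X]) ^ e +
      (n : (ZMod p)[X]) * pE p (e + 1) ^ (n - 1) * C ((e.factorial : ZMod p)⁻¹), ?_⟩
    have h6 : pE p (e + 1) ^ n = pE p (e + 1) ^ (n - 1) * pE p (e + 1) := by
      rw [← pow_succ]; congr 1; omega
    rw [h5, h6]
    have h7 : pE p e = pE p (e + 1) - C ((e.factorial : ZMod p)⁻¹) * X ^ e := by
      rw [pE_succ]; ring
    rw [mul_pow]
    have h8 : pE p (e + 1) ^ (n - 1) * pE p (e + 1) = pE p (e + 1) ^ (n - 1) *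
      (pE p e + C ((e.factorial : ZMod p)⁻¹) * X ^ e) := by rw [← pE_succ]
    rw [h8]
    ring

theorem aeval_eq_zero_of_dvd {A : Type*} [Ring A] [Algebra (ZMod p) A] {d : ℕ} {x : A}
    (hx : x ^ d = 0) {f : (ZMod p)[X]} (h : X ^ d ∣ f) : aeval x f = 0 := by
  obtain ⟨g, rfl⟩ := h
  simp [hx]

end LogExp

open LogExp Polynomial in
theorem opExp_opLog (p : ℕ) [Fact p.Prime] (d : ℕ) (hd : d ≤ p) {A : Type*} [Ring A]
    [Algebra (ZMod p) A] (g : A) (hg : (g - 1) ^ d = 0) :
    opExp p d (opLog p d g) = g ∧ (opLog p d g) ^ d = 0 := by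
  rcases Nat.eq_zero_or_pos d with h | h
  · subst h
    rw [pow_zero] at hg
    have := subsingleton_of_zero_eq_one hg.symm
    exact ⟨Subsingleton.elim _ _, Subsingleton.elim _ _⟩
  constructor
  · have h1 := aeval_eq_zero_of_dvd p hg (comp_EL p h hd)
    rw [map_sub, aeval_comp, aeval_pL, aeval_pE, sub_eq_zero] at h1
    rw [h1]; simp
  · rw [← aeval_pL, ← map_pow]
    exact aeval_eq_zero_of_dvd p hg (pow_dvd_pow_of_dvd (X_dvd_pL p d) d)

open LogExp Polynomial in
theorem opLog_opExp (p : ℕ) [Fact p.Prime] (d : ℕ) (hd : d ≤ p) {A : Type*} [Ring A]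
    [Algebra (ZMod p) A] (x : A) (hx : x ^ d = 0) :
    opLog p d (opExp p d x) = x ∧ (opExp p d x - 1) ^ d = 0 := by
  rcases Nat.eq_zero_or_pos d with h | h
  · subst h
    rw [pow_zero] at hx
    have := subsingleton_of_zero_eq_one hx.symm
    exact ⟨Subsingleton.elim _ _, Subsingleton.elim _ _⟩
  have h0 : aeval x (pE p d - 1) = opExp p d x - 1 := by rw [map_sub, aeval_pE, map_one]
  constructor
  · have h1 := aeval_eq_zero_of_dvd p hx (comp_LE p h hd)
    rw [map_sub, aeval_comp, h0, aeval_pL, aeval_X, sub_eq_zero] at h1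
    exact h1
  · rw [← h0, ← map_pow]
    exact aeval_eq_zero_of_dvd p hx (pow_dvd_pow_of_dvd (X_dvd_pE_sub_one p h) d)

open LogExp Polynomial in
theorem opExp_nsmul (p : ℕ) [Fact p.Prime] (d : ℕ) (hd : d ≤ p) {A : Type*} [Ring A]
    [Algebra (ZMod p) A] (x : A) (hx : x ^ d = 0) (n : ℕ) :
    opExp p d (n • x) = (opExp p d x) ^ n := by
  rcases Nat.eq_zero_or_pos d with h | h
  · subst h
    rw [pow_zero] at hx
    have := subsingleton_of_zero_eq_one hx.symm
    exact Subsingleton.elim _ _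
  have h1 := aeval_eq_zero_of_dvd p hx (comp_nE p h hd n)
  rw [map_sub, aeval_comp, map_pow, aeval_pE, map_mul, aeval_X, map_natCast, sub_eq_zero,
    ← nsmul_eq_mul, aeval_pE] at h1
  exact h1

theorem opLog_pow (p : ℕ) [Fact p.Prime] (d : ℕ) (hd : d ≤ p) {A : Type*} [Ring A]
    [Algebra (ZMod p) A] (g : A) (hg : (g - 1) ^ d = 0) (n : ℕ) :
    opLog p d (g ^ n) = n • opLog p d g := by
  obtain ⟨h1, h2⟩ := opExp_opLog p d hd g hg
  have h3 : (n • opLog p d g) ^ d = 0 := by
    rw [nsmul_eq_mul, (Nat.cast_commute n _).mul_pow, h2, mul_zero]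
  have h4 := opExp_nsmul p d hd (opLog p d g) h2 n
  rw [h1] at h4
  rw [← h4]
  exact (opLog_opExp p d hd _ h3).1

end Ch4
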