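import Mathlib
import Pool.Agent.Lib.P4ba0d5.LogExp

/-! Module Sl2rel: the `sl₂` relations from a group relation, by comparing weights. -/

set_option linter.unusedSectionVars false
set_option linter.unusedVariables false

namespace Ch4

open Module

namespace Sl2

/-- eigenvectors with different eigenvalues are independent -/
theorem indep_weights {K V : Type*} [Field K] [AddCommGroup V] [Module K V] (φ : Module.End K V)
    (μ : ℤ → K) (s : Finset ℤ) : (∀ w ∈ s, ∀ w' ∈ s, w ≠ w' → μ w ≠ μ w') →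
    ∀ C : ℤ → V, (∀ w ∈ s, φ (C w) = μ w • C w) → ∑ w ∈ s, C w = 0 → ∀ w ∈ s, C w = 0 := by
  classical
  induction s using Finset.induction_on with
  | empty => intro _ C _ _ w hw; simp at hw
  | insert a s ha ih =>
    intro hμ C hC hsum
    rw [Finset.sum_insert ha] at hsum
    have h1 : ∑ w ∈ s, (μ w - μ a) • C w = 0 := by
      have e1 : φ (C a + ∑ w ∈ s, C w) - μ a • (C a + ∑ w ∈ s, C w) = 0 := by
        rw [hsum, map_zero, smul_zero, sub_zero]
      rw [map_add, map_sum, smul_add, hC a (Finset.mem_insert_self a s), Finset.smul_sum,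
        Finset.sum_congr rfl fun w hw => hC w (Finset.mem_insert_of_mem hw)] at e1
      rw [add_sub_add_left_eq_sub, ← Finset.sum_sub_distrib] at e1
      rw [← e1]
      exact Finset.sum_congr rfl fun w _ => sub_smul _ _ _
    have h2 := ih (fun w hw w' hw' => hμ w (Finset.mem_insert_of_mem hw) w'
      (Finset.mem_insert_of_mem hw')) (fun w => (μ w - μ a) • C w) (fun w hw => by
        rw [map_smul, hC w (Finset.mem_insert_of_mem hw), smul_comm]) h1
    have h3 : ∀ w ∈ s, C w = 0 := by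
      intro w hw
      have hne : μ w ≠ μ a := hμ w (Finset.mem_insert_of_mem hw) a (Finset.mem_insert_self a s)
        (fun h => ha (h ▸ hw))
      exact (smul_eq_zero.1 (h2 w hw)).resolve_left (sub_ne_zero.2 hne)
    intro w hw
    rcases Finset.mem_insert.1 hw with rfl | hw
    · rwa [Finset.sum_eq_zero h3, add_zero] at hsum
    · exact h3 w hw

variable {p : ℕ} [Fact p.Prime]

theorem opExp_mul_neg (hp : 100 < p) {A : Type*} [Ring A] [Algebra (ZMod p) A] (x : A)
    (hx : x ^ 8 = 0) : opExp p 8 x * opExp p 8 (-x) = 1 := by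
  have hpx : (p : ℕ) • x = 0 := by
    rw [← Nat.cast_smul_eq_nsmul (ZMod p), ZMod.natCast_self, zero_smul]
  have h1 : -x = (p - 1) • x := by
    rw [eq_comm, ← add_eq_zero_iff_eq_neg, ← succ_nsmul, Nat.sub_add_cancel (by omega), hpx]
  rw [h1, opExp_nsmul p 8 (by omega) x hx, ← pow_succ', Nat.sub_add_cancel (by omega),
    ← opExp_nsmul p 8 (by omega) x hx, hpx]
  simp [opExp, Finset.sum_range_succ]

theorem opExp_neg_mul (hp : 100 < p) {A : Type*} [Ring A] [Algebra (ZMod p) A] (x : A)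
    (hx : x ^ 8 = 0) : opExp p 8 (-x) * opExp p 8 x = 1 := by
  have := opExp_mul_neg hp (-x) (by rw [neg_pow, hx, mul_zero])
  rwa [neg_neg] at this

theorem opExp_comm {A : Type*} [Ring A] [Algebra (ZMod p) A] (x : A) :
    opExp p 8 x * x = x * opExp p 8 x := by
  simp only [opExp, Finset.sum_mul, Finset.mul_sum, smul_mul_assoc, mul_smul_comm]
  refine Finset.sum_congr rfl fun k _ => ?_
  rw [← pow_succ, ← pow_succ']

/-- coefficient -/
noncomputable def cf (p : ℕ) [Fact p.Prime] (i j : ℕ) : ZMod p :=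
  ((i.factorial : ZMod p)⁻¹ * (-1) ^ i) * (j.factorial : ZMod p)⁻¹

theorem opExp_neg {A : Type*} [Ring A] [Algebra (ZMod p) A] (x : A) :
    opExp p 8 (-x) = ∑ i ∈ Finset.range 8, ((i.factorial : ZMod p)⁻¹ * (-1) ^ i) • x ^ i := by
  unfold opExp
  refine Finset.sum_congr rfl fun i _ => ?_
  rw [neg_pow, mul_smul]
  congr 1
  rw [Algebra.smul_def, map_pow, map_neg, map_one]

/-- expansion of `E(-x) y E(x)` -/
theorem expand {A : Type*} [Ring A] [Algebra (ZMod p) A] (x y : A) :
    opExp p 8 (-x) * y * opExp p 8 x =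
      ∑ ij ∈ Finset.range 8 ×ˢ Finset.range 8, cf p ij.1 ij.2 • (x ^ ij.1 * y * x ^ ij.2) := by
  rw [opExp_neg, Finset.sum_product, Finset.sum_mul, Finset.sum_mul]
  refine Finset.sum_congr rfl fun i _ => ?_
  unfold opExp
  rw [Finset.mul_sum]
  refine Finset.sum_congr rfl fun j _ => ?_
  simp only [cf, smul_mul_assoc, mul_smul_comm, smul_smul]
  congr 1
  ring

end Sl2

open Sl2

theorem sl2rel (p : ℕ) [Fact p.Prime] (hp : 100 < p) {W : Type*} [AddCommGroup W]
    [Module (ZMod p) W] (τ τ' : Module.End (ZMod p) W) (hτ : τ * τ' = 1) (hτ' : τ' * τ = 1)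
    (l : (ZMod p)ˣ) (hl : ∀ k : ℤ, k ≠ 0 → |k| ≤ 40 → l ^ k ≠ 1)
    (X Y : Module.End (ZMod p) W) (hX : X ^ 8 = 0) (hY : Y ^ 8 = 0)
    (hτX : τ * X = (l : ZMod p) • (X * τ)) (hτY : τ * Y = ((l⁻¹ : (ZMod p)ˣ) : ZMod p) • (Y * τ))
    (hrel : opExp p 8 X * opExp p 8 (-Y) * opExp p 8 X * X =
      - (Y * (opExp p 8 X * opExp p 8 (-Y) * opExp p 8 X))) :
    X * X * Y - (2 : ZMod p) • (X * Y * X) + Y * X * X = -((2 : ZMod p) • X) ∧
    Y * Y * X - (2 : ZMod p) • (Y * X * Y) + X * Y * Y = -((2 : ZMod p) • Y) := by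
  have h2 : (2 : ZMod p) ≠ 0 := by
    intro h
    have : ((2 : ℕ) : ZMod p) = 0 := by exact_mod_cast h
    rw [ZMod.natCast_eq_zero_iff] at this
    exact absurd (Nat.le_of_dvd (by norm_num) this) (by omega)
  -- the reduced relation
  have r1 : opExp p 8 (-Y) * X * opExp p 8 Y = -(opExp p 8 (-X) * Y * opExp p 8 X) := by
    have a1 := opExp_mul_neg hp X hX
    have a2 := opExp_neg_mul hp X hX
    have a3 := opExp_neg_mul hp Y hY
    have a4 := opExp_comm (p := p) X
    set EX := opExp p 8 X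
    set FX := opExp p 8 (-X)
    set EY := opExp p 8 Y
    set FY := opExp p 8 (-Y)
    have b1 : EX * FY * X * EX = -(Y * EX * FY * EX) := by
      have : EX * FY * X * EX = EX * FY * EX * X := by
        simp only [mul_assoc, a4]
      rw [this, hrel]
      simp only [mul_assoc]
    have b2 : EX * FY * X = -(Y * EX * FY) := by
      have := congrArg (fun z => z * FX) b1
      simp only [mul_assoc, neg_mul, a1, mul_one] at this
      simpa only [mul_assoc] using this
    have b3 : FY * X = -(FX * Y * EX * FY) := by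
      have := congrArg (fun z => FX * z) b2
      simp only [mul_neg] at this
      rw [← mul_assoc, ← mul_assoc, a2, one_mul] at this
      rw [this]
      simp only [mul_assoc]
    rw [b3, neg_mul, mul_assoc, a3, mul_one]
  -- weights
  let φ : Module.End (ZMod p) (Module.End (ZMod p) W) :=
    (LinearMap.mulLeft (ZMod p) τ) ∘ₗ (LinearMap.mulRight (ZMod p) τ')
  have hφ : ∀ T, φ T = τ * (T * τ') := fun T => rfl
  have hφm : ∀ S T, φ (S * T) = φ S * φ T := by
    intro S T
    simp only [hφ]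
    calc τ * (S * T * τ') = τ * (S * (1 * (T * τ'))) := by simp only [mul_assoc, one_mul]
      _ = τ * (S * τ') * (τ * (T * τ')) := by rw [← hτ']; simp only [mul_assoc]
  have hφX : φ X = ((l ^ (1 : ℤ) : (ZMod p)ˣ) : ZMod p) • X := by
    rw [hφ, ← mul_assoc, hτX, smul_mul_assoc, mul_assoc, hτ, mul_one, zpow_one]
  have hφY : φ Y = ((l ^ (-1 : ℤ) : (ZMod p)ˣ) : ZMod p) • Y := by
    rw [hφ, ← mul_assoc, hτY, smul_mul_assoc, mul_assoc, hτ, mul_one, zpow_neg_one]
  have hφ1 : φ 1 = 1 := by rw [hφ, one_mul, hτ]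
  have hmul : ∀ (S T : Module.End (ZMod p) W) (a c : ℤ),
      φ S = ((l ^ a : (ZMod p)ˣ) : ZMod p) • S → φ T = ((l ^ c : (ZMod p)ˣ) : ZMod p) • T →
      φ (S * T) = ((l ^ (a + c) : (ZMod p)ˣ) : ZMod p) • (S * T) := by
    intro S T a c hS hT
    rw [hφm, hS, hT, smul_mul_smul_comm, zpow_add, Units.val_mul]
  have hpow : ∀ (S : Module.End (ZMod p) W) (a : ℤ),
      φ S = ((l ^ a : (ZMod p)ˣ) : ZMod p) • S → ∀ n : ℕ,
      φ (S ^ n) = ((l ^ (n * a) : (ZMod p)ˣ) : ZMod p) • (S ^ n) := by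
    intro S a hS n
    induction n with
    | zero => simp [hφ1]
    | succ n ih =>
      rw [pow_succ, hmul _ _ _ _ ih hS]
      congr 3
      push_cast
      ring
  -- the components
  let s : Finset (ℕ × ℕ) := Finset.range 8 ×ˢ Finset.range 8
  let C : ℤ → Module.End (ZMod p) W := fun w =>
    ∑ ij ∈ s, (if (1 : ℤ) - (ij.1 + ij.2) = w then cf p ij.1 ij.2 • (Y ^ ij.1 * X * Y ^ ij.2)
      else 0) +
    ∑ ij ∈ s, (if (-1 : ℤ) + (ij.1 + ij.2) = w then cf p ij.1 ij.2 • (X ^ ij.1 * Y * X ^ ij.2)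
      else 0)
  have hCsum : ∑ w ∈ Finset.Icc (-13 : ℤ) 13, C w = 0 := by
    simp only [C, Finset.sum_add_distrib]
    rw [Finset.sum_comm, Finset.sum_comm (s := Finset.Icc (-13 : ℤ) 13)]
    have e1 : ∀ ij ∈ s, ∑ w ∈ Finset.Icc (-13 : ℤ) 13,
        (if (1 : ℤ) - (ij.1 + ij.2) = w then cf p ij.1 ij.2 • (Y ^ ij.1 * X * Y ^ ij.2) else 0) =
        cf p ij.1 ij.2 • (Y ^ ij.1 * X * Y ^ ij.2) := by
      intro ij hij
      rw [Finset.sum_ite_eq, if_pos]
      simp only [s, Finset.mem_product, Finset.mem_range] at hij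
      rw [Finset.mem_Icc]
      omega
    have e2 : ∀ ij ∈ s, ∑ w ∈ Finset.Icc (-13 : ℤ) 13,
        (if (-1 : ℤ) + (ij.1 + ij.2) = w then cf p ij.1 ij.2 • (X ^ ij.1 * Y * X ^ ij.2) else 0) =
        cf p ij.1 ij.2 • (X ^ ij.1 * Y * X ^ ij.2) := by
      intro ij hij
      rw [Finset.sum_ite_eq, if_pos]
      simp only [s, Finset.mem_product, Finset.mem_range] at hij
      rw [Finset.mem_Icc]
      omega
    rw [Finset.sum_congr rfl e1, Finset.sum_congr rfl e2, ← expand, ← expand, r1,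
      neg_add_cancel]
  have hCw : ∀ w ∈ Finset.Icc (-13 : ℤ) 13, φ (C w) = ((l ^ w : (ZMod p)ˣ) : ZMod p) • C w := by
    intro w _
    simp only [C, map_add, map_sum, smul_add, Finset.smul_sum]
    congr 1
    · refine Finset.sum_congr rfl fun ij _ => ?_
      split_ifs with h
      · rw [map_smul, smul_comm]
        congr 1
        rw [hmul _ _ _ _ (hmul _ _ _ _ (hpow _ _ hφY ij.1) hφX) (hpow _ _ hφY ij.2), ← h]
        congr 3
        ring
      · rw [map_zero, smul_zero]
    · refine Finset.sum_congr rfl fun ij _ => ?_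
      split_ifs with h
      · rw [map_smul, smul_comm]
        congr 1
        rw [hmul _ _ _ _ (hmul _ _ _ _ (hpow _ _ hφX ij.1) hφY) (hpow _ _ hφX ij.2), ← h]
        congr 3
        ring
      · rw [map_zero, smul_zero]
  have hμ : ∀ w ∈ Finset.Icc (-13 : ℤ) 13, ∀ w' ∈ Finset.Icc (-13 : ℤ) 13, w ≠ w' →
      ((l ^ w : (ZMod p)ˣ) : ZMod p) ≠ ((l ^ w' : (ZMod p)ˣ) : ZMod p) := by
    intro w hw w' hw' hne h
    rw [Finset.mem_Icc] at hw hw'
    have h1 : l ^ w = l ^ w' := Units.ext h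
    refine hl (w - w') (by omega) ?_ ?_
    · rw [abs_le]
      constructor <;> omega
    · rw [zpow_sub, h1, mul_inv_cancel]
  have key := indep_weights φ (fun w => ((l ^ w : (ZMod p)ˣ) : ZMod p))
    (Finset.Icc (-13 : ℤ) 13) hμ C hCw hCsum
  have k1 := key 1 (by rw [Finset.mem_Icc]; norm_num)
  have k2 := key (-1) (by rw [Finset.mem_Icc]; norm_num)
  have c00 : cf p 0 0 = 1 := by simp [cf]
  have c02 : (2 : ZMod p) * cf p 0 2 = 1 := by
    simp [cf, Nat.factorial]
    rw [mul_inv_cancel₀ h2]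
  have c20 : (2 : ZMod p) * cf p 2 0 = 1 := by
    simp [cf, Nat.factorial]
    rw [mul_inv_cancel₀ h2]
  have c11 : cf p 1 1 = -1 := by simp [cf]
  have g1 : ∀ (U V : Module.End (ZMod p) W),
      U + (cf p 0 2 • (V * U * U) + cf p 1 1 • (U * V * U) + cf p 2 0 • (U * U * V)) = 0 →
      U * U * V - (2 : ZMod p) • (U * V * U) + V * U * U = -((2 : ZMod p) • U) := by
    intro U V h
    have h3 := congrArg (fun z => (2 : ZMod p) • z) h
    simp only [smul_add, smul_smul, c02, c20, c11, smul_zero, one_smul] at h3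
    rw [eq_neg_iff_add_eq_zero, ← h3]
    module
  constructor
  · apply g1
    have e : C 1 = X + (cf p 0 2 • (Y * (X * X)) + cf p 1 1 • (X * Y * X) +
        cf p 2 0 • (X * X * Y)) := by
      simp [C, s, Finset.sum_product, Finset.sum_range_succ, pow_two, c00]
    rw [← k1, e, mul_assoc Y X X]
  · apply g1
    have e : C (-1) = cf p 0 2 • (X * (Y * Y)) + cf p 1 1 • (Y * X * Y) +
        cf p 2 0 • (Y * Y * X) + Y := by
      simp [C, s, Finset.sum_product, Finset.sum_range_succ, pow_two, c00]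
    rw [← k2, e, mul_assoc X Y Y]
    abel

end Ch4
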