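import Mathlib
import Pool.Agent.Lib.P4ba0d5.Base
import Pool.Agent.Lib.P4ba0d5.Good
import Pool.Agent.Lib.P4ba0d5.LogExp
import Pool.Agent.Lib.P4ba0d5.RootConn
import Pool.Agent.Lib.P4ba0d5.Tor
import Pool.Agent.Lib.P4ba0d5.Irr
import Pool.Agent.Lib.P4ba0d5.Sl2rel
import Pool.Agent.Lib.P4ba0d5.HW

/-! Splitting of an extension of `L` by `L` as modules for the group generated by root elements. -/

set_option linter.unusedSectionVars false
set_option linter.unusedVariables false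

namespace Ch4

open Module

section OpLog

variable {p : ℕ} [Fact p.Prime] {V W : Type*} [AddCommGroup V] [Module (ZMod p) V]
  [AddCommGroup W] [Module (ZMod p) W]

theorem pow_comp (a : V →ₗ[ZMod p] W) (g : Module.End (ZMod p) V) (h : Module.End (ZMod p) W)
    (hah : ∀ v, a (g v) = h (a v)) (k : ℕ) (v : V) : a ((g ^ k) v) = (h ^ k) (a v) := by
  induction k generalizing v with
  | zero => simp
  | succ k ih => rw [pow_succ, Module.End.mul_apply, ih, hah, ← Module.End.mul_apply, ← pow_succ]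

theorem opLog_comp (a : V →ₗ[ZMod p] W) (g : Module.End (ZMod p) V) (h : Module.End (ZMod p) W)
    (hah : ∀ v, a (g v) = h (a v)) (v : V) : a (opLog p 8 g v) = opLog p 8 h (a v) := by
  simp only [opLog, LinearMap.sum_apply, LinearMap.smul_apply, map_sum, map_smul]
  refine Finset.sum_congr rfl fun k _ => ?_
  congr 1
  exact pow_comp a (g - 1) (h - 1) (fun v => by simp [hah]) k v

theorem opExp_comp (a : V →ₗ[ZMod p] W) (g : Module.End (ZMod p) V) (h : Module.End (ZMod p) W)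
    (hah : ∀ v, a (g v) = h (a v)) (v : V) : a (opExp p 8 g v) = opExp p 8 h (a v) := by
  simp only [opExp, LinearMap.sum_apply, LinearMap.smul_apply, map_sum, map_smul]
  refine Finset.sum_congr rfl fun k _ => ?_
  congr 1
  exact pow_comp a g h hah k v

end OpLog

section Proj

variable {p : ℕ} [Fact p.Prime] {W : Type*} [AddCommGroup W] [Module (ZMod p) W]

/-- projection to the `c`-eigenspace of `T` when `T ^ (p-1) = 1`. -/
noncomputable def prj (T : Module.End (ZMod p) W) (c : (ZMod p)ˣ) : Module.End (ZMod p) W :=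
  -∑ n ∈ Finset.range (p - 1), (((c⁻¹) ^ n : (ZMod p)ˣ) : ZMod p) • T ^ n

theorem prj_apply (T : Module.End (ZMod p) W) (c : (ZMod p)ˣ) (w : W) :
    prj T c w = -∑ n ∈ Finset.range (p - 1), (((c⁻¹) ^ n : (ZMod p)ˣ) : ZMod p) • (T ^ n) w := by
  simp [prj]

theorem T_prj (T : Module.End (ZMod p) W) (hT : T ^ (p - 1) = 1) (c : (ZMod p)ˣ) (w : W) :
    T (prj T c w) = (c : ZMod p) • prj T c w := by
  have hc : (c⁻¹) ^ (p - 1) = 1 := by
    rw [inv_pow, ZMod.units_pow_card_sub_one_eq_one, inv_one]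
  have key : T * (∑ n ∈ Finset.range (p - 1), (((c⁻¹) ^ n : (ZMod p)ˣ) : ZMod p) • T ^ n) =
      (c : ZMod p) • ∑ n ∈ Finset.range (p - 1), (((c⁻¹) ^ n : (ZMod p)ˣ) : ZMod p) • T ^ n := by
    have h1 : ∀ n, T * ((((c⁻¹) ^ n : (ZMod p)ˣ) : ZMod p) • T ^ n) =
        (c : ZMod p) • ((((c⁻¹) ^ (n + 1) : (ZMod p)ˣ) : ZMod p) • T ^ (n + 1)) := by
      intro n
      rw [mul_smul_comm, smul_smul, ← pow_succ']
      congr 1
      rw [pow_succ, Units.val_mul, mul_comm, mul_assoc, Units.inv_mul, mul_one]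
    rw [Finset.mul_sum, Finset.sum_congr rfl fun n _ => h1 n, ← Finset.smul_sum]
    congr 1
    have h2 := Finset.sum_range_succ' (fun n => (((c⁻¹) ^ n : (ZMod p)ˣ) : ZMod p) • T ^ n) (p - 1)
    rw [Finset.sum_range_succ, hc, hT] at h2
    simpa using h2.symm
  have := congrArg (fun A : Module.End (ZMod p) W => -A w) key
  simp only [prj, LinearMap.neg_apply, map_neg, smul_neg]
  simpa using this

theorem pow_eig (T : Module.End (ZMod p) W) {c : ZMod p} {w : W} (h : T w = c • w) (n : ℕ) :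
    (T ^ n) w = c ^ n • w := by
  induction n with
  | zero => simp
  | succ n ih => rw [pow_succ, Module.End.mul_apply, h, map_smul, ih, smul_smul, pow_succ']

theorem prj_eig_self (hp : 2 ≤ p) (T : Module.End (ZMod p) W) {c : (ZMod p)ˣ} {w : W}
    (h : T w = (c : ZMod p) • w) : prj T c w = w := by
  rw [prj_apply]
  have : ∀ n ∈ Finset.range (p - 1),
      (((c⁻¹) ^ n : (ZMod p)ˣ) : ZMod p) • (T ^ n) w = w := by
    intro n _
    rw [pow_eig T h, smul_smul, ← Units.val_pow_eq_pow_val, ← Units.val_mul, ← mul_pow,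
      inv_mul_cancel, one_pow, Units.val_one, one_smul]
  rw [Finset.sum_congr rfl this, Finset.sum_const, Finset.card_range,
    ← Nat.cast_smul_eq_nsmul (ZMod p), Nat.cast_sub (by omega)]
  simp

theorem prj_eig_ne (T : Module.End (ZMod p) W) {c c' : (ZMod p)ˣ} (hne : c' ≠ c) {w : W}
    (h : T w = (c' : ZMod p) • w) : prj T c w = 0 := by
  rw [prj_apply]
  have : ∀ n ∈ Finset.range (p - 1),
      (((c⁻¹) ^ n : (ZMod p)ˣ) : ZMod p) • (T ^ n) w =
        (((c⁻¹ * c' : (ZMod p)ˣ) : ZMod p) ^ n) • w := by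
    intro n _
    rw [pow_eig T h, smul_smul, Units.val_pow_eq_pow_val, ← mul_pow, Units.val_mul]
  rw [Finset.sum_congr rfl this, ← Finset.sum_smul]
  have hz : (((c⁻¹ * c' : (ZMod p)ˣ) : ZMod p)) ≠ 1 := by
    intro h1
    apply hne
    have : c⁻¹ * c' = 1 := Units.ext h1
    rw [inv_mul_eq_one] at this
    exact this.symm
  have hg := mul_geom_sum (((c⁻¹ * c' : (ZMod p)ˣ) : ZMod p)) (p - 1)
  have h1 : (((c⁻¹ * c' : (ZMod p)ˣ) : ZMod p)) ^ (p - 1) = 1 := by
    rw [← Units.val_pow_eq_pow_val, ZMod.units_pow_card_sub_one_eq_one, Units.val_one]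
  rw [h1, sub_self, mul_eq_zero, sub_eq_zero] at hg
  rw [hg.resolve_left hz, zero_smul, neg_zero]

theorem prj_comm (T A : Module.End (ZMod p) W) (h : T * A = A * T) (c : (ZMod p)ˣ) :
    prj T c * A = A * prj T c := by
  simp only [prj, neg_mul, mul_neg, Finset.sum_mul, Finset.mul_sum, smul_mul_assoc, mul_smul_comm]
  have h2 : ∀ n : ℕ, T ^ n * A = A * T ^ n := fun n => ((show Commute T A from h).pow_left n).eq
  simp only [h2]

theorem prj_comp {V : Type*} [AddCommGroup V] [Module (ZMod p) V] (a : V →ₗ[ZMod p] W)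
    (g : Module.End (ZMod p) V) (h : Module.End (ZMod p) W) (hah : ∀ v, a (g v) = h (a v))
    (c : (ZMod p)ˣ) (v : V) : a (prj g c v) = prj h c (a v) := by
  rw [prj_apply, prj_apply, map_neg, map_sum]
  congr 1
  refine Finset.sum_congr rfl fun n _ => ?_
  rw [map_smul, pow_comp a g h hah]

end Proj

variable {ι X Y : Type*} [Finite ι] [AddCommGroup X] [Module ℚ X] [AddCommGroup Y] [Module ℚ Y]
  {P : RootPairing ι ℚ X Y} [P.IsRootSystem] [P.IsCrystallographic] [P.IsReduced]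
  {b : P.Base} {f : ι → ℤ} {D : ℤ} {p : ℕ} [Fact p.Prime]
  {L : Type*} [LieRing L] [LieAlgebra (ZMod p) L]

namespace ChevalleyBasis

variable (B : ChevalleyBasis b (ZMod p) L)

theorem x_eq_opExp (hp : 8 ≤ p) (α : ι) (t : ZMod p) :
    B.x α t = opExp p 8 (LieAlgebra.ad (ZMod p) L (t • B.e α)) := by
  have h4 := B.ad_smul_e_pow_four α t
  have hz : ∀ k, 4 ≤ k → (LieAlgebra.ad (ZMod p) L (t • B.e α)) ^ k = 0 := fun k hk =>
    pow_eq_zero_of_le hk h4
  simp only [x, expNil, opExp, Finset.sum_range_succ, Finset.sum_range_zero]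
  rw [hz 4 le_rfl, hz 5 (by norm_num), hz 6 (by norm_num), hz 7 (by norm_num)]
  simp only [smul_zero, add_zero, Ring.inverse_eq_inv']

theorem ad_pow_eight (α : ι) (t : ZMod p) :
    (LieAlgebra.ad (ZMod p) L (t • B.e α)) ^ 8 = 0 :=
  pow_eq_zero_of_le (by norm_num) (B.ad_smul_e_pow_four α t)

theorem opLog_x (hp : 8 ≤ p) (α : ι) (t : ZMod p) :
    opLog p 8 (B.x α t) = LieAlgebra.ad (ZMod p) L (t • B.e α) := by
  rw [x_eq_opExp B hp]
  exact (opLog_opExp p 8 hp _ (B.ad_pow_eight α t)).1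

theorem x_sub_one_pow (h7 : IsUnit (720 : ZMod p)) (α : ι) (t : ZMod p) :
    (B.x α t - 1) ^ 4 = 0 := by
  obtain ⟨u, hu, he⟩ := exists_inv6 (ZMod p) h7
  set T := LieAlgebra.ad (ZMod p) L (t • B.e α) with hT
  have h1 : B.x α t - 1 = T * (1 + (3 * u) • T + u • T ^ 2) := by
    rw [x, he, E4, ← hT]
    have : T ^ 3 = T * T ^ 2 := by rw [← pow_succ']
    rw [this, pow_two]
    simp only [mul_add, mul_one, mul_smul_comm]
    abel
  have hc : Commute T (1 + (3 * u) • T + u • T ^ 2) := by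
    refine ((Commute.one_right _).add_right ?_).add_right ?_
    · exact (Commute.refl T).smul_right _
    · exact ((Commute.refl T).pow_right 2).smul_right _
  rw [h1, hc.mul_pow, hT, B.ad_smul_e_pow_four α t, zero_mul]

end ChevalleyBasis

/-- The setting of `splitMod`. -/
structure ModSetup (B : ChevalleyBasis b (ZMod p) L) (G W : Type*) [Group G] [AddCommGroup W]
    [Module (ZMod p) W] where
  ρ : G →* Module.End (ZMod p) L
  hρ : ∀ g, ρ g ∈ B.elem
  hx : ∀ α, ∃ g, ρ g = B.x α 1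
  σ : G →* Module.End (ZMod p) W
  hker : ∀ g, ρ g = 1 → σ g = 1
  i : L →ₗ[ZMod p] W
  π : W →ₗ[ZMod p] L
  hi : Function.Injective i
  hπ : Function.Surjective π
  hex : ∀ w, π w = 0 ↔ ∃ x, i x = w
  hiG : ∀ g x, σ g (i x) = i (ρ g x)
  hπG : ∀ g w, π (σ g w) = ρ g (π w)

namespace ModSetup

variable {B : ChevalleyBasis b (ZMod p) L} {G W : Type*} [Group G] [AddCommGroup W]
    [Module (ZMod p) W] (S : ModSetup B G W)

theorem σ_eq {g h : G} (hgh : S.ρ g = S.ρ h) : S.σ g = S.σ h := by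
  have h1 : S.ρ (g * h⁻¹) = 1 := by rw [map_mul, hgh, ← map_mul, mul_inv_cancel, map_one]
  have h2 := S.hker _ h1
  calc S.σ g = S.σ (g * h⁻¹ * h) := by rw [inv_mul_cancel_right]
    _ = S.σ h := by rw [map_mul, h2, one_mul]

theorem σ_inv_mul (g : G) : S.σ g⁻¹ * S.σ g = 1 := by rw [← map_mul, inv_mul_cancel, map_one]
theorem σ_mul_inv (g : G) : S.σ g * S.σ g⁻¹ = 1 := by rw [← map_mul, mul_inv_cancel, map_one]

theorem πi (x : L) : S.π (S.i x) = 0 := (S.hex _).2 ⟨x, rfl⟩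

/-- a group element inducing `x_α(1)` -/
noncomputable def gx (α : ι) : G := (S.hx α).choose

theorem ρ_gx (α : ι) : S.ρ (S.gx α) = B.x α 1 := (S.hx α).choose_spec

theorem ρ_gx_pow (h7 : IsUnit (720 : ZMod p)) (α : ι) (n : ℕ) :
    S.ρ (S.gx α ^ n) = B.x α (n : ZMod p) := by
  rw [map_pow, ρ_gx, B.x_pow h7, mul_one]

theorem σ_unip (h7 : IsUnit (720 : ZMod p)) (α : ι) : (S.σ (S.gx α) - 1) ^ 8 = 0 := by
  have h1 : ∀ w, ∃ x, S.i x = ((S.σ (S.gx α) - 1 : Module.End (ZMod p) W) ^ 4) w := by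
    intro w
    rw [← S.hex]
    rw [pow_comp S.π (S.σ (S.gx α) - 1) (S.ρ (S.gx α) - 1)
      (fun v => by simp [S.hπG]) 4 w, ρ_gx, B.x_sub_one_pow h7]
    rfl
  ext w
  rw [show (8 : ℕ) = 4 + 4 by norm_num, pow_add, Module.End.mul_apply]
  obtain ⟨x, hx⟩ := h1 w
  rw [← hx, ← pow_comp S.i (S.ρ (S.gx α) - 1) (S.σ (S.gx α) - 1)
      (fun v => by simp [S.hiG]) 4 x, ρ_gx, B.x_sub_one_pow h7]
  simp

/-- the logarithm of `x_α` on `W` -/
noncomputable def Xo (α : ι) : Module.End (ZMod p) W := opLog p 8 (S.σ (S.gx α))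

theorem exp_Xo (hp : 8 ≤ p) (h7 : IsUnit (720 : ZMod p)) (α : ι) :
    opExp p 8 (S.Xo α) = S.σ (S.gx α) :=
  (opExp_opLog p 8 hp _ (S.σ_unip h7 α)).1

theorem Xo_pow (hp : 8 ≤ p) (h7 : IsUnit (720 : ZMod p)) (α : ι) : (S.Xo α) ^ 8 = 0 :=
  (opExp_opLog p 8 hp _ (S.σ_unip h7 α)).2

theorem smulXo_pow (hp : 8 ≤ p) (h7 : IsUnit (720 : ZMod p)) (α : ι) (t : ZMod p) :
    (t • S.Xo α) ^ 8 = 0 := by
  rw [smul_pow, S.Xo_pow hp h7, smul_zero]

theorem σ_of_x (hp : 8 ≤ p) (h7 : IsUnit (720 : ZMod p)) {α : ι} {t : ZMod p} {h : G}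
    (hh : S.ρ h = B.x α t) : S.σ h = opExp p 8 (t • S.Xo α) := by
  have h1 : S.ρ h = S.ρ (S.gx α ^ t.val) := by
    rw [S.ρ_gx_pow h7, hh, ZMod.natCast_zmod_val]
  rw [S.σ_eq h1, map_pow, ← S.exp_Xo hp h7, ← opExp_nsmul p 8 hp _ (S.Xo_pow hp h7 α),
    ← Nat.cast_smul_eq_nsmul (ZMod p), ZMod.natCast_zmod_val]

/-- intertwining: if `ρ h x_α(1) = x_β(t) ρ h` then `σ h X_α = t X_β σ h`. -/
theorem σ_Xo (hp : 8 ≤ p) (h7 : IsUnit (720 : ZMod p)) {α β : ι} {t : ZMod p} (h : G)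
    (hh : S.ρ h * B.x α 1 = B.x β t * S.ρ h) : S.σ h * S.Xo α = t • (S.Xo β * S.σ h) := by
  have hk : S.ρ (S.gx β ^ t.val) = B.x β t := by
    rw [S.ρ_gx_pow h7, ZMod.natCast_zmod_val]
  have h1 : S.ρ (h * S.gx α) = S.ρ (S.gx β ^ t.val * h) := by
    rw [map_mul, map_mul, ρ_gx, hk, hh]
  have h2 := S.σ_eq h1
  rw [map_mul, map_mul] at h2
  have h3 : opLog p 8 (S.σ (S.gx β ^ t.val)) = t • S.Xo β := by
    rw [S.σ_of_x hp h7 hk]
    exact (opLog_opExp p 8 hp _ (S.smulXo_pow hp h7 β t)).1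
  ext w
  have h4 := opLog_comp (S.σ h) (S.σ (S.gx α)) (S.σ (S.gx β ^ t.val))
    (fun v => by
      have := congrArg (fun T : Module.End (ZMod p) W => T v) h2
      simpa using this) w
  rw [h3] at h4
  simpa [Xo] using h4

theorem Xo_i (hp : 8 ≤ p) (α : ι) (x : L) : S.Xo α (S.i x) = S.i ⁅B.e α, x⁆ := by
  have h := opLog_comp S.i (S.ρ (S.gx α)) (S.σ (S.gx α)) (fun v => (S.hiG _ v).symm) x
  have h2 : opLog p 8 (S.ρ (S.gx α)) x = ⁅B.e α, x⁆ := by
    rw [S.ρ_gx α, B.opLog_x hp, one_smul, LieAlgebra.ad_apply]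
  rw [h2] at h
  exact h.symm

theorem π_Xo (hp : 8 ≤ p) (α : ι) (w : W) : S.π (S.Xo α w) = ⁅B.e α, S.π w⁆ := by
  have h := opLog_comp S.π (S.σ (S.gx α)) (S.ρ (S.gx α)) (fun v => S.hπG _ v) w
  have h2 : opLog p 8 (S.ρ (S.gx α)) (S.π w) = ⁅B.e α, S.π w⁆ := by
    rw [S.ρ_gx α, B.opLog_x hp, one_smul, LieAlgebra.ad_apply]
  rw [h2] at h
  exact h

theorem exists_ρ_eq (h7 : IsUnit (720 : ZMod p)) {A : Module.End (ZMod p) L} (hA : A ∈ B.elem) :
    ∃ g, S.ρ g = A := by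
  induction hA using Submonoid.closure_induction with
  | mem A hA =>
    obtain ⟨⟨α, t⟩, rfl⟩ := hA
    exact ⟨S.gx α ^ t.val, by rw [S.ρ_gx_pow h7, ZMod.natCast_zmod_val]⟩
  | one => exact ⟨1, map_one _⟩
  | mul A₁ A₂ _ _ ih₁ ih₂ =>
    obtain ⟨g₁, h₁⟩ := ih₁
    obtain ⟨g₂, h₂⟩ := ih₂
    exact ⟨g₁ * g₂, by rw [map_mul, h₁, h₂]⟩

/-- Torus data. -/
structure Tau (S : ModSetup B G W) (f : ι → ℤ) where
  g : G
  l : (ZMod p)ˣ
  θ : ι
  hθ : ∀ α, |f α| ≤ f θ
  hθ0 : 0 < f θ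
  hl : ∀ k : ℤ, k ≠ 0 → |k| ≤ 100 * (f θ + 1) → l ^ k ≠ 1
  hρ : ∀ u, S.ρ g (B.basis u) = ((l ^ (wt f u) : (ZMod p)ˣ) : ZMod p) • B.basis u
  hpow : (S.σ g) ^ (p - 1) = 1

theorem exists_theta (hG : Good b f D p) [Nonempty ι] : ∃ θ, (∀ α, |f α| ≤ f θ) ∧ 0 < f θ := by
  obtain ⟨θ, hθ⟩ := Finite.exists_max f
  refine ⟨θ, fun α => ?_, ?_⟩
  · rw [abs_le]
    refine ⟨?_, hθ α⟩
    have := hθ (ng P α)
    rw [hG.isWt.neg (root_ng P α)] at this
    linarith
  · have h1 := hθ (ng P θ)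
    rw [hG.isWt.neg (root_ng P θ)] at h1
    have h2 := hG.ne θ
    omega

theorem exists_tau (hG : Good b f D p) [Nonempty ι] : Nonempty (Tau S f) := by
  obtain ⟨t, ht, l, htp, hl, hdiag⟩ := B.exists_torus hG
  obtain ⟨θ, hθ, hθ0⟩ := exists_theta (b := b) hG
  obtain ⟨g, hg⟩ := S.exists_ρ_eq hG.isUnit720 ht
  have hU1 : S.ρ (g ^ (p - 1)) = 1 := by rw [map_pow, hg, htp]
  refine ⟨⟨g, l, θ, hθ, hθ0, fun k hk0 hk => hl k hk0 ⟨θ, ?_⟩, ?_, ?_⟩⟩
  · rw [abs_of_pos hθ0]; exact hk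
  · intro u; rw [hg, hdiag]
  · rw [← map_pow]; exact S.hker _ hU1

namespace Tau

variable {S} (T : Tau S f)

/-- the torus operator on `W` -/
noncomputable def t : Module.End (ZMod p) W := S.σ T.g

theorem l_ne {k k' : ℤ} (h : k ≠ k') (hk : |k - k'| ≤ 100 * (f T.θ + 1)) : T.l ^ k ≠ T.l ^ k' := by
  intro h1
  apply T.hl (k - k') (sub_ne_zero.mpr h) hk
  rw [zpow_sub, h1, mul_inv_cancel]

theorem abs_wt_le (u : b.support ⊕ ι) : |wt f u| ≤ f T.θ := by
  rcases u with i | α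
  · simp [T.hθ0.le]
  · exact T.hθ α

theorem repr_eq_zero {x : L} {k : ℤ} (hk : |k| ≤ 50 * (f T.θ + 1))
    (hx : S.ρ T.g x = ((T.l ^ k : (ZMod p)ˣ) : ZMod p) • x) (u : b.support ⊕ ι)
    (hu : wt f u ≠ k) : B.basis.repr x u = 0 := by
  classical
  have : Fintype ι := Fintype.ofFinite ι
  have e1 : B.basis.repr (S.ρ T.g x) u =
      ((T.l ^ (wt f u) : (ZMod p)ˣ) : ZMod p) * B.basis.repr x u := by
    conv_lhs => rw [← B.basis.sum_repr x]
    rw [map_sum, map_sum, Finsupp.finsetSum_apply]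
    rw [Finset.sum_eq_single u]
    · rw [map_smul, T.hρ, map_smul, map_smul, B.basis.repr_self]
      simp [mul_comm]
    · intro v _ hv
      rw [map_smul, T.hρ, map_smul, map_smul, B.basis.repr_self]
      simp [hv]
    · intro h; exact absurd (Finset.mem_univ u) h
  rw [hx, map_smul, Finsupp.smul_apply, smul_eq_mul] at e1
  by_contra h0
  have e2 := mul_right_cancel₀ h0 e1
  refine T.l_ne (k := k) (k' := wt f u) (Ne.symm hu) ?_ (Units.ext e2)
  have := T.abs_wt_le u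
  have h3 := abs_sub k (wt f u)
  have h4 := T.hθ0
  linarith

/-- no vectors of a weight which is not a weight of `L`. -/
theorem eq_zero_of_wt {k : ℤ} (hk : |k| ≤ 50 * (f T.θ + 1)) (hne : ∀ u : b.support ⊕ ι, wt f u ≠ k)
    (w : W) (hw : T.t w = ((T.l ^ k : (ZMod p)ˣ) : ZMod p) • w) : w = 0 := by
  have h1 : S.π w = 0 := by
    apply B.basis.repr.injective
    ext u
    rw [map_zero, Finsupp.zero_apply]
    refine T.repr_eq_zero hk ?_ u (hne u)
    have := congrArg S.π hw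
    rw [t, S.hπG, map_smul] at this
    exact this
  obtain ⟨x, hx⟩ := (S.hex w).1 h1
  have h2 : x = 0 := by
    apply B.basis.repr.injective
    ext u
    rw [map_zero, Finsupp.zero_apply]
    refine T.repr_eq_zero hk ?_ u (hne u)
    rw [← hx, t, S.hiG, ← map_smul] at hw
    exact S.hi hw
  rw [← hx, h2, map_zero]

theorem t_Xo (hG : Good b f D p) (α : ι) :
    T.t * S.Xo α = ((T.l ^ (f α) : (ZMod p)ˣ) : ZMod p) • (S.Xo α * T.t) := by
  have hp : 8 ≤ p := by have := hG.lt; omega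
  apply S.σ_Xo hp hG.isUnit720
  have h1 := mul_expNil_ad (S.ρ T.g) (fun x y => B.elem_lie hG.isUnit720 (S.hρ T.g) x y)
    ((1 : ZMod p) • B.e α)
  have h2 : S.ρ T.g ((1 : ZMod p) • B.e α) =
      ((T.l ^ (f α) : (ZMod p)ˣ) : ZMod p) • B.e α := by
    rw [one_smul]; exact T.hρ (.inr α)
  rw [h2] at h1
  exact h1

/-- eigenvectors span `W`: two maps agreeing on eigenvectors (of weights of `L`) are equal. -/
theorem ext_eig (hG : Good b f D p) {V : Type*} [AddCommGroup V] [Module (ZMod p) V]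
    (A A' : W →ₗ[ZMod p] V)
    (h : ∀ (u : b.support ⊕ ι) (w : W),
      T.t w = ((T.l ^ (wt f u) : (ZMod p)ˣ) : ZMod p) • w → A w = A' w) : A = A' := by
  classical
  have : Fintype ι := Fintype.ofFinite ι
  have hp2 : 2 ≤ p := by have := hG.lt; omega
  -- on the image of `i`
  have h1 : ∀ x, A (S.i x) = A' (S.i x) := by
    have : A ∘ₗ S.i = A' ∘ₗ S.i := by
      apply B.basis.ext
      intro u
      apply h u
      rw [t, S.hiG, T.hρ, map_smul]
    intro x
    exact congrArg (fun F : L →ₗ[ZMod p] V => F x) this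
  -- lifts of basis vectors
  have h2 : ∀ u, ∃ w, S.π w = B.basis u ∧
      T.t w = ((T.l ^ (wt f u) : (ZMod p)ˣ) : ZMod p) • w := by
    intro u
    obtain ⟨w', hw'⟩ := S.hπ (B.basis u)
    refine ⟨prj T.t (T.l ^ (wt f u)) w', ?_, T_prj T.t T.hpow _ _⟩
    rw [prj_comp S.π T.t (S.ρ T.g) (fun v => S.hπG _ v), hw']
    exact prj_eig_self hp2 _ (T.hρ u)
  choose wl hwl1 hwl2 using h2
  ext w
  have h3 : S.π (w - ∑ u, B.basis.repr (S.π w) u • wl u) = 0 := by
    rw [map_sub, map_sum]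
    simp only [map_smul, hwl1]
    rw [B.basis.sum_repr, sub_self]
  obtain ⟨x, hx⟩ := (S.hex _).1 h3
  have h4 : w = S.i x + ∑ u, B.basis.repr (S.π w) u • wl u := by rw [hx]; abel
  rw [h4, map_add, map_add, h1, map_sum, map_sum]
  congr 1
  refine Finset.sum_congr rfl fun u _ => ?_
  rw [map_smul, map_smul, h u _ (hwl2 u)]

end Tau

section Rel

variable (hG : Good b f D p)
include hG

theorem hp8 : 8 ≤ p := by have := hG.lt; omega

/-- group element inducing `n_α` -/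
noncomputable def gn (α : ι) : G := S.gx α * (S.gx (ng P α))⁻¹ * S.gx α

omit hG in
theorem ρ_inv_gx (h7 : IsUnit (720 : ZMod p)) (α : ι) : S.ρ (S.gx α)⁻¹ = B.x α (-1) := by
  have h1 : S.ρ (S.gx α)⁻¹ * B.x α 1 = 1 := by
    rw [← S.ρ_gx, ← map_mul, inv_mul_cancel, map_one]
  calc S.ρ (S.gx α)⁻¹ = S.ρ (S.gx α)⁻¹ * (B.x α 1 * B.x α (-1)) := by
        rw [B.x_mul_neg h7, mul_one]
    _ = B.x α (-1) := by rw [← mul_assoc, h1, one_mul]

omit hG in
theorem ρ_gn (h7 : IsUnit (720 : ZMod p)) (α : ι) : S.ρ (S.gn α) = B.nel α := by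
  rw [gn, map_mul, map_mul, S.ρ_inv_gx h7, S.ρ_gx, ChevalleyBasis.nel]

theorem σ_gn (α : ι) : S.σ (S.gn α) =
    opExp p 8 (S.Xo α) * opExp p 8 (-S.Xo (ng P α)) * opExp p 8 (S.Xo α) := by
  rw [gn, map_mul, map_mul, S.exp_Xo (hp8 hG) hG.isUnit720,
    S.σ_of_x (hp8 hG) hG.isUnit720 (S.ρ_inv_gx hG.isUnit720 (ng P α))]
  simp

theorem σ_gn_Xo (α : ι) : S.σ (S.gn α) * S.Xo α = -(S.Xo (ng P α) * S.σ (S.gn α)) := by
  have h := S.σ_Xo (hp8 hG) hG.isUnit720 (α := α) (β := ng P α) (t := -1) (S.gn α) (by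
    rw [S.ρ_gn hG.isUnit720]
    have hlie : ∀ x y, B.nel α ⁅x, y⁆ = ⁅B.nel α x, B.nel α y⁆ := fun x y => by
      rw [← S.ρ_gn hG.isUnit720 α]
      exact B.elem_lie hG.isUnit720 (S.hρ _) x y
    have h1 := mul_expNil_ad (B.nel α) hlie ((1 : ZMod p) • B.e α)
    have h2 : B.nel α ((1 : ZMod p) • B.e α) = (-1 : ZMod p) • B.e (ng P α) := by
      rw [one_smul, B.nel_e_self hG, neg_smul, one_smul]
    rw [h2] at h1
    exact h1)
  rw [h, neg_smul, one_smul]

theorem sl2 (T : Tau S f) (α : ι) :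
    S.Xo α * S.Xo α * S.Xo (ng P α) - (2 : ZMod p) • (S.Xo α * S.Xo (ng P α) * S.Xo α)
      + S.Xo (ng P α) * S.Xo α * S.Xo α = -((2 : ZMod p) • S.Xo α) ∧
    S.Xo (ng P α) * S.Xo (ng P α) * S.Xo α
      - (2 : ZMod p) • (S.Xo (ng P α) * S.Xo α * S.Xo (ng P α))
      + S.Xo α * S.Xo (ng P α) * S.Xo (ng P α) = -((2 : ZMod p) • S.Xo (ng P α)) := by
  have hp : 100 < p := by have := hG.lt; omega
  refine sl2rel p hp T.t (S.σ T.g⁻¹) (S.σ_mul_inv _) (S.σ_inv_mul _) (T.l ^ (f α)) ?_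
    (S.Xo α) (S.Xo (ng P α)) (S.Xo_pow (hp8 hG) hG.isUnit720 α)
    (S.Xo_pow (hp8 hG) hG.isUnit720 _) (T.t_Xo hG α) ?_ ?_
  · intro k hk0 hk
    rw [← zpow_mul]
    apply T.hl _ (mul_ne_zero (hG.ne α) hk0)
    rw [abs_mul]
    have h1 := T.hθ α
    have h2 := abs_nonneg (f α)
    have h3 := abs_nonneg k
    nlinarith
  · have := T.t_Xo hG (ng P α)
    rw [hG.isWt.neg (root_ng P α), zpow_neg] at this
    exact this
  · rw [← S.σ_gn hG]
    exact S.σ_gn_Xo hG α

theorem Xo_comm {α β : ι} (h : ⁅B.e α, B.e β⁆ = 0) : S.Xo α * S.Xo β = S.Xo β * S.Xo α := by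
  -- σ (gx α) commutes with Xo β
  have hxe : B.x α 1 (B.e β) = B.e β := by
    obtain ⟨u, hu, he⟩ := exists_inv6 (ZMod p) hG.isUnit720
    rw [ChevalleyBasis.x, he, E4_apply, one_smul, LieAlgebra.ad_apply, h]
    simp
  have h1 : S.σ (S.gx α) * S.Xo β = S.Xo β * S.σ (S.gx α) := by
    have := S.σ_Xo (hp8 hG) hG.isUnit720 (α := β) (β := β) (t := 1) (S.gx α) (by
      rw [S.ρ_gx]
      have h1 := mul_expNil_ad (B.x α 1) (B.x_lie hG.isUnit720 α 1) ((1 : ZMod p) • B.e β)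
      have h2 : B.x α 1 ((1 : ZMod p) • B.e β) = (1 : ZMod p) • B.e β := by
        rw [one_smul, hxe]
      rw [h2] at h1
      exact h1)
    rw [this, one_smul]
  ext w
  have h2 := opLog_comp (S.Xo β) (S.σ (S.gx α)) (S.σ (S.gx α)) (fun v => by
    have := congrArg (fun T : Module.End (ZMod p) W => T v) h1
    exact this.symm) w
  exact h2.symm

end Rel

section Cart

/-- the value of the weight of the basis element `u` on the simple coroot `i` -/
noncomputable def chi (P : RootPairing ι ℚ X Y) [P.IsCrystallographic] (b : P.Base) (i : ι) :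
    b.support ⊕ ι → ℤ := Sum.elim (fun _ => 0) (fun γ => P.pairingIn ℤ γ i)

/-- the root (or zero) of a basis element -/
noncomputable def rt (P : RootPairing ι ℚ X Y) (b : P.Base) : b.support ⊕ ι → X :=
  Sum.elim (fun _ => 0) (fun γ => P.root γ)

theorem chi_eq (i : ι) (u : b.support ⊕ ι) : (chi P b i u : ℚ) = P.coroot' i (rt P b u) := by
  rcases u with j | γ
  · simp [chi, rt]
  · simp only [chi, rt, Sum.elim_inr]
    rw [P.root_coroot'_eq_pairing, ← P.algebraMap_pairingIn ℤ]; simp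

theorem rt_of_wt (hG : Good b f D p) {u v : b.support ⊕ ι} {j : ι}
    (h : wt f v = wt f u - f j) : rt P b v = rt P b u - P.root j := by
  rcases u with i | γ <;> rcases v with i' | γ'
  · simp only [wt_inl] at h; exact absurd (by linarith : f j = 0) (hG.ne j)
  · simp only [wt_inl, wt_inr] at h
    have h1 : f γ' = f (ng P j) := by rw [hG.isWt.neg (root_ng P j)]; linarith
    have h2 := hG.inj h1
    simp only [rt, Sum.elim_inl, Sum.elim_inr, h2, root_ng]; simp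
  · simp only [wt_inl, wt_inr] at h
    have h1 : γ = j := hG.inj (by linarith)
    simp only [rt, Sum.elim_inl, Sum.elim_inr, h1]; simp
  · simp only [wt_inr] at h
    have h1 := hG.add γ' j γ (by linarith)
    simp only [rt, Sum.elim_inr, ← h1]; simp

variable (T : Tau S f)

/-- the Cartan operator: acts on the weight space of `γ` by `⟨γ, i⟩` -/
noncomputable def Cop (T : Tau S f) [Fintype ι] (i : ι) : Module.End (ZMod p) W :=
  ∑ γ, ((P.pairingIn ℤ γ i : ℤ) : ZMod p) • prj T.t (T.l ^ (f γ))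

theorem Cop_eig (hG : Good b f D p) [Fintype ι] (i : ι) (u : b.support ⊕ ι) (w : W)
    (hw : T.t w = ((T.l ^ (wt f u) : (ZMod p)ˣ) : ZMod p) • w) :
    Cop S T i w = (chi P b i u : ZMod p) • w := by
  classical
  have hp2 : 2 ≤ p := by have := hG.lt; omega
  have hne : ∀ γ, wt f u ≠ f γ → prj T.t (T.l ^ (f γ)) w = 0 := by
    intro γ hγ
    refine prj_eig_ne _ ?_ hw
    refine T.l_ne hγ ?_
    have h1 := T.abs_wt_le u
    have h2 := T.hθ γ
    have h3 := abs_sub (wt f u) (f γ)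
    have h4 := T.hθ0
    linarith
  simp only [Cop, LinearMap.sum_apply, LinearMap.smul_apply]
  rcases u with j | γ
  · rw [Finset.sum_eq_zero]
    · simp [chi]
    · intro γ _
      rw [hne γ (by rw [wt_inl]; exact (hG.ne γ).symm), smul_zero]
  · rw [Finset.sum_eq_single γ]
    · rw [wt_inr] at hw
      rw [prj_eig_self hp2 T.t hw]; rfl
    · intro γ' _ hγ'
      rw [hne γ' (by rw [wt_inr]; exact fun h => hγ' (hG.inj h).symm), smul_zero]
    · intro h; exact absurd (Finset.mem_univ _) h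

theorem Xo_eig (hG : Good b f D p) (α : ι) {k : ℤ} {w : W}
    (hw : T.t w = ((T.l ^ k : (ZMod p)ˣ) : ZMod p) • w) :
    T.t (S.Xo α w) = ((T.l ^ (k + f α) : (ZMod p)ˣ) : ZMod p) • S.Xo α w := by
  have := congrArg (fun A : Module.End (ZMod p) W => A w) (T.t_Xo hG α)
  simp only [Module.End.mul_apply, LinearMap.smul_apply] at this
  rw [this, hw, map_smul, smul_smul, ← Units.val_mul, ← zpow_add, add_comm]

theorem Cop_Xo (hG : Good b f D p) [Fintype ι] (i α : ι) :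
    Cop S T i * S.Xo (ng P α) - S.Xo (ng P α) * Cop S T i =
      -(((P.pairingIn ℤ α i : ℤ) : ZMod p) • S.Xo (ng P α)) := by
  apply T.ext_eig hG
  intro u w hw
  have h1 := Xo_eig S T hG (ng P α) hw
  rw [hG.isWt.neg (root_ng P α)] at h1
  simp only [LinearMap.sub_apply, Module.End.mul_apply, LinearMap.neg_apply, LinearMap.smul_apply]
  rw [Cop_eig S T hG i u w hw, map_smul]
  by_cases hv : ∃ v : b.support ⊕ ι, wt f v = wt f u - f α
  · obtain ⟨v, hv⟩ := hv
    rw [← sub_eq_add_neg, ← hv] at h1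
    rw [Cop_eig S T hG i v _ h1, ← sub_smul, ← neg_smul]
    congr 1
    have h2 : (chi P b i v : ℚ) = chi P b i u - P.pairingIn ℤ α i := by
      rw [chi_eq, chi_eq, rt_of_wt hG hv, map_sub]
      congr 1
      rw [P.root_coroot'_eq_pairing, ← P.algebraMap_pairingIn ℤ]; simp
    have h3 : chi P b i v = chi P b i u - P.pairingIn ℤ α i := by exact_mod_cast h2
    rw [h3]; push_cast; ring
  · have h2 : S.Xo (ng P α) w = 0 := by
      refine T.eq_zero_of_wt (k := wt f u + -f α) ?_ ?_ _ h1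
      · have h1 := T.abs_wt_le u
        have h2 := T.hθ α
        have h3 := abs_add_le (wt f u) (-f α)
        have h4 := T.hθ0
        rw [abs_neg] at h3
        linarith
      · intro v hv'
        exact hv ⟨v, by rw [hv']; ring⟩
    rw [h2]; simp

end Cart

section HWapp

variable (T : Tau S f) (hG : Good b f D p)
include hG

omit hG in
theorem chi_of_wt_eq (hG : Good b f D p) (i : ι) {u v : b.support ⊕ ι} (h : wt f v = wt f u) :
    chi P b i v = chi P b i u := by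
  rcases u with j | γ <;> rcases v with j' | γ'
  · rfl
  · simp only [wt_inl, wt_inr] at h; exact absurd h (hG.ne γ')
  · simp only [wt_inl, wt_inr] at h; exact absurd h.symm (hG.ne γ)
  · simp only [wt_inr] at h; rw [hG.inj h]

omit hG in
theorem lie_hc_basis (i : ι) (u : b.support ⊕ ι) :
    ⁅B.hc i, B.basis u⁆ = (chi P b i u : ZMod p) • B.basis u := by
  rcases u with j | γ
  · rw [ChevalleyBasis.hc, B.lie_sum_h_h]; simp [chi]
  · exact B.lie_hc i γ

theorem lie_hc_eig (i : ι) (u : b.support ⊕ ι) (y : L)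
    (hy : S.ρ T.g y = ((T.l ^ (wt f u) : (ZMod p)ˣ) : ZMod p) • y) :
    ⁅B.hc i, y⁆ = (chi P b i u : ZMod p) • y := by
  classical
  have : Fintype ι := Fintype.ofFinite ι
  have h0 : |wt f u| ≤ 50 * (f T.θ + 1) := by
    have := T.abs_wt_le u; have := T.hθ0; linarith
  have h1 : ∀ v, wt f v ≠ wt f u → B.basis.repr y v = 0 := fun v hv => T.repr_eq_zero h0 hy v hv
  conv_lhs => rw [← B.basis.sum_repr y]
  conv_rhs => rw [← B.basis.sum_repr y]
  rw [_root_.lie_sum, Finset.smul_sum]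
  refine Finset.sum_congr rfl fun v _ => ?_
  rw [lie_smul, lie_hc_basis, smul_comm]
  by_cases hv : wt f v = wt f u
  · rw [chi_of_wt_eq hG i hv]
  · rw [h1 v hv]; simp

theorem H_i (i : ι) (x : L) :
    (S.Xo i * S.Xo (ng P i) - S.Xo (ng P i) * S.Xo i) (S.i x) = S.i ⁅B.hc i, x⁆ := by
  simp only [LinearMap.sub_apply, Module.End.mul_apply, S.Xo_i (hp8 hG)]
  rw [← map_sub, ← B.lie_e_ng, lie_lie]

theorem π_H (i : ι) (w : W) :
    S.π ((S.Xo i * S.Xo (ng P i) - S.Xo (ng P i) * S.Xo i) w) = ⁅B.hc i, S.π w⁆ := by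
  simp only [LinearMap.sub_apply, Module.End.mul_apply, map_sub, S.π_Xo (hp8 hG)]
  rw [← B.lie_e_ng, lie_lie]

theorem Cop_i [Fintype ι] (i : ι) (x : L) : Cop S T i (S.i x) = S.i ⁅B.hc i, x⁆ := by
  have h : (Cop S T i) ∘ₗ S.i = S.i ∘ₗ (LieAlgebra.ad (ZMod p) L (B.hc i)) := by
    apply B.basis.ext
    intro u
    simp only [LinearMap.comp_apply, LieAlgebra.ad_apply]
    rw [lie_hc_basis, map_smul]
    apply Cop_eig S T hG i u
    rw [Tau.t, S.hiG, T.hρ, map_smul]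
  exact congrArg (fun F : L →ₗ[ZMod p] W => F x) h

theorem π_Cop [Fintype ι] (i : ι) (w : W) : S.π (Cop S T i w) = ⁅B.hc i, S.π w⁆ := by
  have h : S.π ∘ₗ (Cop S T i) = (LieAlgebra.ad (ZMod p) L (B.hc i) : L →ₗ[ZMod p] L) ∘ₗ S.π := by
    apply T.ext_eig hG
    intro u w hw
    simp only [LinearMap.comp_apply, LieAlgebra.ad_apply]
    rw [Cop_eig S T hG i u w hw, map_smul, lie_hc_eig S T hG i u]
    rw [← S.hπG, ← Tau.t, hw, map_smul]
  exact congrArg (fun F : W →ₗ[ZMod p] L => F w) h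

theorem eta_sq [Fintype ι] (i : ι) :
    (S.Xo i * S.Xo (ng P i) - S.Xo (ng P i) * S.Xo i - Cop S T i) ^ 2 = 0 := by
  ext w
  rw [pow_two, Module.End.mul_apply]
  have h1 : S.π ((S.Xo i * S.Xo (ng P i) - S.Xo (ng P i) * S.Xo i - Cop S T i) w) = 0 := by
    rw [LinearMap.sub_apply, map_sub, S.π_H hG, S.π_Cop T hG, sub_self]
  obtain ⟨x, hx⟩ := (S.hex _).1 h1
  rw [← hx, LinearMap.sub_apply, S.H_i hG, S.Cop_i T hG, sub_self]
  rfl

theorem t_H (i : ι) : T.t * (S.Xo i * S.Xo (ng P i) - S.Xo (ng P i) * S.Xo i) =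
    (S.Xo i * S.Xo (ng P i) - S.Xo (ng P i) * S.Xo i) * T.t := by
  have h1 := T.t_Xo hG i
  have h2 := T.t_Xo hG (ng P i)
  rw [hG.isWt.neg (root_ng P i)] at h2
  have e : (((T.l ^ (f i) : (ZMod p)ˣ) : ZMod p)) * ((T.l ^ (-f i) : (ZMod p)ˣ) : ZMod p) = 1 := by
    rw [← Units.val_mul, ← zpow_add, add_neg_cancel, zpow_zero, Units.val_one]
  have e' : (((T.l ^ (-f i) : (ZMod p)ˣ) : ZMod p)) * ((T.l ^ (f i) : (ZMod p)ˣ) : ZMod p) = 1 := by
    rw [mul_comm, e]
  rw [mul_sub, sub_mul, ← mul_assoc, h1, smul_mul_assoc, mul_assoc, h2, mul_smul_comm, smul_smul, e,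
    one_smul, ← mul_assoc T.t, h2, smul_mul_assoc, mul_assoc _ T.t, h1, mul_smul_comm, smul_smul, e',
    one_smul, mul_assoc, mul_assoc]

theorem Cop_H [Fintype ι] (i j : ι) : Cop S T i * (S.Xo j * S.Xo (ng P j) - S.Xo (ng P j) * S.Xo j) =
    (S.Xo j * S.Xo (ng P j) - S.Xo (ng P j) * S.Xo j) * Cop S T i := by
  simp only [Cop, Finset.sum_mul, Finset.mul_sum, smul_mul_assoc, mul_smul_comm]
  refine Finset.sum_congr rfl fun γ _ => ?_
  rw [prj_comm _ _ (S.t_H T hG j)]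

/-- application of the highest weight argument -/
theorem exists_V (v0 : W)
    (hv0 : T.t v0 = ((T.l ^ (f T.θ) : (ZMod p)ˣ) : ZMod p) • v0) :
    ∃ V : Submodule (ZMod p) W, v0 ∈ V ∧
      (∀ i ∈ b.support, ∀ v ∈ V, S.Xo i v ∈ V ∧ S.Xo (ng P i) v ∈ V) ∧
      ∀ w ∈ V, T.t w = ((T.l ^ (f T.θ) : (ZMod p)ˣ) : ZMod p) • w →
        w ∈ Submodule.span (ZMod p) {v0} := by
  classical
  have : Fintype ι := Fintype.ofFinite ι
  have hp : 100 < p := by have := hG.lt; omega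
  have hθ0 := T.hθ0
  obtain ⟨V, hV1, hV2, hV3⟩ := hw p hp (I := b.support) (f T.θ) (f T.θ) (abs_of_pos hθ0).le T.t T.l
    (fun k hk0 hk => T.hl k hk0 (by linarith))
    (fun i => f i)
    (fun i => ⟨(hG.pos _).1 (RootPairing.Base.isPos_of_mem_support i.2), (le_abs_self _).trans
      (T.hθ _)⟩)
    (fun k hk hk' w hw => by
      refine T.eq_zero_of_wt (k := k) (by linarith) (fun u hu => ?_) w hw
      have := abs_le.1 (T.abs_wt_le u)
      rcases hk' with h | h <;> omega)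
    (fun i => S.Xo i) (fun i => S.Xo (ng P i)) (fun i => Cop S T i)
    (fun i => T.t_Xo hG i)
    (fun i => by
      have := T.t_Xo hG (ng P i)
      rwa [hG.isWt.neg (root_ng P i)] at this)
    (fun i => S.Xo_pow (hp8 hG) hG.isUnit720 _) (fun i => S.Xo_pow (hp8 hG) hG.isUnit720 _)
    (fun i j hij => by
      apply S.Xo_comm hG
      have hne : (i : ι) ≠ j := fun h => hij (Subtype.ext h)
      apply B.lie_e_e_zero
      · rw [root_ng, ← sub_eq_add_neg, sub_ne_zero]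
        exact fun h => hne (P.root.injective h)
      · rw [root_ng, ← sub_eq_add_neg]
        exact b.sub_notMem_range_root i.2 j.2)
    (fun i => by
      have := (S.sl2 hG T i).1
      have h2 : (2 : ZMod p) • S.Xo (i : ι) = -(S.Xo (i : ι) * S.Xo i * S.Xo (ng P i)
        - (2 : ZMod p) • (S.Xo i * S.Xo (ng P i) * S.Xo i)
        + S.Xo (ng P i) * S.Xo i * S.Xo i) := by rw [this, neg_neg]
      rw [h2, two_smul]
      simp only [sub_mul, mul_sub, mul_assoc]
      abel)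
    (fun i => by
      have := (S.sl2 hG T i).2
      rw [← this, two_smul]
      simp only [sub_mul, mul_sub, mul_assoc]
      abel)
    (fun i j => ((P.pairingIn ℤ j i : ℤ) : ZMod p))
    (fun i j => S.Cop_Xo T hG i j)
    (fun i => S.Cop_H T hG i i)
    (fun i => S.eta_sq T hG i)
    v0 hv0 (fun i => (chi P b i (.inr T.θ) : ZMod p))
    (fun i => Cop_eig S T hG i (.inr T.θ) v0 hv0)
  exact ⟨V, hV1, fun i hi v hv => hV2 ⟨i, hi⟩ v hv, hV3⟩

end HWapp

end ModSetup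

end Ch4
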