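import Mathlib

set_option linter.unusedVariables false

namespace Ch4

namespace PPaux

open Finset

/-- geometric sum in characteristic `p`, polynomial form -/
theorem geom_poly (p : ℕ) [Fact p.Prime] :
    (∑ i ∈ range p, (Polynomial.X : Polynomial (ZMod p)) ^ i) = (Polynomial.X - 1) ^ (p - 1) := by
  have hp : p ≠ 0 := (Fact.out : p.Prime).ne_zero
  have h1 : (Polynomial.X - 1 : Polynomial (ZMod p)) ≠ 0 := by
    have := Polynomial.X_sub_C_ne_zero (1 : ZMod p)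
    simpa using this
  apply mul_left_cancel₀ h1
  rw [mul_geom_sum, ← pow_succ', Nat.sub_add_cancel (Nat.one_le_iff_ne_zero.mpr hp), sub_pow_char,
    one_pow]

theorem geom_char (p : ℕ) [Fact p.Prime] {R : Type*} [Ring R] [Algebra (ZMod p) R] (a : R) :
    ∑ i ∈ range p, a ^ i = (a - 1) ^ (p - 1) := by
  have h := congrArg (Polynomial.aeval a) (geom_poly p)
  simpa using h

/-- the two variable identity, in a domain -/
theorem two_var_dom (p : ℕ) [Fact p.Prime] {R : Type*} [CommRing R] [IsDomain R]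
    [Algebra (ZMod p) R] (U T : R) (hT : T - 1 ≠ 0) :
    (∑ j ∈ range p, (U * T) ^ (p - 1 - j) * (T * ∑ i ∈ range j, T ^ i)) =
      - (T * ∑ i ∈ range (p - 1), (U * T - T) ^ i * (U * T - 1) ^ (p - 1 - 1 - i)) := by
  have hp : 0 < p := (Fact.out : p.Prime).pos
  apply mul_left_cancel₀ hT
  have e1 : (T - 1) * (∑ j ∈ range p, (U * T) ^ (p - 1 - j) * (T * ∑ i ∈ range j, T ^ i)) =
      T * ∑ j ∈ range p, (U * T) ^ (p - 1 - j) * (T ^ j - 1) := by
    rw [mul_sum, mul_sum]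
    apply sum_congr rfl
    intro j hj
    rw [← mul_geom_sum]
    ring
  have e2 : ∑ j ∈ range p, (U * T) ^ (p - 1 - j) * (T ^ j - 1) =
      T ^ (p - 1) * ∑ j ∈ range p, U ^ (p - 1 - j) - ∑ j ∈ range p, (U * T) ^ (p - 1 - j) := by
    rw [mul_sum, ← sum_sub_distrib]
    apply sum_congr rfl
    intro j hj
    have hj' : j ≤ p - 1 := by
      have := mem_range.mp hj
      omega
    have : T ^ (p - 1) = T ^ (p - 1 - j) * T ^ j := by
      rw [← pow_add]; congr 1; omega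
    rw [this, mul_pow]
    ring
  have e3 : ∑ j ∈ range p, U ^ (p - 1 - j) = (U - 1) ^ (p - 1) := by
    rw [sum_range_reflect (fun j => U ^ j) p, geom_char]
  have e4 : ∑ j ∈ range p, (U * T) ^ (p - 1 - j) = (U * T - 1) ^ (p - 1) := by
    rw [sum_range_reflect (fun j => (U * T) ^ j) p, geom_char]
  have e5 := (Commute.all (U * T - T) (U * T - 1)).geom_sum₂_mul (p - 1)
  rw [e1, e2, e3, e4]
  have e6 : T ^ (p - 1) * (U - 1) ^ (p - 1) = (U * T - T) ^ (p - 1) := by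
    rw [← mul_pow]; congr 1; ring
  rw [e6, ← e5]
  ring

/-- the two variable identity in any commutative algebra -/
theorem two_var (p : ℕ) [Fact p.Prime] {R : Type*} [CommRing R] [Algebra (ZMod p) R] (U T : R) :
    (∑ j ∈ range p, (U * T) ^ (p - 1 - j) * (T * ∑ i ∈ range j, T ^ i)) =
      - (T * ∑ i ∈ range (p - 1), (U * T - T) ^ i * (U * T - 1) ^ (p - 1 - 1 - i)) := by
  have hne : (MvPolynomial.X 1 : MvPolynomial (Fin 2) (ZMod p)) - 1 ≠ 0 := by
    intro h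
    have h2 := congrArg (MvPolynomial.eval (fun _ => (0 : ZMod p))) h
    simp at h2
  have h := two_var_dom p (MvPolynomial.X 0 : MvPolynomial (Fin 2) (ZMod p)) (MvPolynomial.X 1) hne
  have h2 := congrArg (MvPolynomial.aeval (R := ZMod p) ![U, T]) h
  simpa using h2

theorem two_var_zero (p : ℕ) [Fact p.Prime] {R : Type*} [CommRing R] [Algebra (ZMod p) R] (U T : R)
    (m n : ℕ) (hmn : m + n + 1 ≤ p) (hU : (U - 1) ^ m = 0) (hT : (T - 1) ^ n = 0) :
    (∑ j ∈ range p, (U * T) ^ (p - 1 - j) * (T * ∑ i ∈ range j, T ^ i)) = 0 := by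
  rw [two_var]
  have hz : ∀ a b : ℕ, m + n ≤ a + b + 1 → (U - 1) ^ a * (T - 1) ^ b = 0 := by
    intro a b hab
    by_cases h : m ≤ a
    · rw [pow_eq_zero_of_le h hU, zero_mul]
    · rw [pow_eq_zero_of_le (by omega : n ≤ b) hT, mul_zero]
  have : ∀ i ∈ range (p - 1), (U * T - T) ^ i * (U * T - 1) ^ (p - 1 - 1 - i) = 0 := by
    intro i hi
    have hi' := mem_range.mp hi
    have e1 : U * T - T = T * (U - 1) := by ring
    have e2 : U * T - 1 = U * (T - 1) + (U - 1) := by ring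
    rw [e1, e2, add_pow, mul_sum]
    apply sum_eq_zero
    intro k hk
    have hk' := mem_range.mp hk
    have := hz (i + (p - 1 - 1 - i - k)) k (by omega)
    calc (T * (U - 1)) ^ i * ((U * (T - 1)) ^ k * (U - 1) ^ (p - 1 - 1 - i - k) *
          ((p - 1 - 1 - i).choose k : R)) =
        ((U - 1) ^ (i + (p - 1 - 1 - i - k)) * (T - 1) ^ k) * (T ^ i * U ^ k *
          ((p - 1 - 1 - i).choose k : R)) := by
          rw [mul_pow, mul_pow, pow_add]; ring
      _ = 0 := by rw [this, zero_mul]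
  rw [sum_eq_zero this]
  simp


theorem two_var_zero' (p : ℕ) [Fact p.Prime] {R : Type*} [Ring R] [Algebra (ZMod p) R] (U T : R)
    (hUT : U * T = T * U)
    (m n : ℕ) (hmn : m + n + 1 ≤ p) (hU : (U - 1) ^ m = 0) (hT : (T - 1) ^ n = 0) :
    (∑ j ∈ range p, (U * T) ^ (p - 1 - j) * (T * ∑ i ∈ range j, T ^ i)) = 0 := by
  have hcomm : ∀ a ∈ ({U, T} : Set R), ∀ b ∈ ({U, T} : Set R), a * b = b * a := by
    intro a ha b hb
    rcases ha with rfl | ha <;> rcases hb with rfl | hb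
    · rfl
    · rw [Set.mem_singleton_iff] at hb; subst hb; exact hUT
    · rw [Set.mem_singleton_iff] at ha; subst ha; exact hUT.symm
    · rw [Set.mem_singleton_iff] at ha hb; rw [ha, hb]
  let _ : CommRing (Algebra.adjoin (ZMod p) ({U, T} : Set R)) :=
    { (inferInstance : Ring (Algebra.adjoin (ZMod p) ({U, T} : Set R))) with
      mul_comm := (Algebra.isMulCommutative_adjoin (ZMod p) hcomm).is_comm.comm }
  have hUm : U ∈ Algebra.adjoin (ZMod p) ({U, T} : Set R) :=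
    Algebra.subset_adjoin (by simp)
  have hTm : T ∈ Algebra.adjoin (ZMod p) ({U, T} : Set R) :=
    Algebra.subset_adjoin (by simp)
  have h := two_var_zero p (R := Algebra.adjoin (ZMod p) ({U, T} : Set R)) ⟨U, hUm⟩ ⟨T, hTm⟩ m n hmn
    (by ext; simpa using hU) (by ext; simpa using hT)
  have h2 := congrArg (Subalgebra.val (Algebra.adjoin (ZMod p) ({U, T} : Set R))) h
  simpa using h2

theorem exists_model.{u} {E : Type u} [Group E] (p : ℕ) [Fact p.Prime]
    (W : Subgroup E) [W.Normal] (hWc : ∀ a ∈ W, ∀ b ∈ W, a * b = b * a)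
    (hWp : ∀ a ∈ W, a ^ p = 1) :
    ∃ (V : Type u) (_ : AddCommGroup V) (_ : Module (ZMod p) V)
      (f : V → E) (L : E → Module.End (ZMod p) V), f 0 = 1 ∧ (∀ a b, f (a + b) = f a * f b) ∧
      (∀ a, f a ∈ W) ∧ (∀ w ∈ W, ∃ a, f a = w) ∧ Function.Injective f ∧
      (∀ g v, f (L g v) = g * f v * g⁻¹) := by
  let _ : CommGroup W :=
    { (inferInstance : Group W) with mul_comm := fun a b => Subtype.ext (hWc a a.2 b b.2) }
  let _ : Module (ZMod p) (Additive W) := AddCommGroup.zmodModule (n := p) (by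
    intro x
    have := hWp x.toMul x.toMul.2
    apply Additive.toMul.injective
    apply Subtype.ext
    simpa using this)
  refine ⟨Additive W, inferInstance, inferInstance, fun v => (v.toMul : E),
    fun g => AddMonoidHom.toZModLinearMap p
      (MonoidHom.toAdditive (MulAut.conjNormal (H := W) g).toMonoidHom), ?_, ?_, ?_, ?_, ?_, ?_⟩
  · simp
  · intro a b
    simp
  · intro a
    exact a.toMul.2
  · intro w hw
    exact ⟨Additive.ofMul ⟨w, hw⟩, rfl⟩
  · intro a b h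
    apply Additive.toMul.injective
    exact Subtype.ext h
  · intro g v
    simp

section model

variable {E : Type*} [Group E] {p : ℕ} [Fact p.Prime] {W : Subgroup E}
  {V : Type*} [AddCommGroup V] [Module (ZMod p) V] {f : V → E} {L : E → Module.End (ZMod p) V}

theorem f_neg (h0 : f 0 = 1) (hadd : ∀ a b, f (a + b) = f a * f b) (v : V) : f (-v) = (f v)⁻¹ := by
  apply eq_inv_of_mul_eq_one_left
  rw [← hadd, neg_add_cancel, h0]

theorem f_sub (h0 : f 0 = 1) (hadd : ∀ a b, f (a + b) = f a * f b) (v w : V) :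
    f (v - w) = f v * (f w)⁻¹ := by
  rw [sub_eq_add_neg, hadd, f_neg h0 hadd]

theorem L_mul (hinj : Function.Injective f) (hL : ∀ g v, f (L g v) = g * f v * g⁻¹) (g h : E) :
    L (g * h) = L g * L h := by
  ext v
  apply hinj
  rw [hL, Module.End.mul_apply, hL, hL]
  group

theorem L_one (hinj : Function.Injective f) (hL : ∀ g v, f (L g v) = g * f v * g⁻¹) :
    L 1 = 1 := by
  ext v
  apply hinj
  rw [hL]
  simp

theorem L_mem (hWc : ∀ a ∈ W, ∀ b ∈ W, a * b = b * a) (hf : ∀ a, f a ∈ W)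
    (hinj : Function.Injective f) (hL : ∀ g v, f (L g v) = g * f v * g⁻¹) (w : E) (hw : w ∈ W) :
    L w = 1 := by
  ext v
  apply hinj
  rw [hL, hWc w hw _ (hf v)]
  simp

theorem f_iter (h0 : f 0 = 1) (hadd : ∀ a b, f (a + b) = f a * f b)
    (hL : ∀ g v, f (L g v) = g * f v * g⁻¹) (x : E) (n : ℕ) (v : V) :
    f (((L x - 1) ^ n) v) = (fun y => x * y * x⁻¹ * y⁻¹)^[n] (f v) := by
  induction n with
  | zero => simp
  | succ n ih =>
    rw [Function.iterate_succ_apply', ← ih, pow_succ', Module.End.mul_apply, LinearMap.sub_apply,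
      f_sub h0 hadd, hL, Module.End.one_apply]

theorem L_unip (h0 : f 0 = 1) (hadd : ∀ a b, f (a + b) = f a * f b) (hf : ∀ a, f a ∈ W)
    (hinj : Function.Injective f)
    (hL : ∀ g v, f (L g v) = g * f v * g⁻¹) (x : E) (n : ℕ)
    (hx : ∀ w ∈ W, (fun y => x * y * x⁻¹ * y⁻¹)^[n] w = 1) : (L x - 1) ^ n = 0 := by
  ext v
  apply hinj
  rw [f_iter h0 hadd hL, hx _ (hf v), LinearMap.zero_apply, h0]

theorem L_inv_unip (hinj : Function.Injective f)
    (hL : ∀ g v, f (L g v) = g * f v * g⁻¹) (x : E) (n : ℕ)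
    (hx : (L x - 1) ^ n = 0) : (L x⁻¹ - 1) ^ n = 0 := by
  have h1 : L x⁻¹ * L x = 1 := by rw [← L_mul hinj hL, inv_mul_cancel, L_one hinj hL]
  have h2 : L x * L x⁻¹ = 1 := by rw [← L_mul hinj hL, mul_inv_cancel, L_one hinj hL]
  have h3 : L x⁻¹ - 1 = (- L x⁻¹) * (L x - 1) := by
    rw [neg_mul, mul_sub, h1, mul_one]; abel
  have h4 : Commute (- L x⁻¹) (L x - 1) := by
    change (- L x⁻¹) * (L x - 1) = (L x - 1) * (- L x⁻¹)
    rw [neg_mul, mul_sub, h1, mul_one, sub_mul, mul_neg, h2, one_mul]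
    abel
  rw [h3, h4.mul_pow, hx, mul_zero]

theorem mul_pow_formula (hadd : ∀ a b, f (a + b) = f a * f b)
    (h0 : f 0 = 1) (hL : ∀ g v, f (L g v) = g * f v * g⁻¹) (x : E) (v : V) (k : ℕ) :
    (x * f v) ^ k = f ((L x * ∑ i ∈ range k, (L x) ^ i) v) * x ^ k := by
  induction k with
  | zero => simp [h0]
  | succ k ih =>
    rw [pow_succ', ih]
    have e : (L x * ∑ i ∈ range (k + 1), (L x) ^ i) v =
        L x (v + (L x * ∑ i ∈ range k, (L x) ^ i) v) := by
      rw [sum_range_succ', mul_add]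
      simp only [pow_zero, mul_one, LinearMap.add_apply, map_add, Module.End.mul_apply]
      rw [add_comm]
      congr 2
      rw [← Module.End.mul_apply, mul_sum]
      congr 1
      apply sum_congr rfl
      intro i hi
      rw [pow_succ']
    rw [e, hL, hadd, pow_succ']
    group

theorem d_formula (hadd : ∀ a b, f (a + b) = f a * f b)
    (h0 : f 0 = 1) (hL : ∀ g v, f (L g v) = g * f v * g⁻¹) (x y : E) (c : V)
    (hc : f c = y⁻¹ * x⁻¹ * y * x) (k : ℕ) :
    (y ^ k)⁻¹ * x⁻¹ * y ^ k * x = f ((∑ i ∈ range k, (L y⁻¹) ^ i) c) := by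
  induction k with
  | zero => simp [h0]
  | succ k ih =>
    have e : (∑ i ∈ range (k + 1), (L y⁻¹) ^ i) c =
        L y⁻¹ ((∑ i ∈ range k, (L y⁻¹) ^ i) c) + c := by
      rw [sum_range_succ']
      simp only [pow_zero, LinearMap.add_apply, Module.End.one_apply]
      congr 1
      rw [← Module.End.mul_apply, mul_sum]
      congr 1
      apply sum_congr rfl
      intro i hi
      rw [pow_succ']
    rw [e, hadd, hL, ← ih, hc, pow_succ]
    group

theorem w_formula (hadd : ∀ a b, f (a + b) = f a * f b)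
    (h0 : f 0 = 1) (hL : ∀ g v, f (L g v) = g * f v * g⁻¹) (x y : E) (c : V)
    (hUT : L x⁻¹ * L y⁻¹ = L y⁻¹ * L x⁻¹)
    (hc : f c = y⁻¹ * x⁻¹ * y * x) (k : ℕ) :
    (x * y) ^ k = x ^ k * y ^ k *
      f ((∑ j ∈ range k, (L x⁻¹ * L y⁻¹) ^ (k - 1 - j) * (L y⁻¹ * ∑ i ∈ range j, (L y⁻¹) ^ i)) c) := by
  induction k with
  | zero => simp [h0]
  | succ k ih =>
    have e : (∑ j ∈ range (k + 1), (L x⁻¹ * L y⁻¹) ^ (k + 1 - 1 - j) *
          (L y⁻¹ * ∑ i ∈ range j, (L y⁻¹) ^ i)) c =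
        L y⁻¹ ((∑ i ∈ range k, (L y⁻¹) ^ i) c + L x⁻¹ ((∑ j ∈ range k,
          (L x⁻¹ * L y⁻¹) ^ (k - 1 - j) * (L y⁻¹ * ∑ i ∈ range j, (L y⁻¹) ^ i)) c)) := by
      rw [sum_range_succ]
      simp only [Nat.add_sub_cancel, Nat.sub_self, pow_zero, one_mul, LinearMap.add_apply, map_add]
      rw [add_comm]
      congr 1
      rw [← Module.End.mul_apply, ← Module.End.mul_apply, ← hUT, mul_sum]
      congr 1
      apply sum_congr rfl
      intro j hj
      have hj' := mem_range.mp hj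
      have : k - j = (k - 1 - j) + 1 := by omega
      rw [this, pow_succ', mul_assoc]
    rw [e, hL, hadd, hL, ← d_formula hadd h0 hL x y c hc, pow_succ, ih, pow_succ, pow_succ]
    group

end model

end PPaux

theorem mul_pow_of_unipotent {E : Type*} [Group E] (p : ℕ) [Fact p.Prime]
    (W : Subgroup E) [W.Normal] (hWc : ∀ a ∈ W, ∀ b ∈ W, a * b = b * a)
    (hWp : ∀ a ∈ W, a ^ p = 1) (x : E) (n : ℕ) (hn : n + 1 ≤ p)
    (hx : ∀ w ∈ W, (fun y => x * y * x⁻¹ * y⁻¹)^[n] w = 1) (w : E) (hw : w ∈ W) :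
    (x * w) ^ p = x ^ p := by
  obtain ⟨V, _, _, f, L, h0, hadd, hf, hsurj, hinj, hL⟩ := PPaux.exists_model p W hWc hWp
  obtain ⟨v, rfl⟩ := hsurj w hw
  have hu := PPaux.L_unip h0 hadd hf hinj hL x n hx
  rw [PPaux.mul_pow_formula hadd h0 hL, PPaux.geom_char, pow_eq_zero_of_le (by omega : n ≤ p - 1) hu]
  simp [h0]

theorem mul_pow_of_comm_mod {E : Type*} [Group E] (p : ℕ) [Fact p.Prime]
    (W : Subgroup E) [W.Normal] (hWc : ∀ a ∈ W, ∀ b ∈ W, a * b = b * a)
    (hWp : ∀ a ∈ W, a ^ p = 1) (x y : E) (hxy : x * y * x⁻¹ * y⁻¹ ∈ W)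
    (m n : ℕ) (hmn : m + n + 1 ≤ p)
    (hx : ∀ w ∈ W, (fun z => x * z * x⁻¹ * z⁻¹)^[m] w = 1)
    (hy : ∀ w ∈ W, (fun z => y * z * y⁻¹ * z⁻¹)^[n] w = 1) :
    (x * y) ^ p = x ^ p * y ^ p := by
  obtain ⟨V, _, _, f, L, h0, hadd, hf, hsurj, hinj, hL⟩ := PPaux.exists_model p W hWc hWp
  have hcW : y⁻¹ * x⁻¹ * y * x ∈ W := by
    have h := Subgroup.Normal.conj_mem (inferInstance : W.Normal) _ (W.inv_mem hxy) ((x * y)⁻¹)
    have e : (x * y)⁻¹ * (x * y * x⁻¹ * y⁻¹)⁻¹ * ((x * y)⁻¹)⁻¹ = y⁻¹ * x⁻¹ * y * x := by group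
    rwa [e] at h
  obtain ⟨c, hc⟩ := hsurj _ hcW
  have hux := PPaux.L_inv_unip hinj hL x m (PPaux.L_unip h0 hadd hf hinj hL x m hx)
  have huy := PPaux.L_inv_unip hinj hL y n (PPaux.L_unip h0 hadd hf hinj hL y n hy)
  have hUT : L x⁻¹ * L y⁻¹ = L y⁻¹ * L x⁻¹ := by
    have e : x⁻¹ * y⁻¹ = y⁻¹ * x⁻¹ * (x * y * x⁻¹ * y⁻¹) := by group
    rw [← PPaux.L_mul hinj hL, e, PPaux.L_mul hinj hL, PPaux.L_mem hWc hf hinj hL _ hxy, mul_one,
      PPaux.L_mul hinj hL]
  rw [PPaux.w_formula hadd h0 hL x y c hUT hc, PPaux.two_var_zero' p _ _ hUT m n hmn hux huy]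
  simp [h0]

end Ch4
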