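import Mathlib
import Pool.Agent.Lib.P4ba0d5.ModSetup

/-! Splitting of an extension of `L` by `L` as modules for the group generated by root elements. -/

set_option linter.unusedSectionVars false
set_option linter.unusedVariables false

namespace Ch4

open Module

variable {ι X Y : Type*} [Finite ι] [AddCommGroup X] [Module ℚ X] [AddCommGroup Y] [Module ℚ Y]
  {P : RootPairing ι ℚ X Y} [P.IsRootSystem] [P.IsCrystallographic] [P.IsReduced]
  {b : P.Base} {f : ι → ℤ} {D : ℤ} {p : ℕ} [Fact p.Prime]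
  {L : Type*} [LieRing L] [LieAlgebra (ZMod p) L]

namespace ModSetup

variable {B : ChevalleyBasis b (ZMod p) L} {G W : Type*} [Group G] [AddCommGroup W]
    [Module (ZMod p) W] (S : ModSetup B G W)


section Final

theorem nonempty_ι [P.IsIrreducible] : Nonempty ι := by
  by_contra h
  rw [not_nonempty_iff] at h
  have h1 : (⊤ : Submodule ℚ X) = ⊥ := by
    rw [← RootPairing.IsRootSystem.span_root_eq_top (P := P), Set.range_eq_empty,
      Submodule.span_empty]
  have := RootPairing.IsIrreducible.nontrivial P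
  exact absurd h1 top_ne_bot

theorem opExp_mem {V : Submodule (ZMod p) W} {A : Module.End (ZMod p) W}
    (hA : ∀ v ∈ V, A v ∈ V) {v : W} (hv : v ∈ V) : opExp p 8 A v ∈ V := by
  have hpow : ∀ k : ℕ, ∀ v ∈ V, (A ^ k) v ∈ V := by
    intro k
    induction k with
    | zero => intro v hv; simpa using hv
    | succ k ih => intro v hv; rw [pow_succ, Module.End.mul_apply]; exact ih _ (hA v hv)
  simp only [opExp, LinearMap.sum_apply, LinearMap.smul_apply]
  exact V.sum_mem fun k _ => V.smul_mem _ (hpow k v hv)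

theorem σ_x_mem (hG : Good b f D p) {V : Submodule (ZMod p) W} {α : ι}
    (hA : ∀ v ∈ V, S.Xo α v ∈ V) {h : G} {t : ZMod p} (hh : S.ρ h = B.x α t) {v : W} (hv : v ∈ V) :
    S.σ h v ∈ V := by
  rw [S.σ_of_x (hp8 hG) hG.isUnit720 hh]
  exact opExp_mem (fun v hv => by
    rw [LinearMap.smul_apply]; exact V.smul_mem _ (hA v hv)) hv

/-- stability under the whole group -/
theorem stable (hG : Good b f D p) (V : Submodule (ZMod p) W)
    (hV : ∀ i ∈ b.support, ∀ v ∈ V, S.Xo i v ∈ V ∧ S.Xo (ng P i) v ∈ V) :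
    (∀ α, ∀ v ∈ V, S.Xo α v ∈ V) ∧ ∀ g, ∀ v ∈ V, S.σ g v ∈ V := by
  have h7 := hG.isUnit720
  -- stability under `n_j`, `j` simple, and inverses
  have hn : ∀ j ∈ b.support, ∀ v ∈ V, S.σ (S.gn j) v ∈ V ∧ S.σ (S.gn j)⁻¹ v ∈ V := by
    intro j hj v hv
    have h1 : ∀ v ∈ V, S.σ (S.gx j) v ∈ V := fun v hv =>
      S.σ_x_mem hG (fun v hv => (hV j hj v hv).1) (S.ρ_gx j) hv
    have h1' : ∀ v ∈ V, S.σ (S.gx j)⁻¹ v ∈ V := fun v hv =>
      S.σ_x_mem hG (fun v hv => (hV j hj v hv).1) (S.ρ_inv_gx h7 j) hv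
    have h2 : ∀ v ∈ V, S.σ (S.gx (ng P j)) v ∈ V := fun v hv =>
      S.σ_x_mem hG (fun v hv => (hV j hj v hv).2) (S.ρ_gx _) hv
    have h2' : ∀ v ∈ V, S.σ (S.gx (ng P j))⁻¹ v ∈ V := fun v hv =>
      S.σ_x_mem hG (fun v hv => (hV j hj v hv).2) (S.ρ_inv_gx h7 _) hv
    constructor
    · rw [gn, map_mul, map_mul, Module.End.mul_apply, Module.End.mul_apply]
      exact h1 _ (h2' _ (h1 _ hv))
    · rw [gn, mul_inv_rev, mul_inv_rev, inv_inv, map_mul, map_mul, Module.End.mul_apply,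
        Module.End.mul_apply]
      exact h1' _ (h2 _ (h1' _ hv))
  -- transport
  have htr : ∀ α, (∀ v ∈ V, S.Xo α v ∈ V) → ∀ j ∈ b.support,
      ∀ v ∈ V, S.Xo (P.reflectionPerm j α) v ∈ V := by
    intro α hα j hj v hv
    obtain ⟨c, hc0, hc⟩ := B.nel_e hG j α
    have hlie : ∀ x y, B.nel j ⁅x, y⁆ = ⁅B.nel j x, B.nel j y⁆ := fun x y => by
      rw [← S.ρ_gn h7 j]
      exact B.elem_lie h7 (S.hρ _) x y
    have h1 := S.σ_Xo (hp8 hG) h7 (α := α) (β := P.reflectionPerm j α) (t := c) (S.gn j) (by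
      rw [S.ρ_gn h7]
      have h1 := mul_expNil_ad (B.nel j) hlie ((1 : ZMod p) • B.e α)
      rw [one_smul, hc] at h1
      rw [ChevalleyBasis.x, one_smul, h1]
      rfl)
    have h2 := congrArg (fun A : Module.End (ZMod p) W => A (S.σ (S.gn j)⁻¹ v)) h1
    simp only [Module.End.mul_apply, LinearMap.smul_apply] at h2
    have h3 : S.σ (S.gn j) (S.σ (S.gn j)⁻¹ v) = v := by
      rw [← Module.End.mul_apply, S.σ_mul_inv]; rfl
    rw [h3] at h2
    have h4 : S.Xo (P.reflectionPerm j α) v =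
        c⁻¹ • S.σ (S.gn j) (S.Xo α (S.σ (S.gn j)⁻¹ v)) := by
      rw [h2, smul_smul, inv_mul_cancel₀ hc0, one_smul]
    rw [h4]
    exact V.smul_mem _ (hn j hj _ (hα _ (hn j hj v hv).2)).1
  have hall : ∀ α, (∀ v ∈ V, S.Xo α v ∈ V) ∧ (∀ v ∈ V, S.Xo (ng P α) v ∈ V) := by
    intro α
    refine b.induction_reflect (p := fun α => (∀ v ∈ V, S.Xo α v ∈ V) ∧
      (∀ v ∈ V, S.Xo (ng P α) v ∈ V)) α ?_ ?_ ?_
    · intro i hi
      refine ⟨hi.2, ?_⟩
      rw [show P.reflectionPerm i i = ng P i from rfl, ng_ng]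
      exact hi.1
    · intro i hi
      exact ⟨fun v hv => (hV i hi v hv).1, fun v hv => (hV i hi v hv).2⟩
    · intro i j hi hj
      refine ⟨htr i hi.1 j hj, ?_⟩
      have : ng P (P.reflectionPerm j i) = P.reflectionPerm j (ng P i) := by
        apply P.root.injective
        rw [root_ng, P.root_reflectionPerm, P.root_reflectionPerm, root_ng, map_neg]
      rw [this]
      exact htr _ hi.2 j hj
  refine ⟨fun α => (hall α).1, ?_⟩
  have key : ∀ A ∈ B.elem, ∀ g, S.ρ g = A → ∀ v ∈ V, S.σ g v ∈ V := by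
    intro A hA
    induction hA using Submonoid.closure_induction with
    | mem A hA =>
      obtain ⟨⟨α, t⟩, rfl⟩ := hA
      intro g hg v hv
      exact S.σ_x_mem hG (hall α).1 hg hv
    | one =>
      intro g hg v hv
      rw [S.hker g hg]; exact hv
    | mul A₁ A₂ hA₁ hA₂ ih₁ ih₂ =>
      intro g hg v hv
      obtain ⟨g₁, h₁⟩ := S.exists_ρ_eq h7 hA₁
      obtain ⟨g₂, h₂⟩ := S.exists_ρ_eq h7 hA₂
      have : S.σ g = S.σ (g₁ * g₂) := S.σ_eq (by rw [hg, map_mul, h₁, h₂])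
      rw [this, map_mul, Module.End.mul_apply]
      exact ih₁ g₁ h₁ _ (ih₂ g₂ h₂ v hv)
  exact fun g v hv => key _ (S.hρ g) g rfl v hv

/-- The submodule generated by the highest weight vector is a complement of `i L`. -/
theorem exists_compl [P.IsIrreducible] (T : Tau S f) (hG : Good b f D p) (v0 : W)
    (hπv0 : S.π v0 = B.e T.θ)
    (hv0 : T.t v0 = ((T.l ^ (f T.θ) : (ZMod p)ˣ) : ZMod p) • v0) :
    ∃ V : Submodule (ZMod p) W, v0 ∈ V ∧ (∀ g, ∀ v ∈ V, S.σ g v ∈ V) ∧
      (∀ x, S.i x ∈ V → x = 0) ∧ (∀ x : L, ∃ v ∈ V, S.π v = x) := by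
  have h7 := hG.isUnit720
  obtain ⟨V, hV1, hV2, hV3⟩ := S.exists_V T hG v0 hv0
  obtain ⟨-, hV4⟩ := S.stable hG V hV2
  have hθne : B.e T.θ ≠ 0 := B.basis.ne_zero _
  have hxg : ∀ α t, ∃ g, S.ρ g = B.x α t := fun α t => S.exists_ρ_eq h7 (B.x_mem α t)
  refine ⟨V, hV1, hV4, ?_, ?_⟩
  · have h1 := B.irred hG (V.comap S.i) (fun α t v hv => by
      obtain ⟨g, hg⟩ := hxg α t
      rw [Submodule.mem_comap, ← hg, ← S.hiG]
      exact hV4 g _ hv)
    rcases h1 with h1 | h1
    · intro x hx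
      have : x ∈ V.comap S.i := hx
      rwa [h1, Submodule.mem_bot] at this
    · exfalso
      have h2 : S.i (B.e T.θ) ∈ V := by
        have : B.e T.θ ∈ V.comap S.i := by rw [h1]; trivial
        exact this
      have h3 := hV3 _ h2 (by
        rw [Tau.t, S.hiG, show B.e T.θ = B.basis (.inr T.θ) from rfl, T.hρ, map_smul]; rfl)
      obtain ⟨c, hc⟩ := Submodule.mem_span_singleton.1 h3
      have h4 := congrArg S.π hc
      rw [map_smul, hπv0, S.πi, smul_eq_zero] at h4
      rcases h4 with h4 | h4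
      · rw [h4, zero_smul] at hc
        have h5 : S.i (B.e T.θ) = S.i 0 := by rw [← hc, map_zero]
        exact hθne (S.hi h5)
      · exact hθne h4
  · have h1 := B.irred hG (V.map S.π) (fun α t v hv => by
      obtain ⟨g, hg⟩ := hxg α t
      obtain ⟨w, hw, rfl⟩ := hv
      rw [← hg, ← S.hπG]
      exact ⟨_, hV4 g _ hw, rfl⟩)
    rcases h1 with h1 | h1
    · exfalso
      have h2 : B.e T.θ ∈ V.map S.π := ⟨v0, hV1, hπv0⟩
      rw [h1, Submodule.mem_bot] at h2
      exact hθne h2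
    · intro x
      have : x ∈ V.map S.π := by rw [h1]; trivial
      obtain ⟨v, hv, hvx⟩ := this
      exact ⟨v, hv, hvx⟩

end Final

end ModSetup

namespace ChevalleyBasis

variable (B : ChevalleyBasis b (ZMod p) L)

theorem N_ne_zero (hG : Good b f D p) {α δ κ : ι} (h : P.root κ = P.root α + P.root δ) :
    (B.N α δ : ZMod p) ≠ 0 := by
  have h1 := B.abs_N α δ ⟨κ, h⟩
  have h2 := RootPairing.chainBotCoeff_add_chainTopCoeff_le_three (P := P) (i := α) (j := δ)
  have h3 := hG.lt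
  apply intCast_ne_zero_of_lt
  · intro h0
    rw [h0] at h1
    simp at h1
    omega
  · rw [h1]
    have : (P.chainBotCoeff α δ : ℤ) ≤ 3 := by exact_mod_cast (by omega : P.chainBotCoeff α δ ≤ 3)
    omega

theorem x_e_add (hG : Good b f D p) {α δ κ : ι} (h : P.root κ = P.root α + P.root δ)
    (h2 : 2 • P.root α + P.root δ ∉ Set.range P.root) :
    B.x α 1 (B.e δ) = B.e δ + (B.N α δ : ZMod p) • B.e κ := by
  obtain ⟨u, hu, he⟩ := exists_inv6 (ZMod p) hG.isUnit720
  have e1 : ⁅B.e α, B.e δ⁆ = (B.N α δ : ZMod p) • B.e κ := B.lie_e_e α δ κ h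
  have e2 : ⁅B.e α, B.e κ⁆ = 0 := by
    apply B.lie_e_e_zero
    · intro h0
      rw [h, ← add_assoc, ← two_smul ℕ, add_eq_zero_iff_eq_neg, ← root_ng] at h0
      have : IsAddTorsionFree X := .of_module_rat X
      exact P.nsmul_notMem_range_root (n := 2) (i := α) ⟨_, h0.symm⟩
    · rw [h, ← add_assoc, ← two_smul ℕ]
      exact h2
  rw [ChevalleyBasis.x, he, E4_apply, one_smul, LieAlgebra.ad_apply, LieAlgebra.ad_apply, e1,
    lie_smul, e2, smul_zero]
  simp

theorem splitMod [P.IsIrreducible] (hG : Good b f D p) {G : Type*} [Group G]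
    (ρ : G →* Module.End (ZMod p) L) (hρ : ∀ g, ρ g ∈ B.elem) (hx : ∀ α, ∃ g, ρ g = B.x α 1)
    {W : Type*} [AddCommGroup W] [Module (ZMod p) W] [Finite W]
    (σ : G →* Module.End (ZMod p) W) (hker : ∀ g, ρ g = 1 → σ g = 1)
    (i : L →ₗ[ZMod p] W) (π : W →ₗ[ZMod p] L) (hi : Function.Injective i)
    (hπ : Function.Surjective π) (hex : ∀ w, π w = 0 ↔ ∃ x, i x = w)
    (hiG : ∀ g x, σ g (i x) = i (ρ g x)) (hπG : ∀ g w, π (σ g w) = ρ g (π w))
    (eh : ι → W) (heh : ∀ α, π (eh α) = B.e α)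
    (hconj : ∀ g α β (c : ZMod p), ρ g (B.e α) = c • B.e β → σ g (eh α) = c • eh β)
    (hii : ∀ α δ κ g, P.root κ = P.root α + P.root δ →
      2 • P.root α + P.root δ ∉ Set.range P.root → P.root α + 2 • P.root δ ∉ Set.range P.root →
      ρ g = B.x α 1 → σ g (eh δ) = eh δ + (B.N α δ : ZMod p) • eh κ) :
    ∃ V : Submodule (ZMod p) W, (∀ g, ∀ v ∈ V, σ g v ∈ V) ∧ (∀ x, i x ∈ V → x = 0) ∧
      (∀ w, ∃ v ∈ V, ∃ x, w = v + i x) ∧ ∀ α, eh α ∈ V := by
  classical
  have h7 := hG.isUnit720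
  have : Nonempty ι := ModSetup.nonempty_ι (P := P)
  let S : ModSetup B G W :=
    { ρ := ρ, hρ := hρ, hx := hx, σ := σ, hker := hker, i := i, π := π, hi := hi, hπ := hπ,
      hex := hex, hiG := hiG, hπG := hπG }
  obtain ⟨T⟩ := S.exists_tau hG
  obtain ⟨V, hVθ, hVG, hV0, hVs⟩ := S.exists_compl T hG (eh T.θ) (heh _) (by
    apply hconj
    exact T.hρ (.inr T.θ))
  have hVG' : ∀ g, ∀ v ∈ V, σ g v ∈ V := hVG
  have hV0' : ∀ x, i x ∈ V → x = 0 := hV0
  choose s hsV hsπ using hVs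
  have hsπ' : ∀ x, π (s x) = x := hsπ
  -- uniqueness in `V`
  have huniq : ∀ v ∈ V, ∀ x, π v = x → v = s x := by
    intro v hv x hx
    have h1 : π (v - s x) = 0 := by rw [map_sub, hx, hsπ', sub_self]
    obtain ⟨y, hy⟩ := (hex _).1 h1
    have h2 : y = 0 := hV0' y (by rw [hy]; exact V.sub_mem hv (hsV x))
    rw [h2, map_zero] at hy
    exact (sub_eq_zero.1 hy.symm)
  have hs_smul : ∀ (c : ZMod p) x, s (c • x) = c • s x := by
    intro c x
    refine (huniq _ (V.smul_mem c (hsV x)) _ ?_).symm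
    rw [map_smul, hsπ']
  have hs_add : ∀ x y, s (x + y) = s x + s y := by
    intro x y
    refine (huniq _ (V.add_mem (hsV x) (hsV y)) _ ?_).symm
    rw [map_add, hsπ', hsπ']
  have hs_G : ∀ g x, σ g (s x) = s (ρ g x) := by
    intro g x
    refine huniq _ (hVG' g _ (hsV x)) _ ?_
    rw [hπG, hsπ']
  -- the defect
  have hz : ∀ α, ∃ z, i z = eh α - s (B.e α) := by
    intro α
    refine (hex _).1 ?_
    rw [map_sub, heh, hsπ', sub_self]
  choose z hz using hz
  have hzc : ∀ α, ∃ c : ZMod p, z α = c • B.e α := by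
    intro α
    have h1 : ρ T.g (B.e α) = ((T.l ^ (f α) : (ZMod p)ˣ) : ZMod p) • B.e α := T.hρ (.inr α)
    have h2 : ρ T.g (z α) = ((T.l ^ (f α) : (ZMod p)ˣ) : ZMod p) • z α := by
      apply hi
      rw [← hiG, hz, map_sub, hconj _ _ _ _ h1, hs_G, h1, hs_smul, map_smul, hz, smul_sub]
    have h3 : ∀ u : b.support ⊕ ι, wt f u ≠ f α → B.basis.repr (z α) u = 0 := by
      intro u hu
      refine T.repr_eq_zero ?_ h2 u hu
      have := T.hθ α
      have := T.hθ0
      linarith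
    have : Fintype ι := Fintype.ofFinite ι
    refine ⟨B.basis.repr (z α) (.inr α), ?_⟩
    conv_lhs => rw [← B.basis.sum_repr (z α)]
    rw [Finset.sum_eq_single (.inr α)]
    · intro u _ hu
      rw [h3 u, zero_smul]
      intro hw
      rcases u with j | γ
      · simp only [wt_inl] at hw; exact hG.ne α hw.symm
      · simp only [wt_inr] at hw; exact hu (by rw [hG.inj hw])
    · intro h; exact absurd (Finset.mem_univ _) h
  choose c hc using hzc
  have heq : ∀ α, eh α = s (B.e α) + c α • i (B.e α) := by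
    intro α
    rw [← map_smul, ← hc, hz]; abel
  have hine : ∀ α, i (B.e α) ≠ 0 := by
    intro α h
    have : i (B.e α) = i 0 := by rw [h, map_zero]
    exact B.basis.ne_zero _ (hi this)
  have hcθ : c T.θ = 0 := by
    have h1 := huniq _ hVθ _ (heh T.θ)
    have h2 := heq T.θ
    rw [← h1] at h2
    have h3 : c T.θ • i (B.e T.θ) = 0 := by
      have := h2.symm
      rwa [add_eq_left] at this
    exact (smul_eq_zero.1 h3).resolve_right (hine _)
  have hconst := const_of_conn (P := P) c (fun α β => by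
    obtain ⟨k, hk0, hk⟩ := B.nel_e hG α β
    have hgn : ρ (S.gn α) = B.nel α := S.ρ_gn h7 α
    have h1 : σ (S.gn α) (eh β) = k • eh (P.reflectionPerm α β) := hconj _ _ _ _ (by rw [hgn, hk])
    rw [heq, heq, map_add, map_smul, hs_G, hiG, hgn, hk, hs_smul, smul_add, map_smul] at h1
    have h2 := add_left_cancel h1
    rw [smul_smul, smul_smul, ← sub_eq_zero, ← sub_smul, smul_eq_zero] at h2
    have h3 := h2.resolve_right (hine _)
    rw [mul_comm, ← mul_sub, mul_eq_zero] at h3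
    exact (sub_eq_zero.1 (h3.resolve_left hk0)).symm)
    (fun α δ κ hκ ha hb => by
      obtain ⟨g, hg⟩ := hx α
      have hN := B.N_ne_zero hG hκ
      have h1 := hii α δ κ g hκ ha hb hg
      have h2 := B.x_e_add hG hκ ha
      rw [heq δ, heq κ, map_add, map_smul, hs_G, hiG, hg, h2, hs_add, hs_smul, map_add,
        map_smul] at h1
      have h3 : ((B.N α δ : ZMod p) * (c δ - c κ)) • i (B.e κ) = 0 := by
        linear_combination (norm := module) h1
      have h4 := (mul_eq_zero.1 ((smul_eq_zero.1 h3).resolve_right (hine _))).resolve_left hN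
      exact (sub_eq_zero.1 h4).symm)
  refine ⟨V, hVG', hV0', ?_, ?_⟩
  · intro w
    refine ⟨s (π w), hsV _, ?_⟩
    have h1 : π (w - s (π w)) = 0 := by rw [map_sub, hsπ', sub_self]
    obtain ⟨x, hx⟩ := (hex _).1 h1
    exact ⟨x, by rw [hx]; abel⟩
  · intro α
    rw [heq, hconst α T.θ, hcθ, zero_smul, add_zero]
    exact hsV _

end ChevalleyBasis

end Ch4
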