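import Mathlib

/-! Gaschütz' theorem: an abelian normal subgroup which is complemented in a subgroup of index
prime to its order is complemented. -/

namespace Ch4

/-- Corestriction of a crossed homomorphism from a subgroup of coprime index. -/
theorem gaschutz_aux {E A : Type*} [Group E] [Finite E] [CommGroup A] (ι : A →* E)
    (c : E →* MulAut A) (hcv : ∀ g a, ι (c g a) = g * ι a * g⁻¹) (hι : Function.Injective ι)
    (B : Subgroup E) (hAB : ∀ a, ι a ∈ B) (d : E → A)
    (hdmul : ∀ b ∈ B, ∀ b' ∈ B, d (b * b') = d b * c b (d b')) (hdA : ∀ a, d (ι a) = a)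
    (hcop : Nat.Coprime (Nat.card A) B.index) :
    ∃ D : E → A, (∀ g g', D (g * g') = D g * c g (D g')) ∧ ∀ a, D (ι a) = a := by
  classical
  have _ : Fintype (E ⧸ B) := Fintype.ofFinite _
  have hc1 : ∀ (g h : E) (a : A), c (g * h) a = c g (c h a) := fun g h a => by
    rw [map_mul]; rfl
  -- extension to `E`
  obtain ⟨F, hF⟩ : ∃ F : E → A, ∀ x : E, ∀ b ∈ B, F (x * b) = F x * c x (d b) := by
    refine ⟨fun x => c (x : E ⧸ B).out (d ((x : E ⧸ B).out⁻¹ * x)), fun x b hb => ?_⟩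
    have e1 : ((x * b : E) : E ⧸ B) = (x : E ⧸ B) := QuotientGroup.mk_mul_of_mem x hb
    have hout : (x : E ⧸ B).out⁻¹ * x ∈ B := by
      rw [← QuotientGroup.eq, QuotientGroup.out_eq']
    beta_reduce
    rw [e1, ← mul_assoc, hdmul _ hout _ hb, map_mul, ← hc1, mul_inv_cancel_left]
  have hout : ∀ x : E, (x : E ⧸ B).out⁻¹ * x ∈ B := by
    intro x
    rw [← QuotientGroup.eq, QuotientGroup.out_eq']
  obtain ⟨φ, hφdef⟩ : ∃ φ : E → E → A, ∀ g x, φ g x = F (g * x) * (c g (F x))⁻¹ :=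
    ⟨_, fun _ _ => rfl⟩
  have hφ : ∀ g x : E, ∀ b ∈ B, φ g (x * b) = φ g x := by
    intro g x b hb
    rw [hφdef, hφdef, ← mul_assoc, hF _ b hb, hF _ b hb, map_mul (c g), ← hc1, mul_inv,
      mul_mul_mul_comm, mul_inv_cancel, mul_one]
  have hφout : ∀ g x : E, φ g (x : E ⧸ B).out = φ g x := by
    intro g x
    have := hφ g (x : E ⧸ B).out _ (hout x)
    rw [mul_inv_cancel_left] at this
    exact this.symm
  have hφmul : ∀ g g' x : E, φ (g * g') x = φ g (g' * x) * c g (φ g' x) := by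
    intro g g' x
    rw [hφdef, hφdef, hφdef, map_mul (c g), map_inv (c g), hc1]
    simp only [mul_assoc, inv_mul_cancel_left]
  obtain ⟨D, hD⟩ : ∃ D : E → A, ∀ g, D g = ∏ y : E ⧸ B, φ g y.out := ⟨_, fun _ => rfl⟩
  have hDmul : ∀ g g' : E, D (g * g') = D g * c g (D g') := by
    intro g g'
    rw [hD, hD, hD, map_prod, ← Equiv.prod_comp (MulAction.toPerm g' : Equiv.Perm (E ⧸ B))
      (fun y => φ g y.out), ← Finset.prod_mul_distrib]
    refine Finset.prod_congr rfl fun y _ => ?_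
    rw [hφmul]
    congr 1
    rw [MulAction.toPerm_apply]
    have : g' • y = ((g' * y.out : E) : E ⧸ B) := by
      conv_lhs => rw [← QuotientGroup.out_eq' y]
      rfl
    rw [this, hφout]
  have hDA : ∀ a : A, D (ι a) = a ^ B.index := by
    intro a
    have key : ∀ x : E, φ (ι a) x = a := by
      intro x
      have e1 : ι a * x = x * ι (c x⁻¹ a) := by
        rw [hcv]; group
      have e3 : c x (c x⁻¹ a) = a := by
        rw [← hc1, mul_inv_cancel, map_one]; rfl
      have e4 : c (ι a) (F x) = F x := by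
        apply hι
        rw [hcv, ← map_mul, mul_comm, map_mul, mul_inv_cancel_right]
      rw [hφdef, e1, hF _ _ (hAB _), hdA, e3, e4, mul_comm (F x) a, mul_inv_cancel_right]
    rw [hD, Finset.prod_congr rfl fun y _ => key y.out, Finset.prod_const, Finset.card_univ,
      ← Nat.card_eq_fintype_card]
    rfl
  refine ⟨fun g => D g ^ (Nat.gcdB (Nat.card A) B.index), fun g g' => ?_, fun a => ?_⟩
  · beta_reduce
    rw [hDmul, mul_zpow, map_zpow]
  · beta_reduce
    rw [hDA]
    exact (powCoprime hcop).left_inv a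

theorem gaschutz {E : Type*} [Group E] [Finite E] (A B : Subgroup E) [A.Normal]
    (hcomm : ∀ a ∈ A, ∀ b ∈ A, a * b = b * a) (hAB : A ≤ B)
    (hcop : Nat.Coprime (Nat.card A) B.index)
    (H : Subgroup E) (h1 : H ⊓ A = ⊥) (h2 : H ⊔ A = B) :
    ∃ K : Subgroup E, K ⊓ A = ⊥ ∧ K ⊔ A = ⊤ := by
  classical
  have hnA : ∀ (g a : E), a ∈ A → g * a * g⁻¹ ∈ A := fun g a ha =>
    Subgroup.Normal.conj_mem inferInstance a ha g
  -- the crossed homomorphism on `B`
  have hex : ∀ b ∈ B, ∃ a : A, (a : E)⁻¹ * b ∈ H := by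
    intro b hb
    have hb' : b ∈ ((H ⊔ A : Subgroup E) : Set E) := by rw [h2]; exact hb
    rw [Subgroup.mul_normal] at hb'
    obtain ⟨h, hh, a, ha, rfl⟩ := hb'
    refine ⟨⟨h * a * h⁻¹, hnA h a ha⟩, ?_⟩
    have : (h * a * h⁻¹)⁻¹ * (h * a) = h := by group
    show (h * a * h⁻¹)⁻¹ * (h * a) ∈ H
    rw [this]; exact hh
  choose! d hd using hex
  have huniq : ∀ b : E, ∀ a a' : A, (a : E)⁻¹ * b ∈ H → (a' : E)⁻¹ * b ∈ H → a = a' := by
    intro b a a' ha ha'
    have h3 : (a : E)⁻¹ * a' ∈ H ⊓ A := by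
      refine ⟨?_, A.mul_mem (A.inv_mem a.2) a'.2⟩
      have := H.mul_mem ha (H.inv_mem ha')
      have e : (a : E)⁻¹ * b * ((a' : E)⁻¹ * b)⁻¹ = (a : E)⁻¹ * a' := by group
      rwa [e] at this
    rw [h1, Subgroup.mem_bot, inv_mul_eq_one] at h3
    exact Subtype.ext h3
  have hcv : ∀ (g : E) (a : A), ((MulAut.conjNormal g a : A) : E) = g * a * g⁻¹ := fun g a =>
    MulAut.conjNormal_apply g a
  obtain ⟨D, hDmul, hDA⟩ := @gaschutz_aux E A _ _
    { (inferInstance : Group A) with mul_comm := fun a b => Subtype.ext (hcomm a a.2 b b.2) }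
    A.subtype MulAut.conjNormal hcv A.subtype_injective B (fun a => hAB a.2) d (by
      intro b hb b' hb'
      refine huniq (b * b') _ _ (hd _ (B.mul_mem hb hb')) ?_
      have e1 : d b * MulAut.conjNormal b (d b') = MulAut.conjNormal b (d b') * d b :=
        Subtype.ext (hcomm _ (d b).2 _ (MulAut.conjNormal b (d b')).2)
      have e2 : (b * (d b' : E) * b⁻¹ * (d b : E))⁻¹ * (b * b') =
          ((d b : E)⁻¹ * b) * ((d b' : E)⁻¹ * b') := by group
      have e3 : ((d b * MulAut.conjNormal b (d b') : A) : E) = b * (d b' : E) * b⁻¹ * (d b : E) := by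
        rw [e1, Subgroup.coe_mul, hcv]
      show ((d b * MulAut.conjNormal b (d b') : A) : E)⁻¹ * (b * b') ∈ H
      rw [e3, e2]
      exact H.mul_mem (hd b hb) (hd b' hb')) (by
      intro a
      refine huniq a _ _ (hd a (hAB a.2)) ?_
      rw [inv_mul_cancel]; exact H.one_mem) hcop
  replace hDmul : ∀ g g', D (g * g') = D g * MulAut.conjNormal g (D g') := hDmul
  replace hDA : ∀ a : A, D a = a := hDA
  have hD1 : D 1 = 1 := hDA 1
  refine ⟨{ carrier := {g | D g = 1}
            one_mem' := hD1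
            mul_mem' := ?_
            inv_mem' := ?_ }, ?_, ?_⟩
  · intro g g' hg hg'
    replace hg : D g = 1 := hg
    replace hg' : D g' = 1 := hg'
    show D (g * g') = 1
    rw [hDmul, hg, hg', map_one, mul_one]
  · intro g hg
    replace hg : D g = 1 := hg
    show D g⁻¹ = 1
    have := hDmul g⁻¹ g
    rw [inv_mul_cancel, hD1, hg, map_one, mul_one] at this
    exact this.symm
  · rw [Subgroup.eq_bot_iff_forall]
    rintro x ⟨hx, hxA⟩
    have h3 : D x = 1 := hx
    have h4 : D x = ⟨x, hxA⟩ := hDA ⟨x, hxA⟩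
    rw [h3] at h4
    exact (congrArg Subtype.val h4).symm
  · rw [eq_top_iff]
    intro g _
    have h3 : D ((D g : E)⁻¹ * g) = 1 := by
      have e1 : ((D g : E)⁻¹ : E) = (((D g)⁻¹ : A) : E) := rfl
      rw [e1, hDmul, hDA]
      have e2 : MulAut.conjNormal (((D g)⁻¹ : A) : E) (D g) = D g := by
        apply Subtype.ext
        rw [hcv, hcomm _ ((D g)⁻¹).2 _ (D g).2, mul_inv_cancel_right]
      rw [e2, inv_mul_cancel]
    have e3 : g = (D g : E) * ((D g : E)⁻¹ * g) := by group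
    rw [e3]
    exact Subgroup.mul_mem _ (Subgroup.mem_sup_right (D g).2) (Subgroup.mem_sup_left h3)

end Ch4
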