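import Mathlib
import Pool.Agent.Lib.P4ba0d5.Base
import Pool.Agent.Lib.P4ba0d5.Good

/-! Module Peel: the filtered Lie algebra automorphisms `UF g k` and their factorisation into root
elements. -/

set_option linter.unusedSectionVars false
set_option linter.unusedVariables false

namespace Ch4

open Module

section Lie

variable {ι X Y : Type*} [Finite ι] [AddCommGroup X] [Module ℚ X] [AddCommGroup Y] [Module ℚ Y]
  {P : RootPairing ι ℚ X Y} [P.IsRootSystem] [P.IsCrystallographic] [P.IsReduced]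
  {b : P.Base} {f : ι → ℤ} {D : ℤ} {p : ℕ} [Fact p.Prime]

variable {L : Type*} [LieRing L] [LieAlgebra (ZMod p) L]

namespace ChevalleyBasis

variable (B : ChevalleyBasis b (ZMod p) L)

/-! ### Operators raising the weight -/

/-- `A` raises the `g`-weight by at least `k`. -/
def Rz (g : ι → ℤ) (k : ℤ) (A : Module.End (ZMod p) L) : Prop :=
  ∀ i, ∀ x ∈ B.Fil g i, A x ∈ B.Fil g (i + k)

variable {B} {g : ι → ℤ} {k l : ℤ} {A A' : Module.End (ZMod p) L}

theorem Rz.mono (hA : B.Rz g k A) (h : l ≤ k) : B.Rz g l A :=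
  fun i x hx => B.Fil_anti (by omega) (hA i x hx)

theorem Rz.add (hA : B.Rz g k A) (hA' : B.Rz g k A') : B.Rz g k (A + A') :=
  fun i x hx => Submodule.add_mem _ (hA i x hx) (hA' i x hx)

theorem Rz.sub (hA : B.Rz g k A) (hA' : B.Rz g k A') : B.Rz g k (A - A') :=
  fun i x hx => Submodule.sub_mem _ (hA i x hx) (hA' i x hx)

theorem Rz.smul (c : ZMod p) (hA : B.Rz g k A) : B.Rz g k (c • A) :=
  fun i x hx => Submodule.smul_mem _ _ (hA i x hx)

theorem Rz.mul (hA : B.Rz g k A) (hA' : B.Rz g l A') : B.Rz g (k + l) (A * A') := by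
  intro i x hx
  have := hA _ _ (hA' i x hx)
  rw [Module.End.mul_apply]
  exact B.Fil_anti (by omega) this

theorem Rz.pow (hA : B.Rz g k A) (n : ℕ) : B.Rz g (n * k) (A ^ n) := by
  induction n with
  | zero =>
    intro i x hx
    simpa using hx
  | succ n ih =>
    rw [pow_succ]
    have := ih.mul hA
    refine this.mono ?_
    push_cast
    linarith

theorem Rz_one : B.Rz g 0 (1 : Module.End (ZMod p) L) := by
  intro i x hx
  simpa using hx

theorem Rz_ad (hg : IsWt P g) {z : L} (hz : z ∈ B.Fil g k) :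
    B.Rz g k (LieAlgebra.ad (ZMod p) L z) := by
  intro i x hx
  rw [LieAlgebra.ad_apply]
  exact B.Fil_anti (by omega) (B.lie_mem_Fil hg hz hx)

theorem Rz_of_basis (h : ∀ u, A (B.basis u) ∈ B.Fil g (wt g u + k)) : B.Rz g k A := by
  have : Fintype ι := Fintype.ofFinite ι
  intro i x hx
  rw [← B.basis.sum_repr x, map_sum]
  refine Submodule.sum_mem _ fun u _ => ?_
  rw [map_smul]
  by_cases hu : wt g u < i
  · rw [hx u hu, zero_smul]
    exact Submodule.zero_mem _
  · exact Submodule.smul_mem _ _ (B.Fil_anti (by omega) (h u))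

theorem mem_UF_iff {T : Module.End (ZMod p) L} :
    T ∈ B.UF g k ↔ (∀ x y, T ⁅x, y⁆ = ⁅T x, T y⁆) ∧ B.Rz g k (T - 1) := by
  constructor
  · rintro ⟨h1, h2⟩
    exact ⟨h1, Rz_of_basis fun u => h2 u⟩
  · rintro ⟨h1, h2⟩
    exact ⟨h1, fun u => h2 _ _ (B.basis_mem_Fil g u)⟩

theorem UF_anti {T : Module.End (ZMod p) L} (h : l ≤ k) (hT : T ∈ B.UF g k) : T ∈ B.UF g l := by
  rw [mem_UF_iff] at hT ⊢
  exact ⟨hT.1, hT.2.mono h⟩

/-- an element of `UF g k`, `k ≥ 0`, preserves the filtration -/
theorem Rz_of_UF {T : Module.End (ZMod p) L} (hk : 0 ≤ k) (hT : T ∈ B.UF g k) : B.Rz g 0 T := by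
  have h1 := (mem_UF_iff.1 hT).2.mono hk
  have h2 : T = (T - 1) + 1 := by abel
  rw [h2]
  exact h1.add Rz_one

theorem UF_mul {g : ι → ℤ} (hg : IsWt P g) {S T : Module.End (ZMod p) L} {k : ℤ} (hk : 0 ≤ k)
    (hS : S ∈ B.UF g k) (hT : T ∈ B.UF g k) : S * T ∈ B.UF g k := by
  rw [mem_UF_iff]
  refine ⟨fun x y => ?_, ?_⟩
  · simp only [Module.End.mul_apply]
    rw [hT.1, hS.1]
  · have h1 : S * T - 1 = S * (T - 1) + (S - 1) := by
      rw [mul_sub, mul_one]; abel
    rw [h1]
    have h2 := (Rz_of_UF hk hS).mul (mem_UF_iff.1 hT).2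
    exact (h2.mono (by omega)).add (mem_UF_iff.1 hS).2

/-- the leading part of a commutator -/
theorem comm_sub_one {S S' T T' : Module.End (ZMod p) L} (h1 : S * S' = 1) (h2 : T * T' = 1) :
    S * T * S' * T' - 1 = ((S - 1) * (T - 1) - (T - 1) * (S - 1)) * (S' * T') := by
  have e1 : (S - 1) * (T - 1) - (T - 1) * (S - 1) = S * T - T * S := by
    noncomm_ring
  rw [e1, sub_mul]
  have e2 : T * S * (S' * T') = 1 := by
    rw [mul_assoc, ← mul_assoc S, h1, one_mul, h2]
  rw [e2]
  simp only [mul_assoc]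

theorem UF_comm {g : ι → ℤ} (hg : IsWt P g) {S S' T T' : Module.End (ZMod p) L} {k l : ℤ}
    (hk : 1 ≤ k) (hl : 1 ≤ l) (hS : S ∈ B.UF g k) (hT : T ∈ B.UF g l)
    (hS' : S' ∈ B.UF g k) (hT' : T' ∈ B.UF g l) (h1 : S * S' = 1) (h2 : T * T' = 1) :
    S * T * S' * T' ∈ B.UF g (k + l) := by
  rw [mem_UF_iff]
  refine ⟨fun x y => ?_, ?_⟩
  · simp only [Module.End.mul_apply]
    rw [hT'.1, hS'.1, hT.1, hS.1]
  · rw [comm_sub_one h1 h2]
    have e1 := (mem_UF_iff.1 hS).2.mul (mem_UF_iff.1 hT).2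
    have e2 := (mem_UF_iff.1 hT).2.mul (mem_UF_iff.1 hS).2
    have e3 := (Rz_of_UF (by omega) hS').mul (Rz_of_UF (by omega) hT')
    have e4 := (e1.sub (e2.mono (by omega))).mul e3
    exact e4.mono (by omega)

/-- first order expansion of a root element -/
theorem x_expand (hg : IsWt P g) (α : ι) (hα : 0 ≤ g α) (t : ZMod p) :
    B.Rz g (2 * g α) (B.x α t - 1 - t • LieAlgebra.ad (ZMod p) L (B.e α)) := by
  have hD : B.Rz g (g α) (LieAlgebra.ad (ZMod p) L (t • B.e α)) :=
    Rz_ad hg (Submodule.smul_mem _ _ (B.basis_mem_Fil g (.inr α)))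
  have h2 := (hD.pow 2).smul (Ring.inverse ((2 : ℕ).factorial : ZMod p))
  have h3 := (hD.pow 3).smul (Ring.inverse ((3 : ℕ).factorial : ZMod p))
  have e : B.x α t - 1 - t • LieAlgebra.ad (ZMod p) L (B.e α) =
      Ring.inverse ((2 : ℕ).factorial : ZMod p) • (LieAlgebra.ad (ZMod p) L (t • B.e α)) ^ 2 +
      Ring.inverse ((3 : ℕ).factorial : ZMod p) • (LieAlgebra.ad (ZMod p) L (t • B.e α)) ^ 3 := by
    rw [x, expNil, Finset.sum_range_succ, Finset.sum_range_succ, Finset.sum_range_succ,
      Finset.sum_range_succ, Finset.sum_range_zero]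
    simp only [Nat.factorial_zero, Nat.factorial_one, Nat.cast_one, Ring.inverse_one, one_smul,
      pow_zero, pow_one, zero_add, map_smul]
    abel
  rw [e]
  refine (h2.mono ?_).add (h3.mono ?_)
  · push_cast; linarith
  · push_cast; linarith

theorem x_mem_UF (hG : Good b f D p) {g : ι → ℤ} (hg : IsWt P g) (α : ι) (hα : 0 ≤ g α)
    (t : ZMod p) : B.x α t ∈ B.UF g (g α) := by
  rw [mem_UF_iff]
  refine ⟨B.x_lie hG.isUnit720 α t, ?_⟩
  have h1 := x_expand (B := B) hg α hα t
  have h2 : B.Rz g (g α) (t • LieAlgebra.ad (ZMod p) L (B.e α)) :=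
    (Rz_ad hg (B.basis_mem_Fil g (.inr α))).smul t
  have h3 := (h1.mono (by linarith)).add h2
  simpa using h3

theorem UF_top (hG : Good b f D p) {g : ι → ℤ} (hg : IsWt P g) {T : Module.End (ZMod p) L}
    {k : ℤ} (hk : ∀ α β, g α + g β < k) (hk0 : 0 < k) (hT : T ∈ B.UF g k) : T = 1 := by
  have h1 : ∀ β, g β < k := by
    intro β
    have := hk β β
    rcases le_or_gt (g β) 0 with h | h
    · omega
    · omega
  have h2 : ∀ β, - g β < k := by
    intro β
    rw [← hg.neg (root_ng P β)]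
    exact h1 _
  refine B.basis.ext fun u => ?_
  rw [Module.End.one_apply, ← sub_eq_zero]
  have h3 := hT.2 u
  rw [← B.basis.repr.map_eq_zero_iff]
  ext v
  refine h3 v ?_
  rcases u with i | α <;> rcases v with j | β
  · simpa using hk0
  · simpa using h1 β
  · have := h2 α
    simp only [wt_inl, wt_inr]
    omega
  · have := hk β (ng P α)
    rw [hg.neg (root_ng P α)] at this
    simp only [wt_inr]
    omega

/-! ### The grading element -/

theorem D_cast_ne (hG : Good b f D p) (α : ι) : (D : ZMod p) ≠ 0 := by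
  refine intCast_ne_zero_of_lt hG.D_ne ?_
  have h1 := hG.bound α
  have h2 : (0 : ℤ) ≤ |f α| := abs_nonneg _
  have h3 : (0 : ℤ) ≤ |D| := abs_nonneg _
  nlinarith

theorem exists_grading (hG : Good b f D p) {g : ι → ℤ} (hg : IsWt P g) :
    ∃ H : L, H ∈ B.Fil g 0 ∧ (∀ i : b.support, ⁅H, B.h i⁆ = 0) ∧
      ∀ α, ⁅H, B.e α⁆ = (g α : ZMod p) • B.e α := by
  rcases isEmpty_or_nonempty ι with hι | hι
  · exact ⟨0, Submodule.zero_mem _, fun i => by simp, fun α => hι.elim α⟩
  obtain ⟨α₀⟩ := hι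
  have hD := D_cast_ne hG α₀
  obtain ⟨m, hm⟩ := hG.solve g hg
  refine ⟨∑ i, ((D : ZMod p)⁻¹ * (m i : ZMod p)) • B.h i, ?_, fun i => B.lie_sum_h_h _ i,
    fun α => ?_⟩
  · refine Submodule.sum_mem _ fun i _ => Submodule.smul_mem _ _ ?_
    exact B.basis_mem_Fil g (.inl i)
  · rw [B.lie_sum_h]
    congr 1
    have h1 : ((∑ i, m i * P.pairingIn ℤ α i : ℤ) : ZMod p) = ((D * g α : ℤ) : ZMod p) := by
      rw [hm α]
    push_cast at h1
    simp only [mul_assoc]
    rw [← Finset.mul_sum, h1, ← mul_assoc, inv_mul_cancel₀ hD, one_mul]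

theorem lie_grading {H : L} (hH1 : ∀ i : b.support, ⁅H, B.h i⁆ = 0)
    (hH2 : ∀ α, ⁅H, B.e α⁆ = (g α : ZMod p) • B.e α) (u : b.support ⊕ ι) :
    ⁅H, B.basis u⁆ = (wt g u : ZMod p) • B.basis u := by
  rcases u with i | α
  · simpa using hH1 i
  · exact hH2 α

theorem repr_lie_grading {H : L} (hH1 : ∀ i : b.support, ⁅H, B.h i⁆ = 0)
    (hH2 : ∀ α, ⁅H, B.e α⁆ = (g α : ZMod p) • B.e α) (z : L) (v : b.support ⊕ ι) :
    B.basis.repr ⁅H, z⁆ v = (wt g v : ZMod p) * B.basis.repr z v := by
  classical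
  have : Fintype ι := Fintype.ofFinite ι
  conv_lhs => rw [← B.basis.sum_repr z]
  rw [_root_.lie_sum, map_sum, Finsupp.finsetSum_apply]
  rw [Finset.sum_eq_single v]
  · rw [lie_smul, lie_grading hH1 hH2, map_smul, map_smul, B.basis.repr_self]
    simp
    ring
  · intro u _ huv
    rw [lie_smul, lie_grading hH1 hH2, map_smul, map_smul, B.basis.repr_self]
    simp [huv]
  · intro h
    exact absurd (Finset.mem_univ v) h


/-- weights are small -/
theorem wt_cast_ne (hgb : ∀ α, 1000 * (|g α| + 1) * (|D| + 1) < p)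
    (u v : b.support ⊕ ι) (huv : wt g v ≠ wt g u) (hne : Nonempty ι) :
    ((wt g v - wt g u : ℤ) : ZMod p) ≠ 0 := by
  have h3 : (0 : ℤ) ≤ |D| := abs_nonneg _
  have hb : ∀ w : b.support ⊕ ι, 1000 * |wt g w| < p := by
    intro w
    rcases w with i | α
    · obtain ⟨α⟩ := hne
      have := hgb α
      have h2 : (0 : ℤ) ≤ |g α| := abs_nonneg _
      simp only [wt_inl, abs_zero]
      nlinarith
    · have := hgb α
      have h2 : (0 : ℤ) ≤ |g α| := abs_nonneg _
      simp only [wt_inr]
      nlinarith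
  refine intCast_ne_zero_of_lt (sub_ne_zero.2 huv) ?_
  have h1 := hb u
  have h2 := hb v
  have h4 : |wt g v - wt g u| ≤ |wt g v| + |wt g u| := abs_sub _ _
  have h5 : (0 : ℤ) ≤ |wt g u| := abs_nonneg _
  have h6 : (0 : ℤ) ≤ |wt g v| := abs_nonneg _
  omega

theorem peel_aux (hgb : ∀ α, 1000 * (|g α| + 1) * (|D| + 1) < p)
    {H : L} (hg : IsWt P g) (hH0 : H ∈ B.Fil g 0) (hH1 : ∀ i : b.support, ⁅H, B.h i⁆ = 0)
    (hH2 : ∀ α, ⁅H, B.e α⁆ = (g α : ZMod p) • B.e α)
    {T : Module.End (ZMod p) L} (hT : T ∈ B.UF g 1) (hk : 1 ≤ k) (hδ : T H - H ∈ B.Fil g k) :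
    T ∈ B.UF g k := by
  rcases isEmpty_or_nonempty ι with hι | hι
  · refine ⟨hT.1, fun u => ?_⟩
    intro v hv
    rcases u with i | α
    · exact hι.elim i
    · exact hι.elim α
  refine ⟨hT.1, fun u => ?_⟩
  set y := B.basis u with hy
  set z := T y - y with hz
  have hz1 : z ∈ B.Fil g (wt g u + 1) := hT.2 u
  have hTy : T y ∈ B.Fil g (wt g u) := by
    have : T y = z + y := by rw [hz]; abel
    rw [this]
    exact Submodule.add_mem _ (B.Fil_anti (by omega) hz1) (B.basis_mem_Fil g u)
  have h1 : (wt g u : ZMod p) • T y = ⁅T H, T y⁆ := by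
    rw [← hT.1, hy, lie_grading hH1 hH2, map_smul]
  have h2 : ⁅H, z⁆ - (wt g u : ZMod p) • z = -⁅T H - H, T y⁆ := by
    have e1 : ⁅H, y⁆ = (wt g u : ZMod p) • y := lie_grading hH1 hH2 u
    rw [sub_lie, ← h1, hz, lie_sub, e1, smul_sub]
    abel
  have h3 : ⁅H, z⁆ - (wt g u : ZMod p) • z ∈ B.Fil g (wt g u + k) := by
    rw [h2]
    exact Submodule.neg_mem _ (B.Fil_anti (by omega) (B.lie_mem_Fil hg hδ hTy))
  intro v hv
  have h4 := h3 v hv
  rw [map_sub, map_smul, Finsupp.sub_apply, Finsupp.smul_apply, repr_lie_grading hH1 hH2,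
    smul_eq_mul, ← sub_mul] at h4
  by_cases h5 : wt g v < wt g u + 1
  · exact hz1 v h5
  · have h6 := wt_cast_ne hgb u v (by omega) hι
    push_cast at h6
    exact (mul_eq_zero.1 h4).resolve_left h6

theorem x_grading (hG : Good b f D p) {H : L} (hH2 : ∀ α, ⁅H, B.e α⁆ = (g α : ZMod p) • B.e α)
    (α : ι) (t : ZMod p) : B.x α t H = H - (t * (g α : ZMod p)) • B.e α := by
  obtain ⟨u, hu, he⟩ := exists_inv6 (ZMod p) hG.isUnit720
  have e1 : (LieAlgebra.ad (ZMod p) L (t • B.e α)) H = -((t * (g α : ZMod p)) • B.e α) := by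
    rw [LieAlgebra.ad_apply, smul_lie, ← lie_skew, hH2, smul_neg, smul_smul]
  have e2 : (LieAlgebra.ad (ZMod p) L (t • B.e α)) (B.e α) = 0 := by
    rw [LieAlgebra.ad_apply, smul_lie, lie_self, smul_zero]
  rw [x, he, E4_apply, e1, map_neg, map_smul, e2]
  simp
  abel

/-- removing one coordinate -/
theorem peel_one (hG : Good b f D p) (hg : IsWt P g)
    {H : L} (hH0 : H ∈ B.Fil g 0) (hH2 : ∀ α, ⁅H, B.e α⁆ = (g α : ZMod p) • B.e α)
    {T : Module.End (ZMod p) L} (hk : 1 ≤ k) (hT : T ∈ B.UF g k) {ε : ι} (hε : g ε = k)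
    (t : ZMod p) : T * B.x ε t ∈ B.UF g k ∧
      (T * B.x ε t) H - H - (T H - H - (t * (k : ZMod p)) • B.e ε) ∈ B.Fil g (k + 1) := by
  have hx : B.x ε t ∈ B.UF g k := by
    have := x_mem_UF (B := B) hG hg ε (by omega) t
    rwa [hε] at this
  refine ⟨UF_mul hg (by omega) hT hx, ?_⟩
  have h1 : (T * B.x ε t) H - H - (T H - H - (t * (k : ZMod p)) • B.e ε) =
      -((t * (k : ZMod p)) • (T (B.e ε) - B.e ε)) := by
    rw [Module.End.mul_apply, x_grading hG hH2, map_sub, map_smul, hε, smul_sub]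
    abel
  rw [h1]
  refine Submodule.neg_mem _ (Submodule.smul_mem _ _ ?_)
  have := hT.2 (.inr ε)
  refine B.Fil_anti ?_ this
  simp only [wt_inr]
  omega

theorem sub_mem_Fil {H : L} (hH0 : H ∈ B.Fil g 0) {T : Module.End (ZMod p) L}
    (hT : T ∈ B.UF g k) : T H - H ∈ B.Fil g k := by
  have := (mem_UF_iff.1 hT).2 0 H hH0
  simpa using this

theorem k_cast_ne (hgb : ∀ α, 1000 * (|g α| + 1) * (|D| + 1) < p) {ε : ι} (hε : g ε = k)
    (hk : 1 ≤ k) : (k : ZMod p) ≠ 0 := by
  refine intCast_ne_zero_of_lt (by omega) ?_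
  have h3 : (0 : ℤ) ≤ |D| := abs_nonneg _
  have := hgb ε
  have h2 : (0 : ℤ) ≤ |g ε| := abs_nonneg _
  rw [← hε]
  nlinarith

theorem peel_step (hG : Good b f D p) {T : Module.End (ZMod p) L} {k : ℤ} (hk : 1 ≤ k)
    (hT : T ∈ B.UF f k) :
    ((∀ ε, f ε ≠ k) → T ∈ B.UF f (k + 1)) ∧
    (∀ ε, f ε = k → ∃ t : ZMod p, T * B.x ε t ∈ B.UF f (k + 1)) := by
  obtain ⟨H, hH0, hH1, hH2⟩ := exists_grading (B := B) hG hG.isWt
  refine ⟨fun h => ?_, fun ε hε => ?_⟩
  · refine peel_aux hG.bound hG.isWt hH0 hH1 hH2 (UF_anti hk hT) (by omega) ?_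
    intro v hv
    by_cases h1 : wt f v < k
    · exact sub_mem_Fil hH0 hT v h1
    · rcases v with i | α
      · simp only [wt_inl] at hv h1
        omega
      · simp only [wt_inr] at hv h1
        exact absurd (by omega) (h α)
  · have hk' := k_cast_ne hG.bound hε hk
    refine ⟨B.basis.repr (T H - H) (.inr ε) * (k : ZMod p)⁻¹, ?_⟩
    obtain ⟨h1, h2⟩ := peel_one (B := B) hG hG.isWt hH0 hH2 hk hT hε
      (B.basis.repr (T H - H) (.inr ε) * (k : ZMod p)⁻¹)
    refine peel_aux hG.bound hG.isWt hH0 hH1 hH2 (UF_anti hk h1) (by omega) ?_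
    intro v hv
    by_cases h3 : wt f v < k
    · exact sub_mem_Fil hH0 h1 v h3
    · have hv' : v = .inr ε := by
        rcases v with i | α
        · simp only [wt_inl] at hv h3
          omega
        · simp only [wt_inr] at hv h3
          have : f α = f ε := by omega
          rw [hG.inj this]
      have h4 := h2 v hv
      rw [map_sub, Finsupp.sub_apply, sub_eq_zero] at h4
      rw [h4, hv']
      rw [map_sub, Finsupp.sub_apply, map_smul, Finsupp.smul_apply, mul_assoc,
        inv_mul_cancel₀ hk', mul_one]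
      simp

theorem peel (hG : Good b f D p) {g : ι → ℤ} (hg : IsWt P g)
    (hgb : ∀ α, 1000 * (|g α| + 1) * (|D| + 1) < p) (hg0 : ∀ α, g α ≠ 0)
    (T : Module.End (ZMod p) L) (hT : T ∈ B.UF g 1) :
    T ∈ Submonoid.closure {S | ∃ α t, 0 < g α ∧ S = B.x α t} := by
  classical
  have : Fintype ι := Fintype.ofFinite ι
  obtain ⟨H, hH0, hH1, hH2⟩ := exists_grading (B := B) hG hg
  -- a bound for the weights
  obtain ⟨K, hK0, hK⟩ : ∃ K : ℤ, 0 < K ∧ ∀ α β, g α + g β < K := by
    refine ⟨2 * ∑ α, |g α| + 1, ?_, fun α β => ?_⟩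
    · have : 0 ≤ ∑ α, |g α| := Finset.sum_nonneg fun _ _ => abs_nonneg _
      omega
    · have h1 : |g α| ≤ ∑ α, |g α| :=
        Finset.single_le_sum (f := fun α => |g α|) (fun _ _ => abs_nonneg _) (Finset.mem_univ α)
      have h2 : |g β| ≤ ∑ α, |g α| :=
        Finset.single_le_sum (f := fun α => |g α|) (fun _ _ => abs_nonneg _) (Finset.mem_univ β)
      have h3 := le_abs_self (g α)
      have h4 := le_abs_self (g β)
      omega
  have key : ∀ n : ℕ, ∀ k : ℤ, 1 ≤ k → K ≤ k + n → ∀ T ∈ B.UF g k,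
      T ∈ Submonoid.closure {S | ∃ α t, 0 < g α ∧ S = B.x α t} := by
    intro n
    induction n with
    | zero =>
      intro k hk hKk T hT
      have : T = 1 := UF_top hG hg (fun α β => lt_of_lt_of_le (hK α β) (by simpa using hKk))
        (by omega) hT
      rw [this]
      exact one_mem _
    | succ n ih =>
      intro k hk hKk
      have inner : ∀ s : ℕ, ∀ T ∈ B.UF g k,
          (Finset.univ.filter fun α => g α = k ∧ B.basis.repr (T H - H) (.inr α) ≠ 0).card ≤ s →
          T ∈ Submonoid.closure {S | ∃ α t, 0 < g α ∧ S = B.x α t} := by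
        intro s
        induction s with
        | zero =>
          intro T hT hs
          refine ih (k + 1) (by omega) (by push_cast at hKk; omega) T ?_
          refine peel_aux hgb hg hH0 hH1 hH2 (UF_anti hk hT) (by omega) ?_
          intro v hv
          by_cases h1 : wt g v < k
          · exact sub_mem_Fil hH0 hT v h1
          · rcases v with i | α
            · simp only [wt_inl] at hv h1
              omega
            · simp only [wt_inr] at hv h1
              by_contra h2
              have h3 : α ∈ Finset.univ.filter fun α => g α = k ∧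
                  B.basis.repr (T H - H) (.inr α) ≠ 0 := by
                simp only [Finset.mem_filter, Finset.mem_univ, true_and]
                exact ⟨by omega, h2⟩
              have := Finset.card_pos.2 ⟨α, h3⟩
              omega
        | succ s ihs =>
          intro T hT hs
          by_cases hex : ∃ ε, g ε = k ∧ B.basis.repr (T H - H) (.inr ε) ≠ 0
          · obtain ⟨ε, hε, hε'⟩ := hex
            have hk' := k_cast_ne hgb hε hk
            set t := B.basis.repr (T H - H) (.inr ε) * (k : ZMod p)⁻¹ with ht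
            obtain ⟨h1, h2⟩ := peel_one (B := B) hG hg hH0 hH2 hk hT hε t
            have h3 : T * B.x ε t ∈ Submonoid.closure {S | ∃ α t, 0 < g α ∧ S = B.x α t} := by
              refine ihs _ h1 ?_
              have hsub : (Finset.univ.filter fun α => g α = k ∧
                  B.basis.repr ((T * B.x ε t) H - H) (.inr α) ≠ 0) ⊆
                  (Finset.univ.filter fun α => g α = k ∧
                    B.basis.repr (T H - H) (.inr α) ≠ 0).erase ε := by
                intro α hα
                simp only [Finset.mem_filter, Finset.mem_univ, true_and] at hα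
                have h4 := h2 (.inr α) (by simp only [wt_inr]; omega)
                rw [map_sub, Finsupp.sub_apply, sub_eq_zero] at h4
                rw [h4, map_sub, Finsupp.sub_apply, map_smul, Finsupp.smul_apply, ht, mul_assoc,
                  inv_mul_cancel₀ hk', mul_one, B.basis.repr_self] at hα
                simp only [Finset.mem_erase, Finset.mem_filter, Finset.mem_univ, true_and]
                have hne : α ≠ ε := by
                  rintro rfl
                  simp at hα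
                refine ⟨hne, hα.1, ?_⟩
                have h5 := hα.2
                rwa [Finsupp.single_apply, if_neg (by simpa using hne.symm), smul_zero,
                  sub_zero] at h5
              have h5 := Finset.card_le_card hsub
              rw [Finset.card_erase_of_mem (by
                simp only [Finset.mem_filter, Finset.mem_univ, true_and]
                exact ⟨hε, hε'⟩)] at h5
              omega
            have h4 : T = T * B.x ε t * B.x ε (-t) := by
              rw [mul_assoc, B.x_mul_neg hG.isUnit720, mul_one]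
            rw [h4]
            refine mul_mem h3 (Submonoid.subset_closure ⟨ε, -t, by omega, rfl⟩)
          · refine ihs T hT ?_
            rw [Finset.card_eq_zero.2]
            · exact Nat.zero_le _
            · rw [Finset.filter_eq_empty_iff]
              intro α _ hα
              exact hex ⟨α, hα⟩
      exact fun T hT => inner _ T hT le_rfl
  refine key (K - 1).toNat 1 le_rfl ?_ T hT
  have := Int.self_le_toNat (K - 1)
  omega

/-- leading term of the commutator of two positive root elements -/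
theorem comm_x (hG : Good b f D p) (α β γ : ι) (hα : 0 < f α) (hβ : 0 < f β)
    (hγ : P.root γ = P.root α + P.root β) :
    B.x α 1 * B.x β 1 * B.x α (-1) * B.x β (-1) * B.x γ (-(B.N α β : ZMod p)) ∈
      B.UF f (f γ + 1) := by
  have hfγ : f γ = f α + f β := hG.isWt.add hγ
  obtain ⟨H, hH0, hH1, hH2⟩ := exists_grading (B := B) hG hG.isWt
  set S := B.x α 1 with hS
  set T := B.x β 1 with hT
  set S' := B.x α (-1) with hS'
  set T' := B.x β (-1) with hT'
  have h1 : S * S' = 1 := B.x_mul_neg hG.isUnit720 α 1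
  have h2 : T * T' = 1 := B.x_mul_neg hG.isUnit720 β 1
  have mS : S ∈ B.UF f (f α) := x_mem_UF hG hG.isWt α hα.le 1
  have mS' : S' ∈ B.UF f (f α) := x_mem_UF hG hG.isWt α hα.le (-1)
  have mT : T ∈ B.UF f (f β) := x_mem_UF hG hG.isWt β hβ.le 1
  have mT' : T' ∈ B.UF f (f β) := x_mem_UF hG hG.isWt β hβ.le (-1)
  have mC : S * T * S' * T' ∈ B.UF f (f γ) := by
    rw [hfγ]
    exact UF_comm hG.isWt (by omega) (by omega) mS mT mS' mT' h1 h2
  obtain ⟨k1, k2⟩ := peel_one (B := B) hG hG.isWt hH0 hH2 (by omega) mC (ε := γ) rfl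
    (-(B.N α β : ZMod p))
  refine peel_aux hG.bound hG.isWt hH0 hH1 hH2 (UF_anti (by omega) k1) (by omega) ?_
  -- the commutator applied to `H`
  have e0 := (mem_UF_iff.1 mS).2
  have e0' := (mem_UF_iff.1 mT).2
  have k3 : (S * T * S' * T') H - H -
      (-(B.N α β : ZMod p) * ((f γ : ℤ) : ZMod p)) • B.e γ ∈ B.Fil f (f γ + 1) := by
    set A := LieAlgebra.ad (ZMod p) L (B.e α) with hA
    set A' := LieAlgebra.ad (ZMod p) L (B.e β) with hA'
    have rA : B.Rz f (f α) A := Rz_ad hG.isWt (B.basis_mem_Fil f (.inr α))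
    have rA' : B.Rz f (f β) A' := Rz_ad hG.isWt (B.basis_mem_Fil f (.inr β))
    have q1 : B.Rz f (2 * f α) (S - 1 - A) := by
      have := x_expand (B := B) hG.isWt α hα.le 1
      rwa [one_smul] at this
    have q2 : B.Rz f (2 * f β) (T - 1 - A') := by
      have := x_expand (B := B) hG.isWt β hβ.le 1
      rwa [one_smul] at this
    have r1 : B.Rz f (f γ + 1) (((S - 1) * (T - 1) - (T - 1) * (S - 1)) - (A * A' - A' * A)) := by
      have e : ((S - 1) * (T - 1) - (T - 1) * (S - 1)) - (A * A' - A' * A) =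
          ((S - 1 - A) * (T - 1) + A * (T - 1 - A')) - ((T - 1 - A') * (S - 1) +
            A' * (S - 1 - A)) := by
        noncomm_ring
      rw [e]
      refine Rz.sub (Rz.add ?_ ?_) (Rz.add ?_ ?_)
      · exact (q1.mul e0').mono (by omega)
      · exact (rA.mul q2).mono (by omega)
      · exact (q2.mul e0).mono (by omega)
      · exact (rA'.mul q1).mono (by omega)
    have rC : B.Rz f (f γ) ((S - 1) * (T - 1) - (T - 1) * (S - 1)) := by
      refine Rz.sub ?_ ?_
      · exact (e0.mul e0').mono (by omega)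
      · exact (e0'.mul e0).mono (by omega)
    have rST : (S' * T') H - H ∈ B.Fil f 1 :=
      sub_mem_Fil hH0 (UF_mul hG.isWt (by omega) (UF_anti (by omega) mS')
        (UF_anti (by omega) mT'))
    have e1 : (S * T * S' * T') H - H =
        ((S - 1) * (T - 1) - (T - 1) * (S - 1)) ((S' * T') H) := by
      have := congrArg (fun F : Module.End (ZMod p) L => F H) (comm_sub_one h1 h2)
      simpa using this
    have e2 : (A * A' - A' * A) H = (-(B.N α β : ZMod p) * ((f γ : ℤ) : ZMod p)) • B.e γ := by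
      have e3 : (A * A' - A' * A) H = ⁅⁅B.e α, B.e β⁆, H⁆ := by
        rw [LinearMap.sub_apply, Module.End.mul_apply, Module.End.mul_apply, hA, hA']
        simp only [LieAlgebra.ad_apply]
        rw [lie_lie]
      rw [e3, B.lie_e_e α β γ hγ, smul_lie, ← lie_skew, hH2, smul_neg, smul_smul, neg_mul,
        neg_smul]
    have e4 : (S * T * S' * T') H - H - (-(B.N α β : ZMod p) * ((f γ : ℤ) : ZMod p)) • B.e γ =
        ((S - 1) * (T - 1) - (T - 1) * (S - 1)) ((S' * T') H - H) +
        (((S - 1) * (T - 1) - (T - 1) * (S - 1)) - (A * A' - A' * A)) H := by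
      rw [e1, ← e2]
      generalize (S - 1) * (T - 1) - (T - 1) * (S - 1) = C0
      generalize A * A' - A' * A = A0
      rw [map_sub, LinearMap.sub_apply]
      abel
    rw [e4]
    refine Submodule.add_mem _ ?_ ?_
    · exact B.Fil_anti (by omega) (rC _ _ rST)
    · exact B.Fil_anti (by omega) (r1 _ _ hH0)
  have := Submodule.add_mem _ k2 k3
  convert this using 1
  abel

end ChevalleyBasis

end Lie

end Ch4
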