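import Mathlib

set_option linter.unusedVariables false

namespace Ch4

section Root

variable {ι X Y : Type*} [Finite ι] [AddCommGroup X] [Module ℚ X] [AddCommGroup Y] [Module ℚ Y]
  (P : RootPairing ι ℚ X Y) [P.IsRootSystem] [P.IsCrystallographic] [P.IsReduced]

omit [P.IsRootSystem] [P.IsCrystallographic] in
lemma linInd_of_pos (b : P.Base) {δ γ : ι} (hδ : δ ∈ b.support) (hγ : b.IsPos γ) (hne : δ ≠ γ) :
    LinearIndependent ℚ ![P.root δ, P.root γ] := by
  refine RootPairing.IsReduced.linearIndependent P hne fun contra => ?_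
  let := P.indexNeg
  replace contra : γ = -δ := by
    rw [eq_comm, neg_eq_iff_eq_neg]
    simpa using contra
  rw [contra, RootPairing.Base.isPos_iff, RootPairing.Base.height_reflectionPerm_self,
    RootPairing.Base.height_one_of_mem_support hδ] at hγ
  omega

/-- Module RootLemma. -/
theorem root_lemma (b : P.Base) (p : ℕ) (hp : p.Prime) (V : Type*) [AddCommGroup V]
    (hV : ∀ v : V, p • v = 0) (N : ι → ι → ℤ)
    (hN : ∀ α β, P.root α + P.root β ∈ Set.range P.root → ¬ (p : ℤ) ∣ N α β)
    (hN0 : ∀ α β, P.root α + P.root β ∉ Set.range P.root → N α β = 0)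
    (δ ε β : ι) (hδ : δ ∈ b.support) (hε : b.IsPos ε) (hsum : P.root δ + P.root ε = P.root β)
    (hpos : 0 < P.pairingIn ℤ β δ) (o : X → X → V)
    (hanti : ∀ α γ, b.IsPos α → b.IsPos γ → P.root α + P.root γ = P.root β →
      o (P.root γ) (P.root α) = - o (P.root α) (P.root γ))
    (hjac : ∀ α₁ α₂ α₃, b.IsPos α₁ → b.IsPos α₂ → b.IsPos α₃ →
      P.root α₁ + P.root α₂ + P.root α₃ = P.root β →
      N α₁ α₂ • o (P.root α₁ + P.root α₂) (P.root α₃) +
      N α₂ α₃ • o (P.root α₂ + P.root α₃) (P.root α₁) +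
      N α₃ α₁ • o (P.root α₃ + P.root α₁) (P.root α₂) = 0)
    (h0 : o (P.root δ) (P.root ε) = 0) :
    ∀ α γ, b.IsPos α → b.IsPos γ → P.root α + P.root γ = P.root β →
      o (P.root α) (P.root γ) = 0 := by
  have hδpos : b.IsPos δ := b.isPos_of_mem_support hδ
  -- cancel units
  have hcancel : ∀ (n : ℤ) (v : V), ¬ (p : ℤ) ∣ n → n • v = 0 → v = 0 := by
    intro n v hn hv
    have hco : IsCoprime (p : ℤ) n :=
      (Int.prime_iff_natAbs_prime.2 (by simpa using hp)).coprime_iff_not_dvd.2 hn
    obtain ⟨x, y, hxy⟩ := hco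
    calc v = (x * (p : ℤ) + y * n) • v := by rw [hxy, one_smul]
      _ = x • ((p : ℤ) • v) + y • (n • v) := by rw [add_smul, mul_smul, mul_smul]
      _ = 0 := by rw [hv, natCast_zsmul, hV]; simp
  -- the pair ε, δ
  have hεδ : o (P.root ε) (P.root δ) = 0 := by
    rw [hanti δ ε hδpos hε hsum, h0, neg_zero]
  -- main induction
  have main : ∀ n : ℕ, ∀ α γ, b.IsPos α → b.IsPos γ → P.root α + P.root γ = P.root β →
      δ ≠ α → δ ≠ γ → P.chainTopCoeff δ γ = n → n < P.chainBotCoeff δ α →
      o (P.root α) (P.root γ) = 0 := by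
    intro n
    induction n with
    | zero =>
      intro α γ hα hγ hs hdα hdγ hup hdn
      have liα := linInd_of_pos P b hδ hα hdα
      have liγ := linInd_of_pos P b hδ hγ hdγ
      obtain ⟨α', hα'⟩ : P.root α - (1 : ℕ) • P.root δ ∈ Set.range P.root :=
        (P.root_sub_nsmul_mem_range_iff_le_chainBotCoeff liα).2 (by omega)
      rw [one_smul] at hα'
      have hα'pos : b.IsPos α' := hα.sub hδ hα'
      have hj := hjac δ α' γ hδpos hα'pos hγ (by rw [hα', ← hs]; abel)
      have e1 : P.root δ + P.root α' = P.root α := by rw [hα']; abel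
      have e2 : P.root α' + P.root γ = P.root ε := by
        rw [hα']
        have : P.root ε = P.root β - P.root δ := by rw [← hsum]; abel
        rw [this, ← hs]; abel
      have hnr : P.root γ + P.root δ ∉ Set.range P.root := by
        intro hmem
        have : 1 ≤ P.chainTopCoeff δ γ :=
          (P.root_add_nsmul_mem_range_iff_le_chainTopCoeff liγ).1 (by simpa using hmem)
        omega
      rw [e1, e2, hεδ, hN0 γ δ hnr, smul_zero, zero_smul, add_zero, add_zero] at hj
      exact hcancel _ _ (hN δ α' ⟨α, e1.symm⟩) hj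
    | succ n ih =>
      intro α γ hα hγ hs hdα hdγ hup hdn
      have liα := linInd_of_pos P b hδ hα hdα
      have liγ := linInd_of_pos P b hδ hγ hdγ
      obtain ⟨α', hα'⟩ : P.root α - (1 : ℕ) • P.root δ ∈ Set.range P.root :=
        (P.root_sub_nsmul_mem_range_iff_le_chainBotCoeff liα).2 (by omega)
      rw [one_smul] at hα'
      have hα'pos : b.IsPos α' := hα.sub hδ hα'
      obtain ⟨γ', hγ'⟩ : P.root γ + (1 : ℕ) • P.root δ ∈ Set.range P.root :=
        (P.root_add_nsmul_mem_range_iff_le_chainTopCoeff liγ).2 (by omega)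
      rw [one_smul] at hγ'
      have hγ'pos : b.IsPos γ' := hγ.add hδpos hγ'
      have hj := hjac δ α' γ hδpos hα'pos hγ (by rw [hα', ← hs]; abel)
      have e1 : P.root δ + P.root α' = P.root α := by rw [hα']; abel
      have e2 : P.root α' + P.root γ = P.root ε := by
        rw [hα']
        have : P.root ε = P.root β - P.root δ := by rw [← hsum]; abel
        rw [this, ← hs]; abel
      have hs' : P.root α' + P.root γ' = P.root β := by rw [hα', hγ', ← hs]; abel
      have hdα' : δ ≠ α' := by
        rintro rfl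
        have h2 : P.root α = P.root δ + P.root δ := by rw [← e1]
        have := P.linearIndependent_of_add_mem_range_root' (i := δ) (j := δ) ⟨α, h2⟩
        exact absurd (this.injective.eq_iff (a := 0) (b := 1) |>.1 rfl) (by decide)
      have hdγ' : δ ≠ γ' := by
        rintro rfl
        have h2 : P.root γ = 0 := by
          have h3 : P.root γ = P.root δ - P.root δ := eq_sub_of_add_eq hγ'.symm
          simpa using h3
        exact P.ne_zero γ h2
      have hbot : P.chainBotCoeff δ α = P.chainBotCoeff δ α' + 1 :=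
        P.chainBotCoeff_of_add (linInd_of_pos P b hδ hα'pos hdα') (by rw [← e1]; abel)
      have htop : P.chainTopCoeff δ γ = P.chainTopCoeff δ γ' + 1 :=
        P.chainTopCoeff_of_add liγ hγ'
      have hz := ih α' γ' hα'pos hγ'pos hs' hdα' hdγ' (by omega) (by omega)
      have hz' : o (P.root γ + P.root δ) (P.root α') = 0 := by
        rw [← hγ', hanti α' γ' hα'pos hγ'pos hs', hz, neg_zero]
      rw [e1, e2, hεδ, hz', smul_zero, smul_zero, add_zero, add_zero] at hj
      exact hcancel _ _ (hN δ α' ⟨α, e1.symm⟩) hj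
  intro α γ hα hγ hs
  by_cases hdα : δ = α
  · subst hdα
    have : γ = ε := P.root.injective (by
      have := hs.trans hsum.symm
      exact add_left_cancel this)
    rw [this]; exact h0
  by_cases hdγ : δ = γ
  · subst hdγ
    have : α = ε := P.root.injective (by
      have := hs.trans hsum.symm
      rw [add_comm] at this
      exact add_left_cancel this)
    rw [this]; exact hεδ
  have liα := linInd_of_pos P b hδ hα hdα
  have liγ := linInd_of_pos P b hδ hγ hdγ
  have hpair : P.pairingIn ℤ β δ = P.pairingIn ℤ α δ + P.pairingIn ℤ γ δ := by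
    apply (algebraMap ℤ ℚ).injective_int
    rw [map_add, RootPairing.algebraMap_pairingIn, RootPairing.algebraMap_pairingIn,
      RootPairing.algebraMap_pairingIn, ← P.root_coroot'_eq_pairing, ← hs, map_add]
    simp
  have h1 := P.chainBotCoeff_sub_chainTopCoeff liα
  have h2 := P.chainBotCoeff_sub_chainTopCoeff liγ
  rcases lt_or_ge (P.chainTopCoeff δ γ) (P.chainBotCoeff δ α) with h | h
  · exact main _ α γ hα hγ hs hdα hdγ rfl h
  · have h' : P.chainTopCoeff δ α < P.chainBotCoeff δ γ := by omega
    have := main _ γ α hγ hα (by rw [add_comm]; exact hs) hdγ hdα rfl h'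
    rw [hanti γ α hγ hα (by rw [add_comm]; exact hs), this, neg_zero]

omit [P.IsReduced] in
/-- Part of module RootLemma. -/
theorem exists_decomp (b : P.Base) (β : ι) (hβ : b.IsPos β) :
    β ∈ b.support ∨ ∃ δ ∈ b.support, ∃ ε, b.IsPos ε ∧ P.root δ + P.root ε = P.root β ∧
      0 < P.pairingIn ℤ β δ := by
  obtain ⟨δ, hδ, h⟩ := hβ.exists_mem_support_pos_pairingIn
  rw [P.zero_lt_pairingIn_iff'] at h
  rcases eq_or_ne β δ with rfl | hne
  · exact Or.inl hδ
  · obtain ⟨ε, hε⟩ := P.root_sub_root_mem_of_pairingIn_pos h hne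
    exact Or.inr ⟨δ, hδ, ε, hβ.sub hδ hε, by rw [hε]; abel, h⟩

end Root

end Ch4
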