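import Mathlib
import Pool.Agent.Lib.P4ba0d5.Base
import Pool.Agent.Lib.P4ba0d5.Good

/-! The index of the unipotent subgroup is prime to `p`. -/

set_option linter.unusedSectionVars false
set_option linter.unusedVariables false

namespace Ch4

open Module

section Lie

variable {ι X Y : Type*} [Finite ι] [AddCommGroup X] [Module ℚ X] [AddCommGroup Y] [Module ℚ Y]
  {P : RootPairing ι ℚ X Y} [P.IsRootSystem] [P.IsCrystallographic] [P.IsReduced]
  {b : P.Base} {f : ι → ℤ} {D : ℤ} {p : ℕ} [Fact p.Prime]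

namespace Syl

/-- The value of the root `γ` at `Σ c_i h_i`. -/
noncomputable def lam (b : P.Base) (p : ℕ) (c : b.support → ZMod p) (γ : ι) : ZMod p :=
  ∑ i, c i * (P.pairingIn ℤ γ i : ZMod p)

theorem lam_sub (c c' : b.support → ZMod p) (γ : ι) :
    lam b p (c - c') γ = lam b p c γ - lam b p c' γ := by
  simp only [lam, Pi.sub_apply, sub_mul, Finset.sum_sub_distrib]

theorem lam_add (c c' : b.support → ZMod p) (γ : ι) :
    lam b p (c + c') γ = lam b p c γ + lam b p c' γ := by
  simp only [lam, Pi.add_apply, add_mul, Finset.sum_add_distrib]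

theorem lam_smul (a : ZMod p) (c : b.support → ZMod p) (γ : ι) :
    lam b p (a • c) γ = a * lam b p c γ := by
  simp only [lam, Pi.smul_apply, smul_eq_mul, Finset.mul_sum, mul_assoc]

theorem D_cast_ne (hG : Good b f D p) (α : ι) : (D : ZMod p) ≠ 0 := by
  refine intCast_ne_zero_of_lt hG.D_ne ?_
  have h := hG.bound α
  have h1 : 0 ≤ |f α| := abs_nonneg _
  have h2 : 0 ≤ |D| := abs_nonneg _
  nlinarith

theorem f_bound (hG : Good b f D p) (α : ι) : 1000 * (|f α| + 1) < p := by
  have h := hG.bound α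
  have h1 : 0 ≤ |f α| := abs_nonneg _
  have h2 : 0 ≤ |D| := abs_nonneg _
  nlinarith

theorem f_cast_inj (hG : Good b f D p) {α β : ι} (h : (f α : ZMod p) = f β) : α = β := by
  apply hG.inj
  by_contra hne
  have h1 := f_bound hG α
  have h2 := f_bound hG β
  have h3 : |f α - f β| < p := by
    have := abs_sub (f α) (f β)
    omega
  apply intCast_ne_zero_of_lt (sub_ne_zero.mpr hne) h3
  push_cast
  rw [h, sub_self]

theorem f_cast_ne (hG : Good b f D p) (α : ι) : (f α : ZMod p) ≠ 0 := by
  have := f_bound hG α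
  exact intCast_ne_zero_of_lt (hG.ne α) (by omega)

theorem exists_lam_f (hG : Good b f D p) :
    ∃ c : b.support → ZMod p, ∀ γ, lam b p c γ = (f γ : ZMod p) := by
  rcases isEmpty_or_nonempty ι with h | ⟨⟨α⟩⟩
  · exact ⟨0, fun γ => h.elim γ⟩
  · have hD := D_cast_ne hG α
    obtain ⟨m, hm⟩ := hG.solve f hG.isWt
    refine ⟨fun i => (D : ZMod p)⁻¹ * m i, fun γ => ?_⟩
    have h1 := congrArg (fun z : ℤ => (z : ZMod p)) (hm γ)
    push_cast at h1
    simp only [lam, mul_assoc, ← Finset.mul_sum]
    rw [h1, inv_mul_cancel_left₀ hD]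

theorem lam_inj (hG : Good b f D p) {c : b.support → ZMod p} (h : ∀ γ, lam b p c γ = 0) :
    c = 0 := by
  classical
  rcases isEmpty_or_nonempty b.support with he | ⟨⟨j0⟩⟩
  · funext i; exact he.elim i
  · have hD := D_cast_ne hG (j0 : ι)
    have hw : ∀ i0 : b.support, ∃ g : ι → ℤ, IsWt P g ∧ ∀ j : b.support, g j = if j = i0 then 1 else 0 := by
      intro i0
      have h1 : ∀ α, ∃ n : ℤ, b.toWeightBasis.coord i0 (P.root α) = n := by
        intro α
        obtain ⟨c, hc1, -, hc⟩ := b.exists_root_eq_sum_int α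
        refine ⟨∑ i ∈ b.support.attach, c i * (if i = i0 then 1 else 0), ?_⟩
        rw [hc, ← Finset.sum_attach, map_sum]
        push_cast
        refine Finset.sum_congr rfl fun i _ => ?_
        rw [map_zsmul, zsmul_eq_mul]
        congr 1
        rw [show P.root i = b.toWeightBasis i by simp, Module.Basis.coord_apply,
          Module.Basis.repr_self, Finsupp.single_apply]
      choose g hg using h1
      refine ⟨g, ⟨_, hg⟩, fun j => ?_⟩
      have h2 := hg j
      rw [show P.root j = b.toWeightBasis j by simp, Module.Basis.coord_apply,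
          Module.Basis.repr_self, Finsupp.single_apply] at h2
      have h3 : (g j : ℚ) = ((if j = i0 then 1 else 0 : ℤ) : ℚ) := by rw [← h2]; push_cast; rfl
      exact_mod_cast h3
    choose g hg1 hg2 using hw
    choose m hm using fun i0 => hG.solve (g i0) (hg1 i0)
    let C : Matrix b.support b.support (ZMod p) := fun j i => (P.pairingIn ℤ j i : ZMod p)
    let M : Matrix b.support b.support (ZMod p) := fun i i0 => (D : ZMod p)⁻¹ * (m i0 i : ZMod p)
    have hCM : C * M = 1 := by
      ext j i0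
      rw [Matrix.mul_apply, Matrix.one_apply]
      have h1 := congrArg (fun z : ℤ => (z : ZMod p)) (hm i0 j)
      rw [hg2] at h1
      push_cast at h1
      have h2 : ∑ i, C j i * M i i0 = (D : ZMod p)⁻¹ * ∑ i, (m i0 i : ZMod p) *
          (P.pairingIn ℤ j i : ZMod p) := by
        rw [Finset.mul_sum]
        refine Finset.sum_congr rfl fun i _ => ?_
        simp only [C, M]; ring
      rw [h2, h1, inv_mul_cancel_left₀ hD]
    have hMC := mul_eq_one_comm.mp hCM
    have hc : C.mulVec c = 0 := by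
      funext j
      have := h j
      rw [lam] at this
      rw [Matrix.mulVec, dotProduct, Pi.zero_apply, ← this]
      exact Finset.sum_congr rfl fun i _ => mul_comm _ _
    have : (1 : Matrix b.support b.support (ZMod p)).mulVec c = 0 := by
      rw [← hMC, ← Matrix.mulVec_mulVec, hc, Matrix.mulVec_zero]
    rwa [Matrix.one_mulVec] at this

theorem lam_sep (hG : Good b f D p) {γ δ : ι} (h : ∀ c, lam b p c γ = lam b p c δ) : γ = δ := by
  obtain ⟨c, hc⟩ := exists_lam_f hG
  apply f_cast_inj hG
  rw [← hc, ← hc, h]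

variable {L : Type*} [LieRing L] [LieAlgebra (ZMod p) L] (B : ChevalleyBasis b (ZMod p) L)

/-- The element `Σ c_i h_i`. -/
noncomputable def HH (c : b.support → ZMod p) : L := ∑ i, c i • B.h i

theorem repr_HH_inl (c : b.support → ZMod p) (i : b.support) :
    B.basis.repr (HH B c) (.inl i) = c i := by
  classical
  rw [HH, map_sum, Finsupp.finsetSum_apply, Finset.sum_eq_single i]
  · rw [map_smul, B.basis.repr_self, Finsupp.smul_single, Finsupp.single_apply, if_pos rfl,
      smul_eq_mul, mul_one]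
  · intro j _ hj
    rw [map_smul, B.basis.repr_self, Finsupp.smul_single, Finsupp.single_apply, if_neg]
    intro h; exact hj (Sum.inl_injective h)
  · simp

theorem repr_HH_inr (c : b.support → ZMod p) (α : ι) :
    B.basis.repr (HH B c) (.inr α) = 0 := by
  classical
  rw [HH, map_sum, Finsupp.finsetSum_apply]
  refine Finset.sum_eq_zero fun i _ => ?_
  rw [map_smul, B.basis.repr_self, Finsupp.smul_single, Finsupp.single_apply, if_neg (by simp)]

theorem lie_HH_e (c : b.support → ZMod p) (γ : ι) :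
    ⁅HH B c, B.e γ⁆ = lam b p c γ • B.e γ := B.lie_sum_h c γ

theorem lie_HH_h (c : b.support → ZMod p) (j : b.support) : ⁅HH B c, B.h j⁆ = 0 :=
  B.lie_sum_h_h c j

/-- the eigenvalue of `Σ c_i h_i` on a basis vector -/
noncomputable def ev (c : b.support → ZMod p) (u : b.support ⊕ ι) : ZMod p :=
  Sum.elim (fun _ => 0) (lam b p c) u

theorem lie_HH_basis (c : b.support → ZMod p) (u : b.support ⊕ ι) :
    ⁅HH B c, B.basis u⁆ = ev c u • B.basis u := by
  rcases u with i | α
  · rw [ev, Sum.elim_inl, zero_smul]; exact lie_HH_h B c i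
  · exact lie_HH_e B c α

/-- coordinates of `[Σ c_i h_i, z]` -/
theorem repr_lie_HH (c : b.support → ZMod p) (z : L) (u : b.support ⊕ ι) :
    B.basis.repr ⁅HH B c, z⁆ u = ev c u * B.basis.repr z u := by
  have h : (B.basis.coord u) ∘ₗ (LieAlgebra.ad (ZMod p) L (HH B c)) =
      ev c u • B.basis.coord u := by
    classical
    apply B.basis.ext
    intro v
    rw [LinearMap.comp_apply, LinearMap.smul_apply]
    change B.basis.coord u ⁅HH B c, B.basis v⁆ = _
    rw [lie_HH_basis, map_smul, Module.Basis.coord_apply, B.basis.repr_self,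
      Finsupp.single_apply]
    split_ifs with huv
    · rw [huv]
    · simp
  exact congrArg (fun F => F z) h

theorem sum_basis (z : L) [Fintype ι] : z = ∑ i, B.basis.repr z (.inl i) • B.h i +
    ∑ α, B.basis.repr z (.inr α) • B.e α := by
  conv_lhs => rw [← B.basis.sum_repr z]
  rw [Fintype.sum_sum_type]

/-- the coordinate of `[z, e_γ]` at `e_γ` -/
theorem repr_lie_e_self (hG : Good b f D p) (z : L) (γ : ι) :
    B.basis.repr ⁅z, B.e γ⁆ (.inr γ) = lam b p (fun i => B.basis.repr z (.inl i)) γ := by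
  classical
  have : Fintype ι := Fintype.ofFinite ι
  conv_lhs => rw [sum_basis B z]
  rw [add_lie, map_add, Finsupp.add_apply]
  have h1 : B.basis.repr ⁅∑ i, B.basis.repr z (.inl i) • B.h i, B.e γ⁆ (.inr γ) =
      lam b p (fun i => B.basis.repr z (.inl i)) γ := by
    have := lie_HH_e B (fun i => B.basis.repr z (.inl i)) γ
    rw [HH] at this
    rw [this, map_smul, B.basis.repr_self, Finsupp.smul_apply, Finsupp.single_apply, if_pos rfl,
      smul_eq_mul, mul_one]
  rw [h1, _root_.sum_lie, map_sum, Finsupp.finsetSum_apply, Finset.sum_eq_zero, add_zero]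
  intro α _
  rw [smul_lie, map_smul, Finsupp.smul_apply, smul_eq_mul]
  by_cases h : B.basis.repr ⁅B.basis (.inr α), B.basis (.inr γ)⁆ (.inr γ) = 0
  · rw [show B.e α = B.basis (.inr α) from rfl, show B.e γ = B.basis (.inr γ) from rfl, h,
      mul_zero]
  · have h2 := B.repr_lie_ne hG.isWt _ _ _ h
    simp only [wt_inr] at h2
    exact absurd (by omega) (hG.ne α)

/-- the coordinate of `[z, e_δ]` at `h_i` -/
theorem repr_lie_e_inl (hG : Good b f D p) (z : L) (δ : ι) (i : b.support) :
    B.basis.repr ⁅z, B.e δ⁆ (.inl i) = -(B.basis.repr z (.inr (ng P δ)) * (cc b δ i : ZMod p)) := by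
  classical
  have : Fintype ι := Fintype.ofFinite ι
  conv_lhs => rw [sum_basis B z]
  rw [add_lie, map_add, Finsupp.add_apply]
  have h1 : B.basis.repr ⁅∑ i, B.basis.repr z (.inl i) • B.h i, B.e δ⁆ (.inl i) = 0 := by
    have := lie_HH_e B (fun i => B.basis.repr z (.inl i)) δ
    rw [HH] at this
    rw [this, map_smul, B.basis.repr_self, Finsupp.smul_apply, Finsupp.single_apply,
      if_neg (by simp), smul_zero]
  rw [h1, zero_add, _root_.sum_lie, map_sum, Finsupp.finsetSum_apply,
    Finset.sum_eq_single (ng P δ)]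
  · rw [smul_lie, map_smul, Finsupp.smul_apply, smul_eq_mul, ← mul_neg]
    congr 1
    rw [← lie_skew, B.lie_e_ng, map_neg, Finsupp.neg_apply]
    congr 1
    have := repr_HH_inl B (fun i => (cc b δ i : ZMod p)) i
    exact this
  · intro α _ hα
    rw [smul_lie, map_smul, Finsupp.smul_apply, smul_eq_mul]
    by_cases h : B.basis.repr ⁅B.basis (.inr α), B.basis (.inr δ)⁆ (.inl i) = 0
    · rw [show B.e α = B.basis (.inr α) from rfl, show B.e δ = B.basis (.inr δ) from rfl, h,
        mul_zero]
    · have h2 := B.repr_lie_ne hG.isWt _ _ _ h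
      simp only [wt_inr, wt_inl] at h2
      exfalso
      apply hα
      apply hG.inj
      have h3 := hG.isWt.neg (root_ng P δ)
      omega
  · simp

theorem repr_lie_z_HH (c : b.support → ZMod p) (z : L) (u : b.support ⊕ ι) :
    B.basis.repr ⁅z, HH B c⁆ u = -(ev c u * B.basis.repr z u) := by
  rw [← lie_skew, map_neg, Finsupp.neg_apply, repr_lie_HH]

/-- mapping property of `ad z` on the filtration -/
theorem lie_Fil_of_basis (hG : Good b f D p) {z : L}
    (h : ∀ u, ⁅z, B.basis u⁆ ∈ B.Fil f (wt f u + 1)) {k : ℤ} {y : L} (hy : y ∈ B.Fil f k) :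
    ⁅z, y⁆ ∈ B.Fil f (k + 1) := by
  classical
  have : Fintype ι := Fintype.ofFinite ι
  rw [← B.basis.sum_repr y, _root_.lie_sum]
  refine sum_mem fun u _ => ?_
  rw [lie_smul]
  by_cases h1 : wt f u < k
  · rw [hy u h1, zero_smul]; exact zero_mem _
  · exact Submodule.smul_mem _ _ (B.Fil_anti (by omega) (h u))

/-- an element all of whose brackets raise the weight has positive weight -/
theorem mem_Fil_one_of_lie (hG : Good b f D p) {z : L}
    (h : ∀ u, ⁅z, B.basis u⁆ ∈ B.Fil f (wt f u + 1)) : z ∈ B.Fil f 1 := by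
  classical
  obtain ⟨cf, hcf⟩ := exists_lam_f hG
  have hinl : (fun i => B.basis.repr z (.inl i)) = (0 : b.support → ZMod p) := by
    apply lam_inj hG
    intro γ
    rw [← repr_lie_e_self B hG]
    exact h (.inr γ) (.inr γ) (by simp)
  intro u hu
  rcases u with i | α
  · exact congrFun hinl i
  · have h1 : HH B cf ∈ B.Fil f 0 := by
      intro v hv
      rcases v with i | β
      · simp at hv
      · exact repr_HH_inr B cf β
    have h2 := lie_Fil_of_basis B hG h h1
    have h3 := h2 (.inr α) (by simpa using hu)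
    rw [repr_lie_z_HH, neg_eq_zero] at h3
    have h4 : ev cf (.inr α : b.support ⊕ ι) ≠ 0 := by
      change lam b p cf α ≠ 0
      rw [hcf]
      exact f_cast_ne hG α
    exact (mul_eq_zero.mp h3).resolve_left h4

theorem x_mem_UF_one (hG : Good b f D p) (α : ι) (hα : 0 < f α) (t : ZMod p) :
    B.x α t ∈ B.UF f 1 := by
  refine ⟨B.x_lie hG.isUnit720 α t, fun u => ?_⟩
  obtain ⟨v, hv, he⟩ := exists_inv6 (ZMod p) hG.isUnit720
  have hD : ∀ (k : ℤ) (y : L), y ∈ B.Fil f k →
      LieAlgebra.ad (ZMod p) L (t • B.e α) y ∈ B.Fil f (k + 1) := by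
    intro k y hy
    rw [LieAlgebra.ad_apply]
    have h1 : t • B.e α ∈ B.Fil f (f α) := Submodule.smul_mem _ _ (B.basis_mem_Fil f (.inr α))
    exact B.Fil_anti (by omega) (B.lie_mem_Fil hG.isWt h1 hy)
  have h0 := B.basis_mem_Fil f u
  have h1 := hD _ _ h0
  have h2 := hD _ _ h1
  have h3 := hD _ _ h2
  rw [ChevalleyBasis.x, he, E4_apply]
  have e : ∀ a b c d : L, a + b + c + d - a = b + c + d := by intros; abel
  rw [e]
  refine add_mem (add_mem h1 ?_) ?_
  · exact Submodule.smul_mem _ _ (B.Fil_anti (by omega) h2)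
  · exact Submodule.smul_mem _ _ (B.Fil_anti (by omega) h3)

/-- if all `exp (t ad z)` are unipotent then `z` has positive weight -/
theorem mem_Fil_one_of_exp (hG : Good b f D p) (z : L)
    (h : ∀ t : ZMod p, expNil (LieAlgebra.ad (ZMod p) L (t • z)) ∈ B.UF f 1) :
    z ∈ B.Fil f 1 := by
  apply mem_Fil_one_of_lie B hG
  intro u
  obtain ⟨v, hv, he⟩ := exists_inv6 (ZMod p) hG.isUnit720
  have key : ∀ t : ZMod p, t • ⁅z, B.basis u⁆ + (3 * v) • t • t • ⁅z, ⁅z, B.basis u⁆⁆ +
      v • t • t • t • ⁅z, ⁅z, ⁅z, B.basis u⁆⁆⁆ ∈ B.Fil f (wt f u + 1) := by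
    intro t
    have h1 := (h t).2 u
    rw [he, E4_apply] at h1
    simp only [LieAlgebra.ad_apply, smul_lie, lie_smul] at h1
    have e : ∀ a b c d : L, a + b + c + d - a = b + c + d := by intros; abel
    rw [e] at h1
    exact h1
  have k1 := key 1
  have k2 := key (-1)
  have k3 := key 2
  have k4 := key (-2)
  have hu12 : IsUnit (12 : ZMod p) := isUnit_of_dvd_unit ⟨60, by norm_num⟩ hG.isUnit720
  have h5 : (12 : ZMod p) • ⁅z, B.basis u⁆ ∈ B.Fil f (wt f u + 1) := by
    have h6 := sub_mem (Submodule.smul_mem _ (8 : ZMod p) (sub_mem k1 k2)) (sub_mem k3 k4)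
    convert h6 using 1
    module
  obtain ⟨w, hw⟩ := hu12
  have h7 := Submodule.smul_mem _ ((w⁻¹ : (ZMod p)ˣ) : ZMod p) h5
  rwa [← hw, smul_smul, Units.inv_mul, one_smul] at h7

/-- Invertible Lie endomorphisms preserving `Fil 1` and `Fil 0`. -/
structure Pres (B : ChevalleyBasis b (ZMod p) L) (f : ι → ℤ) (g : Module.End (ZMod p) L) :
    Prop where
  lie : ∀ x y, g ⁅x, y⁆ = ⁅g x, g y⁆
  inv : ∃ g', g * g' = 1 ∧ g' * g = 1
  fil1 : ∀ y ∈ B.Fil f 1, g y ∈ B.Fil f 1
  fil0 : ∀ y ∈ B.Fil f 0, g y ∈ B.Fil f 0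

theorem fil1_of_e (hG : Good b f D p) {g : Module.End (ZMod p) L}
    (h : ∀ α, 0 < f α → g (B.e α) ∈ B.Fil f 1) : ∀ y ∈ B.Fil f 1, g y ∈ B.Fil f 1 := by
  classical
  have : Fintype ι := Fintype.ofFinite ι
  intro y hy
  rw [sum_basis B y, map_add, map_sum, map_sum]
  refine add_mem (sum_mem fun i _ => ?_) (sum_mem fun α _ => ?_)
  · rw [hy (.inl i) (by simp), zero_smul, map_zero]; exact zero_mem _
  · rw [map_smul]
    by_cases h1 : 0 < f α
    · exact Submodule.smul_mem _ _ (h α h1)
    · rw [hy (.inr α) (by rw [wt_inr]; omega), zero_smul]; exact zero_mem _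

theorem mem_Fil_zero_of_lie (hG : Good b f D p) {y : L}
    (h : ∀ δ, 0 < f δ → ⁅y, B.e δ⁆ ∈ B.Fil f 1) : y ∈ B.Fil f 0 := by
  classical
  intro u hu
  rcases u with i | α
  · simp at hu
  · rw [wt_inr] at hu
    have hδ := hG.isWt.neg (root_ng P α)
    have h1 := h (ng P α) (by omega)
    have h2 : ∀ i, B.basis.repr y (.inr α) * (cc b (ng P α) i : ZMod p) = 0 := by
      intro i
      have h3 := h1 (.inl i) (by simp)
      rw [repr_lie_e_inl B hG, ng_ng, neg_eq_zero] at h3
      exact h3
    have h4 := sum_cc_pairing b (ng P α) (ng P α)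
    have h5 := congrArg (fun z : ℤ => (z : ZMod p)) h4
    push_cast at h5
    have h6 : B.basis.repr y (.inr α) * ((P.pairingIn ℤ (ng P α) (ng P α) : ℤ) : ZMod p) = 0 := by
      rw [← h5, Finset.mul_sum]
      refine Finset.sum_eq_zero fun i _ => ?_
      rw [← mul_assoc, h2, zero_mul]
    have h7 : P.pairingIn ℤ (ng P α) (ng P α) = 2 := by
      have : (P.pairingIn ℤ (ng P α) (ng P α) : ℚ) = 2 := by
        have h8 := P.algebraMap_pairingIn ℤ (ng P α) (ng P α)
        rw [P.pairing_same] at h8
        simpa using h8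
      exact_mod_cast this
    rw [h7] at h6
    have h9 : ((2 : ℤ) : ZMod p) ≠ 0 := by
      refine intCast_ne_zero_of_lt (by norm_num) ?_
      have := hG.lt
      norm_num
      omega
    exact (mul_eq_zero.mp h6).resolve_right h9

theorem pres_of_e (hG : Good b f D p) {g g' : Module.End (ZMod p) L}
    (hl : ∀ x y, g ⁅x, y⁆ = ⁅g x, g y⁆) (h1 : g * g' = 1) (h2 : g' * g = 1)
    (h : ∀ α, 0 < f α → g (B.e α) ∈ B.Fil f 1) (h' : ∀ α, 0 < f α → g' (B.e α) ∈ B.Fil f 1) :
    Pres B f g := by
  have hf := fil1_of_e B hG h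
  have hf' := fil1_of_e B hG h'
  refine ⟨hl, ⟨g', h1, h2⟩, hf, ?_⟩
  intro y hy
  apply mem_Fil_zero_of_lie B hG
  intro δ hδ
  have e1 : B.e δ = g (g' (B.e δ)) := by
    rw [← Module.End.mul_apply, h1, Module.End.one_apply]
  rw [e1, ← hl]
  apply hf
  have := B.lie_mem_Fil hG.isWt hy (h' δ hδ)
  rwa [zero_add] at this

theorem Pres.one : Pres B f 1 :=
  ⟨fun _ _ => rfl, ⟨1, by simp, by simp⟩, fun _ h => h, fun _ h => h⟩

theorem Pres.mul {g g' : Module.End (ZMod p) L} (h : Pres B f g) (h' : Pres B f g') :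
    Pres B f (g * g') := by
  obtain ⟨k, hk1, hk2⟩ := h.inv
  obtain ⟨k', hk1', hk2'⟩ := h'.inv
  refine ⟨fun x y => ?_, ⟨k' * k, ?_, ?_⟩, fun y hy => ?_, fun y hy => ?_⟩
  · simp only [Module.End.mul_apply, h'.lie, h.lie]
  · rw [mul_assoc, ← mul_assoc g', hk1', one_mul, hk1]
  · rw [mul_assoc, ← mul_assoc k, hk2, one_mul, hk2']
  · exact h.fil1 _ (h'.fil1 _ hy)
  · exact h.fil0 _ (h'.fil0 _ hy)

theorem Pres.pow {g : Module.End (ZMod p) L} (h : Pres B f g) (n : ℕ) : Pres B f (g ^ n) := by
  induction n with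
  | zero => rw [pow_zero]; exact Pres.one B
  | succ n ih => rw [pow_succ']; exact h.mul B ih

theorem HH_mem_Fil (c : b.support → ZMod p) : HH B c ∈ B.Fil f 0 := by
  intro v hv
  rcases v with i | β
  · simp at hv
  · exact repr_HH_inr B c β

/-- the action on `Fil 0 / Fil 1` -/
noncomputable def bar (g : Module.End (ZMod p) L) : (b.support → ZMod p) →ₗ[ZMod p]
    (b.support → ZMod p) where
  toFun c := fun i => B.basis.repr (g (HH B c)) (.inl i)
  map_add' c c' := by
    funext i
    have : HH B (c + c') = HH B c + HH B c' := by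
      simp only [HH, Pi.add_apply, add_smul, Finset.sum_add_distrib]
    rw [this, map_add, map_add]; rfl
  map_smul' a c := by
    funext i
    have : HH B (a • c) = a • HH B c := by
      simp only [HH, Pi.smul_apply, smul_eq_mul, mul_smul, Finset.smul_sum]
    rw [this, map_smul, map_smul]; rfl

theorem sub_HH_mem (hG : Good b f D p) {y : L} (hy : y ∈ B.Fil f 0) :
    y - HH B (fun i => B.basis.repr y (.inl i)) ∈ B.Fil f 1 := by
  intro u hu
  rw [map_sub, Finsupp.sub_apply]
  rcases u with i | α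
  · rw [repr_HH_inl, sub_self]
  · rw [repr_HH_inr, sub_zero]
    rw [wt_inr] at hu
    have := hG.ne α
    exact hy (.inr α) (by rw [wt_inr]; omega)

theorem bar_spec (hG : Good b f D p) {g : Module.End (ZMod p) L} (h : Pres B f g)
    (c : b.support → ZMod p) : g (HH B c) - HH B (bar B g c) ∈ B.Fil f 1 :=
  sub_HH_mem B hG (h.fil0 _ (HH_mem_Fil B c))

theorem bar_one (c : b.support → ZMod p) : bar B 1 c = c := by
  funext i
  exact repr_HH_inl B c i

theorem bar_mul (hG : Good b f D p) {g g' : Module.End (ZMod p) L} (h : Pres B f g)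
    (h' : Pres B f g') (c : b.support → ZMod p) : bar B (g * g') c = bar B g (bar B g' c) := by
  funext i
  change B.basis.repr (g (g' (HH B c))) (.inl i) = B.basis.repr (g (HH B (bar B g' c))) (.inl i)
  have h1 := h.fil1 _ (bar_spec B hG h' c) (.inl i) (by simp)
  rw [map_sub, map_sub, Finsupp.sub_apply, sub_eq_zero] at h1
  exact h1

/-- polynomials in `ad z` act on the diagonal by the eigenvalues -/
theorem aeval_diag (hG : Good b f D p) {z : L} (hz : z ∈ B.Fil f 0) (γ : ι)
    (Q : Polynomial (ZMod p)) : ∀ y ∈ B.Fil f (f γ),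
      Polynomial.aeval (LieAlgebra.ad (ZMod p) L z) Q y ∈ B.Fil f (f γ) ∧
      B.basis.repr (Polynomial.aeval (LieAlgebra.ad (ZMod p) L z) Q y) (.inr γ) =
        Q.eval (lam b p (fun i => B.basis.repr z (.inl i)) γ) * B.basis.repr y (.inr γ) := by
  have hA : ∀ y ∈ B.Fil f (f γ), ⁅z, y⁆ ∈ B.Fil f (f γ) := by
    intro y hy
    have := B.lie_mem_Fil hG.isWt hz hy
    rwa [zero_add] at this
  have hA2 : ∀ y ∈ B.Fil f (f γ), B.basis.repr ⁅z, y⁆ (.inr γ) =
      lam b p (fun i => B.basis.repr z (.inl i)) γ * B.basis.repr y (.inr γ) := by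
    intro y hy
    have h1 : y - B.basis.repr y (.inr γ) • B.e γ ∈ B.Fil f (f γ + 1) := by
      classical
      intro u hu
      rw [map_sub, map_smul, Finsupp.sub_apply, B.basis.repr_self, Finsupp.smul_single,
        Finsupp.single_apply, smul_eq_mul, mul_one]
      split_ifs with h2
      · rw [h2, sub_self]
      · rw [sub_zero]
        by_cases h3 : wt f u < f γ
        · exact hy u h3
        · exfalso
          rcases u with i | α
          · simp only [wt_inl] at hu h3
            have := hG.ne γ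
            omega
          · simp only [wt_inr] at hu h3
            apply h2
            rw [hG.inj (show f γ = f α by omega)]
    have h2 := B.lie_mem_Fil hG.isWt hz h1
    have h3 := h2 (.inr γ) (by rw [wt_inr]; omega)
    rw [lie_sub, lie_smul, map_sub, map_smul, Finsupp.sub_apply, Finsupp.smul_apply,
      repr_lie_e_self B hG, sub_eq_zero, smul_eq_mul] at h3
    rw [h3, mul_comm]
  induction Q using Polynomial.induction_on' with
  | add Q R hQ hR =>
    intro y hy
    obtain ⟨a1, a2⟩ := hQ y hy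
    obtain ⟨b1, b2⟩ := hR y hy
    rw [map_add, LinearMap.add_apply]
    refine ⟨add_mem a1 b1, ?_⟩
    rw [map_add, Finsupp.add_apply, a2, b2, Polynomial.eval_add, add_mul]
  | monomial n a =>
    intro y hy
    rw [Polynomial.aeval_monomial, Polynomial.eval_monomial, Module.End.mul_apply,
      Module.algebraMap_end_apply]
    have key : ∀ n : ℕ, ((LieAlgebra.ad (ZMod p) L z) ^ n) y ∈ B.Fil f (f γ) ∧
        B.basis.repr (((LieAlgebra.ad (ZMod p) L z) ^ n) y) (.inr γ) =
          (lam b p (fun i => B.basis.repr z (.inl i)) γ) ^ n * B.basis.repr y (.inr γ) := by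
      intro n
      induction n with
      | zero => simp [hy]
      | succ n ih =>
        rw [pow_succ', Module.End.mul_apply, LieAlgebra.ad_apply]
        refine ⟨hA _ ih.1, ?_⟩
        rw [hA2 _ ih.1, ih.2, pow_succ', mul_assoc]
    refine ⟨Submodule.smul_mem _ _ (key n).1, ?_⟩
    rw [map_smul, Finsupp.smul_apply, (key n).2, smul_eq_mul, mul_assoc]

theorem bar_eig (hG : Good b f D p) {g : Module.End (ZMod p) L} (h : Pres B f g)
    (c : b.support → ZMod p) (γ : ι) :
    lam b p (bar B g c) γ = 0 ∨ ∃ δ, lam b p (bar B g c) γ = lam b p c δ := by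
  classical
  have : Fintype ι := Fintype.ofFinite ι
  let Q : Polynomial (ZMod p) := Polynomial.X * ∏ δ : ι, (Polynomial.X - Polynomial.C (lam b p c δ))
  have hQ : Polynomial.aeval (LieAlgebra.ad (ZMod p) L (HH B c)) Q = 0 := by
    apply B.basis.ext
    intro u
    have hpow : ∀ R : Polynomial (ZMod p), Polynomial.aeval (LieAlgebra.ad (ZMod p) L (HH B c)) R
        (B.basis u) = R.eval (ev c u) • B.basis u := by
      intro R
      induction R using Polynomial.induction_on' with
      | add R S hR hS =>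
        rw [map_add, LinearMap.add_apply, hR, hS, Polynomial.eval_add, add_smul]
      | monomial n a =>
        rw [Polynomial.aeval_monomial, Polynomial.eval_monomial, Module.End.mul_apply,
          Module.algebraMap_end_apply, mul_smul]
        congr 1
        induction n with
        | zero => simp
        | succ n ih =>
          rw [pow_succ', Module.End.mul_apply, ih, map_smul, LieAlgebra.ad_apply, lie_HH_basis,
            smul_smul, pow_succ]
    rw [hpow, LinearMap.zero_apply]
    have : Q.eval (ev c u) = 0 := by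
      simp only [Q, Polynomial.eval_mul, Polynomial.eval_X, Polynomial.eval_prod,
        Polynomial.eval_sub, Polynomial.eval_C]
      rcases u with i | α
      · rw [ev, Sum.elim_inl, zero_mul]
      · rw [Finset.prod_eq_zero (Finset.mem_univ α), mul_zero]
        rw [ev, Sum.elim_inr, sub_self]
    rw [this, zero_smul]
  obtain ⟨g', h1, h2⟩ := h.inv
  have hconj : ∀ R : Polynomial (ZMod p), g * Polynomial.aeval (LieAlgebra.ad (ZMod p) L (HH B c)) R
      = Polynomial.aeval (LieAlgebra.ad (ZMod p) L (g (HH B c))) R * g := by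
    have hb : g * LieAlgebra.ad (ZMod p) L (HH B c) = LieAlgebra.ad (ZMod p) L (g (HH B c)) * g := by
      ext x; simp [LieAlgebra.ad_apply, h.lie]
    intro R
    induction R using Polynomial.induction_on' with
    | add R S hR hS => rw [map_add, map_add, mul_add, add_mul, hR, hS]
    | monomial n a =>
      rw [Polynomial.aeval_monomial, Polynomial.aeval_monomial, ← mul_assoc,
        ← Algebra.commutes a g, mul_assoc, mul_assoc]
      congr 1
      induction n with
      | zero => simp
      | succ n ih => rw [pow_succ, ← mul_assoc, ih, mul_assoc, hb, ← mul_assoc, ← pow_succ]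
  have hQ' : Polynomial.aeval (LieAlgebra.ad (ZMod p) L (g (HH B c))) Q = 0 := by
    have h3 := hconj Q
    rw [hQ, mul_zero] at h3
    calc _ = Polynomial.aeval (LieAlgebra.ad (ZMod p) L (g (HH B c))) Q * (g * g') := by
          rw [h1, mul_one]
      _ = 0 := by rw [← mul_assoc, ← h3, zero_mul]
  have h4 := (aeval_diag B hG (h.fil0 _ (HH_mem_Fil B c)) γ Q (B.e γ)
    (B.basis_mem_Fil f (.inr γ))).2
  rw [hQ', LinearMap.zero_apply, map_zero, Finsupp.zero_apply, B.basis.repr_self,
    Finsupp.single_apply, if_pos rfl, mul_one] at h4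
  have h5 : Q.eval (lam b p (bar B g c) γ) = 0 := h4.symm
  simp only [Q, Polynomial.eval_mul, Polynomial.eval_X, Polynomial.eval_prod,
        Polynomial.eval_sub, Polynomial.eval_C] at h5
  rcases mul_eq_zero.mp h5 with h6 | h6
  · exact Or.inl h6
  · obtain ⟨δ, -, hδ⟩ := Finset.prod_eq_zero_iff.mp h6
    exact Or.inr ⟨δ, sub_eq_zero.mp hδ⟩

/-- the functional `c ↦ lam c γ` -/
noncomputable def lamL (b : P.Base) (p : ℕ) [Fact p.Prime] (γ : ι) : (b.support → ZMod p) →ₗ[ZMod p] ZMod p where
  toFun c := lam b p c γ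
  map_add' c c' := lam_add c c' γ
  map_smul' a c := lam_smul a c γ

theorem bar_perm (hG : Good b f D p) {g : Module.End (ZMod p) L} (h : Pres B f g) {N : ℕ}
    (hN : g ^ (N + 1) = 1) (γ : ι) :
    ∃ δ, ∀ c, lam b p (bar B g c) γ = lam b p c δ := by
  classical
  have : Fintype ι := Fintype.ofFinite ι
  by_contra hcon
  push Not at hcon
  let q : Option ι → Submodule (ZMod p) (b.support → ZMod p) := fun o =>
    Option.elim o (LinearMap.ker (lamL b p γ ∘ₗ bar B g))
      (fun δ => LinearMap.ker (lamL b p γ ∘ₗ bar B g - lamL b p δ))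
  have h1 : ∀ o, q o ≠ ⊤ := by
    intro o ho
    rcases o with _ | δ
    · obtain ⟨c, hc⟩ := exists_lam_f hG
      have h3 : bar B g (bar B (g ^ N) c) = c := by
        rw [← bar_mul B hG h (h.pow B N), ← pow_succ', hN, bar_one]
      have h4 : bar B (g ^ N) c ∈ q none := by rw [ho]; trivial
      have h5 : lam b p (bar B g (bar B (g ^ N) c)) γ = 0 := h4
      rw [h3, hc] at h5
      exact f_cast_ne hG γ h5
    · obtain ⟨c, hc⟩ := hcon δ
      have : c ∈ q (some δ) := by rw [ho]; trivial
      have h2 : (lamL b p γ ∘ₗ bar B g - lamL b p δ) c = 0 := this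
      exact hc (sub_eq_zero.mp h2)
  have h2 := Submodule.iUnion_ssubset_of_forall_ne_top_of_card_lt Finset.univ q h1 (by
    rw [Finset.card_univ, Fintype.card_option, ENat.card_eq_coe_natCard, Nat.card_zmod]
    have := hG.bound_card
    rw [Nat.card_eq_fintype_card] at this
    norm_cast
    omega)
  obtain ⟨c, -, hc⟩ := Set.exists_of_ssubset h2
  apply hc
  simp only [Finset.mem_univ, Set.iUnion_true, Set.mem_iUnion]
  rcases bar_eig B hG h c γ with h3 | ⟨δ, h3⟩
  · exact ⟨none, h3⟩
  · exact ⟨some δ, sub_eq_zero.mpr h3⟩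

theorem bar_eq (hG : Good b f D p) {g : Module.End (ZMod p) L} (h : Pres B f g) {k : ℕ}
    (hk : g ^ (p ^ k) = 1) (c : b.support → ZMod p) : bar B g c = c := by
  classical
  have : Fintype ι := Fintype.ofFinite ι
  have hp0 : 0 < p ^ k := pow_pos (Fact.out : p.Prime).pos _
  obtain ⟨N, hN⟩ : ∃ N, p ^ k = N + 1 := ⟨p ^ k - 1, by omega⟩
  choose σ hσ using fun γ => bar_perm B hG h (N := N) (by rw [← hN]; exact hk) γ
  have hiter : ∀ (n : ℕ) (γ : ι) (c : b.support → ZMod p),
      lam b p (bar B (g ^ n) c) γ = lam b p c (σ^[n] γ) := by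
    intro n
    induction n with
    | zero => intro γ c; rw [pow_zero, bar_one]; rfl
    | succ n ih =>
      intro γ c
      rw [pow_succ', bar_mul B hG h (h.pow B n), hσ, ih, Function.iterate_succ_apply]
  have hid : ∀ γ, σ^[p ^ k] γ = γ := by
    intro γ
    apply lam_sep hG
    intro c
    rw [← hiter, hk, bar_one]
  have hbij : Function.Bijective σ := by
    have h1 : Function.Injective σ := by
      intro x y hxy
      have h2 : σ^[p ^ k] x = σ^[p ^ k] y := by
        rw [hN, Function.iterate_succ_apply, Function.iterate_succ_apply, hxy]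
      rwa [hid, hid] at h2
    exact Finite.injective_iff_bijective.mp h1
  let τ : Equiv.Perm ι := Equiv.ofBijective σ hbij
  have hτ : τ ^ (p ^ k) = 1 := by
    ext γ
    rw [← Equiv.Perm.iterate_eq_pow]
    exact hid γ
  have hτ1 : τ = 1 := by
    have h1 : orderOf τ ∣ p ^ k := orderOf_dvd_of_pow_eq_one hτ
    have h2 : orderOf τ ∣ (Fintype.card ι).factorial := by
      rw [← Fintype.card_perm]; exact orderOf_dvd_card
    have h3 : Nat.Coprime (p ^ k) (Fintype.card ι).factorial := by
      apply Nat.Coprime.pow_left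
      rw [Nat.coprime_factorial_iff (Fact.out : p.Prime).ne_one,
        (Fact.out : p.Prime).minFac_eq]
      have := hG.bound_card
      rw [Nat.card_eq_fintype_card] at this
      omega
    have h4 := Nat.dvd_gcd h1 h2
    rw [h3] at h4
    exact orderOf_eq_one_iff.mp (Nat.dvd_one.mp h4)
  have hσ1 : ∀ γ, σ γ = γ := fun γ => by
    have := congrArg (fun e : Equiv.Perm ι => e γ) hτ1
    exact this
  have hz : bar B g c - c = 0 := by
    apply lam_inj hG
    intro γ
    rw [lam_sub, hσ, hσ1, sub_self]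
  exact sub_eq_zero.mp hz

/-- Automorphisms of `p`-power order preserving `Fil 1` and `Fil 0` are unipotent. -/
theorem mem_UF_of_pow (hG : Good b f D p) {g : Module.End (ZMod p) L} (h : Pres B f g) {k : ℕ}
    (hk : g ^ (p ^ k) = 1) : g ∈ B.UF f 1 := by
  classical
  have : Fintype ι := Fintype.ofFinite ι
  have hH : ∀ c, g (HH B c) - HH B c ∈ B.Fil f 1 := by
    intro c
    have := bar_spec B hG h c
    rwa [bar_eq B hG h hk] at this
  obtain ⟨cf, hcf⟩ := exists_lam_f hG
  -- the images of root vectors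
  have hgen : ∀ g : Module.End (ZMod p) L, Pres B f g → g (HH B cf) - HH B cf ∈ B.Fil f 1 →
      ∀ γ, g (B.e γ) ∈ B.Fil f (f γ) := by
    intro g h hH γ
    have hlow : ∃ M : ℕ, ∀ u : b.support ⊕ ι, -(M : ℤ) ≤ wt f u := by
      obtain ⟨M, hM⟩ := (Set.finite_range (wt (b := b) f)).bddBelow
      refine ⟨M.natAbs, fun u => ?_⟩
      have := hM ⟨u, rfl⟩
      omega
    obtain ⟨M, hM⟩ := hlow
    have hstep : ∀ n : ℕ, -(M : ℤ) + n ≤ f γ → g (B.e γ) ∈ B.Fil f (-(M : ℤ) + n) := by
      intro n
      induction n with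
      | zero =>
        intro _ u hu
        have := hM u
        push_cast at hu
        omega
      | succ n ih =>
        intro hn
        push_cast at hn
        have ih' := ih (by omega)
        intro u hu
        push_cast at hu
        by_cases h1 : wt f u < -(M : ℤ) + n
        · exact ih' u h1
        have h2 : wt f u = -(M : ℤ) + n := by omega
        have h3 : ⁅g (HH B cf), g (B.e γ)⁆ = (f γ : ZMod p) • g (B.e γ) := by
          rw [← h.lie, lie_HH_e, hcf, map_smul]
        have h4 : ⁅g (HH B cf) - HH B cf, g (B.e γ)⁆ ∈ B.Fil f (1 + (-(M : ℤ) + n)) :=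
          B.lie_mem_Fil hG.isWt hH ih'
        have h5 := h4 u (by omega)
        rw [sub_lie, h3, map_sub, Finsupp.sub_apply, repr_lie_HH, map_smul, Finsupp.smul_apply,
          smul_eq_mul, ← sub_mul] at h5
        rcases mul_eq_zero.mp h5 with h6 | h6
        · exfalso
          have hfb := f_bound hG γ
          rcases u with i | α
          · rw [ev, Sum.elim_inl, sub_zero] at h6
            exact f_cast_ne hG γ h6
          · rw [ev, Sum.elim_inr, hcf, sub_eq_zero] at h6
            have := f_cast_inj hG h6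
            subst this
            rw [wt_inr] at h2
            omega
        · exact h6
    have h1 := hM (.inr γ)
    rw [wt_inr] at h1
    have h2 := hstep (f γ + M).toNat (by omega)
    have h3 : -(M : ℤ) + ((f γ + M).toNat : ℤ) = f γ := by omega
    rwa [h3] at h2
  have hFil : ∀ g : Module.End (ZMod p) L, Pres B f g → g (HH B cf) - HH B cf ∈ B.Fil f 1 →
      ∀ (k : ℤ), ∀ y ∈ B.Fil f k, g y ∈ B.Fil f k := by
    intro g h hH k y hy
    rw [sum_basis B y, map_add, map_sum, map_sum]
    refine add_mem (sum_mem fun i _ => ?_) (sum_mem fun α _ => ?_)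
    · rw [map_smul]
      by_cases h1 : 0 < k
      · rw [hy (.inl i) (by simpa using h1), zero_smul]; exact zero_mem _
      · exact Submodule.smul_mem _ _ (B.Fil_anti (by omega) (h.fil0 _ (by
          have := B.basis_mem_Fil f (.inl i)
          simpa using this)))
    · rw [map_smul]
      by_cases h1 : f α < k
      · rw [hy (.inr α) (by rw [wt_inr]; exact h1), zero_smul]; exact zero_mem _
      · exact Submodule.smul_mem _ _ (B.Fil_anti (by omega) (hgen g h hH α))
  have hpowH : ∀ n : ℕ, (g ^ n) (HH B cf) - HH B cf ∈ B.Fil f 1 := by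
    intro n
    induction n with
    | zero => simp
    | succ n ih =>
      rw [pow_succ', Module.End.mul_apply]
      have h1 := h.fil1 _ ih
      rw [map_sub] at h1
      have := add_mem h1 (hH cf)
      rwa [sub_add_sub_cancel] at this
  have hsub : ∀ γ : ι, ∀ y ∈ B.Fil f (f γ), y - B.basis.repr y (.inr γ) • B.e γ ∈
      B.Fil f (f γ + 1) := by
    intro γ y hy u hu
    rw [map_sub, map_smul, Finsupp.sub_apply, B.basis.repr_self, Finsupp.smul_single,
      Finsupp.single_apply, smul_eq_mul, mul_one]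
    split_ifs with h2
    · rw [h2, sub_self]
    · rw [sub_zero]
      by_cases h3 : wt f u < f γ
      · exact hy u h3
      · exfalso
        rcases u with i | α
        · simp only [wt_inl] at hu h3
          have := hG.ne γ
          omega
        · simp only [wt_inr] at hu h3
          apply h2
          rw [hG.inj (show f γ = f α by omega)]
  have hcoef : ∀ (γ : ι) (n : ℕ), B.basis.repr ((g ^ n) (B.e γ)) (.inr γ) =
      (B.basis.repr (g (B.e γ)) (.inr γ)) ^ n := by
    intro γ n
    induction n with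
    | zero => simp
    | succ n ih =>
      have h1 := hgen _ (h.pow B n) (hpowH n) γ
      have h2 := hsub γ _ h1
      have h3 := hFil g h (hH cf) _ _ h2
      have h4 := h3 (.inr γ) (by rw [wt_inr]; omega)
      rw [map_sub, map_sub, Finsupp.sub_apply, sub_eq_zero, map_smul, map_smul,
        Finsupp.smul_apply, ih, smul_eq_mul] at h4
      rw [pow_succ', Module.End.mul_apply, h4, pow_succ]
  have hone : ∀ γ, B.basis.repr (g (B.e γ)) (.inr γ) = 1 := by
    intro γ
    have h1 := hcoef γ (p ^ k)
    rw [hk, Module.End.one_apply, ZMod.pow_card_pow, B.basis.repr_self, Finsupp.single_apply,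
      if_pos rfl] at h1
    exact h1.symm
  refine ⟨h.lie, fun u => ?_⟩
  rcases u with i | γ
  · have h1 : B.basis (.inl i) = HH B (Pi.single i 1) := by
      rw [HH, Finset.sum_eq_single i]
      · simp
      · intro j _ hj
        rw [Pi.single_eq_of_ne hj, zero_smul]
      · simp
    rw [wt_inl, zero_add, h1]
    exact hH _
  · have h1 := hsub γ _ (hgen g h (hH cf) γ)
    rw [hone, one_smul] at h1
    exact h1

/-- elements of `UF f 1` have `p`-power order -/
theorem UF_pow (hG : Good b f D p) {g : Module.End (ZMod p) L} (hg : g ∈ B.UF f 1) :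
    ∃ k : ℕ, g ^ (p ^ k) = 1 := by
  classical
  have : Fintype ι := Fintype.ofFinite ι
  have h1 : ∀ (k : ℤ), ∀ y ∈ B.Fil f k, (g - 1) y ∈ B.Fil f (k + 1) := by
    intro k y hy
    rw [← B.basis.sum_repr y, map_sum]
    refine sum_mem fun u _ => ?_
    rw [map_smul]
    by_cases h1 : wt f u < k
    · rw [hy u h1, zero_smul]; exact zero_mem _
    · exact Submodule.smul_mem _ _ (B.Fil_anti (by omega) (hg.2 u))
  obtain ⟨M, hM⟩ : ∃ M : ℕ, ∀ u : b.support ⊕ ι, |wt f u| ≤ M := by
    obtain ⟨M, hM⟩ := (Set.finite_range (fun u : b.support ⊕ ι => |wt f u|)).bddAbove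
    refine ⟨M.natAbs, fun u => ?_⟩
    have := hM ⟨u, rfl⟩
    simp only at this
    omega
  have h2 : ∀ (n : ℕ) (y : L), ((g - 1) ^ n) y ∈ B.Fil f (-(M : ℤ) + n) := by
    intro n
    induction n with
    | zero =>
      intro y u hu
      have := hM u
      rw [abs_le] at this
      push_cast at hu
      omega
    | succ n ih =>
      intro y
      rw [pow_succ', Module.End.mul_apply]
      have := h1 _ _ (ih y)
      push_cast
      rwa [← add_assoc]
  have h3 : (g - 1) ^ (2 * M + 1) = 0 := by
    ext y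
    rw [LinearMap.zero_apply]
    apply B.basis.repr.injective
    rw [map_zero]
    ext u
    rw [Finsupp.zero_apply]
    apply h2 _ y
    have := hM u
    rw [abs_le] at this
    push_cast
    omega
  obtain ⟨k, hk⟩ : ∃ k, 2 * M + 1 ≤ p ^ k := by
    obtain ⟨k, hk⟩ := pow_unbounded_of_one_lt (2 * M + 1) (Fact.out : p.Prime).one_lt
    exact ⟨k, hk.le⟩
  refine ⟨k, ?_⟩
  rcases subsingleton_or_nontrivial (Module.End (ZMod p) L) with hs | hs
  · exact Subsingleton.elim _ _
  have : CharP (Module.End (ZMod p) L) p :=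
    charP_of_injective_algebraMap (algebraMap (ZMod p) _).injective p
  have h4 : (g - 1) ^ (p ^ k) = g ^ (p ^ k) - 1 ^ (p ^ k) :=
    sub_pow_char_pow_of_commute _ _ (Commute.one_right g)
  rw [pow_eq_zero_of_le hk h3, one_pow] at h4
  exact (sub_eq_zero.mp h4.symm)

end Syl

namespace ChevalleyBasis

open Syl

variable {L : Type*} [LieRing L] [LieAlgebra (ZMod p) L] (B : ChevalleyBasis b (ZMod p) L)

/-- The preimage `U` of the unipotent group has index prime to `p`, in any finite group acting by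
Lie algebra automorphisms and containing the root elements. -/
theorem index_coprime' (hG : Good b f D p) {G : Type*} [Group G] [Finite G]
    (ρ : G →* Module.End (ZMod p) L) (hρ : ∀ g x y, ρ g ⁅x, y⁆ = ⁅ρ g x, ρ g y⁆)
    (hx : ∀ α t, ∃ g, ρ g = B.x α t)
    (U : Subgroup G) (hU : ∀ g, g ∈ U ↔ ρ g ∈ B.UF f 1) : Nat.Coprime p U.index := by
  classical
  let φ : G →* (Module.End (ZMod p) L)ˣ := ρ.toHomUnits
  have hφ : ∀ g, ((φ g : (Module.End (ZMod p) L)ˣ) : Module.End (ZMod p) L) = ρ g := fun g => rfl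
  let ψ : G →* φ.range := φ.rangeRestrict
  have hψv : ∀ g, (((ψ g : φ.range) : (Module.End (ZMod p) L)ˣ) : Module.End (ZMod p) L) = ρ g :=
    fun g => rfl
  have hψ : Function.Surjective ψ := φ.rangeRestrict_surjective
  have h1UF : (1 : Module.End (ZMod p) L) ∈ B.UF f 1 :=
    ⟨fun _ _ => rfl, fun u => by simp⟩
  have hker : ψ.ker ≤ U := by
    intro g hg
    rw [hU]
    have h1 : ψ g = 1 := hg
    have h2 : ρ g = 1 := by rw [← hψv, h1]; rfl
    rw [h2]; exact h1UF
  let V : Subgroup φ.range := U.map ψ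
  have hidx : V.index = U.index := Subgroup.index_map_eq _ hψ hker
  have hV : ∀ x : φ.range, x ∈ V ↔
      ((x : (Module.End (ZMod p) L)ˣ) : Module.End (ZMod p) L) ∈ B.UF f 1 := by
    intro x
    constructor
    · rintro ⟨g, hg, rfl⟩
      rw [hψv]
      exact (hU g).mp hg
    · intro h
      obtain ⟨g, rfl⟩ := hψ x
      rw [hψv] at h
      exact ⟨g, (hU g).mpr h, rfl⟩
  rw [← hidx, Nat.Prime.coprime_iff_not_dvd (Fact.out : p.Prime)]
  intro hdvd
  have hfin : Finite φ.range := Finite.of_surjective ψ hψ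
  have hVp : IsPGroup p V := by
    rintro ⟨v, hv⟩
    obtain ⟨k, hk⟩ := UF_pow B hG ((hV v).mp hv)
    refine ⟨k, ?_⟩
    apply Subtype.ext
    apply Subtype.ext
    apply Units.ext
    simpa using hk
  obtain ⟨Q, hQ⟩ := hVp.exists_le_sylow
  have hne : V ≠ Q := by
    intro h
    apply Q.not_dvd_index
    rwa [← h]
  have hnil : Group.IsNilpotent Q := Q.isPGroup'.isNilpotent
  have hlt : V.subgroupOf Q < ⊤ := by
    rw [lt_top_iff_ne_top]
    intro h
    rw [Subgroup.subgroupOf_eq_top] at h
    exact hne (le_antisymm hQ h)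
  have hnc := Group.normalizerCondition_of_isNilpotent (G := Q) (V.subgroupOf Q) hlt
  obtain ⟨⟨g, hgQ⟩, hg1, hg2⟩ := SetLike.exists_of_lt hnc
  apply hg2
  rw [Subgroup.mem_subgroupOf]
  change g ∈ V
  rw [hV]
  obtain ⟨k, hk⟩ := Q.isPGroup' ⟨g, hgQ⟩
  have hk' : ((g : (Module.End (ZMod p) L)ˣ) : Module.End (ZMod p) L) ^ (p ^ k) = 1 := by
    have h1 := congrArg (fun z : Q => (((z : φ.range) : (Module.End (ZMod p) L)ˣ) :
      Module.End (ZMod p) L)) hk
    simpa using h1
  have hlie : ∀ g : φ.range, ∀ x y : L,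
      ((g : (Module.End (ZMod p) L)ˣ) : Module.End (ZMod p) L) ⁅x, y⁆ =
      ⁅((g : (Module.End (ZMod p) L)ˣ) : Module.End (ZMod p) L) x,
        ((g : (Module.End (ZMod p) L)ˣ) : Module.End (ZMod p) L) y⁆ := by
    intro g
    obtain ⟨a, rfl⟩ := hψ g
    rw [hψv]
    exact hρ a
  have hconj : ∀ (g : φ.range), (∀ v ∈ V, g * v * g⁻¹ ∈ V) → ∀ α, 0 < f α →
      ((g : (Module.End (ZMod p) L)ˣ) : Module.End (ZMod p) L) (B.e α) ∈ B.Fil f 1 := by
    intro g hg α hα
    apply mem_Fil_one_of_exp B hG
    intro t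
    obtain ⟨a, ha⟩ := hx α t
    have h1 : ψ a ∈ V := by
      rw [hV, hψv, ha]
      exact x_mem_UF_one B hG α hα t
    have h2 := hg _ h1
    rw [hV] at h2
    have h3 : (((g * ψ a * g⁻¹ : φ.range) : (Module.End (ZMod p) L)ˣ) : Module.End (ZMod p) L) =
        expNil (LieAlgebra.ad (ZMod p) L (t •
          ((g : (Module.End (ZMod p) L)ˣ) : Module.End (ZMod p) L) (B.e α))) := by
      push_cast
      rw [hψv, ha, ChevalleyBasis.x, mul_expNil_ad _ (hlie g), mul_assoc, Units.mul_inv, mul_one,
        map_smul]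
    rwa [h3] at h2
  have hn1 : ∀ v ∈ V, g * v * g⁻¹ ∈ V := by
    intro v hv
    rw [Subgroup.mem_normalizer_iff] at hg1
    have := (hg1 ⟨v, hQ hv⟩).mp hv
    exact this
  have hn2 : ∀ v ∈ V, g⁻¹ * v * g⁻¹⁻¹ ∈ V := by
    intro v hv
    have h3 := inv_mem hg1
    rw [Subgroup.mem_normalizer_iff] at h3
    have := (h3 ⟨v, hQ hv⟩).mp hv
    exact this
  have hpres : Pres B f ((g : (Module.End (ZMod p) L)ˣ) : Module.End (ZMod p) L) := by
    refine pres_of_e B hG (g' := ((g⁻¹ : φ.range) : (Module.End (ZMod p) L)ˣ)) (hlie g) ?_ ?_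
      (hconj g hn1) (hconj g⁻¹ hn2)
    · push_cast
      rw [Units.mul_inv]
    · push_cast
      rw [Units.inv_mul]
  exact mem_UF_of_pow B hG hpres hk'

/-- The preimage `U` of the unipotent group has index prime to `p`. -/
theorem index_coprime (hG : Good b f D p) {G : Type*} [Group G] [Finite G]
    (ρ : G →* Module.End (ZMod p) L) (hρ : ∀ g, ρ g ∈ B.elem) (hx : ∀ α t, ∃ g, ρ g = B.x α t)
    (U : Subgroup G) (hU : ∀ g, g ∈ U ↔ ρ g ∈ B.UF f 1) : Nat.Coprime p U.index :=
  B.index_coprime' hG ρ (fun g => B.elem_lie hG.isUnit720 (hρ g)) hx U hU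

end ChevalleyBasis

end Lie

end Ch4
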