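import Mathlib

/-!
Module TheoremF: splitting of a central extension of a filtered `p`-group by weights.
-/

set_option linter.unusedVariables false

namespace Ch4

namespace TF

open scoped commutatorElement

variable {Q : Type*} [Group Q]

/-- basic data -/
structure Setup (p : ℕ) (Z : Subgroup Q) (F : ℕ → Subgroup Q) (τ : Q) (c : ℕ) : Prop where
  hZF : ∀ i, Z ≤ F i
  hF1 : ∀ i, 1 ≤ i → F i ≤ F 1
  hanti : ∀ i, F (i + 1) ≤ F i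
  hFn : ∀ i, (F i).Normal
  hZc : ∀ z ∈ Z, ∀ x ∈ F 1, z * x = x * z
  hZp : ∀ z ∈ Z, z ^ p = 1
  hcomm : ∀ i k, 1 ≤ i → 1 ≤ k → ∀ x ∈ F i, ∀ y ∈ F k, ⁅x, y⁆ ∈ F (i + k)
  hZτ : ∀ z ∈ Z, τ * z * τ⁻¹ = z ^ c

/-- properties of the partial complement -/
structure Good (Z : Subgroup Q) (F : ℕ → Subgroup Q) (τ : Q) (k : ℕ) (R : Subgroup Q) : Prop where
  a : ∀ x ∈ R, τ * x * τ⁻¹ ∈ R
  b : ∀ g ∈ F 1, ∀ x ∈ R, g * x * g⁻¹ ∈ R
  c : ∀ x ∈ R, x ∈ Z → x = 1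
  d1 : R ≤ F k
  d2 : ∀ x ∈ F k, ∃ ζ ∈ Z, ζ⁻¹ * x ∈ R

/-- commutators of total weight at least `s` are in `R` -/
def Comm (F : ℕ → Subgroup Q) (R : Subgroup Q) (s : ℕ) : Prop :=
  ∀ i l, 1 ≤ i → 1 ≤ l → s ≤ i + l → ∀ x ∈ F i, ∀ y ∈ F l, ⁅x, y⁆ ∈ R

/-- `ζ` is the `Z`-component of `g` modulo `R` -/
def Cmp (Z R : Subgroup Q) (g ζ : Q) : Prop := ζ ∈ Z ∧ ζ⁻¹ * g ∈ R

section
variable {p : ℕ} {Z : Subgroup Q} {F : ℕ → Subgroup Q} {τ : Q} {c : ℕ}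
  (hs : Setup p Z F τ c) {k : ℕ} {R : Subgroup Q} (hR : Good Z F τ k R)

include hs hR

theorem cmp_mul {g h ζ η : Q} (hg : g ∈ F 1) (h1 : Cmp Z R g ζ) (h2 : Cmp Z R h η) :
    Cmp Z R (g * h) (ζ * η) := by
  refine ⟨Z.mul_mem h1.1 h2.1, ?_⟩
  have h3 := hs.hZc (η⁻¹) (Z.inv_mem h2.1) (ζ⁻¹ * g) ((F 1).mul_mem ((F 1).inv_mem (hs.hZF 1 h1.1)) hg)
  have : (ζ * η)⁻¹ * (g * h) = (ζ⁻¹ * g) * (η⁻¹ * h) := by
    calc (ζ * η)⁻¹ * (g * h) = η⁻¹ * (ζ⁻¹ * g) * h := by group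
      _ = (ζ⁻¹ * g) * η⁻¹ * h := by rw [h3]
      _ = _ := by group
  rw [this]
  exact R.mul_mem h1.2 h2.2

theorem cmp_conj {g ζ x : Q} (hx : x ∈ F 1) (h1 : Cmp Z R g ζ) : Cmp Z R (x * g * x⁻¹) ζ := by
  refine ⟨h1.1, ?_⟩
  have h3 := hs.hZc (ζ⁻¹) (Z.inv_mem h1.1) x hx
  have : ζ⁻¹ * (x * g * x⁻¹) = x * (ζ⁻¹ * g) * x⁻¹ := by
    calc ζ⁻¹ * (x * g * x⁻¹) = ζ⁻¹ * x * g * x⁻¹ := by group
      _ = _ := by rw [h3]; group
  rw [this]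
  exact hR.b x hx _ h1.2

omit hR in
theorem cmp_inv {g ζ : Q} (hg : g ∈ F 1) (h1 : Cmp Z R g ζ) : Cmp Z R g⁻¹ ζ⁻¹ := by
  refine ⟨Z.inv_mem h1.1, ?_⟩
  have h3 := hs.hZc (ζ⁻¹) (Z.inv_mem h1.1) g hg
  have : (ζ⁻¹)⁻¹ * g⁻¹ = (ζ⁻¹ * g)⁻¹ := by rw [h3]; group
  rw [this]
  exact R.inv_mem h1.2

theorem cmp_unique {g ζ η : Q} (hg : g ∈ F 1) (h1 : Cmp Z R g ζ) (h2 : Cmp Z R g η) : ζ = η := by
  have h3 : ζ⁻¹ * η ∈ R := by
    have := R.mul_mem h1.2 (R.inv_mem h2.2)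
    have e : ζ⁻¹ * g * (η⁻¹ * g)⁻¹ = ζ⁻¹ * η := by group
    rwa [e] at this
  have h4 := hR.c _ h3 (Z.mul_mem (Z.inv_mem h1.1) h2.1)
  calc ζ = ζ * (ζ⁻¹ * η) := by rw [h4, mul_one]
    _ = η := by group

theorem cmp_tau {g ζ : Q} (h1 : Cmp Z R g ζ) : Cmp Z R (τ * g * τ⁻¹) (ζ ^ c) := by
  refine ⟨Z.pow_mem h1.1 c, ?_⟩
  have h2 := hR.a _ h1.2
  rw [← hs.hZτ ζ h1.1]
  have : (τ * ζ * τ⁻¹)⁻¹ * (τ * g * τ⁻¹) = τ * (ζ⁻¹ * g) * τ⁻¹ := by group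
  rw [this]; exact h2

omit hs hR in
theorem cmp_of_mem {g : Q} (hg : g ∈ R) : Cmp Z R g 1 := ⟨Z.one_mem, by simpa using hg⟩

omit hs hR in
theorem mem_of_cmp {g : Q} (hg : Cmp Z R g 1) : g ∈ R := by simpa using hg.2

theorem cmp_pow {g ζ : Q} (hg : g ∈ F 1) (h1 : Cmp Z R g ζ) (n : ℕ) : Cmp Z R (g ^ n) (ζ ^ n) := by
  induction n with
  | zero => simpa using cmp_of_mem (R := R) (Z := Z) R.one_mem
  | succ n ih => rw [pow_succ, pow_succ]; exact cmp_mul hs hR ((F 1).pow_mem hg n) ih h1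

theorem cmp_zpow {g ζ : Q} (hg : g ∈ F 1) (h1 : Cmp Z R g ζ) (n : ℤ) :
    Cmp Z R (g ^ n) (ζ ^ n) := by
  cases n with
  | ofNat n => simpa using cmp_pow hs hR hg h1 n
  | negSucc n =>
    rw [zpow_negSucc, zpow_negSucc]
    exact cmp_inv hs ((F 1).pow_mem hg _) (cmp_pow hs hR hg h1 _)

omit hR in
theorem comm_mem_F1 {x y : Q} (hx : x ∈ F 1) (hy : y ∈ F 1) : ⁅x, y⁆ ∈ F 1 :=
  hs.hF1 (1 + 1) (by norm_num) (hs.hcomm 1 1 le_rfl le_rfl x hx y hy)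

theorem cmp_comm_mul {x x' y ζ ζ' : Q} (hx : x ∈ F 1) (hx' : x' ∈ F 1) (hy : y ∈ F 1)
    (h1 : Cmp Z R ⁅x, y⁆ ζ) (h2 : Cmp Z R ⁅x', y⁆ ζ') : Cmp Z R ⁅x * x', y⁆ (ζ * ζ') := by
  have e : ⁅x * x', y⁆ = (x * ⁅x', y⁆ * x⁻¹) * ⁅x, y⁆ := by
    simp only [commutatorElement_def]; group
  rw [e, hs.hZc ζ h1.1 ζ' (hs.hZF 1 h2.1)]
  exact cmp_mul hs hR ((hs.hFn 1).conj_mem _ (comm_mem_F1 hs hx' hy) x) (cmp_conj hs hR hx h2) h1

theorem cmp_comm_inv {x y ζ : Q} (hx : x ∈ F 1) (hy : y ∈ F 1)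
    (h1 : Cmp Z R ⁅x, y⁆ ζ) : Cmp Z R ⁅x⁻¹, y⁆ ζ⁻¹ := by
  have e : ⁅x⁻¹, y⁆ = x⁻¹ * ⁅x, y⁆⁻¹ * (x⁻¹)⁻¹ := by
    simp only [commutatorElement_def]; group
  rw [e]
  exact cmp_conj hs hR ((F 1).inv_mem hx) (cmp_inv hs (comm_mem_F1 hs hx hy) h1)

omit hR in
theorem cmp_comm_swap {x y ζ : Q} (hx : x ∈ F 1) (hy : y ∈ F 1)
    (h1 : Cmp Z R ⁅x, y⁆ ζ) : Cmp Z R ⁅y, x⁆ ζ⁻¹ := by
  have e : ⁅y, x⁆ = ⁅x, y⁆⁻¹ := (commutatorElement_inv x y).symm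
  rw [e]
  exact cmp_inv hs (comm_mem_F1 hs hx hy) h1

theorem cmp_comm_pow {x y ζ : Q} (hx : x ∈ F 1) (hy : y ∈ F 1)
    (h1 : Cmp Z R ⁅x, y⁆ ζ) (n : ℕ) : Cmp Z R ⁅x ^ n, y⁆ (ζ ^ n) := by
  induction n with
  | zero => simpa using cmp_of_mem (R := R) (Z := Z) R.one_mem
  | succ n ih =>
    rw [pow_succ, pow_succ]; exact cmp_comm_mul hs hR ((F 1).pow_mem hx n) hx hy ih h1

theorem cmp_comm_zpow {x y ζ : Q} (hx : x ∈ F 1) (hy : y ∈ F 1)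
    (h1 : Cmp Z R ⁅x, y⁆ ζ) (n : ℤ) : Cmp Z R ⁅x ^ n, y⁆ (ζ ^ n) := by
  cases n with
  | ofNat n => simpa using cmp_comm_pow hs hR hx hy h1 n
  | negSucc n =>
    rw [zpow_negSucc, zpow_negSucc]
    exact cmp_comm_inv hs hR ((F 1).pow_mem hx _) hy (cmp_comm_pow hs hR hx hy h1 _)

/-- second argument versions -/
theorem cmp_comm_pow' {x y ζ : Q} (hx : x ∈ F 1) (hy : y ∈ F 1)
    (h1 : Cmp Z R ⁅x, y⁆ ζ) (n : ℕ) : Cmp Z R ⁅x, y ^ n⁆ (ζ ^ n) := by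
  have h2 := cmp_comm_pow hs hR hy hx (cmp_comm_swap hs hx hy h1) n
  have h3 := cmp_comm_swap hs ((F 1).pow_mem hy n) hx h2
  simpa using h3

theorem cmp_comm_mul' {x y y' ζ ζ' : Q} (hx : x ∈ F 1) (hy : y ∈ F 1) (hy' : y' ∈ F 1)
    (h1 : Cmp Z R ⁅x, y⁆ ζ) (h2 : Cmp Z R ⁅x, y'⁆ ζ') : Cmp Z R ⁅x, y * y'⁆ (ζ * ζ') := by
  have h3 := cmp_comm_swap hs ((F 1).mul_mem hy hy') hx
    (cmp_comm_mul hs hR hy hy' hx (cmp_comm_swap hs hx hy h1) (cmp_comm_swap hs hx hy' h2))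
  have e : (ζ⁻¹ * ζ'⁻¹)⁻¹ = ζ * ζ' := by
    rw [mul_inv_rev, inv_inv, inv_inv]
    exact (hs.hZc ζ h1.1 ζ' (hs.hZF 1 h2.1)).symm
  rwa [e] at h3

end

section
variable {p : ℕ} {Z : Subgroup Q} {F : ℕ → Subgroup Q} {τ : Q} {c : ℕ}
  (hs : Setup p Z F τ c) {k : ℕ} {R : Subgroup Q} (hR : Good Z F τ k R)

include hs hR

/-- replace the first argument modulo `F (i+1)`. -/
theorem cmp_left {i l : ℕ} (hi : 1 ≤ i) (hl : 1 ≤ l) (hC : Comm F R (i + l + 1)) {x u y ζ : Q}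
    (hu : u ∈ F i) (hy : y ∈ F l) (hxu : x * u⁻¹ ∈ F (i + 1))
    (h1 : Cmp Z R ⁅u, y⁆ ζ) : Cmp Z R ⁅x, y⁆ ζ := by
  have h2 : ⁅x * u⁻¹, y⁆ ∈ R := hC (i + 1) l (by omega) hl (by omega) _ hxu _ hy
  have h3 := cmp_comm_mul hs hR (hs.hF1 (i + 1) (by omega) hxu) (hs.hF1 i hi hu)
    (hs.hF1 l hl hy) (cmp_of_mem h2) h1
  simpa using h3

theorem cmp_right {i l : ℕ} (hi : 1 ≤ i) (hl : 1 ≤ l) (hC : Comm F R (i + l + 1)) {x u y ζ : Q}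
    (hx : x ∈ F l) (hu : u ∈ F l) (hy : y ∈ F i) (hxu : x * u⁻¹ ∈ F (l + 1))
    (h1 : Cmp Z R ⁅y, u⁆ ζ) : Cmp Z R ⁅y, x⁆ ζ := by
  have h2 := cmp_left hs hR hl hi (by rwa [Nat.add_comm l i]) hu hy hxu
    (cmp_comm_swap hs (hs.hF1 i hi hy) (hs.hF1 l hl hu) h1)
  have h3 := cmp_comm_swap hs (hs.hF1 l hl hx) (hs.hF1 i hi hy) h2
  simpa using h3

/-- commutators of layers -/
theorem comm_step {S : Set ℕ} {y : ℕ → Q}
    (hS : ∀ i, 1 ≤ i → i ∉ S → F i ≤ F (i + 1)) (hy : ∀ i ∈ S, y i ∈ F i)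
    (hgen : ∀ i ∈ S, ∀ x ∈ F i, ∃ n : ℕ, x * (y i) ^ n ∈ F (i + 1))
    {i l : ℕ} (hi : 1 ≤ i) (hl : 1 ≤ l) (hC : Comm F R (i + l + 1))
    (h : i ∈ S → l ∈ S → ⁅y i, y l⁆ ∈ R) : ∀ x ∈ F i, ∀ z ∈ F l, ⁅x, z⁆ ∈ R := by
  intro x hx z hz
  by_cases hiS : i ∈ S
  · by_cases hlS : l ∈ S
    · obtain ⟨n, hn⟩ := hgen i hiS x hx
      obtain ⟨m, hm⟩ := hgen l hlS z hz
      have hyi := hy i hiS
      have hyl := hy l hlS
      have h1 := cmp_of_mem (Z := Z) (h hiS hlS)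
      have h2 : Cmp Z R ⁅y i, (y l) ^ m⁆ 1 := by
        simpa using cmp_comm_pow' hs hR (hs.hF1 i hi hyi) (hs.hF1 l hl hyl) h1 m
      have h2' : Cmp Z R ⁅y i, ((y l) ^ m)⁻¹⁆ 1 := by
        have := cmp_comm_swap hs (hs.hF1 l hl (inv_mem (pow_mem hyl m))) (hs.hF1 i hi hyi)
          (cmp_comm_inv hs hR (hs.hF1 l hl (pow_mem hyl m)) (hs.hF1 i hi hyi)
            (cmp_comm_swap hs (hs.hF1 i hi hyi) (hs.hF1 l hl (pow_mem hyl m)) h2))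
        simpa using this
      have h3 : Cmp Z R ⁅y i, z⁆ 1 :=
        cmp_right hs hR hi hl hC hz (inv_mem (pow_mem hyl m)) hyi (by simpa using hm) h2'
      have h4 : Cmp Z R ⁅(y i) ^ n, z⁆ 1 := by
        simpa using cmp_comm_pow hs hR (hs.hF1 i hi hyi) (hs.hF1 l hl hz) h3 n
      have h4' : Cmp Z R ⁅((y i) ^ n)⁻¹, z⁆ 1 := by
        simpa using cmp_comm_inv hs hR (hs.hF1 i hi (pow_mem hyi n)) (hs.hF1 l hl hz) h4
      exact mem_of_cmp (cmp_left hs hR hi hl hC (inv_mem (pow_mem hyi n)) hz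
        (by simpa using hn) h4')
    · exact hC i (l + 1) hi (by omega) (by omega) x hx z (hS l hl hlS hz)
  · exact hC (i + 1) l (by omega) hl (by omega) x (hS i hi hiS hx) z hz

/-- the weight argument -/
theorem weight_eq {a : ℕ → ℕ} {y : ℕ → Q} {i l : ℕ} (hi : 1 ≤ i) (hl : 1 ≤ l)
    (hC : Comm F R (i + l + 1)) (hyi : y i ∈ F i) (hyl : y l ∈ F l)
    (hτi : τ * y i * τ⁻¹ * ((y i) ^ (a i))⁻¹ ∈ F (i + 1))
    (hτl : τ * y l * τ⁻¹ * ((y l) ^ (a l))⁻¹ ∈ F (l + 1))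
    {ζ : Q} (h1 : Cmp Z R ⁅y i, y l⁆ ζ) : ζ ^ (a i * a l) = ζ ^ c := by
  have hi1 := hs.hF1 i hi hyi
  have hl1 := hs.hF1 l hl hyl
  have h2 := cmp_comm_pow' hs hR (hs.hF1 i hi (pow_mem hyi (a i))) hl1
    (cmp_comm_pow hs hR hi1 hl1 h1 (a i)) (a l)
  rw [← pow_mul] at h2
  have hτyi : τ * y i * τ⁻¹ ∈ F i := (hs.hFn i).conj_mem _ hyi τ
  have hτyl : τ * y l * τ⁻¹ ∈ F l := (hs.hFn l).conj_mem _ hyl τ
  have h3 := cmp_left hs hR hi hl hC (pow_mem hyi (a i)) (pow_mem hyl (a l)) hτi h2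
  have h4 := cmp_right hs hR hi hl hC hτyl (pow_mem hyl (a l)) hτyi hτl h3
  have h5 := cmp_tau hs hR h1
  have e : τ * ⁅y i, y l⁆ * τ⁻¹ = ⁅τ * y i * τ⁻¹, τ * y l * τ⁻¹⁆ := by
    simp only [commutatorElement_def]; group
  rw [e] at h5
  exact cmp_unique hs hR (comm_mem_F1 hs (hs.hF1 i hi hτyi) (hs.hF1 l hl hτyl)) h4 h5

/-- Jacobi identity modulo `R` -/
theorem jacobi {i k' l j : ℕ} (hi : 1 ≤ i) (hk : 1 ≤ k') (hl : 1 ≤ l) (hj : i + k' + l = j)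
    (hC : Comm F R (j + 1)) {x y z A B C : Q} (hx : x ∈ F i) (hy : y ∈ F k') (hz : z ∈ F l)
    (hA : Cmp Z R ⁅⁅x, y⁆, z⁆ A) (hB : Cmp Z R ⁅⁅y, z⁆, x⁆ B) (hCc : Cmp Z R ⁅⁅z, x⁆, y⁆ C) :
    A * B * C = 1 := by
  have hx1 := hs.hF1 i hi hx
  have hy1 := hs.hF1 k' hk hy
  have hz1 := hs.hF1 l hl hz
  have hxy := comm_mem_F1 hs hx1 hy1
  have hyz := comm_mem_F1 hs hy1 hz1
  have hzx := comm_mem_F1 hs hz1 hx1
  have hxy' := hs.hcomm i k' hi hk x hx y hy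
  have hyz' := hs.hcomm k' l hk hl y hy z hz
  have hzx' := hs.hcomm l i hl hi z hz x hx
  have h1 : Cmp Z R ⁅⁅x, y⁆, ⁅y, z⁆⁆ 1 :=
    cmp_of_mem (hC (i + k') (k' + l) (by omega) (by omega) (by omega) _ hxy' _ hyz')
  have h2 : Cmp Z R ⁅⁅y, z⁆, ⁅z, x⁆⁆ 1 :=
    cmp_of_mem (hC (k' + l) (l + i) (by omega) (by omega) (by omega) _ hyz' _ hzx')
  have h3 : Cmp Z R ⁅⁅z, x⁆, ⁅x, y⁆⁆ 1 :=
    cmp_of_mem (hC (l + i) (i + k') (by omega) (by omega) (by omega) _ hzx' _ hxy')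
  have h4 := cmp_comm_mul' hs hR hxy hyz hz1 h1 hA
  have h5 := cmp_comm_mul' hs hR hyz hzx hx1 h2 hB
  have h6 := cmp_comm_mul' hs hR hzx hxy hy1 h3 hCc
  have m4 := comm_mem_F1 hs hxy ((F 1).mul_mem hyz hz1)
  have m5 := comm_mem_F1 hs hyz ((F 1).mul_mem hzx hx1)
  have m6 := comm_mem_F1 hs hzx ((F 1).mul_mem hxy hy1)
  have h7 := cmp_mul hs hR ((F 1).mul_mem m4 m5) (cmp_mul hs hR m4 h4 h5) h6
  have e : ⁅⁅x, y⁆, ⁅y, z⁆ * z⁆ * ⁅⁅y, z⁆, ⁅z, x⁆ * x⁆ * ⁅⁅z, x⁆, ⁅x, y⁆ * y⁆ = 1 := by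
    simp only [commutatorElement_def]; group
  rw [e] at h7
  have h8 := cmp_unique hs hR (F 1).one_mem h7 (cmp_of_mem R.one_mem)
  simpa using h8

end

/-- powers of an element of `Z` -/
theorem eq_one_of_pow {p : ℕ} [Fact p.Prime] {ζ : Q} (hζ : ζ ^ p = 1) {m n : ℕ}
    (h : ζ ^ m = ζ ^ n) (hmn : ¬ m ≡ n [MOD p]) : ζ = 1 := by
  rcases (Nat.dvd_prime (Fact.out : p.Prime)).1 (orderOf_dvd_of_pow_eq_one hζ) with h1 | h1
  · exact orderOf_eq_one_iff.1 h1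
  · rw [pow_eq_pow_iff_modEq, h1] at h
    exact absurd h hmn

theorem zpow_eq_one_of_dvd {p : ℕ} {ζ : Q} (hζ : ζ ^ p = 1) {n : ℤ} (h : (p : ℤ) ∣ n) :
    ζ ^ n = 1 := by
  obtain ⟨m, rfl⟩ := h
  rw [zpow_mul, zpow_natCast, hζ, one_zpow]

theorem dvd_of_zpow_mem {p : ℕ} [Fact p.Prime] {G : Subgroup Q} {y : Q} (hy : y ^ p = 1)
    (hyG : y ∉ G) {n : ℤ} (h : y ^ n ∈ G) : (p : ℤ) ∣ n := by
  by_contra hn
  have hp : Prime (p : ℤ) := Nat.prime_iff_prime_int.1 (Fact.out : p.Prime)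
  have hc : IsCoprime (p : ℤ) n := (hp.coprime_iff_not_dvd).2 hn
  obtain ⟨u, v, huv⟩ := hc
  apply hyG
  have : y = (y ^ n) ^ v := by
    calc y = y ^ (u * p + v * n) := by rw [huv, zpow_one]
      _ = (y ^ n) ^ v := by
        rw [zpow_add, mul_comm u, zpow_mul, zpow_natCast, hy, one_zpow, one_mul, mul_comm v,
          zpow_mul]
  rw [this]
  exact G.zpow_mem h v

/-- adjoin an element normalising `R`. -/
def adj (R : Subgroup Q) (y : Q) (h : ∀ n : ℤ, ∀ r ∈ R, y ^ n * r * (y ^ n)⁻¹ ∈ R) :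
    Subgroup Q where
  carrier := {x | ∃ n : ℤ, ∃ r ∈ R, x = y ^ n * r}
  mul_mem' := by
    rintro _ _ ⟨n, r, hr, rfl⟩ ⟨m, s, hs, rfl⟩
    refine ⟨n + m, (y ^ (-m) * r * (y ^ (-m))⁻¹) * s, R.mul_mem (h (-m) r hr) hs, ?_⟩
    group
  one_mem' := ⟨0, 1, R.one_mem, by simp⟩
  inv_mem' := by
    rintro _ ⟨n, r, hr, rfl⟩
    refine ⟨-n, y ^ n * r⁻¹ * (y ^ n)⁻¹, h n _ (R.inv_mem hr), ?_⟩
    group

theorem le_adj {R : Subgroup Q} {y : Q} {h} : R ≤ adj R y h := fun r hr => ⟨0, r, hr, by simp⟩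

theorem self_mem_adj {R : Subgroup Q} {y : Q} {h} : y ∈ adj R y h := ⟨1, 1, R.one_mem, by simp⟩

section
variable {p : ℕ} [Fact p.Prime] {Z : Subgroup Q} {F : ℕ → Subgroup Q} {τ : Q} {c : ℕ}
  (hs : Setup p Z F τ c) {k : ℕ} {R' : Subgroup Q} (hR : Good Z F τ (k + 1) R')

include hs hR

theorem stage (hk : 1 ≤ k) (hC : Comm F R' (k + 1)) {yk z : Q}
    (hyk : yk ∈ F k) (hyk' : yk ∉ F (k + 1)) (hykp : yk ^ p = 1)
    (hgen : ∀ x ∈ F k, ∃ n : ℕ, x * yk ^ n ∈ F (k + 1)) (hz : z ∈ Z)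
    (hτ : ∃ r ∈ R', ∃ n : ℕ, τ * (yk * z) * τ⁻¹ = r * (yk * z) ^ n) :
    ∃ R : Subgroup Q, Good Z F τ k R ∧ R' ≤ R ∧ yk * z ∈ R := by
  have hzk : z ∈ F k := hs.hZF k hz
  have hy1 : yk * z ∈ F k := (F k).mul_mem hyk hzk
  have hy2 : yk * z ∈ F 1 := hs.hF1 k hk hy1
  have hcm : Commute yk z := (hs.hZc z hz yk (hs.hF1 k hk hyk)).symm
  have hpw : ∀ n : ℤ, (yk * z) ^ n = yk ^ n * z ^ n := fun n => hcm.mul_zpow n
  have h : ∀ n : ℤ, ∀ r ∈ R', (yk * z) ^ n * r * ((yk * z) ^ n)⁻¹ ∈ R' :=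
    fun n r hr => hR.b _ ((F 1).zpow_mem hy2 n) r hr
  refine ⟨adj R' (yk * z) h, ⟨?_, ?_, ?_, ?_, ?_⟩, le_adj, self_mem_adj⟩
  · obtain ⟨r, hr, n, hn⟩ := hτ
    have h1 : τ * (yk * z) * τ⁻¹ ∈ adj R' (yk * z) h := by
      rw [hn]
      exact Subgroup.mul_mem _ (le_adj hr) (Subgroup.pow_mem _ self_mem_adj n)
    rintro _ ⟨m, s, hs', rfl⟩
    have e : τ * ((yk * z) ^ m * s) * τ⁻¹ = (τ * (yk * z) * τ⁻¹) ^ m * (τ * s * τ⁻¹) := by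
      rw [conj_zpow]; group
    rw [e]
    exact Subgroup.mul_mem _ (Subgroup.zpow_mem _ h1 m) (le_adj (hR.a s hs'))
  · intro g hg
    have h1 : g * (yk * z) * g⁻¹ ∈ adj R' (yk * z) h := by
      have h2 : ⁅g, yk * z⁆ ∈ R' := hC 1 k le_rfl hk (by omega) g hg _ hy1
      have e : g * (yk * z) * g⁻¹ = ⁅g, yk * z⁆ * (yk * z) := by
        simp only [commutatorElement_def]; group
      rw [e]
      exact Subgroup.mul_mem _ (le_adj h2) self_mem_adj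
    rintro _ ⟨m, s, hs', rfl⟩
    have e : g * ((yk * z) ^ m * s) * g⁻¹ = (g * (yk * z) * g⁻¹) ^ m * (g * s * g⁻¹) := by
      rw [conj_zpow]; group
    rw [e]
    exact Subgroup.mul_mem _ (Subgroup.zpow_mem _ h1 m) (le_adj (hR.b g hg s hs'))
  · rintro _ ⟨n, r, hr, rfl⟩ hZ
    have h1 : (yk * z) ^ n ∈ F (k + 1) := by
      have := (F (k + 1)).mul_mem (hs.hZF (k + 1) hZ) ((F (k + 1)).inv_mem (hR.d1 hr))
      simpa using this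
    have h2 : yk ^ n ∈ F (k + 1) := by
      rw [hpw n] at h1
      have := (F (k + 1)).mul_mem h1
        ((F (k + 1)).inv_mem ((F (k + 1)).zpow_mem (hs.hZF (k + 1) hz) n))
      simpa using this
    have h3 := dvd_of_zpow_mem hykp hyk' h2
    have h4 : (yk * z) ^ n = 1 := by
      rw [hpw n, zpow_eq_one_of_dvd hykp h3, zpow_eq_one_of_dvd (hs.hZp z hz) h3, one_mul]
    rw [h4, one_mul] at hZ ⊢
    exact hR.c r hr hZ
  · rintro _ ⟨n, r, hr, rfl⟩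
    exact (F k).mul_mem ((F k).zpow_mem hy1 n) (hs.hanti k (hR.d1 hr))
  · intro x hx
    obtain ⟨n, hn⟩ := hgen x hx
    obtain ⟨ζ, hζ, h1⟩ := hR.d2 _ hn
    refine ⟨ζ * z ^ n, Z.mul_mem hζ (Z.pow_mem hz n), ?_⟩
    have h2 : (ζ * z ^ n)⁻¹ * x = (ζ⁻¹ * (x * yk ^ n)) * ((yk * z) ^ n)⁻¹ := by
      have e1 : (yk * z) ^ n = yk ^ n * z ^ n := hcm.mul_pow n
      have hxζ : (ζ⁻¹ * x) ∈ F 1 :=
        (F 1).mul_mem ((F 1).inv_mem (hs.hZF 1 hζ)) (hs.hF1 k hk hx)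
      have e2 := hs.hZc ((z ^ n)⁻¹) (Z.inv_mem (Z.pow_mem hz n)) (ζ⁻¹ * x) hxζ
      calc (ζ * z ^ n)⁻¹ * x = (z ^ n)⁻¹ * (ζ⁻¹ * x) := by group
        _ = (ζ⁻¹ * x) * (z ^ n)⁻¹ := e2
        _ = (ζ⁻¹ * x) * yk ^ n * (z ^ n * yk ^ n)⁻¹ := by group
        _ = (ζ⁻¹ * (x * yk ^ n)) * (yk ^ n * z ^ n)⁻¹ := by
          rw [(hcm.pow_pow n n).eq]; group
        _ = _ := by rw [e1]
    rw [h2]
    exact Subgroup.mul_mem _ (le_adj h1) (Subgroup.inv_mem _ (Subgroup.pow_mem _ self_mem_adj n))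

/-- choice of `z` when the weight is different from that of `Z` -/
theorem choose_z (hk : 1 ≤ k) {yk : Q} {a : ℕ} (hyk : yk ∈ F k)
    (hyτ : τ * yk * τ⁻¹ * (yk ^ a)⁻¹ ∈ F (k + 1)) (hac : ¬ a ≡ c [MOD p]) :
    ∃ z ∈ Z, ∃ r ∈ R', ∃ n : ℕ, τ * (yk * z) * τ⁻¹ = r * (yk * z) ^ n := by
  obtain ⟨ζ, hζ, h1⟩ := hR.d2 _ hyτ
  set r := ζ⁻¹ * (τ * yk * τ⁻¹ * (yk ^ a)⁻¹) with hr
  have hp : Prime (p : ℤ) := Nat.prime_iff_prime_int.1 (Fact.out : p.Prime)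
  have hnd : ¬ (p : ℤ) ∣ (a : ℤ) - c := by
    intro h
    apply hac
    exact ((Int.natCast_modEq_iff).1 ((Int.modEq_iff_dvd).2 h)).symm
  obtain ⟨u, v, huv⟩ := (hp.coprime_iff_not_dvd).2 hnd
  -- u * p + v * (a - c) = 1
  have hζp := hs.hZp ζ hζ
  refine ⟨ζ ^ v, Z.zpow_mem hζ v, r, h1, a, ?_⟩
  set z := ζ ^ v with hzdef
  have hz : z ∈ Z := Z.zpow_mem hζ v
  have hcm : Commute yk z := (hs.hZc z hz yk (hs.hF1 k hk hyk)).symm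
  have e1 : ζ * z ^ c = z ^ a := by
    have h2 : ζ = z ^ ((a : ℤ) - c) := by
      rw [hzdef, ← zpow_mul]
      calc ζ = ζ ^ (u * p + v * ((a : ℤ) - c)) := by rw [huv, zpow_one]
        _ = _ := by rw [zpow_add, mul_comm u, zpow_mul, zpow_natCast, hζp, one_zpow, one_mul]
    rw [h2, ← zpow_natCast, ← zpow_natCast, ← zpow_add]
    congr 1; ring
  have e2 : τ * yk * τ⁻¹ = ζ * r * yk ^ a := by rw [hr]; group
  have e3 := hs.hZτ z hz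
  have hr1 : r ∈ F 1 := hs.hF1 (k + 1) (by omega) (hR.d1 h1)
  have hya : yk ^ a ∈ F 1 := (F 1).pow_mem (hs.hF1 k hk hyk) a
  have hz1 : z ^ c ∈ F 1 := (F 1).pow_mem (hs.hZF 1 hz) c
  calc τ * (yk * z) * τ⁻¹ = (τ * yk * τ⁻¹) * (τ * z * τ⁻¹) := by group
    _ = ζ * (r * yk ^ a * z ^ c) := by rw [e2, e3]; group
    _ = (r * yk ^ a * z ^ c) * ζ := hs.hZc ζ hζ _ ((F 1).mul_mem ((F 1).mul_mem hr1 hya) hz1)
    _ = r * yk ^ a * (ζ * z ^ c) := by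
      rw [hs.hZc ζ hζ (z ^ c) hz1]; group
    _ = r * (yk ^ a * z ^ a) := by rw [e1]; group
    _ = r * (yk * z) ^ a := by rw [hcm.mul_pow a]

theorem pow_form (hk : 1 ≤ k) {yk ζ r0 : Q} {a : ℕ} (hyk : yk ∈ F k) (hζ : ζ ∈ Z)
    (hr0 : r0 ∈ R') (m : ℕ) : ∃ r ∈ R', (ζ * r0 * yk ^ a) ^ m = ζ ^ m * r * yk ^ (a * m) := by
  induction m with
  | zero => exact ⟨1, R'.one_mem, by simp⟩
  | succ m ih =>
    obtain ⟨r, hr, e⟩ := ih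
    have hy1 : yk ^ (a * m) ∈ F 1 := (F 1).pow_mem (hs.hF1 k hk hyk) _
    have hr1 : r ∈ F 1 := hs.hF1 (k + 1) (by omega) (hR.d1 hr)
    refine ⟨r * (yk ^ (a * m) * r0 * (yk ^ (a * m))⁻¹), R'.mul_mem hr (hR.b _ hy1 _ hr0), ?_⟩
    have e2 := hs.hZc ζ hζ (r * yk ^ (a * m)) ((F 1).mul_mem hr1 hy1)
    rw [pow_succ, e]
    calc ζ ^ m * r * yk ^ (a * m) * (ζ * r0 * yk ^ a)
        = ζ ^ m * ((r * yk ^ (a * m)) * ζ) * r0 * yk ^ a := by group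
      _ = ζ ^ m * (ζ * (r * yk ^ (a * m))) * r0 * yk ^ a := by rw [e2]
      _ = _ := by rw [pow_succ, mul_add, pow_add, mul_one]; group

theorem tau_iter (hk : 1 ≤ k) {yk ζ r0 : Q} {a : ℕ} (hyk : yk ∈ F k) (hζ : ζ ∈ Z)
    (hr0 : r0 ∈ R') (hτy : τ * yk * τ⁻¹ = ζ * r0 * yk ^ a) (hac : a ≡ c [MOD p]) (n : ℕ) :
    ∃ e : ℕ, ∃ r ∈ R', (e * a ≡ n * a ^ n [MOD p]) ∧
      τ ^ n * yk * (τ ^ n)⁻¹ = ζ ^ e * r * yk ^ (a ^ n) := by
  induction n with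
  | zero => exact ⟨0, 1, R'.one_mem, by simp [Nat.ModEq], by simp⟩
  | succ n ih =>
    obtain ⟨e, r, hr, h1, h2⟩ := ih
    obtain ⟨r', hr', h3⟩ := pow_form hs hR hk hyk hζ hr0 (a := a) (a ^ n)
    refine ⟨c * e + a ^ n, τ * r * τ⁻¹ * r', R'.mul_mem (hR.a r hr) hr', ?_, ?_⟩
    · have h4 : c * e + a ^ n ≡ a * e + a ^ n [MOD p] :=
        Nat.ModEq.add_right _ (Nat.ModEq.mul_right _ hac.symm)
      calc (c * e + a ^ n) * a ≡ (a * e + a ^ n) * a [MOD p] := Nat.ModEq.mul_right _ h4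
        _ = a * (e * a) + a ^ (n + 1) := by ring
        _ ≡ a * (n * a ^ n) + a ^ (n + 1) [MOD p] :=
          Nat.ModEq.add_right _ (Nat.ModEq.mul_left _ h1)
        _ = (n + 1) * a ^ (n + 1) := by ring
    · have hrt : τ * r * τ⁻¹ ∈ F 1 := hs.hF1 (k + 1) (by omega) (hR.d1 (hR.a r hr))
      have e3 := hs.hZc (ζ ^ (a ^ n)) (Z.pow_mem hζ _) _ hrt
      calc τ ^ (n + 1) * yk * (τ ^ (n + 1))⁻¹ = τ * (τ ^ n * yk * (τ ^ n)⁻¹) * τ⁻¹ := by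
            rw [pow_succ' τ n]; group
        _ = (τ * ζ * τ⁻¹) ^ e * (τ * r * τ⁻¹) * (τ * yk * τ⁻¹) ^ (a ^ n) := by
            rw [h2, conj_pow, conj_pow]; group
        _ = (ζ ^ c) ^ e * (τ * r * τ⁻¹) * (ζ ^ (a ^ n) * r' * yk ^ (a * a ^ n)) := by
            rw [hs.hZτ ζ hζ, hτy, h3]
        _ = (ζ ^ c) ^ e * ((τ * r * τ⁻¹) * ζ ^ (a ^ n)) * r' * yk ^ (a * a ^ n) := by group
        _ = (ζ ^ c) ^ e * (ζ ^ (a ^ n) * (τ * r * τ⁻¹)) * r' * yk ^ (a * a ^ n) := by rw [e3]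
        _ = ζ ^ (c * e + a ^ n) * (τ * r * τ⁻¹ * r') * yk ^ (a ^ (n + 1)) := by
            rw [← pow_mul, pow_add, pow_succ' a n]; group

/-- at the level of the weight of `Z` the obstruction vanishes since `τ` has order prime to `p` -/
theorem tau_form (hk : 1 ≤ k) {yk : Q} {a q : ℕ} (hyk : yk ∈ F k) (hyk' : yk ∉ F (k + 1))
    (hykp : yk ^ p = 1) (hτ : τ ^ q = 1) (hq : Nat.Coprime q p)
    (hyτ : τ * yk * τ⁻¹ * (yk ^ a)⁻¹ ∈ F (k + 1)) (hac : a ≡ c [MOD p]) (z : Q) (hz : z ∈ Z) :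
    ∃ r ∈ R', ∃ n : ℕ, τ * (yk * z) * τ⁻¹ = r * (yk * z) ^ n := by
  obtain ⟨ζ, hζ, h1⟩ := hR.d2 _ hyτ
  set r := ζ⁻¹ * (τ * yk * τ⁻¹ * (yk ^ a)⁻¹) with hr
  have e2 : τ * yk * τ⁻¹ = ζ * r * yk ^ a := by rw [hr]; group
  obtain ⟨e, s, hs', h3, h4⟩ := tau_iter hs hR hk hyk hζ h1 e2 hac q
  have h5 : yk ^ ((1 : ℤ) - (a ^ q : ℕ)) = ζ ^ e * s := by
    rw [hτ] at h4
    rw [zpow_sub, zpow_one, zpow_natCast]
    calc yk * (yk ^ a ^ q)⁻¹ = (1 * yk * 1⁻¹) * (yk ^ a ^ q)⁻¹ := by group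
      _ = ζ ^ e * s := by rw [h4]; group
  have h6 : yk ^ ((1 : ℤ) - (a ^ q : ℕ)) ∈ F (k + 1) := by
    rw [h5]
    exact (F (k + 1)).mul_mem ((F (k + 1)).pow_mem (hs.hZF _ hζ) e) (hR.d1 hs')
  have h7 := dvd_of_zpow_mem hykp hyk' h6
  rw [zpow_eq_one_of_dvd hykp h7] at h5
  have h8 : s ∈ Z := by
    have : s = (ζ ^ e)⁻¹ := by
      calc s = (ζ ^ e)⁻¹ * (ζ ^ e * s) := by group
        _ = _ := by rw [← h5, mul_one]
    rw [this]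
    exact Z.inv_mem (Z.pow_mem hζ e)
  have h9 := hR.c s hs' h8
  rw [h9, mul_one] at h5
  have hζ1 : ζ = 1 := by
    by_contra hne
    have ho : orderOf ζ = p := orderOf_eq_prime (hs.hZp ζ hζ) hne
    have hpe : p ∣ e := by rw [← ho]; exact orderOf_dvd_of_pow_eq_one h5.symm
    have h10 : p ∣ q * a ^ q := (Nat.ModEq.dvd_iff h3 dvd_rfl).1 (hpe.mul_right a)
    have hpp : p.Prime := Fact.out
    rcases hpp.dvd_mul.1 h10 with h | h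
    · have := Nat.dvd_gcd h dvd_rfl
      rw [hq] at this
      exact hpp.one_lt.ne' (Nat.dvd_one.1 this)
    · have h11 : (p : ℤ) ∣ 1 := by
        have h12 : (p : ℤ) ∣ ((a ^ q : ℕ) : ℤ) := Int.natCast_dvd_natCast.2 h
        have := dvd_add h7 h12
        simpa using this
      have : p ∣ 1 := by exact_mod_cast h11
      exact hpp.one_lt.ne' (Nat.dvd_one.1 this)
  rw [hζ1, one_mul] at e2
  have hcm : Commute yk z := (hs.hZc z hz yk (hs.hF1 k hk hyk)).symm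
  have ez : z ^ c = z ^ a := by
    have h12 : orderOf z ∣ p := orderOf_dvd_of_pow_eq_one (hs.hZp z hz)
    exact pow_eq_pow_iff_modEq.2 ((hac.of_dvd h12).symm)
  refine ⟨r, h1, a, ?_⟩
  calc τ * (yk * z) * τ⁻¹ = (τ * yk * τ⁻¹) * (τ * z * τ⁻¹) := by group
    _ = r * yk ^ a * z ^ a := by rw [e2, hs.hZτ z hz, ez]
    _ = r * (yk * z) ^ a := by rw [hcm.mul_pow a]; group

end

end TF

section Main

open TF

open scoped commutatorElement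

theorem theoremF {Q : Type*} [Group Q] (p : ℕ) [Fact p.Prime]
    (Z : Subgroup Q) (F : ℕ → Subgroup Q) (K : ℕ)
    (hZn : Z.Normal) (hFn : ∀ i, (F i).Normal)
    (hanti : ∀ i, F (i + 1) ≤ F i) (htop : ∀ i, K < i → F i = Z)
    (hZc : ∀ z ∈ Z, ∀ x ∈ F 1, z * x = x * z) (hZp : ∀ z ∈ Z, z ^ p = 1)
    (hcomm : ∀ i k, 1 ≤ i → 1 ≤ k → ∀ x ∈ F i, ∀ y ∈ F k, x * y * x⁻¹ * y⁻¹ ∈ F (i + k))
    (τ : Q) (q : ℕ) (hτ : τ ^ q = 1) (hq : Nat.Coprime q p)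
    (S : Set ℕ) (hS1 : ∀ i ∈ S, 1 ≤ i) (y : ℕ → Q) (a : ℕ → ℕ) (c j : ℕ)
    (hS : ∀ i, 1 ≤ i → i ∉ S → F i ≤ F (i + 1))
    (hy : ∀ i ∈ S, y i ∈ F i) (hy' : ∀ i ∈ S, y i ∉ F (i + 1)) (hyp : ∀ i ∈ S, (y i) ^ p = 1)
    (hgen : ∀ i ∈ S, ∀ x ∈ F i, ∃ n : ℕ, x * (y i) ^ n ∈ F (i + 1))
    (hyτ : ∀ i ∈ S, τ * y i * τ⁻¹ * ((y i) ^ (a i))⁻¹ ∈ F (i + 1))
    (hZτ : ∀ z ∈ Z, τ * z * τ⁻¹ = z ^ c)
    (hw : ∀ i ∈ S, ∀ k ∈ S, a i * a k ≡ c [MOD p] → i + k = j)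
    (hw2 : ∀ k ∈ S, (a k ≡ c [MOD p] ↔ k = j))
    (N : ℕ → ℕ → ℤ) (hN0 : ∀ i k, i + k ∉ S → N i k = 0)
    (hN : ∀ i ∈ S, ∀ k ∈ S, i + k ∈ S →
      y i * y k * (y i)⁻¹ * (y k)⁻¹ * ((y (i + k)) ^ (N i k))⁻¹ ∈ F (i + k + 1))
    (hRL : (∀ i ∈ S, ∀ k ∈ S, i + k ≠ j) ∨
      (j ∈ S ∧ ∃ i0 ∈ S, ∃ k0 ∈ S, i0 + k0 = j ∧ ¬ (p : ℤ) ∣ N i0 k0 ∧
        ∀ o : ℕ → ℕ → Q,
          (∀ i ∈ S, ∀ k ∈ S, i + k = j → o i k ∈ Z) →
          (∀ i ∈ S, ∀ k ∈ S, i + k = j → o k i = (o i k)⁻¹) →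
          (∀ i ∈ S, ∀ k ∈ S, ∀ l ∈ S, i + k + l = j →
            (o (i + k) l) ^ (N i k) * (o (k + l) i) ^ (N k l) * (o (l + i) k) ^ (N l i) = 1) →
          o i0 k0 = 1 →
          ∀ i ∈ S, ∀ k ∈ S, i + k = j → o i k = 1)) :
    ∃ R : Subgroup Q, (∀ x ∈ R, τ * x * τ⁻¹ ∈ R) ∧ (∀ g ∈ F 1, ∀ x ∈ R, g * x * g⁻¹ ∈ R) ∧
      R ⊓ Z = ⊥ ∧ R ⊔ Z = F 1 := by
  have hant : ∀ i m, F (i + m) ≤ F i := by
    intro i m
    induction m with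
    | zero => exact le_rfl
    | succ m ih => exact (hanti (i + m)).trans ih
  have hZF : ∀ i, Z ≤ F i := by
    intro i
    have := hant i (K + 1)
    rwa [htop (i + (K + 1)) (by omega)] at this
  have hF1 : ∀ i, 1 ≤ i → F i ≤ F 1 := by
    intro i hi
    obtain ⟨m, rfl⟩ := Nat.exists_eq_add_of_le hi
    exact hant 1 m
  have hs : Setup p Z F τ c := ⟨hZF, hF1, hanti, hFn, hZc, hZp,
    fun i k hi hk x hx y hy => hcomm i k hi hk x hx y hy, hZτ⟩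
  have step : ∀ k, 1 ≤ k → (∃ R', Good Z F τ (k + 1) R' ∧ Comm F R' (k + 1)) →
      ∃ R, Good Z F τ k R ∧ Comm F R k := by
    rintro k hk ⟨R', hR', hC'⟩
    suffices h : ∃ R, Good Z F τ k R ∧ R' ≤ R ∧
        ∀ i ∈ S, ∀ l ∈ S, i + l = k → ⁅y i, y l⁆ ∈ R by
      obtain ⟨R, h1, h2, h3⟩ := h
      refine ⟨R, h1, ?_⟩
      intro i l hi hl hkl x hx z hz
      rcases hkl.eq_or_lt with h | h
      · subst h
        exact comm_step hs h1 hS hy hgen hi hl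
          (fun i l hi hl hh x hx z hz => h2 (hC' i l hi hl hh x hx z hz))
          (fun ha hb => h3 i ha l hb rfl) x hx z hz
      · exact h2 (hC' i l hi hl h x hx z hz)
    have hwt : k ≠ j → ∀ R, Good Z F τ k R → R' ≤ R →
        ∀ i ∈ S, ∀ l ∈ S, i + l = k → ⁅y i, y l⁆ ∈ R := by
      intro hkj R hR hRR i hi l hl hil
      have hC : Comm F R (i + l + 1) := by
        rw [hil]
        exact fun i l hi hl hh x hx z hz => hRR (hC' i l hi hl hh x hx z hz)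
      have hm : ⁅y i, y l⁆ ∈ F k := by
        rw [← hil]; exact hs.hcomm i l (hS1 i hi) (hS1 l hl) _ (hy i hi) _ (hy l hl)
      obtain ⟨ζ, hζ, h1⟩ := hR.d2 _ hm
      have h2 := weight_eq hs hR (hS1 i hi) (hS1 l hl) hC (hy i hi) (hy l hl) (hyτ i hi)
        (hyτ l hl) (a := a) ⟨hζ, h1⟩
      have h3 := eq_one_of_pow (hZp ζ hζ) h2 (fun h => hkj (hil.symm.trans (hw i hi l hl h)))
      rw [h3] at h1
      simpa using h1
    by_cases hkS : k ∈ S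
    · by_cases hkj : k = j
      · subst hkj
        have hac : a k ≡ c [MOD p] := (hw2 k hkS).2 rfl
        rcases hRL with hRL | ⟨_, i0, hi0, k0, hk0, hik0, hpN, hRL⟩
        · obtain ⟨R, h1, h2, _⟩ := stage hs hR' hk hC' (hy k hkS) (hy' k hkS) (hyp k hkS)
            (hgen k hkS) Z.one_mem
            (tau_form hs hR' hk (hy k hkS) (hy' k hkS) (hyp k hkS) hτ hq (hyτ k hkS) hac 1
              Z.one_mem)
          exact ⟨R, h1, h2, fun i hi l hl hil => absurd hil (hRL i hi l hl)⟩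
        · -- choose `z`
          have hN' := hN i0 hi0 k0 hk0 (by rw [hik0]; exact hkS)
          rw [hik0] at hN'
          obtain ⟨ζ, hζ, h1⟩ := hR'.d2 _ hN'
          have hpr : Prime (p : ℤ) := Nat.prime_iff_prime_int.1 (Fact.out : p.Prime)
          obtain ⟨u, v, huv⟩ := (hpr.coprime_iff_not_dvd).2 hpN
          have hz : ζ ^ v ∈ Z := Z.zpow_mem hζ v
          obtain ⟨R, g1, g2, g3⟩ := stage hs hR' hk hC' (hy k hkS) (hy' k hkS) (hyp k hkS)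
            (hgen k hkS) hz
            (tau_form hs hR' hk (hy k hkS) (hy' k hkS) (hyp k hkS) hτ hq (hyτ k hkS) hac _ hz)
          have hC : Comm F R (k + 1) :=
            fun i l hi hl hh x hx z hz => g2 (hC' i l hi hl hh x hx z hz)
          have hzN : (ζ ^ v) ^ (N i0 k0) = ζ := by
            rw [← zpow_mul]
            symm
            calc ζ = ζ ^ (u * p + v * N i0 k0) := by rw [huv, zpow_one]
              _ = _ := by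
                rw [zpow_add, mul_comm u, zpow_mul, zpow_natCast, hZp ζ hζ, one_zpow, one_mul]
          have hcm : Commute (y k) (ζ ^ v) :=
            (hZc _ hz (y k) (hF1 k hk (hy k hkS))).symm
          have hmem : ⁅y i0, y k0⁆ ∈ R := by
            set r := ζ⁻¹ * (y i0 * y k0 * (y i0)⁻¹ * (y k0)⁻¹ * ((y k) ^ (N i0 k0))⁻¹) with hr
            have e1 : ⁅y i0, y k0⁆ = ζ * (r * (y k) ^ (N i0 k0)) := by
              rw [hr, commutatorElement_def]; group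
            have hr1 : r ∈ F 1 := hF1 (k + 1) (by omega) (hR'.d1 h1)
            have hy1 : (y k) ^ (N i0 k0) ∈ F 1 := (F 1).zpow_mem (hF1 k hk (hy k hkS)) _
            have e2 : ⁅y i0, y k0⁆ = r * (y k * ζ ^ v) ^ (N i0 k0) := by
              rw [e1, hZc ζ hζ _ ((F 1).mul_mem hr1 hy1), hcm.mul_zpow, hzN]; group
            rw [e2]
            exact R.mul_mem (g2 h1) (R.zpow_mem g3 _)
          classical
          let o : ℕ → ℕ → Q := fun i l =>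
            if h : ∃ ζ, Cmp Z R ⁅y i, y l⁆ ζ then h.choose else 1
          have ho : ∀ i ∈ S, ∀ l ∈ S, i + l = k → Cmp Z R ⁅y i, y l⁆ (o i l) := by
            intro i hi l hl hil
            have hm : ⁅y i, y l⁆ ∈ F k := by
              rw [← hil]; exact hs.hcomm i l (hS1 i hi) (hS1 l hl) _ (hy i hi) _ (hy l hl)
            obtain ⟨ζ', hζ', h2⟩ := g1.d2 _ hm
            have hex : ∃ ζ, Cmp Z R ⁅y i, y l⁆ ζ := ⟨ζ', hζ', h2⟩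
            show Cmp Z R ⁅y i, y l⁆ (if h : ∃ ζ, Cmp Z R ⁅y i, y l⁆ ζ then h.choose else 1)
            rw [dif_pos hex]
            exact hex.choose_spec
          have hyF : ∀ i ∈ S, y i ∈ F 1 := fun i hi => hF1 i (hS1 i hi) (hy i hi)
          have hyc : ∀ i ∈ S, ∀ l ∈ S, ⁅y i, y l⁆ ∈ F 1 := fun i hi l hl =>
            comm_mem_F1 hs (hyF i hi) (hyF l hl)
          have hA : ∀ i ∈ S, ∀ m ∈ S, ∀ l ∈ S, i + m + l = k →
              Cmp Z R ⁅⁅y i, y m⁆, y l⁆ ((o (i + m) l) ^ (N i m)) := by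
            intro i hi m hm l hl h
            have hi1 := hS1 i hi
            have hm1 := hS1 m hm
            have hl1 := hS1 l hl
            have hcm' : ⁅y i, y m⁆ ∈ F (i + m) := hs.hcomm i m hi1 hm1 _ (hy i hi) _ (hy m hm)
            by_cases him : i + m ∈ S
            · have h2 := cmp_comm_zpow hs g1 (hyF _ him) (hyF l hl) (ho (i + m) him l hl h) (N i m)
              exact cmp_left hs g1 (by omega) hl1 (by rw [h]; exact hC)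
                ((F (i + m)).zpow_mem (hy _ him) _) (hy l hl) (hN i hi m hm him) h2
            · rw [hN0 i m him, zpow_zero]
              exact cmp_of_mem (hC (i + m + 1) l (by omega) hl1 (by omega) _
                (hS (i + m) (by omega) him hcm') _ (hy l hl))
          have hfin := hRL o (fun i hi l hl h => (ho i hi l hl h).1)
            (fun i hi l hl h => cmp_unique hs g1 (hyc l hl i hi)
              (ho l hl i hi (by omega)) (cmp_comm_swap hs (hyF i hi) (hyF l hl) (ho i hi l hl h)))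
            (fun i hi m hm l hl h => jacobi hs g1 (hS1 i hi) (hS1 m hm) (hS1 l hl) h hC
              (hy i hi) (hy m hm) (hy l hl) (hA i hi m hm l hl h)
              (hA m hm l hl i hi (by omega)) (hA l hl i hi m hm (by omega)))
            (cmp_unique hs g1 (hyc i0 hi0 k0 hk0) (ho i0 hi0 k0 hk0 hik0) (cmp_of_mem hmem))
          refine ⟨R, g1, g2, fun i hi l hl hil => ?_⟩
          have h3 := ho i hi l hl hil
          rw [hfin i hi l hl hil] at h3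
          exact mem_of_cmp h3
      · obtain ⟨z, hz, hzt⟩ := choose_z hs hR' hk (hy k hkS) (hyτ k hkS)
          (fun h => hkj ((hw2 k hkS).1 h))
        obtain ⟨R, h1, h2, _⟩ := stage hs hR' hk hC' (hy k hkS) (hy' k hkS) (hyp k hkS)
          (hgen k hkS) hz hzt
        exact ⟨R, h1, h2, hwt hkj R h1 h2⟩
    · have hG : Good Z F τ k R' := ⟨hR'.a, hR'.b, hR'.c, hR'.d1.trans (hanti k),
        fun x hx => hR'.d2 x (hS k hk hkS hx)⟩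
      refine ⟨R', hG, le_rfl, ?_⟩
      by_cases hkj : k = j
      · subst hkj
        rcases hRL with hRL | ⟨h, _⟩
        · exact fun i hi l hl hil => absurd hil (hRL i hi l hl)
        · exact absurd h hkS
      · exact hwt hkj R' hG le_rfl
  have base : ∃ R, Good Z F τ (2 * K + 2) R ∧ Comm F R (2 * K + 2) := by
    refine ⟨⊥, ⟨?_, ?_, ?_, ?_, ?_⟩, ?_⟩
    · intro x hx
      rw [Subgroup.mem_bot] at hx ⊢
      rw [hx]; group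
    · intro g _ x hx
      rw [Subgroup.mem_bot] at hx ⊢
      rw [hx]; group
    · intro x hx _
      exact Subgroup.mem_bot.1 hx
    · exact bot_le
    · intro x hx
      rw [htop _ (by omega)] at hx
      exact ⟨x, hx, by simp⟩
    · intro i l hi hl hil x hx z hz
      rw [Subgroup.mem_bot, commutatorElement_def]
      rcases Nat.lt_or_ge K i with h | h
      · rw [htop i h] at hx
        rw [hZc x hx z (hF1 l hl hz)]; group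
      · rw [htop l (by omega)] at hz
        rw [← hZc z hz x (hF1 i hi hx)]; group
  have main : ∀ n, n ≤ 2 * K + 1 → ∃ R, Good Z F τ (2 * K + 2 - n) R ∧
      Comm F R (2 * K + 2 - n) := by
    intro n
    induction n with
    | zero => intro _; exact base
    | succ n ih =>
      intro hn
      have h1 := ih (by omega)
      have e : 2 * K + 2 - n = (2 * K + 2 - (n + 1)) + 1 := by omega
      rw [e] at h1
      exact step _ (by omega) h1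
  obtain ⟨R, hR, _⟩ := main (2 * K + 1) le_rfl
  have e : 2 * K + 2 - (2 * K + 1) = 1 := by omega
  rw [e] at hR
  refine ⟨R, hR.a, hR.b, ?_, ?_⟩
  · rw [eq_bot_iff]
    rintro x ⟨h1, h2⟩
    exact Subgroup.mem_bot.2 (hR.c x h1 h2)
  · apply le_antisymm
    · exact sup_le hR.d1 (hZF 1)
    · intro x hx
      obtain ⟨ζ, hζ, h1⟩ := hR.d2 x hx
      have : x = ζ * (ζ⁻¹ * x) := by group
      rw [this]
      exact Subgroup.mul_mem _ (Subgroup.mem_sup_right hζ) (Subgroup.mem_sup_left h1)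

end Main

end Ch4
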