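import Mathlib
import Pool.Agent.Lib.P4ba0d5.Base
import Pool.Agent.Lib.P4ba0d5.Good
import Pool.Agent.Lib.P4ba0d5.Peel
import Pool.Agent.Lib.P4ba0d5.PP
import Pool.Agent.Lib.P4ba0d5.RootLemma
import Pool.Agent.Lib.P4ba0d5.TheoremF
import Pool.Agent.Lib.P4ba0d5.Gasch
import Pool.Agent.Lib.P4ba0d5.Tor
import Pool.Agent.Lib.P4ba0d5.Sylow

/-! Module SplitU of MP_4ba0d5_al: splitting over the unipotent group by devissage. -/

set_option linter.unusedSectionVars false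
set_option linter.unusedVariables false

namespace Ch4


/-- The normaliser of a family of subgroups. -/
def famNorm {E : Type*} [Group E] {I : Type*} (V : I → Subgroup E) : Subgroup E where
  carrier := {g | ∀ i x, x ∈ V i ↔ g * x * g⁻¹ ∈ V i}
  one_mem' := by intro i x; simp
  mul_mem' := by
    intro g h hg hh i x
    rw [hh i x, hg i]
    simp only [mul_assoc, mul_inv_rev]
  inv_mem' := by
    intro g hg i x
    rw [hg i (g⁻¹ * x * g⁻¹⁻¹)]
    simp only [mul_assoc, inv_inv, mul_inv_cancel, mul_one, mul_inv_cancel_left]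

theorem conj_pow_mem {E : Type*} [Group E] {V : Subgroup E} {τ : E}
    (h : ∀ x ∈ V, τ * x * τ⁻¹ ∈ V) (n : ℕ) : ∀ x ∈ V, τ ^ n * x * (τ ^ n)⁻¹ ∈ V := by
  induction n with
  | zero => intro x hx; simpa using hx
  | succ n ih =>
    intro x hx
    have := h _ (ih x hx)
    have e : τ ^ (n + 1) * x * (τ ^ (n + 1))⁻¹ = τ * (τ ^ n * x * (τ ^ n)⁻¹) * τ⁻¹ := by
      rw [pow_succ']; group
    rw [e]; exact this

theorem theoremF_rel.{u} {E : Type u} [Group E] (p : ℕ) [Fact p.Prime]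
    (W Z : Subgroup E) (F : ℕ → Subgroup E) (K : ℕ)
    (τ : E) (q : ℕ) (hτ : τ ^ q = 1) (hq : Nat.Coprime q p)
    (hWZ : W ≤ Z)
    (hnW : ∀ g ∈ F 1, ∀ x ∈ W, g * x * g⁻¹ ∈ W) (hτW : ∀ x ∈ W, τ * x * τ⁻¹ ∈ W)
    (hnZ : ∀ g ∈ F 1, ∀ x ∈ Z, g * x * g⁻¹ ∈ Z) (hτZ : ∀ x ∈ Z, τ * x * τ⁻¹ ∈ Z)
    (hnF : ∀ i, ∀ g ∈ F 1, ∀ x ∈ F i, g * x * g⁻¹ ∈ F i)
    (hτF : ∀ i, ∀ x ∈ F i, τ * x * τ⁻¹ ∈ F i)
    (hanti : ∀ i, F (i + 1) ≤ F i) (htop : ∀ i, K < i → F i = Z)
    (hZc : ∀ z ∈ Z, ∀ x ∈ F 1, z * x * z⁻¹ * x⁻¹ ∈ W) (hZp : ∀ z ∈ Z, z ^ p = 1)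
    (hcomm : ∀ i k, 1 ≤ i → 1 ≤ k → ∀ x ∈ F i, ∀ y ∈ F k, x * y * x⁻¹ * y⁻¹ ∈ F (i + k))
    (S : Set ℕ) (hS1 : ∀ i ∈ S, 1 ≤ i) (y : ℕ → E) (a : ℕ → ℕ) (c j : ℕ)
    (hS : ∀ i, 1 ≤ i → i ∉ S → F i ≤ F (i + 1))
    (hy : ∀ i ∈ S, y i ∈ F i) (hy' : ∀ i ∈ S, y i ∉ F (i + 1)) (hyp : ∀ i ∈ S, (y i) ^ p = 1)
    (hgen : ∀ i ∈ S, ∀ x ∈ F i, ∃ n : ℕ, x * (y i) ^ n ∈ F (i + 1))
    (hyτ : ∀ i ∈ S, τ * y i * τ⁻¹ * ((y i) ^ (a i))⁻¹ ∈ F (i + 1))
    (hZτ : ∀ z ∈ Z, (z ^ c)⁻¹ * (τ * z * τ⁻¹) ∈ W)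
    (hw : ∀ i ∈ S, ∀ k ∈ S, a i * a k ≡ c [MOD p] → i + k = j)
    (hw2 : ∀ k ∈ S, (a k ≡ c [MOD p] ↔ k = j))
    (N : ℕ → ℕ → ℤ) (hN0 : ∀ i k, i + k ∉ S → N i k = 0)
    (hN : ∀ i ∈ S, ∀ k ∈ S, i + k ∈ S →
      y i * y k * (y i)⁻¹ * (y k)⁻¹ * ((y (i + k)) ^ (N i k))⁻¹ ∈ F (i + k + 1))
    (hRL : (∀ i ∈ S, ∀ k ∈ S, i + k ≠ j) ∨
      (j ∈ S ∧ ∃ i0 ∈ S, ∃ k0 ∈ S, i0 + k0 = j ∧ ¬ (p : ℤ) ∣ N i0 k0 ∧
        ∀ (V : Type u) [AddCommGroup V] (hV : ∀ v : V, p • v = 0) (o : ℕ → ℕ → V),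
          (∀ i ∈ S, ∀ k ∈ S, i + k = j → o k i = - o i k) →
          (∀ i ∈ S, ∀ k ∈ S, ∀ l ∈ S, i + k + l = j →
            N i k • o (i + k) l + N k l • o (k + l) i + N l i • o (l + i) k = 0) →
          o i0 k0 = 0 →
          ∀ i ∈ S, ∀ k ∈ S, i + k = j → o i k = 0)) :
    ∃ R : Subgroup E, W ≤ R ∧ R ≤ F 1 ∧ (∀ x ∈ R, τ * x * τ⁻¹ ∈ R) ∧
      (∀ x ∈ R, x ∈ Z → x ∈ W) ∧ ∀ g ∈ F 1, ∃ r ∈ R, ∃ z ∈ Z, g = r * z := by
  classical
  have hant : ∀ i m, F (i + m) ≤ F i := by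
    intro i m
    induction m with
    | zero => exact le_rfl
    | succ m ih => exact (hanti (i + m)).trans ih
  have hZF : ∀ i, Z ≤ F i := by
    intro i
    have := hant i (K + 1)
    rwa [htop (i + (K + 1)) (by omega)] at this
  have hq0 : 0 < q := by
    rcases Nat.eq_zero_or_pos q with h | h
    · subst h
      rw [Nat.coprime_zero_left] at hq
      exact absurd hq (Fact.out : p.Prime).one_lt.ne'
    · exact h
  -- the family
  obtain ⟨V, hVdef⟩ : ∃ V : Option (Option ℕ) → Subgroup E, V = fun o =>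
    o.elim W (fun o' => o'.elim Z F) := ⟨_, rfl⟩
  have hVW : V none = W := by rw [hVdef]; rfl
  have hVZ : V (some none) = Z := by rw [hVdef]; rfl
  have hVF : ∀ i, V (some (some i)) = F i := by intro i; rw [hVdef]; rfl
  have hWV : ∀ o, W ≤ V o := by
    rintro (_ | _ | i)
    · rw [hVW]
    · rw [hVZ]; exact hWZ
    · rw [hVF]; exact hWZ.trans (hZF i)
  have hnV : ∀ o, ∀ g ∈ F 1, ∀ x ∈ V o, g * x * g⁻¹ ∈ V o := by
    rintro (_ | _ | i)
    · rw [hVW]; exact hnW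
    · rw [hVZ]; exact hnZ
    · rw [hVF]; exact hnF i
  have hτV : ∀ o, ∀ x ∈ V o, τ * x * τ⁻¹ ∈ V o := by
    rintro (_ | _ | i)
    · rw [hVW]; exact hτW
    · rw [hVZ]; exact hτZ
    · rw [hVF]; exact hτF i
  obtain ⟨Nn, hNn⟩ : ∃ Nn : Subgroup E, Nn = famNorm V := ⟨_, rfl⟩
  have hmemN : ∀ g, g ∈ Nn ↔ ∀ o x, x ∈ V o ↔ g * x * g⁻¹ ∈ V o := by
    intro g; rw [hNn]; rfl
  have hFN : F 1 ≤ Nn := by
    intro g hg
    rw [hmemN]
    refine fun o x => ⟨hnV o g hg x, fun h => ?_⟩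
    have := hnV o g⁻¹ (inv_mem hg) _ h
    simpa [mul_assoc] using this
  have hτN : τ ∈ Nn := by
    rw [hmemN]
    refine fun o x => ⟨hτV o x, fun h => ?_⟩
    have := conj_pow_mem (hτV o) (q - 1) _ h
    have e : τ ^ (q - 1) = τ⁻¹ := by
      rw [eq_inv_iff_mul_eq_one, ← pow_succ, Nat.sub_add_cancel hq0, hτ]
    rw [e] at this
    simpa [mul_assoc] using this
  have hVn : ∀ o, ((V o).subgroupOf Nn).Normal := by
    intro o
    refine ⟨fun n hn g => ?_⟩
    rw [Subgroup.mem_subgroupOf] at hn ⊢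
    exact ((hmemN g.1).1 g.2 o _).1 hn
  have hWn : (W.subgroupOf Nn).Normal := by
    have := hVn none
    rwa [hVW] at this
  -- the quotient
  obtain ⟨π, hπ⟩ : ∃ π : Nn →* Nn ⧸ W.subgroupOf Nn, π = QuotientGroup.mk' _ := ⟨_, rfl⟩
  have hπs : Function.Surjective π := by rw [hπ]; exact QuotientGroup.mk'_surjective _
  have hπk : ∀ x : Nn, π x = 1 ↔ (x : E) ∈ W := by
    intro x
    rw [← MonoidHom.mem_ker, hπ, QuotientGroup.ker_mk', Subgroup.mem_subgroupOf]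
  have hmem : ∀ (U : Subgroup E), W ≤ U → ∀ x : Nn, π x ∈ (U.subgroupOf Nn).map π ↔ (x : E) ∈ U := by
    intro U hU x
    constructor
    · rintro ⟨y, hy, hyx⟩
      have h1 : π (y⁻¹ * x) = 1 := by rw [map_mul, map_inv, hyx, inv_mul_cancel]
      rw [hπk] at h1
      have h2 : (y : E) ∈ U := hy
      have h3 := mul_mem h2 (hU h1)
      simpa using h3
    · intro h
      exact ⟨x, h, rfl⟩
  have hWF : ∀ i, W ≤ F i := fun i => hWZ.trans (hZF i)
  have hF1 : ∀ i, 1 ≤ i → F i ≤ F 1 := by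
    intro i hi
    obtain ⟨m, rfl⟩ := Nat.exists_eq_add_of_le hi
    exact hant 1 m
  have hFiN : ∀ i, 1 ≤ i → F i ≤ Nn := fun i hi => (hF1 i hi).trans hFN
  obtain ⟨Z', hZ'⟩ : ∃ Z', Z' = (Z.subgroupOf Nn).map π := ⟨_, rfl⟩
  obtain ⟨F', hF'⟩ : ∃ F' : ℕ → Subgroup (Nn ⧸ W.subgroupOf Nn),
    F' = fun i => ((F i).subgroupOf Nn).map π := ⟨_, rfl⟩
  have hmZ : ∀ x : Nn, π x ∈ Z' ↔ (x : E) ∈ Z := fun x => by rw [hZ']; exact hmem Z hWZ x
  have hmF : ∀ i, ∀ x : Nn, π x ∈ F' i ↔ (x : E) ∈ F i := fun i x => by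
    rw [hF']; exact hmem (F i) (hWF i) x
  have hZ'n : Z'.Normal := by
    rw [hZ']
    have := hVn (some none)
    rw [hVZ] at this
    exact this.map π hπs
  have hF'n : ∀ i, (F' i).Normal := by
    intro i
    rw [hF']
    have := hVn (some (some i))
    rw [hVF] at this
    exact this.map π hπs
  -- the elements `y`
  obtain ⟨y', hy'def⟩ : ∃ y' : ℕ → Nn, ∀ i ∈ S, (y' i : E) = y i := by
    refine ⟨fun i => if h : i ∈ S then ⟨y i, hFiN i (hS1 i h) (hy i h)⟩ else 1, fun i hi => ?_⟩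
    simp [hi]
  have hlift : ∀ i, 1 ≤ i → ∀ x ∈ F' i, ∃ n : Nn, π n = x ∧ (n : E) ∈ F i := by
    intro i hi x hx
    obtain ⟨n, rfl⟩ := hπs x
    exact ⟨n, rfl, (hmF i n).1 hx⟩
  have hliftZ : ∀ x ∈ Z', ∃ n : Nn, π n = x ∧ (n : E) ∈ Z := by
    intro x hx
    obtain ⟨n, rfl⟩ := hπs x
    exact ⟨n, rfl, (hmZ n).1 hx⟩
  have heq : ∀ x y : Nn, π x = π y ↔ (x : E)⁻¹ * y ∈ W := by
    intro x y
    rw [← inv_mul_eq_one, ← map_inv, ← map_mul, hπk]
    simp
  obtain ⟨R', hR1, hR2, hR3, hR4⟩ := theoremF p Z' F' K hZ'n hF'n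
    (by
      intro i x hx
      obtain ⟨n, rfl⟩ := hπs x
      rw [hmF] at hx ⊢
      exact hanti i hx)
    (by
      intro i hi
      rw [hF', hZ']
      simp only
      rw [htop i hi])
    (by
      intro z hz x hx
      obtain ⟨z, rfl, hz'⟩ := hliftZ z hz
      obtain ⟨x, rfl, hx'⟩ := hlift 1 le_rfl x hx
      rw [← mul_inv_eq_one, ← map_mul, ← map_mul, ← map_inv, ← map_mul, hπk]
      have := hZc _ hz' _ hx'
      simpa [mul_assoc] using this)
    (by
      intro z hz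
      obtain ⟨z, rfl, hz'⟩ := hliftZ z hz
      rw [← map_pow, hπk]
      have := hZp _ hz'
      simp [this])
    (by
      intro i k hi hk x hx y hy
      obtain ⟨x, rfl, hx'⟩ := hlift i hi x hx
      obtain ⟨y, rfl, hy'⟩ := hlift k hk y hy
      rw [← map_inv, ← map_inv, ← map_mul, ← map_mul, ← map_mul, hmF]
      exact hcomm i k hi hk _ hx' _ hy')
    (π ⟨τ, hτN⟩) q
    (by
      rw [← map_pow, hπk]
      simp [hτ]) hq S hS1 (fun i => π (y' i)) a c j
    (by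
      intro i hi hiS x hx
      obtain ⟨x, rfl, hx'⟩ := hlift i hi x hx
      rw [hmF]
      exact hS i hi hiS hx')
    (by
      intro i hi
      rw [hmF, hy'def i hi]
      exact hy i hi)
    (by
      intro i hi
      rw [hmF, hy'def i hi]
      exact hy' i hi)
    (by
      intro i hi
      rw [← map_pow, hπk]
      simp [hy'def i hi, hyp i hi])
    (by
      intro i hi x hx
      obtain ⟨x, rfl, hx'⟩ := hlift i (hS1 i hi) x hx
      obtain ⟨n, hn⟩ := hgen i hi x hx'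
      refine ⟨n, ?_⟩
      rw [← map_pow, ← map_mul, hmF]
      simpa [hy'def i hi] using hn)
    (by
      intro i hi
      rw [← map_pow, ← map_inv, ← map_inv, ← map_mul, ← map_mul, ← map_mul, hmF]
      simpa [hy'def i hi] using hyτ i hi)
    (by
      intro z hz
      obtain ⟨z, rfl, hz'⟩ := hliftZ z hz
      symm
      rw [← map_pow, ← map_inv, ← map_mul, ← map_mul, heq]
      simpa using hZτ _ hz')
    hw hw2 N hN0
    (by
      intro i hi k hk hik
      rw [← map_zpow, ← map_inv, ← map_inv, ← map_inv, ← map_mul, ← map_mul, ← map_mul,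
        ← map_mul, hmF]
      simpa [hy'def i hi, hy'def k hk, hy'def _ hik] using hN i hi k hk hik)
    (by
      rcases hRL with h | ⟨hj, i0, hi0, k0, hk0, hik, hnd, h⟩
      · exact Or.inl h
      refine Or.inr ⟨hj, i0, hi0, k0, hk0, hik, hnd, ?_⟩
      intro o ho1 ho2 ho3 ho4 i hi k hk hik'
      have hZcomm : ∀ z ∈ Z', ∀ z' ∈ Z', z * z' = z' * z := by
        intro z hz x hx
        obtain ⟨z, rfl, hz'⟩ := hliftZ z hz
        obtain ⟨x, rfl, hx'⟩ := hliftZ x hx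
        rw [← mul_inv_eq_one, ← map_mul, ← map_mul, ← map_inv, ← map_mul, hπk]
        have := hZc _ hz' _ (hZF 1 hx')
        simpa [mul_assoc] using this
      let hcg : CommGroup Z' := { (inferInstance : Group Z') with
        mul_comm := fun a b => Subtype.ext (hZcomm a a.2 b b.2) }
      have key := h (Additive Z') (by
          intro v
          have h1 : (v.toMul : Nn ⧸ W.subgroupOf Nn) ∈ Z' := v.toMul.2
          obtain ⟨z, hz, hz'⟩ := hliftZ _ h1
          apply Additive.toMul.injective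
          rw [toMul_nsmul, toMul_zero]
          apply Subtype.ext
          rw [Subgroup.coe_pow, ← hz, ← map_pow, Subgroup.coe_one, hπk, Subgroup.coe_pow,
            hZp _ hz']
          exact one_mem _)
        (fun i k => if h : i ∈ S ∧ k ∈ S ∧ i + k = j then
          Additive.ofMul ⟨o i k, ho1 i h.1 k h.2.1 h.2.2⟩ else 0)
        (by
          intro i hi k hk hik
          have h1 : i ∈ S ∧ k ∈ S ∧ i + k = j := ⟨hi, hk, hik⟩
          have h2 : k ∈ S ∧ i ∈ S ∧ k + i = j := ⟨hk, hi, by omega⟩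
          simp only [dif_pos h1, dif_pos h2]
          apply Additive.toMul.injective
          apply Subtype.ext
          exact ho2 i hi k hk hik)
        (by
          intro i hi k hk l hl hikl
          have key2 := ho3 i hi k hk l hl hikl
          have aux : ∀ (s t : ℕ) (n : ℤ) (hs : s ∉ S → n = 0) (ht : t ∈ S) (hst : s + t = j),
              (((n • (if h : s ∈ S ∧ t ∈ S ∧ s + t = j then
                (Additive.ofMul ⟨o s t, ho1 s h.1 t h.2.1 h.2.2⟩ : Additive Z') else 0)).toMul : Z') :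
                Nn ⧸ W.subgroupOf Nn) = (o s t) ^ n := by
            intro s t n hs ht hst
            by_cases hsS : s ∈ S
            · have h1 : s ∈ S ∧ t ∈ S ∧ s + t = j := ⟨hsS, ht, hst⟩
              rw [dif_pos h1, toMul_zsmul]
              rfl
            · rw [hs hsS]
              simp
          apply Additive.toMul.injective
          apply Subtype.ext
          rw [toMul_add, toMul_add, Subgroup.coe_mul, Subgroup.coe_mul,
            aux _ _ _ (hN0 i k) hl (by omega), aux _ _ _ (hN0 k l) hi (by omega),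
            aux _ _ _ (hN0 l i) hk (by omega)]
          exact key2)
        (by
          have h1 : i0 ∈ S ∧ k0 ∈ S ∧ i0 + k0 = j := ⟨hi0, hk0, hik⟩
          simp only [dif_pos h1]
          apply Additive.toMul.injective
          apply Subtype.ext
          exact ho4) i hi k hk hik'
      have h1 : i ∈ S ∧ k ∈ S ∧ i + k = j := ⟨hi, hk, hik'⟩
      simp only [dif_pos h1] at key
      have := congrArg (fun v : Additive Z' => ((v.toMul : Z') : Nn ⧸ W.subgroupOf Nn)) key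
      exact this)
  refine ⟨(R'.comap π).map Nn.subtype, ?_, ?_, ?_, ?_, ?_⟩
  · intro w hw
    refine ⟨⟨w, hFN (hWF 1 hw)⟩, ?_, rfl⟩
    have : π ⟨w, hFN (hWF 1 hw)⟩ = 1 := (hπk _).2 hw
    change π _ ∈ R'
    rw [this]
    exact one_mem _
  · rintro _ ⟨n, hn, rfl⟩
    have h1 : π n ∈ R' := hn
    have h2 : π n ∈ F' 1 := by
      rw [← hR4]
      exact (le_sup_left : R' ≤ _) h1
    exact (hmF 1 n).1 h2
  · rintro _ ⟨n, hn, rfl⟩
    refine ⟨⟨τ, hτN⟩ * n * ⟨τ, hτN⟩⁻¹, ?_, rfl⟩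
    have := hR1 (π n) hn
    change π _ ∈ R'
    rw [map_mul, map_mul, map_inv]
    exact this
  · rintro _ ⟨n, hn, rfl⟩ hz
    have h1 : π n ∈ R' ⊓ Z' := ⟨hn, (hmZ n).2 hz⟩
    rw [hR3, Subgroup.mem_bot, hπk] at h1
    exact h1
  · intro g hg
    have h1 : π ⟨g, hFN hg⟩ ∈ R' ⊔ Z' := by
      rw [hR4, hmF]
      exact hg
    rw [Subgroup.mem_sup_of_normal_right] at h1
    obtain ⟨r, hr, z, hz, hrz⟩ := h1
    obtain ⟨r, rfl⟩ := hπs r
    obtain ⟨z, rfl, hz'⟩ := hliftZ z hz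
    rw [← map_mul, heq] at hrz
    refine ⟨r, ⟨r, hr, rfl⟩, z * (((r * z : Nn) : E)⁻¹ * g), mul_mem hz' (hWZ hrz), ?_⟩
    simp [mul_assoc]


open Module

variable {ι X Y : Type*} [Finite ι] [AddCommGroup X] [Module ℚ X] [AddCommGroup Y] [Module ℚ Y]
  {P : RootPairing ι ℚ X Y} [P.IsRootSystem] [P.IsCrystallographic] [P.IsReduced]
  {b : P.Base} {f : ι → ℤ} {D : ℤ} {p : ℕ} [Fact p.Prime]
  {L : Type*} [LieRing L] [LieAlgebra (ZMod p) L]

namespace ChevalleyBasis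

variable (B : ChevalleyBasis b (ZMod p) L)


/-! ### combinatorics -/

open Classical in
/-- structure constants indexed by weights -/
noncomputable def NN (f : ι → ℤ) (i k : ℕ) : ℤ :=
  if h : ∃ q : ι × ι, f q.1 = i ∧ f q.2 = k then B.N h.choose.1 h.choose.2 else 0

theorem NN_eq (hG : Good b f D p) {α β : ι} {i k : ℕ} (hα : f α = i) (hβ : f β = k) :
    B.NN f i k = B.N α β := by
  have h : ∃ q : ι × ι, f q.1 = i ∧ f q.2 = k := ⟨(α, β), hα, hβ⟩
  rw [NN, dif_pos h]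
  have h1 := h.choose_spec
  have e1 : h.choose.1 = α := hG.inj (by rw [h1.1, hα])
  have e2 : h.choose.2 = β := hG.inj (by rw [h1.2, hβ])
  rw [e1, e2]

theorem NN_zero (hG : Good b f D p) {i k : ℕ} (h : ∀ γ, f γ ≠ (i + k : ℕ)) :
    B.NN f i k = 0 := by
  by_cases h1 : ∃ q : ι × ι, f q.1 = i ∧ f q.2 = k
  · obtain ⟨⟨α, β⟩, hα, hβ⟩ := h1
    rw [B.NN_eq hG hα hβ]
    refine B.N_zero _ _ ?_
    rintro ⟨γ, hγ⟩
    refine h γ ?_
    rw [hG.isWt.add hγ]
    push_cast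
    rw [← hα, ← hβ]
  · rw [NN, dif_neg h1]

theorem N_not_dvd (hG : Good b f D p) {α β : ι}
    (h : P.root α + P.root β ∈ Set.range P.root) : ¬ (p : ℤ) ∣ B.N α β := by
  intro h1
  have h2 := B.abs_N α β h
  have h3 : (p : ℤ) ∣ |B.N α β| := (dvd_abs _ _).mpr h1
  rw [h2] at h3
  have h4 : P.chainBotCoeff α β ≤ 3 := by
    have := RootPairing.chainBotCoeff_add_chainTopCoeff_le_three (P := P) (i := α) (j := β)
    omega
  have h5 := Int.le_of_dvd (by positivity) h3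
  have h6 := hG.lt
  have h7 : ((P.chainBotCoeff α β : ℕ) : ℤ) ≤ 3 := by exact_mod_cast h4
  have h8 : (1000 : ℤ) < p := by exact_mod_cast h6
  linarith

theorem root_cond.{u} (hG : Good b f D p) (j : ℕ)
    (hj : (∃ α, f α = (j : ℤ)) ∨ j = 0) :
    (∀ i ∈ {n : ℕ | ∃ α, f α = (n : ℤ)}, ∀ k ∈ {n : ℕ | ∃ α, f α = (n : ℤ)}, i + k ≠ j) ∨
      (j ∈ {n : ℕ | ∃ α, f α = (n : ℤ)} ∧ ∃ i0 ∈ {n : ℕ | ∃ α, f α = (n : ℤ)},
        ∃ k0 ∈ {n : ℕ | ∃ α, f α = (n : ℤ)}, i0 + k0 = j ∧ ¬ (p : ℤ) ∣ B.NN f i0 k0 ∧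
        ∀ (V : Type u) [AddCommGroup V] (hV : ∀ v : V, p • v = 0) (o : ℕ → ℕ → V),
          (∀ i ∈ {n : ℕ | ∃ α, f α = (n : ℤ)}, ∀ k ∈ {n : ℕ | ∃ α, f α = (n : ℤ)}, i + k = j →
            o k i = - o i k) →
          (∀ i ∈ {n : ℕ | ∃ α, f α = (n : ℤ)}, ∀ k ∈ {n : ℕ | ∃ α, f α = (n : ℤ)},
            ∀ l ∈ {n : ℕ | ∃ α, f α = (n : ℤ)}, i + k + l = j →
            B.NN f i k • o (i + k) l + B.NN f k l • o (k + l) i + B.NN f l i • o (l + i) k = 0) →
          o i0 k0 = 0 →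
          ∀ i ∈ {n : ℕ | ∃ α, f α = (n : ℤ)}, ∀ k ∈ {n : ℕ | ∃ α, f α = (n : ℤ)}, i + k = j →
            o i k = 0) := by
  classical
  by_cases h : ∀ i ∈ {n : ℕ | ∃ α, f α = (n : ℤ)}, ∀ k ∈ {n : ℕ | ∃ α, f α = (n : ℤ)}, i + k ≠ j
  · exact Or.inl h
  right
  push Not at h
  obtain ⟨i, ⟨α, hα⟩, k, ⟨γ, hγ⟩, hik⟩ := h
  have hα0 : 0 < f α := by have := hG.ne α; omega
  have hγ0 : 0 < f γ := by have := hG.ne γ; omega
  have hj0 : j ≠ 0 := by omega
  obtain ⟨β, hβ⟩ : ∃ α, f α = (j : ℤ) := hj.resolve_right hj0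
  have hβ0 : 0 < f β := by omega
  have hsum : P.root α + P.root γ = P.root β := hG.add _ _ _ (by omega)
  have hβpos : b.IsPos β := (hG.pos β).2 hβ0
  rcases exists_decomp P b β hβpos with h1 | ⟨δ, hδ, ε, hε, hs, hpos⟩
  · exfalso
    have e1 : b.height β = 1 := RootPairing.Base.height_one_of_mem_support h1
    have e2 := (isWt_height b).add hsum.symm
    have e3 := (hG.pos α).2 hα0
    have e4 := (hG.pos γ).2 hγ0
    rw [RootPairing.Base.isPos_iff] at e3 e4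
    omega
  have hδpos : b.IsPos δ := b.isPos_of_mem_support hδ
  have hδ0 := (hG.pos δ).1 hδpos
  have hε0 := (hG.pos ε).1 hε
  have hfs := hG.isWt.add hs.symm
  have cδ : f δ = ((f δ).toNat : ℤ) := (Int.toNat_of_nonneg hδ0.le).symm
  have cε : f ε = ((f ε).toNat : ℤ) := (Int.toNat_of_nonneg hε0.le).symm
  refine ⟨⟨β, hβ⟩, (f δ).toNat, ⟨δ, cδ⟩, (f ε).toNat, ⟨ε, cε⟩, by omega, ?_, ?_⟩
  · rw [B.NN_eq hG cδ cε]
    exact B.N_not_dvd hG ⟨β, hs.symm⟩
  intro V _ hV o ho2 ho3 ho4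
  -- transfer to functions on vectors
  obtain ⟨o', ho'⟩ : ∃ o' : X → X → V, ∀ α γ, o' (P.root α) (P.root γ) =
      o (f α).toNat (f γ).toNat := by
    refine ⟨fun x x' => if h : ∃ q : ι × ι, P.root q.1 = x ∧ P.root q.2 = x' then
      o (f h.choose.1).toNat (f h.choose.2).toNat else 0, fun α γ => ?_⟩
    have h : ∃ q : ι × ι, P.root q.1 = P.root α ∧ P.root q.2 = P.root γ := ⟨(α, γ), rfl, rfl⟩
    simp only [dif_pos h]
    have e1 := P.root.injective h.choose_spec.1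
    have e2 := P.root.injective h.choose_spec.2
    rw [e1, e2]
  have cpos : ∀ α, b.IsPos α → f α = ((f α).toNat : ℤ) := fun α hα =>
    (Int.toNat_of_nonneg ((hG.pos α).1 hα).le).symm
  have key := root_lemma P b p Fact.out V hV B.N (fun α β h => B.N_not_dvd hG h) B.N_zero
    δ ε β hδ hε hs hpos o'
    (by
      intro α γ hα hγ hs
      rw [ho', ho']
      have := hG.isWt.add hs.symm
      have h1 := cpos α hα
      have h2 := cpos γ hγ
      exact ho2 _ ⟨α, h1⟩ _ ⟨γ, h2⟩ (by omega))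
    (by
      intro α₁ α₂ α₃ h1 h2 h3 hs
      have c1 := cpos α₁ h1
      have c2 := cpos α₂ h2
      have c3 := cpos α₃ h3
      have hsf : f β = f α₁ + f α₂ + f α₃ := by
        obtain ⟨φ, hφ⟩ := hG.isWt
        have := congrArg φ hs
        rw [map_add, map_add, hφ, hφ, hφ, hφ] at this
        exact_mod_cast this.symm
      have aux : ∀ α₁ α₂ α₃, b.IsPos α₁ → b.IsPos α₂ → b.IsPos α₃ →
          B.N α₁ α₂ • o' (P.root α₁ + P.root α₂) (P.root α₃) =
          B.NN f (f α₁).toNat (f α₂).toNat • o ((f α₁).toNat + (f α₂).toNat) (f α₃).toNat := by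
        intro α₁ α₂ α₃ h1 h2 h3
        have c1 := cpos α₁ h1
        have c2 := cpos α₂ h2
        rw [B.NN_eq hG c1 c2]
        by_cases hr : P.root α₁ + P.root α₂ ∈ Set.range P.root
        · obtain ⟨κ, hκ⟩ := hr
          rw [← hκ, ho']
          have := hG.isWt.add hκ
          have e : (f κ).toNat = (f α₁).toNat + (f α₂).toNat := by omega
          rw [e]
        · rw [B.N_zero _ _ hr, zero_smul, zero_smul]
      rw [aux _ _ _ h1 h2 h3, aux _ _ _ h2 h3 h1, aux _ _ _ h3 h1 h2]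
      exact ho3 _ ⟨α₁, c1⟩ _ ⟨α₂, c2⟩ _ ⟨α₃, c3⟩ (by omega))
    (by rw [ho']; exact ho4)
  rintro i ⟨α, hα⟩ k ⟨γ, hγ⟩ hik
  have hα0 : 0 < f α := by have := hG.ne α; omega
  have hγ0 : 0 < f γ := by have := hG.ne γ; omega
  have hsum : P.root α + P.root γ = P.root β := hG.add _ _ _ (by omega)
  have := key α γ ((hG.pos α).2 hα0) ((hG.pos γ).2 hγ0) hsum
  rw [ho'] at this
  have e1 : (f α).toNat = i := by omega
  have e2 : (f γ).toNat = k := by omega
  rwa [e1, e2] at this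



/-! ### Elements of `UF` -/

theorem one_mem_UF (g : ι → ℤ) (k : ℤ) : (1 : Module.End (ZMod p) L) ∈ B.UF g k :=
  ⟨fun _ _ => rfl, fun u => by simp⟩

theorem UF_pow {g : ι → ℤ} (hg : IsWt P g) {T : Module.End (ZMod p) L} {k : ℤ} (hk : 0 ≤ k)
    (hT : T ∈ B.UF g k) (n : ℕ) : T ^ n ∈ B.UF g k := by
  induction n with
  | zero => simpa using B.one_mem_UF g k
  | succ n ih => rw [pow_succ]; exact UF_mul hg hk ih hT

/-- The elements acting by elements of `UF f k`. -/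
def UU (hf : IsWt P f) {E : Type*} [Group E] [Finite E] (ρ : E →* Module.End (ZMod p) L)
    (k : ℕ) : Subgroup E where
  carrier := {g | ρ g ∈ B.UF f k}
  one_mem' := by
    change ρ 1 ∈ B.UF f k
    rw [map_one]; exact B.one_mem_UF f k
  mul_mem' := by
    intro g h hg hh
    change ρ (g * h) ∈ B.UF f k
    rw [map_mul]; exact UF_mul hf (by positivity) hg hh
  inv_mem' := by
    intro g hg
    change ρ g⁻¹ ∈ B.UF f k
    have h0 : 0 < orderOf g := orderOf_pos g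
    have e : g⁻¹ = g ^ (orderOf g - 1) := by
      rw [eq_comm, eq_inv_iff_mul_eq_one, ← pow_succ, Nat.sub_add_cancel h0, pow_orderOf_eq_one]
    rw [e, map_pow]
    exact B.UF_pow hf (by positivity) hg _

theorem mem_UU (hf : IsWt P f) {E : Type*} [Group E] [Finite E] (ρ : E →* Module.End (ZMod p) L)
    (k : ℕ) (g : E) : g ∈ B.UU hf ρ k ↔ ρ g ∈ B.UF f k := Iff.rfl

/-- root elements are not deeper than they should be. -/
theorem x_notMem_UF (hG : Good b f D p) (α : ι) : B.x α 1 ∉ B.UF f (f α + 1) := by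
  classical
  intro h
  -- a simple coroot not orthogonal to `α`
  obtain ⟨i, hi⟩ : ∃ i : b.support, (P.pairingIn ℤ α i : ZMod p) ≠ 0 := by
    by_contra! h0
    have h1 := sum_cc_pairing b α α
    have h2 : ((P.pairingIn ℤ α α : ℤ) : ZMod p) = 0 := by
      rw [← h1, Int.cast_sum]
      refine Finset.sum_eq_zero fun i _ => ?_
      rw [Int.cast_mul, h0 i, mul_zero]
    rw [P.pairingIn_same] at h2
    have h3 : ((2 : ℕ) : ZMod p) ≠ 0 := natCast_ne_zero_of_lt (by norm_num) (by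
      have := hG.lt; omega)
    exact h3 (by exact_mod_cast h2)
  have h1 := h.2 (.inl i) (.inr α) (by simp)
  apply hi
  have e : B.x α 1 (B.basis (.inl i)) = B.h i - (P.pairingIn ℤ α i : ZMod p) • B.e α := by
    rw [x, expNil, Finset.sum_range_succ, Finset.sum_range_succ, Finset.sum_range_succ,
      Finset.sum_range_succ, Finset.sum_range_zero]
    have a1 : (LieAlgebra.ad (ZMod p) L ((1 : ZMod p) • B.e α)) (B.h i) =
        -((P.pairingIn ℤ α i : ZMod p) • B.e α) := by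
      rw [one_smul, LieAlgebra.ad_apply, B.lie_e_h]
    have a2 : (LieAlgebra.ad (ZMod p) L ((1 : ZMod p) • B.e α)) (B.e α) = 0 := by
      rw [one_smul, LieAlgebra.ad_apply, lie_self]
    have a3 : ((LieAlgebra.ad (ZMod p) L ((1 : ZMod p) • B.e α)) ^ 2) (B.h i) = 0 := by
      rw [pow_two, Module.End.mul_apply, a1, map_neg, map_smul, a2, smul_zero, neg_zero]
    have a4 : ((LieAlgebra.ad (ZMod p) L ((1 : ZMod p) • B.e α)) ^ 3) (B.h i) = 0 := by
      rw [pow_succ', Module.End.mul_apply, a3, map_zero]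
    simp only [LinearMap.add_apply, LinearMap.smul_apply, LinearMap.zero_apply, pow_zero, pow_one,
      Module.End.one_apply]
    rw [a1, a3, a4]
    simp [sub_eq_add_neg]
  rw [e, sub_sub_cancel_left, map_neg, map_smul, Finsupp.neg_apply, Finsupp.smul_apply,
    B.basis.repr_self, Finsupp.single_eq_same, smul_eq_mul, mul_one, neg_eq_zero] at h1
  exact h1

/-- conjugation of a root element by a diagonal element. -/
theorem diag_mul_x {T : Module.End (ZMod p) L} (hT : ∀ x y, T ⁅x, y⁆ = ⁅T x, T y⁆) {α : ι}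
    {c : ZMod p} (hc : T (B.e α) = c • B.e α) (t : ZMod p) :
    T * B.x α t = B.x α (c * t) * T := by
  rw [x, mul_expNil_ad T hT, x, map_smul, hc, smul_smul, mul_comm t c]

section Ext

variable {E : Type*} [Group E] [Finite E] (ρ : E →* Module.End (ZMod p) L)
  (M : Subgroup E) (j : L → E)

/-- The subgroup `j (Fil f k)`. -/
def MF (hj : ∀ x y, j (x + y) = j x * j y) (f : ι → ℤ) (k : ℤ) : Subgroup E where
  carrier := {g | ∃ x ∈ B.Fil f k, j x = g}
  one_mem' := ⟨0, Submodule.zero_mem _, by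
    have := hj 0 0
    rw [add_zero] at this
    exact (mul_eq_left.1 this.symm)⟩
  mul_mem' := by
    rintro _ _ ⟨x, hx, rfl⟩ ⟨y, hy, rfl⟩
    exact ⟨x + y, Submodule.add_mem _ hx hy, hj x y⟩
  inv_mem' := by
    rintro _ ⟨x, hx, rfl⟩
    refine ⟨-x, Submodule.neg_mem _ hx, ?_⟩
    have h0 : j 0 = 1 := by
      have := hj 0 0
      rw [add_zero] at this
      exact (mul_eq_left.1 this.symm)
    rw [eq_inv_iff_mul_eq_one, ← hj, neg_add_cancel, h0]

theorem mem_MF (hj : ∀ x y, j (x + y) = j x * j y) (f : ι → ℤ) (k : ℤ) (g : E) :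
    g ∈ B.MF j hj f k ↔ ∃ x ∈ B.Fil f k, j x = g := Iff.rfl

end Ext



theorem Fil_eq_zero {k : ℤ} (h : ∀ u, wt (b := b) f u < k) {x : L} (hx : x ∈ B.Fil f k) :
    x = 0 := by
  rw [← B.basis.repr.map_eq_zero_iff]
  ext u
  exact hx u (h u)

theorem mem_Fil_of_le {k : ℤ} (h : ∀ u, k ≤ wt (b := b) f u) (x : L) : x ∈ B.Fil f k := by
  intro u hu
  exact absurd (h u) (not_le.2 hu)

theorem Fil_succ {k : ℤ} (h : ∀ u, wt (b := b) f u ≠ k) {x : L} (hx : x ∈ B.Fil f k) :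
    x ∈ B.Fil f (k + 1) := by
  intro u hu
  exact hx u (lt_of_le_of_ne (by omega) (h u))

/-- The standing assumptions on the extension. -/
structure ExtCtx {E : Type*} [Group E] [Finite E] (B : ChevalleyBasis b (ZMod p) L) (f : ι → ℤ)
    (ρ : E →* Module.End (ZMod p) L) (M : Subgroup E) (j : L → E) (τ : E) (l : (ZMod p)ˣ) :
    Prop where
  hρ : ∀ g, ρ g ∈ B.elem
  hx : ∀ α, ∃ g, ρ g = B.x α 1 ∧ g ^ p = 1
  hM : ∀ g, g ∈ M ↔ ρ g = 1
  hj : ∀ x y, j (x + y) = j x * j y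
  hjM : ∀ g, g ∈ M ↔ ∃ x, j x = g
  hjc : ∀ g x, g * j x * g⁻¹ = j (ρ g x)
  hτ : τ ^ (p - 1) = 1
  hl : ∀ k : ℤ, k ≠ 0 → (∃ α, |k| ≤ 100 * (|f α| + 1)) → l ^ k ≠ 1
  hd : ∀ u, ρ τ (B.basis u) = ((l ^ (wt f u) : (ZMod p)ˣ) : ZMod p) • B.basis u

namespace ExtCtx

variable {B} {E : Type*} [Group E] [Finite E] {ρ : E →* Module.End (ZMod p) L} {M : Subgroup E}
  {j : L → E} {τ : E} {l : (ZMod p)ˣ} (hC : ExtCtx B f ρ M j τ l)

include hC

theorem j_zero : j 0 = 1 := by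
  have := hC.hj 0 0
  rw [add_zero] at this
  exact (mul_eq_left.1 this.symm)

theorem j_neg (x : L) : j (-x) = (j x)⁻¹ := by
  rw [eq_inv_iff_mul_eq_one, ← hC.hj, neg_add_cancel, hC.j_zero]

theorem j_nsmul (x : L) (n : ℕ) : j (n • x) = (j x) ^ n := by
  induction n with
  | zero => rw [zero_smul, pow_zero, hC.j_zero]
  | succ n ih => rw [succ_nsmul, hC.hj, ih, pow_succ]

theorem normal : M.Normal := by
  refine ⟨fun n hn g => ?_⟩
  obtain ⟨x, rfl⟩ := (hC.hjM n).1 hn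
  rw [hC.hjc]
  exact (hC.hjM _).2 ⟨_, rfl⟩

theorem comm (a : E) (ha : a ∈ M) (c : E) (hc : c ∈ M) : a * c = c * a := by
  obtain ⟨x, rfl⟩ := (hC.hjM a).1 ha
  obtain ⟨y, rfl⟩ := (hC.hjM c).1 hc
  rw [← hC.hj, ← hC.hj, add_comm]

theorem pow_eq_one (a : E) (ha : a ∈ M) : a ^ p = 1 := by
  obtain ⟨x, rfl⟩ := (hC.hjM a).1 ha
  rw [← hC.j_nsmul, ← Nat.cast_smul_eq_nsmul (ZMod p), ZMod.natCast_self, zero_smul, hC.j_zero]

theorem M_le (hG : Good b f D p) (k : ℕ) : M ≤ B.UU hG.isWt ρ k := by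
  intro g hg
  rw [hC.hM] at hg
  rw [mem_UU, hg]
  exact B.one_mem_UF f k

theorem lie (hG : Good b f D p) (g : E) (x y : L) : ρ g ⁅x, y⁆ = ⁅ρ g x, ρ g y⁆ :=
  B.elem_lie hG.isUnit720 (hC.hρ g) x y

theorem repr_tau (x : L) (u : b.support ⊕ ι) :
    B.basis.repr (ρ τ x) u = ((l ^ (wt f u) : (ZMod p)ˣ) : ZMod p) * B.basis.repr x u := by
  classical
  have : Fintype ι := Fintype.ofFinite ι
  conv_lhs => rw [← B.basis.sum_repr x, map_sum, map_sum]
  rw [Finsupp.finsetSum_apply, Finset.sum_eq_single u]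
  · rw [map_smul, hC.hd, map_smul, map_smul, Finsupp.smul_apply, Finsupp.smul_apply,
      B.basis.repr_self, Finsupp.single_eq_same, smul_eq_mul, smul_eq_mul, mul_one, mul_comm]
  · intro v _ hv
    rw [map_smul, hC.hd, map_smul, map_smul, Finsupp.smul_apply, Finsupp.smul_apply,
      B.basis.repr_self, Finsupp.single_eq_of_ne (Ne.symm hv), smul_zero, smul_zero]
  · intro h
    exact absurd (Finset.mem_univ u) h

theorem Rz_tau : B.Rz f 0 (ρ τ) := by
  intro i x hx u hu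
  rw [hC.repr_tau, hx u (by omega), mul_zero]

theorem Rz_tau_inv (hp : 1 < p) : B.Rz f 0 (ρ τ⁻¹) := by
  have e : τ⁻¹ = τ ^ (p - 2) := by
    rw [eq_comm, eq_inv_iff_mul_eq_one, ← pow_succ, ← hC.hτ]
    congr 1
    omega
  rw [e, map_pow]
  refine (hC.Rz_tau.pow (p - 2)).mono ?_
  simp

theorem Rz_UU (hG : Good b f D p) {g : E} (hg : g ∈ B.UU hG.isWt ρ 1) : B.Rz f 0 (ρ g) :=
  Rz_of_UF (by norm_num) hg

theorem tau_sub {k : ℤ} {x : L} (hx : x ∈ B.Fil f k) :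
    ρ τ x - ((l ^ k : (ZMod p)ˣ) : ZMod p) • x ∈ B.Fil f (k + 1) := by
  intro u hu
  rw [map_sub, Finsupp.sub_apply, hC.repr_tau, map_smul, Finsupp.smul_apply, smul_eq_mul]
  by_cases h : wt f u < k
  · rw [hx u h, mul_zero, mul_zero, sub_zero]
  · have : wt f u = k := by omega
    rw [this, sub_self]

theorem conj_MF {g : E} (hg : B.Rz f 0 (ρ g)) {k : ℤ} {x : E} (hx : x ∈ B.MF j hC.hj f k) :
    g * x * g⁻¹ ∈ B.MF j hC.hj f k := by
  obtain ⟨x, hx, rfl⟩ := hx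
  refine ⟨ρ g x, ?_, (hC.hjc g x).symm⟩
  have := hg k x hx
  rwa [add_zero] at this

theorem conj_UU (hG : Good b f D p) {g : E} (hg : B.Rz f 0 (ρ g)) (hg' : B.Rz f 0 (ρ g⁻¹)) {k : ℕ}
    {x : E} (hx : x ∈ B.UU hG.isWt ρ k) : g * x * g⁻¹ ∈ B.UU hG.isWt ρ k := by
  rw [mem_UU, mem_UF_iff] at hx ⊢
  refine ⟨hC.lie hG _, ?_⟩
  have e : ρ (g * x * g⁻¹) - 1 = ρ g * (ρ x - 1) * ρ g⁻¹ := by
    rw [mul_sub, sub_mul, mul_one, ← map_mul, ← map_mul, ← map_mul, mul_inv_cancel, map_one]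
  rw [e]
  refine ((hg.mul hx.2).mul hg').mono (by omega)

theorem iter (g : E) (x : L) (n : ℕ) :
    (fun y => g * y * g⁻¹ * y⁻¹)^[n] (j x) = j (((ρ g - 1) ^ n) x) := by
  induction n with
  | zero => simp
  | succ n ih =>
    rw [Function.iterate_succ_apply', ih, hC.hjc, ← hC.j_neg, ← hC.hj, pow_succ',
      Module.End.mul_apply, LinearMap.sub_apply, Module.End.one_apply]
    congr 1
    abel

theorem mul_pow (hG : Good b f D p) {g : E} (hg : g ∈ B.UU hG.isWt ρ 1) {m : E} (hm : m ∈ M) :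
    (g * m) ^ p = g ^ p := by
  rcases isEmpty_or_nonempty ι with hι | hι
  · -- then `L = 0`
    have h1 : ∀ x : L, x = 0 := by
      intro x
      rw [← B.basis.repr.map_eq_zero_iff]
      ext u
      rcases u with i | α
      · exact hι.elim i.1
      · exact hι.elim α
    obtain ⟨x, rfl⟩ := (hC.hjM m).1 hm
    rw [h1 x, hC.j_zero, mul_one]
  obtain ⟨a, ha⟩ := Finite.exists_max (fun α => |f α|)
  have hb := hG.bound a
  have hN := hC.normal
  refine mul_pow_of_unipotent p M hC.comm hC.pow_eq_one g (2 * (f a).natAbs + 1) ?_ ?_ m hm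
  · have h2 : (0 : ℤ) ≤ |f a| := abs_nonneg _
    have h3 : (0 : ℤ) ≤ |D| := abs_nonneg _
    have h4 : (2 * |f a| + 1 + 1 : ℤ) ≤ p := by nlinarith
    have h5 : ((f a).natAbs : ℤ) = |f a| := Int.natCast_natAbs _
    omega
  · intro w hw
    obtain ⟨x, rfl⟩ := (hC.hjM w).1 hw
    rw [hC.iter]
    have h1 : x ∈ B.Fil f (-|f a|) := by
      refine B.mem_Fil_of_le ?_ x
      rintro (i | α)
      · rw [wt_inl]
        have := abs_nonneg (f a)
        omega
      · have := ha α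
        rw [wt_inr]
        have h2 := neg_abs_le (f α)
        omega
    have h2 := ((mem_UF_iff.1 hg).2.pow (2 * (f a).natAbs + 1)) _ _ h1
    have h3 := B.Fil_eq_zero (f := f) ?_ h2
    · rw [h3, hC.j_zero]
    · have h5 : ((f a).natAbs : ℤ) = |f a| := Int.natCast_natAbs _
      have e : -|f a| + ((2 * (f a).natAbs + 1 : ℕ) : ℤ) * ((1 : ℕ) : ℤ) = |f a| + 1 := by
        push_cast
        ring
      rw [e]
      rintro (i | α)
      · rw [wt_inl]
        have := abs_nonneg (f a)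
        omega
      · have := ha α
        rw [wt_inr]
        have h2 := le_abs_self (f α)
        omega

end ExtCtx



namespace ExtCtx

variable {B} {E : Type*} [Group E] [Finite E] {ρ : E →* Module.End (ZMod p) L} {M : Subgroup E}
  {j : L → E} {τ : E} {l : (ZMod p)ˣ} (hC : ExtCtx B f ρ M j τ l)

include hC

theorem rho_inv (g : E) (α : ι) (hG : Good b f D p) (t : ZMod p) (h : ρ g = B.x α t) :
    ρ g⁻¹ = B.x α (-t) := by
  have h1 : ρ g⁻¹ * ρ g = 1 := by rw [← map_mul, inv_mul_cancel, map_one]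
  have h2 := B.x_mul_neg hG.isUnit720 α t
  rw [← h] at h2
  calc ρ g⁻¹ = ρ g⁻¹ * (ρ g * B.x α (-t)) := by rw [h2, mul_one]
    _ = B.x α (-t) := by rw [← mul_assoc, h1, one_mul]

theorem units_val_pow (k : ℤ) : ((((l ^ k : (ZMod p)ˣ) : ZMod p).val : ℕ) : ZMod p) =
    ((l ^ k : (ZMod p)ˣ) : ZMod p) := ZMod.natCast_zmod_val _

theorem dev_step (hG : Good b f D p) (a : ι) (ha : ∀ α, |f α| ≤ |f a|) (k : ℤ)
    (H : Subgroup E) (hHU : H ≤ B.UU hG.isWt ρ 1) (hHτ : ∀ x ∈ H, τ * x * τ⁻¹ ∈ H)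
    (hHM : ∀ x, (x ∈ H ∧ x ∈ M) ↔ x ∈ B.MF j hC.hj f k)
    (hHs : ∀ g ∈ B.UU hG.isWt ρ 1, ∃ h ∈ H, ∃ m ∈ M, g = h * m) :
    ∃ H : Subgroup E, H ≤ B.UU hG.isWt ρ 1 ∧ (∀ x ∈ H, τ * x * τ⁻¹ ∈ H) ∧
      (∀ x, (x ∈ H ∧ x ∈ M) ↔ x ∈ B.MF j hC.hj f (k + 1)) ∧
      ∀ g ∈ B.UU hG.isWt ρ 1, ∃ h ∈ H, ∃ m ∈ M, g = h * m := by
  classical
  by_cases hk : ∀ u, wt (b := b) f u ≠ k
  · refine ⟨H, hHU, hHτ, fun x => ?_, hHs⟩
    rw [hHM]
    constructor
    · rintro ⟨y, hy, rfl⟩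
      exact ⟨y, B.Fil_succ hk hy, rfl⟩
    · rintro ⟨y, hy, rfl⟩
      exact ⟨y, B.Fil_anti (by omega) hy, rfl⟩
  push Not at hk
  obtain ⟨u, hu⟩ := hk
  have hp1 : 1 < p := (Fact.out : p.Prime).one_lt
  have hbd := hG.bound a
  have habs : (0 : ℤ) ≤ |f a| := abs_nonneg _
  -- `k` is small
  have hkabs : |k| ≤ |f a| := by
    rcases u with i | α
    · rw [wt_inl] at hu
      rw [← hu]; simp
    · rw [wt_inr] at hu
      rw [← hu]; exact ha α
  have hkS : (∃ α, f α = (k.toNat : ℤ)) ∨ k.toNat = 0 := by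
    rcases le_or_gt k 0 with h | h
    · right; omega
    · left
      rcases u with i | α
      · rw [wt_inl] at hu; omega
      · refine ⟨α, ?_⟩
        rw [wt_inr] at hu
        omega
  -- the elements `y`
  obtain ⟨y, hy⟩ : ∃ y : ℕ → E, ∀ n : ℕ, ∀ α, f α = n → ρ (y n) = B.x α 1 ∧ y n ∈ H ∧
      (y n) ^ p = 1 := by
    have : ∀ n : ℕ, ∃ y : E, ∀ α, f α = n → ρ y = B.x α 1 ∧ y ∈ H ∧ y ^ p = 1 := by
      intro n
      by_cases h : ∃ α, f α = n
      · obtain ⟨α, hα⟩ := h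
        obtain ⟨g, hg, hgp⟩ := hC.hx α
        have hα0 : 0 < f α := by have := hG.ne α; omega
        have hgU : g ∈ B.UU hG.isWt ρ 1 := by
          rw [mem_UU, hg]
          exact UF_anti (by push_cast; omega) (x_mem_UF hG hG.isWt α hα0.le 1)
        obtain ⟨h, hh, m, hm, e⟩ := hHs g hgU
        have e' : h = g * m⁻¹ := by rw [e]; group
        refine ⟨h, fun α' hα' => ?_⟩
        have : α' = α := hG.inj (by rw [hα, hα'])
        subst this
        refine ⟨?_, hh, ?_⟩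
        · rw [e', map_mul, (hC.hM _).1 (inv_mem hm), mul_one, hg]
        · rw [e', hC.mul_pow hG hgU (inv_mem hm), hgp]
      · exact ⟨1, fun α hα => absurd ⟨α, hα⟩ h⟩
    choose y hy using this
    exact ⟨y, hy⟩
  have hRzU : ∀ g ∈ H, B.Rz f 0 (ρ g) := fun g hg => hC.Rz_UU hG (hHU hg)
  -- the filtration
  obtain ⟨F, hF⟩ : ∃ F : ℕ → Subgroup E, ∀ i, F i = H ⊓ B.UU hG.isWt ρ (max i 1) :=
    ⟨_, fun _ => rfl⟩
  have hF1 : ∀ x, x ∈ F 1 ↔ x ∈ H := by
    intro x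
    rw [hF, Subgroup.mem_inf]
    exact ⟨fun h => h.1, fun h => ⟨h, hHU h⟩⟩
  have hFi : ∀ i, 1 ≤ i → ∀ x, x ∈ F i ↔ x ∈ H ∧ ρ x ∈ B.UF f i := by
    intro i hi x
    rw [hF, Subgroup.mem_inf, mem_UU, max_eq_left hi]
  have hMFH : ∀ {k' : ℤ}, k ≤ k' → ∀ x ∈ B.MF j hC.hj f k', x ∈ H ∧ x ∈ M := by
    rintro k' hk' _ ⟨x, hx, rfl⟩
    exact (hHM _).2 ⟨x, B.Fil_anti hk' hx, rfl⟩
  obtain ⟨R, hR1, hR2, hR3, hR4, hR5⟩ := theoremF_rel p (B.MF j hC.hj f (k + 1))
    (B.MF j hC.hj f k) F (2 * (f a).natAbs) τ (p - 1) hC.hτ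
    (by
      have := (Nat.coprime_self_sub_left (m := 1) (n := p) (by omega))
      rw [this]
      exact Nat.coprime_one_left p)
    (by
      rintro _ ⟨x, hx, rfl⟩
      exact ⟨x, B.Fil_anti (by omega) hx, rfl⟩)
    (fun g hg x hx => hC.conj_MF (hRzU g ((hF1 g).1 hg)) hx)
    (fun x hx => hC.conj_MF hC.Rz_tau hx)
    (fun g hg x hx => hC.conj_MF (hRzU g ((hF1 g).1 hg)) hx)
    (fun x hx => hC.conj_MF hC.Rz_tau hx)
    (by
      intro i g hg x hx
      rw [hF1] at hg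
      rw [hF, Subgroup.mem_inf] at hx ⊢
      exact ⟨mul_mem (mul_mem hg hx.1) (inv_mem hg),
        hC.conj_UU hG (hRzU g hg) (hRzU _ (inv_mem hg)) hx.2⟩)
    (by
      intro i x hx
      rw [hF, Subgroup.mem_inf] at hx ⊢
      exact ⟨hHτ x hx.1, hC.conj_UU hG hC.Rz_tau (hC.Rz_tau_inv hp1) hx.2⟩)
    (by
      intro i x hx
      rw [hF, Subgroup.mem_inf] at hx ⊢
      refine ⟨hx.1, ?_⟩
      have := hx.2
      rw [mem_UU] at this ⊢
      exact UF_anti (by push_cast; omega) this)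
    (by
      intro i hi
      have hi1 : 1 ≤ i := by omega
      ext x
      rw [hFi i hi1, ← hHM]
      refine and_congr_right fun hx => ?_
      rw [hC.hM]
      constructor
      · intro h
        refine UF_top (B := B) hG hG.isWt ?_ (by omega) h
        intro α β
        have h1 := ha α
        have h2 := ha β
        have h3 := le_abs_self (f α)
        have h4 := le_abs_self (f β)
        have h5 : ((f a).natAbs : ℤ) = |f a| := Int.natCast_natAbs _
        omega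
      · intro h
        rw [h]
        exact B.one_mem_UF f i)
    (by
      rintro _ ⟨x, hx, rfl⟩ g hg
      rw [hF1] at hg
      refine ⟨x - ρ g x, ?_, ?_⟩
      · have h1 := (mem_UF_iff.1 (hHU hg)).2 k x hx
        have e : x - ρ g x = - ((ρ g - 1) x) := by
          rw [LinearMap.sub_apply, Module.End.one_apply]; abel
        rw [e]
        exact Submodule.neg_mem _ h1
      · have e : j x * g * (j x)⁻¹ * g⁻¹ = j x * (g * j (-x) * g⁻¹) := by
          rw [hC.j_neg]; group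
        rw [e, hC.hjc, ← hC.hj, map_neg, sub_eq_add_neg])
    (by
      intro z hz
      exact hC.pow_eq_one z (hMFH le_rfl z hz).2)
    (by
      intro i i' hi hi' x hx z hz
      rw [hFi i hi] at hx
      rw [hFi i' hi'] at hz
      rw [hFi _ (by omega)]
      refine ⟨mul_mem (mul_mem (mul_mem hx.1 hz.1) (inv_mem hx.1)) (inv_mem hz.1), ?_⟩
      rw [map_mul, map_mul, map_mul]
      have h1 : ρ x⁻¹ ∈ B.UF f i := (inv_mem (show x ∈ B.UU hG.isWt ρ i from hx.2))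
      have h2 : ρ z⁻¹ ∈ B.UF f i' := (inv_mem (show z ∈ B.UU hG.isWt ρ i' from hz.2))
      have := UF_comm (B := B) hG.isWt (k := i) (l := i') (by omega) (by omega) hx.2 hz.2 h1 h2
        (by rw [← map_mul, mul_inv_cancel, map_one]) (by rw [← map_mul, mul_inv_cancel, map_one])
      push_cast
      exact this)
    {n : ℕ | ∃ α, f α = (n : ℤ)}
    (by
      rintro i ⟨α, hα⟩
      have := hG.ne α
      omega)
    y (fun i => ((l ^ (i : ℤ) : (ZMod p)ˣ) : ZMod p).val)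
    ((l ^ k : (ZMod p)ˣ) : ZMod p).val k.toNat
    (by
      intro i hi hiS x hx
      rw [hFi i hi] at hx
      rw [hFi _ (by omega)]
      refine ⟨hx.1, ?_⟩
      have := (peel_step (B := B) hG (k := i) (by omega) hx.2).1 (fun ε hε => hiS ⟨ε, hε⟩)
      push_cast
      exact this)
    (by
      rintro i ⟨α, hα⟩
      have hα0 : 0 < f α := by have := hG.ne α; omega
      rw [hFi i (by omega)]
      obtain ⟨h1, h2, h3⟩ := hy i α hα
      refine ⟨h2, ?_⟩
      rw [h1, ← hα]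
      exact x_mem_UF hG hG.isWt α hα0.le 1)
    (by
      rintro i ⟨α, hα⟩
      have hα0 : 0 < f α := by have := hG.ne α; omega
      rw [hFi _ (by omega)]
      obtain ⟨h1, h2, h3⟩ := hy i α hα
      rintro ⟨-, h4⟩
      rw [h1] at h4
      refine B.x_notMem_UF hG α ?_
      rw [hα]
      push_cast at h4
      exact h4)
    (by
      rintro i ⟨α, hα⟩
      exact (hy i α hα).2.2)
    (by
      rintro i ⟨α, hα⟩ x hx
      have hα0 : 0 < f α := by have := hG.ne α; omega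
      rw [hFi i (by omega)] at hx
      obtain ⟨h1, h2, h3⟩ := hy i α hα
      obtain ⟨t, ht⟩ := (peel_step (B := B) hG (k := i) (by omega) hx.2).2 α hα
      refine ⟨t.val, ?_⟩
      rw [hFi _ (by omega)]
      refine ⟨mul_mem hx.1 (pow_mem h2 _), ?_⟩
      rw [map_mul, map_pow, h1, B.x_pow hG.isUnit720, mul_one, ZMod.natCast_zmod_val]
      push_cast
      exact ht)
    (by
      rintro i ⟨α, hα⟩
      have hα0 : 0 < f α := by have := hG.ne α; omega
      obtain ⟨h1, h2, h3⟩ := hy i α hα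
      rw [hFi _ (by omega)]
      refine ⟨mul_mem (hHτ _ h2) (inv_mem (pow_mem h2 _)), ?_⟩
      have e1 : ρ (τ * y i * τ⁻¹) = B.x α ((l ^ (i : ℤ) : (ZMod p)ˣ) : ZMod p) := by
        have hd : ρ τ (B.e α) = ((l ^ (i : ℤ) : (ZMod p)ˣ) : ZMod p) • B.e α := by
          have := hC.hd (.inr α)
          rw [wt_inr, hα] at this
          exact this
        rw [map_mul, map_mul, h1, B.diag_mul_x (hC.lie hG τ) hd, mul_one, mul_assoc, ← map_mul,
          mul_inv_cancel, map_one, mul_one]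
      have e2 : ρ ((y i) ^ (((l ^ (i : ℤ) : (ZMod p)ˣ) : ZMod p).val)) =
          B.x α ((l ^ (i : ℤ) : (ZMod p)ˣ) : ZMod p) := by
        rw [map_pow, h1, B.x_pow hG.isUnit720, mul_one, ZMod.natCast_zmod_val]
      rw [map_mul, e1, ← e2, ← map_mul, mul_inv_cancel, map_one]
      exact B.one_mem_UF f _)
    (by
      rintro _ ⟨x, hx, rfl⟩
      refine ⟨ρ τ x - ((l ^ k : (ZMod p)ˣ) : ZMod p) • x, hC.tau_sub hx, ?_⟩
      rw [hC.hjc, ← hC.j_nsmul, ← hC.j_neg, ← hC.hj]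
      congr 1
      rw [← Nat.cast_smul_eq_nsmul (ZMod p), ZMod.natCast_zmod_val]
      abel)
    (by
      rintro i ⟨α, hα⟩ i' ⟨β, hβ⟩ h
      have hα0 : 0 < f α := by have := hG.ne α; omega
      have hβ0 : 0 < f β := by have := hG.ne β; omega
      rw [← ZMod.natCast_eq_natCast_iff] at h
      push_cast at h
      rw [ZMod.natCast_zmod_val, ZMod.natCast_zmod_val, ZMod.natCast_zmod_val] at h
      have h1 : l ^ ((i : ℤ) + i' - k) = 1 := by
        rw [zpow_sub, zpow_add, mul_inv_eq_one]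
        exact Units.ext (by push_cast; exact h)
      have h2 : (i : ℤ) + i' - k = 0 := by
        by_contra h3
        refine hC.hl _ h3 ⟨a, ?_⟩ h1
        have h4 := ha α
        have h5 := ha β
        rw [abs_of_pos hα0] at h4
        rw [abs_of_pos hβ0] at h5
        rw [abs_le] at hkabs ⊢
        constructor <;> omega
      omega)
    (by
      rintro i ⟨α, hα⟩
      have hα0 : 0 < f α := by have := hG.ne α; omega
      rw [← ZMod.natCast_eq_natCast_iff, ZMod.natCast_zmod_val, ZMod.natCast_zmod_val]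
      constructor
      · intro h
        have h1 : l ^ ((i : ℤ) - k) = 1 := by
          rw [zpow_sub, mul_inv_eq_one]
          exact Units.ext h
        have h2 : (i : ℤ) - k = 0 := by
          by_contra h3
          refine hC.hl _ h3 ⟨a, ?_⟩ h1
          have h4 := ha α
          rw [abs_of_pos hα0] at h4
          rw [abs_le] at hkabs ⊢
          constructor <;> omega
        omega
      · intro h
        have : (i : ℤ) = k := by omega
        rw [this])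
    (B.NN f)
    (by
      intro i i' h
      exact B.NN_zero hG fun γ hγ => h ⟨γ, hγ⟩)
    (by
      rintro i ⟨α, hα⟩ i' ⟨β, hβ⟩ ⟨γ, hγ⟩
      have hα0 : 0 < f α := by have := hG.ne α; omega
      have hβ0 : 0 < f β := by have := hG.ne β; omega
      obtain ⟨a1, a2, a3⟩ := hy i α hα
      obtain ⟨b1, b2, b3⟩ := hy i' β hβ
      obtain ⟨c1, c2, c3⟩ := hy (i + i') γ hγ
      rw [hFi _ (by omega)]
      refine ⟨mul_mem (mul_mem (mul_mem (mul_mem a2 b2) (inv_mem a2)) (inv_mem b2))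
        (inv_mem (zpow_mem c2 _)), ?_⟩
      have hs : P.root α + P.root β = P.root γ := hG.add _ _ _ (by rw [hα, hβ, hγ]; push_cast; ring)
      have key := comm_x (B := B) hG α β γ hα0 hβ0 hs.symm
      have d1 := hC.rho_inv _ α hG 1 a1
      have d2 := hC.rho_inv _ β hG 1 b1
      have hz : ∀ n : ℤ, ρ ((y (i + i')) ^ n) = B.x γ (n : ZMod p) := by
        intro n
        obtain ⟨m, rfl | rfl⟩ := n.eq_nat_or_neg
        · rw [zpow_natCast, map_pow, c1, B.x_pow hG.isUnit720, mul_one]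
          push_cast; rfl
        · rw [zpow_neg, zpow_natCast, hC.rho_inv _ γ hG (m : ZMod p) (by
            rw [map_pow, c1, B.x_pow hG.isUnit720, mul_one])]
          push_cast; rfl
      rw [map_mul, map_mul, map_mul, map_mul, a1, b1, d1, d2, hC.rho_inv _ γ hG _ (hz _),
        B.NN_eq hG hα hβ]
      rw [hγ] at key
      push_cast at key ⊢
      exact key)
    (B.root_cond hG k.toNat hkS)
  refine ⟨R, fun x hx => hHU ((hF1 x).1 (hR2 hx)), hR3, fun x => ?_, fun g hg => ?_⟩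
  · constructor
    · rintro ⟨h1, h2⟩
      exact hR4 x h1 ((hHM x).1 ⟨(hF1 x).1 (hR2 h1), h2⟩)
    · intro h
      exact ⟨hR1 h, (hMFH (by omega) x h).2⟩
  · obtain ⟨h, hh, m, hm, rfl⟩ := hHs g hg
    obtain ⟨r, hr, z, hz, rfl⟩ := hR5 h ((hF1 h).2 hh)
    exact ⟨r, hr, z * m, mul_mem (hMFH le_rfl z hz).2 hm, by group⟩

end ExtCtx


theorem splitU [P.IsIrreducible] (hG : Good b f D p) {E : Type*} [Group E] [Finite E]
    (ρ : E →* Module.End (ZMod p) L) (hρ : ∀ g, ρ g ∈ B.elem)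
    (hx : ∀ α, ∃ g, ρ g = B.x α 1 ∧ g ^ p = 1)
    (M : Subgroup E) (hM : ∀ g, g ∈ M ↔ ρ g = 1)
    (j : L → E) (hj : ∀ x y, j (x + y) = j x * j y) (hjinj : Function.Injective j)
    (hjM : ∀ g, g ∈ M ↔ ∃ x, j x = g) (hjc : ∀ g x, g * j x * g⁻¹ = j (ρ g x)) :
    ∃ K : Subgroup E, K ⊓ M = ⊥ ∧ K ⊔ M = ⊤ := by
  classical
  have : Fintype ι := Fintype.ofFinite ι
  have hp : p.Prime := Fact.out
  obtain ⟨t, ht, l, htp, hl, hd⟩ := B.exists_torus hG
  -- all root elements are in the range of `ρ`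
  have hx' : ∀ α s, ∃ g, ρ g = B.x α s := by
    intro α s
    obtain ⟨g, hg, -⟩ := hx α
    refine ⟨g ^ s.val, ?_⟩
    rw [map_pow, hg, B.x_pow hG.isUnit720, mul_one, ZMod.natCast_zmod_val]
  have hel : ∀ g ∈ B.elem, ∃ e, ρ e = g := by
    intro g hg
    induction hg using Submonoid.closure_induction with
    | mem g hg => obtain ⟨⟨α, s⟩, rfl⟩ := hg; exact hx' α s
    | one => exact ⟨1, map_one ρ⟩
    | mul g₁ g₂ _ _ ih₁ ih₂ =>
      obtain ⟨e₁, rfl⟩ := ih₁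
      obtain ⟨e₂, rfl⟩ := ih₂
      exact ⟨e₁ * e₂, map_mul ρ _ _⟩
  obtain ⟨g₀, hg₀⟩ := hel t ht
  have hMexp : ∀ m ∈ M, m ^ p = 1 := by
    intro m hm
    obtain ⟨x, rfl⟩ := (hjM m).1 hm
    have h0 : j 0 = 1 := by
      have := hj 0 0
      rw [add_zero] at this
      exact (mul_eq_left.1 this.symm)
    have hn : ∀ n : ℕ, j (n • x) = (j x) ^ n := by
      intro n
      induction n with
      | zero => rw [zero_smul, pow_zero, h0]
      | succ n ih => rw [succ_nsmul, hj, ih, pow_succ]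
    rw [← hn, ← Nat.cast_smul_eq_nsmul (ZMod p), ZMod.natCast_self, zero_smul, h0]
  have hτ : (g₀ ^ p) ^ (p - 1) = 1 := by
    rw [← pow_mul, mul_comm, pow_mul]
    refine hMexp _ ((hM _).2 ?_)
    rw [map_pow, hg₀, htp]
  have hρτ : ρ (g₀ ^ p) = t := by
    have e : p = p - 1 + 1 := (Nat.sub_add_cancel hp.one_lt.le).symm
    calc ρ (g₀ ^ p) = t ^ p := by rw [map_pow, hg₀]
      _ = t ^ (p - 1 + 1) := congrArg (fun n => t ^ n) e
      _ = t := by rw [pow_succ, htp, one_mul]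
  have hC : ExtCtx B f ρ M j (g₀ ^ p) l :=
    ⟨hρ, hx, hM, hj, hjM, hjc, hτ, hl, fun u => by rw [hρτ]; exact hd u⟩
  have hMn := hC.normal
  -- the complement in `U`
  have hU : ∃ H : Subgroup E, H ≤ B.UU hG.isWt ρ 1 ∧ (∀ x, x ∈ H → x ∈ M → x = 1) ∧
      ∀ g ∈ B.UU hG.isWt ρ 1, ∃ h ∈ H, ∃ m ∈ M, g = h * m := by
    rcases isEmpty_or_nonempty ι with hι | hι
    · refine ⟨B.UU hG.isWt ρ 1, le_rfl, fun x _ hx => ?_, fun g hg => ⟨g, hg, 1, one_mem _, by simp⟩⟩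
      obtain ⟨x, rfl⟩ := (hjM x).1 hx
      have h1 : x = 0 := by
        rw [← B.basis.repr.map_eq_zero_iff]
        ext u
        rcases u with i | α
        · exact hι.elim i.1
        · exact hι.elim α
      rw [h1, hC.j_zero]
    obtain ⟨a, ha⟩ := Finite.exists_max (fun α => |f α|)
    have key : ∀ n : ℕ, ∃ H : Subgroup E, H ≤ B.UU hG.isWt ρ 1 ∧
        (∀ x ∈ H, (g₀ ^ p) * x * (g₀ ^ p)⁻¹ ∈ H) ∧
        (∀ x, (x ∈ H ∧ x ∈ M) ↔ x ∈ B.MF j hC.hj f (-|f a| + n)) ∧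
        ∀ g ∈ B.UU hG.isWt ρ 1, ∃ h ∈ H, ∃ m ∈ M, g = h * m := by
      intro n
      induction n with
      | zero =>
        refine ⟨B.UU hG.isWt ρ 1, le_rfl, fun x hx =>
          hC.conj_UU hG hC.Rz_tau (hC.Rz_tau_inv hp.one_lt) hx, fun x => ?_,
          fun g hg => ⟨g, hg, 1, one_mem _, by simp⟩⟩
        constructor
        · rintro ⟨-, h⟩
          obtain ⟨x, rfl⟩ := (hjM x).1 h
          refine ⟨x, B.mem_Fil_of_le ?_ x, rfl⟩
          rintro (i | α)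
          · rw [wt_inl]
            have := abs_nonneg (f a)
            push_cast
            omega
          · have := ha α
            rw [wt_inr]
            have h2 := neg_abs_le (f α)
            push_cast
            omega
        · rintro ⟨x, hx, rfl⟩
          have : j x ∈ M := (hjM _).2 ⟨x, rfl⟩
          exact ⟨hC.M_le hG 1 this, this⟩
      | succ n ih =>
        obtain ⟨H, h1, h2, h3, h4⟩ := ih
        obtain ⟨H', h1', h2', h3', h4'⟩ := hC.dev_step hG a ha _ H h1 h2 h3 h4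
        refine ⟨H', h1', h2', fun x => ?_, h4'⟩
        rw [h3']
        push_cast
        rw [add_assoc]
    obtain ⟨H, h1, h2, h3, h4⟩ := key (2 * (f a).natAbs + 1)
    refine ⟨H, h1, fun x hx hx' => ?_, h4⟩
    obtain ⟨x, hx0, rfl⟩ := (h3 x).1 ⟨hx, hx'⟩
    rw [B.Fil_eq_zero (f := f) ?_ hx0, hC.j_zero]
    have h5 : ((f a).natAbs : ℤ) = |f a| := Int.natCast_natAbs _
    have e : -|f a| + ((2 * (f a).natAbs + 1 : ℕ) : ℤ) = |f a| + 1 := by
      push_cast
      ring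
    rw [e]
    rintro (i | α)
    · rw [wt_inl]
      have := abs_nonneg (f a)
      omega
    · have := ha α
      rw [wt_inr]
      have h2 := le_abs_self (f α)
      omega
  obtain ⟨H, h1, h2, h3⟩ := hU
  have hMU : M ≤ B.UU hG.isWt ρ 1 := hC.M_le hG 1
  have hidx := index_coprime (B := B) hG ρ hρ hx' (B.UU hG.isWt ρ 1) (fun g => by
    rw [mem_UU]; push_cast; rfl)
  have hcard : ∃ n, Nat.card M = p ^ n := by
    have hfin : Module.Finite (ZMod p) L := Module.Finite.of_basis B.basis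
    have : Finite L := Module.finite_of_finite (ZMod p)
    have e : Nat.card M = Nat.card L := by
      symm
      refine Nat.card_eq_of_bijective (fun x : L => (⟨j x, (hjM _).2 ⟨x, rfl⟩⟩ : M)) ⟨?_, ?_⟩
      · intro x y hxy
        exact hjinj (congrArg Subtype.val hxy)
      · rintro ⟨m, hm⟩
        obtain ⟨x, rfl⟩ := (hjM m).1 hm
        exact ⟨x, rfl⟩
    refine ⟨Module.finrank (ZMod p) L, ?_⟩
    rw [e, Module.natCard_eq_pow_finrank (K := ZMod p) (V := L), Nat.card_zmod]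
  obtain ⟨n, hn⟩ := hcard
  refine gaschutz M (B.UU hG.isWt ρ 1) hC.comm hMU (by rw [hn]; exact hidx.pow_left n) H ?_ ?_
  · rw [eq_bot_iff]
    rintro x ⟨hx1, hx2⟩
    exact h2 x hx1 hx2
  · refine le_antisymm (sup_le h1 hMU) fun g hg => ?_
    obtain ⟨h, hh, m, hm, rfl⟩ := h3 g hg
    exact mul_mem ((le_sup_left : H ≤ _) hh) ((le_sup_right : M ≤ _) hm)

end ChevalleyBasis

end Ch4
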