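import Mathlib
import Pool.Agent.Lib.P4ba0d5.SplitMod
import Pool.Agent.Lib.P4ba0d5.SplitU
import Pool.Agent.Lib.P4ba0d5.Baer
import Pool.Agent.Lib.P4ba0d5.PP

/-! The finite group theoretic main step: an extension `1 → L → A → L → 1`, `1 → A → E → G(𝔽_p)`
with `A` of exponent `p` such that `p`-th powers of root elements are as in `G(ℤ/p²)` splits over
the lower copy of `L`. -/

set_option linter.unusedSectionVars false
set_option linter.unusedVariables false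

namespace Ch4

open Module

variable {ι X Y : Type*} [Finite ι] [AddCommGroup X] [Module ℚ X] [AddCommGroup Y] [Module ℚ Y]
  {P : RootPairing ι ℚ X Y} [P.IsRootSystem] [P.IsCrystallographic] [P.IsReduced]
  {b : P.Base} {f : ι → ℤ} {D : ℤ} {p : ℕ} [Fact p.Prime]
  {L : Type*} [LieRing L] [LieAlgebra (ZMod p) L]

/-- the setting of `finMain` -/
structure FinSetup (B : ChevalleyBasis b (ZMod p) L) (E : Type*) [Group E] where
  ρ : E →* Module.End (ZMod p) L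
  hρ : ∀ g, ρ g ∈ B.elem
  A : Subgroup E
  M : Subgroup E
  hMA : M ≤ A
  hA : ∀ g, g ∈ A ↔ ρ g = 1
  j : L → E
  hj : ∀ x y, j (x + y) = j x * j y
  hjinj : Function.Injective j
  hjM : ∀ g, g ∈ M ↔ ∃ x, j x = g
  hjc : ∀ g x, g * j x * g⁻¹ = j (ρ g x)
  δ : E → L
  hδ : ∀ a ∈ A, ∀ a' ∈ A, δ (a * a') = δ a + δ a'
  hδs : ∀ x, ∃ a ∈ A, δ a = x
  hδk : ∀ a ∈ A, δ a = 0 ↔ a ∈ M
  hδc : ∀ g, ∀ a ∈ A, δ (g * a * g⁻¹) = ρ g (δ a)
  hAp : ∀ a ∈ A, a ^ p = 1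
  hx : ∀ α, ∃ g, ρ g = B.x α 1 ∧ δ (g ^ p) = B.e α

namespace FinSetup

variable {B : ChevalleyBasis b (ZMod p) L} {E : Type*} [Group E] (S : FinSetup B E)

theorem A_normal : S.A.Normal := by
  constructor
  intro a ha g
  rw [S.hA] at ha ⊢
  rw [map_mul, map_mul, ha, mul_one, ← map_mul, mul_inv_cancel, map_one]

theorem M_normal : S.M.Normal := by
  constructor
  intro a ha g
  obtain ⟨x, rfl⟩ := (S.hjM _).1 ha
  rw [S.hjc]
  exact (S.hjM _).2 ⟨_, rfl⟩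

theorem j_mem (x : L) : S.j x ∈ S.M := (S.hjM _).2 ⟨x, rfl⟩

theorem j_zero : S.j 0 = 1 := by
  have := S.hj 0 0
  rw [add_zero] at this
  exact left_eq_mul.1 this

theorem j_neg (x : L) : S.j (-x) = (S.j x)⁻¹ := by
  rw [eq_inv_iff_mul_eq_one, ← S.hj, neg_add_cancel, j_zero]

theorem δ_one : S.δ 1 = 0 := (S.hδk 1 S.A.one_mem).2 S.M.one_mem

theorem δ_inv {a : E} (ha : a ∈ S.A) : S.δ a⁻¹ = -S.δ a := by
  rw [eq_neg_iff_add_eq_zero, ← S.hδ _ (S.A.inv_mem ha) _ ha, inv_mul_cancel, δ_one]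

theorem comm_mem {a : E} (g : E) (ha : a ∈ S.A) : g * a * g⁻¹ * a⁻¹ ∈ S.A :=
  S.A.mul_mem (S.A_normal.conj_mem a ha g) (S.A.inv_mem ha)

theorem δ_comm {a : E} (g : E) (ha : a ∈ S.A) :
    S.δ (g * a * g⁻¹ * a⁻¹) = (S.ρ g - 1) (S.δ a) := by
  rw [S.hδ _ (S.A_normal.conj_mem a ha g) _ (S.A.inv_mem ha), S.hδc _ _ ha, S.δ_inv ha]
  simp [sub_eq_add_neg]

theorem j_comm (g : E) (x : L) :
    g * S.j x * g⁻¹ * (S.j x)⁻¹ = S.j ((S.ρ g - 1) x) := by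
  rw [S.hjc, ← S.j_neg, ← S.hj]
  simp [sub_eq_add_neg]

theorem iter_mem {a : E} (g : E) (ha : a ∈ S.A) (n : ℕ) :
    (fun y => g * y * g⁻¹ * y⁻¹)^[n] a ∈ S.A ∧
    S.δ ((fun y => g * y * g⁻¹ * y⁻¹)^[n] a) = ((S.ρ g - 1) ^ n) (S.δ a) := by
  induction n generalizing a with
  | zero => exact ⟨ha, rfl⟩
  | succ n ih =>
    rw [Function.iterate_succ_apply, pow_succ, Module.End.mul_apply, ← S.δ_comm g ha]
    exact ih (S.comm_mem g ha)

theorem iter_j (g : E) (x : L) (n : ℕ) :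
    (fun y => g * y * g⁻¹ * y⁻¹)^[n] (S.j x) = S.j (((S.ρ g - 1) ^ n) x) := by
  induction n generalizing x with
  | zero => rfl
  | succ n ih =>
    rw [Function.iterate_succ_apply, pow_succ, Module.End.mul_apply, ← ih, ← S.j_comm g x]

theorem iter_four {g : E} (hg : (S.ρ g - 1) ^ 4 = 0) :
    (∀ a ∈ S.A, (fun y => g * y * g⁻¹ * y⁻¹)^[4] a ∈ S.M) ∧
    (∀ a ∈ S.M, (fun y => g * y * g⁻¹ * y⁻¹)^[4] a = 1) := by
  constructor
  · intro a ha
    obtain ⟨h1, h2⟩ := S.iter_mem g ha 4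
    rw [hg] at h2
    exact (S.hδk _ h1).1 h2
  · intro a ha
    obtain ⟨x, rfl⟩ := (S.hjM _).1 ha
    rw [S.iter_j, hg, LinearMap.zero_apply, S.j_zero]

theorem iter_eight {g : E} (hg : (S.ρ g - 1) ^ 4 = 0) :
    ∀ a ∈ S.A, (fun y => g * y * g⁻¹ * y⁻¹)^[8] a = 1 := by
  intro a ha
  obtain ⟨h1, h2⟩ := S.iter_four hg
  rw [show (8 : ℕ) = 4 + 4 by norm_num, Function.iterate_add_apply]
  exact h2 _ (h1 a ha)

theorem M_comm {m a : E} (hm : m ∈ S.M) (ha : a ∈ S.A) : m * a = a * m := by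
  obtain ⟨x, rfl⟩ := (S.hjM _).1 hm
  have h := S.hjc a x
  rw [(S.hA a).1 ha, Module.End.one_apply, mul_inv_eq_iff_eq_mul] at h
  exact h.symm

/-- lifts of root elements -/
noncomputable def gx (α : ι) : E := (S.hx α).choose
theorem ρ_gx (α : ι) : S.ρ (S.gx α) = B.x α 1 := (S.hx α).choose_spec.1
theorem δ_gx (α : ι) : S.δ (S.gx α ^ p) = B.e α := (S.hx α).choose_spec.2

theorem ρ_gx_pow (h7 : IsUnit (720 : ZMod p)) (α : ι) (n : ℕ) :
    S.ρ (S.gx α ^ n) = B.x α (n : ZMod p) := by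
  rw [map_pow, ρ_gx, B.x_pow h7, mul_one]

theorem gx_pow_mem (h7 : IsUnit (720 : ZMod p)) (α : ι) : S.gx α ^ p ∈ S.A := by
  rw [S.hA, S.ρ_gx_pow h7, CharP.cast_eq_zero, B.x_zero]

theorem exists_ρ_eq (h7 : IsUnit (720 : ZMod p)) (α : ι) (t : ZMod p) :
    ∃ g, S.ρ g = B.x α t :=
  ⟨S.gx α ^ t.val, by rw [S.ρ_gx_pow h7, ZMod.natCast_zmod_val]⟩

/-- `A` is abelian -/
theorem A_comm [P.IsIrreducible] (hG : Good b f D p) :
    ∀ a ∈ S.A, ∀ a' ∈ S.A, a * a' = a' * a := by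
  have h7 := hG.isUnit720
  have hp := hG.lt
  have := S.A_normal
  have := S.M_normal
  -- central elements
  have hcen : ∀ α, ∀ a ∈ S.A, S.gx α ^ p * a = a * S.gx α ^ p := by
    intro α
    have hu : (S.ρ (S.gx α) - 1) ^ 4 = 0 := by rw [S.ρ_gx, B.x_sub_one_pow h7]
    obtain ⟨h1, h2⟩ := S.iter_four hu
    refine pow_centralizes p (by omega) S.A S.M S.hMA S.hAp (fun m hm a ha => S.M_comm hm ha)
      (fun a ha a' ha' => ?_) (S.gx α) 4 4 (by omega) h1 h2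
    rw [← S.hδk _ (S.comm_mem a ha'), S.δ_comm a ha', (S.hA a).1 ha, sub_self]
    rfl
  -- the subspace
  let V0 : AddSubgroup L :=
    { carrier := {x | ∃ a ∈ S.A, (∀ a' ∈ S.A, a * a' = a' * a) ∧ S.δ a = x}
      zero_mem' := ⟨1, S.A.one_mem, fun a' _ => by simp, S.δ_one⟩
      add_mem' := by
        rintro x y ⟨a, ha, ha', rfl⟩ ⟨c, hc, hc', rfl⟩
        refine ⟨a * c, S.A.mul_mem ha hc, fun a' h => ?_, S.hδ a ha c hc⟩
        rw [mul_assoc, hc' a' h, ← mul_assoc, ha' a' h, mul_assoc]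
      neg_mem' := by
        rintro x ⟨a, ha, ha', rfl⟩
        refine ⟨a⁻¹, S.A.inv_mem ha, fun a' h => ?_, S.δ_inv ha⟩
        exact ((show Commute a a' from ha' a' h).inv_left).eq }
  let V : Submodule (ZMod p) L := AddSubgroup.toZModSubmodule p V0
  have hV : ∀ x, x ∈ V ↔ ∃ a ∈ S.A, (∀ a' ∈ S.A, a * a' = a' * a) ∧ S.δ a = x := fun x => Iff.rfl
  have hirr := B.irred hG V (fun α t v hv => by
    obtain ⟨g, hg⟩ := S.exists_ρ_eq h7 α t
    obtain ⟨a, ha, ha', rfl⟩ := (hV v).1 hv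
    refine (hV _).2 ⟨g * a * g⁻¹, S.A_normal.conj_mem a ha g, fun a' h => ?_, ?_⟩
    · have h3 := ha' (g⁻¹ * a' * g) (by simpa using S.A_normal.conj_mem a' h g⁻¹)
      calc g * a * g⁻¹ * a' = g * (a * (g⁻¹ * a' * g)) * g⁻¹ := by group
        _ = g * (g⁻¹ * a' * g * a) * g⁻¹ := by rw [h3]
        _ = a' * (g * a * g⁻¹) := by group
    · rw [S.hδc _ _ ha, hg])
  have hne := ModSetup.nonempty_ι (P := P)
  obtain ⟨α⟩ := hne
  have hmem : B.e α ∈ V := (hV _).2 ⟨_, S.gx_pow_mem h7 α, hcen α, S.δ_gx α⟩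
  have htop : V = ⊤ := by
    rcases hirr with h | h
    · exfalso
      rw [h, Submodule.mem_bot] at hmem
      exact B.basis.ne_zero _ hmem
    · exact h
  intro a ha a' ha'
  have h1 : S.δ a ∈ V := by rw [htop]; trivial
  obtain ⟨c, hc, hc', hca⟩ := (hV _).1 h1
  have h2 : a * c⁻¹ ∈ S.M := by
    rw [← S.hδk _ (S.A.mul_mem ha (S.A.inv_mem hc)), S.hδ _ ha _ (S.A.inv_mem hc), S.δ_inv hc, hca,
      add_neg_cancel]
  have h3 := S.M_comm h2 ha'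
  calc a * a' = a * c⁻¹ * (c * a') := by group
    _ = (a * c⁻¹ * a') * c := by rw [hc' a' ha', mul_assoc _ a' c]
    _ = a' * a := by rw [h3]; group

include S in
theorem finite_E [Finite L] : Finite E := by
  classical
  have hfA : Finite S.A := by
    choose s hsA hsδ using S.hδs
    have : ∀ a : S.A, ∃ x, S.j x = (a : E) * (s (S.δ a))⁻¹ := by
      intro a
      rw [← S.hjM, ← S.hδk _ (S.A.mul_mem a.2 (S.A.inv_mem (hsA _))),
        S.hδ _ a.2 _ (S.A.inv_mem (hsA _)), S.δ_inv (hsA _), hsδ, add_neg_cancel]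
    choose y hy using this
    refine Finite.of_injective (fun a : S.A => (S.δ a, y a)) ?_
    intro a a' h
    simp only [Prod.mk.injEq] at h
    have h1 := hy a
    rw [h.2, hy a', h.1] at h1
    exact Subtype.ext (mul_right_cancel h1).symm
  have hs : ∃ s : Module.End (ZMod p) L → E, ∀ g, S.ρ (s (S.ρ g)) = S.ρ g := by
    refine ⟨fun T => if h : ∃ g, S.ρ g = T then h.choose else 1, fun g => ?_⟩
    have h : ∃ g', S.ρ g' = S.ρ g := ⟨g, rfl⟩
    simp only [h, ↓reduceDIte]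
    exact h.choose_spec
  obtain ⟨s, hs⟩ := hs
  have hfE : Finite (Module.End (ZMod p) L) :=
    Finite.of_injective (fun T : Module.End (ZMod p) L => (T : L → L)) DFunLike.coe_injective
  refine Finite.of_injective (fun g : E => (S.ρ g, (⟨(s (S.ρ g))⁻¹ * g, by
    rw [S.hA, map_mul]
    have h1 : S.ρ (s (S.ρ g))⁻¹ * S.ρ (s (S.ρ g)) = 1 := by
      rw [← map_mul, inv_mul_cancel, map_one]
    rw [hs] at h1
    exact h1⟩ : S.A))) ?_
  intro g g' h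
  simp only [Prod.mk.injEq, Subtype.mk.injEq] at h
  rw [h.1] at h
  exact mul_left_cancel h.2

/-- `p`-th powers of unipotent elements only depend on the image -/
theorem pow_eq [P.IsIrreducible] (hG : Good b f D p) {g g' : E} (hg : (S.ρ g - 1) ^ 4 = 0)
    (h : S.ρ g = S.ρ g') : g ^ p = g' ^ p := by
  have := S.A_normal
  have hp := hG.lt
  have hmem : g⁻¹ * g' ∈ S.A := by
    rw [S.hA, map_mul, ← h, ← map_mul, inv_mul_cancel, map_one]
  have h1 := mul_pow_of_unipotent p S.A (S.A_comm hG) S.hAp g 8 (by omega) (S.iter_eight hg)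
    (g⁻¹ * g') hmem
  rw [mul_inv_cancel_left] at h1
  exact h1.symm

theorem pow_of_x [P.IsIrreducible] (hG : Good b f D p) {g : E} {α : ι} {t : ZMod p}
    (hg : S.ρ g = B.x α t) : g ^ p = (S.gx α ^ p) ^ t.val := by
  rw [pow_right_comm]
  apply S.pow_eq hG
  · rw [hg, B.x_sub_one_pow hG.isUnit720]
  · rw [S.ρ_gx_pow hG.isUnit720, hg, ZMod.natCast_zmod_val]

theorem ρ_mul_inv (g : E) : S.ρ g * S.ρ g⁻¹ = 1 := by rw [← map_mul, mul_inv_cancel, map_one]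

theorem ρ_lie (hG : Good b f D p) (g : E) (x y : L) : S.ρ g ⁅x, y⁆ = ⁅S.ρ g x, S.ρ g y⁆ :=
  B.elem_lie hG.isUnit720 (S.hρ g) x y

theorem ρ_conj_gx (hG : Good b f D p) (g : E) (α : ι) :
    S.ρ (g * S.gx α * g⁻¹) = expNil (LieAlgebra.ad (ZMod p) L (S.ρ g (B.e α))) := by
  have h1 := mul_expNil_ad (S.ρ g) (S.ρ_lie hG g) (B.e α)
  rw [map_mul, map_mul, S.ρ_gx, ChevalleyBasis.x, one_smul, h1, mul_assoc, S.ρ_mul_inv, mul_one]

theorem conj_gx_pow [P.IsIrreducible] (hG : Good b f D p) {g : E} {α β : ι} {c : ZMod p}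
    (h : S.ρ g (B.e α) = c • B.e β) : g * S.gx α ^ p * g⁻¹ = (S.gx β ^ p) ^ c.val := by
  rw [← conj_pow]
  apply S.pow_of_x hG
  rw [S.ρ_conj_gx hG, h]
  rfl

theorem ρ_conj_unip (h7 : IsUnit (720 : ZMod p)) (g : E) (α : ι) :
    (S.ρ (g * S.gx α * g⁻¹) - 1) ^ 4 = 0 := by
  have h1 : S.ρ (g * S.gx α * g⁻¹) - 1 = S.ρ g * (S.ρ (S.gx α) - 1) * S.ρ g⁻¹ := by
    rw [mul_sub, sub_mul, mul_one, S.ρ_mul_inv, map_mul, map_mul]
  have h2 : S.ρ g⁻¹ * S.ρ g = 1 := by rw [← map_mul, inv_mul_cancel, map_one]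
  have h3 : ∀ n : ℕ, (S.ρ g * (S.ρ (S.gx α) - 1) * S.ρ g⁻¹) ^ n =
      S.ρ g * (S.ρ (S.gx α) - 1) ^ n * S.ρ g⁻¹ := by
    intro n
    induction n with
    | zero => rw [pow_zero, pow_zero, mul_one, S.ρ_mul_inv]
    | succ n ih =>
      rw [pow_succ, ih, pow_succ]
      calc S.ρ g * (S.ρ (S.gx α) - 1) ^ n * S.ρ g⁻¹ * (S.ρ g * (S.ρ (S.gx α) - 1) * S.ρ g⁻¹)
          = S.ρ g * (S.ρ (S.gx α) - 1) ^ n * (S.ρ g⁻¹ * S.ρ g) * (S.ρ (S.gx α) - 1) * S.ρ g⁻¹ := by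
            simp only [mul_assoc]
        _ = _ := by rw [h2, mul_one]; simp only [mul_assoc]
  rw [h1, h3, S.ρ_gx, B.x_sub_one_pow h7, mul_zero, zero_mul]

theorem conj_gx_pow' [P.IsIrreducible] (hG : Good b f D p) {g : E} {α δ κ : ι}
    (hκ : P.root κ = P.root α + P.root δ) (h1 : 2 • P.root α + P.root δ ∉ Set.range P.root)
    (h2 : P.root α + 2 • P.root δ ∉ Set.range P.root) (hg : S.ρ g = B.x α 1) :
    g * S.gx δ ^ p * g⁻¹ = S.gx δ ^ p * (S.gx κ ^ p) ^ (B.N α δ : ZMod p).val := by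
  have h7 := hG.isUnit720
  have hp := hG.lt
  have := S.A_normal
  set n := (B.N α δ : ZMod p).val with hn
  have hN : (n : ZMod p) = (B.N α δ : ZMod p) := ZMod.natCast_zmod_val _
  have e1 : S.ρ g (B.e δ) = B.e δ + (B.N α δ : ZMod p) • B.e κ := by
    rw [hg, B.x_e_add hG hκ h1]
  -- `[e_δ, e_κ] = 0`
  have e2 : ⁅B.e δ, B.e κ⁆ = 0 := by
    apply B.lie_e_e_zero
    · intro h0
      have : IsAddTorsionFree X := .of_module_rat X
      refine P.nsmul_notMem_range_root (n := 2) (i := δ) ⟨ng P α, ?_⟩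
      rw [root_ng, eq_comm, eq_neg_iff_add_eq_zero, ← h0, hκ, two_smul]; abel
    · have : P.root δ + P.root κ = P.root α + 2 • P.root δ := by rw [hκ, two_smul]; abel
      rw [this]; exact h2
  have had : Commute (LieAlgebra.ad (ZMod p) L ((1 : ZMod p) • B.e δ))
      (LieAlgebra.ad (ZMod p) L ((B.N α δ : ZMod p) • B.e κ)) := by
    have h0 : ⁅(1 : ZMod p) • B.e δ, (B.N α δ : ZMod p) • B.e κ⁆ = 0 := by
      rw [smul_lie, lie_smul, e2, smul_zero, smul_zero]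
    rw [Commute, SemiconjBy]
    ext x
    rw [Module.End.mul_apply, Module.End.mul_apply]
    simp only [LieAlgebra.ad_apply]
    rw [leibniz_lie, h0, zero_lie, zero_add]
  have hsum : LieAlgebra.ad (ZMod p) L ((1 : ZMod p) • B.e δ) +
      LieAlgebra.ad (ZMod p) L ((B.N α δ : ZMod p) • B.e κ) =
      LieAlgebra.ad (ZMod p) L (S.ρ g (B.e δ)) := by
    rw [e1, ← map_add, one_smul]
  have hsum4 : (LieAlgebra.ad (ZMod p) L ((1 : ZMod p) • B.e δ) +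
      LieAlgebra.ad (ZMod p) L ((B.N α δ : ZMod p) • B.e κ)) ^ 4 = 0 := by
    rw [hsum]
    have h3 : ∀ n : ℕ, (LieAlgebra.ad (ZMod p) L (S.ρ g (B.e δ))) ^ n * S.ρ g =
        S.ρ g * (LieAlgebra.ad (ZMod p) L (B.e δ)) ^ n := by
      intro n
      induction n with
      | zero => simp
      | succ n ih =>
        have h5 : LieAlgebra.ad (ZMod p) L (S.ρ g (B.e δ)) * S.ρ g =
            S.ρ g * LieAlgebra.ad (ZMod p) L (B.e δ) := by
          ext x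
          simp only [Module.End.mul_apply, LieAlgebra.ad_apply, S.ρ_lie hG]
        rw [pow_succ, mul_assoc, h5, ← mul_assoc, ih, pow_succ, mul_assoc]
    have h4 := h3 4
    rw [B.ad_e_pow_four, mul_zero] at h4
    calc (LieAlgebra.ad (ZMod p) L (S.ρ g (B.e δ))) ^ 4
        = (LieAlgebra.ad (ZMod p) L (S.ρ g (B.e δ))) ^ 4 * (S.ρ g * S.ρ g⁻¹) := by
          rw [S.ρ_mul_inv, mul_one]
      _ = 0 := by rw [← mul_assoc, h4, zero_mul]
  have e5 : B.x δ 1 * B.x κ (B.N α δ : ZMod p) =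
      expNil (LieAlgebra.ad (ZMod p) L (S.ρ g (B.e δ))) := by
    rw [ChevalleyBasis.x, ChevalleyBasis.x, expNil_mul h7 _ _ had (B.ad_smul_e_pow_four _ _)
        (B.ad_smul_e_pow_four _ _) hsum4, hsum]
  have e6 : B.x κ (B.N α δ : ZMod p) * B.x δ 1 =
      expNil (LieAlgebra.ad (ZMod p) L (S.ρ g (B.e δ))) := by
    rw [ChevalleyBasis.x, ChevalleyBasis.x, expNil_mul h7 _ _ had.symm (B.ad_smul_e_pow_four _ _)
        (B.ad_smul_e_pow_four _ _) (by rw [add_comm]; exact hsum4), add_comm, hsum]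
  have e3 : S.ρ (g * S.gx δ * g⁻¹) = S.ρ (S.gx δ * S.gx κ ^ n) := by
    rw [S.ρ_conj_gx hG, map_mul, S.ρ_gx_pow h7, S.ρ_gx, hN, e5]
  have e4 : (g * S.gx δ * g⁻¹) ^ p = (S.gx δ * S.gx κ ^ n) ^ p :=
    S.pow_eq hG (S.ρ_conj_unip h7 g δ) e3
  rw [← conj_pow, e4, pow_right_comm]
  have hcm : S.gx δ * S.gx κ ^ n * (S.gx δ)⁻¹ * (S.gx κ ^ n)⁻¹ ∈ S.A := by
    have h5 : S.ρ (S.gx δ * S.gx κ ^ n) = S.ρ (S.gx κ ^ n * S.gx δ) := by
      rw [map_mul, map_mul, S.ρ_gx_pow h7, S.ρ_gx, hN, e5, e6]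
    have h6 : S.gx δ * S.gx κ ^ n * (S.gx δ)⁻¹ * (S.gx κ ^ n)⁻¹ =
        (S.gx δ * S.gx κ ^ n) * (S.gx κ ^ n * S.gx δ)⁻¹ := by group
    rw [S.hA, h6, map_mul, h5, S.ρ_mul_inv]
  have h3 := S.iter_eight (g := S.gx δ) (by rw [S.ρ_gx, B.x_sub_one_pow h7])
  have h4 := S.iter_eight (g := S.gx κ ^ n) (by rw [S.ρ_gx_pow h7, B.x_sub_one_pow h7])
  exact mul_pow_of_comm_mod p S.A (S.A_comm hG) S.hAp _ _ hcm 8 8 (by omega) h3 h4

theorem exists_V' [P.IsIrreducible] [Finite L] (hG : Good b f D p) :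
    ∃ V : Subgroup E, V.Normal ∧ V ≤ S.A ∧ (∀ x, S.j x ∈ V → x = 0) ∧
      (∀ a ∈ S.A, ∃ v ∈ V, ∃ x, a = v * S.j x) ∧ ∀ α, S.gx α ^ p ∈ V := by
  classical
  have h7 := hG.isUnit720
  have := S.A_normal
  have hfin : Finite E := S.finite_E
  obtain ⟨W, _, _, F, Lc, hF0, hFadd, hFA, hFs, hFinj, hLc⟩ :=
    PPaux.exists_model p S.A (S.A_comm hG) S.hAp
  have hFneg : ∀ v, F (-v) = (F v)⁻¹ := PPaux.f_neg hF0 hFadd
  have hFsmul : ∀ (c : ZMod p) v, F (c • v) = (F v) ^ c.val := by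
    intro c v
    have h1 : ∀ n : ℕ, F (n • v) = (F v) ^ n := by
      intro n
      induction n with
      | zero => rw [zero_smul, pow_zero, hF0]
      | succ n ih => rw [succ_nsmul, hFadd, ih, pow_succ]
    rw [← h1, ← Nat.cast_smul_eq_nsmul (ZMod p), ZMod.natCast_zmod_val]
  have hfinW : Finite W := Finite.of_injective F hFinj
  let σ : E →* Module.End (ZMod p) W :=
    { toFun := Lc, map_one' := PPaux.L_one hFinj hLc, map_mul' := PPaux.L_mul hFinj hLc }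
  have hσ : ∀ g v, F (σ g v) = g * F v * g⁻¹ := hLc
  have hjs : ∀ x, ∃ v, F v = S.j x := fun x => hFs _ (S.hMA (S.j_mem x))
  choose i0 hi0 using hjs
  let i : L →ₗ[ZMod p] W := AddMonoidHom.toZModLinearMap p
    { toFun := i0
      map_zero' := by apply hFinj; rw [hi0, hF0, S.j_zero]
      map_add' := fun x y => by apply hFinj; rw [hi0, hFadd, hi0, hi0, S.hj] }
  have hi : ∀ x, F (i x) = S.j x := hi0
  let π : W →ₗ[ZMod p] L := AddMonoidHom.toZModLinearMap p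
    { toFun := fun v => S.δ (F v)
      map_zero' := by rw [hF0, S.δ_one]
      map_add' := fun x y => by rw [hFadd, S.hδ _ (hFA x) _ (hFA y)] }
  have hπ : ∀ v, π v = S.δ (F v) := fun v => rfl
  have hehs : ∀ α, ∃ v, F v = S.gx α ^ p := fun α => hFs _ (S.gx_pow_mem h7 α)
  choose eh heh using hehs
  obtain ⟨V, hV1, hV2, hV3, hV4⟩ := B.splitMod hG S.ρ S.hρ (fun α => ⟨S.gx α, S.ρ_gx α⟩) σ
    (fun g hg => PPaux.L_mem (W := S.A) (S.A_comm hG) hFA hFinj hLc g ((S.hA g).2 hg)) i π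
    (fun x y h => by
      apply S.hjinj
      rw [← hi, ← hi, h])
    (fun x => by
      obtain ⟨a, ha, hax⟩ := S.hδs x
      obtain ⟨v, rfl⟩ := hFs a ha
      exact ⟨v, hax⟩)
    (fun w => by
      rw [hπ, S.hδk _ (hFA w), S.hjM]
      constructor
      · rintro ⟨x, hx⟩; exact ⟨x, hFinj (by rw [hi, hx])⟩
      · rintro ⟨x, hx⟩; exact ⟨x, by rw [← hi, hx]⟩)
    (fun g x => by apply hFinj; rw [hσ, hi, hi, S.hjc])
    (fun g w => by rw [hπ, hσ, S.hδc _ _ (hFA w), hπ])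
    eh (fun α => by rw [hπ, heh, S.δ_gx])
    (fun g α β c h => by
      apply hFinj
      rw [hσ, heh, S.conj_gx_pow hG h, hFsmul, heh])
    (fun α δ κ g hκ h1 h2 hg => by
      apply hFinj
      rw [hσ, heh, S.conj_gx_pow' hG hκ h1 h2 hg, hFadd, hFsmul, heh, heh])
  let V' : Subgroup E :=
    { carrier := {g | ∃ v ∈ V, F v = g}
      mul_mem' := by
        rintro _ _ ⟨v, hv, rfl⟩ ⟨w, hw, rfl⟩
        exact ⟨v + w, V.add_mem hv hw, hFadd v w⟩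
      one_mem' := ⟨0, V.zero_mem, hF0⟩
      inv_mem' := by
        rintro _ ⟨v, hv, rfl⟩
        exact ⟨-v, V.neg_mem hv, hFneg v⟩ }
  have hV' : ∀ g, g ∈ V' ↔ ∃ v ∈ V, F v = g := fun g => Iff.rfl
  refine ⟨V', ⟨?_⟩, ?_, ?_, ?_, ?_⟩
  · intro g hg h
    obtain ⟨v, hv, rfl⟩ := (hV' g).1 hg
    exact (hV' _).2 ⟨σ h v, hV1 h v hv, hσ h v⟩
  · intro g hg
    obtain ⟨v, hv, rfl⟩ := (hV' g).1 hg
    exact hFA v
  · intro x hx
    obtain ⟨v, hv, hvx⟩ := (hV' _).1 hx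
    have : i x = v := hFinj (by rw [hi, hvx])
    exact hV2 x (by rw [this]; exact hv)
  · intro a ha
    obtain ⟨w, rfl⟩ := hFs a ha
    obtain ⟨v, hv, x, rfl⟩ := hV3 w
    exact ⟨F v, (hV' _).2 ⟨v, hv, rfl⟩, x, by rw [hFadd, hi]⟩
  · intro α
    exact (hV' _).2 ⟨eh α, hV4 α, heh α⟩

theorem main [P.IsIrreducible] [Finite L] (hG : Good b f D p) :
    ∃ K : Subgroup E, K ⊓ S.M = ⊥ ∧ K ⊔ S.M = ⊤ := by
  classical
  have h7 := hG.isUnit720
  have := S.A_normal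
  have hfin : Finite E := S.finite_E
  obtain ⟨V, hVn, hVA, hV0, hVs, hVx⟩ := S.exists_V' hG
  let q := QuotientGroup.mk' V
  have hq : Function.Surjective q := QuotientGroup.mk'_surjective V
  have hqk : ∀ g, q g = 1 ↔ g ∈ V := fun g => QuotientGroup.eq_one_iff g
  let ρ' : E ⧸ V →* Module.End (ZMod p) L := QuotientGroup.lift V S.ρ (fun g hg => (S.hA g).1 (hVA hg))
  have hρ' : ∀ g, ρ' (q g) = S.ρ g := fun g => rfl
  have hM' : ∀ g, q g ∈ S.A.map q ↔ g ∈ S.A := by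
    intro g
    constructor
    · rintro ⟨a, ha, hag⟩
      have h1 : q (a⁻¹ * g) = 1 := by rw [map_mul, map_inv, hag, inv_mul_cancel]
      have h2 := hVA ((hqk _).1 h1)
      simpa using S.A.mul_mem ha h2
    · intro h; exact ⟨g, h, rfl⟩
  obtain ⟨K, hK1, hK2⟩ := B.splitU hG (E := E ⧸ V) ρ'
    (fun g => by obtain ⟨g, rfl⟩ := hq g; rw [hρ']; exact S.hρ g)
    (fun α => ⟨q (S.gx α), by rw [hρ', S.ρ_gx], by rw [← map_pow, hqk]; exact hVx α⟩)
    (S.A.map q)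
    (fun g => by obtain ⟨g, rfl⟩ := hq g; rw [hρ', hM', S.hA])
    (fun x => q (S.j x))
    (fun x y => by rw [S.hj, map_mul])
    (fun x y h => by
      have h1 : q (S.j (x - y)) = 1 := by
        rw [sub_eq_add_neg, S.hj, map_mul, S.j_neg, map_inv]
        simp only at h
        rw [h, mul_inv_cancel]
      exact sub_eq_zero.1 (hV0 _ ((hqk _).1 h1)))
    (fun g => by
      obtain ⟨g, rfl⟩ := hq g
      rw [hM']
      constructor
      · intro hg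
        obtain ⟨v, hv, x, rfl⟩ := hVs g hg
        exact ⟨x, by rw [map_mul, (hqk v).2 hv, one_mul]⟩
      · rintro ⟨x, hx⟩
        rw [← hM', ← hx, hM']
        exact S.hMA (S.j_mem x))
    (fun g x => by
      obtain ⟨g, rfl⟩ := hq g
      rw [hρ', ← S.hjc, map_mul, map_mul, map_inv])
  refine ⟨K.comap q, ?_, ?_⟩
  · rw [eq_bot_iff]
    rintro g ⟨h1, h2⟩
    have h3 : q g ∈ K ⊓ S.A.map q := ⟨h1, ⟨g, S.hMA h2, rfl⟩⟩
    rw [hK1, Subgroup.mem_bot, hqk] at h3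
    obtain ⟨x, rfl⟩ := (S.hjM _).1 h2
    rw [hV0 x h3, S.j_zero]
    exact Subgroup.mem_bot.2 rfl
  · rw [eq_top_iff]
    intro g _
    have hAn : (S.A.map q).Normal := S.A_normal.map q hq
    have h1 : q g ∈ K ⊔ S.A.map q := by rw [hK2]; trivial
    obtain ⟨k, hk, m, hm, hkm⟩ := Subgroup.mem_sup_of_normal_right.1 h1
    obtain ⟨a, ha, rfl⟩ := hm
    obtain ⟨v, hv, x, rfl⟩ := hVs a ha
    have h2 : g * (S.j x)⁻¹ ∈ K.comap q := by
      rw [Subgroup.mem_comap, map_mul, ← hkm, map_mul, (hqk v).2 hv, one_mul, map_inv,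
        mul_inv_cancel_right]
      exact hk
    have h3 : g = g * (S.j x)⁻¹ * S.j x := by group
    rw [h3]
    exact Subgroup.mul_mem_sup h2 (S.j_mem x)

end FinSetup

theorem ChevalleyBasis.finMain (B : ChevalleyBasis b (ZMod p) L) [P.IsIrreducible]
    (hG : Good b f D p) {E : Type*} [Group E]
    (ρ : E →* Module.End (ZMod p) L) (hρ : ∀ g, ρ g ∈ B.elem)
    (A M : Subgroup E) (hMA : M ≤ A) (hA : ∀ g, g ∈ A ↔ ρ g = 1)
    (j : L → E) (hj : ∀ x y, j (x + y) = j x * j y) (hjinj : Function.Injective j)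
    (hjM : ∀ g, g ∈ M ↔ ∃ x, j x = g) (hjc : ∀ g x, g * j x * g⁻¹ = j (ρ g x))
    (δ : E → L) (hδ : ∀ a ∈ A, ∀ a' ∈ A, δ (a * a') = δ a + δ a')
    (hδs : ∀ x, ∃ a ∈ A, δ a = x) (hδk : ∀ a ∈ A, δ a = 0 ↔ a ∈ M)
    (hδc : ∀ g, ∀ a ∈ A, δ (g * a * g⁻¹) = ρ g (δ a))
    (hAp : ∀ a ∈ A, a ^ p = 1)
    (hx : ∀ α, ∃ g, ρ g = B.x α 1 ∧ δ (g ^ p) = B.e α) :
    ∃ K : Subgroup E, K ⊓ M = ⊥ ∧ K ⊔ M = ⊤ := by
  have : Module.Finite (ZMod p) L := Module.Finite.of_basis B.basis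
  have : Finite L := Module.finite_of_finite (ZMod p)
  let S : FinSetup B E :=
    { ρ := ρ, hρ := hρ, A := A, M := M, hMA := hMA, hA := hA, j := j, hj := hj, hjinj := hjinj,
      hjM := hjM, hjc := hjc, δ := δ, hδ := hδ, hδs := hδs, hδk := hδk, hδc := hδc, hAp := hAp,
      hx := hx }
  exact S.main hG

end Ch4
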