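import Mathlib

/-!
# Level lowering for filtered groups

Module `Lower` of MP_4ba0d5_al: in a group filtered by normal subgroups `A i`, ending in a central
subgroup `M` of exponent `p`, in which the `p`-power map shifts the layers isomorphically, the
subgroup generated by the `p`-th powers of `A 1` is a complement of `M` in `A 2`.
-/

namespace Ch4

section Class3

variable {G : Type*} [Group G]

private theorem pow_comm_aux {x c d : G} (hcx : c * x = x * c * d) (hdc : Commute d c)
    (n : ℕ) : c ^ n * x = x * c ^ n * d ^ n := by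
  induction n with
  | zero => simp
  | succ n ih =>
    have h1 : d ^ n * c = c * d ^ n := (hdc.pow_left n).eq
    calc c ^ (n + 1) * x = c * (c ^ n * x) := by rw [pow_succ', mul_assoc]
      _ = c * (x * c ^ n * d ^ n) := by rw [ih]
      _ = (c * x) * (c ^ n * d ^ n) := by simp only [mul_assoc]
      _ = x * c * d * (c ^ n * d ^ n) := by rw [hcx]
      _ = x * c * (d * c ^ n) * d ^ n := by simp only [mul_assoc]
      _ = x * c * (c ^ n * d) * d ^ n := by rw [(hdc.pow_right n).eq]
      _ = x * (c * c ^ n) * (d * d ^ n) := by simp only [mul_assoc]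
      _ = x * c ^ (n + 1) * d ^ (n + 1) := by rw [← pow_succ', ← pow_succ']

/-- The class three power formula. -/
theorem class3_formula {x y c d e : G} (hyx : y * x = x * y * c) (hcx : c * x = x * c * d)
    (hcy : c * y = y * c * e) (hdx : Commute d x) (hdy : Commute d y) (hex : Commute e x)
    (hey : Commute e y) (n : ℕ) :
    (x * y) ^ n = x ^ n * y ^ n * c ^ (n.choose 2) * d ^ (n.choose 3) *
      e ^ (2 * n.choose 3 + n.choose 2) := by
  have hc : c = y⁻¹ * x⁻¹ * y * x := by
    have : c = (x * y)⁻¹ * (y * x) := by rw [hyx, inv_mul_cancel_left]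
    rw [this]; group
  have hdc : Commute d c := by
    rw [hc]
    exact ((hdy.inv_right.mul_right hdx.inv_right).mul_right hdy).mul_right hdx
  have hec : Commute e c := by
    rw [hc]
    exact ((hey.inv_right.mul_right hex.inv_right).mul_right hey).mul_right hex
  have hde : Commute d e := by
    have : e = c⁻¹ * y⁻¹ * c * y := by
      have h : e = (y * c)⁻¹ * (c * y) := by rw [hcy, inv_mul_cancel_left]
      rw [h]; group
    rw [this]
    exact ((hdc.inv_right.mul_right hdy.inv_right).mul_right hdc).mul_right hdy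
  have hCx := pow_comm_aux hcx hdc
  have hCy := pow_comm_aux hcy hec
  have hY : ∀ n : ℕ, y ^ n * x = x * y ^ n * c ^ n * e ^ (n.choose 2) := by
    intro n
    induction n with
    | zero => simp
    | succ n ih =>
      have hch : (n + 1).choose 2 = n + n.choose 2 := by
        rw [Nat.choose_succ_succ' n 1, Nat.choose_one_right]
      calc y ^ (n + 1) * x = y ^ n * (y * x) := by rw [pow_succ, mul_assoc]
        _ = y ^ n * (x * y * c) := by rw [hyx]
        _ = (y ^ n * x) * (y * c) := by simp only [mul_assoc]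
        _ = x * y ^ n * c ^ n * e ^ (n.choose 2) * (y * c) := by rw [ih]
        _ = x * y ^ n * c ^ n * (e ^ (n.choose 2) * y) * c := by simp only [mul_assoc]
        _ = x * y ^ n * c ^ n * (y * e ^ (n.choose 2)) * c := by rw [(hey.pow_left _).eq]
        _ = x * y ^ n * (c ^ n * y) * (e ^ (n.choose 2) * c) := by simp only [mul_assoc]
        _ = x * y ^ n * (y * c ^ n * e ^ n) * (c * e ^ (n.choose 2)) := by
            rw [hCy, (hec.pow_left _).eq]
        _ = x * (y ^ n * y) * c ^ n * (e ^ n * c) * e ^ (n.choose 2) := by simp only [mul_assoc]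
        _ = x * (y ^ n * y) * c ^ n * (c * e ^ n) * e ^ (n.choose 2) := by
            rw [(hec.pow_left _).eq]
        _ = x * (y ^ n * y) * (c ^ n * c) * (e ^ n * e ^ (n.choose 2)) := by
            simp only [mul_assoc]
        _ = x * y ^ (n + 1) * c ^ (n + 1) * e ^ ((n + 1).choose 2) := by
            rw [← pow_succ, ← pow_succ, ← pow_add, hch]
  induction n with
  | zero => simp
  | succ n ih =>
    have hch : (n + 1).choose 2 = n + n.choose 2 := by
      rw [Nat.choose_succ_succ' n 1, Nat.choose_one_right]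
    have hch3 : (n + 1).choose 3 = n.choose 2 + n.choose 3 := by
      rw [Nat.choose_succ_succ' n 2]
    set a := n.choose 2 with ha
    set b := n.choose 3 with hb
    calc (x * y) ^ (n + 1) = (x * y) ^ n * (x * y) := pow_succ _ _
      _ = x ^ n * y ^ n * c ^ a * d ^ b * e ^ (2 * b + a) * (x * y) := by rw [ih]
      _ = x ^ n * y ^ n * c ^ a * ((d ^ b * e ^ (2 * b + a)) * x) * y := by
          simp only [mul_assoc]
      _ = x ^ n * y ^ n * c ^ a * (x * (d ^ b * e ^ (2 * b + a))) * y := by
          rw [((hdx.pow_left b).mul_left (hex.pow_left _)).eq]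
      _ = x ^ n * y ^ n * (c ^ a * x) * ((d ^ b * e ^ (2 * b + a)) * y) := by
          simp only [mul_assoc]
      _ = x ^ n * y ^ n * (x * c ^ a * d ^ a) * (y * (d ^ b * e ^ (2 * b + a))) := by
          rw [hCx, ((hdy.pow_left b).mul_left (hey.pow_left _)).eq]
      _ = x ^ n * (y ^ n * x) * c ^ a * (d ^ a * y) * (d ^ b * e ^ (2 * b + a)) := by
          simp only [mul_assoc]
      _ = x ^ n * (x * y ^ n * c ^ n * e ^ a) * c ^ a * (y * d ^ a) *
            (d ^ b * e ^ (2 * b + a)) := by
          rw [hY, (hdy.pow_left _).eq]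
      _ = x ^ n * x * y ^ n * c ^ n * (e ^ a * (c ^ a * y)) * (d ^ a *
            (d ^ b * e ^ (2 * b + a))) := by
          simp only [mul_assoc]
      _ = x ^ n * x * y ^ n * c ^ n * ((c ^ a * y) * e ^ a) * (d ^ a *
            (d ^ b * e ^ (2 * b + a))) := by
          rw [((hec.pow_right a).mul_right hey).pow_left a |>.eq]
      _ = x ^ n * x * y ^ n * (c ^ n * c ^ a * y) * (e ^ a * (d ^ a *
            (d ^ b * e ^ (2 * b + a)))) := by
          simp only [mul_assoc]
      _ = x ^ n * x * y ^ n * (y * c ^ (n + a) * e ^ (n + a)) * (e ^ a * (d ^ a *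
            (d ^ b * e ^ (2 * b + a)))) := by
          rw [← pow_add, hCy]
      _ = (x ^ n * x) * (y ^ n * y) * c ^ (n + a) * (e ^ (n + a) * e ^ a * (d ^ a *
            d ^ b)) * e ^ (2 * b + a) := by
          simp only [mul_assoc]
      _ = (x ^ n * x) * (y ^ n * y) * c ^ (n + a) * ((d ^ a * d ^ b) *
            (e ^ (n + a) * e ^ a)) * e ^ (2 * b + a) := by
          rw [← pow_add, ← pow_add, (hde.pow_pow _ _).eq]
      _ = (x ^ n * x) * (y ^ n * y) * c ^ (n + a) * (d ^ a * d ^ b) *
            (e ^ (n + a) * e ^ a * e ^ (2 * b + a)) := by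
          simp only [mul_assoc]
      _ = x ^ (n + 1) * y ^ (n + 1) * c ^ ((n + 1).choose 2) * d ^ ((n + 1).choose 3) *
            e ^ (2 * (n + 1).choose 3 + (n + 1).choose 2) := by
          rw [← pow_succ, ← pow_succ, ← pow_add, ← pow_add, ← pow_add, hch, hch3]
          congr 2
          ring

/-- In class three with small commutators of exponent `p ≥ 5`, `(x y) ^ p = x ^ p y ^ p`. -/
theorem class3_pow {p : ℕ} (hpp : p.Prime) (hp : 5 ≤ p) {x y c d e : G}
    (hyx : y * x = x * y * c) (hcx : c * x = x * c * d)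
    (hcy : c * y = y * c * e) (hdx : Commute d x) (hdy : Commute d y) (hex : Commute e x)
    (hey : Commute e y) (hc : c ^ p = 1) (hd : d ^ p = 1) (he : e ^ p = 1) :
    (x * y) ^ p = x ^ p * y ^ p := by
  have h2 : p ∣ p.choose 2 := hpp.dvd_choose_self (by norm_num) (by omega)
  have h3 : p ∣ p.choose 3 := hpp.dvd_choose_self (by norm_num) (by omega)
  obtain ⟨u, hu⟩ := h2
  obtain ⟨v, hv⟩ := h3
  rw [class3_formula hyx hcx hcy hdx hdy hex hey, hu, hv]
  have e1 : 2 * (p * v) + p * u = p * (2 * v + u) := by ring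
  rw [e1, pow_mul, pow_mul, pow_mul, hc, hd, he]
  simp

end Class3

section Lower

variable {E : Type*} [Group E]

/-- the subgroup generated by the `p`-th powers of the elements of `B` -/
private def PP (p : ℕ) (B : Subgroup E) : Subgroup E :=
  Subgroup.closure {y | ∃ x ∈ B, y = x ^ p}

private theorem pow_mem_PP {p : ℕ} {B : Subgroup E} {x : E} (hx : x ∈ B) : x ^ p ∈ PP p B :=
  Subgroup.subset_closure ⟨x, hx, rfl⟩

private theorem PP_mono {p : ℕ} {B C : Subgroup E} (h : B ≤ C) : PP p B ≤ PP p C := by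
  refine (Subgroup.closure_le _).2 ?_
  rintro _ ⟨x, hx, rfl⟩
  exact pow_mem_PP (h hx)

private theorem PP_normal (p : ℕ) (B : Subgroup E) (hB : B.Normal) : (PP p B).Normal := by
  constructor
  intro n hn g
  induction hn using Subgroup.closure_induction with
  | mem x hx =>
    obtain ⟨y, hy, rfl⟩ := hx
    rw [← conj_pow]
    exact pow_mem_PP (hB.conj_mem y hy g)
  | one => simp [one_mem]
  | mul x y _ _ hx hy =>
    have : g * (x * y) * g⁻¹ = (g * x * g⁻¹) * (g * y * g⁻¹) := by group
    rw [this]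
    exact mul_mem hx hy
  | inv x _ hx =>
    have : g * x⁻¹ * g⁻¹ = (g * x * g⁻¹)⁻¹ := by group
    rw [this]
    exact inv_mem hx

theorem lower {E : Type*} [Group E] (p : ℕ) [Fact p.Prime] (hp : 5 ≤ p)
    (M : Subgroup E) (A : ℕ → Subgroup E) (N : ℕ) (hN : 1 ≤ N)
    (hnorm : ∀ i, (A i).Normal)
    (hanti : ∀ i, A (i + 1) ≤ A i)
    (hM : ∀ i, N + 1 ≤ i → A i = M)
    (hMc : ∀ m ∈ M, ∀ x ∈ A 1, m * x = x * m)
    (hMp : ∀ m ∈ M, m ^ p = 1)
    (hcomm : ∀ i j, 1 ≤ i → 1 ≤ j → ∀ x ∈ A i, ∀ y ∈ A j, x * y * x⁻¹ * y⁻¹ ∈ A (i + j))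
    (hpow : ∀ i, 1 ≤ i → ∀ x ∈ A i, x ^ p ∈ A (i + 1))
    (hinj : ∀ i, 1 ≤ i → i + 1 ≤ N → ∀ x ∈ A i, x ^ p ∈ A (i + 2) → x ∈ A (i + 1))
    (hsurj : ∀ i, 1 ≤ i → i + 1 ≤ N → ∀ y ∈ A (i + 1), ∃ x ∈ A i, y⁻¹ * x ^ p ∈ A (i + 2))
    (htop : ∀ x ∈ A N, x ^ p = 1) :
    ∃ S : Subgroup E, S.Normal ∧ S ⊓ M = ⊥ ∧ S ⊔ M = A 2 ∧ ∀ x ∈ A 1, x ^ p ∈ S := by
  have hpp : p.Prime := Fact.out
  have hant : Antitone A := antitone_nat_of_succ_le hanti
  have hMA : ∀ i, M ≤ A i := by
    intro i
    rcases le_total i (N + 1) with h | h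
    · rw [← hM (N + 1) le_rfl]; exact hant h
    · rw [hM i h]
  have hA1 : ∀ i, 1 ≤ i → A i ≤ A 1 := fun i hi => hant hi
  have main : ∀ k : ℕ, ∀ i, 1 ≤ i → i + k = N →
      PP p (A i) ⊓ M = ⊥ ∧ PP p (A i) ⊔ M = A (i + 1) := by
    intro k
    induction k with
    | zero =>
      intro i hi hik
      have hiN : i = N := by omega
      subst hiN
      have hbot : PP p (A i) = ⊥ := by
        rw [eq_bot_iff]
        refine (Subgroup.closure_le _).2 ?_
        rintro _ ⟨x, hx, rfl⟩
        rw [htop x hx]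
        exact one_mem _
      rw [hbot, hM (i + 1) le_rfl]
      simp
    | succ k ih =>
      intro i hi hik
      obtain ⟨ih1, ih2⟩ := ih (i + 1) (by omega) (by omega)
      have ih2' : PP p (A (i + 1)) ⊔ M = A (i + 2) := ih2
      set R := PP p (A (i + 1)) with hR
      have hRn : R.Normal := PP_normal p _ (hnorm _)
      have hRA : R ≤ A (i + 2) := ih2' ▸ le_sup_left
      -- elements of `A (i+2)` modulo `R`
      have hdec : ∀ z ∈ A (i + 2), ∃ r ∈ R, ∃ m ∈ M, z = r * m := by
        intro z hz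
        rw [← ih2'] at hz
        obtain ⟨r, hr, m, hm, h⟩ := (Subgroup.mem_sup_of_normal_left).1 hz
        exact ⟨r, hr, m, hm, h.symm⟩
      have hkey : ∀ x ∈ A i, ∀ y ∈ A i, (x ^ p * y ^ p)⁻¹ * (x * y) ^ p ∈ R := by
        intro x hx y hy
        set c : E := y⁻¹ * x⁻¹ * y * x with hc
        have hcA : c ∈ A (i + i) := by
          have := hcomm i i hi hi y⁻¹ (inv_mem hy) x⁻¹ (inv_mem hx)
          simpa only [inv_inv] using this
        set d : E := c⁻¹ * x⁻¹ * c * x with hd
        set e : E := c⁻¹ * y⁻¹ * c * y with he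
        have hdA : d ∈ A (i + 2) := by
          have := hcomm (i + i) i (by omega) hi c⁻¹ (inv_mem hcA) x⁻¹ (inv_mem hx)
          rw [inv_inv, inv_inv] at this
          exact hant (by omega) this
        have heA : e ∈ A (i + 2) := by
          have := hcomm (i + i) i (by omega) hi c⁻¹ (inv_mem hcA) y⁻¹ (inv_mem hy)
          rw [inv_inv, inv_inv] at this
          exact hant (by omega) this
        have hcR : c ^ p ∈ R := pow_mem_PP (hant (by omega : i + 1 ≤ i + i) hcA)
        let π : E →* E ⧸ R := QuotientGroup.mk' R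
        have hπ : ∀ z, π z = 1 ↔ z ∈ R := fun z => QuotientGroup.eq_one_iff z
        have hcen : ∀ z ∈ A (i + 2), (∀ w ∈ A i, Commute (π z) (π w)) ∧ (π z) ^ p = 1 := by
          intro z hz
          obtain ⟨r, hr, m, hm, rfl⟩ := hdec z hz
          have h1 : π (r * m) = π m := by rw [map_mul, (hπ r).2 hr, one_mul]
          rw [h1]
          refine ⟨fun w hw => ?_, ?_⟩
          · show π m * π w = π w * π m
            rw [← map_mul, ← map_mul, hMc m hm w (hA1 i hi hw)]
          · rw [← map_pow, hMp m hm, map_one]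
        have hfin := class3_pow hpp hp (x := π x) (y := π y) (c := π c) (d := π d) (e := π e)
          (by rw [← map_mul, ← map_mul, ← map_mul]; congr 1; rw [hc]; group)
          (by rw [← map_mul, ← map_mul, ← map_mul]; congr 1; rw [hd]; group)
          (by rw [← map_mul, ← map_mul, ← map_mul]; congr 1; rw [he]; group)
          ((hcen d hdA).1 x hx) ((hcen d hdA).1 y hy) ((hcen e heA).1 x hx)
          ((hcen e heA).1 y hy) (by rw [← map_pow]; exact (hπ _).2 hcR) (hcen d hdA).2
          (hcen e heA).2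
        rw [← hπ, map_mul, map_inv, map_mul, map_pow, map_pow, map_pow, map_mul, hfin]
        exact inv_mul_cancel _
      have hmemP : ∀ z ∈ PP p (A i), ∃ x ∈ A i, ∃ r ∈ R, z = x ^ p * r := by
        intro z hz
        induction hz using Subgroup.closure_induction with
        | mem x hx =>
          obtain ⟨y, hy, rfl⟩ := hx
          exact ⟨y, hy, 1, one_mem _, (mul_one _).symm⟩
        | one => exact ⟨1, one_mem _, 1, one_mem _, by simp⟩
        | mul a b _ _ ha hb =>
          obtain ⟨x, hx, r, hr, rfl⟩ := ha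
          obtain ⟨y, hy, s, hs, rfl⟩ := hb
          refine ⟨x * y, mul_mem hx hy,
            ((x ^ p * y ^ p)⁻¹ * (x * y) ^ p)⁻¹ * (((y ^ p)⁻¹ * r * ((y ^ p)⁻¹)⁻¹) * s),
            mul_mem (inv_mem (hkey x hx y hy)) (mul_mem (hRn.conj_mem r hr _) hs), ?_⟩
          group
        | inv a _ ha =>
          obtain ⟨x, hx, r, hr, rfl⟩ := ha
          refine ⟨x⁻¹, inv_mem hx, x ^ p * r⁻¹ * (x ^ p)⁻¹, hRn.conj_mem _ (inv_mem hr) _, ?_⟩
          rw [inv_pow]
          group
      refine ⟨?_, ?_⟩
      · rw [eq_bot_iff]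
        intro z hz
        obtain ⟨hz1, hz2⟩ := hz
        obtain ⟨x, hx, r, hr, rfl⟩ := hmemP z hz1
        have hxp : x ^ p ∈ A (i + 2) := by
          have : x ^ p = (x ^ p * r) * r⁻¹ := by group
          rw [this]
          exact mul_mem (hMA _ hz2) (inv_mem (hRA hr))
        have hx' := hinj i hi (by omega) x hx hxp
        have : x ^ p * r ∈ R ⊓ M := ⟨mul_mem (pow_mem_PP hx') hr, hz2⟩
        rw [ih1] at this
        exact this
      · apply le_antisymm
        · refine sup_le ?_ (hMA _)
          refine (Subgroup.closure_le _).2 ?_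
          rintro _ ⟨x, hx, rfl⟩
          exact hpow i hi x hx
        · intro y hy
          obtain ⟨x, hx, hxy⟩ := hsurj i hi (by omega) y hy
          have h1 : y⁻¹ * x ^ p ∈ PP p (A i) ⊔ M := by
            rw [← ih2'] at hxy
            exact sup_le_sup_right (PP_mono (hanti i)) M hxy
          have h2 : x ^ p ∈ PP p (A i) ⊔ M :=
            (le_sup_left : PP p (A i) ≤ PP p (A i) ⊔ M) (pow_mem_PP hx)
          have : y = x ^ p * (y⁻¹ * x ^ p)⁻¹ := by group
          rw [this]
          exact mul_mem h2 (inv_mem h1)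
  obtain ⟨h1, h2⟩ := main (N - 1) 1 le_rfl (by omega)
  exact ⟨PP p (A 1), PP_normal p _ (hnorm 1), h1, h2, fun x hx => pow_mem_PP hx⟩

end Lower

end Ch4
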