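import Mathlib
import Pool.Agent.Lib.P4ba0d5.Base
import Pool.Agent.Lib.P4ba0d5.Good
import Pool.Agent.Lib.P4ba0d5.Lower
import Pool.Agent.Lib.P4ba0d5.Irr
import Pool.Agent.Lib.P4ba0d5.Cong
import Pool.Agent.Lib.P4ba0d5.FinMain

/-! Module RedMain of MP_4ba0d5_al: reduction of the splitting of an extension of a `p`-adic group
to the case of the finite group. -/

set_option linter.unusedSectionVars false
set_option linter.unusedVariables false

namespace Ch4

open Module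

section CongBasics

variable {p : ℕ} [Fact p.Prime] {L : Type*} [AddCommGroup L] [Module ℤ_[p] L]

theorem CongMod.refl (n : ℕ) (g : Module.End ℤ_[p] L) : CongMod p n g g :=
  fun x => ⟨0, by simp⟩

theorem CongMod.mono {n m : ℕ} (h : m ≤ n) {g k : Module.End ℤ_[p] L} (hg : CongMod p n g k) :
    CongMod p m g k := by
  intro x
  obtain ⟨y, hy⟩ := hg x
  refine ⟨((p : ℤ_[p]) ^ (n - m)) • y, ?_⟩
  rw [hy, smul_smul, ← pow_add, Nat.add_sub_cancel' h]

theorem CongMod.zero (g k : Module.End ℤ_[p] L) : CongMod p 0 g k :=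
  fun x => ⟨g x - k x, by simp⟩

theorem CongMod.mul_one' {n : ℕ} {g k : Module.End ℤ_[p] L} (hg : CongMod p n g 1)
    (hk : CongMod p n k 1) : CongMod p n (g * k) 1 := by
  intro x
  obtain ⟨y, hy⟩ := hk x
  obtain ⟨z, hz⟩ := hg x
  refine ⟨z + g y, ?_⟩
  rw [Module.End.mul_apply, hy, Module.End.one_apply, map_add, map_smul, hz, smul_add,
    Module.End.one_apply, add_assoc]

theorem CongMod.inv' {n : ℕ} {g k : Module.End ℤ_[p] L} (hg : CongMod p n g 1)
    (h : g * k = 1) : CongMod p n k 1 := by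
  intro x
  obtain ⟨y, hy⟩ := hg (k x)
  refine ⟨-y, ?_⟩
  have h1 : g (k x) = x := by rw [← Module.End.mul_apply, h, Module.End.one_apply]
  rw [h1, Module.End.one_apply] at hy
  rw [Module.End.one_apply, smul_neg]
  nth_rewrite 2 [hy]
  abel

theorem CongMod.conj' {n : ℕ} {g k k' : Module.End ℤ_[p] L} (hg : CongMod p n g 1)
    (h : k * k' = 1) : CongMod p n (k * g * k') 1 := by
  intro x
  obtain ⟨y, hy⟩ := hg (k' x)
  refine ⟨k y, ?_⟩
  rw [Module.End.mul_apply, Module.End.mul_apply, hy, Module.End.one_apply, map_add, map_smul,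
    ← Module.End.mul_apply, h]

end CongBasics

section Padic

variable {ι X Y : Type*} [Finite ι] [AddCommGroup X] [Module ℚ X] [AddCommGroup Y] [Module ℚ Y]
  {P : RootPairing ι ℚ X Y} [P.IsRootSystem] [P.IsCrystallographic] [P.IsReduced]
  {b : P.Base} {f : ι → ℤ} {D : ℤ} {p : ℕ} [Fact p.Prime]
  {L : Type*} [LieRing L] [LieAlgebra ℤ_[p] L]
  {Lp : Type*} [LieRing Lp] [LieAlgebra (ZMod p) Lp]

theorem eq_zero_of_forall_pow (B : ChevalleyBasis b ℤ_[p] L) (z : L)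
    (h : ∀ n : ℕ, ∃ y : L, z = ((p : ℤ_[p]) ^ n) • y) : z = 0 := by
  rw [← B.basis.repr.map_eq_zero_iff]
  ext u
  rw [Finsupp.zero_apply, ← PadicInt.ext_of_toZModPow]
  intro n
  obtain ⟨y, hy⟩ := h n
  rw [hy, map_smul, Finsupp.smul_apply, smul_eq_mul, map_mul, map_pow, map_natCast, map_zero]
  have : ((p : ZMod (p ^ n)) ^ n) = 0 := by
    have := ZMod.natCast_self (p ^ n)
    rwa [Nat.cast_pow] at this
  rw [this, zero_mul]

theorem lie_of_cong (hG : Good b f D p) (B : ChevalleyBasis b ℤ_[p] L) (g : Module.End ℤ_[p] L)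
    (h : ∀ n, ∃ k ∈ B.elem, CongMod p n g k) (x y : L) : g ⁅x, y⁆ = ⁅g x, g y⁆ := by
  rw [← sub_eq_zero]
  apply eq_zero_of_forall_pow B
  intro n
  obtain ⟨k, hk, hgk⟩ := h n
  obtain ⟨u, hu⟩ := hgk ⁅x, y⁆
  obtain ⟨v, hv⟩ := hgk x
  obtain ⟨w, hw⟩ := hgk y
  refine ⟨u - ⁅v, k y⁆ - ⁅k x, w⁆ - ((p : ℤ_[p]) ^ n) • ⁅v, w⁆, ?_⟩
  rw [hu, hv, hw, B.elem_lie hG.isUnit720' hk]
  simp only [add_lie, lie_add, smul_lie, lie_smul]
  module

theorem redEnd_mem_elem (hG : Good b f D p) {B : ChevalleyBasis b ℤ_[p] L}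
    {Bp : ChevalleyBasis b (ZMod p) Lp} {red : L →+ Lp} (hR : RedData B Bp red)
    {k : Module.End ℤ_[p] L} (hk : k ∈ B.elem) : redEnd B Bp red k ∈ Bp.elem := by
  induction hk using Submonoid.closure_induction with
  | mem g hg =>
    obtain ⟨⟨α, t⟩, rfl⟩ := hg
    rw [hR.redEnd_x hG]
    exact Bp.x_mem _ _
  | one => rw [hR.redEnd_one]; exact one_mem _
  | mul g₁ g₂ _ _ ih₁ ih₂ => rw [hR.redEnd_mul]; exact mul_mem ih₁ ih₂

theorem isDelta_unique (hG : Good b f D p) {B : ChevalleyBasis b ℤ_[p] L}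
    {Bp : ChevalleyBasis b (ZMod p) Lp} {red : L →+ Lp} (hR : RedData B Bp red)
    {n : ℕ} (hn : 1 ≤ n) {g : Module.End ℤ_[p] L} (hg : ∀ x y, g ⁅x, y⁆ = ⁅g x, g y⁆) {z w : Lp}
    (hz : IsDelta red n g z) (hw : IsDelta red n g w) : z = w :=
  (hR.exists_delta hG n hn g hg hz.1).unique hz.2 hw.2

theorem exists_isDelta (hG : Good b f D p) {B : ChevalleyBasis b ℤ_[p] L}
    {Bp : ChevalleyBasis b (ZMod p) Lp} {red : L →+ Lp} (hR : RedData B Bp red)
    {n : ℕ} (hn : 1 ≤ n) {g : Module.End ℤ_[p] L} (hg : ∀ x y, g ⁅x, y⁆ = ⁅g x, g y⁆)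
    (hc : CongMod p n g 1) : ∃ z, IsDelta red n g z := by
  obtain ⟨z, hz, -⟩ := hR.exists_delta hG n hn g hg hc
  exact ⟨z, hc, hz⟩

/-- The level-`n` derivatives of the elements of a group containing all root elements are all of
`Lp`. -/
theorem delta_surj [P.IsIrreducible] (hG : Good b f D p) {B : ChevalleyBasis b ℤ_[p] L}
    {Bp : ChevalleyBasis b (ZMod p) Lp} {red : L →+ Lp} (hR : RedData B Bp red)
    {Γ : Type*} [Group Γ] (Ad : Γ →* Module.End ℤ_[p] L)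
    (hx : ∀ α t, ∃ g, Ad g = B.x α t) (hlie : ∀ g x y, Ad g ⁅x, y⁆ = ⁅Ad g x, Ad g y⁆)
    {n : ℕ} (hn : 1 ≤ n) (z : Lp) : ∃ g, IsDelta red n (Ad g) z := by
  have hzero : IsDelta red n (Ad 1) (0 : Lp) := by
    rw [map_one]
    refine ⟨CongMod.refl n 1, fun x y h => ?_⟩
    have h1 : ((p : ℤ_[p]) ^ n) • y = 0 := by
      rw [Module.End.one_apply] at h
      exact (left_eq_add.mp h)
    have h2 : y = 0 := by
      rw [← B.basis.repr.map_eq_zero_iff]
      ext u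
      have := congrArg (fun w => B.basis.repr w u) h1
      simp only [map_smul, Finsupp.smul_apply, smul_eq_mul, map_zero, Finsupp.zero_apply,
        mul_eq_zero] at this
      rcases this with h | h
      · exact absurd ((pow_eq_zero_iff (by omega)).mp h)
          (by exact_mod_cast (Fact.out : p.Prime).ne_zero)
      · rw [h]; rfl
    rw [h2, map_zero, zero_lie]
  let V₀ : AddSubgroup Lp :=
    { carrier := {z | ∃ g, IsDelta red n (Ad g) z}
      zero_mem' := ⟨1, hzero⟩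
      add_mem' := by
        rintro z w ⟨g, hg⟩ ⟨h, hh⟩
        exact ⟨g * h, by rw [map_mul]; exact hR.isDelta_mul hG hn hg hh⟩
      neg_mem' := by
        rintro z ⟨g, hg⟩
        have hc : CongMod p n (Ad g⁻¹) 1 := by
          refine CongMod.inv' hg.1 ?_
          rw [← map_mul, mul_inv_cancel, map_one]
        obtain ⟨w, hw⟩ := exists_isDelta hG hR hn (hlie g⁻¹) hc
        have h1 := hR.isDelta_mul hG hn hg hw
        rw [← map_mul, mul_inv_cancel] at h1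
        have h2 := isDelta_unique hG hR hn (hlie 1) h1 hzero
        rw [neg_eq_of_add_eq_zero_right h2]
        exact ⟨g⁻¹, hw⟩ }
  let V : Submodule (ZMod p) Lp := AddSubgroup.toZModSubmodule p V₀
  have hV : ∀ z, z ∈ V ↔ ∃ g, IsDelta red n (Ad g) z := fun z => Iff.rfl
  have hst : ∀ α t, ∀ v ∈ V, Bp.x α t v ∈ V := by
    intro α t v hv
    rw [hV] at hv ⊢
    obtain ⟨g, hg⟩ := hv
    obtain ⟨s, hs⟩ := ZMod.ringHom_surjective (PadicInt.toZMod (p := p)) t
    obtain ⟨h, hh⟩ := hx α s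
    have h1 := hR.isDelta_conj hG hn (h := Ad h) (h' := Ad h⁻¹) (hlie h)
      (by rw [← map_mul, mul_inv_cancel, map_one]) (by rw [← map_mul, inv_mul_cancel, map_one]) hg
    rw [← map_mul, ← map_mul, hh, hR.redEnd_x hG, hs] at h1
    exact ⟨_, h1⟩
  have hne : Nonempty ι := by
    by_contra hemp
    rw [not_nonempty_iff] at hemp
    have h1 : Submodule.span ℚ (Set.range P.root) = ⊤ := RootPairing.IsRootSystem.span_root_eq_top
    have : Set.range P.root = ∅ := Set.range_eq_empty _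
    rw [this, Submodule.span_empty] at h1
    have h2 : Nontrivial X := RootPairing.IsIrreducible.nontrivial (P := P)
    exact bot_ne_top h1
  obtain ⟨α⟩ := hne
  have heα : Bp.e α ∈ V := by
    rw [hV]
    obtain ⟨g, hg⟩ := hx α ((p : ℤ_[p]) ^ n * 1)
    refine ⟨g, ?_⟩
    rw [hg]
    have := hR.isDelta_x hG hn α 1
    rwa [map_one, one_smul] at this
  rcases Bp.irred hG V hst with h | h
  · exfalso
    rw [h, Submodule.mem_bot] at heα
    exact Bp.basis.ne_zero _ heα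
  · rw [← hV, h]; exact Submodule.mem_top

end Padic

section GroupPart

/-- The Hall part of the preimage of a finite normal `p'`-subgroup. -/
theorem coprime_part {E Γ : Type*} [Group E] [Group Γ] (π : E →* Γ)
    (hπ : Function.Surjective π) (Kr : Subgroup Γ) [hKrn : Kr.Normal] [Finite Kr] (p : ℕ)
    [Fact p.Prime] (hcop : Nat.Coprime p (Nat.card Kr)) (hfin : Finite π.ker)
    (hker : ∀ m ∈ π.ker, m ^ p = 1) (hcent : ∀ m ∈ π.ker, ∀ x, π x ∈ Kr → m * x = x * m) :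
    ∃ C' : Subgroup E, C'.Normal ∧ (∀ x ∈ C', π x ∈ Kr) ∧ (∀ x ∈ C', x ^ Nat.card Kr = 1) ∧
      ∀ g, π g ∈ Kr → ∃ a ∈ C', ∃ m ∈ π.ker, g = a * m := by
  set c := Nat.card Kr with hc
  let Ct : Subgroup E := Kr.comap π
  let r : Ct →* Γ := π.comp Ct.subtype
  have hr : ∀ x : Ct, r x = π x := fun _ => rfl
  have hrr : r.range = Kr := by
    ext y
    constructor
    · rintro ⟨x, rfl⟩; exact x.2
    · intro hy
      obtain ⟨x, rfl⟩ := hπ y
      exact ⟨⟨x, hy⟩, rfl⟩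
  have hidx : r.ker.index = c := by
    rw [Subgroup.index_ker, hrr]
  have hrk : Finite r.ker := by
    refine Finite.of_injective (fun x : r.ker => (⟨(x : Ct), x.2⟩ : π.ker)) ?_
    intro x y h
    apply Subtype.ext; apply Subtype.ext
    exact congrArg (fun z : π.ker => (z : E)) h
  have hpg : IsPGroup p r.ker := by
    intro x
    refine ⟨1, ?_⟩
    apply Subtype.ext; apply Subtype.ext
    rw [pow_one]
    exact hker _ x.2
  obtain ⟨k, hk⟩ := IsPGroup.iff_card.mp hpg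
  have hcop' : Nat.Coprime (Nat.card r.ker) r.ker.index := by
    rw [hk, hidx]; exact Nat.Coprime.pow_left k hcop
  obtain ⟨H, hH⟩ := Subgroup.exists_right_complement'_of_coprime hcop'
  have hHc : Nat.card H = c := by
    have h1 := hH.card_mul_card
    have h2 := r.ker.card_mul_index
    rw [← h2, hidx] at h1
    exact Nat.eq_of_mul_eq_mul_left Nat.card_pos h1
  have hHpow : ∀ x ∈ H, x ^ c = 1 := by
    intro x hx
    rw [← hHc]
    exact congrArg Subtype.val (pow_card_eq_one' (x := (⟨x, hx⟩ : H)))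
  have hm1 : ∀ m ∈ π.ker, m ^ c = 1 → m = 1 := by
    intro m hm hmc
    have h1 := orderOf_dvd_of_pow_eq_one hmc
    have h2 := orderOf_dvd_of_pow_eq_one (hker m hm)
    have h3 := Nat.dvd_gcd h2 h1
    rw [hcop] at h3
    exact orderOf_eq_one_iff.mp (Nat.dvd_one.mp h3)
  have hdec : ∀ g : Ct, ∃ m ∈ r.ker, ∃ h ∈ H, g = m * h := by
    intro g
    obtain ⟨⟨m, h⟩, hmh⟩ := hH.2 g
    exact ⟨m, m.2, h, h.2, hmh.symm⟩
  have hHmem : ∀ g : Ct, g ^ c = 1 → g ∈ H := by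
    intro g hg
    obtain ⟨m, hm, h, hh, rfl⟩ := hdec g
    have hcm : Commute m h := by
      apply Subtype.ext
      exact hcent _ hm _ h.2
    rw [hcm.mul_pow, hHpow h hh, mul_one] at hg
    have : m = 1 := by
      apply Subtype.ext
      exact hm1 _ hm (congrArg Subtype.val hg)
    rw [this, one_mul]; exact hh
  let C' : Subgroup E := H.map Ct.subtype
  have hC' : ∀ x, x ∈ C' ↔ π x ∈ Kr ∧ x ^ c = 1 := by
    intro x
    constructor
    · rintro ⟨y, hy, rfl⟩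
      exact ⟨y.2, congrArg Subtype.val (hHpow y hy)⟩
    · rintro ⟨h1, h2⟩
      exact ⟨⟨x, h1⟩, hHmem _ (Subtype.ext h2), rfl⟩
  refine ⟨C', ⟨fun x hx g => ?_⟩, fun x hx => ((hC' x).mp hx).1, fun x hx => ((hC' x).mp hx).2,
    fun g hg => ?_⟩
  · rw [hC'] at hx ⊢
    refine ⟨?_, ?_⟩
    · rw [map_mul, map_mul, map_inv]; exact hKrn.conj_mem _ hx.1 _
    · rw [conj_pow, hx.2]; simp
  · obtain ⟨m, hm, h, hh, hg'⟩ := hdec ⟨g, hg⟩
    refine ⟨h, ⟨h, hh, rfl⟩, m, hm, ?_⟩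
    have := congrArg Subtype.val hg'
    change g = (m : E) * h at this
    rw [this]
    exact hcent _ hm _ h.2

theorem lower_apply {E : Type*} [Group E] (p : ℕ) [Fact p.Prime] (hp : 5 ≤ p)
    (M : Subgroup E) (hMn : M.Normal) (Kt : ℕ → Subgroup E) (hKn : ∀ i, (Kt i).Normal)
    (hanti : ∀ i, Kt (i + 1) ≤ Kt i) (hMK : ∀ i, M ≤ Kt i)
    (hMc : ∀ m ∈ M, ∀ x ∈ Kt 1, m * x = x * m) (hMp : ∀ m ∈ M, m ^ p = 1)
    (n₀ : ℕ) (h1 : 1 ≤ n₀) (T : Subgroup E) (hTn : T.Normal) (hTM : T ⊓ M = ⊥)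
    (hTK : T ⊔ M = Kt n₀)
    (hcomm : ∀ i j, 1 ≤ i → 1 ≤ j → ∀ x ∈ Kt i, ∀ y ∈ Kt j, x * y * x⁻¹ * y⁻¹ ∈ Kt (i + j))
    (hpow : ∀ i, 1 ≤ i → ∀ x ∈ Kt i, x ^ p ∈ Kt (i + 1))
    (hinj : ∀ i, 1 ≤ i → ∀ x ∈ Kt i, x ^ p ∈ Kt (i + 2) → x ∈ Kt (i + 1))
    (hsurj : ∀ i, 1 ≤ i → ∀ y ∈ Kt (i + 1), ∃ x ∈ Kt i, y⁻¹ * x ^ p ∈ Kt (i + 2)) :
    ∃ S : Subgroup E, S.Normal ∧ S ⊓ M = ⊥ ∧ S ⊔ M = Kt 2 ∧ (∀ x ∈ Kt 1, x ^ p ∈ S) ∧
      T ⊓ Kt (n₀ + 1) ≤ S := by
  have hAnti : Antitone Kt := antitone_nat_of_succ_le hanti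
  set T' : Subgroup E := T ⊓ Kt (n₀ + 1) with hT'
  have hT'n : T'.Normal := by
    have := hKn (n₀ + 1)
    exact Subgroup.normal_inf_normal _ _
  have hTle : T ≤ Kt n₀ := hTK ▸ le_sup_left
  have hT'M : ∀ g ∈ Kt (n₀ + 1), ∃ t ∈ T', ∃ m ∈ M, g = t * m := by
    intro g hg
    have h2 : g ∈ T ⊔ M := by rw [hTK]; exact hanti n₀ hg
    rw [Subgroup.mem_sup_of_normal_right] at h2
    obtain ⟨t, ht, m, hm, rfl⟩ := h2
    refine ⟨t, ⟨ht, ?_⟩, m, hm, rfl⟩
    have := mul_mem hg (inv_mem (hMK (n₀ + 1) hm))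
    rwa [mul_inv_cancel_right] at this
  set q : E →* E ⧸ T' := QuotientGroup.mk' T' with hq
  have hqs : Function.Surjective q := QuotientGroup.mk'_surjective T'
  have hqk : ∀ x, q x = 1 ↔ x ∈ T' := fun x => QuotientGroup.eq_one_iff x
  -- the images
  let A : ℕ → Subgroup (E ⧸ T') := fun i => (Kt (min i (n₀ + 1))).map q
  have hmemA : ∀ i x, q x ∈ A i ↔ x ∈ Kt (min i (n₀ + 1)) := by
    intro i x
    constructor
    · rintro ⟨y, hy, hyx⟩
      have h2 : y⁻¹ * x ∈ T' := by rw [← hqk, map_mul, map_inv, hyx, inv_mul_cancel]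
      have h3 : y⁻¹ * x ∈ Kt (min i (n₀ + 1)) := hAnti (min_le_right _ _) h2.2
      have := mul_mem hy h3
      rwa [mul_inv_cancel_left] at this
    · intro hx; exact ⟨x, hx, rfl⟩
  have hMbar : ∀ i, n₀ + 1 ≤ i → A i = M.map q := by
    intro i hi
    change (Kt (min i (n₀ + 1))).map q = _
    rw [min_eq_right hi]
    apply le_antisymm
    · rintro _ ⟨g, hg, rfl⟩
      obtain ⟨t, ht, m, hm, rfl⟩ := hT'M g hg
      refine ⟨m, hm, ?_⟩
      rw [map_mul, (hqk t).mpr ht, one_mul]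
    · exact Subgroup.map_mono (hMK _)
  have key := lower (E := E ⧸ T') p hp (M.map q) A n₀ h1
    (fun i => (hKn _).map q hqs)
    (fun i => Subgroup.map_mono (hAnti (min_le_min_right _ (Nat.le_succ i))))
    hMbar
    (by
      rintro _ ⟨m, hm, rfl⟩ x hx
      obtain ⟨x, rfl⟩ := hqs x
      rw [hmemA, min_eq_left (by omega)] at hx
      rw [← map_mul, ← map_mul, hMc m hm x hx])
    (by
      rintro _ ⟨m, hm, rfl⟩
      rw [← map_pow, hMp m hm, map_one])
    (by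
      intro i j hi hj x hx y hy
      obtain ⟨x, rfl⟩ := hqs x
      obtain ⟨y, rfl⟩ := hqs y
      rw [hmemA] at hx hy
      rw [← map_mul, ← map_inv, ← map_mul, ← map_inv, ← map_mul, hmemA]
      refine hAnti ?_ (hcomm _ _ (le_min hi (by omega)) (le_min hj (by omega)) x hx y hy)
      omega)
    (by
      intro i hi x hx
      obtain ⟨x, rfl⟩ := hqs x
      by_cases h : i ≤ n₀
      · rw [hmemA, min_eq_left (by omega)] at hx
        rw [← map_pow, hmemA, min_eq_left (by omega)]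
        exact hpow i hi x hx
      · rw [hMbar i (by omega)] at hx
        obtain ⟨m, hm, hmx⟩ := hx
        rw [← hmx, ← map_pow, hMp m hm, map_one]
        exact one_mem _)
    (by
      intro i hi hiN x hx hxp
      obtain ⟨x, rfl⟩ := hqs x
      rw [hmemA, min_eq_left (by omega)] at hx
      rw [← map_pow, hmemA, min_eq_left (by omega)] at hxp
      rw [hmemA, min_eq_left (by omega)]
      exact hinj i hi x hx hxp)
    (by
      intro i hi hiN y hy
      obtain ⟨y, rfl⟩ := hqs y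
      rw [hmemA, min_eq_left (by omega)] at hy
      obtain ⟨x, hx, hxy⟩ := hsurj i hi y hy
      refine ⟨q x, ?_, ?_⟩
      · rw [hmemA, min_eq_left (by omega)]; exact hx
      · rw [← map_inv, ← map_pow, ← map_mul, hmemA, min_eq_left (by omega)]; exact hxy)
    (by
      intro x hx
      obtain ⟨x, rfl⟩ := hqs x
      rw [hmemA, min_eq_left (by omega), ← hTK, Subgroup.mem_sup_of_normal_right] at hx
      obtain ⟨t, ht, m, hm, rfl⟩ := hx
      have hcm : Commute t m := (hMc m hm t (hAnti h1 (hTle ht))).symm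
      rw [← map_pow, hcm.mul_pow, hMp m hm, mul_one, hqk]
      exact ⟨pow_mem ht _, hpow n₀ h1 t (hTle ht)⟩)
  obtain ⟨S, hSn, hSM, hSA, hSp⟩ := key
  have hT'S : T' ≤ S.comap q := by
    intro x hx
    rw [Subgroup.mem_comap, (hqk x).mpr hx]; exact one_mem _
  refine ⟨S.comap q, hSn.comap q, ?_, ?_, ?_, hT'S⟩
  · rw [eq_bot_iff]
    rintro x ⟨hx, hxM⟩
    have h2 : q x ∈ S ⊓ M.map q := ⟨hx, ⟨x, hxM, rfl⟩⟩
    rw [hSM, Subgroup.mem_bot, hqk] at h2
    rw [← hTM]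
    exact ⟨h2.1, hxM⟩
  · apply le_antisymm
    · refine sup_le (fun x hx => ?_) (hMK 2)
      have h2 : q x ∈ S ⊔ M.map q := (le_sup_left : S ≤ _) hx
      rw [hSA, hmemA, min_eq_left (by omega)] at h2
      exact h2
    · intro x hx
      have h2 : q x ∈ A 2 := by rw [hmemA, min_eq_left (by omega)]; exact hx
      rw [← hSA] at h2
      have : (M.map q).Normal := hMn.map q hqs
      rw [Subgroup.mem_sup_of_normal_right] at h2
      obtain ⟨s, hs, z, ⟨m, hm, rfl⟩, hsm⟩ := h2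
      have h3 : x * m⁻¹ ∈ S.comap q := by
        rw [Subgroup.mem_comap, map_mul, map_inv, ← hsm, mul_inv_cancel_right]; exact hs
      have h4 : x = (x * m⁻¹) * m := by group
      rw [h4]
      exact mul_mem ((le_sup_left : S.comap q ≤ _) h3) ((le_sup_right : M ≤ _) hm)
  · intro x hx
    rw [Subgroup.mem_comap, map_pow]
    apply hSp
    rw [hmemA, min_eq_left (by omega)]; exact hx

end GroupPart

section Main

variable {ι X Y : Type*} [Finite ι] [AddCommGroup X] [Module ℚ X] [AddCommGroup Y] [Module ℚ Y]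
  {P : RootPairing ι ℚ X Y} [P.IsRootSystem] [P.IsCrystallographic] [P.IsReduced]
  {b : P.Base} {f : ι → ℤ} {D : ℤ} {p : ℕ} [Fact p.Prime]
  {L : Type*} [LieRing L] [LieAlgebra ℤ_[p] L]
  {Lp : Type*} [LieRing Lp] [LieAlgebra (ZMod p) Lp]

theorem redMain [P.IsIrreducible] (hG : Good b f D p)
    {B : ChevalleyBasis b ℤ_[p] L} {Bp : ChevalleyBasis b (ZMod p) Lp} {red : L →+ Lp}
    (hR : RedData B Bp red) {Γ : Type*} [Group Γ] (Ad : Γ →* Module.End ℤ_[p] L)
    (hx : ∀ α t, ∃ g, Ad g = B.x α t) (hcl : ∀ g n, ∃ h ∈ B.elem, CongMod p n (Ad g) h)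
    {E : Type*} [Group E] (π : E →* Γ) (hπ : Function.Surjective π)
    (j : Lp → E) (hj : ∀ x y, j (x + y) = j x * j y) (hjinj : Function.Injective j)
    (hjM : ∀ g, π g = 1 ↔ ∃ x, j x = g)
    (hjc : ∀ g x, g * j x * g⁻¹ = j (redEnd B Bp red (Ad (π g)) x))
    (NE : Subgroup E) (hNEn : NE.Normal) (hNEj : ∀ x, j x ∈ NE → x = 0)
    (hC : Finite Ad.ker) (hCp : Nat.Coprime p (Nat.card Ad.ker))
    (n₀ : ℕ) (h1 : 1 ≤ n₀)
    (hn₀ : ∀ g : Γ, CongMod p n₀ (Ad g) 1 → ∃ c ∈ Ad.ker, ∃ ν ∈ NE, g = c * π ν) :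
    ∃ H : Subgroup E, (∀ x, j x ∈ H → x = 0) ∧ (∀ g, ∃ h ∈ H, ∃ x, g = h * j x) ∧
      (∀ g ∈ NE, CongMod p (n₀ + 1) (Ad (π g)) 1 → g ∈ H) := by
  have hlie : ∀ g x y, Ad g ⁅x, y⁆ = ⁅Ad g x, Ad g y⁆ :=
    fun g => lie_of_cong hG B (Ad g) (hcl g)
  obtain ⟨a, ha⟩ : ∃ a : E →* Module.End ℤ_[p] L, ∀ g, a g = Ad (π g) :=
    ⟨Ad.comp π, fun g => rfl⟩
  have halie : ∀ g x y, a g ⁅x, y⁆ = ⁅a g x, a g y⁆ := fun g => by rw [ha]; exact hlie _
  have hainv : ∀ g, a g * a g⁻¹ = 1 := fun g => by rw [← map_mul, mul_inv_cancel, map_one]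
  have hainv' : ∀ g, a g⁻¹ * a g = 1 := fun g => by rw [← map_mul, inv_mul_cancel, map_one]
  -- the congruence filtration
  let Kt : ℕ → Subgroup E := fun i =>
    { carrier := {g | CongMod p i (a g) 1}
      one_mem' := by
        change CongMod p i (a 1) 1
        rw [map_one]; exact CongMod.refl i 1
      mul_mem' := by
        intro g h hg hh
        change CongMod p i (a (g * h)) 1
        rw [map_mul]; exact CongMod.mul_one' hg hh
      inv_mem' := by
        intro g hg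
        exact CongMod.inv' hg (hainv g) }
  have hKt : ∀ i g, g ∈ Kt i ↔ CongMod p i (a g) 1 := fun _ _ => Iff.rfl
  have hKn : ∀ i, (Kt i).Normal := by
    intro i
    refine ⟨fun g hg k => ?_⟩
    rw [hKt, map_mul, map_mul]
    exact CongMod.conj' hg (hainv k)
  have hanti : ∀ i, Kt (i + 1) ≤ Kt i := fun i g hg => CongMod.mono (Nat.le_succ i) hg
  have hAnti : Antitone Kt := antitone_nat_of_succ_le hanti
  have hMK : ∀ i, π.ker ≤ Kt i := by
    intro i g hg
    rw [hKt, ha, MonoidHom.mem_ker.mp hg, map_one]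
    exact CongMod.refl i 1
  have hj0 : j 0 = 1 := by
    have := hj 0 0
    rw [add_zero] at this
    exact (left_eq_mul.mp this)
  have hjn : ∀ (n : ℕ) x, j (n • x) = j x ^ n := by
    intro n x
    induction n with
    | zero => rw [zero_smul, hj0, pow_zero]
    | succ n ih => rw [succ_nsmul, hj, ih, pow_succ]
  have hker : ∀ g, g ∈ π.ker ↔ ∃ x, j x = g := fun g => by rw [MonoidHom.mem_ker, hjM]
  have hMp : ∀ m ∈ π.ker, m ^ p = 1 := by
    intro m hm
    obtain ⟨x, rfl⟩ := (hker m).mp hm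
    rw [← hjn, ← hj0]
    congr 1
    rw [← Nat.cast_smul_eq_nsmul (ZMod p), CharP.cast_eq_zero, zero_smul]
  have hred1 : ∀ g ∈ Kt 1, redEnd B Bp red (a g) = 1 := by
    intro g hg
    rw [← hR.redEnd_one]
    exact (hR.redEnd_eq_iff _ _).mpr hg
  have hjc' : ∀ g x, g * j x * g⁻¹ = j (redEnd B Bp red (a g) x) := fun g x => by
    rw [ha]; exact hjc g x
  have hMc : ∀ m ∈ π.ker, ∀ x ∈ Kt 1, m * x = x * m := by
    intro m hm x hxk
    obtain ⟨y, rfl⟩ := (hker m).mp hm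
    have := hjc' x y
    rw [hred1 x hxk, Module.End.one_apply, mul_inv_eq_iff_eq_mul] at this
    exact this.symm
  have hLpf : Finite Lp := by
    have : Module.Finite (ZMod p) Lp := Module.Finite.of_basis Bp.basis
    exact Module.finite_of_finite (ZMod p)
  have hMf : Finite π.ker := by
    refine Finite.of_surjective (fun x : Lp => (⟨j x, (hker _).mpr ⟨x, rfl⟩⟩ : π.ker)) ?_
    rintro ⟨m, hm⟩
    obtain ⟨x, hx⟩ := (hker m).mp hm
    exact ⟨x, Subtype.ext hx⟩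
  have hCt : ∀ x, π x ∈ Ad.ker → ∀ i, x ∈ Kt i := by
    intro x hx i
    rw [hKt, ha, MonoidHom.mem_ker.mp hx]
    exact CongMod.refl i 1
  -- the Hall part
  obtain ⟨C', hC'n, hC'1, hC'2, hC'3⟩ := coprime_part π hπ Ad.ker p hCp hMf hMp
    (fun m hm x hx => hMc m hm x (hCt x hx 1))
  have hNK : (NE ⊓ Kt n₀).Normal := by
    have := hKn n₀
    exact Subgroup.normal_inf_normal _ _
  set T : Subgroup E := C' ⊔ (NE ⊓ Kt n₀) with hT
  have hTn : T.Normal := Subgroup.sup_normal _ _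
  have hTM : T ⊓ π.ker = ⊥ := by
    rw [eq_bot_iff]
    rintro x ⟨hxT0, hxM0⟩
    have hxT : x ∈ C' ⊔ (NE ⊓ Kt n₀) := hxT0
    have hxM : x ∈ π.ker := hxM0
    rw [Subgroup.mem_sup_of_normal_right] at hxT
    obtain ⟨c, hc, ν, hν, hcν⟩ := hxT
    have hcK : c ∈ Kt 1 := hCt c (hC'1 c hc) 1
    have h2 : ν = c⁻¹ * x := by rw [← hcν]; group
    have hcm : Commute c⁻¹ x := (hMc x hxM c⁻¹ (inv_mem hcK)).symm
    have h3 : x ^ Nat.card Ad.ker ∈ NE := by
      have : x ^ Nat.card Ad.ker = ν ^ Nat.card Ad.ker := by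
        rw [h2, hcm.mul_pow, hC'2 _ (inv_mem hc), one_mul]
      rw [this]; exact pow_mem hν.1 _
    obtain ⟨y, rfl⟩ := (hker x).mp hxM
    rw [← hjn] at h3
    have h4 := hNEj _ h3
    rw [← Nat.cast_smul_eq_nsmul (ZMod p), smul_eq_zero] at h4
    rw [Subgroup.mem_bot, ← hj0]
    congr 1
    rcases h4 with h4 | h4
    · exfalso
      rw [ZMod.natCast_eq_zero_iff] at h4
      have := Nat.dvd_gcd dvd_rfl h4
      rw [hCp] at this
      exact (Fact.out : p.Prime).one_lt.ne' (Nat.dvd_one.mp this)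
    · exact h4
  have hTle : T ≤ Kt n₀ := sup_le (fun c hc => hCt c (hC'1 c hc) _) inf_le_right
  have hTK : T ⊔ π.ker = Kt n₀ := by
    apply le_antisymm (sup_le hTle (hMK _))
    intro g hg
    obtain ⟨c₁, hc₁, ν, hν, hcν⟩ := hn₀ (π g) (by rw [← ha]; exact hg)
    obtain ⟨e, rfl⟩ := hπ c₁
    obtain ⟨c, hc, m, hm, rfl⟩ := hC'3 e hc₁
    have hνK : ν ∈ Kt n₀ := by
      rw [hKt] at hg ⊢
      rw [ha] at hg ⊢
      rw [hcν, map_mul, MonoidHom.mem_ker.mp hc₁, one_mul] at hg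
      exact hg
    have h2 : (c * ν)⁻¹ * g ∈ π.ker := by
      rw [MonoidHom.mem_ker, map_mul, hcν, map_inv, map_mul, map_mul, MonoidHom.mem_ker.mp hm]
      group
    have h3 : g = (c * ν) * ((c * ν)⁻¹ * g) := by group
    rw [h3]
    exact mul_mem ((le_sup_left : T ≤ _) (mul_mem ((le_sup_left : C' ≤ T) hc)
      ((le_sup_right : _ ≤ T) ⟨hν, hνK⟩))) ((le_sup_right : π.ker ≤ _) h2)
  have hdl : ∀ (n : ℕ), 1 ≤ n → ∀ g ∈ Kt n, ∃ z, IsDelta red n (a g) z :=
    fun n hn g hg => exists_isDelta hG hR hn (halie g) hg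
  have hdsurj : ∀ (n : ℕ), 1 ≤ n → ∀ z, ∃ g, IsDelta red n (a g) z := by
    intro n hn z
    obtain ⟨g, hg⟩ := delta_surj hG hR Ad hx hlie hn z
    obtain ⟨e, rfl⟩ := hπ g
    exact ⟨e, by rw [ha]; exact hg⟩
  have hpow : ∀ i, 1 ≤ i → ∀ x ∈ Kt i, x ^ p ∈ Kt (i + 1) := by
    intro i hi x hx
    obtain ⟨z, hz⟩ := hdl i hi x hx
    rw [hKt, map_pow]
    exact (hR.isDelta_pow hG hi hz).1
  obtain ⟨S, hSn, hSM, hSK, hSp, hTS⟩ := lower_apply p (by have := hG.lt; omega) π.ker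
    inferInstance Kt hKn hanti hMK hMc hMp n₀ h1 T hTn hTM hTK
    (by
      intro i k hi hk x hx y hy
      rw [hKt, map_mul, map_mul, map_mul]
      exact hR.congMod_comm hi hk (hainv x) (hainv' x) (hainv y) (hainv' y) hx hy)
    hpow
    (by
      intro i hi x hx hxp
      obtain ⟨z, hz⟩ := hdl i hi x hx
      have h2 := hR.isDelta_pow hG hi hz
      rw [hKt, map_pow] at hxp
      have h3 := (hR.isDelta_zero_iff hG (by omega) h2).mpr hxp
      exact (hR.isDelta_zero_iff hG hi hz).mp h3)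
    (by
      intro i hi y hy
      obtain ⟨z, hz⟩ := hdl (i + 1) (by omega) y hy
      obtain ⟨x, hxz⟩ := hdsurj i hi z
      refine ⟨x, hxz.1, ?_⟩
      have h2 := hR.isDelta_pow hG hi hxz
      have h3 : y⁻¹ * x ^ p ∈ Kt (i + 1) := mul_mem (inv_mem hy) (hpow i hi x hxz.1)
      obtain ⟨w, hw⟩ := hdl (i + 1) (by omega) _ h3
      have h4 := hR.isDelta_mul hG (by omega) hz hw
      rw [← map_mul, mul_inv_cancel_left, map_pow] at h4
      have h5 := isDelta_unique hG hR (by omega)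
        (g := a x ^ p) (by rw [← map_pow]; exact halie _) h4 h2
      have h6 : w = 0 := by simpa using h5
      exact (hR.isDelta_zero_iff hG (by omega) hw).mp h6)
  -- the finite quotient
  have hSK2 : S ≤ Kt 2 := hSK ▸ le_sup_left
  have hSK1 : S ≤ Kt 1 := hSK2.trans (hanti 1)
  set q : E →* E ⧸ S := QuotientGroup.mk' S with hq
  have hqs : Function.Surjective q := QuotientGroup.mk'_surjective S
  have hqk : ∀ x, q x = 1 ↔ x ∈ S := fun x => QuotientGroup.eq_one_iff x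
  obtain ⟨ρ0, hρ0⟩ : ∃ ρ0 : E →* Module.End (ZMod p) Lp, ∀ g, ρ0 g = redEnd B Bp red (a g) :=
    ⟨{ toFun := fun g => redEnd B Bp red (a g)
       map_one' := by rw [map_one, hR.redEnd_one]
       map_mul' := by
         intro g h
         change redEnd B Bp red (a (g * h)) = redEnd B Bp red (a g) * redEnd B Bp red (a h)
         rw [map_mul, hR.redEnd_mul] }, fun g => rfl⟩
  have hρS : S ≤ ρ0.ker := by
    intro x hx
    rw [MonoidHom.mem_ker, hρ0]; exact hred1 x (hSK1 hx)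
  let ρ : E ⧸ S →* Module.End (ZMod p) Lp := QuotientGroup.lift S ρ0 hρS
  have hρ : ∀ g, ρ (q g) = redEnd B Bp red (a g) := fun g => by
    rw [← hρ0]; rfl
  have hmemA : ∀ g, q g ∈ (Kt 1).map q ↔ g ∈ Kt 1 := by
    intro g
    constructor
    · rintro ⟨y, hy, hyx⟩
      have h2 : y⁻¹ * g ∈ S := by rw [← hqk, map_mul, map_inv, hyx, inv_mul_cancel]
      have := mul_mem hy (hSK1 h2)
      rwa [mul_inv_cancel_left] at this
    · intro hx; exact ⟨g, hx, rfl⟩
  have hmemM : ∀ g, q g ∈ π.ker.map q ↔ g ∈ Kt 2 := by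
    intro g
    constructor
    · rintro ⟨y, hy, hyx⟩
      have h2 : y⁻¹ * g ∈ S := by rw [← hqk, map_mul, map_inv, hyx, inv_mul_cancel]
      have := mul_mem (hMK 2 hy) (hSK2 h2)
      rwa [mul_inv_cancel_left] at this
    · intro hg
      rw [← hSK, Subgroup.mem_sup_of_normal_right] at hg
      obtain ⟨s, hs, m, hm, rfl⟩ := hg
      exact ⟨m, hm, by rw [map_mul, (hqk s).mpr hs, one_mul]⟩
  have hqj : Function.Injective fun x => q (j x) := by
    intro x y hxy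
    have h2 : (j x)⁻¹ * j y ∈ S := by
      rw [← hqk, map_mul, map_inv]
      change q (j x) = q (j y) at hxy
      rw [hxy, inv_mul_cancel]
    have h3 : (j x)⁻¹ * j y ∈ π.ker := mul_mem (inv_mem ((hker _).mpr ⟨x, rfl⟩))
      ((hker _).mpr ⟨y, rfl⟩)
    have h4 : (j x)⁻¹ * j y ∈ S ⊓ π.ker := ⟨h2, h3⟩
    rw [hSM, Subgroup.mem_bot, inv_mul_eq_one] at h4
    exact hjinj h4
  -- the derivative
  classical
  let dl : E → Lp := fun g => if h : ∃ z, IsDelta red 1 (a g) z then h.choose else 0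
  have hdl1 : ∀ g ∈ Kt 1, IsDelta red 1 (a g) (dl g) := by
    intro g hg
    have h := hdl 1 le_rfl g hg
    change IsDelta red 1 (a g) (if h : ∃ z, IsDelta red 1 (a g) z then h.choose else 0)
    rw [dif_pos h]
    exact h.choose_spec
  have hdl2 : ∀ g z, IsDelta red 1 (a g) z → dl g = z := fun g z hz =>
    isDelta_unique hG hR le_rfl (halie g) (hdl1 g hz.1) hz
  have hdlm : ∀ g ∈ Kt 1, ∀ h ∈ Kt 1, dl (g * h) = dl g + dl h := by
    intro g hg h hh
    apply hdl2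
    rw [map_mul]
    exact hR.isDelta_mul hG le_rfl (hdl1 g hg) (hdl1 h hh)
  have hdlz : ∀ g ∈ Kt 1, dl g = 0 ↔ g ∈ Kt 2 := fun g hg =>
    hR.isDelta_zero_iff hG le_rfl (hdl1 g hg)
  let δ : E ⧸ S → Lp := fun z => dl z.out
  have hδ : ∀ g ∈ Kt 1, δ (q g) = dl g := by
    intro g hg
    obtain ⟨s, hs⟩ := QuotientGroup.mk_out_eq_mul S g
    change dl (Quotient.out (g : E ⧸ S)) = dl g
    rw [hs, hdlm g hg s (hSK1 s.2), (hdlz s (hSK1 s.2)).mpr (hSK2 s.2), add_zero]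
  obtain ⟨K, hKM, hKT⟩ := Bp.finMain hG ρ
    (by
      intro g
      obtain ⟨g, rfl⟩ := hqs g
      obtain ⟨k, hk, hgk⟩ := hcl (π g) 1
      rw [hρ, ha, (hR.redEnd_eq_iff _ _).mpr hgk]
      exact redEnd_mem_elem hG hR hk)
    ((Kt 1).map q) (π.ker.map q) (Subgroup.map_mono (hMK 1))
    (by
      intro g
      obtain ⟨g, rfl⟩ := hqs g
      rw [hmemA, hρ, ← hR.redEnd_one, hR.redEnd_eq_iff]
      exact hKt 1 g)
    (fun x => q (j x)) (fun x y => by rw [hj, map_mul]) hqj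
    (by
      intro g
      constructor
      · rintro ⟨m, hm, rfl⟩
        obtain ⟨x, rfl⟩ := (hker m).mp hm
        exact ⟨x, rfl⟩
      · rintro ⟨x, rfl⟩
        exact ⟨j x, (hker _).mpr ⟨x, rfl⟩, rfl⟩)
    (by
      intro g x
      obtain ⟨g, rfl⟩ := hqs g
      rw [hρ, ← map_inv, ← map_mul, ← map_mul, hjc'])
    δ
    (by
      intro g hg h hh
      obtain ⟨g, rfl⟩ := hqs g
      obtain ⟨h, rfl⟩ := hqs h
      rw [hmemA] at hg hh
      rw [← map_mul, hδ _ (mul_mem hg hh), hδ g hg, hδ h hh, hdlm g hg h hh])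
    (by
      intro x
      obtain ⟨g, hg⟩ := hdsurj 1 le_rfl x
      refine ⟨q g, (hmemA g).mpr hg.1, ?_⟩
      rw [hδ g hg.1, hdl2 g x hg])
    (by
      intro g hg
      obtain ⟨g, rfl⟩ := hqs g
      rw [hmemA] at hg
      rw [hδ g hg, hdlz g hg, hmemM])
    (by
      intro g k hk
      obtain ⟨g, rfl⟩ := hqs g
      obtain ⟨k, rfl⟩ := hqs k
      rw [hmemA] at hk
      rw [← map_inv, ← map_mul, ← map_mul, hδ _ ((hKn 1).conj_mem _ hk _), hδ k hk, hρ]
      apply hdl2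
      rw [map_mul, map_mul]
      exact hR.isDelta_conj hG le_rfl (halie g) (hainv g) (hainv' g) (hdl1 k hk))
    (by
      intro g hg
      obtain ⟨g, rfl⟩ := hqs g
      rw [hmemA] at hg
      rw [← map_pow, hqk]
      exact hSp g hg)
    (by
      intro α
      obtain ⟨γ, hγ⟩ := hx α 1
      obtain ⟨e, rfl⟩ := hπ γ
      refine ⟨q e, ?_, ?_⟩
      · rw [hρ, ha, hγ, hR.redEnd_x hG, map_one]
      · have h2 : IsDelta red 1 (a (e ^ p)) (Bp.e α) := by
          rw [map_pow, ha, hγ, B.x_pow hG.isUnit720']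
          have := hR.isDelta_x hG (n := 1) le_rfl α 1
          rwa [map_one, one_smul, pow_one] at this
        rw [← map_pow, hδ _ h2.1]
        exact hdl2 _ _ h2)
  -- conclusion
  refine ⟨K.comap q, ?_, ?_, ?_⟩
  · intro x hxK
    have h2 : q (j x) ∈ K ⊓ π.ker.map q := ⟨hxK, ⟨j x, (hker _).mpr ⟨x, rfl⟩, rfl⟩⟩
    rw [hKM, Subgroup.mem_bot] at h2
    apply hqj
    change q (j x) = q (j 0)
    rw [h2, hj0, map_one]
  · intro g
    have h2 : q g ∈ K ⊔ π.ker.map q := by rw [hKT]; exact Subgroup.mem_top _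
    have : (π.ker.map q).Normal := Subgroup.Normal.map inferInstance q hqs
    rw [Subgroup.mem_sup_of_normal_right] at h2
    obtain ⟨k, hk, z, ⟨m, hm, rfl⟩, hkm⟩ := h2
    obtain ⟨x, rfl⟩ := (hker m).mp hm
    refine ⟨g * (j x)⁻¹, ?_, x, by group⟩
    rw [Subgroup.mem_comap, map_mul, map_inv, ← hkm, mul_inv_cancel_right]
    exact hk
  · intro g hg hgc
    rw [← ha] at hgc
    have h2 : g ∈ T := (le_sup_right : _ ≤ T) ⟨hg, hanti n₀ hgc⟩
    have h3 : g ∈ S := hTS ⟨h2, hgc⟩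
    rw [Subgroup.mem_comap, (hqk g).mpr h3]
    exact one_mem _

end Main

end Ch4
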