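import Mathlib
import Pool.Agent.Lib.P4ba0d5.Base
import Pool.Agent.Lib.P4ba0d5.Good
import Pool.Agent.Lib.P4ba0d5.Irr
import Pool.Agent.Lib.P4ba0d5.Tor
import Pool.Agent.Lib.P4ba0d5.Cong
import Pool.Agent.Lib.P4ba0d5.ModSetup
import Pool.Agent.Lib.P4ba0d5.RedMain

/-! Module CenPart of MP_4ba0d5_al: the preimage of the central kernel of `Ad` in an extension by `Lp`
is central up to elements of `Lp`. -/

set_option linter.unusedSectionVars false
set_option linter.unusedVariables false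

namespace Ch4

open Module

section GeomSum

variable {p : ℕ} [Fact p.Prime]

open Polynomial in
theorem geom_sum_eq_pow : (∑ k ∈ Finset.range p, (X : (ZMod p)[X]) ^ k) = (X - 1) ^ (p - 1) := by
  have h1 : (X - 1 : (ZMod p)[X]) ≠ 0 := by
    have := X_sub_C_ne_zero (1 : ZMod p)
    rwa [map_one] at this
  apply mul_left_cancel₀ h1
  rw [mul_comm, geom_sum_mul, ← pow_succ', Nat.sub_add_cancel (Fact.out : p.Prime).one_le,
    sub_pow_char, one_pow]

theorem geom_sum_end {V : Type*} [AddCommGroup V] [Module (ZMod p) V] (T : Module.End (ZMod p) V)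
    {m : ℕ} (hm : m ≤ p - 1) (hT : (T - 1) ^ m = 0) : ∑ k ∈ Finset.range p, T ^ k = 0 := by
  have h := congrArg (Polynomial.aeval T) (geom_sum_eq_pow (p := p))
  rw [map_sum, map_pow, map_sub, map_one, Polynomial.aeval_X] at h
  simp only [map_pow, Polynomial.aeval_X] at h
  rw [h]
  exact pow_eq_zero_of_le hm hT

end GeomSum

section Padic

variable {ι X Y : Type*} [Finite ι] [AddCommGroup X] [Module ℚ X] [AddCommGroup Y] [Module ℚ Y]
  {P : RootPairing ι ℚ X Y} [P.IsRootSystem] [P.IsCrystallographic] [P.IsReduced]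
  {b : P.Base} {f : ι → ℤ} {D : ℤ} {p : ℕ} [Fact p.Prime]
  {L : Type*} [LieRing L] [LieAlgebra ℤ_[p] L]
  {Lp : Type*} [LieRing Lp] [LieAlgebra (ZMod p) Lp]

theorem exists_root_of_irr (P : RootPairing ι ℚ X Y) [P.IsRootSystem] [P.IsIrreducible] :
    Nonempty ι := by
  by_contra hemp
  rw [not_nonempty_iff] at hemp
  have h1 : Submodule.span ℚ (Set.range P.root) = ⊤ := RootPairing.IsRootSystem.span_root_eq_top
  have : Set.range P.root = ∅ := Set.range_eq_empty _
  rw [this, Submodule.span_empty] at h1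
  have h2 : Nontrivial X := RootPairing.IsIrreducible.nontrivial (P := P)
  exact bot_ne_top h1

/-- The fixed vectors of the root elements are zero. -/
theorem ChevalleyBasis.fixed_eq_zero [P.IsIrreducible] (Bp : ChevalleyBasis b (ZMod p) Lp)
    (hG : Good b f D p) (v : Lp) (hv : ∀ α t, Bp.x α t v = v) : v = 0 := by
  let V : Submodule (ZMod p) Lp :=
    { carrier := {v | ∀ α t, Bp.x α t v = v}
      zero_mem' := fun α t => map_zero _
      add_mem' := fun {v w} hv hw α t => by rw [map_add, hv, hw]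
      smul_mem' := fun c v hv α t => by rw [map_smul, hv] }
  have hV : ∀ v, v ∈ V ↔ ∀ α t, Bp.x α t v = v := fun v => Iff.rfl
  rcases Bp.irred hG V (fun α t v hv => by rw [(hV v).mp hv α t]; exact hv) with h | h
  · have : v ∈ V := hv
    rw [h, Submodule.mem_bot] at this
    exact this
  · exfalso
    obtain ⟨α⟩ := exists_root_of_irr P
    have h1 : Bp.hc α ∈ V := by rw [h]; exact Submodule.mem_top
    have h2 := (hV _).mp h1 α 1
    rw [Bp.tor_x_hc hG.isUnit720, sub_eq_self, mul_one] at h2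
    have h3 : (2 : ZMod p) ≠ 0 := by
      have := natCast_ne_zero_of_lt (p := p) (n := 2) (by norm_num) (by have := hG.lt; omega)
      exact_mod_cast this
    rcases smul_eq_zero.mp h2 with h4 | h4
    · exact h3 h4
    · exact Bp.basis.ne_zero _ h4

/-- Module CenPart, with the vanishing of `H¹` as a hypothesis. -/
theorem central_part_aux [P.IsIrreducible] (hG : Good b f D p)
    {B : ChevalleyBasis b ℤ_[p] L} {Bp : ChevalleyBasis b (ZMod p) Lp} {red : L →+ Lp}
    (hR : RedData B Bp red) {Γ : Type*} [Group Γ] (Ad : Γ →* Module.End ℤ_[p] L)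
    (hx : ∀ α t, ∃ g, Ad g = B.x α t) (hlie : ∀ g x y, Ad g ⁅x, y⁆ = ⁅Ad g x, Ad g y⁆)
    (hcen : ∀ c ∈ Ad.ker, ∀ g, c * g = g * c)
    {E : Type*} [Group E] (π : E →* Γ) (hπ : Function.Surjective π)
    (j : Lp → E) (hj : ∀ x y, j (x + y) = j x * j y) (hjinj : Function.Injective j)
    (hjM : ∀ g, π g = 1 ↔ ∃ x, j x = g)
    (hjc : ∀ g x, g * j x * g⁻¹ = j (redEnd B Bp red (Ad (π g)) x))
    (NE : Subgroup E) (hNEn : NE.Normal) (hNEj : ∀ x, j x ∈ NE → x = 0)
    (n₀ : ℕ) (h1 : 1 ≤ n₀)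
    (hn₀ : ∀ g : Γ, CongMod p n₀ (Ad g) 1 → ∃ c ∈ Ad.ker, ∃ ν ∈ NE, g = c * π ν)
    (hH1 : ∀ (ρ : E →* Module.End (ZMod p) Lp),
      (∀ g, ρ g = redEnd B Bp red (Ad (π g))) → ∀ (φ : E → Lp),
      (∀ g h, φ (g * h) = φ g + ρ g (φ h)) → (∀ g, ρ g = 1 → φ g = 0) →
      ∃ m : Lp, ∀ g, φ g = ρ g m - m)
    (n : E) (hn : π n ∈ Ad.ker) : ∃ x, ∀ g, g * (n * j x) = (n * j x) * g := by
  obtain ⟨a, ha⟩ : ∃ a : E →* Module.End ℤ_[p] L, ∀ g, a g = Ad (π g) :=
    ⟨Ad.comp π, fun g => rfl⟩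
  have halie : ∀ g x y, a g ⁅x, y⁆ = ⁅a g x, a g y⁆ := fun g => by rw [ha]; exact hlie _
  have hainv : ∀ g, a g * a g⁻¹ = 1 := fun g => by rw [← map_mul, mul_inv_cancel, map_one]
  have hainv' : ∀ g, a g⁻¹ * a g = 1 := fun g => by rw [← map_mul, inv_mul_cancel, map_one]
  obtain ⟨ρ, hρ⟩ : ∃ ρ : E →* Module.End (ZMod p) Lp, ∀ g, ρ g = redEnd B Bp red (a g) :=
    ⟨{ toFun := fun g => redEnd B Bp red (a g)
       map_one' := by rw [map_one, hR.redEnd_one]
       map_mul' := by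
         intro g h
         change redEnd B Bp red (a (g * h)) = redEnd B Bp red (a g) * redEnd B Bp red (a h)
         rw [map_mul, hR.redEnd_mul] }, fun g => rfl⟩
  have hρ1 : ∀ g, ρ g = 1 ↔ CongMod p 1 (a g) 1 := by
    intro g
    rw [hρ, ← hR.redEnd_one]
    exact hR.redEnd_eq_iff _ _
  have hj0 : j 0 = 1 := by
    have := hj 0 0
    rw [add_zero] at this
    exact (left_eq_mul.mp this)
  have hjc' : ∀ g x, g * j x * g⁻¹ = j (ρ g x) := fun g x => by
    rw [hρ, ha]; exact hjc g x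
  have hker : ∀ g, π g = 1 → ρ g = 1 := by
    intro g hg
    rw [hρ, ha, hg, map_one, hR.redEnd_one]
  have hAdker : ∀ g, π g ∈ Ad.ker → ρ g = 1 := by
    intro g hg
    rw [hρ, ha, MonoidHom.mem_ker.mp hg, hR.redEnd_one]
  have hρx : ∀ α t, ∃ g, ρ g = Bp.x α t := by
    intro α t
    obtain ⟨s, hs⟩ := ZMod.ringHom_surjective (PadicInt.toZMod (p := p)) t
    obtain ⟨γ, hγ⟩ := hx α s
    obtain ⟨e, rfl⟩ := hπ γ
    exact ⟨e, by rw [hρ, ha, hγ, hR.redEnd_x hG, hs]⟩
  -- the cocycle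
  have hex : ∀ g, ∃ x, j x = g * n * g⁻¹ * n⁻¹ := by
    intro g
    apply (hjM _).mp
    rw [map_mul, map_mul, map_mul, map_inv, map_inv, ← hcen _ hn]
    group
  choose φ hφ using hex
  have hnj : ∀ x, n * j x = j x * n := by
    intro x
    have := hjc' n x
    rw [hAdker n hn, Module.End.one_apply, mul_inv_eq_iff_eq_mul] at this
    exact this
  have hφj : ∀ x, φ (j x) = 0 := by
    intro x
    apply hjinj
    rw [hφ, hj0, ← hnj]; group
  have hφm : ∀ g h, φ (g * h) = φ g + ρ g (φ h) := by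
    intro g h
    apply hjinj
    rw [hφ, add_comm, hj, ← hjc', hφ, hφ]; group
  have hφ1 : φ 1 = 0 := by rw [← hj0]; exact hφj 0
  have hφinv : ∀ g, φ g = 0 → φ g⁻¹ = 0 := by
    intro g hg
    have h2 := hφm g⁻¹ g
    rw [inv_mul_cancel, hφ1, hg, map_zero, add_zero] at h2
    exact h2.symm
  have hφNE : ∀ g ∈ NE, φ g = 0 := by
    intro g hg
    apply hNEj
    rw [hφ]
    have h2 : g * n * g⁻¹ * n⁻¹ = g * (n * g⁻¹ * n⁻¹) := by group
    rw [h2]
    exact mul_mem hg (hNEn.conj_mem _ (inv_mem hg) n)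
  have hφconj : ∀ g h, ρ g = 1 → φ (h * g * h⁻¹) = ρ h (φ g) := by
    intro g h hg
    have h2 := hφm h h⁻¹
    rw [mul_inv_cancel, hφ1] at h2
    have h3 : φ (h * g * h⁻¹) = φ h + ρ h (φ g) + ρ h (φ h⁻¹) := by
      rw [hφm, hφm, map_mul, hg, mul_one]
    rw [h3, add_right_comm, ← h2, zero_add]
  have hφAd : ∀ g, π g ∈ Ad.ker → φ g = 0 := by
    intro g hg
    have hfix : ∀ h, ρ h (φ g) = φ g := by
      intro h
      rw [← hφconj g h (hAdker g hg)]
      obtain ⟨y, hy⟩ := (hjM (h * g * h⁻¹ * g⁻¹)).mp (by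
        rw [map_mul, map_mul, map_mul, map_inv, map_inv, ← hcen _ hg]; group)
      have h2 : h * g * h⁻¹ = j y * g := by rw [hy]; group
      rw [h2, hφm, hφj, zero_add, hker (j y) ((hjM _).mpr ⟨y, rfl⟩), Module.End.one_apply]
    apply Bp.fixed_eq_zero hG
    intro α t
    obtain ⟨g', hg'⟩ := hρx α t
    rw [← hg']; exact hfix g'
  -- vanishing on the congruence subgroups
  have hbase : ∀ g, CongMod p n₀ (a g) 1 → φ g = 0 := by
    intro g hg
    rw [ha] at hg
    obtain ⟨c, hc, ν, hν, hcν⟩ := hn₀ _ hg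
    obtain ⟨e, rfl⟩ := hπ c
    obtain ⟨y, hy⟩ := (hjM ((e * ν)⁻¹ * g)).mp (by
      rw [map_mul, map_inv, map_mul, hcν, inv_mul_cancel])
    have h2 : g = e * (ν * j y) := by rw [hy]; group
    rw [h2, hφm, hφm, hφAd e hc, hφNE ν hν, hφj, map_zero, add_zero, map_zero, add_zero]
  have hstep : ∀ i, 1 ≤ i → (∀ g, CongMod p (i + 1) (a g) 1 → φ g = 0) →
      ∀ g, CongMod p i (a g) 1 → φ g = 0 := by
    intro i hi ih
    have hd0 : ∀ g, IsDelta red i (a g) (0 : Lp) → φ g = 0 := fun g hg =>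
      ih g ((hR.isDelta_zero_iff hG hi hg).mp rfl)
    have hzero : IsDelta red i (a 1) (0 : Lp) := by
      obtain ⟨z, hz⟩ := exists_isDelta hG hR hi (halie 1) (by rw [map_one]; exact CongMod.refl i 1)
      have h2 : z = 0 := (hR.isDelta_zero_iff hG hi hz).mpr (by rw [map_one]; exact CongMod.refl _ 1)
      rw [h2] at hz; exact hz
    have hinvd : ∀ g z, IsDelta red i (a g) z → IsDelta red i (a g⁻¹) (-z) := by
      intro g z hg
      have hc : CongMod p i (a g⁻¹) 1 := CongMod.inv' hg.1 (hainv g)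
      obtain ⟨w, hw⟩ := exists_isDelta hG hR hi (halie g⁻¹) hc
      have h1 := hR.isDelta_mul hG hi hg hw
      rw [← map_mul, mul_inv_cancel] at h1
      have h2 := isDelta_unique hG hR hi (halie 1) h1 hzero
      rw [neg_eq_of_add_eq_zero_right h2]
      exact hw
    let V₀ : AddSubgroup Lp :=
      { carrier := {z | ∃ g, φ g = 0 ∧ IsDelta red i (a g) z}
        zero_mem' := ⟨1, hφ1, hzero⟩
        add_mem' := by
          rintro z w ⟨g, hg0, hg⟩ ⟨h, hh0, hh⟩
          refine ⟨g * h, ?_, ?_⟩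
          · rw [hφm, hg0, hh0, map_zero, add_zero]
          · rw [map_mul]; exact hR.isDelta_mul hG hi hg hh
        neg_mem' := by
          rintro z ⟨g, hg0, hg⟩
          exact ⟨g⁻¹, hφinv g hg0, hinvd g z hg⟩ }
    let V : Submodule (ZMod p) Lp := AddSubgroup.toZModSubmodule p V₀
    have hV : ∀ z, z ∈ V ↔ ∃ g, φ g = 0 ∧ IsDelta red i (a g) z := fun z => Iff.rfl
    have hst : ∀ α t, ∀ v ∈ V, Bp.x α t v ∈ V := by
      intro α t v hv
      rw [hV] at hv ⊢
      obtain ⟨g, hg0, hg⟩ := hv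
      obtain ⟨h, hh⟩ := hρx α t
      have h1 := hR.isDelta_conj hG hi (h := a h) (h' := a h⁻¹) (halie h) (hainv h) (hainv' h) hg
      rw [← map_mul, ← map_mul, ← hρ, hh] at h1
      refine ⟨_, ?_, h1⟩
      rw [hφconj g h ((hρ1 g).mpr (CongMod.mono hi hg.1)), hg0, map_zero]
    obtain ⟨α⟩ := exists_root_of_irr P
    have heα : Bp.e α ∈ V := by
      rw [hV]
      obtain ⟨γ, hγ⟩ := hx α ((p : ℤ_[p]) ^ (i - 1))
      obtain ⟨g, rfl⟩ := hπ γ
      refine ⟨g ^ p, ?_, ?_⟩
      · have hsum : ∀ m : ℕ, φ (g ^ m) = ∑ k ∈ Finset.range m, (ρ g ^ k) (φ g) := by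
          intro m
          induction m with
          | zero => rw [pow_zero, hφ1, Finset.sum_range_zero]
          | succ m ihm => rw [pow_succ, hφm, ihm, Finset.sum_range_succ, map_pow]
        rw [hsum, ← LinearMap.sum_apply, geom_sum_end (ρ g) (m := 4) (by have := hG.lt; omega) ?_,
          LinearMap.zero_apply]
        rw [hρ, ha, hγ, hR.redEnd_x hG]
        exact Bp.x_sub_one_pow hG.isUnit720 _ _
      · have h2 := hR.isDelta_x hG hi α 1
        rw [map_one, one_smul, mul_one] at h2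
        rw [map_pow, ha, hγ, B.x_pow hG.isUnit720']
        convert h2 using 2
        rw [← pow_succ', Nat.sub_add_cancel hi]
    have htop : V = ⊤ := by
      rcases Bp.irred hG V hst with h | h
      · exfalso
        rw [h, Submodule.mem_bot] at heα
        exact Bp.basis.ne_zero _ heα
      · exact h
    intro g hg
    obtain ⟨z, hz⟩ := exists_isDelta hG hR hi (halie g) hg
    have hzV : z ∈ V := by rw [htop]; exact Submodule.mem_top
    obtain ⟨g', hg'0, hg'⟩ := (hV z).mp hzV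
    have h2 := hR.isDelta_mul hG hi hz (hinvd g' z hg')
    rw [← map_mul, add_neg_cancel] at h2
    have h3 := hd0 _ h2
    have h4 : g = (g * g'⁻¹) * g' := by group
    rw [h4, hφm, h3, hg'0, map_zero, add_zero]
  have hall : ∀ k, k ≤ n₀ - 1 → ∀ g, CongMod p (n₀ - k) (a g) 1 → φ g = 0 := by
    intro k
    induction k with
    | zero => intro _ g hg; exact hbase g hg
    | succ k ih =>
      intro hk
      apply hstep (n₀ - (k + 1)) (by omega)
      have h2 : n₀ - (k + 1) + 1 = n₀ - k := by omega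
      rw [h2]
      exact ih (by omega)
  have hφk : ∀ g, ρ g = 1 → φ g = 0 := by
    intro g hg
    apply hall (n₀ - 1) le_rfl g
    have h2 : n₀ - (n₀ - 1) = 1 := by omega
    rw [h2]
    exact (hρ1 g).mp hg
  obtain ⟨m, hm⟩ := hH1 ρ (fun g => by rw [hρ, ha]) φ hφm hφk
  refine ⟨-m, fun g => ?_⟩
  have hjneg : ∀ x, j (-x) = (j x)⁻¹ := by
    intro x
    rw [eq_inv_iff_mul_eq_one, ← hj, neg_add_cancel, hj0]
  have e1 : g * n = j (φ g) * n * g := by rw [hφ]; group
  have e2 : g * j (-m) = j (ρ g (-m)) * g := by rw [← hjc']; group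
  calc g * (n * j (-m)) = (g * n) * j (-m) := by rw [mul_assoc]
    _ = j (φ g) * n * (g * j (-m)) := by rw [e1]; group
    _ = j (φ g) * (n * j (ρ g (-m))) * g := by rw [e2]; group
    _ = (j (φ g) * j (ρ g (-m))) * n * g := by rw [hnj]; group
    _ = j (-m) * n * g := by
      rw [← hj, hm]
      congr 3
      rw [map_neg]; abel
    _ = (n * j (-m)) * g := by rw [hnj]

end Padic

end Ch4
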