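import Mathlib
import Pool.Agent.Lib.P4ba0d5.SplitMod
import Pool.Agent.Lib.P4ba0d5.Irr

/-! `H¹(G, L) = 0` for the adjoint module of the group generated by root elements. -/

set_option linter.unusedSectionVars false
set_option linter.unusedVariables false

namespace Ch4

open Module

variable {ι X Y : Type*} [Finite ι] [AddCommGroup X] [Module ℚ X] [AddCommGroup Y] [Module ℚ Y]
  {P : RootPairing ι ℚ X Y} [P.IsRootSystem] [P.IsCrystallographic] [P.IsReduced]
  {b : P.Base} {f : ι → ℤ} {D : ℤ} {p : ℕ} [Fact p.Prime]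
  {L : Type*} [LieRing L] [LieAlgebra (ZMod p) L]

/-- A representation `σ` of `G` that factors through `ρ` and in which root elements are unipotent. -/
structure GSetup (B : ChevalleyBasis b (ZMod p) L) (G W : Type*) [Group G] [AddCommGroup W]
    [Module (ZMod p) W] where
  ρ : G →* Module.End (ZMod p) L
  hρ : ∀ g, ρ g ∈ B.elem
  hx : ∀ α, ∃ g, ρ g = B.x α 1
  σ : G →* Module.End (ZMod p) W
  hker : ∀ g, ρ g = 1 → σ g = 1
  unip : ∀ α g, ρ g = B.x α 1 → (σ g - 1) ^ 8 = 0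

namespace GSetup

variable {B : ChevalleyBasis b (ZMod p) L} {G W : Type*} [Group G] [AddCommGroup W]
    [Module (ZMod p) W] (S : GSetup B G W)

theorem σ_eq {g h : G} (hgh : S.ρ g = S.ρ h) : S.σ g = S.σ h := by
  have h1 : S.ρ (g * h⁻¹) = 1 := by rw [map_mul, hgh, ← map_mul, mul_inv_cancel, map_one]
  have h2 := S.hker _ h1
  calc S.σ g = S.σ (g * h⁻¹ * h) := by rw [inv_mul_cancel_right]
    _ = S.σ h := by rw [map_mul, h2, one_mul]

theorem σ_inv_mul (g : G) : S.σ g⁻¹ * S.σ g = 1 := by rw [← map_mul, inv_mul_cancel, map_one]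
theorem σ_mul_inv (g : G) : S.σ g * S.σ g⁻¹ = 1 := by rw [← map_mul, mul_inv_cancel, map_one]

/-- a group element inducing `x_α(1)` -/
noncomputable def gx (α : ι) : G := (S.hx α).choose

theorem ρ_gx (α : ι) : S.ρ (S.gx α) = B.x α 1 := (S.hx α).choose_spec

theorem ρ_gx_pow (h7 : IsUnit (720 : ZMod p)) (α : ι) (n : ℕ) :
    S.ρ (S.gx α ^ n) = B.x α (n : ZMod p) := by
  rw [map_pow, ρ_gx, B.x_pow h7, mul_one]

theorem σ_unip (α : ι) : (S.σ (S.gx α) - 1) ^ 8 = 0 := S.unip α _ (S.ρ_gx α)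

/-- the logarithm of `x_α` on `W` -/
noncomputable def Xo (α : ι) : Module.End (ZMod p) W := opLog p 8 (S.σ (S.gx α))

theorem exp_Xo (hp : 8 ≤ p) (α : ι) :
    opExp p 8 (S.Xo α) = S.σ (S.gx α) :=
  (opExp_opLog p 8 hp _ (S.σ_unip α)).1

theorem Xo_pow (hp : 8 ≤ p) (α : ι) : (S.Xo α) ^ 8 = 0 :=
  (opExp_opLog p 8 hp _ (S.σ_unip α)).2

theorem smulXo_pow (hp : 8 ≤ p) (α : ι) (t : ZMod p) :
    (t • S.Xo α) ^ 8 = 0 := by
  rw [smul_pow, S.Xo_pow hp, smul_zero]

theorem σ_of_x (hp : 8 ≤ p) (h7 : IsUnit (720 : ZMod p)) {α : ι} {t : ZMod p} {h : G}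
    (hh : S.ρ h = B.x α t) : S.σ h = opExp p 8 (t • S.Xo α) := by
  have h1 : S.ρ h = S.ρ (S.gx α ^ t.val) := by
    rw [S.ρ_gx_pow h7, hh, ZMod.natCast_zmod_val]
  rw [S.σ_eq h1, map_pow, ← S.exp_Xo hp, ← opExp_nsmul p 8 hp _ (S.Xo_pow hp α),
    ← Nat.cast_smul_eq_nsmul (ZMod p), ZMod.natCast_zmod_val]

/-- intertwining: if `ρ h x_α(1) = x_β(t) ρ h` then `σ h X_α = t X_β σ h`. -/
theorem σ_Xo (hp : 8 ≤ p) (h7 : IsUnit (720 : ZMod p)) {α β : ι} {t : ZMod p} (h : G)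
    (hh : S.ρ h * B.x α 1 = B.x β t * S.ρ h) : S.σ h * S.Xo α = t • (S.Xo β * S.σ h) := by
  have hk : S.ρ (S.gx β ^ t.val) = B.x β t := by
    rw [S.ρ_gx_pow h7, ZMod.natCast_zmod_val]
  have h1 : S.ρ (h * S.gx α) = S.ρ (S.gx β ^ t.val * h) := by
    rw [map_mul, map_mul, ρ_gx, hk, hh]
  have h2 := S.σ_eq h1
  rw [map_mul, map_mul] at h2
  have h3 : opLog p 8 (S.σ (S.gx β ^ t.val)) = t • S.Xo β := by
    rw [S.σ_of_x hp h7 hk]
    exact (opLog_opExp p 8 hp _ (S.smulXo_pow hp β t)).1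
  ext w
  have h4 := opLog_comp (S.σ h) (S.σ (S.gx α)) (S.σ (S.gx β ^ t.val))
    (fun v => by
      have := congrArg (fun T : Module.End (ZMod p) W => T v) h2
      simpa using this) w
  rw [h3] at h4
  simpa [Xo] using h4

theorem exists_ρ_eq (h7 : IsUnit (720 : ZMod p)) {A : Module.End (ZMod p) L} (hA : A ∈ B.elem) :
    ∃ g, S.ρ g = A := by
  induction hA using Submonoid.closure_induction with
  | mem A hA =>
    obtain ⟨⟨α, t⟩, rfl⟩ := hA
    exact ⟨S.gx α ^ t.val, by rw [S.ρ_gx_pow h7, ZMod.natCast_zmod_val]⟩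
  | one => exact ⟨1, map_one _⟩
  | mul A₁ A₂ _ _ ih₁ ih₂ =>
    obtain ⟨g₁, h₁⟩ := ih₁
    obtain ⟨g₂, h₂⟩ := ih₂
    exact ⟨g₁ * g₂, by rw [map_mul, h₁, h₂]⟩

/-- group element inducing `n_α` -/
noncomputable def gn (α : ι) : G := S.gx α * (S.gx (ng P α))⁻¹ * S.gx α

theorem ρ_inv_gx (h7 : IsUnit (720 : ZMod p)) (α : ι) : S.ρ (S.gx α)⁻¹ = B.x α (-1) := by
  have h1 : S.ρ (S.gx α)⁻¹ * B.x α 1 = 1 := by
    rw [← S.ρ_gx, ← map_mul, inv_mul_cancel, map_one]
  calc S.ρ (S.gx α)⁻¹ = S.ρ (S.gx α)⁻¹ * (B.x α 1 * B.x α (-1)) := by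
        rw [B.x_mul_neg h7, mul_one]
    _ = B.x α (-1) := by rw [← mul_assoc, h1, one_mul]

theorem ρ_gn (h7 : IsUnit (720 : ZMod p)) (α : ι) : S.ρ (S.gn α) = B.nel α := by
  rw [gn, map_mul, map_mul, S.ρ_inv_gx h7, S.ρ_gx, ChevalleyBasis.nel]

section Rel

variable (hG : Good b f D p)
include hG

theorem hp8 : 8 ≤ p := by have := hG.lt; omega

theorem σ_gn (α : ι) : S.σ (S.gn α) =
    opExp p 8 (S.Xo α) * opExp p 8 (-S.Xo (ng P α)) * opExp p 8 (S.Xo α) := by
  rw [gn, map_mul, map_mul, S.exp_Xo (hp8 hG),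
    S.σ_of_x (hp8 hG) hG.isUnit720 (S.ρ_inv_gx hG.isUnit720 (ng P α))]
  simp

theorem σ_gn_Xo (α : ι) : S.σ (S.gn α) * S.Xo α = -(S.Xo (ng P α) * S.σ (S.gn α)) := by
  have h := S.σ_Xo (hp8 hG) hG.isUnit720 (α := α) (β := ng P α) (t := -1) (S.gn α) (by
    rw [S.ρ_gn hG.isUnit720]
    have hlie : ∀ x y, B.nel α ⁅x, y⁆ = ⁅B.nel α x, B.nel α y⁆ := fun x y => by
      rw [← S.ρ_gn hG.isUnit720 α]
      exact B.elem_lie hG.isUnit720 (S.hρ _) x y
    have h1 := mul_expNil_ad (B.nel α) hlie ((1 : ZMod p) • B.e α)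
    have h2 : B.nel α ((1 : ZMod p) • B.e α) = (-1 : ZMod p) • B.e (ng P α) := by
      rw [one_smul, B.nel_e_self hG, neg_smul, one_smul]
    rw [h2] at h1
    exact h1)
  rw [h, neg_smul, one_smul]

/-- torus elements scale the `X_α` -/
theorem t_Xo {τ : G} {l : (ZMod p)ˣ}
    (hτ : ∀ u, S.ρ τ (B.basis u) = ((l ^ (wt f u) : (ZMod p)ˣ) : ZMod p) • B.basis u) (α : ι) :
    S.σ τ * S.Xo α = ((l ^ (f α) : (ZMod p)ˣ) : ZMod p) • (S.Xo α * S.σ τ) := by
  apply S.σ_Xo (hp8 hG) hG.isUnit720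
  have h1 := mul_expNil_ad (S.ρ τ) (fun x y => B.elem_lie hG.isUnit720 (S.hρ τ) x y)
    ((1 : ZMod p) • B.e α)
  have h2 : S.ρ τ ((1 : ZMod p) • B.e α) =
      ((l ^ (f α) : (ZMod p)ˣ) : ZMod p) • B.e α := by
    rw [one_smul]; exact hτ (.inr α)
  rw [h2] at h1
  exact h1

theorem sl2 {τ : G} {l : (ZMod p)ˣ} {M : ℤ} (hM : ∀ α, |f α| ≤ M)
    (hl : ∀ k : ℤ, k ≠ 0 → |k| ≤ 100 * (M + 1) → l ^ k ≠ 1)
    (hτ : ∀ u, S.ρ τ (B.basis u) = ((l ^ (wt f u) : (ZMod p)ˣ) : ZMod p) • B.basis u) (α : ι) :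
    S.Xo α * S.Xo α * S.Xo (ng P α) - (2 : ZMod p) • (S.Xo α * S.Xo (ng P α) * S.Xo α)
      + S.Xo (ng P α) * S.Xo α * S.Xo α = -((2 : ZMod p) • S.Xo α) ∧
    S.Xo (ng P α) * S.Xo (ng P α) * S.Xo α
      - (2 : ZMod p) • (S.Xo (ng P α) * S.Xo α * S.Xo (ng P α))
      + S.Xo α * S.Xo (ng P α) * S.Xo (ng P α) = -((2 : ZMod p) • S.Xo (ng P α)) := by
  have hp : 100 < p := by have := hG.lt; omega
  refine sl2rel p hp (S.σ τ) (S.σ τ⁻¹) (S.σ_mul_inv _) (S.σ_inv_mul _) (l ^ (f α)) ?_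
    (S.Xo α) (S.Xo (ng P α)) (S.Xo_pow (hp8 hG) α)
    (S.Xo_pow (hp8 hG) _) (S.t_Xo hG hτ α) ?_ ?_
  · intro k hk0 hk
    rw [← zpow_mul]
    apply hl _ (mul_ne_zero (hG.ne α) hk0)
    rw [abs_mul]
    have h1 := hM α
    have h2 := abs_nonneg (f α)
    have h3 := abs_nonneg k
    nlinarith
  · have := S.t_Xo hG hτ (ng P α)
    rw [hG.isWt.neg (root_ng P α), zpow_neg] at this
    exact this
  · rw [← S.σ_gn hG]
    exact S.σ_gn_Xo hG α

theorem σ_x_mem {V : Submodule (ZMod p) W} {α : ι}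
    (hA : ∀ v ∈ V, S.Xo α v ∈ V) {h : G} {t : ZMod p} (hh : S.ρ h = B.x α t) {v : W} (hv : v ∈ V) :
    S.σ h v ∈ V := by
  rw [S.σ_of_x (hp8 hG) hG.isUnit720 hh]
  exact ModSetup.opExp_mem (fun v hv => by
    rw [LinearMap.smul_apply]; exact V.smul_mem _ (hA v hv)) hv

/-- stability under the whole group -/
theorem stable (V : Submodule (ZMod p) W)
    (hV : ∀ i ∈ b.support, ∀ v ∈ V, S.Xo i v ∈ V ∧ S.Xo (ng P i) v ∈ V) :
    (∀ α, ∀ v ∈ V, S.Xo α v ∈ V) ∧ ∀ g, ∀ v ∈ V, S.σ g v ∈ V := by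
  have h7 := hG.isUnit720
  -- stability under `n_j`, `j` simple, and inverses
  have hn : ∀ j ∈ b.support, ∀ v ∈ V, S.σ (S.gn j) v ∈ V ∧ S.σ (S.gn j)⁻¹ v ∈ V := by
    intro j hj v hv
    have h1 : ∀ v ∈ V, S.σ (S.gx j) v ∈ V := fun v hv =>
      S.σ_x_mem hG (fun v hv => (hV j hj v hv).1) (S.ρ_gx j) hv
    have h1' : ∀ v ∈ V, S.σ (S.gx j)⁻¹ v ∈ V := fun v hv =>
      S.σ_x_mem hG (fun v hv => (hV j hj v hv).1) (S.ρ_inv_gx h7 j) hv
    have h2 : ∀ v ∈ V, S.σ (S.gx (ng P j)) v ∈ V := fun v hv =>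
      S.σ_x_mem hG (fun v hv => (hV j hj v hv).2) (S.ρ_gx _) hv
    have h2' : ∀ v ∈ V, S.σ (S.gx (ng P j))⁻¹ v ∈ V := fun v hv =>
      S.σ_x_mem hG (fun v hv => (hV j hj v hv).2) (S.ρ_inv_gx h7 _) hv
    constructor
    · rw [gn, map_mul, map_mul, Module.End.mul_apply, Module.End.mul_apply]
      exact h1 _ (h2' _ (h1 _ hv))
    · rw [gn, mul_inv_rev, mul_inv_rev, inv_inv, map_mul, map_mul, Module.End.mul_apply,
        Module.End.mul_apply]
      exact h1' _ (h2 _ (h1' _ hv))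
  -- transport
  have htr : ∀ α, (∀ v ∈ V, S.Xo α v ∈ V) → ∀ j ∈ b.support,
      ∀ v ∈ V, S.Xo (P.reflectionPerm j α) v ∈ V := by
    intro α hα j hj v hv
    obtain ⟨c, hc0, hc⟩ := B.nel_e hG j α
    have hlie : ∀ x y, B.nel j ⁅x, y⁆ = ⁅B.nel j x, B.nel j y⁆ := fun x y => by
      rw [← S.ρ_gn h7 j]
      exact B.elem_lie h7 (S.hρ _) x y
    have h1 := S.σ_Xo (hp8 hG) h7 (α := α) (β := P.reflectionPerm j α) (t := c) (S.gn j) (by
      rw [S.ρ_gn h7]
      have h1 := mul_expNil_ad (B.nel j) hlie ((1 : ZMod p) • B.e α)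
      rw [one_smul, hc] at h1
      rw [ChevalleyBasis.x, one_smul, h1]
      rfl)
    have h2 := congrArg (fun A : Module.End (ZMod p) W => A (S.σ (S.gn j)⁻¹ v)) h1
    simp only [Module.End.mul_apply, LinearMap.smul_apply] at h2
    have h3 : S.σ (S.gn j) (S.σ (S.gn j)⁻¹ v) = v := by
      rw [← Module.End.mul_apply, S.σ_mul_inv]; rfl
    rw [h3] at h2
    have h4 : S.Xo (P.reflectionPerm j α) v =
        c⁻¹ • S.σ (S.gn j) (S.Xo α (S.σ (S.gn j)⁻¹ v)) := by
      rw [h2, smul_smul, inv_mul_cancel₀ hc0, one_smul]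
    rw [h4]
    exact V.smul_mem _ (hn j hj _ (hα _ (hn j hj v hv).2)).1
  have hall : ∀ α, (∀ v ∈ V, S.Xo α v ∈ V) ∧ (∀ v ∈ V, S.Xo (ng P α) v ∈ V) := by
    intro α
    refine b.induction_reflect (p := fun α => (∀ v ∈ V, S.Xo α v ∈ V) ∧
      (∀ v ∈ V, S.Xo (ng P α) v ∈ V)) α ?_ ?_ ?_
    · intro i hi
      refine ⟨hi.2, ?_⟩
      rw [show P.reflectionPerm i i = ng P i from rfl, ng_ng]
      exact hi.1
    · intro i hi
      exact ⟨fun v hv => (hV i hi v hv).1, fun v hv => (hV i hi v hv).2⟩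
    · intro i j hi hj
      refine ⟨htr i hi.1 j hj, ?_⟩
      have : ng P (P.reflectionPerm j i) = P.reflectionPerm j (ng P i) := by
        apply P.root.injective
        rw [root_ng, P.root_reflectionPerm, P.root_reflectionPerm, root_ng, map_neg]
      rw [this]
      exact htr _ hi.2 j hj
  refine ⟨fun α => (hall α).1, ?_⟩
  have key : ∀ A ∈ B.elem, ∀ g, S.ρ g = A → ∀ v ∈ V, S.σ g v ∈ V := by
    intro A hA
    induction hA using Submonoid.closure_induction with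
    | mem A hA =>
      obtain ⟨⟨α, t⟩, rfl⟩ := hA
      intro g hg v hv
      exact S.σ_x_mem hG (hall α).1 hg hv
    | one =>
      intro g hg v hv
      rw [S.hker g hg]; exact hv
    | mul A₁ A₂ hA₁ hA₂ ih₁ ih₂ =>
      intro g hg v hv
      obtain ⟨g₁, h₁⟩ := S.exists_ρ_eq h7 hA₁
      obtain ⟨g₂, h₂⟩ := S.exists_ρ_eq h7 hA₂
      have : S.σ g = S.σ (g₁ * g₂) := S.σ_eq (by rw [hg, map_mul, h₁, h₂])
      rw [this, map_mul, Module.End.mul_apply]
      exact ih₁ g₁ h₁ _ (ih₂ g₂ h₂ v hv)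
  exact fun g v hv => key _ (S.hρ g) g rfl v hv

end Rel

end GSetup

/-- elements of the Cartan subalgebra with prescribed eigenvalues at the simple roots -/
theorem exists_cartan (hG : Good b f D p) (c : b.support → ZMod p) :
    ∃ a : b.support → ZMod p, ∀ k : b.support,
      ∑ i, a i * (P.pairingIn ℤ (k : ι) i : ZMod p) = c k := by
  classical
  have hex : ∀ j : b.support, ∃ m : b.support → ZMod p, ∀ k : b.support,
      ∑ i, m i * (P.pairingIn ℤ (k : ι) i : ZMod p) = if k = j then 1 else 0 := by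
    intro j
    obtain ⟨g, hg, hg1⟩ := irr_exists_coef b j
    obtain ⟨m, hm⟩ := tor_exists_h hG hg
    refine ⟨m, fun k => ?_⟩
    rw [hm, hg1]
    by_cases h : k = j
    · rw [if_pos h, if_pos h]; simp
    · rw [if_neg h, if_neg h]; simp
  choose m hm using hex
  refine ⟨fun i => ∑ j, c j * m j i, fun k => ?_⟩
  simp only [Finset.sum_mul]
  rw [Finset.sum_comm]
  have : ∀ j, ∑ i, c j * m j i * (P.pairingIn ℤ (k : ι) i : ZMod p) = c j * if k = j then 1 else 0 := by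
    intro j
    rw [← hm j k, Finset.mul_sum]
    exact Finset.sum_congr rfl fun i _ => by ring
  rw [Finset.sum_congr rfl fun j _ => this j]
  simp

namespace ChevalleyBasis

/-- eigenvectors of a torus element -/
theorem repr_eq_zero_of_eig (B : ChevalleyBasis b (ZMod p) L) {A : Module.End (ZMod p) L}
    {l : (ZMod p)ˣ}
    (hA : ∀ u, A (B.basis u) = ((l ^ (wt f u) : (ZMod p)ˣ) : ZMod p) • B.basis u) {x : L} {k : ℤ}
    (hx : A x = ((l ^ k : (ZMod p)ˣ) : ZMod p) • x) (u : b.support ⊕ ι)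
    (hu : l ^ (wt f u) ≠ l ^ k) : B.basis.repr x u = 0 := by
  classical
  have : Fintype ι := Fintype.ofFinite ι
  have e1 : B.basis.repr (A x) u =
      ((l ^ (wt f u) : (ZMod p)ˣ) : ZMod p) * B.basis.repr x u := by
    conv_lhs => rw [← B.basis.sum_repr x]
    rw [map_sum, map_sum, Finsupp.finsetSum_apply]
    rw [Finset.sum_eq_single u]
    · rw [map_smul, hA, map_smul, map_smul, B.basis.repr_self]
      simp [mul_comm]
    · intro v _ hv
      rw [map_smul, hA, map_smul, map_smul, B.basis.repr_self]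
      simp [hv]
    · intro h; exact absurd (Finset.mem_univ u) h
  rw [hx, map_smul, Finsupp.smul_apply, smul_eq_mul] at e1
  by_contra h0
  have e2 := mul_right_cancel₀ h0 e1
  exact hu (Units.ext e2.symm)

/-- the main step, for an abstract `σ` of the given form -/
theorem h1_aux [P.IsIrreducible] {B : ChevalleyBasis b (ZMod p) L}
    (hG : Good b f D p) {G : Type*} [Group G] (S : GSetup B G (L × ZMod p)) (φ : G → L)
    (hσ : ∀ g w, S.σ g w = (S.ρ g w.1 + w.2 • φ g, w.2)) :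
    ∃ m : L, ∀ g, φ g = S.ρ g m - m := by
  classical
  have h7 := hG.isUnit720
  have hne : Nonempty ι := ModSetup.nonempty_ι (P := P)
  have hft : Fintype ι := Fintype.ofFinite ι
  have hp8 : 8 ≤ p := by have := hG.lt; omega
  have hp2 : 2 ≤ p := by omega
  have hinl : ∀ g x, S.σ g (x, 0) = (S.ρ g x, 0) := by
    intro g x
    rw [hσ]; simp
  have hsnd : ∀ g w, (S.σ g w).2 = w.2 := by
    intro g w
    rw [hσ]
  -- torus
  obtain ⟨θ, hθ, hθ0⟩ := ModSetup.exists_theta (b := b) hG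
  obtain ⟨t, ht, l, htp, hl', hdiag⟩ := B.exists_torus hG
  obtain ⟨τ, hτt⟩ := S.exists_ρ_eq h7 ht
  have hτρ : S.ρ τ = t := hτt
  have hl : ∀ k : ℤ, k ≠ 0 → |k| ≤ 100 * (f θ + 1) → l ^ k ≠ 1 := fun k hk0 hk =>
    hl' k hk0 ⟨θ, by rw [abs_of_pos hθ0]; exact hk⟩
  have hτ : ∀ u, S.ρ τ (B.basis u) = ((l ^ (wt f u) : (ZMod p)ˣ) : ZMod p) • B.basis u := by
    intro u; rw [hτρ, hdiag]
  have hσp : (S.σ τ) ^ (p - 1) = 1 := by
    rw [← map_pow]
    exact S.hker _ (by rw [map_pow]; change S.ρ τ ^ (p - 1) = 1; rw [hτρ, htp])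
  -- a torus fixed vector
  let w₁ : L × ZMod p := prj (S.σ τ) 1 (0, 1)
  have hw₁2 : w₁.2 = 1 := by
    have := prj_comp (LinearMap.snd (ZMod p) L (ZMod p)) (S.σ τ) (1 : Module.End (ZMod p) (ZMod p))
      (fun v => hsnd τ v) 1 (0, 1)
    change (LinearMap.snd (ZMod p) L (ZMod p)) w₁ = 1
    rw [this]
    exact prj_eig_self hp2 _ (by simp)
  have hw₁t : S.σ τ w₁ = w₁ := by
    have := T_prj (S.σ τ) hσp 1 (0, 1)
    simpa using this
  -- the operators on `L`
  have hXinl : ∀ α x, S.Xo α (x, 0) = (⁅B.e α, x⁆, 0) := by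
    intro α x
    have h := opLog_comp (LinearMap.inl (ZMod p) L (ZMod p)) (S.ρ (S.gx α)) (S.σ (S.gx α))
      (fun v => (hinl _ v).symm) x
    have h2 : opLog p 8 (S.ρ (S.gx α)) x = ⁅B.e α, x⁆ := by
      have h3 : S.ρ (S.gx α) = B.x α 1 := S.ρ_gx α
      rw [h3, B.opLog_x hp8, one_smul, LieAlgebra.ad_apply]
    rw [h2] at h
    have h5 : S.Xo α = opLog p 8 (S.σ (S.gx α)) := rfl
    rw [h5]
    simp only [LinearMap.inl_apply] at h
    exact h.symm
  have hXsnd : ∀ α w, (S.Xo α w).2 = 0 := by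
    intro α w
    have h := opLog_comp (LinearMap.snd (ZMod p) L (ZMod p)) (S.σ (S.gx α))
      (1 : Module.End (ZMod p) (ZMod p)) (fun v => hsnd _ v) w
    have h2 : opLog p 8 (1 : Module.End (ZMod p) (ZMod p)) = 0 := by
      have h3 := (opLog_opExp p 8 hp8 (0 : Module.End (ZMod p) (ZMod p)) (by simp)).1
      have h4 : opExp p 8 (0 : Module.End (ZMod p) (ZMod p)) = 1 := by
        simp [opExp, Finset.sum_range_succ]
      rwa [h4] at h3
    rw [h2] at h
    have h5 : S.Xo α = opLog p 8 (S.σ (S.gx α)) := rfl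
    rw [h5]
    simp only [LinearMap.snd_apply, LinearMap.zero_apply] at h
    exact h
  -- weights
  have hlne : ∀ (u : b.support ⊕ ι) (k : ℤ), |k| ≤ f θ → wt f u ≠ k → l ^ (wt f u) ≠ l ^ k := by
    intro u k hk hne h1
    apply hl (wt f u - k) (sub_ne_zero.mpr hne)
    · have h2 : |wt f u| ≤ f θ := by
        rcases u with i | α
        · simp [hθ0.le]
        · exact hθ α
      have h3 := abs_sub (wt f u) k
      linarith
    · rw [zpow_sub, h1, mul_inv_cancel]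
  have hc : ∀ α, ∃ c : ZMod p, S.Xo α w₁ = (c • B.e α, 0) := by
    intro α
    have h1 : S.Xo α w₁ = ((S.Xo α w₁).1, 0) := by
      ext
      · rfl
      · exact hXsnd α w₁
    have h2 : S.ρ τ (S.Xo α w₁).1 = ((l ^ (f α) : (ZMod p)ˣ) : ZMod p) • (S.Xo α w₁).1 := by
      have h3 := congrArg (fun A : Module.End (ZMod p) (L × ZMod p) => A w₁) (S.t_Xo hG hτ α)
      simp only [Module.End.mul_apply, LinearMap.smul_apply] at h3
      have h4 : S.σ τ (S.Xo α w₁) = ((l ^ (f α) : (ZMod p)ˣ) : ZMod p) • S.Xo α (S.σ τ w₁) := h3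
      rw [hw₁t, h1, hinl] at h4
      exact congrArg Prod.fst h4
    refine ⟨B.basis.repr (S.Xo α w₁).1 (.inr α), ?_⟩
    rw [h1]
    congr 1
    conv_lhs => rw [← B.basis.sum_repr (S.Xo α w₁).1]
    rw [Finset.sum_eq_single (.inr α)]
    · intro u _ hu
      rw [B.repr_eq_zero_of_eig hτ h2 u (hlne u _ (hθ α) ?_), zero_smul]
      intro hw
      rcases u with j | γ
      · simp only [wt_inl] at hw; exact hG.ne α hw.symm
      · simp only [wt_inr] at hw; exact hu (by rw [hG.inj hw])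
    · intro h; exact absurd (Finset.mem_univ _) h
  choose c hc using hc
  obtain ⟨a, ha⟩ := exists_cartan hG (fun i : b.support => c i)
  let h : L := ∑ i, a i • B.h i
  have hhe : ∀ i : b.support, ⁅h, B.e i⁆ = c i • B.e i := by
    intro i
    rw [B.lie_sum_h, ha]
  have hhn : ∀ i : b.support, ⁅h, B.e (ng P i)⁆ = -(c i) • B.e (ng P i) := by
    intro i
    rw [B.lie_sum_h]
    congr 1
    rw [← ha, ← Finset.sum_neg_distrib]
    refine Finset.sum_congr rfl fun j _ => ?_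
    rw [tor_pairing_ng]
    push_cast
    ring
  let w : L × ZMod p := w₁ + (h, 0)
  have hXw : ∀ i : b.support, S.Xo i w = 0 := by
    intro i
    rw [map_add, hc, hXinl, ← lie_skew, hhe]
    simp
  have hYw : ∀ i : b.support, S.Xo (ng P i) w = 0 := by
    intro i
    set d : ZMod p := c (ng P i) + c i with hd
    have h1 : S.Xo (ng P i) w = (d • B.e (ng P i), 0) := by
      rw [map_add, hc, hXinl, ← lie_skew, hhn, neg_smul, neg_neg, hd, add_smul]
      simp
    have h2 := congrArg (fun A : Module.End (ZMod p) (L × ZMod p) => A w)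
      (S.sl2 hG hθ hl hτ (i : ι)).2
    simp only [LinearMap.add_apply, LinearMap.sub_apply, LinearMap.smul_apply,
      LinearMap.neg_apply, Module.End.mul_apply] at h2
    rw [hXw i, h1, map_zero, map_zero, hXinl, hXinl, hXinl, hXinl] at h2
    have h3 := congrArg Prod.fst h2
    have e1 : ⁅B.e (ng P (i : ι)), ⁅B.e (i : ι), B.e (ng P (i : ι))⁆⁆ =
        (2 : ZMod p) • B.e (ng P (i : ι)) := by
      rw [B.lie_e_ng, B.tor_ng_hc]
    simp only [lie_smul, lie_self, smul_zero, lie_zero, e1, Prod.fst_add,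
      Prod.smul_fst, Prod.fst_neg, add_zero, zero_sub] at h3
    have h4 : (2 * d) • B.e (ng P (i : ι)) = 0 := by
      linear_combination (norm := module) -h3
    have h5 : B.e (ng P (i : ι)) ≠ 0 := B.basis.ne_zero _
    have h6 : 2 * d = 0 := (smul_eq_zero.1 h4).resolve_right h5
    have h7' : (2 : ZMod p) ≠ 0 := by
      have := natCast_ne_zero_of_lt (p := p) (n := 2) (by norm_num) (by omega)
      exact_mod_cast this
    have h8 : d = 0 := (mul_eq_zero.1 h6).resolve_left h7'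
    rw [h1, h8, zero_smul]
    rfl
  have hst := (S.stable hG (Submodule.span (ZMod p) {w}) (by
    intro i hi v hv
    obtain ⟨k, rfl⟩ := Submodule.mem_span_singleton.1 hv
    have h1 := hXw ⟨i, hi⟩
    have h2 := hYw ⟨i, hi⟩
    simp only at h1 h2
    rw [map_smul, map_smul, h1, h2, smul_zero]
    exact ⟨Submodule.zero_mem _, Submodule.zero_mem _⟩)).2
  have hw2 : w.2 = 1 := by
    change w₁.2 + 0 = 1
    rw [hw₁2, add_zero]
  refine ⟨-w.1, fun g => ?_⟩
  obtain ⟨k, hk⟩ := Submodule.mem_span_singleton.1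
    (hst g w (Submodule.mem_span_singleton_self w))
  have hk' : k • w = S.σ g w := hk
  have hk1 : k = 1 := by
    have := congrArg Prod.snd hk'
    rw [hsnd, Prod.smul_snd, hw2, smul_eq_mul, mul_one] at this
    exact this
  rw [hk1, one_smul, hσ, hw2, one_smul] at hk'
  have h1 : w.1 = S.ρ g w.1 + φ g := congrArg Prod.fst hk'
  rw [map_neg]
  linear_combination (norm := module) -h1


theorem h1_zero [P.IsIrreducible] (B : ChevalleyBasis b (ZMod p) L)
    (hG : Good b f D p) {G : Type*} [Group G]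
    (ρ : G →* Module.End (ZMod p) L) (hρ : ∀ g, ρ g ∈ B.elem) (hx : ∀ α, ∃ g, ρ g = B.x α 1)
    (φ : G → L) (hφ : ∀ g h, φ (g * h) = φ g + ρ g (φ h)) (hφk : ∀ g, ρ g = 1 → φ g = 0) :
    ∃ m : L, ∀ g, φ g = ρ g m - m := by
  classical
  have h7 := hG.isUnit720
  have hne : Nonempty ι := ModSetup.nonempty_ι (P := P)
  have hft : Fintype ι := Fintype.ofFinite ι
  have hp8 : 8 ≤ p := by have := hG.lt; omega
  have hp2 : 2 ≤ p := by omega
  -- the representation on `L × F_p`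
  let σf : G → Module.End (ZMod p) (L × ZMod p) := fun g =>
    LinearMap.inl (ZMod p) L (ZMod p) ∘ₗ
      (ρ g ∘ₗ LinearMap.fst (ZMod p) L (ZMod p) +
        (LinearMap.snd (ZMod p) L (ZMod p)).smulRight (φ g)) +
      LinearMap.inr (ZMod p) L (ZMod p) ∘ₗ LinearMap.snd (ZMod p) L (ZMod p)
  have hσf : ∀ g w, σf g w = (ρ g w.1 + w.2 • φ g, w.2) := by
    intro g w
    simp [σf]
  let σ : G →* Module.End (ZMod p) (L × ZMod p) :=
    { toFun := σf
      map_one' := by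
        apply LinearMap.ext
        intro w
        rw [hσf, map_one, hφk 1 (map_one _)]
        simp
      map_mul' := by
        intro g h
        apply LinearMap.ext
        intro w
        rw [Module.End.mul_apply, hσf, hσf, hσf, hφ, map_mul]
        simp only [Module.End.mul_apply, map_add, map_smul, smul_add]
        ext
        · simp only; abel
        · rfl }
  have hσ : ∀ g w, σ g w = (ρ g w.1 + w.2 • φ g, w.2) := hσf
  have hinl : ∀ g x, σ g (x, 0) = (ρ g x, 0) := by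
    intro g x
    rw [hσ]; simp
  have hsnd : ∀ g w, (σ g w).2 = w.2 := by
    intro g w
    rw [hσ]
  let S : GSetup B G (L × ZMod p) :=
    { ρ := ρ, hρ := hρ, hx := hx, σ := σ
      hker := by
        intro g hg
        apply LinearMap.ext
        intro w
        rw [hσ, hg, hφk g hg]
        simp
      unip := by
        intro α g hg
        apply LinearMap.ext
        intro w
        have h1 : ((σ g - 1 : Module.End (ZMod p) (L × ZMod p)) w) =
            (ρ g w.1 + w.2 • φ g - w.1, 0) := by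
          rw [LinearMap.sub_apply, hσ]
          ext <;> simp
        have h2 : ∀ k : ℕ, ∀ x : L, ((σ g - 1 : Module.End (ZMod p) (L × ZMod p)) ^ k) (x, 0) =
            (((ρ g - 1 : Module.End (ZMod p) L) ^ k) x, 0) := by
          intro k
          induction k with
          | zero => intro x; simp
          | succ k ih =>
            intro x
            rw [pow_succ, Module.End.mul_apply, LinearMap.sub_apply, hinl]
            have : ((ρ g x, (0 : ZMod p)) - (1 : Module.End (ZMod p) (L × ZMod p)) (x, 0)) =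
                ((ρ g - 1 : Module.End (ZMod p) L) x, 0) := by
              ext <;> simp
            rw [this, ih, pow_succ, Module.End.mul_apply]
        rw [show (8 : ℕ) = 7 + 1 by norm_num, pow_succ, Module.End.mul_apply, h1, h2, hg,
          show (7 : ℕ) = 3 + 4 by norm_num, pow_add, B.x_sub_one_pow h7, mul_zero]
        simp }
  exact h1_aux hG S φ hσ

end ChevalleyBasis

end Ch4
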