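import Mathlib
import Pool.Agent.Lib.P4ba0d5.CenPart
import Pool.Agent.Lib.P4ba0d5.H1

/-! The central part of the preimage of the kernel of `Ad`. -/

set_option linter.unusedSectionVars false
set_option linter.unusedVariables false

namespace Ch4

open Module

variable {ι X Y : Type*} [Finite ι] [AddCommGroup X] [Module ℚ X] [AddCommGroup Y] [Module ℚ Y]
  {P : RootPairing ι ℚ X Y} [P.IsRootSystem] [P.IsCrystallographic] [P.IsReduced]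
  {b : P.Base} {f : ι → ℤ} {D : ℤ} {p : ℕ} [Fact p.Prime]
  {L : Type*} [LieRing L] [LieAlgebra ℤ_[p] L]
  {Lp : Type*} [LieRing Lp] [LieAlgebra (ZMod p) Lp]

theorem central_part [P.IsIrreducible] (hG : Good b f D p)
    {B : ChevalleyBasis b ℤ_[p] L} {Bp : ChevalleyBasis b (ZMod p) Lp} {red : L →+ Lp}
    (hR : RedData B Bp red) {Γ : Type*} [Group Γ] (Ad : Γ →* Module.End ℤ_[p] L)
    (hx : ∀ α t, ∃ g, Ad g = B.x α t) (hlie : ∀ g x y, Ad g ⁅x, y⁆ = ⁅Ad g x, Ad g y⁆)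
    (hel : ∀ g, redEnd B Bp red (Ad g) ∈ Bp.elem)
    (hcen : ∀ c ∈ Ad.ker, ∀ g, c * g = g * c)
    {E : Type*} [Group E] (π : E →* Γ) (hπ : Function.Surjective π)
    (j : Lp → E) (hj : ∀ x y, j (x + y) = j x * j y) (hjinj : Function.Injective j)
    (hjM : ∀ g, π g = 1 ↔ ∃ x, j x = g)
    (hjc : ∀ g x, g * j x * g⁻¹ = j (redEnd B Bp red (Ad (π g)) x))
    (NE : Subgroup E) (hNEn : NE.Normal) (hNEj : ∀ x, j x ∈ NE → x = 0)
    (n₀ : ℕ) (h1 : 1 ≤ n₀)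
    (hn₀ : ∀ g : Γ, CongMod p n₀ (Ad g) 1 → ∃ c ∈ Ad.ker, ∃ ν ∈ NE, g = c * π ν)
    (n : E) (hn : π n ∈ Ad.ker) : ∃ x, ∀ g, g * (n * j x) = (n * j x) * g := by
  refine central_part_aux hG hR Ad hx hlie hcen π hπ j hj hjinj hjM hjc NE hNEn hNEj n₀ h1 hn₀
    ?_ n hn
  intro ρ hρ φ hφ hφk
  refine Bp.h1_zero hG ρ (fun g => by rw [hρ]; exact hel _) (fun α => ?_) φ hφ hφk
  obtain ⟨γ, hγ⟩ := hx α 1
  obtain ⟨e, rfl⟩ := hπ γ
  exact ⟨e, by rw [hρ, hγ, hR.redEnd_x hG, map_one]⟩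

end Ch4
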