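import Mathlib
import Pool.Agent.Lib.P4ba0d5.Defs
import Pool.Agent.Lib.P4ba0d5.Base
import Pool.Agent.Lib.P4ba0d5.BC

/-! The Chevalley group scheme of a representation of a Chevalley Lie algebra `LZ` over `ℤ` is defined
in `Defs.lean`. -/

set_option linter.unusedSectionVars false
set_option linter.unusedVariables false

namespace Ch4

open Module

variable {ι X Y : Type*} [Fintype ι] [DecidableEq ι] [AddCommGroup X] [Module ℚ X] [AddCommGroup Y]
  [Module ℚ Y] {P : RootPairing ι ℚ X Y} [P.IsRootSystem] [P.IsCrystallographic] [P.IsReduced]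
  {b : P.Base} {LZ : Type*} [LieRing LZ]

theorem adMat_eq (B : ChevalleyBasis b ℤ LZ) (x : LZ) :
    adMat B x = LinearMap.toMatrix B.basis B.basis (LieAlgebra.ad ℤ LZ x) := by
  ext i j
  simp [adMat, LinearMap.toMatrix_apply]

end Ch4
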