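import Mathlib
import Pool.Agent.Lib.P4ba0d5.Base
import Pool.Agent.Lib.P4ba0d5.BC
import Pool.Agent.Lib.P4ba0d5.Scheme

/-! Relations satisfied by the Chevalley group over `ℚ`. -/

set_option linter.unusedSectionVars false
set_option linter.unusedVariables false

namespace Ch4

open Module

section Gen

variable {n κ : Type*} [Fintype n] [DecidableEq n] [Fintype κ] [DecidableEq κ]

theorem det_one_add_nil {M : Matrix n n ℚ} (hM : IsNilpotent M) : (1 + M).det = 1 := by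
  have h1 := Matrix.isNilpotent_charpoly_sub_pow_of_isNilpotent hM.neg
  have h2 : (-M).charpoly = Polynomial.X ^ Fintype.card n := sub_eq_zero.mp h1.eq_zero
  have h3 := Matrix.eval_charpoly (-M) (1 : ℚ)
  rw [h2] at h3
  simpa using h3.symm

theorem det_exp_nil {M : Matrix n n ℚ} (hM : IsNilpotent M) : (IsNilpotent.exp M).det = 1 := by
  have := det_one_add_nil (IsNilpotent.isNilpotent_exp_sub_one hM)
  rwa [add_sub_cancel] at this

theorem adj_exp_nil {M : Matrix n n ℚ} (hM : IsNilpotent M) :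
    (IsNilpotent.exp M).adjugate = IsNilpotent.exp (-M) := by
  have h1 : (IsNilpotent.exp M).adjugate * (IsNilpotent.exp M * IsNilpotent.exp (-M)) =
      IsNilpotent.exp (-M) := by
    rw [← mul_assoc, Matrix.adjugate_mul, det_exp_nil hM, one_smul, one_mul]
  rwa [IsNilpotent.exp_mul_exp_neg_self hM, mul_one] at h1

/-- a matrix `N` with `[H, N] = 2 N` is nilpotent. -/
theorem nilpotent_of_lie {H N : Matrix n n ℚ} (h : H * N - N * H = 2 • N) : IsNilpotent N := by
  by_contra hN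
  have h1 : ∀ k : ℕ, H * N ^ k - N ^ k * H = (2 * k : ℚ) • N ^ k := by
    intro k
    induction k with
    | zero => simp
    | succ k ih =>
      have e1 : H * N ^ (k + 1) - N ^ (k + 1) * H =
        (H * N ^ k - N ^ k * H) * N + N ^ k * (H * N - N * H) := by
        rw [pow_succ]; noncomm_ring
      rw [e1, ih, h, smul_mul_assoc, ← pow_succ, mul_smul_comm, ← pow_succ]
      push_cast
      module
  let adH : Module.End ℚ (Matrix n n ℚ) := LinearMap.mulLeft ℚ H - LinearMap.mulRight ℚ H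
  have h2 := adH.eigenvectors_linearIndependent' (fun k : ℕ => (2 * k : ℚ))
    (fun a b hab => by
      have : (a : ℚ) = b := by
        have := hab
        simp only at this
        linarith
      exact_mod_cast this) (fun k => N ^ k) (fun k => by
      rw [Module.End.hasEigenvector_iff, Module.End.mem_eigenspace_iff]
      refine ⟨?_, ?_⟩
      · simpa [adH] using h1 k
      · intro h0
        exact hN ⟨k, h0⟩)
  have := h2.finite
  exact not_finite ℕ

/-- exponentials and representations: if `[N, Φ v] = Φ (M v)` then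
`exp(N) Φ(v) = Φ(exp(M) v) exp(N)`. -/
theorem exp_intertwine {N : Matrix n n ℚ} {M : Matrix κ κ ℚ} (hN : IsNilpotent N)
    (hM : IsNilpotent M) (Φ : (κ → ℚ) →ₗ[ℚ] Matrix n n ℚ)
    (h : ∀ v, N * Φ v - Φ v * N = Φ (M.mulVec v)) (v : κ → ℚ) :
    IsNilpotent.exp N * Φ v = Φ ((IsNilpotent.exp M).mulVec v) * IsNilpotent.exp N := by
  obtain ⟨k, hk⟩ := hN
  let Lf : Module.End ℚ (Matrix n n ℚ) := LinearMap.mulLeft ℚ N
  let Rf : Module.End ℚ (Matrix n n ℚ) := LinearMap.mulRight ℚ N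
  have hLn : Lf ^ k = 0 := by
    show (LinearMap.mulLeft ℚ N) ^ k = 0
    rw [LinearMap.pow_mulLeft, hk]; ext; simp
  have hRn : Rf ^ k = 0 := by
    show (LinearMap.mulRight ℚ N) ^ k = 0
    rw [LinearMap.pow_mulRight, hk]; ext; simp
  have hcomm : Commute Lf Rf := by
    ext A : 1
    simp [Lf, Rf, mul_assoc]
  have hadn : IsNilpotent (Lf - Rf) := hcomm.isNilpotent_sub ⟨k, hLn⟩ ⟨k, hRn⟩
  have hexpL : ∀ A, IsNilpotent.exp Lf A = IsNilpotent.exp N * A := by
    intro A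
    rw [IsNilpotent.exp_eq_sum hLn, IsNilpotent.exp_eq_sum hk, LinearMap.sum_apply, Finset.sum_mul]
    refine Finset.sum_congr rfl fun i _ => ?_
    rw [LinearMap.smul_apply, smul_mul_assoc]
    show _ • ((LinearMap.mulLeft ℚ N) ^ i) A = _
    rw [LinearMap.pow_mulLeft]; rfl
  have hexpR : ∀ A, IsNilpotent.exp Rf A = A * IsNilpotent.exp N := by
    intro A
    rw [IsNilpotent.exp_eq_sum hRn, IsNilpotent.exp_eq_sum hk, LinearMap.sum_apply, Finset.mul_sum]
    refine Finset.sum_congr rfl fun i _ => ?_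
    rw [LinearMap.smul_apply, mul_smul_comm]
    show _ • ((LinearMap.mulRight ℚ N) ^ i) A = _
    rw [LinearMap.pow_mulRight]; rfl
  have hMn : IsNilpotent (Matrix.toLinAlgEquiv' M : (κ → ℚ) →ₗ[ℚ] (κ → ℚ)) :=
    hM.map (Matrix.toLinAlgEquiv' : Matrix κ κ ℚ ≃ₐ[ℚ] _)
  have hexpM : IsNilpotent.exp (Matrix.toLinAlgEquiv' M : (κ → ℚ) →ₗ[ℚ] (κ → ℚ)) =
      Matrix.toLinAlgEquiv' (IsNilpotent.exp M) :=
    (IsNilpotent.map_exp hM (Matrix.toLinAlgEquiv' : Matrix κ κ ℚ ≃ₐ[ℚ] _)).symm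
  have had : IsNilpotent.exp (Lf - Rf) ∘ₗ Φ =
      Φ ∘ₗ IsNilpotent.exp (Matrix.toLinAlgEquiv' M : (κ → ℚ) →ₗ[ℚ] (κ → ℚ)) := by
    apply Module.End.commute_exp_left_of_commute hMn hadn
    apply LinearMap.ext
    intro w
    show N * Φ w - Φ w * N = Φ (Matrix.toLinAlgEquiv' M w)
    rw [h w, Matrix.toLinAlgEquiv'_apply]
  have h3 : IsNilpotent.exp Lf = IsNilpotent.exp Rf * IsNilpotent.exp (Lf - Rf) := by
    rw [← IsNilpotent.exp_add_of_commute (hcomm.symm.sub_right (Commute.refl _)) ⟨k, hRn⟩ hadn,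
      add_sub_cancel]
  rw [← hexpL, h3, Module.End.mul_apply, hexpR]
  congr 1
  have := LinearMap.congr_fun had v
  rw [LinearMap.comp_apply, LinearMap.comp_apply, hexpM] at this
  rw [this, Matrix.toLinAlgEquiv'_apply]

/-- An endomorphism with matrix `a` preserves a Lie bracket with structure constants `c` iff
`Σ_w c(u,v,w) a(k,w) = Σ_{i,j} a(i,u) a(j,v) c(i,j,k)`. -/
theorem lie_iff_coords {R V : Type*} [CommRing R] [LieRing V] [LieAlgebra R V] (bs : Basis κ R V)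
    (a : Matrix κ κ R) (c : κ → κ → κ → R) (hc : ∀ u v k, bs.repr ⁅bs u, bs v⁆ k = c u v k) :
    (∀ x y, Matrix.toLin bs bs a ⁅x, y⁆ = ⁅Matrix.toLin bs bs a x, Matrix.toLin bs bs a y⁆) ↔
      ∀ u v k, ∑ w, c u v w * a k w = ∑ i, ∑ j, a i u * a j v * c i j k := by
  have hbr : ∀ u v, ⁅bs u, bs v⁆ = ∑ w, c u v w • bs w := by
    intro u v
    rw [← bs.sum_repr ⁅bs u, bs v⁆]
    simp only [hc]
  have hl : ∀ u v k, bs.repr (Matrix.toLin bs bs a ⁅bs u, bs v⁆) k = ∑ w, c u v w * a k w := by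
    intro u v k
    rw [hbr, map_sum, map_sum, Finsupp.finsetSum_apply]
    refine Finset.sum_congr rfl fun w _ => ?_
    rw [map_smul, map_smul, Finsupp.smul_apply, Matrix.toLin_self, smul_eq_mul, map_sum,
      Finsupp.finsetSum_apply, Finset.sum_eq_single k]
    · simp
    · intro w' _ hw'
      rw [map_smul, bs.repr_self, Finsupp.smul_single, Finsupp.single_apply, if_neg hw']
    · intro h; exact absurd (Finset.mem_univ _) h
  have hr : ∀ u v k, bs.repr ⁅Matrix.toLin bs bs a (bs u), Matrix.toLin bs bs a (bs v)⁆ k =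
      ∑ i, ∑ j, a i u * a j v * c i j k := by
    intro u v k
    rw [Matrix.toLin_self, Matrix.toLin_self, _root_.sum_lie, map_sum, Finsupp.finsetSum_apply]
    refine Finset.sum_congr rfl fun i _ => ?_
    rw [_root_.lie_sum, map_sum, Finsupp.finsetSum_apply]
    refine Finset.sum_congr rfl fun j _ => ?_
    rw [smul_lie, lie_smul, map_smul, map_smul, Finsupp.smul_apply, Finsupp.smul_apply,
      hc, smul_eq_mul, smul_eq_mul, mul_assoc]
  constructor
  · intro h u v k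
    rw [← hl, ← hr, h]
  · intro h x y
    have h1 : ∀ u v, Matrix.toLin bs bs a ⁅bs u, bs v⁆ =
        ⁅Matrix.toLin bs bs a (bs u), Matrix.toLin bs bs a (bs v)⁆ := by
      intro u v
      apply bs.repr.injective
      ext k
      rw [hl, hr, h]
    have h2 : ∀ u y, Matrix.toLin bs bs a ⁅bs u, y⁆ =
        ⁅Matrix.toLin bs bs a (bs u), Matrix.toLin bs bs a y⁆ := by
      intro u y
      rw [← bs.sum_repr y, _root_.lie_sum, map_sum, map_sum, _root_.lie_sum]
      refine Finset.sum_congr rfl fun v _ => ?_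
      rw [lie_smul, map_smul, map_smul, lie_smul, h1]
    rw [← bs.sum_repr x, _root_.sum_lie, map_sum, map_sum, _root_.sum_lie]
    refine Finset.sum_congr rfl fun u _ => ?_
    rw [smul_lie, map_smul, map_smul, smul_lie, h2]

end Gen

variable {ι X Y : Type*} [Fintype ι] [DecidableEq ι] [AddCommGroup X] [Module ℚ X] [AddCommGroup Y]
  [Module ℚ Y] {P : RootPairing ι ℚ X Y} [P.IsRootSystem] [P.IsCrystallographic] [P.IsReduced]
  {b : P.Base} {LZ : Type*} [LieRing LZ]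
  (B : ChevalleyBasis b ℤ LZ) {n : Type*} [Fintype n] [DecidableEq n]
  (ρ : LZ →+ Matrix n n ℤ)

theorem matQ_add {n : Type*} (A C : Matrix n n ℤ) : matQ (A + C) = matQ A + matQ C := by
  ext i j; simp [matQ]

theorem matQ_sub {n : Type*} (A C : Matrix n n ℤ) : matQ (A - C) = matQ A - matQ C := by
  ext i j; simp [matQ]

theorem matQ_mul {n : Type*} [Fintype n] (A C : Matrix n n ℤ) : matQ (A * C) = matQ A * matQ C := by
  ext i j; simp [matQ, Matrix.mul_apply]

theorem matQ_zsmul {n : Type*} (c : ℤ) (A : Matrix n n ℤ) : matQ (c • A) = (c : ℚ) • matQ A := by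
  ext i j; simp [matQ]

theorem matQ_sum {n κ : Type*} (s : Finset κ) (A : κ → Matrix n n ℤ) :
    matQ (∑ k ∈ s, A k) = ∑ k ∈ s, matQ (A k) := by
  ext i j; simp [matQ, Matrix.sum_apply]

theorem matQ_pow {n : Type*} [Fintype n] [DecidableEq n] (A : Matrix n n ℤ) (k : ℕ) :
    matQ (A ^ k) = matQ A ^ k := by
  simp only [matQ]
  exact map_pow ((Int.castRingHom ℚ).mapMatrix) A k

theorem matQ_zero {n : Type*} : matQ (0 : Matrix n n ℤ) = 0 := by
  ext i j; simp [matQ]

/-- `ρ(e_α)` is nilpotent: `H = ρ(h_α)` satisfies `[H, N] = 2N`, so `[H, N^k] = 2k N^k`; if no power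
of `N` vanished, `ad H` would have infinitely many eigenvalues. -/
theorem nilpotent_rho (hρ : ∀ x y, ρ ⁅x, y⁆ = ρ x * ρ y - ρ y * ρ x) (α : ι) :
    IsNilpotent (matQ (ρ (B.e α))) := by
  apply nilpotent_of_lie (H := matQ (ρ (B.hc α)))
  rw [← matQ_mul, ← matQ_mul, ← matQ_sub, ← hρ, B.lie_hc]
  have : P.pairingIn ℤ α α = 2 := by
    simp
  rw [this]
  have e : ρ (((2 : ℤ) : ℤ) • B.e α) = (2 : ℤ) • ρ (B.e α) := map_zsmul ρ _ _
  rw [Int.cast_id, e, matQ_zsmul]
  push_cast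
  module

/-- from `ad_e_pow_four` -/
theorem adMat_pow_four (α : ι) : (adMat B (B.e α)) ^ 4 = 0 := by
  rw [adMat_eq, LinearMap.toMatrix_pow, B.ad_e_pow_four, map_zero]

theorem matQ_adMat_nil (α : ι) (t : ℚ) : (t • matQ (adMat B (B.e α))) ^ 4 = 0 := by
  rw [smul_pow, ← matQ_pow, adMat_pow_four, matQ_zero, smul_zero]

theorem smul_rho_nil (hρ : ∀ x y, ρ ⁅x, y⁆ = ρ x * ρ y - ρ y * ρ x) (α : ι) (t : ℚ) :
    IsNilpotent (t • matQ (ρ (B.e α))) :=
  (nilpotent_rho B ρ hρ α).smul t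

theorem det_chevQ (hρ : ∀ x y, ρ ⁅x, y⁆ = ρ x * ρ y - ρ y * ρ x)
    (q : MatPair n (b.support ⊕ ι) ℚ) (hq : q ∈ chevQ B ρ) : q.1.det = 1 ∧ q.2.det = 1 := by
  induction hq using Submonoid.closure_induction with
  | mem q hq =>
    obtain ⟨⟨α, t⟩, rfl⟩ := hq
    exact ⟨det_exp_nil (smul_rho_nil B ρ hρ α t), det_exp_nil ⟨4, matQ_adMat_nil B α t⟩⟩
  | one => exact ⟨Matrix.det_one, Matrix.det_one⟩
  | mul q₁ q₂ _ _ ih₁ ih₂ =>
    rw [Prod.fst_mul, Prod.snd_mul, Matrix.det_mul, Matrix.det_mul, ih₁.1, ih₁.2, ih₂.1, ih₂.2]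
    simp

theorem rootPair_adj (hρ : ∀ x y, ρ ⁅x, y⁆ = ρ x * ρ y - ρ y * ρ x) (α : ι) (t : ℚ) :
    ((rootPair B ρ α t).1.adjugate, (rootPair B ρ α t).2.adjugate) = rootPair B ρ α (-t) := by
  rw [rootPair, rootPair, adj_exp_nil (smul_rho_nil B ρ hρ α t),
    adj_exp_nil ⟨4, matQ_adMat_nil B α t⟩, neg_smul, neg_smul]

/-- `chevQ` is closed under inverses (= adjugates as the determinants are 1). -/
theorem adj_chevQ (hρ : ∀ x y, ρ ⁅x, y⁆ = ρ x * ρ y - ρ y * ρ x)
    (q : MatPair n (b.support ⊕ ι) ℚ) (hq : q ∈ chevQ B ρ) :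
    (q.1.adjugate, q.2.adjugate) ∈ chevQ B ρ := by
  induction hq using Submonoid.closure_induction with
  | mem q hq =>
    obtain ⟨⟨α, t⟩, rfl⟩ := hq
    show ((rootPair B ρ α t).1.adjugate, (rootPair B ρ α t).2.adjugate) ∈ chevQ B ρ
    rw [rootPair_adj B ρ hρ]
    exact Submonoid.subset_closure ⟨(α, -t), rfl⟩
  | one =>
    rw [Prod.fst_one, Prod.snd_one, Matrix.adjugate_one, Matrix.adjugate_one]
    exact one_mem _
  | mul q₁ q₂ _ _ ih₁ ih₂ =>
    rw [Prod.fst_mul, Prod.snd_mul, Matrix.adjugate_mul_distrib, Matrix.adjugate_mul_distrib]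
    exact mul_mem ih₂ ih₁

/-- the representation on coordinates -/
noncomputable def rhoQ : (b.support ⊕ ι → ℚ) →ₗ[ℚ] Matrix n n ℚ where
  toFun v := ∑ k, v k • matQ (ρ (B.basis k))
  map_add' v w := by simp only [Pi.add_apply, add_smul, Finset.sum_add_distrib]
  map_smul' c v := by simp only [Pi.smul_apply, smul_eq_mul, mul_smul, Finset.smul_sum,
    RingHom.id_apply]

theorem rhoQ_apply (v : b.support ⊕ ι → ℚ) : rhoQ B ρ v = ∑ k, v k • matQ (ρ (B.basis k)) := rfl

theorem matQ_rho_eq (x : LZ) : matQ (ρ x) = ∑ k, (B.basis.repr x k : ℚ) • matQ (ρ (B.basis k)) := by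
  conv_lhs => rw [← B.basis.sum_repr x]
  rw [map_sum]
  have : ∀ k, ρ (B.basis.repr x k • B.basis k) = B.basis.repr x k • ρ (B.basis k) := fun k =>
    map_zsmul ρ _ _
  simp only [this]
  rw [matQ_sum]
  simp only [matQ_zsmul]

theorem rho_comm (hρ : ∀ x y, ρ ⁅x, y⁆ = ρ x * ρ y - ρ y * ρ x) (x : LZ) (t : ℚ)
    (v : b.support ⊕ ι → ℚ) :
    (t • matQ (ρ x)) * rhoQ B ρ v - rhoQ B ρ v * (t • matQ (ρ x)) =
      rhoQ B ρ ((t • matQ (adMat B x)).mulVec v) := by
  have h1 : ∀ k, matQ (ρ x) * matQ (ρ (B.basis k)) - matQ (ρ (B.basis k)) * matQ (ρ x) =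
      ∑ l, (matQ (adMat B x) l k) • matQ (ρ (B.basis l)) := by
    intro k
    rw [← matQ_mul, ← matQ_mul, ← matQ_sub, ← hρ, matQ_rho_eq B ρ]
    refine Finset.sum_congr rfl fun l _ => ?_
    simp [matQ, adMat_eq, LinearMap.toMatrix_apply]
  have h2 : ∀ l, ((t • matQ (adMat B x)).mulVec v) l = t * ∑ k, matQ (adMat B x) l k * v k := by
    intro l
    rw [Matrix.smul_mulVec, Pi.smul_apply, smul_eq_mul]; rfl
  rw [rhoQ_apply, rhoQ_apply]
  calc (t • matQ (ρ x)) * (∑ k, v k • matQ (ρ (B.basis k)))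
        - (∑ k, v k • matQ (ρ (B.basis k))) * (t • matQ (ρ x))
      = t • ∑ k, v k • (matQ (ρ x) * matQ (ρ (B.basis k)) - matQ (ρ (B.basis k)) * matQ (ρ x)) := by
        rw [Finset.mul_sum, Finset.sum_mul, ← Finset.sum_sub_distrib, Finset.smul_sum]
        refine Finset.sum_congr rfl fun k _ => ?_
        rw [smul_mul_smul_comm, smul_mul_smul_comm, mul_comm (v k) t, ← smul_sub, smul_smul]
    _ = t • ∑ k, v k • ∑ l, (matQ (adMat B x) l k) • matQ (ρ (B.basis l)) := by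
        simp only [h1]
    _ = ∑ l, ((t • matQ (adMat B x)).mulVec v) l • matQ (ρ (B.basis l)) := by
        simp only [h2, Finset.smul_sum, Finset.mul_sum, Finset.sum_smul]
        rw [Finset.sum_comm]
        refine Finset.sum_congr rfl fun l _ => Finset.sum_congr rfl fun k _ => ?_
        rw [smul_smul, smul_smul]
        congr 1; ring

/-- `g ρ(x) = ρ(a x) g` for `(g, a)` in the Chevalley group, `x` a basis vector. For root elements:
`exp(N) A exp(-N) = exp(ad N) A` for `N = t ρ(e_α)`, `A = ρ(x)`. -/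
theorem intertwine_chevQ (hρ : ∀ x y, ρ ⁅x, y⁆ = ρ x * ρ y - ρ y * ρ x)
    (q : MatPair n (b.support ⊕ ι) ℚ) (hq : q ∈ chevQ B ρ) (u : b.support ⊕ ι) :
    q.1 * matQ (ρ (B.basis u)) = (∑ k, q.2 k u • matQ (ρ (B.basis k))) * q.1 := by
  have key : ∀ v, q.1 * rhoQ B ρ v = rhoQ B ρ (q.2.mulVec v) * q.1 := by
    clear u
    induction hq using Submonoid.closure_induction with
    | mem q hq =>
      obtain ⟨⟨α, t⟩, rfl⟩ := hq
      exact exp_intertwine (smul_rho_nil B ρ hρ α t) ⟨4, matQ_adMat_nil B α t⟩ (rhoQ B ρ)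
        (rho_comm B ρ hρ (B.e α) t)
    | one => intro v; simp
    | mul q₁ q₂ _ _ ih₁ ih₂ =>
      intro v
      rw [Prod.fst_mul, Prod.snd_mul, mul_assoc, ih₂, ← mul_assoc, ih₁, mul_assoc,
        Matrix.mulVec_mulVec]
  have h1 := key (Pi.single u 1)
  have e1 : rhoQ B ρ (Pi.single u 1) = matQ (ρ (B.basis u)) := by
    rw [rhoQ_apply, Finset.sum_eq_single u]
    · simp
    · intro k _ hk; rw [Pi.single_eq_of_ne hk, zero_smul]
    · intro h; exact absurd (Finset.mem_univ _) h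
  rw [e1, rhoQ_apply] at h1
  rw [h1]
  congr 1
  refine Finset.sum_congr rfl fun k _ => ?_
  rw [Matrix.mulVec_single_one]
  rfl

/-! ### the adjoint part -/

open scoped TensorProduct

theorem repr_baseChange_lie (R : Type*) [CommRing R] (u v k : b.support ⊕ ι) :
    (B.baseChange R).basis.repr ⁅(B.baseChange R).basis u, (B.baseChange R).basis v⁆ k =
      ((B.basis.repr ⁅B.basis u, B.basis v⁆ k : ℤ) : R) := by
  show (B.basis.baseChange R).repr ⁅B.basis.baseChange R u, B.basis.baseChange R v⁆ k = _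
  rw [Basis.baseChange_apply, Basis.baseChange_apply, LieAlgebra.ExtendScalars.bracket_tmul,
    Basis.baseChange_repr_tmul]
  simp

theorem toLin_adMat (α : ι) :
    Matrix.toLin (B.baseChange ℚ).basis (B.baseChange ℚ).basis (matQ (adMat B (B.e α))) =
      LieAlgebra.ad ℚ (ℚ ⊗[ℤ] LZ) ((B.baseChange ℚ).e α) := by
  apply (LinearMap.toMatrix (B.baseChange ℚ).basis (B.baseChange ℚ).basis).injective
  rw [LinearMap.toMatrix_toLin]
  ext k u
  rw [LinearMap.toMatrix_apply, LieAlgebra.ad_apply, repr_baseChange_lie]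
  simp [matQ, adMat_eq, LinearMap.toMatrix_apply]

theorem toLin_exp_ad (α : ι) (t : ℚ) :
    Matrix.toLin (B.baseChange ℚ).basis (B.baseChange ℚ).basis
      (IsNilpotent.exp (t • matQ (adMat B (B.e α)))) = (B.baseChange ℚ).x α t := by
  have h1 := IsNilpotent.exp_eq_sum (matQ_adMat_nil B α t)
  rw [h1, ChevalleyBasis.x, expNil, map_sum]
  refine Finset.sum_congr rfl fun k _ => ?_
  rw [map_smul, Ring.inverse_eq_inv', map_smul (LieAlgebra.ad ℚ (ℚ ⊗[ℤ] LZ)), ← toLin_adMat]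
  rw [Matrix.toLin_pow, map_smul (Matrix.toLin (B.baseChange ℚ).basis (B.baseChange ℚ).basis)]

theorem lie_toLin_chevQ (q : MatPair n (b.support ⊕ ι) ℚ) (hq : q ∈ chevQ B ρ)
    (x y : ℚ ⊗[ℤ] LZ) :
    Matrix.toLin (B.baseChange ℚ).basis (B.baseChange ℚ).basis q.2 ⁅x, y⁆ =
      ⁅Matrix.toLin (B.baseChange ℚ).basis (B.baseChange ℚ).basis q.2 x,
       Matrix.toLin (B.baseChange ℚ).basis (B.baseChange ℚ).basis q.2 y⁆ := by
  induction hq using Submonoid.closure_induction generalizing x y with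
  | mem q hq =>
    obtain ⟨⟨α, t⟩, rfl⟩ := hq
    show Matrix.toLin (B.baseChange ℚ).basis (B.baseChange ℚ).basis
        (IsNilpotent.exp (t • matQ (adMat B (B.e α)))) ⁅x, y⁆ =
      ⁅Matrix.toLin (B.baseChange ℚ).basis (B.baseChange ℚ).basis
        (IsNilpotent.exp (t • matQ (adMat B (B.e α)))) x,
       Matrix.toLin (B.baseChange ℚ).basis (B.baseChange ℚ).basis
        (IsNilpotent.exp (t • matQ (adMat B (B.e α)))) y⁆
    rw [toLin_exp_ad]
    exact (B.baseChange ℚ).x_lie (by norm_num) α t x y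
  | one => simp
  | mul q₁ q₂ _ _ ih₁ ih₂ =>
    rw [Prod.snd_mul, Matrix.toLin_mul (B.baseChange ℚ).basis (B.baseChange ℚ).basis
      (B.baseChange ℚ).basis]
    simp only [LinearMap.comp_apply, ih₁, ih₂]

/-- the second component is a Lie algebra endomorphism, in coordinates: the left hand side is the
`k`-th coordinate of `a [u, v]`, the right hand side of `[a u, a v]`. -/
theorem lie_chevQ (q : MatPair n (b.support ⊕ ι) ℚ) (hq : q ∈ chevQ B ρ)
    (u v k : b.support ⊕ ι) :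
    ∑ w, (B.basis.repr ⁅B.basis u, B.basis v⁆ w : ℚ) * q.2 k w =
      ∑ i, ∑ j, q.2 i u * q.2 j v * (B.basis.repr ⁅B.basis i, B.basis j⁆ k : ℚ) := by
  exact (lie_iff_coords (B.baseChange ℚ).basis q.2 _ (repr_baseChange_lie B ℚ)).mp
    (lie_toLin_chevQ B ρ q hq) u v k

end Ch4
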