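import Mathlib

/-! # Polynomials vanishing on a set of rational points vanish on the integral points of its closure -/

set_option linter.unusedSectionVars false
set_option linter.unusedVariables false

namespace Ch4

open MvPolynomial

/-- clearing denominators of a polynomial over `ℚ` -/
theorem Flat.exists_clear {σ : Type*} (F : MvPolynomial σ ℚ) :
    ∃ (N : ℤ) (G : MvPolynomial σ ℤ), N ≠ 0 ∧ C (N : ℚ) * F = map (Int.castRingHom ℚ) G := by
  induction F using MvPolynomial.induction_on with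
  | C a =>
    refine ⟨a.den, C a.num, by exact_mod_cast a.den_nz, ?_⟩
    rw [map_C, ← C_mul]
    congr 1
    have := Rat.mul_den_eq_num a
    rw [mul_comm] at this
    push_cast
    simp
  | add p q hp hq =>
    obtain ⟨N₁, G₁, h₁, e₁⟩ := hp
    obtain ⟨N₂, G₂, h₂, e₂⟩ := hq
    refine ⟨N₁ * N₂, C N₂ * G₁ + C N₁ * G₂, mul_ne_zero h₁ h₂, ?_⟩
    rw [map_add, map_mul, map_mul, map_C, map_C, ← e₁, ← e₂]
    push_cast
    simp only [C_mul, eq_intCast]
    ring
  | mul_X p i hp =>
    obtain ⟨N, G, h, e⟩ := hp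
    refine ⟨N, G * X i, h, ?_⟩
    rw [map_mul, map_X, ← e]
    ring

/-- Polynomials over `ℤ_p` vanishing on a set of rational points vanish at all `ℤ_p`-points of the
schematic closure of this set. -/
theorem flat_eval (p : ℕ) [Fact p.Prime] {σ : Type*} (S : Set (σ → ℚ)) (q : σ → ℤ_[p])
    (hq : ∀ F : MvPolynomial σ ℤ, (∀ s ∈ S, MvPolynomial.aeval s F = 0) →
      MvPolynomial.aeval q F = 0)
    (F : MvPolynomial σ ℤ_[p])
    (hF : ∀ s ∈ S, MvPolynomial.eval₂ (algebraMap ℤ_[p] ℚ_[p]) (fun i => ((s i : ℚ) : ℚ_[p])) F = 0) :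
    MvPolynomial.eval q F = 0 := by
  classical
  -- rational polynomials
  have hQ : ∀ G : MvPolynomial σ ℚ, (∀ s ∈ S, eval s G = 0) →
      eval₂ (algebraMap ℚ ℚ_[p]) (fun i => (algebraMap ℤ_[p] ℚ_[p] (q i))) G = 0 := by
    intro G hG
    obtain ⟨N, G', hN, e⟩ := Flat.exists_clear G
    have h1 : aeval q G' = 0 := by
      apply hq
      intro s hs
      have h2 : eval s (map (Int.castRingHom ℚ) G') = 0 := by
        rw [← e, map_mul, hG s hs, mul_zero]
      rw [eval_map] at h2
      rw [aeval_def]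
      have h6 : algebraMap ℤ ℚ = Int.castRingHom ℚ := RingHom.ext_int _ _
      rw [h6]
      exact h2
    have h3 : eval₂ (algebraMap ℚ ℚ_[p]) (fun i => (algebraMap ℤ_[p] ℚ_[p] (q i)))
        (C (N : ℚ) * G) = 0 := by
      rw [e, eval₂_map]
      have h4 := congrArg (algebraMap ℤ_[p] ℚ_[p]) h1
      rw [map_zero, aeval_def, eval₂_comp_left] at h4
      have h5 : (algebraMap ℚ ℚ_[p]).comp (Int.castRingHom ℚ)
          = (algebraMap ℤ_[p] ℚ_[p]).comp (algebraMap ℤ ℤ_[p]) := RingHom.ext_int _ _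
      rw [h5]
      exact h4
    rw [eval₂_mul, eval₂_C] at h3
    refine (mul_eq_zero.1 h3).resolve_left ?_
    intro h6
    rw [map_eq_zero] at h6
    exact hN (by exact_mod_cast h6)
  -- decomposition of the coefficients in a basis
  let b := Module.Basis.ofVectorSpace ℚ ℚ_[p]
  let cf : (σ →₀ ℕ) → ℚ_[p] := fun m => algebraMap ℤ_[p] ℚ_[p] (coeff m F)
  let Fk : (Module.Basis.ofVectorSpaceIndex ℚ ℚ_[p]) → MvPolynomial σ ℚ :=
    fun k => ∑ m ∈ F.support, monomial m (b.coord k (cf m))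
  have hFk : ∀ k, ∀ s ∈ S, eval s (Fk k) = 0 := by
    intro k s hs
    have h1 : eval s (Fk k) = b.coord k (∑ m ∈ F.support, (∏ i ∈ m.support, s i ^ m i) • cf m) := by
      simp only [Fk]
      rw [map_sum, map_sum]
      refine Finset.sum_congr rfl fun m _ => ?_
      rw [eval_monomial, map_smul, smul_eq_mul, mul_comm]
      rfl
    rw [h1]
    have h2 : ∑ m ∈ F.support, (∏ i ∈ m.support, s i ^ m i) • cf m
        = eval₂ (algebraMap ℤ_[p] ℚ_[p]) (fun i => ((s i : ℚ) : ℚ_[p])) F := by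
      rw [eval₂_eq]
      refine Finset.sum_congr rfl fun m _ => ?_
      rw [Algebra.smul_def, mul_comm]
      congr 1
      rw [map_prod]
      refine Finset.prod_congr rfl fun i _ => ?_
      rw [map_pow]
      rfl
    rw [h2, hF s hs, map_zero]
  have hFkq : ∀ k, eval₂ (algebraMap ℚ ℚ_[p]) (fun i => (algebraMap ℤ_[p] ℚ_[p] (q i))) (Fk k) = 0 :=
    fun k => hQ (Fk k) (hFk k)
  let K : Finset (Module.Basis.ofVectorSpaceIndex ℚ ℚ_[p]) :=
    F.support.biUnion fun m => (b.repr (cf m)).support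
  have hcf : ∀ m ∈ F.support, cf m = ∑ k ∈ K, algebraMap ℚ ℚ_[p] (b.coord k (cf m)) * b k := by
    intro m hm
    conv_lhs => rw [← b.linearCombination_repr (cf m)]
    rw [Finsupp.linearCombination_apply, Finsupp.sum_of_support_subset (s := K)]
    · refine Finset.sum_congr rfl fun k _ => ?_
      rw [Algebra.smul_def]
      rfl
    · exact Finset.subset_biUnion_of_mem (fun m => (b.repr (cf m)).support) hm
    · intro i _
      simp
  have hfin : algebraMap ℤ_[p] ℚ_[p] (eval q F) = 0 := by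
    have h1 : algebraMap ℤ_[p] ℚ_[p] (eval q F)
        = ∑ m ∈ F.support, cf m * ∏ i ∈ m.support, (algebraMap ℤ_[p] ℚ_[p] (q i)) ^ m i := by
      rw [eval_eq, map_sum]
      refine Finset.sum_congr rfl fun m _ => ?_
      rw [map_mul, map_prod]
      simp only [map_pow]
      rfl
    rw [h1]
    have h2 : ∑ m ∈ F.support, cf m * ∏ i ∈ m.support, (algebraMap ℤ_[p] ℚ_[p] (q i)) ^ m i
        = ∑ k ∈ K, b k * eval₂ (algebraMap ℚ ℚ_[p]) (fun i => (algebraMap ℤ_[p] ℚ_[p] (q i))) (Fk k) := by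
      have h3 : ∀ k, eval₂ (algebraMap ℚ ℚ_[p]) (fun i => (algebraMap ℤ_[p] ℚ_[p] (q i))) (Fk k)
          = ∑ m ∈ F.support, algebraMap ℚ ℚ_[p] (b.coord k (cf m)) *
            ∏ i ∈ m.support, (algebraMap ℤ_[p] ℚ_[p] (q i)) ^ m i := by
        intro k
        simp only [Fk]
        rw [eval₂_sum]
        refine Finset.sum_congr rfl fun m _ => ?_
        rw [eval₂_monomial]
        rfl
      simp only [h3, Finset.mul_sum]
      rw [Finset.sum_comm]
      refine Finset.sum_congr rfl fun m hm => ?_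
      conv_lhs => rw [hcf m hm, Finset.sum_mul]
      refine Finset.sum_congr rfl fun k _ => ?_
      ring
    rw [h2]
    refine Finset.sum_eq_zero fun k _ => ?_
    rw [hFkq k, mul_zero]
  exact (FaithfulSMul.algebraMap_injective ℤ_[p] ℚ_[p]) (by rw [hfin, map_zero])

end Ch4
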