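import Mathlib
import Pool.Agent.Lib.P4ba0d5.Base
import Pool.Agent.Lib.P4ba0d5.BC
import Pool.Agent.Lib.P4ba0d5.Scheme
import Pool.Agent.Lib.P4ba0d5.ChevQ
import Pool.Agent.Lib.P4ba0d5.Flat

/-! Relations for the `R`-points of the Chevalley group scheme; the `ℤ_p`-points are closed under
multiplication, and the kernel of the adjoint action is central. -/

set_option linter.unusedSectionVars false
set_option linter.unusedVariables false

namespace Ch4

open Module

namespace PtsRelAux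

section Gen

variable {n m : Type*} {R S : Type*} [CommRing R] [CommRing S]

/-- all entries of a pair of matrices -/
def flatten (q : MatPair n m R) : (n × n) ⊕ (m × m) → R :=
  Sum.elim (fun ij => q.1 ij.1 ij.2) (fun ij => q.2 ij.1 ij.2)

theorem evalPair_eq (q : MatPair n m R) (F : MvPolynomial ((n × n) ⊕ (m × m)) ℤ) :
    evalPair q F = MvPolynomial.aeval (flatten q) F := rfl

theorem evalPair_map (f : R →+* S) (q : MatPair n m R)
    (F : MvPolynomial ((n × n) ⊕ (m × m)) ℤ) :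
    evalPair (q.1.map f, q.2.map f) F = f (evalPair q F) := by
  have h : ((f.toIntAlgHom : R →ₐ[ℤ] S).comp (MvPolynomial.aeval (flatten q))) =
      MvPolynomial.aeval (flatten (q.1.map f, q.2.map f)) := by
    apply MvPolynomial.algHom_ext
    intro i
    simp only [AlgHom.comp_apply, MvPolynomial.aeval_X]
    rcases i with i | i <;> rfl
  have h2 := congrArg (fun g => g F) h
  exact h2.symm

/-- the generic pair of matrices -/
noncomputable def gen (n m R : Type*) [CommRing R] :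
    MatPair n m (MvPolynomial ((n × n) ⊕ (m × m)) R) :=
  (fun i j => MvPolynomial.X (Sum.inl (i, j)), fun i j => MvPolynomial.X (Sum.inr (i, j)))

/-- evaluation at a pair, as a ring homomorphism -/
noncomputable def ev (q : MatPair n m R) : MvPolynomial ((n × n) ⊕ (m × m)) ℤ →+* R :=
  (MvPolynomial.aeval (flatten q)).toRingHom

theorem ev_apply (q : MatPair n m R) (F : MvPolynomial ((n × n) ⊕ (m × m)) ℤ) :
    ev q F = evalPair q F := rfl

theorem gen_map_fst (q : MatPair n m R) : (gen n m ℤ).1.map (ev q) = q.1 := by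
  ext i j
  show MvPolynomial.aeval (flatten q) (MvPolynomial.X (Sum.inl (i, j))) = _
  rw [MvPolynomial.aeval_X]
  rfl

theorem gen_map_snd (q : MatPair n m R) : (gen n m ℤ).2.map (ev q) = q.2 := by
  ext i j
  show MvPolynomial.aeval (flatten q) (MvPolynomial.X (Sum.inr (i, j))) = _
  rw [MvPolynomial.aeval_X]
  rfl

theorem ev_comp_cast (q : MatPair n m R) :
    (ev q).comp (Int.castRingHom _) = Int.castRingHom R := RingHom.ext_int _ _

/-- evaluation of polynomials over `R` at a pair over an `R`-algebra -/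
theorem gen_eval₂_fst (f : R →+* S) (q : MatPair n m S) :
    (gen n m R).1.map (MvPolynomial.eval₂Hom f (flatten q)) = q.1 := by
  ext i j
  show MvPolynomial.eval₂Hom f (flatten q) (MvPolynomial.X (Sum.inl (i, j))) = _
  rw [MvPolynomial.eval₂Hom_X']
  rfl

theorem gen_eval₂_snd (f : R →+* S) (q : MatPair n m S) :
    (gen n m R).2.map (MvPolynomial.eval₂Hom f (flatten q)) = q.2 := by
  ext i j
  show MvPolynomial.eval₂Hom f (flatten q) (MvPolynomial.X (Sum.inr (i, j))) = _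
  rw [MvPolynomial.eval₂Hom_X']
  rfl

theorem sum3 {κ M : Type*} [Fintype κ] [AddCommMonoid M] (f : κ → κ → κ → M) :
    ∑ i, ∑ j, ∑ k, f i j k = ∑ k, ∑ i, ∑ j, f i j k := by
  calc ∑ i, ∑ j, ∑ k, f i j k = ∑ i, ∑ k, ∑ j, f i j k :=
        Finset.sum_congr rfl fun i _ => Finset.sum_comm
    _ = ∑ k, ∑ i, ∑ j, f i j k := Finset.sum_comm

theorem toLin_lie_of_coord {κ L' : Type*} [Fintype κ] [DecidableEq κ] [LieRing L']
    [LieAlgebra R L'] (e : Basis κ R L') (c : κ → κ → κ → R)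
    (hc : ∀ u v, ⁅e u, e v⁆ = ∑ w, c u v w • e w) (A : Matrix κ κ R)
    (hA : ∀ u v k, ∑ w, c u v w * A k w = ∑ i, ∑ j, A i u * A j v * c i j k) (x y : L') :
    Matrix.toLin e e A ⁅x, y⁆ = ⁅Matrix.toLin e e A x, Matrix.toLin e e A y⁆ := by
  set f := Matrix.toLin e e A with hf
  have hfb : ∀ u, f (e u) = ∑ k, A k u • e k := by
    intro u
    rw [hf, Matrix.toLin_self]
  have key : ∀ u v, f ⁅e u, e v⁆ = ⁅f (e u), f (e v)⁆ := by
    intro u v
    rw [hc, map_sum, hfb u, hfb v, sum_lie]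
    simp only [map_smul, hfb, lie_sum, smul_lie, lie_smul, hc, Finset.smul_sum, smul_smul]
    rw [Finset.sum_comm, sum3]
    refine Finset.sum_congr rfl fun k _ => ?_
    rw [← Finset.sum_smul, hA, Finset.sum_smul]
    refine Finset.sum_congr rfl fun i _ => ?_
    rw [Finset.sum_smul]
    refine Finset.sum_congr rfl fun j _ => ?_
    congr 1
    ring
  rw [← e.sum_repr x, ← e.sum_repr y]
  simp only [map_sum, map_smul, sum_lie, lie_sum, smul_lie, lie_smul, key]

theorem clear_denom {σ : Type*} (F : MvPolynomial σ ℚ) :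
    ∃ (N : ℤ) (F' : MvPolynomial σ ℤ), N ≠ 0 ∧
      MvPolynomial.map (Int.castRingHom ℚ) F' = MvPolynomial.C (N : ℚ) * F := by
  induction F using MvPolynomial.induction_on with
  | C a =>
    refine ⟨a.den, MvPolynomial.C a.num, by exact_mod_cast a.den_nz, ?_⟩
    rw [MvPolynomial.map_C, ← MvPolynomial.C_mul]
    congr 1
    simp only [eq_intCast, Int.cast_natCast]
    rw [mul_comm, Rat.mul_den_eq_num]
  | add p q hp hq =>
    obtain ⟨N₁, F₁, h1, e1⟩ := hp
    obtain ⟨N₂, F₂, h2, e2⟩ := hq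
    refine ⟨N₁ * N₂, MvPolynomial.C N₂ * F₁ + MvPolynomial.C N₁ * F₂, mul_ne_zero h1 h2, ?_⟩
    rw [map_add, map_mul, map_mul, e1, e2, MvPolynomial.map_C, MvPolynomial.map_C]
    push_cast
    simp only [eq_intCast, MvPolynomial.C_mul]
    ring
  | mul_X p i hp =>
    obtain ⟨N₁, F₁, h1, e1⟩ := hp
    refine ⟨N₁, F₁ * MvPolynomial.X i, h1, ?_⟩
    rw [map_mul, e1, MvPolynomial.map_X, mul_assoc]

end Gen

end PtsRelAux

open PtsRelAux

section Scheme

variable {ι X Y : Type*} [Fintype ι] [DecidableEq ι] [AddCommGroup X] [Module ℚ X] [AddCommGroup Y]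
  [Module ℚ Y] {P : RootPairing ι ℚ X Y} [P.IsRootSystem] [P.IsCrystallographic] [P.IsReduced]
  {b : P.Base} {LZ : Type*} [LieRing LZ]
  (B : ChevalleyBasis b ℤ LZ) {n : Type*} [Fintype n] [DecidableEq n]
  (ρ : LZ →+ Matrix n n ℤ) (hρ : ∀ x y, ρ ⁅x, y⁆ = ρ x * ρ y - ρ y * ρ x)

open scoped TensorProduct

section PtsRel

variable {R : Type*} [CommRing R]

theorem one_mem_pts : (1 : MatPair n (b.support ⊕ ι) R) ∈ chevPts B ρ R := by
  intro F hF
  have h1 := hF 1 (Submonoid.one_mem _)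
  have h2 := evalPair_map (Int.castRingHom ℚ) (1 : MatPair n (b.support ⊕ ι) ℤ) F
  have h3 := evalPair_map (Int.castRingHom R) (1 : MatPair n (b.support ⊕ ι) ℤ) F
  have h4 : evalPair (1 : MatPair n (b.support ⊕ ι) ℤ) F = 0 := by
    have : (Int.castRingHom ℚ) (evalPair (1 : MatPair n (b.support ⊕ ι) ℤ) F) = 0 := by
      rw [← h2]
      have e1 : (((1 : MatPair n (b.support ⊕ ι) ℤ).1.map
        (Int.castRingHom ℚ), (1 : MatPair n (b.support ⊕ ι) ℤ).2.map (Int.castRingHom ℚ)) :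
        MatPair n (b.support ⊕ ι) ℚ) = 1 := by
        refine Prod.ext ?_ ?_
        · exact Matrix.map_one _ (map_zero _) (map_one _)
        · exact Matrix.map_one _ (map_zero _) (map_one _)
      rw [e1]
      exact h1
    rw [eq_intCast] at this
    exact Int.cast_eq_zero.1 this
  have e1 : (((1 : MatPair n (b.support ⊕ ι) ℤ).1.map
    (Int.castRingHom R), (1 : MatPair n (b.support ⊕ ι) ℤ).2.map (Int.castRingHom R)) :
    MatPair n (b.support ⊕ ι) R) = 1 := by
    refine Prod.ext ?_ ?_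
    · exact Matrix.map_one _ (map_zero _) (map_one _)
    · exact Matrix.map_one _ (map_zero _) (map_one _)
  rw [← e1, h3, h4, map_zero]

/-- an identity between two polynomial expressions which holds on `chevQ` holds on all points -/
theorem pts_of_chevQ {q : MatPair n (b.support ⊕ ι) R} (hq : q ∈ chevPts B ρ R)
    (F G : MvPolynomial ((n × n) ⊕ ((b.support ⊕ ι) × (b.support ⊕ ι))) ℤ)
    (h : ∀ g ∈ chevQ B ρ, ev g F = ev g G) : ev q F = ev q G := by
  have := hq (F - G) (fun g hg => by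
    have := h g hg
    rw [← ev_apply, map_sub, this, sub_self])
  rw [← ev_apply, map_sub] at this
  exact sub_eq_zero.1 this

theorem det_pts (hρ : ∀ x y, ρ ⁅x, y⁆ = ρ x * ρ y - ρ y * ρ x)
    {q : MatPair n (b.support ⊕ ι) R} (hq : q ∈ chevPts B ρ R) : q.1.det = 1 ∧ q.2.det = 1 := by
  constructor
  · have := pts_of_chevQ B ρ hq ((gen n (b.support ⊕ ι) ℤ).1.det) 1 (fun g hg => by
      rw [RingHom.map_det, RingHom.mapMatrix_apply, gen_map_fst, map_one,
        (det_chevQ B ρ hρ g hg).1])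
    rwa [RingHom.map_det, RingHom.mapMatrix_apply, gen_map_fst, map_one] at this
  · have := pts_of_chevQ B ρ hq ((gen n (b.support ⊕ ι) ℤ).2.det) 1 (fun g hg => by
      rw [RingHom.map_det, RingHom.mapMatrix_apply, gen_map_snd, map_one,
        (det_chevQ B ρ hρ g hg).2])
    rwa [RingHom.map_det, RingHom.mapMatrix_apply, gen_map_snd, map_one] at this

theorem adj_mem_pts (hρ : ∀ x y, ρ ⁅x, y⁆ = ρ x * ρ y - ρ y * ρ x)
    {q : MatPair n (b.support ⊕ ι) R} (hq : q ∈ chevPts B ρ R) :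
    (q.1.adjugate, q.2.adjugate) ∈ chevPts B ρ R := by
  intro F hF
  set F' := evalPair ((gen n (b.support ⊕ ι) ℤ).1.adjugate,
    (gen n (b.support ⊕ ι) ℤ).2.adjugate) F with hF'
  have h1 := hq F' (fun g hg => by
    rw [← ev_apply, hF', ← evalPair_map]
    simp only
    rw [← RingHom.mapMatrix_apply, ← RingHom.mapMatrix_apply, RingHom.map_adjugate,
      RingHom.map_adjugate, RingHom.mapMatrix_apply, RingHom.mapMatrix_apply, gen_map_fst,
      gen_map_snd]
    exact hF _ (adj_chevQ B ρ hρ g hg))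
  rw [← ev_apply, hF', ← evalPair_map] at h1
  simp only at h1
  rwa [← RingHom.mapMatrix_apply, ← RingHom.mapMatrix_apply, RingHom.map_adjugate,
    RingHom.map_adjugate, RingHom.mapMatrix_apply, RingHom.mapMatrix_apply, gen_map_fst,
    gen_map_snd] at h1

theorem pr_matrix_ev_left (q : MatPair n (b.support ⊕ ι) R) (A : Matrix n n ℤ) :
    ((gen n (b.support ⊕ ι) ℤ).1 * A.map (Int.castRingHom _)).map (ev q) =
      q.1 * A.map (Int.castRingHom R) := by
  rw [Matrix.map_mul, gen_map_fst, Matrix.map_map]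
  congr 1
  ext i j
  simp

theorem pr_matrix_ev_right (q : MatPair n (b.support ⊕ ι) R) (A : b.support ⊕ ι → Matrix n n ℤ)
    (u : b.support ⊕ ι) :
    ((∑ k, (gen n (b.support ⊕ ι) ℤ).2 k u • (A k).map (Int.castRingHom _)) *
      (gen n (b.support ⊕ ι) ℤ).1).map (ev q) =
      (∑ k, q.2 k u • (A k).map (Int.castRingHom R)) * q.1 := by
  rw [Matrix.map_mul, gen_map_fst]
  congr 1
  ext i j
  simp only [Matrix.map_apply, Matrix.sum_apply, Matrix.smul_apply, map_sum, smul_eq_mul,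
    map_mul]
  refine Finset.sum_congr rfl fun k _ => ?_
  have := congrFun (congrFun (gen_map_snd q) k) u
  simp only [Matrix.map_apply] at this
  rw [this]
  simp

theorem intertwine_pts (hρ : ∀ x y, ρ ⁅x, y⁆ = ρ x * ρ y - ρ y * ρ x)
    {q : MatPair n (b.support ⊕ ι) R} (hq : q ∈ chevPts B ρ R) (u : b.support ⊕ ι) :
    q.1 * (ρ (B.basis u)).map (Int.castRingHom R) =
      (∑ k, q.2 k u • (ρ (B.basis k)).map (Int.castRingHom R)) * q.1 := by
  rw [← pr_matrix_ev_left, ← pr_matrix_ev_right]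
  ext i j
  simp only [Matrix.map_apply]
  apply pts_of_chevQ B ρ hq
  intro g hg
  have h := intertwine_chevQ B ρ hρ g hg u
  unfold matQ at h
  rw [← pr_matrix_ev_left, ← pr_matrix_ev_right] at h
  exact congrFun (congrFun h i) j

theorem lie_coord_pts {q : MatPair n (b.support ⊕ ι) R} (hq : q ∈ chevPts B ρ R)
    (u v k : b.support ⊕ ι) :
    ∑ w, (B.basis.repr ⁅B.basis u, B.basis v⁆ w : R) * q.2 k w =
      ∑ i, ∑ j, q.2 i u * q.2 j v * (B.basis.repr ⁅B.basis i, B.basis j⁆ k : R) := by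
  have h := pts_of_chevQ B ρ hq
    (∑ w, ((B.basis.repr ⁅B.basis u, B.basis v⁆ w : ℤ) : MvPolynomial _ ℤ) *
      (gen n (b.support ⊕ ι) ℤ).2 k w)
    (∑ i, ∑ j, (gen n (b.support ⊕ ι) ℤ).2 i u * (gen n (b.support ⊕ ι) ℤ).2 j v *
      ((B.basis.repr ⁅B.basis i, B.basis j⁆ k : ℤ) : MvPolynomial _ ℤ))
    (fun g hg => by
      simp only [map_sum, map_mul, map_intCast]
      have hX' : ∀ (i j : b.support ⊕ ι), ev g ((gen n (b.support ⊕ ι) ℤ).2 i j) = g.2 i j :=
        fun i j => congrFun (congrFun (gen_map_snd g) i) j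
      simp only [hX']
      exact lie_chevQ B ρ g hg u v k)
  simp only [map_sum, map_mul, map_intCast] at h
  have hX' : ∀ (i j : b.support ⊕ ι), ev q ((gen n (b.support ⊕ ι) ℤ).2 i j) = q.2 i j :=
    fun i j => congrFun (congrFun (gen_map_snd q) i) j
  simpa only [hX'] using h

theorem pr_baseChange_lie_basis (u v : b.support ⊕ ι) :
    ⁅(B.baseChange R).basis u, (B.baseChange R).basis v⁆ =
      ∑ w, (B.basis.repr ⁅B.basis u, B.basis v⁆ w : R) • (B.baseChange R).basis w := by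
  show ⁅B.basis.baseChange R u, B.basis.baseChange R v⁆ =
      ∑ w, (B.basis.repr ⁅B.basis u, B.basis v⁆ w : R) • B.basis.baseChange R w
  simp only [Basis.baseChange_apply]
  rw [LieAlgebra.ExtendScalars.bracket_tmul, mul_one]
  conv_lhs => rw [← B.basis.sum_repr ⁅B.basis u, B.basis v⁆]
  rw [TensorProduct.tmul_sum]
  refine Finset.sum_congr rfl fun w _ => ?_
  have := baseChange_int_smul (LZ := LZ) R (B.basis.repr ⁅B.basis u, B.basis v⁆ w) (B.basis w)
  simpa using this

/-- the second component as an endomorphism of `R ⊗ LZ` is a Lie algebra endomorphism -/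
theorem lie_pts {q : MatPair n (b.support ⊕ ι) R} (hq : q ∈ chevPts B ρ R)
    (x y : R ⊗[ℤ] LZ) :
    Matrix.toLin (B.baseChange R).basis (B.baseChange R).basis q.2 ⁅x, y⁆ =
      ⁅Matrix.toLin (B.baseChange R).basis (B.baseChange R).basis q.2 x,
       Matrix.toLin (B.baseChange R).basis (B.baseChange R).basis q.2 y⁆ := by
  exact toLin_lie_of_coord (B.baseChange R).basis
    (fun u v w => (B.basis.repr ⁅B.basis u, B.basis v⁆ w : R)) (pr_baseChange_lie_basis B) q.2
    (lie_coord_pts B ρ hq) x y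

/-- the rational points as functions -/
def chevS (B : ChevalleyBasis b ℤ LZ) (ρ : LZ →+ Matrix n n ℤ) :
    Set ((n × n) ⊕ ((b.support ⊕ ι) × (b.support ⊕ ι)) → ℚ) :=
  {s | ∃ g ∈ chevQ B ρ, s = flatten g}

/-- For `g ∈ chevQ`, `F (g ·)` vanishes at all `ℤ_p`-points. -/
theorem mul_left_chevQ (p : ℕ) [Fact p.Prime] {g : MatPair n (b.support ⊕ ι) ℚ}
    (hg : g ∈ chevQ B ρ) {q' : MatPair n (b.support ⊕ ι) ℤ_[p]} (hq' : q' ∈ chevPts B ρ ℤ_[p])
    (F : MvPolynomial ((n × n) ⊕ ((b.support ⊕ ι) × (b.support ⊕ ι))) ℤ)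
    (hF : ∀ g ∈ chevQ B ρ, evalPair g F = 0) :
    evalPair ((g.1.map (algebraMap ℚ ℚ_[p]) * q'.1.map (algebraMap ℤ_[p] ℚ_[p]),
      g.2.map (algebraMap ℚ ℚ_[p]) * q'.2.map (algebraMap ℤ_[p] ℚ_[p])) :
      MatPair n (b.support ⊕ ι) ℚ_[p]) F = 0 := by
  set G : MvPolynomial ((n × n) ⊕ ((b.support ⊕ ι) × (b.support ⊕ ι))) ℚ :=
    evalPair (g.1.map MvPolynomial.C * (gen n (b.support ⊕ ι) ℚ).1,
      g.2.map MvPolynomial.C * (gen n (b.support ⊕ ι) ℚ).2) F with hG
  obtain ⟨N, F', hN, hF'⟩ := clear_denom G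
  -- evaluation of `G`
  have hev : ∀ {T : Type} [CommRing T] (f : ℚ →+* T) (r : MatPair n (b.support ⊕ ι) T),
      MvPolynomial.eval₂Hom f (flatten r) G = evalPair (g.1.map f * r.1, g.2.map f * r.2) F := by
    intro T _ f r
    rw [hG, ← evalPair_map]
    simp only [Matrix.map_mul, gen_eval₂_fst, gen_eval₂_snd, Matrix.map_map]
    congr 1
    refine Prod.ext ?_ ?_
    · simp only
      congr 1
      ext i j
      simp
    · simp only
      congr 1
      ext i j
      simp
  have h1 : ∀ h ∈ chevQ B ρ, evalPair h F' = 0 := by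
    intro h hh
    have e1 := congrArg (MvPolynomial.eval₂Hom (RingHom.id ℚ) (flatten h)) hF'
    rw [map_mul, hev] at e1
    have e2 : evalPair (g.1.map (RingHom.id ℚ) * h.1, g.2.map (RingHom.id ℚ) * h.2) F = 0 :=
      hF _ (Submonoid.mul_mem _ hg hh)
    rw [e2, mul_zero] at e1
    have e3 : MvPolynomial.eval₂Hom (RingHom.id ℚ) (flatten h)
        (MvPolynomial.map (Int.castRingHom ℚ) F') = evalPair h F' := by
      rw [MvPolynomial.coe_eval₂Hom, MvPolynomial.eval₂_map, RingHom.id_comp]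
      rfl
    rw [← e3, e1]
  have h2 := hq' F' h1
  have e1 := congrArg (MvPolynomial.eval₂Hom (algebraMap ℚ ℚ_[p])
    (flatten (q'.1.map (algebraMap ℤ_[p] ℚ_[p]), q'.2.map (algebraMap ℤ_[p] ℚ_[p])))) hF'
  rw [map_mul, hev] at e1
  have e3 : MvPolynomial.eval₂Hom (algebraMap ℚ ℚ_[p])
      (flatten (q'.1.map (algebraMap ℤ_[p] ℚ_[p]), q'.2.map (algebraMap ℤ_[p] ℚ_[p])))
      (MvPolynomial.map (Int.castRingHom ℚ) F') =
      algebraMap ℤ_[p] ℚ_[p] (evalPair q' F') := by
    rw [← evalPair_map, MvPolynomial.coe_eval₂Hom, MvPolynomial.eval₂_map]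
    rw [show (algebraMap ℚ ℚ_[p]).comp (Int.castRingHom ℚ) = algebraMap ℤ ℚ_[p] from
      RingHom.ext_int _ _]
    rfl
  rw [e3, h2, map_zero, MvPolynomial.coe_eval₂Hom, MvPolynomial.eval₂_C] at e1
  have hN' : (algebraMap ℚ ℚ_[p]) (N : ℚ) ≠ 0 := by
    rw [map_intCast]
    exact_mod_cast hN
  exact (mul_eq_zero.1 e1.symm).resolve_left hN'

theorem flatten_chevS (p : ℕ) [Fact p.Prime] {q : MatPair n (b.support ⊕ ι) ℤ_[p]}
    (hq : q ∈ chevPts B ρ ℤ_[p]) :
    ∀ F : MvPolynomial ((n × n) ⊕ ((b.support ⊕ ι) × (b.support ⊕ ι))) ℤ,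
      (∀ s ∈ chevS B ρ, MvPolynomial.aeval s F = 0) → MvPolynomial.aeval (flatten q) F = 0 := by
  intro F hF
  exact hq F fun g hg => hF _ ⟨g, hg, rfl⟩

/-- For `g ∈ chevQ`, `F (g ·)` is a rational multiple of an integral polynomial vanishing on `chevQ`,
so `g q' ∈` closure for `q' ∈ chevPts ℤ_[p]`; then `F (· q')` is a polynomial over `ℤ_[p]` vanishing on
`chevQ`: use flat_eval. -/
theorem mul_mem_pts (p : ℕ) [Fact p.Prime] {q q' : MatPair n (b.support ⊕ ι) ℤ_[p]}
    (hq : q ∈ chevPts B ρ ℤ_[p]) (hq' : q' ∈ chevPts B ρ ℤ_[p]) : q * q' ∈ chevPts B ρ ℤ_[p] := by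
  intro F hF
  set G : MvPolynomial ((n × n) ⊕ ((b.support ⊕ ι) × (b.support ⊕ ι))) ℤ_[p] :=
    evalPair ((gen n (b.support ⊕ ι) ℤ_[p]).1 * q'.1.map MvPolynomial.C,
      (gen n (b.support ⊕ ι) ℤ_[p]).2 * q'.2.map MvPolynomial.C) F with hG
  have hev : ∀ {T : Type} [CommRing T] (f : ℤ_[p] →+* T) (r : MatPair n (b.support ⊕ ι) T),
      MvPolynomial.eval₂Hom f (flatten r) G = evalPair (r.1 * q'.1.map f, r.2 * q'.2.map f) F := by
    intro T _ f r
    rw [hG, ← evalPair_map]
    simp only [Matrix.map_mul, gen_eval₂_fst, gen_eval₂_snd, Matrix.map_map]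
    congr 1
    refine Prod.ext ?_ ?_
    · simp only
      congr 1
      ext i j
      simp
    · simp only
      congr 1
      ext i j
      simp
  have h := flat_eval p (chevS B ρ) (flatten q) (flatten_chevS B ρ p hq) G (by
    rintro s ⟨g, hg, rfl⟩
    have e1 := hev (algebraMap ℤ_[p] ℚ_[p]) (g.1.map (algebraMap ℚ ℚ_[p]),
      g.2.map (algebraMap ℚ ℚ_[p]))
    rw [mul_left_chevQ B ρ p hg hq' F hF] at e1
    rw [← e1, MvPolynomial.coe_eval₂Hom]
    congr 1
    funext i
    rcases i with i | i <;> rfl)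
  have e2 := hev (RingHom.id ℤ_[p]) q
  have e3 : MvPolynomial.eval₂Hom (RingHom.id ℤ_[p]) (flatten q) G = 0 := h
  rw [e2] at e3
  have e4 : (q.1 * q'.1.map (RingHom.id ℤ_[p]), q.2 * q'.2.map (RingHom.id ℤ_[p])) = q * q' := rfl
  rwa [e4] at e3

/-- The kernel of the adjoint action is central: `g` commutes with all `ρ(x)` by intertwine_pts, so
with `chevQ`; the entries of `g h - h g` are linear polynomials in `h` over `ℤ_[p]`: flat_eval. -/
theorem central_pts (p : ℕ) [Fact p.Prime] (hρ : ∀ x y, ρ ⁅x, y⁆ = ρ x * ρ y - ρ y * ρ x)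
    {g : Matrix n n ℤ_[p]} (hg : (g, (1 : Matrix (b.support ⊕ ι) (b.support ⊕ ι) ℤ_[p])) ∈ chevPts B ρ ℤ_[p])
    {q : MatPair n (b.support ⊕ ι) ℤ_[p]} (hq : q ∈ chevPts B ρ ℤ_[p]) : g * q.1 = q.1 * g := by
  -- `g` commutes with `ρ` of the basis
  have h1 : ∀ u, g * (ρ (B.basis u)).map (Int.castRingHom ℤ_[p]) =
      (ρ (B.basis u)).map (Int.castRingHom ℤ_[p]) * g := by
    intro u
    have := intertwine_pts B ρ hρ hg u
    simp only at this
    rw [this]
    congr 1
    rw [Finset.sum_eq_single u]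
    · rw [Matrix.one_apply_eq, one_smul]
    · intro k _ hk
      rw [Matrix.one_apply_ne hk, zero_smul]
    · intro h
      exact absurd (Finset.mem_univ u) h
  set g' : Matrix n n ℚ_[p] := g.map (algebraMap ℤ_[p] ℚ_[p]) with hg'
  have h2 : ∀ u, Commute g' ((matQ (ρ (B.basis u))).map (algebraMap ℚ ℚ_[p])) := by
    intro u
    have h3 := congrArg (fun M : Matrix n n ℤ_[p] => M.map (algebraMap ℤ_[p] ℚ_[p])) (h1 u)
    simp only [Matrix.map_mul, Matrix.map_map] at h3
    have h4 : (ρ (B.basis u)).map (⇑(algebraMap ℤ_[p] ℚ_[p]) ∘ ⇑(Int.castRingHom ℤ_[p])) =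
        (matQ (ρ (B.basis u))).map (algebraMap ℚ ℚ_[p]) := by
      ext i j
      simp [matQ]
    rw [h4] at h3
    exact h3
  have h3 : ∀ h ∈ chevQ B ρ, Commute g' (h.1.map (algebraMap ℚ ℚ_[p])) := by
    intro h hh
    induction hh using Submonoid.closure_induction with
    | mem x hx =>
      obtain ⟨⟨α, t⟩, rfl⟩ := hx
      show Commute g' ((IsNilpotent.exp (t • matQ (ρ (B.e α)))).map (algebraMap ℚ ℚ_[p]))
      unfold IsNilpotent.exp
      rw [← RingHom.mapMatrix_apply, map_sum]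
      refine Commute.sum_right _ _ _ fun k _ => ?_
      have h5 : ∀ (c : ℚ) (M : Matrix n n ℚ), Commute g' (M.map (algebraMap ℚ ℚ_[p])) →
          Commute g' ((c • M).map (algebraMap ℚ ℚ_[p])) := by
        intro c M hM
        have : (c • M).map (algebraMap ℚ ℚ_[p]) =
            (algebraMap ℚ ℚ_[p] c) • (M.map (algebraMap ℚ ℚ_[p])) := by
          ext i j
          simp
        rw [this]
        exact hM.smul_right _
      rw [RingHom.mapMatrix_apply]
      refine h5 _ _ ?_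
      rw [← RingHom.mapMatrix_apply, map_pow]
      refine Commute.pow_right ?_ _
      rw [RingHom.mapMatrix_apply]
      exact h5 _ _ (h2 (Sum.inr α))
    | one =>
      have : (1 : MatPair n (b.support ⊕ ι) ℚ).1.map (algebraMap ℚ ℚ_[p]) = 1 :=
        Matrix.map_one _ (map_zero _) (map_one _)
      rw [this]
      exact Commute.one_right _
    | mul x y _ _ hx hy =>
      have : (x * y).1.map (algebraMap ℚ ℚ_[p]) = x.1.map (algebraMap ℚ ℚ_[p]) *
          y.1.map (algebraMap ℚ ℚ_[p]) := by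
        rw [Prod.fst_mul, Matrix.map_mul]
      rw [this]
      exact hx.mul_right hy
  ext i j
  obtain ⟨D, hD⟩ : ∃ D : Matrix n n (MvPolynomial ((n × n) ⊕ ((b.support ⊕ ι) × (b.support ⊕ ι))) ℤ_[p]),
    D = g.map MvPolynomial.C * (gen n (b.support ⊕ ι) ℤ_[p]).1 -
      (gen n (b.support ⊕ ι) ℤ_[p]).1 * g.map MvPolynomial.C := ⟨_, rfl⟩
  have h4 := flat_eval p (chevS B ρ) (flatten q) (flatten_chevS B ρ p hq) (D i j) (by
      rintro s ⟨h, hh, rfl⟩
      have e1 : (fun i => ((flatten h i : ℚ) : ℚ_[p])) =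
          flatten (h.1.map (algebraMap ℚ ℚ_[p]), h.2.map (algebraMap ℚ ℚ_[p])) := by
        funext i
        rcases i with i | i <;> rfl
      rw [e1]
      have e2 : D.map (MvPolynomial.eval₂Hom (algebraMap ℤ_[p] ℚ_[p])
            (flatten (h.1.map (algebraMap ℚ ℚ_[p]), h.2.map (algebraMap ℚ ℚ_[p])))) = 0 := by
        rw [hD, Matrix.map_sub _ (map_sub _), Matrix.map_mul, Matrix.map_mul, gen_eval₂_fst,
          Matrix.map_map, sub_eq_zero]
        have e3 : g.map (⇑(MvPolynomial.eval₂Hom (algebraMap ℤ_[p] ℚ_[p])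
            (flatten (h.1.map (algebraMap ℚ ℚ_[p]), h.2.map (algebraMap ℚ ℚ_[p])))) ∘
              ⇑(MvPolynomial.C (R := ℤ_[p]) (σ := (n × n) ⊕ ((b.support ⊕ ι) × (b.support ⊕ ι))))) =
            g' := by
          ext i j
          simp [hg']
        rw [e3]
        exact h3 h hh
      exact congrFun (congrFun e2 i) j)
  have e5 : D.map (MvPolynomial.eval₂Hom (RingHom.id ℤ_[p]) (flatten q)) =
      g * q.1 - q.1 * g := by
    rw [hD, Matrix.map_sub _ (map_sub _), Matrix.map_mul, Matrix.map_mul, gen_eval₂_fst,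
      Matrix.map_map]
    have e3 : g.map (⇑(MvPolynomial.eval₂Hom (RingHom.id ℤ_[p]) (flatten q)) ∘
          ⇑(MvPolynomial.C (R := ℤ_[p]) (σ := (n × n) ⊕ ((b.support ⊕ ι) × (b.support ⊕ ι))))) =
        g := by
      ext i j
      simp
    rw [e3]
  have e6 : (g * q.1 - q.1 * g) i j = 0 := by
    rw [← e5]
    exact h4
  rw [Matrix.sub_apply] at e6
  exact sub_eq_zero.1 e6

end PtsRel

end Scheme

end Ch4
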