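import Mathlib
import Pool.Agent.Lib.P4ba0d5.PtsRel

/-! The group of `ℤ_p`-points of the Chevalley group scheme and its adjoint action modulo `p`. -/

set_option linter.unusedSectionVars false
set_option linter.unusedVariables false

namespace Ch4

open Module

open scoped TensorProduct

variable {ι X Y : Type*} [Fintype ι] [DecidableEq ι] [AddCommGroup X] [Module ℚ X] [AddCommGroup Y]
  [Module ℚ Y] {P : RootPairing ι ℚ X Y} [P.IsRootSystem] [P.IsCrystallographic] [P.IsReduced]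
  {b : P.Base} {LZ : Type*} [LieRing LZ]
  (B : ChevalleyBasis b ℤ LZ) {n : Type*} [Fintype n] [DecidableEq n]
  (ρ : LZ →+ Matrix n n ℤ) (hρ : ∀ x y, ρ ⁅x, y⁆ = ρ x * ρ y - ρ y * ρ x)
  (p : ℕ) [Fact p.Prime]

/-- The inverse of an invertible matrix of determinant one is its adjugate. -/
theorem units_inv_eq_adjugate {m R : Type*} [Fintype m] [DecidableEq m] [CommRing R]
    (g : (Matrix m m R)ˣ) (h : (g : Matrix m m R).det = 1) :
    ((g⁻¹ : (Matrix m m R)ˣ) : Matrix m m R) = (g : Matrix m m R).adjugate := by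
  have h1 : ((g⁻¹ : (Matrix m m R)ˣ) : Matrix m m R) * (g : Matrix m m R) = 1 := Units.inv_mul _
  calc ((g⁻¹ : (Matrix m m R)ˣ) : Matrix m m R)
      = ((g⁻¹ : (Matrix m m R)ˣ) : Matrix m m R) *
        ((g : Matrix m m R) * (g : Matrix m m R).adjugate) := by
        rw [Matrix.mul_adjugate, h, one_smul, mul_one]
    _ = (g : Matrix m m R).adjugate := by rw [← mul_assoc, h1, one_mul]

/-- The pair of matrices underlying a pair of invertible matrices. -/
def pairVal {n m R : Type*} [Fintype n] [DecidableEq n] [Fintype m] [DecidableEq m] [CommRing R]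
    (g : (Matrix n n R)ˣ × (Matrix m m R)ˣ) : MatPair n m R :=
  ((g.1 : Matrix n n R), (g.2 : Matrix m m R))

theorem pairVal_mul {n m R : Type*} [Fintype n] [DecidableEq n] [Fintype m] [DecidableEq m]
    [CommRing R] (g h : (Matrix n n R)ˣ × (Matrix m m R)ˣ) :
    pairVal (g * h) = pairVal g * pairVal h := rfl

theorem pairVal_one {n m R : Type*} [Fintype n] [DecidableEq n] [Fintype m] [DecidableEq m]
    [CommRing R] : pairVal (1 : (Matrix n n R)ˣ × (Matrix m m R)ˣ) = 1 := rfl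

theorem pairVal_inv {n m R : Type*} [Fintype n] [DecidableEq n] [Fintype m] [DecidableEq m]
    [CommRing R] (g : (Matrix n n R)ˣ × (Matrix m m R)ˣ) (h1 : (pairVal g).1.det = 1)
    (h2 : (pairVal g).2.det = 1) :
    pairVal g⁻¹ = ((pairVal g).1.adjugate, (pairVal g).2.adjugate) :=
  Prod.ext (units_inv_eq_adjugate g.1 h1) (units_inv_eq_adjugate g.2 h2)

/-- The group of `ℤ_p`-points of the Chevalley group scheme, a subgroup of
`GL_n(ℤ_p) × GL_m(ℤ_p)`, with the topology of `GL_n(ℤ_p) × GL_m(ℤ_p)`. -/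
def chevZp : Subgroup ((Matrix n n ℤ_[p])ˣ ×
    (Matrix (b.support ⊕ ι) (b.support ⊕ ι) ℤ_[p])ˣ) where
  carrier := {g | pairVal g ∈ chevPts B ρ ℤ_[p]}
  one_mem' := by
    rw [Set.mem_setOf_eq, pairVal_one]
    exact one_mem_pts B ρ
  mul_mem' := by
    intro g h hg hh
    rw [Set.mem_setOf_eq] at hg hh ⊢
    rw [pairVal_mul]
    exact mul_mem_pts B ρ p hg hh
  inv_mem' := by
    intro g hg
    rw [Set.mem_setOf_eq] at hg ⊢
    obtain ⟨h2, h3⟩ := det_pts B ρ hρ hg
    rw [pairVal_inv g h2 h3]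
    exact adj_mem_pts B ρ hρ hg

/-- The adjoint action of the group of `ℤ_p`-points on `LZ ⊗ 𝔽_p`: the point `(g, a)` acts by the
linear map whose matrix with respect to the Chevalley basis is the reduction of `a` modulo `p`. -/
noncomputable def chevAct : chevZp B ρ hρ p →* AddMonoid.End ((ZMod p) ⊗[ℤ] LZ) where
  toFun g := (Matrix.toLin (B.baseChange (ZMod p)).basis (B.baseChange (ZMod p)).basis
    ((g.1.2 : Matrix (b.support ⊕ ι) (b.support ⊕ ι) ℤ_[p]).map
      (PadicInt.toZMod (p := p)))).toAddMonoidHom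
  map_one' := by
    refine AddMonoidHom.ext fun x => ?_
    change Matrix.toLin (B.baseChange (ZMod p)).basis (B.baseChange (ZMod p)).basis
      ((1 : Matrix (b.support ⊕ ι) (b.support ⊕ ι) ℤ_[p]).map (PadicInt.toZMod (p := p))) x = x
    rw [Matrix.map_one _ (map_zero _) (map_one _), Matrix.toLin_one]
    rfl
  map_mul' g h := by
    refine AddMonoidHom.ext fun x => ?_
    change Matrix.toLin (B.baseChange (ZMod p)).basis (B.baseChange (ZMod p)).basis
      (((g.1.2 : Matrix (b.support ⊕ ι) (b.support ⊕ ι) ℤ_[p]) * h.1.2).map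
        (PadicInt.toZMod (p := p))) x =
      Matrix.toLin (B.baseChange (ZMod p)).basis (B.baseChange (ZMod p)).basis
        ((g.1.2 : Matrix (b.support ⊕ ι) (b.support ⊕ ι) ℤ_[p]).map (PadicInt.toZMod (p := p)))
      (Matrix.toLin (B.baseChange (ZMod p)).basis (B.baseChange (ZMod p)).basis
        ((h.1.2 : Matrix (b.support ⊕ ι) (b.support ⊕ ι) ℤ_[p]).map
          (PadicInt.toZMod (p := p))) x)
    rw [Matrix.map_mul, Matrix.toLin_mul (B.baseChange (ZMod p)).basis
      (B.baseChange (ZMod p)).basis (B.baseChange (ZMod p)).basis, LinearMap.comp_apply]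

/-- The adjoint action of the group of `ℤ_p`-points on `ℤ_p ⊗ LZ`. -/
noncomputable def chevAd : chevZp B ρ hρ p →* Module.End ℤ_[p] (ℤ_[p] ⊗[ℤ] LZ) where
  toFun g := Matrix.toLin (B.baseChange ℤ_[p]).basis (B.baseChange ℤ_[p]).basis
    (g.1.2 : Matrix (b.support ⊕ ι) (b.support ⊕ ι) ℤ_[p])
  map_one' := by
    change Matrix.toLin (B.baseChange ℤ_[p]).basis (B.baseChange ℤ_[p]).basis
      (1 : Matrix (b.support ⊕ ι) (b.support ⊕ ι) ℤ_[p]) = 1
    rw [Matrix.toLin_one]; rfl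
  map_mul' g h := by
    change Matrix.toLin (B.baseChange ℤ_[p]).basis (B.baseChange ℤ_[p]).basis
      ((g.1.2 : Matrix (b.support ⊕ ι) (b.support ⊕ ι) ℤ_[p]) * h.1.2) = _
    rw [Matrix.toLin_mul (B.baseChange ℤ_[p]).basis
      (B.baseChange ℤ_[p]).basis (B.baseChange ℤ_[p]).basis]
    rfl

theorem chevAct_red (g : chevZp B ρ hρ p) (x : ℤ_[p] ⊗[ℤ] LZ) :
    chevAct B ρ hρ p g (redZ p LZ x) = redZ p LZ (chevAd B ρ hρ p g x) := by
  have hR := redData_redZ B p
  have key : ∀ x : ℤ_[p] ⊗[ℤ] LZ,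
      Matrix.toLin (B.baseChange (ZMod p)).basis (B.baseChange (ZMod p)).basis
      ((g.1.2 : Matrix (b.support ⊕ ι) (b.support ⊕ ι) ℤ_[p]).map
        (PadicInt.toZMod (p := p))) (redZ p LZ x) =
      redZ p LZ (Matrix.toLin (B.baseChange ℤ_[p]).basis (B.baseChange ℤ_[p]).basis
        (g.1.2 : Matrix (b.support ⊕ ι) (b.support ⊕ ι) ℤ_[p]) x) := by
    intro x
    rw [← (B.baseChange ℤ_[p]).basis.sum_repr x]
    simp only [map_sum, map_smul, hR.smul, hR.basis, Matrix.toLin_self, Matrix.map_apply]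
  exact key x

theorem chevAd_apply (g : chevZp B ρ hρ p) :
    chevAd B ρ hρ p g = Matrix.toLin (B.baseChange ℤ_[p]).basis (B.baseChange ℤ_[p]).basis
    (g.1.2 : Matrix (b.support ⊕ ι) (b.support ⊕ ι) ℤ_[p]) := rfl

theorem mem_chevZp (g : (Matrix n n ℤ_[p])ˣ × (Matrix (b.support ⊕ ι) (b.support ⊕ ι) ℤ_[p])ˣ) :
    g ∈ chevZp B ρ hρ p ↔ pairVal g ∈ chevPts B ρ ℤ_[p] := Iff.rfl

end Ch4
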