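import Mathlib

/-! Module Cocyc of MP_4ba0d5_al: from a splitting statement about abstract extensions to the
vanishing of continuous 2-cocycles with values in a discrete module. -/

namespace Ch4

universe u v

/-- The underlying type of the extension defined by a normalised 2-cocycle. -/
@[ext] structure CocExt (M : Type v) (Γ : Type u) : Type (max v u) where
  val : M
  pr : Γ

/-- The group law on the extension. -/
@[reducible] def CocExt.group {Γ : Type u} [Group Γ] {M : Type v} [AddCommGroup M]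
    (act : Γ →* AddMonoid.End M) (F : Γ → Γ → M)
    (h1 : ∀ g, F 1 g = 0)
    (hF : ∀ g h k, act g (F h k) + F g (h * k) = F (g * h) k + F g h) : Group (CocExt M Γ) :=
  letI : Mul (CocExt M Γ) := ⟨fun a b => ⟨a.val + act a.pr b.val + F a.pr b.pr, a.pr * b.pr⟩⟩
  letI : One (CocExt M Γ) := ⟨⟨0, 1⟩⟩
  letI : Inv (CocExt M Γ) := ⟨fun a => ⟨- act a.pr⁻¹ a.val - F a.pr⁻¹ a.pr, a.pr⁻¹⟩⟩
  Group.ofLeftAxioms
    (by
      intro a b c
      apply CocExt.ext
      · change (a.val + act a.pr b.val + F a.pr b.pr) + act (a.pr * b.pr) c.val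
          + F (a.pr * b.pr) c.pr = a.val + act a.pr (b.val + act b.pr c.val + F b.pr c.pr)
          + F a.pr (b.pr * c.pr)
        have := hF a.pr b.pr c.pr
        rw [map_add, map_add, map_mul]
        change _ + act a.pr (act b.pr c.val) + _ = _
        have e : F (a.pr * b.pr) c.pr = act a.pr (F b.pr c.pr) + F a.pr (b.pr * c.pr)
          - F a.pr b.pr := by rw [this]; abel
        rw [e]; abel
      · exact mul_assoc _ _ _)
    (by
      intro a
      apply CocExt.ext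
      · change 0 + act 1 a.val + F 1 a.pr = a.val
        rw [map_one, h1]; simp
      · exact one_mul _)
    (by
      intro a
      apply CocExt.ext
      · change (- act a.pr⁻¹ a.val - F a.pr⁻¹ a.pr) + act a.pr⁻¹ a.val + F a.pr⁻¹ a.pr = 0
        abel
      · exact inv_mul_cancel _)

theorem cocycle_invariant {Γ : Type u} [Group Γ] [TopologicalSpace Γ] [IsTopologicalGroup Γ]
    [CompactSpace Γ] [T2Space Γ] [TotallyDisconnectedSpace Γ] {M : Type v}
    (K1 : Subgroup Γ) (hK1n : K1.Normal) (hK1 : IsOpen (K1 : Set Γ))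
    (F : Γ × Γ → M) (hFc : ∀ m, IsOpen (F ⁻¹' {m})) :
    ∃ N : Subgroup Γ, N.Normal ∧ IsOpen (N : Set Γ) ∧ N ≤ K1 ∧
      ∀ x y, ∀ a ∈ N, ∀ b ∈ N, F (x * a, y * b) = F (x, y) := by
  have h1 : ∀ q : Γ × Γ, ∃ H : OpenNormalSubgroup Γ, ∀ a ∈ H, ∀ b ∈ H,
      F (q.1 * a, q.2 * b) = F q := by
    intro q
    have ho : IsOpen {z : Γ × Γ | F (q.1 * z.1, q.2 * z.2) = F q} := by
      have hc : Continuous fun z : Γ × Γ => ((q.1 * z.1, q.2 * z.2) : Γ × Γ) := by fun_prop
      exact (hFc (F q)).preimage hc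
    obtain ⟨A, B, hA, hB, hA1, hB1, hAB⟩ := isOpen_prod_iff.mp ho 1 1 (by simp)
    obtain ⟨H, hH⟩ := ProfiniteGrp.exist_openNormalSubgroup_sub_open_nhds_of_one
      (hA.inter hB) ⟨hA1, hB1⟩
    refine ⟨H, fun a ha b hb => ?_⟩
    exact hAB (Set.mk_mem_prod (hH ha).1 (hH hb).2)
  choose H hH using h1
  let W : Γ × Γ → Set (Γ × Γ) := fun q => {z | q.1⁻¹ * z.1 ∈ H q ∧ q.2⁻¹ * z.2 ∈ H q}
  have hW : ∀ q, IsOpen (W q) := by
    intro q
    have hHo : IsOpen ((H q : Subgroup Γ) : Set Γ) := (H q).toOpenSubgroup.isOpen'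
    have c1 : Continuous fun z : Γ × Γ => q.1⁻¹ * z.1 := by fun_prop
    have c2 : Continuous fun z : Γ × Γ => q.2⁻¹ * z.2 := by fun_prop
    exact (hHo.preimage c1).inter (hHo.preimage c2)
  have hWm : ∀ q, q ∈ W q := by
    intro q
    refine ⟨?_, ?_⟩
    · rw [inv_mul_cancel]; exact one_mem _
    · rw [inv_mul_cancel]; exact one_mem _
  obtain ⟨t, ht⟩ := isCompact_univ.elim_finite_subcover W hW
    (fun q _ => Set.mem_iUnion.mpr ⟨q, hWm q⟩)
  refine ⟨(⨅ q ∈ t, (H q : Subgroup Γ)) ⊓ K1, ?_, ?_, inf_le_right, ?_⟩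
  · have : (⨅ q ∈ t, (H q : Subgroup Γ)).Normal := by
      refine Subgroup.normal_iInf_normal fun q => Subgroup.normal_iInf_normal fun _ => ?_
      exact (H q).isNormal'
    exact Subgroup.normal_inf_normal _ _
  · rw [Subgroup.coe_inf]
    refine IsOpen.inter ?_ hK1
    simp only [Subgroup.coe_iInf]
    exact isOpen_biInter_finset fun q _ => (H q).toOpenSubgroup.isOpen'
  · intro x y a ha b hb
    have hxy := ht (Set.mem_univ (x, y))
    simp only [Set.mem_iUnion] at hxy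
    obtain ⟨q, hq, h3, h4⟩ := hxy
    have haq : a ∈ H q := by
      have := (Subgroup.mem_inf.mp ha).1
      rw [Subgroup.mem_iInf] at this
      have := this q
      rw [Subgroup.mem_iInf] at this
      exact this hq
    have hbq : b ∈ H q := by
      have := (Subgroup.mem_inf.mp hb).1
      rw [Subgroup.mem_iInf] at this
      have := this q
      rw [Subgroup.mem_iInf] at this
      exact this hq
    have e1 := hH q _ h3 _ h4
    have e2 := hH q _ (mul_mem h3 haq) _ (mul_mem h4 hbq)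
    simp only [← mul_assoc, mul_inv_cancel, one_mul] at e1 e2
    rw [e1, e2]

theorem exists_K_le {Γ : Type u} [Group Γ] [TopologicalSpace Γ] [IsTopologicalGroup Γ]
    [CompactSpace Γ] (K : ℕ → Subgroup Γ) (hKo : ∀ n, IsOpen (K n : Set Γ))
    (hKa : ∀ n, K (n + 1) ≤ K n) (O : Set Γ) (hO : IsOpen O)
    (h : ((⨅ n, K n : Subgroup Γ) : Set Γ) ⊆ O) : ∃ n : ℕ, 1 ≤ n ∧ (K n : Set Γ) ⊆ O := by
  have hanti : Antitone K := antitone_nat_of_succ_le hKa
  have key : ∃ n : ℕ, ((K n : Set Γ) ∩ Oᶜ) = ∅ := by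
    by_contra hne
    push Not at hne
    have := IsCompact.nonempty_iInter_of_sequence_nonempty_isCompact_isClosed
      (fun n => (K n : Set Γ) ∩ Oᶜ) (fun n x hx => ⟨hKa n hx.1, hx.2⟩)
      (fun n => hne n)
      (((Subgroup.isClosed_of_isOpen _ (hKo 0)).inter hO.isClosed_compl).isCompact)
      (fun n => (Subgroup.isClosed_of_isOpen _ (hKo n)).inter hO.isClosed_compl)
    obtain ⟨x, hx⟩ := this
    rw [Set.mem_iInter] at hx
    refine (hx 0).2 (h ?_)
    rw [Subgroup.coe_iInf, Set.mem_iInter]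
    exact fun n => (hx n).1
  obtain ⟨n, hn⟩ := key
  refine ⟨n + 1, by omega, fun x hx => ?_⟩
  by_contra hxO
  have : x ∈ (K n : Set Γ) ∩ Oᶜ := ⟨hKa n hx, hxO⟩
  rw [hn] at this
  exact this

theorem cocycle_trivial {Γ : Type u} [Group Γ] [TopologicalSpace Γ] [IsTopologicalGroup Γ]
    [CompactSpace Γ] [T2Space Γ] [TotallyDisconnectedSpace Γ]
    {M : Type v} [AddCommGroup M] [Finite M] (act : Γ →* AddMonoid.End M)
    (K : ℕ → Subgroup Γ) (hKn : ∀ n, (K n).Normal) (hKo : ∀ n, IsOpen (K n : Set Γ))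
    (hKa : ∀ n, K (n + 1) ≤ K n) (hK1 : ∀ g ∈ K 1, act g = 1)
    (hsplit : ∀ (E : Type (max v u)) [Group E] (π : E →* Γ) (j : M → E), Function.Surjective π →
      (∀ x y, j (x + y) = j x * j y) → Function.Injective j → (∀ g, π g = 1 ↔ ∃ x, j x = g) →
      (∀ g x, g * j x * g⁻¹ = j (act (π g) x)) →
      ∀ (NE : Subgroup E), NE.Normal → NE.FiniteIndex → (∀ x, j x ∈ NE → x = 0) →
      ∀ n₀ : ℕ, 1 ≤ n₀ →
      (∀ g ∈ K n₀, ∃ c ∈ (⨅ n, K n : Subgroup Γ), ∃ ν ∈ NE, g = c * π ν) →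
      ∃ H : Subgroup E, (∀ x, j x ∈ H → x = 0) ∧ (∀ g, ∃ h ∈ H, ∃ x, g = h * j x) ∧
        (∀ g ∈ NE, π g ∈ K (n₀ + 1) → g ∈ H))
    (F : Γ × Γ → M) (hFc : ∀ m, IsOpen (F ⁻¹' {m}))
    (hF : ∀ g h k, act g (F (h, k)) - F (g * h, k) + F (g, h * k) - F (g, h) = 0) :
    ∃ c : Γ → M, (∀ m, IsOpen (c ⁻¹' {m})) ∧
      ∀ g h, F (g, h) = act g (c h) - c (g * h) + c g := by
  obtain ⟨N, hNn, hNo, hNK, hNF⟩ := cocycle_invariant (K 1) (hKn 1) (hKo 1) F hFc
  -- the normalised cocycle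
  obtain ⟨F', hF'⟩ : ∃ F' : Γ → Γ → M, ∀ g h, F' g h = F (g, h) - act g (F (1, 1)) :=
    ⟨_, fun g h => rfl⟩
  have hl : ∀ h, F' 1 h = 0 := by
    intro h
    have := hF 1 1 h
    simp only [map_one, one_mul, AddMonoid.End.one_apply] at this
    rw [hF', map_one, AddMonoid.End.one_apply, ← this]; abel
  have hr : ∀ g, F' g 1 = 0 := by
    intro g
    have := hF g 1 1
    simp only [mul_one] at this
    rw [hF', ← neg_eq_zero, ← this]; abel
  have hactm : ∀ g h m, act (g * h) m = act g (act h m) := fun g h m => by rw [map_mul]; rfl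
  have hcoc : ∀ g h k, act g (F' h k) + F' g (h * k) = F' (g * h) k + F' g h := by
    intro g h k
    have := hF g h k
    rw [hF', hF', hF', hF', map_sub, hactm]
    rw [← sub_eq_zero, ← this]; abel
  have hactN : ∀ a ∈ N, act a = 1 := fun a ha => hK1 a (hNK ha)
  have hinv : ∀ x y, ∀ a ∈ N, ∀ b ∈ N, F' (x * a) (y * b) = F' x y := by
    intro x y a ha b hb
    rw [hF', hF', hNF x y a ha b hb, map_mul, hactN a ha, mul_one]
  have hgN : ∀ g, ∀ a ∈ N, F' g a = 0 := by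
    intro g a ha
    have := hinv g 1 1 (one_mem _) a ha
    rw [mul_one, one_mul] at this
    rw [this, hr]
  have hNg : ∀ g, ∀ a ∈ N, F' a g = 0 := by
    intro g a ha
    have := hinv 1 g a ha 1 (one_mem _)
    rw [mul_one, one_mul] at this
    rw [this, hl]
  let _ : Group (CocExt M Γ) := CocExt.group act F' hl hcoc
  have mul_val : ∀ a b : CocExt M Γ, (a * b).val = a.val + act a.pr b.val + F' a.pr b.pr :=
    fun _ _ => rfl
  have mul_pr : ∀ a b : CocExt M Γ, (a * b).pr = a.pr * b.pr := fun _ _ => rfl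
  have one_val : (1 : CocExt M Γ).val = 0 := rfl
  have one_pr : (1 : CocExt M Γ).pr = 1 := rfl
  have inv_val : ∀ a : CocExt M Γ, (a⁻¹).val = - act a.pr⁻¹ a.val - F' a.pr⁻¹ a.pr :=
    fun _ => rfl
  have inv_pr : ∀ a : CocExt M Γ, (a⁻¹).pr = a.pr⁻¹ := fun _ => rfl
  let π : CocExt M Γ →* Γ := ⟨⟨fun a => a.pr, rfl⟩, fun _ _ => rfl⟩
  have hπ : ∀ a, π a = a.pr := fun _ => rfl
  let j : M → CocExt M Γ := fun m => ⟨m, 1⟩
  let NE : Subgroup (CocExt M Γ) :=
    { carrier := {a | a.val = 0 ∧ a.pr ∈ N}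
      one_mem' := ⟨rfl, one_mem _⟩
      mul_mem' := by
        rintro a b ⟨ha, ha'⟩ ⟨hb, hb'⟩
        refine ⟨?_, mul_mem ha' hb'⟩
        rw [mul_val, ha, hb, map_zero, hgN _ _ hb']; simp
      inv_mem' := by
        rintro a ⟨ha, ha'⟩
        refine ⟨?_, inv_mem ha'⟩
        rw [inv_val, ha, map_zero, hgN _ _ ha']; simp }
  have hNE : ∀ a, a ∈ NE ↔ a.val = 0 ∧ a.pr ∈ N := fun _ => Iff.rfl
  have hNEn : NE.Normal := by
    refine ⟨fun a ha g => ?_⟩
    obtain ⟨ha0, haN⟩ := ha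
    have hc : g * a * g⁻¹ = (⟨0, g.pr * a.pr * g.pr⁻¹⟩ : CocExt M Γ) := by
      rw [mul_inv_eq_iff_eq_mul]
      have hn : g.pr * a.pr * g.pr⁻¹ ∈ N := hNn.conj_mem _ haN _
      apply CocExt.ext
      · rw [mul_val, mul_val, ha0, map_zero, hgN _ _ haN]
        change _ = 0 + act (g.pr * a.pr * g.pr⁻¹) g.val + F' (g.pr * a.pr * g.pr⁻¹) g.pr
        rw [hactN _ hn, hNg _ _ hn]
        simp
      · rw [mul_pr, mul_pr]
        change _ = (g.pr * a.pr * g.pr⁻¹) * g.pr
        group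
    rw [hc]
    exact ⟨rfl, hNn.conj_mem _ haN _⟩
  have hNEf : NE.FiniteIndex := by
    have hfq : Finite (Γ ⧸ N) := Subgroup.quotient_finite_of_isOpen N hNo
    have hsurj : Function.Surjective (fun q : M × (Γ ⧸ N) =>
        (QuotientGroup.mk (⟨q.1, q.2.out⟩ : CocExt M Γ) : CocExt M Γ ⧸ NE)) := by
      intro z
      obtain ⟨a, rfl⟩ := QuotientGroup.mk_surjective z
      obtain ⟨z, hz⟩ := QuotientGroup.mk_out_eq_mul N a.pr
      refine ⟨(a.val, QuotientGroup.mk a.pr), ?_⟩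
      have h1 : (⟨a.val, (QuotientGroup.mk a.pr : Γ ⧸ N).out⟩ : CocExt M Γ) =
          a * ⟨0, (z : Γ)⟩ := by
        apply CocExt.ext
        · rw [mul_val]
          change a.val = a.val + act a.pr 0 + F' a.pr z
          rw [map_zero, hgN _ _ z.2]; simp
        · rw [mul_pr]; exact hz
      change (QuotientGroup.mk (⟨a.val, (QuotientGroup.mk a.pr : Γ ⧸ N).out⟩ : CocExt M Γ) :
        CocExt M Γ ⧸ NE) = _
      rw [h1]
      exact QuotientGroup.mk_mul_of_mem a (show (⟨0, (z : Γ)⟩ : CocExt M Γ) ∈ NE from ⟨rfl, z.2⟩)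
    have : Finite (CocExt M Γ ⧸ NE) := Finite.of_surjective _ hsurj
    exact Subgroup.finiteIndex_of_finite_quotient
  -- the index `n₀`
  obtain ⟨n₀, hn₀, hKn₀⟩ := exists_K_le K hKo hKa
    (((⨅ n, K n : Subgroup Γ) ⊔ N : Subgroup Γ) : Set Γ)
    (Subgroup.isOpen_mono le_sup_right hNo) (fun x hx => (le_sup_left : _ ≤ _ ⊔ N) hx)
  have hker : ∀ a : CocExt M Γ, π a = 1 ↔ ∃ x, j x = a := by
    intro a
    constructor
    · intro h
      exact ⟨a.val, CocExt.ext rfl h.symm⟩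
    · rintro ⟨x, rfl⟩; rfl
  obtain ⟨H, hH1, hH2, hH3⟩ := hsplit (CocExt M Γ) π j (fun g => ⟨⟨0, g⟩, rfl⟩)
    (by
      intro x y
      apply CocExt.ext
      · rw [mul_val]
        change x + y = x + act 1 y + F' 1 1
        rw [map_one, hl]; simp
      · rw [mul_pr]; exact (one_mul 1).symm)
    (fun x y h => congrArg CocExt.val h) hker
    (by
      intro g x
      rw [mul_inv_eq_iff_eq_mul]
      apply CocExt.ext
      · rw [mul_val, mul_val]
        change g.val + act g.pr x + F' g.pr 1 = act g.pr x + act 1 g.val + F' 1 g.pr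
        rw [hr, hl, map_one]; simp [add_comm]
      · rw [mul_pr, mul_pr]
        change g.pr * 1 = 1 * g.pr
        simp)
    NE hNEn hNEf (fun x hx => ((hNE _).mp hx).1) n₀ hn₀
    (by
      intro g hg
      have := hKn₀ hg
      rw [SetLike.mem_coe, Subgroup.mem_sup_of_normal_right] at this
      obtain ⟨c, hc, z, hz, hcz⟩ := this
      exact ⟨c, hc, ⟨0, z⟩, ⟨rfl, hz⟩, hcz.symm⟩)
  have huniq : ∀ a ∈ H, ∀ b ∈ H, a.pr = b.pr → a.val = b.val := by
    intro a ha b hb hab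
    have h1 : a⁻¹ * b ∈ H := mul_mem (inv_mem ha) hb
    have h2 : π (a⁻¹ * b) = 1 := by rw [map_mul, map_inv, hπ, hπ, hab, inv_mul_cancel]
    obtain ⟨x, hx⟩ := (hker _).mp h2
    rw [← hx] at h1
    have hx0 := hH1 x h1
    rw [hx0] at hx
    have h3 : a⁻¹ * b = 1 := by rw [← hx]; rfl
    rw [inv_mul_eq_one] at h3
    rw [h3]
  have hex : ∀ g : Γ, ∃ m : M, (⟨m, g⟩ : CocExt M Γ) ∈ H := by
    intro g
    obtain ⟨h, hh, x, hx⟩ := hH2 ⟨0, g⟩
    refine ⟨h.val, ?_⟩
    have h1 : h.pr = g := by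
      have := congrArg CocExt.pr hx
      rw [mul_pr] at this
      change g = h.pr * 1 at this
      rw [mul_one] at this
      exact this.symm
    have h2 : (⟨h.val, g⟩ : CocExt M Γ) = h := CocExt.ext rfl h1.symm
    rw [h2]; exact hh
  choose c hc using hex
  have hcm : ∀ g h, c (g * h) = c g + act g (c h) + F' g h := by
    intro g h
    exact huniq _ (hc (g * h)) _ (mul_mem (hc g) (hc h)) rfl
  have hcN : ∀ g, ∀ a ∈ N ⊓ K (n₀ + 1), c (g * a) = c g := by
    intro g a ha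
    have h1 : (⟨0, a⟩ : CocExt M Γ) ∈ H := hH3 _ ⟨rfl, ha.1⟩ ha.2
    have h2 := huniq _ (hc (g * a)) _ (mul_mem (hc g) h1) rfl
    rw [mul_val] at h2
    change c (g * a) = c g + act g 0 + F' g a at h2
    rw [h2, map_zero, hgN _ _ ha.1]; simp
  refine ⟨fun g => F (1, 1) - c g, fun m => ?_, fun g h => ?_⟩
  · rw [isOpen_iff_mem_nhds]
    intro g hg
    have hU : IsOpen ((N ⊓ K (n₀ + 1) : Subgroup Γ) : Set Γ) := by
      rw [Subgroup.coe_inf]; exact hNo.inter (hKo _)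
    have hopen : IsOpen ((fun x => g⁻¹ * x) ⁻¹' ((N ⊓ K (n₀ + 1) : Subgroup Γ) : Set Γ)) :=
      hU.preimage (by fun_prop)
    refine Filter.mem_of_superset (hopen.mem_nhds ?_) ?_
    · rw [Set.mem_preimage, inv_mul_cancel]; exact one_mem (N ⊓ K (n₀ + 1))
    · intro x hx
      rw [Set.mem_preimage] at hx
      have := hcN g _ hx
      rw [mul_inv_cancel_left] at this
      change F (1, 1) - c x = m
      rw [this]; exact hg
  · have h1 := hF' g h
    have h2 := hcm g h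
    have h3 : F (g, h) = F' g h + act g (F (1, 1)) := by rw [h1]; abel
    have h4 : F' g h = c (g * h) - c g - act g (c h) := by rw [h2]; abel
    change F (g, h) = act g (F (1, 1) - c h) - (F (1, 1) - c (g * h)) + (F (1, 1) - c g)
    rw [h3, h4, map_sub]; abel

end Ch4
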