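import Mathlib
import Pool.Agent.Lib.P4ba0d5.RedMain
import Pool.Agent.Lib.P4ba0d5.CenPart2

/-! Reduction of the splitting of an extension of a `p`-adic group to the case of the finite group:
version for groups acting by Lie automorphisms, with central kernel. -/

set_option linter.unusedSectionVars false
set_option linter.unusedVariables false

namespace Ch4

open Module

section Main

variable {ι X Y : Type*} [Finite ι] [AddCommGroup X] [Module ℚ X] [AddCommGroup Y] [Module ℚ Y]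
  {P : RootPairing ι ℚ X Y} [P.IsRootSystem] [P.IsCrystallographic] [P.IsReduced]
  {b : P.Base} {f : ι → ℤ} {D : ℤ} {p : ℕ} [Fact p.Prime]
  {L : Type*} [LieRing L] [LieAlgebra ℤ_[p] L]
  {Lp : Type*} [LieRing Lp] [LieAlgebra (ZMod p) Lp]

/-- A fixed vector of all root elements is zero. -/
theorem fixed_eq_zero [P.IsIrreducible] (hG : Good b f D p) (Bp : ChevalleyBasis b (ZMod p) Lp)
    (x : Lp) (hx : ∀ α t, Bp.x α t x = x) : x = 0 := by
  have hirr := Bp.irred hG (Submodule.span (ZMod p) {x}) (fun α t v hv => by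
    obtain ⟨c, rfl⟩ := Submodule.mem_span_singleton.1 hv
    rw [map_smul, hx]; exact hv)
  rcases hirr with h | h
  · exact Submodule.span_singleton_eq_bot.1 h
  · exfalso
    obtain ⟨α⟩ := ModSetup.nonempty_ι (P := P)
    have h1 : ∀ v : Lp, Bp.x α 1 v = v := by
      intro v
      have : v ∈ Submodule.span (ZMod p) {x} := by rw [h]; trivial
      obtain ⟨c, rfl⟩ := Submodule.mem_span_singleton.1 this
      rw [map_smul, hx]
    have h2 : Bp.x α 1 = 1 := by ext v; exact h1 v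
    have h8 : 8 ≤ p := by have := hG.lt; omega
    have h3 := Bp.opLog_x h8 α 1
    have h4 : opLog p 8 (1 : Module.End (ZMod p) Lp) = 0 := by
      simp only [opLog, sub_self]
      refine Finset.sum_eq_zero fun k hk => ?_
      by_cases hk0 : k = 0
      · subst hk0; simp
      · rw [zero_pow hk0, smul_zero]
    rw [h2, h4, one_smul] at h3
    have h5 := congrArg (fun T : Module.End (ZMod p) Lp => T (Bp.hc α)) h3
    simp only [LinearMap.zero_apply, LieAlgebra.ad_apply] at h5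
    rw [Bp.lie_e_hc, P.pairingIn_same] at h5
    have h6 := congrArg (fun v => Bp.basis.repr v (.inr α)) h5
    simp at h6
    have h7 : ((2 : ℕ) : ZMod p) ≠ 0 := natCast_ne_zero_of_lt (by norm_num) (by omega)
    exact h7 (by exact_mod_cast h6)

theorem redMain2 [P.IsIrreducible] (hG : Good b f D p)
    {B : ChevalleyBasis b ℤ_[p] L} {Bp : ChevalleyBasis b (ZMod p) Lp} {red : L →+ Lp}
    (hR : RedData B Bp red) {Γ : Type*} [Group Γ] (Ad : Γ →* Module.End ℤ_[p] L)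
    (hx : ∀ α t, ∃ g, Ad g = B.x α t) (hlie : ∀ g x y, Ad g ⁅x, y⁆ = ⁅Ad g x, Ad g y⁆)
    (hel : ∀ g, redEnd B Bp red (Ad g) ∈ Bp.elem)
    (hcen : ∀ c ∈ Ad.ker, ∀ g, c * g = g * c)
    {E : Type*} [Group E] (π : E →* Γ) (hπ : Function.Surjective π)
    (j : Lp → E) (hj : ∀ x y, j (x + y) = j x * j y) (hjinj : Function.Injective j)
    (hjM : ∀ g, π g = 1 ↔ ∃ x, j x = g)
    (hjc : ∀ g x, g * j x * g⁻¹ = j (redEnd B Bp red (Ad (π g)) x))
    (NE : Subgroup E) (hNEn : NE.Normal) (hNEj : ∀ x, j x ∈ NE → x = 0)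
    (n₀ : ℕ) (h1 : 1 ≤ n₀)
    (hn₀ : ∀ g : Γ, CongMod p n₀ (Ad g) 1 → ∃ c ∈ Ad.ker, ∃ ν ∈ NE, g = c * π ν) :
    ∃ H : Subgroup E, (∀ x, j x ∈ H → x = 0) ∧ (∀ g, ∃ h ∈ H, ∃ x, g = h * j x) ∧
      (∀ g ∈ NE, CongMod p (n₀ + 1) (Ad (π g)) 1 → g ∈ H) := by
  obtain ⟨a, ha⟩ : ∃ a : E →* Module.End ℤ_[p] L, ∀ g, a g = Ad (π g) :=
    ⟨Ad.comp π, fun g => rfl⟩
  have halie : ∀ g x y, a g ⁅x, y⁆ = ⁅a g x, a g y⁆ := fun g => by rw [ha]; exact hlie _
  have hainv : ∀ g, a g * a g⁻¹ = 1 := fun g => by rw [← map_mul, mul_inv_cancel, map_one]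
  have hainv' : ∀ g, a g⁻¹ * a g = 1 := fun g => by rw [← map_mul, inv_mul_cancel, map_one]
  -- the congruence filtration
  let Kt : ℕ → Subgroup E := fun i =>
    { carrier := {g | CongMod p i (a g) 1}
      one_mem' := by
        change CongMod p i (a 1) 1
        rw [map_one]; exact CongMod.refl i 1
      mul_mem' := by
        intro g h hg hh
        change CongMod p i (a (g * h)) 1
        rw [map_mul]; exact CongMod.mul_one' hg hh
      inv_mem' := by
        intro g hg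
        exact CongMod.inv' hg (hainv g) }
  have hKt : ∀ i g, g ∈ Kt i ↔ CongMod p i (a g) 1 := fun _ _ => Iff.rfl
  have hKn : ∀ i, (Kt i).Normal := by
    intro i
    refine ⟨fun g hg k => ?_⟩
    rw [hKt, map_mul, map_mul]
    exact CongMod.conj' hg (hainv k)
  have hanti : ∀ i, Kt (i + 1) ≤ Kt i := fun i g hg => CongMod.mono (Nat.le_succ i) hg
  have hAnti : Antitone Kt := antitone_nat_of_succ_le hanti
  have hMK : ∀ i, π.ker ≤ Kt i := by
    intro i g hg
    rw [hKt, ha, MonoidHom.mem_ker.mp hg, map_one]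
    exact CongMod.refl i 1
  have hj0 : j 0 = 1 := by
    have := hj 0 0
    rw [add_zero] at this
    exact (left_eq_mul.mp this)
  have hjn : ∀ (n : ℕ) x, j (n • x) = j x ^ n := by
    intro n x
    induction n with
    | zero => rw [zero_smul, hj0, pow_zero]
    | succ n ih => rw [succ_nsmul, hj, ih, pow_succ]
  have hker : ∀ g, g ∈ π.ker ↔ ∃ x, j x = g := fun g => by rw [MonoidHom.mem_ker, hjM]
  have hMp : ∀ m ∈ π.ker, m ^ p = 1 := by
    intro m hm
    obtain ⟨x, rfl⟩ := (hker m).mp hm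
    rw [← hjn, ← hj0]
    congr 1
    rw [← Nat.cast_smul_eq_nsmul (ZMod p), CharP.cast_eq_zero, zero_smul]
  have hred1 : ∀ g ∈ Kt 1, redEnd B Bp red (a g) = 1 := by
    intro g hg
    rw [← hR.redEnd_one]
    exact (hR.redEnd_eq_iff _ _).mpr hg
  have hjc' : ∀ g x, g * j x * g⁻¹ = j (redEnd B Bp red (a g) x) := fun g x => by
    rw [ha]; exact hjc g x
  have hMc : ∀ m ∈ π.ker, ∀ x ∈ Kt 1, m * x = x * m := by
    intro m hm x hxk
    obtain ⟨y, rfl⟩ := (hker m).mp hm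
    have := hjc' x y
    rw [hred1 x hxk, Module.End.one_apply, mul_inv_eq_iff_eq_mul] at this
    exact this.symm
  have hLpf : Finite Lp := by
    have : Module.Finite (ZMod p) Lp := Module.Finite.of_basis Bp.basis
    exact Module.finite_of_finite (ZMod p)
  have hMf : Finite π.ker := by
    refine Finite.of_surjective (fun x : Lp => (⟨j x, (hker _).mpr ⟨x, rfl⟩⟩ : π.ker)) ?_
    rintro ⟨m, hm⟩
    obtain ⟨x, hx⟩ := (hker m).mp hm
    exact ⟨x, Subtype.ext hx⟩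
  have hCt : ∀ x, π x ∈ Ad.ker → ∀ i, x ∈ Kt i := by
    intro x hx i
    rw [hKt, ha, MonoidHom.mem_ker.mp hx]
    exact CongMod.refl i 1
  -- the central part
  let C' : Subgroup E := Subgroup.center E ⊓ Ad.ker.comap π
  have hC'n : C'.Normal := by
    refine ⟨fun x hx g => ?_⟩
    have h2 : g * x * g⁻¹ = x := by
      rw [Subgroup.mem_center_iff.1 hx.1 g, mul_inv_cancel_right]
    rw [h2]; exact hx
  have hC'1 : ∀ x ∈ C', π x ∈ Ad.ker := fun x hx => hx.2
  have hC'2 : ∀ x ∈ C', ∀ g, g * x = x * g := fun x hx g => Subgroup.mem_center_iff.1 hx.1 g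
  have hC'3 : ∀ g, π g ∈ Ad.ker → ∃ a ∈ C', ∃ m ∈ π.ker, g = a * m := by
    intro g hg
    obtain ⟨x, hx⟩ := central_part hG hR Ad hx hlie hel hcen π hπ j hj hjinj hjM hjc NE hNEn hNEj
      n₀ h1 hn₀ g hg
    refine ⟨g * j x, ⟨Subgroup.mem_center_iff.2 hx, ?_⟩, (j x)⁻¹,
      inv_mem ((hker _).mpr ⟨x, rfl⟩), by group⟩
    change π (g * j x) ∈ Ad.ker
    rw [map_mul, (hjM _).2 ⟨x, rfl⟩, mul_one]
    exact hg
  have hNK : (NE ⊓ Kt n₀).Normal := by
    have := hKn n₀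
    exact Subgroup.normal_inf_normal _ _
  set T : Subgroup E := C' ⊔ (NE ⊓ Kt n₀) with hT
  have hTn : T.Normal := Subgroup.sup_normal _ _
  have hTM : T ⊓ π.ker = ⊥ := by
    rw [eq_bot_iff]
    rintro x ⟨hxT0, hxM0⟩
    have hxT : x ∈ C' ⊔ (NE ⊓ Kt n₀) := hxT0
    have hxM : x ∈ π.ker := hxM0
    rw [Subgroup.mem_sup_of_normal_right] at hxT
    obtain ⟨c, hc, ν, hν, hcν⟩ := hxT
    -- `x` is fixed by `E`
    obtain ⟨y, rfl⟩ := (hker x).mp hxM
    have hfix : ∀ g, redEnd B Bp red (a g) y = y := by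
      intro g
      have h2 : g * j y * g⁻¹ * (j y)⁻¹ = g * ν * g⁻¹ * ν⁻¹ := by
        rw [← hcν]
        have h3 := hC'2 c hc g
        calc g * (c * ν) * g⁻¹ * (c * ν)⁻¹ = (g * c) * ν * g⁻¹ * ν⁻¹ * c⁻¹ := by group
          _ = c * (g * ν * g⁻¹ * ν⁻¹) * c⁻¹ := by rw [h3]; group
          _ = (g * ν * g⁻¹ * ν⁻¹) * c * c⁻¹ := by rw [hC'2 c hc]
          _ = _ := by group
      have h3 : g * ν * g⁻¹ * ν⁻¹ ∈ NE := mul_mem (hNEn.conj_mem _ hν.1 g) (inv_mem hν.1)
      rw [← h2, hjc'] at h3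
      have h4 : j (redEnd B Bp red (a g) y) * (j y)⁻¹ = j (redEnd B Bp red (a g) y - y) := by
        rw [mul_inv_eq_iff_eq_mul, ← hj, sub_add_cancel]
      rw [h4] at h3
      exact sub_eq_zero.1 (hNEj _ h3)
    rw [Subgroup.mem_bot, ← hj0]
    congr 1
    apply fixed_eq_zero hG Bp
    intro α t
    obtain ⟨s, hs⟩ := ZMod.ringHom_surjective (PadicInt.toZMod (p := p)) t
    obtain ⟨γ, hγ⟩ := hx α s
    obtain ⟨e, rfl⟩ := hπ γ
    have := hfix e
    rwa [ha, hγ, hR.redEnd_x hG, hs] at this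
  have hTle : T ≤ Kt n₀ := sup_le (fun c hc => hCt c (hC'1 c hc) _) inf_le_right
  have hTK : T ⊔ π.ker = Kt n₀ := by
    apply le_antisymm (sup_le hTle (hMK _))
    intro g hg
    obtain ⟨c₁, hc₁, ν, hν, hcν⟩ := hn₀ (π g) (by rw [← ha]; exact hg)
    obtain ⟨e, rfl⟩ := hπ c₁
    obtain ⟨c, hc, m, hm, rfl⟩ := hC'3 e hc₁
    have hνK : ν ∈ Kt n₀ := by
      rw [hKt] at hg ⊢
      rw [ha] at hg ⊢
      rw [hcν, map_mul, MonoidHom.mem_ker.mp hc₁, one_mul] at hg
      exact hg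
    have h2 : (c * ν)⁻¹ * g ∈ π.ker := by
      rw [MonoidHom.mem_ker, map_mul, hcν, map_inv, map_mul, map_mul, MonoidHom.mem_ker.mp hm]
      group
    have h3 : g = (c * ν) * ((c * ν)⁻¹ * g) := by group
    rw [h3]
    exact mul_mem ((le_sup_left : T ≤ _) (mul_mem ((le_sup_left : C' ≤ T) hc)
      ((le_sup_right : _ ≤ T) ⟨hν, hνK⟩))) ((le_sup_right : π.ker ≤ _) h2)
  have hdl : ∀ (n : ℕ), 1 ≤ n → ∀ g ∈ Kt n, ∃ z, IsDelta red n (a g) z :=
    fun n hn g hg => exists_isDelta hG hR hn (halie g) hg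
  have hdsurj : ∀ (n : ℕ), 1 ≤ n → ∀ z, ∃ g, IsDelta red n (a g) z := by
    intro n hn z
    obtain ⟨g, hg⟩ := delta_surj hG hR Ad hx hlie hn z
    obtain ⟨e, rfl⟩ := hπ g
    exact ⟨e, by rw [ha]; exact hg⟩
  have hpow : ∀ i, 1 ≤ i → ∀ x ∈ Kt i, x ^ p ∈ Kt (i + 1) := by
    intro i hi x hx
    obtain ⟨z, hz⟩ := hdl i hi x hx
    rw [hKt, map_pow]
    exact (hR.isDelta_pow hG hi hz).1
  obtain ⟨S, hSn, hSM, hSK, hSp, hTS⟩ := lower_apply p (by have := hG.lt; omega) π.ker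
    inferInstance Kt hKn hanti hMK hMc hMp n₀ h1 T hTn hTM hTK
    (by
      intro i k hi hk x hx y hy
      rw [hKt, map_mul, map_mul, map_mul]
      exact hR.congMod_comm hi hk (hainv x) (hainv' x) (hainv y) (hainv' y) hx hy)
    hpow
    (by
      intro i hi x hx hxp
      obtain ⟨z, hz⟩ := hdl i hi x hx
      have h2 := hR.isDelta_pow hG hi hz
      rw [hKt, map_pow] at hxp
      have h3 := (hR.isDelta_zero_iff hG (by omega) h2).mpr hxp
      exact (hR.isDelta_zero_iff hG hi hz).mp h3)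
    (by
      intro i hi y hy
      obtain ⟨z, hz⟩ := hdl (i + 1) (by omega) y hy
      obtain ⟨x, hxz⟩ := hdsurj i hi z
      refine ⟨x, hxz.1, ?_⟩
      have h2 := hR.isDelta_pow hG hi hxz
      have h3 : y⁻¹ * x ^ p ∈ Kt (i + 1) := mul_mem (inv_mem hy) (hpow i hi x hxz.1)
      obtain ⟨w, hw⟩ := hdl (i + 1) (by omega) _ h3
      have h4 := hR.isDelta_mul hG (by omega) hz hw
      rw [← map_mul, mul_inv_cancel_left, map_pow] at h4
      have h5 := isDelta_unique hG hR (by omega)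
        (g := a x ^ p) (by rw [← map_pow]; exact halie _) h4 h2
      have h6 : w = 0 := by simpa using h5
      exact (hR.isDelta_zero_iff hG (by omega) hw).mp h6)
  -- the finite quotient
  have hSK2 : S ≤ Kt 2 := hSK ▸ le_sup_left
  have hSK1 : S ≤ Kt 1 := hSK2.trans (hanti 1)
  set q : E →* E ⧸ S := QuotientGroup.mk' S with hq
  have hqs : Function.Surjective q := QuotientGroup.mk'_surjective S
  have hqk : ∀ x, q x = 1 ↔ x ∈ S := fun x => QuotientGroup.eq_one_iff x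
  obtain ⟨ρ0, hρ0⟩ : ∃ ρ0 : E →* Module.End (ZMod p) Lp, ∀ g, ρ0 g = redEnd B Bp red (a g) :=
    ⟨{ toFun := fun g => redEnd B Bp red (a g)
       map_one' := by rw [map_one, hR.redEnd_one]
       map_mul' := by
         intro g h
         change redEnd B Bp red (a (g * h)) = redEnd B Bp red (a g) * redEnd B Bp red (a h)
         rw [map_mul, hR.redEnd_mul] }, fun g => rfl⟩
  have hρS : S ≤ ρ0.ker := by
    intro x hx
    rw [MonoidHom.mem_ker, hρ0]; exact hred1 x (hSK1 hx)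
  let ρ : E ⧸ S →* Module.End (ZMod p) Lp := QuotientGroup.lift S ρ0 hρS
  have hρ : ∀ g, ρ (q g) = redEnd B Bp red (a g) := fun g => by
    rw [← hρ0]; rfl
  have hmemA : ∀ g, q g ∈ (Kt 1).map q ↔ g ∈ Kt 1 := by
    intro g
    constructor
    · rintro ⟨y, hy, hyx⟩
      have h2 : y⁻¹ * g ∈ S := by rw [← hqk, map_mul, map_inv, hyx, inv_mul_cancel]
      have := mul_mem hy (hSK1 h2)
      rwa [mul_inv_cancel_left] at this
    · intro hx; exact ⟨g, hx, rfl⟩
  have hmemM : ∀ g, q g ∈ π.ker.map q ↔ g ∈ Kt 2 := by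
    intro g
    constructor
    · rintro ⟨y, hy, hyx⟩
      have h2 : y⁻¹ * g ∈ S := by rw [← hqk, map_mul, map_inv, hyx, inv_mul_cancel]
      have := mul_mem (hMK 2 hy) (hSK2 h2)
      rwa [mul_inv_cancel_left] at this
    · intro hg
      rw [← hSK, Subgroup.mem_sup_of_normal_right] at hg
      obtain ⟨s, hs, m, hm, rfl⟩ := hg
      exact ⟨m, hm, by rw [map_mul, (hqk s).mpr hs, one_mul]⟩
  have hqj : Function.Injective fun x => q (j x) := by
    intro x y hxy
    have h2 : (j x)⁻¹ * j y ∈ S := by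
      rw [← hqk, map_mul, map_inv]
      change q (j x) = q (j y) at hxy
      rw [hxy, inv_mul_cancel]
    have h3 : (j x)⁻¹ * j y ∈ π.ker := mul_mem (inv_mem ((hker _).mpr ⟨x, rfl⟩))
      ((hker _).mpr ⟨y, rfl⟩)
    have h4 : (j x)⁻¹ * j y ∈ S ⊓ π.ker := ⟨h2, h3⟩
    rw [hSM, Subgroup.mem_bot, inv_mul_eq_one] at h4
    exact hjinj h4
  -- the derivative
  classical
  let dl : E → Lp := fun g => if h : ∃ z, IsDelta red 1 (a g) z then h.choose else 0
  have hdl1 : ∀ g ∈ Kt 1, IsDelta red 1 (a g) (dl g) := by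
    intro g hg
    have h := hdl 1 le_rfl g hg
    change IsDelta red 1 (a g) (if h : ∃ z, IsDelta red 1 (a g) z then h.choose else 0)
    rw [dif_pos h]
    exact h.choose_spec
  have hdl2 : ∀ g z, IsDelta red 1 (a g) z → dl g = z := fun g z hz =>
    isDelta_unique hG hR le_rfl (halie g) (hdl1 g hz.1) hz
  have hdlm : ∀ g ∈ Kt 1, ∀ h ∈ Kt 1, dl (g * h) = dl g + dl h := by
    intro g hg h hh
    apply hdl2
    rw [map_mul]
    exact hR.isDelta_mul hG le_rfl (hdl1 g hg) (hdl1 h hh)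
  have hdlz : ∀ g ∈ Kt 1, dl g = 0 ↔ g ∈ Kt 2 := fun g hg =>
    hR.isDelta_zero_iff hG le_rfl (hdl1 g hg)
  let δ : E ⧸ S → Lp := fun z => dl z.out
  have hδ : ∀ g ∈ Kt 1, δ (q g) = dl g := by
    intro g hg
    obtain ⟨s, hs⟩ := QuotientGroup.mk_out_eq_mul S g
    change dl (Quotient.out (g : E ⧸ S)) = dl g
    rw [hs, hdlm g hg s (hSK1 s.2), (hdlz s (hSK1 s.2)).mpr (hSK2 s.2), add_zero]
  obtain ⟨K, hKM, hKT⟩ := Bp.finMain hG ρ
    (by
      intro g
      obtain ⟨g, rfl⟩ := hqs g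
      rw [hρ, ha]
      exact hel _)
    ((Kt 1).map q) (π.ker.map q) (Subgroup.map_mono (hMK 1))
    (by
      intro g
      obtain ⟨g, rfl⟩ := hqs g
      rw [hmemA, hρ, ← hR.redEnd_one, hR.redEnd_eq_iff]
      exact hKt 1 g)
    (fun x => q (j x)) (fun x y => by rw [hj, map_mul]) hqj
    (by
      intro g
      constructor
      · rintro ⟨m, hm, rfl⟩
        obtain ⟨x, rfl⟩ := (hker m).mp hm
        exact ⟨x, rfl⟩
      · rintro ⟨x, rfl⟩
        exact ⟨j x, (hker _).mpr ⟨x, rfl⟩, rfl⟩)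
    (by
      intro g x
      obtain ⟨g, rfl⟩ := hqs g
      rw [hρ, ← map_inv, ← map_mul, ← map_mul, hjc'])
    δ
    (by
      intro g hg h hh
      obtain ⟨g, rfl⟩ := hqs g
      obtain ⟨h, rfl⟩ := hqs h
      rw [hmemA] at hg hh
      rw [← map_mul, hδ _ (mul_mem hg hh), hδ g hg, hδ h hh, hdlm g hg h hh])
    (by
      intro x
      obtain ⟨g, hg⟩ := hdsurj 1 le_rfl x
      refine ⟨q g, (hmemA g).mpr hg.1, ?_⟩
      rw [hδ g hg.1, hdl2 g x hg])
    (by
      intro g hg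
      obtain ⟨g, rfl⟩ := hqs g
      rw [hmemA] at hg
      rw [hδ g hg, hdlz g hg, hmemM])
    (by
      intro g k hk
      obtain ⟨g, rfl⟩ := hqs g
      obtain ⟨k, rfl⟩ := hqs k
      rw [hmemA] at hk
      rw [← map_inv, ← map_mul, ← map_mul, hδ _ ((hKn 1).conj_mem _ hk _), hδ k hk, hρ]
      apply hdl2
      rw [map_mul, map_mul]
      exact hR.isDelta_conj hG le_rfl (halie g) (hainv g) (hainv' g) (hdl1 k hk))
    (by
      intro g hg
      obtain ⟨g, rfl⟩ := hqs g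
      rw [hmemA] at hg
      rw [← map_pow, hqk]
      exact hSp g hg)
    (by
      intro α
      obtain ⟨γ, hγ⟩ := hx α 1
      obtain ⟨e, rfl⟩ := hπ γ
      refine ⟨q e, ?_, ?_⟩
      · rw [hρ, ha, hγ, hR.redEnd_x hG, map_one]
      · have h2 : IsDelta red 1 (a (e ^ p)) (Bp.e α) := by
          rw [map_pow, ha, hγ, B.x_pow hG.isUnit720']
          have := hR.isDelta_x hG (n := 1) le_rfl α 1
          rwa [map_one, one_smul, pow_one] at this
        rw [← map_pow, hδ _ h2.1]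
        exact hdl2 _ _ h2)
  -- conclusion
  refine ⟨K.comap q, ?_, ?_, ?_⟩
  · intro x hxK
    have h2 : q (j x) ∈ K ⊓ π.ker.map q := ⟨hxK, ⟨j x, (hker _).mpr ⟨x, rfl⟩, rfl⟩⟩
    rw [hKM, Subgroup.mem_bot] at h2
    apply hqj
    change q (j x) = q (j 0)
    rw [h2, hj0, map_one]
  · intro g
    have h2 : q g ∈ K ⊔ π.ker.map q := by rw [hKT]; exact Subgroup.mem_top _
    have : (π.ker.map q).Normal := Subgroup.Normal.map inferInstance q hqs
    rw [Subgroup.mem_sup_of_normal_right] at h2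
    obtain ⟨k, hk, z, ⟨m, hm, rfl⟩, hkm⟩ := h2
    obtain ⟨x, rfl⟩ := (hker m).mp hm
    refine ⟨g * (j x)⁻¹, ?_, x, by group⟩
    rw [Subgroup.mem_comap, map_mul, map_inv, ← hkm, mul_inv_cancel_right]
    exact hk
  · intro g hg hgc
    rw [← ha] at hgc
    have h2 : g ∈ T := (le_sup_right : _ ≤ T) ⟨hg, hanti n₀ hgc⟩
    have h3 : g ∈ S := hTS ⟨h2, hgc⟩
    rw [Subgroup.mem_comap, (hqk g).mpr h3]
    exact one_mem _

end Main

end Ch4
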