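import Mathlib
import Pool.Agent.Lib.P4ba0d5.RedMain2
import Pool.Agent.Lib.P4ba0d5.Sylow
import Pool.Agent.Lib.P4ba0d5.SplitU
import Pool.Agent.Lib.P4ba0d5.Peel
import Pool.Agent.Lib.P4ba0d5.Gasch

/-! The splitting theorem for groups of Lie automorphisms which contain the root elements but are not
necessarily generated by them: reduction by Gaschütz' theorem to a subgroup of index prime to `p`. -/

set_option linter.unusedSectionVars false
set_option linter.unusedVariables false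

namespace Ch4

open Module

variable {ι X Y : Type*} [Finite ι] [AddCommGroup X] [Module ℚ X] [AddCommGroup Y] [Module ℚ Y]
  {P : RootPairing ι ℚ X Y} [P.IsRootSystem] [P.IsCrystallographic] [P.IsReduced]
  {b : P.Base} {f : ι → ℤ} {D : ℤ} {p : ℕ} [Fact p.Prime]
  {L : Type*} [LieRing L] [LieAlgebra ℤ_[p] L]
  {Lp : Type*} [LieRing Lp] [LieAlgebra (ZMod p) Lp]

/-- the congruence subgroup of level `i` -/
def congSub {Γ : Type*} [Group Γ] (Ad : Γ →* Module.End ℤ_[p] L) (i : ℕ) : Subgroup Γ where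
  carrier := {g | CongMod p i (Ad g) 1}
  one_mem' := by
    change CongMod p i (Ad 1) 1
    rw [map_one]; exact CongMod.refl i 1
  mul_mem' := by
    intro g h hg hh
    change CongMod p i (Ad (g * h)) 1
    rw [map_mul]; exact CongMod.mul_one' hg hh
  inv_mem' := by
    intro g hg
    exact CongMod.inv' hg (by rw [← map_mul, mul_inv_cancel, map_one])

theorem mem_congSub {Γ : Type*} [Group Γ] (Ad : Γ →* Module.End ℤ_[p] L) (i : ℕ) (g : Γ) :
    g ∈ congSub Ad i ↔ CongMod p i (Ad g) 1 := Iff.rfl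

theorem congSub_normal {Γ : Type*} [Group Γ] (Ad : Γ →* Module.End ℤ_[p] L) (i : ℕ) :
    (congSub Ad i).Normal := by
  refine ⟨fun g hg k => ?_⟩
  rw [mem_congSub, map_mul, map_mul]
  exact CongMod.conj' hg (by rw [← map_mul, mul_inv_cancel, map_one])

/-- `UF f 1` consists of elementary automorphisms. -/
theorem UF_le_elem (hG : Good b f D p) (Bp : ChevalleyBasis b (ZMod p) Lp)
    {T : Module.End (ZMod p) Lp} (hT : T ∈ Bp.UF f 1) : T ∈ Bp.elem := by
  have h := Bp.peel hG hG.isWt hG.bound hG.ne T hT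
  refine (Submonoid.closure_mono ?_ : _ ≤ Bp.elem) h
  rintro _ ⟨α, t, -, rfl⟩
  exact ⟨(α, t), rfl⟩

/-- the group of elements whose reduction is elementary -/
def elSub (hG : Good b f D p)
    {B : ChevalleyBasis b ℤ_[p] L} {Bp : ChevalleyBasis b (ZMod p) Lp} {red : L →+ Lp}
    (hR : RedData B Bp red) {Γ : Type*} [Group Γ] (Ad : Γ →* Module.End ℤ_[p] L) : Subgroup Γ where
  carrier := {g | redEnd B Bp red (Ad g) ∈ Bp.elem}
  one_mem' := by
    change redEnd B Bp red (Ad 1) ∈ Bp.elem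
    rw [map_one, hR.redEnd_one]; exact one_mem _
  mul_mem' := by
    intro g h hg hh
    change redEnd B Bp red (Ad (g * h)) ∈ Bp.elem
    rw [map_mul, hR.redEnd_mul]; exact mul_mem hg hh
  inv_mem' := by
    intro g hg
    change redEnd B Bp red (Ad g⁻¹) ∈ Bp.elem
    obtain ⟨k, hk, h1, h2⟩ := Bp.elem_inv hG.isUnit720 hg
    have h3 : redEnd B Bp red (Ad g⁻¹) * redEnd B Bp red (Ad g) = 1 := by
      rw [← hR.redEnd_mul, ← map_mul, inv_mul_cancel, map_one, hR.redEnd_one]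
    have h4 : redEnd B Bp red (Ad g⁻¹) = k := by
      calc redEnd B Bp red (Ad g⁻¹) = redEnd B Bp red (Ad g⁻¹) * (redEnd B Bp red (Ad g) * k) := by
            rw [h1, mul_one]
        _ = k := by rw [← mul_assoc, h3, one_mul]
    rw [h4]; exact hk

theorem mem_elSub (hG : Good b f D p)
    {B : ChevalleyBasis b ℤ_[p] L} {Bp : ChevalleyBasis b (ZMod p) Lp} {red : L →+ Lp}
    (hR : RedData B Bp red) {Γ : Type*} [Group Γ] (Ad : Γ →* Module.End ℤ_[p] L) (g : Γ) :
    g ∈ elSub hG hR Ad ↔ redEnd B Bp red (Ad g) ∈ Bp.elem := Iff.rfl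

theorem congSub_le_elSub (hG : Good b f D p)
    {B : ChevalleyBasis b ℤ_[p] L} {Bp : ChevalleyBasis b (ZMod p) Lp} {red : L →+ Lp}
    (hR : RedData B Bp red) {Γ : Type*} [Group Γ] (Ad : Γ →* Module.End ℤ_[p] L) {i : ℕ}
    (hi : 1 ≤ i) : congSub Ad i ≤ elSub hG hR Ad := by
  intro g hg
  rw [mem_elSub, (hR.redEnd_eq_iff _ _).mpr (CongMod.mono hi hg), hR.redEnd_one]
  exact one_mem _

/-- a Lie endomorphism reduces to a Lie endomorphism -/
theorem redEnd_lie {B : ChevalleyBasis b ℤ_[p] L} {Bp : ChevalleyBasis b (ZMod p) Lp}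
    {red : L →+ Lp} (hR : RedData B Bp red) {g : Module.End ℤ_[p] L}
    (hg : ∀ x y, g ⁅x, y⁆ = ⁅g x, g y⁆) (x y : Lp) :
    redEnd B Bp red g ⁅x, y⁆ = ⁅redEnd B Bp red g x, redEnd B Bp red g y⁆ := by
  obtain ⟨x, rfl⟩ := hR.surj x
  obtain ⟨y, rfl⟩ := hR.surj y
  rw [← hR.lie, hR.redEnd_apply, hR.redEnd_apply, hR.redEnd_apply, hg, hR.lie]

theorem elSub_index (hG : Good b f D p)
    {B : ChevalleyBasis b ℤ_[p] L} {Bp : ChevalleyBasis b (ZMod p) Lp} {red : L →+ Lp}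
    (hR : RedData B Bp red) {Γ : Type*} [Group Γ] (Ad : Γ →* Module.End ℤ_[p] L)
    (hx : ∀ α t, ∃ g, Ad g = B.x α t) (hlie : ∀ g x y, Ad g ⁅x, y⁆ = ⁅Ad g x, Ad g y⁆) :
    Nat.Coprime p (elSub hG hR Ad).index := by
  classical
  have hLpf : Finite Lp := by
    have : Module.Finite (ZMod p) Lp := Module.Finite.of_basis Bp.basis
    exact Module.finite_of_finite (ZMod p)
  -- the reduction homomorphism
  obtain ⟨ρ0, hρ0⟩ : ∃ ρ0 : Γ →* Module.End (ZMod p) Lp, ∀ g, ρ0 g = redEnd B Bp red (Ad g) :=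
    ⟨{ toFun := fun g => redEnd B Bp red (Ad g)
       map_one' := by rw [map_one, hR.redEnd_one]
       map_mul' := by
         intro g h
         change redEnd B Bp red (Ad (g * h)) = redEnd B Bp red (Ad g) * redEnd B Bp red (Ad h)
         rw [map_mul, hR.redEnd_mul] }, fun g => rfl⟩
  let φ : Γ →* (Module.End (ZMod p) Lp)ˣ := ρ0.toHomUnits
  have hφ : ∀ g, ((φ g : (Module.End (ZMod p) Lp)ˣ) : Module.End (ZMod p) Lp) = ρ0 g :=
    fun g => rfl
  have hfE : Finite (Module.End (ZMod p) Lp) :=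
    Finite.of_injective (fun T : Module.End (ZMod p) Lp => (T : Lp → Lp)) DFunLike.coe_injective
  have hfU : Finite (Module.End (ZMod p) Lp)ˣ := Finite.of_injective _ Units.val_injective
  let ψ : Γ →* φ.range := φ.rangeRestrict
  have hψ : Function.Surjective ψ := φ.rangeRestrict_surjective
  let ρ : φ.range →* Module.End (ZMod p) Lp := (Units.coeHom _).comp φ.range.subtype
  have hρ : ∀ g, ρ (ψ g) = redEnd B Bp red (Ad g) := fun g => by rw [← hρ0]; rfl
  have hUc := Bp.index_coprime' hG ρ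
    (by
      intro g
      obtain ⟨g, rfl⟩ := hψ g
      rw [hρ]
      exact redEnd_lie hR (hlie g))
    (by
      intro α t
      obtain ⟨s, hs⟩ := ZMod.ringHom_surjective (PadicInt.toZMod (p := p)) t
      obtain ⟨g, hg⟩ := hx α s
      exact ⟨ψ g, by rw [hρ, hg, hR.redEnd_x hG, hs]⟩)
    (Bp.UU hG.isWt ρ 1) (fun g => by
      have := Bp.mem_UU hG.isWt ρ 1 g
      exact_mod_cast this)
  have h1 : ((Bp.UU hG.isWt ρ 1).comap ψ).index = (Bp.UU hG.isWt ρ 1).index :=
    Subgroup.index_comap_of_surjective _ hψ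
  have h2 : (Bp.UU hG.isWt ρ 1).comap ψ ≤ elSub hG hR Ad := by
    intro g hg
    rw [mem_elSub, ← hρ]
    apply UF_le_elem hG Bp
    have := (Bp.mem_UU hG.isWt ρ 1 (ψ g)).1 hg
    exact_mod_cast this
  have h3 := Subgroup.index_dvd_of_le h2
  rw [h1] at h3
  exact Nat.Coprime.coprime_dvd_right h3 hUc

/-- Splitting for groups of Lie automorphisms containing the root elements. -/
theorem splitGen [P.IsIrreducible] (hG : Good b f D p)
    {B : ChevalleyBasis b ℤ_[p] L} {Bp : ChevalleyBasis b (ZMod p) Lp} {red : L →+ Lp}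
    (hR : RedData B Bp red) {Γ : Type*} [Group Γ] (Ad : Γ →* Module.End ℤ_[p] L)
    (hx : ∀ α t, ∃ g, Ad g = B.x α t) (hlie : ∀ g x y, Ad g ⁅x, y⁆ = ⁅Ad g x, Ad g y⁆)
    (hcen : ∀ c ∈ Ad.ker, ∀ g, c * g = g * c)
    (hfi : ∀ i, (congSub Ad i).FiniteIndex)
    {E : Type*} [Group E] (π : E →* Γ) (hπ : Function.Surjective π)
    (j : Lp → E) (hj : ∀ x y, j (x + y) = j x * j y) (hjinj : Function.Injective j)
    (hjM : ∀ g, π g = 1 ↔ ∃ x, j x = g)
    (hjc : ∀ g x, g * j x * g⁻¹ = j (redEnd B Bp red (Ad (π g)) x))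
    (NE : Subgroup E) (hNEn : NE.Normal) (hNEf : NE.FiniteIndex) (hNEj : ∀ x, j x ∈ NE → x = 0)
    (n₀ : ℕ) (h1 : 1 ≤ n₀)
    (hn₀ : ∀ g : Γ, CongMod p n₀ (Ad g) 1 → ∃ c ∈ Ad.ker, ∃ ν ∈ NE, g = c * π ν) :
    ∃ H : Subgroup E, (∀ x, j x ∈ H → x = 0) ∧ (∀ g, ∃ h ∈ H, ∃ x, g = h * j x) ∧
      (∀ g ∈ NE, CongMod p (n₀ + 1) (Ad (π g)) 1 → g ∈ H) := by
  classical
  have hj0 : j 0 = 1 := by
    have := hj 0 0
    rw [add_zero] at this
    exact (left_eq_mul.mp this)
  have hjn : ∀ (n : ℕ) x, j (n • x) = j x ^ n := by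
    intro n x
    induction n with
    | zero => rw [zero_smul, hj0, pow_zero]
    | succ n ih => rw [succ_nsmul, hj, ih, pow_succ]
  set Γ' : Subgroup Γ := elSub hG hR Ad with hΓ'
  have hKΓ : ∀ i, 1 ≤ i → congSub Ad i ≤ Γ' := fun i hi => congSub_le_elSub hG hR Ad hi
  let E' : Subgroup E := Γ'.comap π
  have hjE' : ∀ x, j x ∈ E' := by
    intro x
    change π (j x) ∈ Γ'
    rw [(hjM _).2 ⟨x, rfl⟩]; exact one_mem _
  let π' : E' →* Γ' := (π.comp E'.subtype).codRestrict Γ' (fun g => g.2)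
  have hπ' : ∀ g : E', (π' g : Γ) = π g := fun g => rfl
  have hπ's : Function.Surjective π' := by
    rintro ⟨γ, hγ⟩
    obtain ⟨g, rfl⟩ := hπ γ
    exact ⟨⟨g, hγ⟩, Subtype.ext rfl⟩
  let Ad' : Γ' →* Module.End ℤ_[p] L := Ad.comp Γ'.subtype
  have hAd' : ∀ g : Γ', Ad' g = Ad g := fun g => rfl
  let j' : Lp → E' := fun x => ⟨j x, hjE' x⟩
  have hNE' : (NE.subgroupOf E').Normal := hNEn.subgroupOf E'
  obtain ⟨H', hH1, hH2, hH3⟩ := redMain2 hG hR Ad'
    (by
      intro α t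
      obtain ⟨g, hg⟩ := hx α t
      refine ⟨⟨g, ?_⟩, hg⟩
      rw [hΓ', mem_elSub, hg, hR.redEnd_x hG]
      exact Bp.x_mem _ _)
    (fun g => hlie g) (fun g => g.2)
    (fun c hc g => Subtype.ext (hcen c hc g))
    π' hπ's j' (fun x y => Subtype.ext (hj x y))
    (fun x y h => hjinj (congrArg Subtype.val h))
    (by
      intro g
      constructor
      · intro h
        have h2 : π g = 1 := by rw [← hπ', h]; rfl
        obtain ⟨x, hx⟩ := (hjM _).1 h2
        exact ⟨x, Subtype.ext hx⟩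
      · rintro ⟨x, rfl⟩
        exact Subtype.ext ((hjM _).2 ⟨x, rfl⟩))
    (fun g x => Subtype.ext (hjc g x))
    (NE.subgroupOf E') hNE' (fun x hx => hNEj x hx) n₀ h1
    (by
      intro g hg
      obtain ⟨c, hc, ν, hν, hcν⟩ := hn₀ g hg
      have hcΓ : c ∈ Γ' := by
        rw [hΓ', mem_elSub, (show Ad c = 1 from hc), hR.redEnd_one]; exact one_mem _
      have hνΓ : π ν ∈ Γ' := by
        have : π ν = c⁻¹ * g := by rw [hcν]; group
        rw [this]; exact mul_mem (inv_mem hcΓ) g.2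
      exact ⟨⟨c, hcΓ⟩, hc, ⟨ν, hνΓ⟩, hν, Subtype.ext hcν⟩)
  -- the finite quotient
  let Kt : Subgroup E := (congSub Ad (n₀ + 1)).comap π
  have hKtn : Kt.Normal := (congSub_normal Ad (n₀ + 1)).comap π
  let N : Subgroup E := NE ⊓ Kt
  have hNn : N.Normal := Subgroup.normal_inf_normal _ _
  have hKtf : Kt.FiniteIndex := by
    refine ⟨?_⟩
    have h2 : Kt.index = (congSub Ad (n₀ + 1)).index := Subgroup.index_comap_of_surjective _ hπ
    rw [h2]
    exact (hfi (n₀ + 1)).index_ne_zero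
  have hNf : N.FiniteIndex := inferInstance
  have hfin : Finite (E ⧸ N) := Subgroup.finite_quotient_of_finiteIndex
  let q : E →* E ⧸ N := QuotientGroup.mk' N
  have hqs : Function.Surjective q := QuotientGroup.mk'_surjective N
  have hqk : ∀ x, q x = 1 ↔ x ∈ N := fun x => QuotientGroup.eq_one_iff x
  have hNE'' : N ≤ E' := fun g hg => hKΓ _ (by omega) hg.2
  let H0 : Subgroup E := H'.map E'.subtype
  have hH0 : ∀ g (hg : g ∈ E'), g ∈ H0 ↔ (⟨g, hg⟩ : E') ∈ H' := by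
    intro g hg
    constructor
    · rintro ⟨h, hh, hhg⟩
      have : h = ⟨g, hg⟩ := Subtype.ext hhg
      rw [← this]; exact hh
    · intro h; exact ⟨_, h, rfl⟩
  have hNH : N ≤ H0 := by
    intro g hg
    rw [hH0 g (hNE'' hg)]
    exact hH3 _ hg.1 hg.2
  have hmem : ∀ (S : Subgroup E), N ≤ S → ∀ g, q g ∈ S.map q ↔ g ∈ S := by
    intro S hS g
    constructor
    · rintro ⟨y, hy, hyx⟩
      have h2 : y⁻¹ * g ∈ N := by rw [← hqk, map_mul, map_inv, hyx, inv_mul_cancel]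
      have := mul_mem hy (hS h2)
      rwa [mul_inv_cancel_left] at this
    · intro hx; exact ⟨g, hx, rfl⟩
  have hMn : (π.ker.map q).Normal := Subgroup.Normal.map inferInstance q hqs
  have hker : ∀ g, g ∈ π.ker ↔ ∃ x, j x = g := fun g => by rw [MonoidHom.mem_ker, hjM]
  obtain ⟨K, hK1, hK2⟩ := gaschutz (π.ker.map q) (E'.map q)
    (by
      rintro _ ⟨a, ha, rfl⟩ _ ⟨c, hc, rfl⟩
      obtain ⟨x, rfl⟩ := (hker a).1 ha
      obtain ⟨y, rfl⟩ := (hker c).1 hc
      rw [← map_mul, ← map_mul, ← hj, ← hj, add_comm])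
    (Subgroup.map_mono (fun g hg => by
      change π g ∈ Γ'
      rw [MonoidHom.mem_ker.1 hg]; exact one_mem _))
    (by
      have hLpf : Finite Lp := by
        have : Module.Finite (ZMod p) Lp := Module.Finite.of_basis Bp.basis
        exact Module.finite_of_finite (ZMod p)
      have hpg : IsPGroup p (π.ker.map q) := by
        rintro ⟨z, hz⟩
        refine ⟨1, ?_⟩
        obtain ⟨a, ha, rfl⟩ := hz
        obtain ⟨x, rfl⟩ := (hker a).1 ha
        apply Subtype.ext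
        change (q (j x)) ^ p ^ 1 = 1
        rw [pow_one, ← map_pow, ← hjn, ← Nat.cast_smul_eq_nsmul (ZMod p), CharP.cast_eq_zero,
          zero_smul, hj0, map_one]
      obtain ⟨k, hk⟩ := IsPGroup.iff_card.mp hpg
      have h2 : (E'.map q).index = Γ'.index := by
        rw [← Subgroup.index_comap_of_surjective _ hqs, Subgroup.comap_map_eq_self (by
          intro g hg
          exact hNE'' ((hqk g).1 hg))]
        exact Subgroup.index_comap_of_surjective _ hπ
      rw [hk, h2]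
      exact Nat.Coprime.pow_left k (elSub_index hG hR Ad hx hlie))
    (H0.map q)
    (by
      rw [eq_bot_iff]
      rintro z ⟨hz1, hz2⟩
      obtain ⟨a, ha, rfl⟩ := hz2
      have h2 : a ∈ H0 := (hmem H0 hNH a).1 hz1
      obtain ⟨x, rfl⟩ := (hker a).1 ha
      have h3 := (hH0 _ (hjE' x)).1 h2
      rw [hH1 x h3, hj0, map_one]
      exact Subgroup.mem_bot.2 rfl)
    (by
      apply le_antisymm
      · refine sup_le (Subgroup.map_mono ?_) (Subgroup.map_mono ?_)
        · rintro _ ⟨g, -, rfl⟩; exact g.2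
        · intro g hg
          change π g ∈ Γ'
          rw [MonoidHom.mem_ker.1 hg]; exact one_mem _
      · rintro _ ⟨g, hg, rfl⟩
        obtain ⟨h, hh, x, hhx⟩ := hH2 ⟨g, hg⟩
        have h2 : g = h * j x := congrArg Subtype.val hhx
        rw [h2, map_mul]
        exact Subgroup.mul_mem_sup ⟨h, ⟨h, hh, rfl⟩, rfl⟩ ⟨j x, (hker _).2 ⟨x, rfl⟩, rfl⟩)
  refine ⟨K.comap q, ?_, ?_, ?_⟩
  · intro x hxK
    have h2 : q (j x) ∈ K ⊓ π.ker.map q := ⟨hxK, ⟨j x, (hker _).mpr ⟨x, rfl⟩, rfl⟩⟩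
    rw [hK1, Subgroup.mem_bot, hqk] at h2
    exact hNEj x h2.1
  · intro g
    have h2 : q g ∈ K ⊔ π.ker.map q := by rw [hK2]; exact Subgroup.mem_top _
    rw [Subgroup.mem_sup_of_normal_right] at h2
    obtain ⟨k, hk, z, ⟨m, hm, rfl⟩, hkm⟩ := h2
    obtain ⟨x, rfl⟩ := (hker m).mp hm
    refine ⟨g * (j x)⁻¹, ?_, x, by group⟩
    rw [Subgroup.mem_comap, map_mul, map_inv, ← hkm, mul_inv_cancel_right]
    exact hk
  · intro g hg hgc
    rw [Subgroup.mem_comap, (hqk g).2 ⟨hg, hgc⟩]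
    exact one_mem _

end Ch4
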