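import Mathlib

/-! Functionals on root systems. -/

set_option linter.unusedVariables false

namespace Ch4

section Root

variable {ι X Y : Type*} [Finite ι] [AddCommGroup X] [Module ℚ X] [AddCommGroup Y] [Module ℚ Y]
  (P : RootPairing ι ℚ X Y) [P.IsRootSystem] [P.IsCrystallographic] [P.IsReduced]

omit [P.IsReduced] in
/-- Module RootFun (~150 lines), two theorems. `D` = determinant of the Cartan matrix, `m` =
adjugate matrix applied to `n`; every root is an integral combination of simple ones. -/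
theorem cartan_solve (b : P.Base) : ∃ D : ℤ, D ≠ 0 ∧ ∀ f : ι → ℤ,
    (∃ φ : X →ₗ[ℚ] ℚ, ∀ α, φ (P.root α) = f α) →
    ∃ m : b.support → ℤ, ∀ α, ∑ i : b.support, m i * P.pairingIn ℤ α i = D * f α := by
  classical
  refine ⟨b.cartanMatrix.det, Matrix.nondegenerate_iff_det_ne_zero.1 b.cartanMatrix_nondegenerate,
    ?_⟩
  rintro f ⟨φ, hφ⟩
  refine ⟨b.cartanMatrix.adjugate.mulVec (fun i => f i), fun α => ?_⟩
  set m := b.cartanMatrix.adjugate.mulVec (fun i : b.support => f i) with hm
  have h1 : b.cartanMatrix.mulVec m = b.cartanMatrix.det • fun i : b.support => f i := by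
    rw [hm, Matrix.mulVec_mulVec, Matrix.mul_adjugate, Matrix.smul_mulVec, Matrix.one_mulVec]
  have h2 : (∑ j : b.support, (m j : ℚ) • P.coroot' j) = (b.cartanMatrix.det : ℚ) • φ := by
    refine b.toWeightBasis.ext fun i => ?_
    have h3 := congrFun h1 i
    simp only [Matrix.mulVec, dotProduct, Pi.smul_apply, smul_eq_mul] at h3
    simp only [RootPairing.Base.toWeightBasis_apply, LinearMap.coe_sum, Finset.sum_apply,
      LinearMap.smul_apply, smul_eq_mul, P.root_coroot'_eq_pairing, hφ]
    rw [← Int.cast_mul, ← h3, Int.cast_sum]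
    refine Finset.sum_congr rfl fun j _ => ?_
    rw [Int.cast_mul, mul_comm]
    congr 1
    rw [← b.algebraMap_cartanMatrixIn_apply ℤ]
    simp
  have h4 := LinearMap.congr_fun h2 (P.root α)
  simp only [LinearMap.coe_sum, Finset.sum_apply,
      LinearMap.smul_apply, smul_eq_mul, P.root_coroot'_eq_pairing, hφ] at h4
  have h5 : ((∑ i : b.support, m i * P.pairingIn ℤ α i : ℤ) : ℚ) =
      ((b.cartanMatrix.det * f α : ℤ) : ℚ) := by
    rw [Int.cast_sum, Int.cast_mul, ← h4]
    refine Finset.sum_congr rfl fun j _ => ?_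
    rw [Int.cast_mul]
    congr 1
    rw [← P.algebraMap_pairingIn ℤ]
    simp
  exact_mod_cast h5

omit [P.IsReduced] in
/-- `f` = value at the roots of the functional `α_i ↦ B^i` (`i` = number of the simple root in some
enumeration), `B` large. -/
theorem exists_generic (b : P.Base) : ∃ f : ι → ℤ,
    (∃ φ : X →ₗ[ℚ] ℚ, ∀ α, φ (P.root α) = f α) ∧ (∀ α, b.IsPos α ↔ 0 < f α) ∧
    (∀ α, f α ≠ 0) ∧ Function.Injective f ∧
    (∀ α β γ, f α + f β = f γ → P.root α + P.root β = P.root γ) := by
  classical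
  obtain ⟨e, he⟩ := exists_injective_nat ι
  obtain ⟨φ, hφ⟩ : ∃ φ : ℕ → X →ₗ[ℚ] ℚ, ∀ B, φ B =
      b.toWeightBasis.constr ℚ (fun j : b.support => (B : ℚ) ^ (e j)) := ⟨_, fun _ => rfl⟩
  have hfin : ∀ x : X, x ≠ 0 → {B : ℕ | φ B x = 0}.Finite := by
    intro x hx
    obtain ⟨q, hqd⟩ : ∃ q : Polynomial ℚ, q = ∑ j : b.support,
      Polynomial.C (b.toWeightBasis.repr x j) * Polynomial.X ^ (e j) := ⟨_, rfl⟩
    have hq : q ≠ 0 := by
      obtain ⟨j, hj⟩ : ∃ j, b.toWeightBasis.repr x j ≠ 0 := by
        by_contra! h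
        exact hx (b.toWeightBasis.repr.map_eq_zero_iff.1 (Finsupp.ext h))
      intro h0
      apply hj
      have h1 : q.coeff (e j) = b.toWeightBasis.repr x j := by
        rw [hqd, Polynomial.finsetSum_coeff, Finset.sum_eq_single j]
        · simp
        · intro i _ hij
          rw [Polynomial.coeff_C_mul, Polynomial.coeff_X_pow, if_neg, mul_zero]
          intro h
          exact hij (Subtype.ext (he h)).symm
        · simp
      rw [← h1, h0, Polynomial.coeff_zero]
    have hsub : {B : ℕ | φ B x = 0} ⊆ (fun B : ℕ => (B : ℚ)) ⁻¹' (q.roots.toFinset : Set ℚ) := by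
      intro B hB
      have hB' : φ B x = 0 := hB
      have h1 : q.eval (B : ℚ) = φ B x := by
        rw [hφ, Module.Basis.constr_apply_fintype, hqd, Polynomial.eval_finsetSum]
        simp
      simp only [Set.mem_preimage, Finset.mem_coe, Multiset.mem_toFinset,
        Polynomial.mem_roots hq, Polynomial.IsRoot.def]
      rw [h1, hB']
    exact ((Finset.finite_toSet _).preimage Nat.cast_injective.injOn).subset hsub
  have hbad : ({0} ∪ (⋃ t : ι × ι, {B : ℕ | P.root t.1 - P.root t.2 ≠ 0 ∧
      φ B (P.root t.1 - P.root t.2) = 0}) ∪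
      (⋃ t : ι × ι × ι, {B : ℕ | P.root t.1 + P.root t.2.1 - P.root t.2.2 ≠ 0 ∧
      φ B (P.root t.1 + P.root t.2.1 - P.root t.2.2) = 0})).Finite := by
    refine ((Set.finite_singleton 0).union (Set.finite_iUnion fun t => ?_)).union
      (Set.finite_iUnion fun t => ?_)
    · by_cases h : P.root t.1 - P.root t.2 = 0
      · convert Set.finite_empty
        ext B
        simp [h]
      · exact (hfin _ h).subset fun B hB => hB.2
    · by_cases h : P.root t.1 + P.root t.2.1 - P.root t.2.2 = 0
      · convert Set.finite_empty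
        ext B
        simp [h]
      · exact (hfin _ h).subset fun B hB => hB.2
  obtain ⟨B, hB⟩ := hbad.exists_notMem
  simp only [Set.mem_union, Set.mem_iUnion, Set.mem_ofPred_eq, Set.mem_singleton_iff, not_or,
    not_exists, not_and, Prod.forall] at hB
  obtain ⟨⟨hB0, hB1⟩, hB2⟩ := hB
  have hBpos : (0 : ℤ) < B := by exact_mod_cast Nat.pos_of_ne_zero hB0
  choose c hc1 hc2 hc3 using fun i => b.exists_root_eq_sum_int i
  have hval : ∀ α, φ B (P.root α) = ((∑ j ∈ b.support, c α j * (B : ℤ) ^ (e j) : ℤ) : ℚ) := by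
    intro α
    rw [hc3 α, map_sum]
    push_cast
    refine Finset.sum_congr rfl fun j hj => ?_
    rw [map_zsmul, zsmul_eq_mul]
    congr 1
    have h1 : P.root j = b.toWeightBasis ⟨j, hj⟩ := by simp
    rw [h1, hφ, Module.Basis.constr_basis]
  have hposd : ∀ g : ι → ℤ, g.support ⊆ b.support → 0 < g → ∀ w : ι → ℤ, (∀ j, 0 < w j) →
      0 < ∑ j ∈ b.support, g j * w j := by
    intro g hg hg0 w hw
    obtain ⟨h1, j, hj⟩ := Pi.lt_def.1 hg0
    refine Finset.sum_pos' (fun i _ => mul_nonneg (h1 i) (hw i).le) ⟨j, ?_, mul_pos hj (hw j)⟩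
    exact hg (Function.mem_support.2 (ne_of_gt hj))
  have hposf : ∀ α, (b.IsPos α ↔ 0 < ∑ j ∈ b.support, c α j * (B : ℤ) ^ (e j)) ∧
      ∑ j ∈ b.support, c α j * (B : ℤ) ^ (e j) ≠ 0 := by
    intro α
    have hh := RootPairing.Base.height_eq_sum (hc3 α)
    rw [RootPairing.Base.isPos_iff, hh]
    rcases hc2 α with h | h
    · have h1 := hposd _ (hc1 α) h (fun _ => 1) (fun _ => one_pos)
      have h2 := hposd _ (hc1 α) h (fun j => (B : ℤ) ^ (e j)) (fun _ => pow_pos hBpos _)
      simp only [mul_one] at h1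
      exact ⟨⟨fun _ => h2, fun _ => h1⟩, h2.ne'⟩
    · have h' : 0 < - c α := by simpa using h
      have hs : (- c α).support ⊆ b.support := by
        rw [Function.support_neg]
        exact hc1 α
      have h1 := hposd _ hs h' (fun _ => 1) (fun _ => one_pos)
      have h2 := hposd _ hs h' (fun j => (B : ℤ) ^ (e j)) (fun _ => pow_pos hBpos _)
      simp only [mul_one, Pi.neg_apply, Finset.sum_neg_distrib, neg_mul] at h1 h2
      exact ⟨⟨fun h3 => by omega, fun h3 => by omega⟩, by omega⟩
  refine ⟨fun α => ∑ j ∈ b.support, c α j * (B : ℤ) ^ (e j), ⟨φ B, hval⟩, fun α => (hposf α).1,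
    fun α => (hposf α).2, ?_, ?_⟩
  · intro α β hαβ
    by_contra hne
    refine hB1 α β (sub_ne_zero.2 fun h => hne (P.root.injective h)) ?_
    dsimp only at hαβ
    rw [map_sub, hval, hval, hαβ, sub_self]
  · intro α β γ h
    by_contra hne
    refine hB2 α β γ (sub_ne_zero.2 hne) ?_
    dsimp only at h
    rw [map_sub, map_add, hval, hval, hval, ← h, Int.cast_add, sub_self]

end Root

end Ch4
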