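import Mathlib
import Pool.Agent.Lib.P4ba0d5.Base
import Pool.Agent.Lib.P4ba0d5.Good
import Pool.Agent.Lib.P4ba0d5.RootFun

/-! Module GoodE of MP_4ba0d5_al: existence of a generic weight and of `D`; every large `p` is
good. -/

set_option linter.unusedSectionVars false
set_option linter.unusedVariables false

namespace Ch4

open Module

variable {ι X Y : Type*} [Finite ι] [AddCommGroup X] [Module ℚ X] [AddCommGroup Y] [Module ℚ Y]
  {P : RootPairing ι ℚ X Y} [P.IsRootSystem] [P.IsCrystallographic] [P.IsReduced]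
  {b : P.Base} {f : ι → ℤ} {D : ℤ} {p : ℕ} [Fact p.Prime]

omit [P.IsReduced] in
theorem exists_good (b : P.Base) :
    ∃ (f : ι → ℤ) (D : ℤ) (p₀ : ℕ), ∀ p, p₀ < p → Good b f D p := by
  classical
  obtain ⟨f, h1, h2, h3, h4, h5⟩ := exists_generic P b
  obtain ⟨D, hD, hs⟩ := cartan_solve P b
  have hb : ∀ g : ι → ℤ, ∃ M : ℕ, ∀ α, 1000 * (|g α| + 1) * (|D| + 1) < M := by
    intro g
    have := Fintype.ofFinite ι
    refine ⟨∑ α, (1000 * ((g α).natAbs + 1) * (D.natAbs + 1) + 1) , fun α => ?_⟩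
    have h6 : 1000 * ((g α).natAbs + 1) * (D.natAbs + 1) + 1 ≤
      ∑ α, (1000 * ((g α).natAbs + 1) * (D.natAbs + 1) + 1) :=
      Finset.single_le_sum (f := fun α => 1000 * ((g α).natAbs + 1) * (D.natAbs + 1) + 1)
        (fun _ _ => Nat.zero_le _) (Finset.mem_univ α)
    have h7 : ((1000 * ((g α).natAbs + 1) * (D.natAbs + 1) + 1 : ℕ) : ℤ) ≤
      ((∑ α, (1000 * ((g α).natAbs + 1) * (D.natAbs + 1) + 1) : ℕ) : ℤ) := by
      exact_mod_cast h6
    have h8 : ((1000 * ((g α).natAbs + 1) * (D.natAbs + 1) + 1 : ℕ) : ℤ) =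
      1000 * (|g α| + 1) * (|D| + 1) + 1 := by
      rw [← Int.natCast_natAbs (g α), ← Int.natCast_natAbs D]
      push_cast
      ring
    omega
  obtain ⟨M1, hM1⟩ := hb f
  obtain ⟨M2, hM2⟩ := hb b.height
  refine ⟨f, D, M1 + M2 + (2 * Nat.card ι + 1000), fun p hp => ?_⟩
  have hp1 : (M1 : ℤ) ≤ p := by exact_mod_cast (by omega : M1 ≤ p)
  have hp2 : (M2 : ℤ) ≤ p := by exact_mod_cast (by omega : M2 ≤ p)
  exact ⟨h1, h2, h3, h4, h5, hD, hs, fun α => (hM1 α).trans_le hp1,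
    fun α => (hM2 α).trans_le hp2, (Nat.le_add_left _ _).trans_lt hp⟩

end Ch4
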