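import Mathlib
import Pool.Agent.Lib.P4ba0d5.GenSplit
import Pool.Agent.Lib.P4ba0d5.Cocyc
import Pool.Agent.Lib.P4ba0d5.GoodE
import Pool.Agent.Lib.P4ba0d5.BC

/-! Vanishing of the second continuous cohomology of profinite groups of Lie automorphisms of
`ℤ_p ⊗ LZ` which contain the root elements. -/

set_option linter.unusedSectionVars false
set_option linter.unusedVariables false

namespace Ch4

open Module

open scoped TensorProduct

universe u v w

variable {ι X Y : Type*} [Finite ι] [AddCommGroup X] [Module ℚ X] [AddCommGroup Y] [Module ℚ Y]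
  {P : RootPairing ι ℚ X Y} [P.IsRootSystem] [P.IsCrystallographic] [P.IsReduced]
  {b : P.Base} {f : ι → ℤ} {D : ℤ} {p : ℕ} [Fact p.Prime]

/-- Version for a fixed reduction. -/
theorem h2_red [P.IsIrreducible] (hG : Good b f D p)
    {L : Type*} [LieRing L] [LieAlgebra ℤ_[p] L] {Lp : Type v} [LieRing Lp]
    [LieAlgebra (ZMod p) Lp]
    {B : ChevalleyBasis b ℤ_[p] L} {Bp : ChevalleyBasis b (ZMod p) Lp} {red : L →+ Lp}
    (hR : RedData B Bp red) {Γ : Type u} [Group Γ] [TopologicalSpace Γ] [IsTopologicalGroup Γ]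
    [CompactSpace Γ] [T2Space Γ] [TotallyDisconnectedSpace Γ]
    (Ad : Γ →* Module.End ℤ_[p] L)
    (hopen : ∀ i, IsOpen {g | CongMod p i (Ad g) 1})
    (hx : ∀ α t, ∃ g, Ad g = B.x α t) (hlie : ∀ g x y, Ad g ⁅x, y⁆ = ⁅Ad g x, Ad g y⁆)
    (hcen : ∀ c ∈ Ad.ker, ∀ g, c * g = g * c)
    (act : Γ →* AddMonoid.End Lp) (hact : ∀ g x, act g x = redEnd B Bp red (Ad g) x) :
    H2Vanishes Γ Lp (fun g x => act g x) := by
  have hLpf : Finite Lp := by
    have : Module.Finite (ZMod p) Lp := Module.Finite.of_basis Bp.basis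
    exact Module.finite_of_finite (ZMod p)
  have hker : ∀ g, g ∈ (⨅ n, congSub Ad n : Subgroup Γ) ↔ g ∈ Ad.ker := by
    intro g
    rw [Subgroup.mem_iInf, MonoidHom.mem_ker]
    constructor
    · intro h
      ext x
      rw [← sub_eq_zero]
      apply eq_zero_of_forall_pow B
      intro n
      obtain ⟨y, hy⟩ := h n x
      exact ⟨y, by rw [hy]; abel⟩
    · intro h n
      rw [mem_congSub, h]; exact CongMod.refl n 1
  intro F hFc hF
  obtain ⟨c, hc, hcF⟩ := cocycle_trivial act (congSub Ad) (congSub_normal Ad) hopen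
    (fun n g hg => CongMod.mono (Nat.le_succ n) hg)
    (fun g hg => by
      ext x
      rw [hact, (hR.redEnd_eq_iff _ _).mpr hg, hR.redEnd_one]
      rfl)
    (by
      intro E _ π j hπ hj hjinj hjM hjc NE hNEn hNEf hNEj n₀ h1 hn₀
      exact splitGen hG hR Ad hx hlie hcen
        (fun i => by
          have : Finite (Γ ⧸ congSub Ad i) := Subgroup.quotient_finite_of_isOpen _ (hopen i)
          exact Subgroup.finiteIndex_of_finite_quotient)
        π hπ j hj hjinj hjM (fun g x => by rw [hjc, hact]) NE hNEn hNEf hNEj n₀ h1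
        (fun g hg => by
          obtain ⟨c, hc, ν, hν, hcν⟩ := hn₀ g hg
          exact ⟨c, (hker c).1 hc, ν, hν, hcν⟩))
    F (fun m => hFc.isOpen_fiber m) hF
  exact ⟨c, (IsLocallyConstant.iff_isOpen_fiber).2 hc, hcF⟩

/-- **Main theorem, general form.** -/
theorem h2_general [P.IsIrreducible] (hG : Good b f D p) {LZ : Type w} [LieRing LZ]
    (B : ChevalleyBasis b ℤ LZ)
    {Γ : Type u} [Group Γ] [TopologicalSpace Γ] [IsTopologicalGroup Γ]
    [CompactSpace Γ] [T2Space Γ] [TotallyDisconnectedSpace Γ]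
    (Ad : Γ →* Module.End ℤ_[p] (ℤ_[p] ⊗[ℤ] LZ))
    (hopen : ∀ i, IsOpen {g | CongMod p i (Ad g) 1})
    (hx : ∀ α t, ∃ g, Ad g = (B.baseChange ℤ_[p]).x α t)
    (hlie : ∀ g x y, Ad g ⁅x, y⁆ = ⁅Ad g x, Ad g y⁆)
    (hcen : ∀ c ∈ Ad.ker, ∀ g, c * g = g * c)
    (act : Γ →* AddMonoid.End ((ZMod p) ⊗[ℤ] LZ))
    (hact : ∀ g x, act g (redZ p LZ x) = redZ p LZ (Ad g x)) :
    H2Vanishes Γ ((ZMod p) ⊗[ℤ] LZ) (fun g x => act g x) := by
  have hR := redData_redZ B p
  refine h2_red hG hR Ad hopen hx hlie hcen act (fun g x => ?_)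
  obtain ⟨x, rfl⟩ := hR.surj x
  rw [hact, hR.redEnd_apply]

end Ch4
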