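import Mathlib
import Pool.Agent.Lib.P4ba0d5.Base
import Pool.Agent.Lib.P4ba0d5.BC
import Pool.Agent.Lib.P4ba0d5.Scheme

/-! Root elements over `ℤ_p` belong to the Chevalley group scheme for `p` large. -/

set_option linter.unusedSectionVars false
set_option linter.unusedVariables false

namespace Ch4

open Module

section PtsRootAux

/-- naturality of `evalPair` -/
theorem evalPair_map {n m R S : Type*} [CommRing R] [CommRing S] (φ : R →+* S)
    (q : MatPair n m R) (F : MvPolynomial ((n × n) ⊕ (m × m)) ℤ) :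
    evalPair (q.1.map φ, q.2.map φ) F = φ (evalPair q F) := by
  unfold evalPair
  rw [MvPolynomial.aeval_def, MvPolynomial.aeval_def, ← RingHom.coe_coe φ]
  have h := MvPolynomial.hom_eval₂ F (algebraMap ℤ R) φ
    (Sum.elim (fun ij : n × n => q.1 ij.1 ij.2) (fun ij : m × m => q.2 ij.1 ij.2))
  rw [RingHom.coe_coe, h]
  have h1 : φ.comp (algebraMap ℤ R) = algebraMap ℤ S := RingHom.ext_int _ _
  rw [h1]
  congr 1
  funext ij
  rcases ij with ij | ij <;> rfl

/-- truncated exponential `Σ_{k<m} c_k t^k A^k` of an integral matrix over a ring `R` -/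
def tE {n R : Type*} [Fintype n] [DecidableEq n] [CommRing R] (m : ℕ) (c : ℕ → R) (t : R)
    (A : Matrix n n ℤ) : Matrix n n R :=
  ∑ k ∈ Finset.range m, (c k * t ^ k) • (A.map (Int.castRingHom R)) ^ k

theorem tE_map {n R S : Type*} [Fintype n] [DecidableEq n] [CommRing R] [CommRing S]
    (φ : R →+* S) (m : ℕ) (c : ℕ → R) (t : R) (A : Matrix n n ℤ) (c' : ℕ → S)
    (hc : ∀ k < m, φ (c k) = c' k) :
    (tE m c t A).map φ = tE m c' (φ t) A := by
  unfold tE
  have h0 : ∀ M : Matrix n n R, M.map φ = φ.mapMatrix M := fun M => rfl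
  rw [h0, map_sum]
  refine Finset.sum_congr rfl fun k hk => ?_
  have h1 : φ.mapMatrix ((c k * t ^ k) • (A.map (Int.castRingHom R)) ^ k)
      = φ (c k * t ^ k) • φ.mapMatrix ((A.map (Int.castRingHom R)) ^ k) := by
    ext i j
    simp
  rw [h1, map_mul, map_pow, map_pow, hc k (Finset.mem_range.mp hk)]
  congr 2
  ext i j
  simp

theorem tE_eq_exp {n : Type*} [Fintype n] [DecidableEq n] (m : ℕ) (A : Matrix n n ℤ)
    (hA : (matQ A) ^ m = 0) (t : ℚ) :
    tE m (fun k => ((k.factorial : ℚ))⁻¹) t A = IsNilpotent.exp (t • matQ A) := by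
  have h1 : (t • matQ A) ^ m = 0 := by rw [smul_pow, hA, smul_zero]
  rw [IsNilpotent.exp_eq_sum h1]
  unfold tE
  refine Finset.sum_congr rfl fun k _ => ?_
  rw [smul_pow, smul_smul]
  rfl

end PtsRootAux

section PtsRoot

variable {ι X Y : Type*} [Fintype ι] [DecidableEq ι] [AddCommGroup X] [Module ℚ X] [AddCommGroup Y]
  [Module ℚ Y] {P : RootPairing ι ℚ X Y} [P.IsRootSystem] [P.IsCrystallographic] [P.IsReduced]
  {b : P.Base} {LZ : Type*} [LieRing LZ]
  (B : ChevalleyBasis b ℤ LZ) {n : Type*} [Fintype n] [DecidableEq n]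
  (ρ : LZ →+ Matrix n n ℤ)

open scoped TensorProduct

/-- the matrix of `x_α(t)` over `R` is a truncated exponential of the integral matrix of `ad e_α` -/
theorem toMatrix_x (R : Type*) [CommRing R] (α : ι) (t : R) :
    LinearMap.toMatrix (B.baseChange R).basis (B.baseChange R).basis ((B.baseChange R).x α t) =
      tE 4 (fun k => Ring.inverse (k.factorial : R)) t (adMat B (B.e α)) := by
  have had : LinearMap.toMatrix (B.baseChange R).basis (B.baseChange R).basis
      (LieAlgebra.ad R (R ⊗[ℤ] LZ) ((B.baseChange R).e α)) =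
      (adMat B (B.e α)).map (Int.castRingHom R) := by
    ext i j
    rw [LinearMap.toMatrix_apply, LieAlgebra.ad_apply, Matrix.map_apply, adMat_eq,
      LinearMap.toMatrix_apply, LieAlgebra.ad_apply]
    have h1 : (B.baseChange R).e α = (1 : R) ⊗ₜ[ℤ] B.e α := Basis.baseChange_apply _ _ _
    have h2 : (B.baseChange R).basis j = (1 : R) ⊗ₜ[ℤ] B.basis j := Basis.baseChange_apply _ _ _
    rw [h1, h2, LieAlgebra.ExtendScalars.bracket_tmul, mul_one]
    show (B.basis.baseChange R).repr ((1 : R) ⊗ₜ[ℤ] ⁅B.e α, B.basis j⁆) i = _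
    rw [Basis.baseChange_repr_tmul]
    simp
  have hpow : ∀ k : ℕ, LinearMap.toMatrix (B.baseChange R).basis (B.baseChange R).basis
      ((LieAlgebra.ad R (R ⊗[ℤ] LZ) (t • (B.baseChange R).e α)) ^ k) =
      t ^ k • ((adMat B (B.e α)).map (Int.castRingHom R)) ^ k := by
    intro k
    rw [map_smul, smul_pow, map_smul]
    congr 1
    induction k with
    | zero => rw [pow_zero, pow_zero]; exact LinearMap.toMatrix_one _
    | succ k ih =>
      rw [pow_succ, pow_succ, LinearMap.toMatrix_mul, ih, had]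
  rw [ChevalleyBasis.x, expNil, map_sum]
  unfold tE
  refine Finset.sum_congr rfl fun k _ => ?_
  rw [map_smul, hpow, smul_smul]

theorem exists_root_pt_aux (p : ℕ) [Fact p.Prime] (hp : Fintype.card n + 10 < p) (α : ι)
    (hnil : IsNilpotent (matQ (ρ (B.e α)))) (h4 : (adMat B (B.e α)) ^ 4 = 0) (t : ℤ_[p]) :
    ∃ g : Matrix n n ℤ_[p], (g, LinearMap.toMatrix (B.baseChange ℤ_[p]).basis
      (B.baseChange ℤ_[p]).basis ((B.baseChange ℤ_[p]).x α t)) ∈ chevPts B ρ ℤ_[p] := by
  classical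
  set m : ℕ := Fintype.card n + 10 with hm
  set cQ : ℕ → ℚ := fun k => ((k.factorial : ℚ))⁻¹ with hcQ
  -- the nilpotency order
  have hN : (matQ (ρ (B.e α))) ^ m = 0 := by
    obtain ⟨k, hk⟩ := hnil
    have h1 : (matQ (ρ (B.e α))) ^ (Fintype.card n) = 0 := by
      have := Matrix.isNilpotent_charpoly_sub_pow_of_isNilpotent ⟨k, hk⟩
      have h2 : (matQ (ρ (B.e α))).charpoly = Polynomial.X ^ Fintype.card n := by
        have := this.eq_zero
        exact sub_eq_zero.mp this
      have h3 := Matrix.aeval_self_charpoly (matQ (ρ (B.e α)))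
      rw [h2] at h3
      simpa using h3
    rw [hm, pow_add, h1, zero_mul]
  have hA : (matQ (adMat B (B.e α))) ^ 4 = 0 := by
    have : (matQ (adMat B (B.e α))) ^ 4 = (Int.castRingHom ℚ).mapMatrix ((adMat B (B.e α)) ^ 4) := by
      rw [map_pow]; rfl
    rw [this, h4, map_zero]
  -- factorials are units
  have hunit : ∀ k < m, IsUnit ((k.factorial : ℤ_[p])) := by
    intro k hk
    rw [PadicInt.isUnit_iff, PadicInt.norm_natCast_eq_one_iff]
    exact (Nat.Prime.coprime_iff_not_dvd Fact.out).mpr fun h =>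
        absurd ((Nat.Prime.dvd_factorial Fact.out).mp h) (by omega)
  have hinv : ∀ k < m, ((Ring.inverse (k.factorial : ℤ_[p]) : ℤ_[p]) : ℚ_[p]) =
      algebraMap ℚ ℚ_[p] (cQ k) := by
    intro k hk
    have h1 := Ring.mul_inverse_cancel _ (hunit k hk)
    have h2 := congrArg (fun z : ℤ_[p] => (z : ℚ_[p])) h1
    simp only [PadicInt.coe_mul, PadicInt.coe_natCast, PadicInt.coe_one] at h2
    have h3 : ((k.factorial : ℚ_[p])) ≠ 0 := by exact_mod_cast k.factorial_ne_zero
    rw [hcQ]
    simp only [map_inv₀, map_natCast]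
    field_simp
    linear_combination h2
  refine ⟨tE m (fun k => Ring.inverse (k.factorial : ℤ_[p])) t (ρ (B.e α)), ?_⟩
  rw [toMatrix_x]
  intro F hF
  -- the polynomial
  set f : Polynomial ℚ := evalPair
    (tE m (fun k => Polynomial.C (cQ k)) Polynomial.X (ρ (B.e α)),
      tE 4 (fun k => Polynomial.C (cQ k)) Polynomial.X (adMat B (B.e α))) F with hf
  have hev : ∀ (S : Type) [CommRing S] (φ : ℚ →+* S) (s : S),
      Polynomial.eval₂ φ s f = evalPair (tE m (fun k => φ (cQ k)) s (ρ (B.e α)),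
        tE 4 (fun k => φ (cQ k)) s (adMat B (B.e α))) F := by
    intro S _ φ s
    have h1 := evalPair_map (Polynomial.eval₂RingHom φ s)
      (tE m (fun k => Polynomial.C (cQ k)) Polynomial.X (ρ (B.e α)),
        tE 4 (fun k => Polynomial.C (cQ k)) Polynomial.X (adMat B (B.e α))) F
    rw [tE_map (Polynomial.eval₂RingHom φ s) m _ _ _ (fun k => φ (cQ k))
      (fun k _ => by simp), tE_map (Polynomial.eval₂RingHom φ s) 4 _ _ _ (fun k => φ (cQ k))
      (fun k _ => by simp)] at h1
    simp only [Polynomial.coe_eval₂RingHom, Polynomial.eval₂_X] at h1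
    rw [hf, ← h1]
  have hf0 : f = 0 := by
    apply Polynomial.funext
    intro s
    rw [Polynomial.eval_zero, ← Polynomial.eval₂_id, hev ℚ (RingHom.id ℚ) s]
    simp only [RingHom.id_apply]
    rw [hcQ, tE_eq_exp m _ hN, tE_eq_exp 4 _ hA]
    exact hF _ (Submonoid.subset_closure ⟨(α, s), rfl⟩)
  have hq := hev ℚ_[p] (algebraMap ℚ ℚ_[p]) (t : ℚ_[p])
  rw [hf0, Polynomial.eval₂_zero] at hq
  have hz := evalPair_map (PadicInt.Coe.ringHom (p := p))
    (tE m (fun k => Ring.inverse (k.factorial : ℤ_[p])) t (ρ (B.e α)),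
      tE 4 (fun k => Ring.inverse (k.factorial : ℤ_[p])) t (adMat B (B.e α))) F
  rw [tE_map (PadicInt.Coe.ringHom (p := p)) m _ _ _ (fun k => algebraMap ℚ ℚ_[p] (cQ k))
      (fun k hk => hinv k hk), tE_map (PadicInt.Coe.ringHom (p := p)) 4 _ _ _
      (fun k => algebraMap ℚ ℚ_[p] (cQ k)) (fun k hk => hinv k (by omega))] at hz
  have hz' : (0 : ℚ_[p]) = PadicInt.Coe.ringHom (evalPair
      (tE m (fun k => Ring.inverse (k.factorial : ℤ_[p])) t (ρ (B.e α)),
      tE 4 (fun k => Ring.inverse (k.factorial : ℤ_[p])) t (adMat B (B.e α))) F) := by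
    rw [← hz]; exact hq
  exact (Subtype.coe_injective (by rw [← map_zero (PadicInt.Coe.ringHom (p := p))] at hz'; exact hz')).symm

/-- `ρ(e_α)` is nilpotent: with `H = ρ(h_α)`, `[H, N^k] = 2k N^k`, and `ad H` has finitely many
eigenvalues. -/
theorem nilpotent_rho_aux (hρ : ∀ x y, ρ ⁅x, y⁆ = ρ x * ρ y - ρ y * ρ x) (α : ι) :
    IsNilpotent (matQ (ρ (B.e α))) := by
  classical
  set N : Matrix n n ℚ := matQ (ρ (B.e α)) with hN
  set H : Matrix n n ℚ := matQ (ρ (B.hc α)) with hH
  have hmul : ∀ A C : Matrix n n ℤ, matQ (A * C) = matQ A * matQ C := fun A C =>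
    (Int.castRingHom ℚ).mapMatrix.map_mul A C
  have hHN : H * N - N * H = (2 : ℚ) • N := by
    have h1 : ⁅B.hc α, B.e α⁆ = (2 : ℤ) • B.e α := by
      rw [B.lie_hc, RootPairing.pairingIn_same]
      rfl
    have h2 := hρ (B.hc α) (B.e α)
    rw [h1, map_zsmul] at h2
    have h3 := congrArg matQ h2
    have h4 : matQ (ρ (B.hc α) * ρ (B.e α) - ρ (B.e α) * ρ (B.hc α)) = H * N - N * H := by
      rw [hH, hN, ← hmul, ← hmul]
      ext i j
      simp [matQ]
    rw [h4] at h3
    rw [← h3, hN]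
    ext i j
    rw [matQ, Matrix.map_apply, Matrix.smul_apply, Matrix.smul_apply, matQ, Matrix.map_apply]
    simp
  have hpow : ∀ k : ℕ, H * N ^ k - N ^ k * H = (2 * k : ℚ) • N ^ k := by
    intro k
    induction k with
    | zero => simp
    | succ k ih =>
      have : H * N ^ (k + 1) - N ^ (k + 1) * H =
          (H * N ^ k - N ^ k * H) * N + N ^ k * (H * N - N * H) := by
        rw [pow_succ]; noncomm_ring
      rw [this, ih, hHN, pow_succ]
      push_cast
      rw [smul_mul_assoc, mul_smul_comm, ← add_smul]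
      congr 1
      ring
  by_contra hcon
  have hne : ∀ k, N ^ k ≠ 0 := fun k hk => hcon ⟨k, hk⟩
  set T : Module.End ℚ (Matrix n n ℚ) := LinearMap.mulLeft ℚ H - LinearMap.mulRight ℚ H with hT
  have hev : ∀ k : ℕ, T.HasEigenvalue (2 * k : ℚ) := by
    intro k
    apply Module.End.hasEigenvalue_of_hasEigenvector (x := N ^ k)
    refine ⟨?_, hne k⟩
    rw [Module.End.mem_eigenspace_iff]
    simp only [hT, LinearMap.sub_apply, LinearMap.mulLeft_apply, LinearMap.mulRight_apply]
    exact hpow k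
  have hfin := Module.End.finite_hasEigenvalue T
  have hinj : Function.Injective (fun k : ℕ => (2 * k : ℚ)) := by
    intro a b hab
    have : (2 * a : ℚ) = 2 * b := hab
    have : (a : ℚ) = b := by linarith
    exact_mod_cast this
  exact Set.infinite_of_injective_forall_mem hinj hev hfin

theorem adMat_pow_four_aux (α : ι) : (adMat B (B.e α)) ^ 4 = 0 := by
  have h := B.ad_e_pow_four α
  have h2 := congrArg (LinearMap.toMatrix B.basis B.basis) h
  rw [map_zero] at h2
  rw [← h2, adMat_eq, LinearMap.toMatrix_pow]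

/-- Root elements over `ℤ_p` are points of the Chevalley group scheme when `p > card n + 10`. -/
theorem exists_root_pt (p : ℕ) [Fact p.Prime] (hp : Fintype.card n + 10 < p)
    (hρ : ∀ x y, ρ ⁅x, y⁆ = ρ x * ρ y - ρ y * ρ x) (α : ι) (t : ℤ_[p]) :
    ∃ g : Matrix n n ℤ_[p], (g, LinearMap.toMatrix (B.baseChange ℤ_[p]).basis
      (B.baseChange ℤ_[p]).basis ((B.baseChange ℤ_[p]).x α t)) ∈ chevPts B ρ ℤ_[p] :=
  exists_root_pt_aux B ρ p hp α (nilpotent_rho_aux B ρ hρ α) (adMat_pow_four_aux B α) t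

end PtsRoot

end Ch4
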