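import Mathlib

/-! # Topology of the unit group of matrices over the `p`-adic integers -/

set_option linter.unusedSectionVars false
set_option linter.unusedVariables false

namespace Ch4

section TopMat

variable {n : Type*} [Fintype n] [DecidableEq n] (p : ℕ) [Fact p.Prime]

instance instCompactMat : CompactSpace (Matrix n n ℤ_[p]) :=
  inferInstanceAs (CompactSpace (n → n → ℤ_[p]))

instance instTDPadicInt : TotallyDisconnectedSpace ℤ_[p] := by
  infer_instance

instance instTDMat : TotallyDisconnectedSpace (Matrix n n ℤ_[p]) :=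
  inferInstanceAs (TotallyDisconnectedSpace (n → n → ℤ_[p]))

instance instCompactUnits : CompactSpace (Matrix n n ℤ_[p])ˣ := by
  infer_instance

instance instT2Units : T2Space (Matrix n n ℤ_[p])ˣ := by
  infer_instance

instance instTDUnits : TotallyDisconnectedSpace (Matrix n n ℤ_[p])ˣ := by
  constructor
  intro s _ hs x hx y hy
  have h1 : ((x : Matrix n n ℤ_[p])) = y :=
    (hs.image _ Units.continuous_val.continuousOn).subsingleton
      (Set.mem_image_of_mem _ hx) (Set.mem_image_of_mem _ hy)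
  exact Units.ext h1

instance instTGUnits : IsTopologicalGroup (Matrix n n ℤ_[p])ˣ := by
  infer_instance

/-- congruence subgroups are open -/
theorem isOpen_congr (k : ℕ) : IsOpen {g : (Matrix n n ℤ_[p])ˣ |
    ∀ i j, ∃ c : ℤ_[p], (g : Matrix n n ℤ_[p]) i j = (1 : Matrix n n ℤ_[p]) i j + (p : ℤ_[p]) ^ k * c} := by
  have h0 : {g : (Matrix n n ℤ_[p])ˣ |
    ∀ i j, ∃ c : ℤ_[p], (g : Matrix n n ℤ_[p]) i j = (1 : Matrix n n ℤ_[p]) i j + (p : ℤ_[p]) ^ k * c}
    = ⋂ i : n, ⋂ j : n, {g : (Matrix n n ℤ_[p])ˣ |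
      ‖(g : Matrix n n ℤ_[p]) i j - (1 : Matrix n n ℤ_[p]) i j‖ < (p : ℝ) ^ (-(k : ℤ) + 1)} := by
    ext g
    simp only [Set.mem_ofPred_eq, Set.mem_iInter]
    refine forall_congr' fun i => forall_congr' fun j => ?_
    rw [← PadicInt.norm_le_pow_iff_norm_lt_pow_add_one, PadicInt.norm_le_pow_iff_mem_span_pow,
      Ideal.mem_span_singleton]
    constructor
    · rintro ⟨c, hc⟩
      exact ⟨c, by rw [hc]; ring⟩
    · rintro ⟨c, hc⟩
      exact ⟨c, by rw [← hc]; ring⟩
  rw [h0]
  refine isOpen_iInter_of_finite fun i => isOpen_iInter_of_finite fun j => ?_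
  refine isOpen_lt ?_ continuous_const
  have h1 : Continuous fun g : (Matrix n n ℤ_[p])ˣ => (g : Matrix n n ℤ_[p]) i j :=
    Units.continuous_val.matrix_elem i j
  exact (h1.sub continuous_const).norm

/-- zero sets of polynomials are closed -/
theorem isClosed_zeros {m : Type*} [Fintype m] [DecidableEq m]
    (F : MvPolynomial ((n × n) ⊕ (m × m)) ℤ) :
    IsClosed {g : (Matrix n n ℤ_[p])ˣ × (Matrix m m ℤ_[p])ˣ |
      MvPolynomial.aeval (Sum.elim (fun ij => (g.1 : Matrix n n ℤ_[p]) ij.1 ij.2)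
        (fun ij => (g.2 : Matrix m m ℤ_[p]) ij.1 ij.2)) F = 0} := by
  refine isClosed_eq ?_ continuous_const
  have h1 : Continuous fun g : (Matrix n n ℤ_[p])ˣ × (Matrix m m ℤ_[p])ˣ =>
      (Sum.elim (fun ij : n × n => (g.1 : Matrix n n ℤ_[p]) ij.1 ij.2)
        (fun ij : m × m => (g.2 : Matrix m m ℤ_[p]) ij.1 ij.2)) := by
    refine continuous_pi fun u => ?_
    rcases u with ij | ij
    · exact (Units.continuous_val.comp continuous_fst).matrix_elem ij.1 ij.2
    · exact (Units.continuous_val.comp continuous_snd).matrix_elem ij.1 ij.2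
  have h2 : Continuous fun v : (n × n) ⊕ (m × m) → ℤ_[p] => MvPolynomial.aeval v F := by
    simp only [MvPolynomial.aeval_def, MvPolynomial.eval₂_eq']
    fun_prop
  exact h2.comp h1

end TopMat

end Ch4
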