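import Mathlib
import Pool.Agent.Lib.P4ba0d5.General
import Pool.Agent.Lib.P4ba0d5.Chev
import Pool.Agent.Lib.P4ba0d5.PtsRoot
import Pool.Agent.Lib.P4ba0d5.TopMat

/-! The group of `ℤ_p`-points of the Chevalley group scheme satisfies the hypotheses of the general
theorem. -/

set_option linter.unusedSectionVars false
set_option linter.unusedVariables false

namespace Ch4

open Module

open scoped TensorProduct

section Aux

variable {ι X Y : Type*} [Fintype ι] [DecidableEq ι] [AddCommGroup X] [Module ℚ X] [AddCommGroup Y]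
  [Module ℚ Y] {P : RootPairing ι ℚ X Y} [P.IsRootSystem] [P.IsCrystallographic] [P.IsReduced]
  {b : P.Base} {LZ : Type*} [LieRing LZ]
  (B : ChevalleyBasis b ℤ LZ) {n : Type*} [Fintype n] [DecidableEq n]
  (ρ : LZ →+ Matrix n n ℤ) (hρ : ∀ x y, ρ ⁅x, y⁆ = ρ x * ρ y - ρ y * ρ x)
  (p : ℕ) [Fact p.Prime]

theorem isClosed_chevZp : IsClosed (chevZp B ρ hρ p : Set ((Matrix n n ℤ_[p])ˣ ×
    (Matrix (b.support ⊕ ι) (b.support ⊕ ι) ℤ_[p])ˣ)) := by
  have h : (chevZp B ρ hρ p : Set ((Matrix n n ℤ_[p])ˣ ×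
      (Matrix (b.support ⊕ ι) (b.support ⊕ ι) ℤ_[p])ˣ)) =
      ⋂ F : {F : MvPolynomial ((n × n) ⊕ ((b.support ⊕ ι) × (b.support ⊕ ι))) ℤ //
        ∀ g ∈ chevQ B ρ, evalPair g F = 0},
      {g | MvPolynomial.aeval (Sum.elim (fun ij => (g.1 : Matrix n n ℤ_[p]) ij.1 ij.2)
        (fun ij => (g.2 : Matrix (b.support ⊕ ι) (b.support ⊕ ι) ℤ_[p]) ij.1 ij.2)) F.1 = 0} := by
    ext g
    rw [Set.mem_iInter]
    constructor
    · intro hg F
      exact hg F.1 F.2
    · intro hg F hF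
      exact hg ⟨F, hF⟩
  rw [h]
  exact isClosed_iInter fun F => isClosed_zeros p F.1

/-- a matrix of determinant one as a unit -/
def unitOfDet {m R : Type*} [Fintype m] [DecidableEq m] [CommRing R] (a : Matrix m m R)
    (h : a.det = 1) : (Matrix m m R)ˣ where
  val := a
  inv := a.adjugate
  val_inv := by rw [Matrix.mul_adjugate, h, one_smul]
  inv_val := by rw [Matrix.adjugate_mul, h, one_smul]

theorem exists_chevZp {q : MatPair n (b.support ⊕ ι) ℤ_[p]} (hq : q ∈ chevPts B ρ ℤ_[p]) :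
    ∃ g : chevZp B ρ hρ p, pairVal g.1 = q := by
  obtain ⟨h1, h2⟩ := det_pts B ρ hρ hq
  exact ⟨⟨(unitOfDet q.1 h1, unitOfDet q.2 h2), hq⟩, rfl⟩

theorem chevAd_root (hp : Fintype.card n + 10 < p) (α : ι) (t : ℤ_[p]) :
    ∃ g, chevAd B ρ hρ p g = (B.baseChange ℤ_[p]).x α t := by
  obtain ⟨a, ha⟩ := exists_root_pt B ρ p hp hρ α t
  obtain ⟨g, hg⟩ := exists_chevZp B ρ hρ p ha
  refine ⟨g, ?_⟩
  have h2 : (g.1.2 : Matrix (b.support ⊕ ι) (b.support ⊕ ι) ℤ_[p]) =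
      LinearMap.toMatrix (B.baseChange ℤ_[p]).basis (B.baseChange ℤ_[p]).basis
        ((B.baseChange ℤ_[p]).x α t) := congrArg Prod.snd hg
  rw [chevAd_apply, h2, Matrix.toLin_toMatrix]

theorem chevAd_lie (g : chevZp B ρ hρ p) (x y : ℤ_[p] ⊗[ℤ] LZ) :
    chevAd B ρ hρ p g ⁅x, y⁆ = ⁅chevAd B ρ hρ p g x, chevAd B ρ hρ p g y⁆ :=
  lie_pts B ρ g.2 x y

theorem chevAd_ker (c : chevZp B ρ hρ p) (hc : c ∈ (chevAd B ρ hρ p).ker)
    (g : chevZp B ρ hρ p) : c * g = g * c := by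
  have h1 : (c.1.2 : Matrix (b.support ⊕ ι) (b.support ⊕ ι) ℤ_[p]) = 1 := by
    have h2 : chevAd B ρ hρ p c = 1 := hc
    rw [chevAd_apply] at h2
    have h3 := congrArg (LinearMap.toMatrix (B.baseChange ℤ_[p]).basis
      (B.baseChange ℤ_[p]).basis) h2
    rw [LinearMap.toMatrix_toLin] at h3
    rw [h3]
    exact LinearMap.toMatrix_one _
  have h4 : ((c.1.1 : Matrix n n ℤ_[p]), (1 : Matrix (b.support ⊕ ι) (b.support ⊕ ι) ℤ_[p])) ∈
      chevPts B ρ ℤ_[p] := by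
    rw [← h1]; exact c.2
  have h5 := central_pts B ρ p hρ h4 g.2
  apply Subtype.ext
  refine Prod.ext (Units.ext h5) (Units.ext ?_)
  change (c.1.2 : Matrix (b.support ⊕ ι) (b.support ⊕ ι) ℤ_[p]) * g.1.2 = g.1.2 * c.1.2
  rw [h1, one_mul, mul_one]

theorem isOpen_congMod (i : ℕ) : IsOpen {g | CongMod p i (chevAd B ρ hρ p g) 1} := by
  have h : {g | CongMod p i (chevAd B ρ hρ p g) 1} =
      (fun g : chevZp B ρ hρ p => g.1.2) ⁻¹' {g | ∀ k l, ∃ c : ℤ_[p],
        (g : Matrix (b.support ⊕ ι) (b.support ⊕ ι) ℤ_[p]) k l =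
        (1 : Matrix (b.support ⊕ ι) (b.support ⊕ ι) ℤ_[p]) k l + (p : ℤ_[p]) ^ i * c} := by
    ext g
    simp only [Set.mem_setOf_eq, Set.mem_preimage]
    constructor
    · intro h k l
      obtain ⟨y, hy⟩ := h ((B.baseChange ℤ_[p]).basis l)
      refine ⟨(B.baseChange ℤ_[p]).basis.repr y k, ?_⟩
      rw [chevAd_apply, Matrix.toLin_self, Module.End.one_apply] at hy
      have h2 := congrArg (fun z => (B.baseChange ℤ_[p]).basis.repr z k) hy
      simp only [map_sum, map_smul, map_add, Finsupp.add_apply, Finsupp.smul_apply,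
        Basis.repr_self, smul_eq_mul, Finsupp.finsetSum_apply, Finsupp.single_apply] at h2
      rw [Matrix.one_apply]
      simpa [eq_comm] using h2
    · intro h
      choose c hc using h
      intro x
      refine ⟨Matrix.toLin (B.baseChange ℤ_[p]).basis (B.baseChange ℤ_[p]).basis
        (Matrix.of c) x, ?_⟩
      have h2 : (g.1.2 : Matrix (b.support ⊕ ι) (b.support ⊕ ι) ℤ_[p]) =
          1 + ((p : ℤ_[p]) ^ i) • Matrix.of c := by
        ext k l
        simp [hc]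
      rw [chevAd_apply, h2, map_add, map_smul, Matrix.toLin_one]
      rfl
  rw [h]
  exact (isOpen_congr p i).preimage (continuous_snd.comp continuous_subtype_val)

end Aux

open scoped TensorProduct in
/-- The main theorem of this folder. -/
theorem chevalley_h2 {ι X Y : Type*} [Fintype ι] [DecidableEq ι] [AddCommGroup X] [Module ℚ X]
    [AddCommGroup Y] [Module ℚ Y] (P : RootPairing ι ℚ X Y) [P.IsRootSystem]
    [P.IsCrystallographic] [P.IsReduced] [P.IsIrreducible] (b : P.Base) :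
    ∃ p₀ : ℕ, ∀ (LZ : Type*) [LieRing LZ] (B : ChevalleyBasis b ℤ LZ)
      (n : Type*) [Fintype n] [DecidableEq n] (ρ : LZ →+ Matrix n n ℤ), IsRep ρ →
      ∀ (p : ℕ) [Fact p.Prime], p₀ < p → Fintype.card n + 10 < p →
      ∃ G : Subgroup ((Matrix n n ℤ_[p])ˣ × (Matrix (b.support ⊕ ι) (b.support ⊕ ι) ℤ_[p])ˣ),
        IsChevZp B ρ p G ∧
        H2Vanishes G ((ZMod p) ⊗[ℤ] LZ) (fun g => adjointAct B p g.1.2) := by
  obtain ⟨f, D, p₀, hgood⟩ := exists_good b
  refine ⟨p₀, ?_⟩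
  intro LZ _ B n _ _ ρ hρ p _ hp hn
  refine ⟨chevZp B ρ hρ p, fun g => Iff.rfl, ?_⟩
  have hcomp : CompactSpace (chevZp B ρ hρ p) :=
    isCompact_iff_compactSpace.mp (isClosed_chevZp B ρ hρ p).isCompact
  exact h2_general (hgood p hp) B (chevAd B ρ hρ p) (isOpen_congMod B ρ hρ p)
    (chevAd_root B ρ hρ p hn) (chevAd_lie B ρ hρ p)
    (fun c hc g => chevAd_ker B ρ hρ p c hc g) (chevAct B ρ hρ p) (chevAct_red B ρ hρ p)

end Ch4
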